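import Pool.Agent.RRC.St1

/-!
# RRC: from left-symmetric algebras to admissible collections

Module B2: `thm_B2 : St_B2`.
-/

set_option autoImplicit false

noncomputable section

namespace Pool.Agent.RRC

open scoped Polynomial

namespace B2

open Helper28.Nij

variable {n : ℕ}

/-- the matrix of linear forms of an algebra -/
def Mx (m : (Fin n → ℝ) →ₗ[ℝ] (Fin n → ℝ) →ₗ[ℝ] (Fin n → ℝ)) :
    Matrix (Fin n) (Fin n) (MvPolynomial (Fin n) ℝ) :=
  Matrix.of fun i j => ∑ k, MvPolynomial.C (m (Pi.single j 1) (Pi.single k 1) i) *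
    MvPolynomial.X k

theorem Mx_homog (m : (Fin n → ℝ) →ₗ[ℝ] (Fin n → ℝ) →ₗ[ℝ] (Fin n → ℝ)) (i j : Fin n) :
    (Mx m i j).IsHomogeneous 1 := by
  have h0 : Mx m i j = ∑ k, MvPolynomial.C (m (Pi.single j 1) (Pi.single k 1) i) *
    MvPolynomial.X k := rfl
  rw [h0]
  refine MvPolynomial.IsHomogeneous.sum _ _ _ fun k _ => ?_
  have h := (MvPolynomial.isHomogeneous_C (Fin n)
    (m (Pi.single j 1) (Pi.single k 1) i)).mul (MvPolynomial.isHomogeneous_X ℝ k)
  rwa [zero_add] at h

theorem sum_single (x : Fin n → ℝ) : x = ∑ k, x k • (Pi.single k 1 : Fin n → ℝ) := by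
  ext i
  simp [Finset.sum_apply, Pi.single_apply]

theorem eval_Mx (m : (Fin n → ℝ) →ₗ[ℝ] (Fin n → ℝ) →ₗ[ℝ] (Fin n → ℝ)) (x : Fin n → ℝ)
    (i j : Fin n) : MvPolynomial.eval x (Mx m i j) = m (Pi.single j 1) x i := by
  have h1 : m (Pi.single j 1) x = ∑ k, x k • m (Pi.single j 1) (Pi.single k 1) := by
    conv_lhs => rw [sum_single x, map_sum]
    simp only [map_smul]
  rw [h1]
  simp only [Mx, Matrix.of_apply, map_sum, map_mul, MvPolynomial.eval_C, MvPolynomial.eval_X,
    Finset.sum_apply, Pi.smul_apply, smul_eq_mul]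
  exact Finset.sum_congr rfl fun k _ => mul_comm _ _

theorem map_Mx (m : (Fin n → ℝ) →ₗ[ℝ] (Fin n → ℝ) →ₗ[ℝ] (Fin n → ℝ)) (x : Fin n → ℝ) :
    (Mx m).map (MvPolynomial.eval x) = LinearMap.toMatrix' (m.flip x) := by
  ext i j
  rw [Matrix.map_apply, eval_Mx, LinearMap.toMatrix'_apply]
  rfl

theorem eval_coeff (m : (Fin n → ℝ) →ₗ[ℝ] (Fin n → ℝ) →ₗ[ℝ] (Fin n → ℝ)) (x : Fin n → ℝ)
    (k : ℕ) : MvPolynomial.eval x ((Mx m).charpoly.coeff k) = (m.flip x).charpoly.coeff k := by
  rw [← Polynomial.coeff_map, ← Matrix.charpoly_map, map_Mx,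
    ← LinearMap.charpoly_toMatrix (m.flip x) (Pi.basisFun ℝ (Fin n)),
    LinearMap.toMatrix_eq_toMatrix']

/-- the coefficients of the characteristic polynomial of a matrix of linear forms -/
theorem coeff_homog (M : Matrix (Fin n) (Fin n) (MvPolynomial (Fin n) ℝ))
    (hM : ∀ i j, (M i j).IsHomogeneous 1) (i j : ℕ) (h : i + j = n) :
    (M.charpoly.coeff i).IsHomogeneous j := by
  have h1 := Matrix.charpoly.univ_coeff_isHomogeneous ℝ (Fin n) i j (by rw [h, Fintype.card_fin])
  have h2 := Matrix.charpoly.univ_coeff_eval₂Hom (Fin n)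
    (MvPolynomial.C : ℝ →+* MvPolynomial (Fin n) ℝ) (Function.uncurry M) i
  have h3 : (Matrix.of (Function.curry (Function.uncurry M))) = M := rfl
  rw [h3] at h2
  rw [← h2]
  have h4 := h1.eval₂ (MvPolynomial.C : ℝ →+* MvPolynomial (Fin n) ℝ) (Function.uncurry M)
    (fun r => MvPolynomial.isHomogeneous_C _ _) (fun p => hM p.1 p.2)
  rwa [one_mul] at h4

/-- the derivative of a polynomial function along a line -/
theorem hasDeriv (F : MvPolynomial (Fin n) ℝ) (x w : Fin n → ℝ) :
    HasDerivAt (fun q : ℝ => MvPolynomial.eval (x + q • w) F)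
      (∑ j, MvPolynomial.eval x (MvPolynomial.pderiv j F) * w j) 0 := by
  induction F using MvPolynomial.induction_on with
  | C a =>
    simp only [MvPolynomial.eval_C, MvPolynomial.pderiv_C, map_zero, zero_mul,
      Finset.sum_const_zero]
    exact hasDerivAt_const _ _
  | add p q hp hq =>
    simp only [map_add, add_mul, Finset.sum_add_distrib]
    exact hp.add hq
  | mul_X p i hp =>
    have h1 : HasDerivAt (fun q : ℝ => (x + q • w) i) (w i) 0 := by
      have h2 : HasDerivAt (fun q : ℝ => x i + q * w i) (1 * w i) 0 :=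
        ((hasDerivAt_id (0 : ℝ)).mul_const (w i)).const_add (x i)
      rw [one_mul] at h2
      exact h2
    have h2 := hp.mul h1
    simp only [zero_smul, add_zero] at h2
    have h3 : (∑ j, MvPolynomial.eval x (MvPolynomial.pderiv j (p * MvPolynomial.X i)) * w j) =
        (∑ j, MvPolynomial.eval x (MvPolynomial.pderiv j p) * w j) * x i +
          MvPolynomial.eval x p * w i := by
      rw [Finset.sum_mul]
      have h4 : MvPolynomial.eval x p * w i =
          ∑ j, (if j = i then MvPolynomial.eval x p * w j else 0) := by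
        rw [Finset.sum_ite_eq' Finset.univ i, if_pos (Finset.mem_univ _)]
      rw [h4, ← Finset.sum_add_distrib]
      refine Finset.sum_congr rfl fun j _ => ?_
      rw [MvPolynomial.pderiv_mul, map_add, map_mul, map_mul, MvPolynomial.eval_X,
        MvPolynomial.pderiv_X, Pi.single_apply]
      by_cases hj : j = i
      · subst hj
        simp
        ring
      · rw [if_neg hj, if_neg fun h => hj h.symm]
        simp
        ring
    rw [h3]
    have h5 : (fun q : ℝ => MvPolynomial.eval (x + q • w) (p * MvPolynomial.X i)) =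
        (fun q : ℝ => MvPolynomial.eval (x + q • w) p) * fun q : ℝ => (x + q • w) i := by
      funext q
      rw [map_mul, MvPolynomial.eval_X]
      rfl
    rw [h5]
    exact h2

/-- the directional derivatives of the collection -/
def Ds (σ : Fin n → MvPolynomial (Fin n) ℝ) (x w : Fin n → ℝ) (k : Fin n) : ℝ :=
  ∑ j, MvPolynomial.eval x (MvPolynomial.pderiv j (σ k)) * w j

/-- the polynomial with the coefficients `a k` at `X ^ (n - 1 - k)` -/
def Sa (a : Fin n → ℝ) : ℝ[X] :=
  ∑ k : Fin n, Polynomial.C (a k) * Polynomial.X ^ (n - 1 - (k : ℕ))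

theorem eval_Sa (a : Fin n → ℝ) (t : ℝ) :
    (Sa a).eval t = ∑ k : Fin n, a k * t ^ (n - 1 - (k : ℕ)) := by
  unfold Sa
  rw [Polynomial.eval_finsetSum]
  exact Finset.sum_congr rfl fun k _ => by simp

theorem coeff_Sa (a : Fin n → ℝ) (j : Fin n) : (Sa a).coeff (n - 1 - (j : ℕ)) = a j := by
  unfold Sa
  rw [Polynomial.finsetSum_coeff, Finset.sum_eq_single j]
  · rw [Polynomial.coeff_C_mul_X_pow, if_pos rfl]
  · intro k _ hk
    rw [Polynomial.coeff_C_mul_X_pow, if_neg]
    intro h
    apply hk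
    have h1 := j.2
    have h2 := k.2
    apply Fin.ext
    omega
  · intro h
    exact absurd (Finset.mem_univ j) h

theorem coeff_Sa_n (a : Fin n → ℝ) : (Sa a).coeff n = 0 := by
  unfold Sa
  rw [Polynomial.finsetSum_coeff]
  refine Finset.sum_eq_zero fun k _ => ?_
  rw [Polynomial.coeff_C_mul_X_pow, if_neg]
  have h2 := k.2
  omega

/-- the values of the characteristic polynomial -/
theorem eval_charpoly {σ : Fin n → MvPolynomial (Fin n) ℝ}
    {m : (Fin n → ℝ) →ₗ[ℝ] (Fin n → ℝ) →ₗ[ℝ] (Fin n → ℝ)}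
    (h : ∀ (x : Fin n → ℝ) (k : Fin n),
      (m.flip x).charpoly.coeff (n - 1 - k) = MvPolynomial.eval x (σ k)) (x : Fin n → ℝ) (t : ℝ) :
    (m.flip x).charpoly.eval t =
      (Sa fun k => MvPolynomial.eval x (σ k)).eval t + t ^ n := by
  have hd : (m.flip x).charpoly.natDegree = n := by
    rw [LinearMap.charpoly_natDegree, Module.finrank_fin_fun]
  have hm := (m.flip x).charpoly_monic
  rw [Polynomial.eval_eq_sum_range, hd, Finset.sum_range_succ, eval_Sa]
  have h1 : (m.flip x).charpoly.coeff n = 1 := by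
    have h2 := hm.coeff_natDegree
    rwa [hd] at h2
  rw [h1, one_mul]
  congr 1
  rw [← Finset.sum_range_reflect, Finset.sum_range]
  exact Finset.sum_congr rfl fun k _ => by rw [h x k]

theorem key {σ : Fin n → MvPolynomial (Fin n) ℝ}
    {m : (Fin n → ℝ) →ₗ[ℝ] (Fin n → ℝ) →ₗ[ℝ] (Fin n → ℝ)} (hDF : St_DF) (hm : LSA m)
    (h : ∀ (x : Fin n → ℝ) (k : Fin n),
      (m.flip x).charpoly.coeff (n - 1 - k) = MvPolynomial.eval x (σ k)) (x v : Fin n → ℝ) :
    Sa (Ds σ x (m v x)) = Polynomial.X * Sa (Ds σ x v) +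
      Polynomial.C (tr m v) * (Sa (fun k => MvPolynomial.eval x (σ k)) + Polynomial.X ^ n) := by
  obtain ⟨dP, h1, h2, -⟩ := hDF (Fin n → ℝ) m hm
  have h3 : ∀ (t : ℝ) (w : Fin n → ℝ), dP t x w = (Sa (Ds σ x w)).eval t := by
    intro t w
    have hz : HasDerivAt (fun q : ℝ => x + q • w) w 0 := by
      have h4 := ((hasDerivAt_id (0 : ℝ)).smul_const w).const_add x
      rwa [one_smul] at h4
    have h5 := h1 t _ _ 0 hz
    simp only [zero_smul, add_zero] at h5
    refine h5.unique ?_
    have h6 : (fun q : ℝ => ((m.flip (x + q • w)).charpoly).eval t) = fun q : ℝ =>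
        (∑ k : Fin n, MvPolynomial.eval (x + q • w) (σ k) * t ^ (n - 1 - (k : ℕ))) + t ^ n := by
      funext q
      rw [eval_charpoly h, eval_Sa]
    rw [h6, eval_Sa]
    refine HasDerivAt.add_const _ ?_
    refine HasDerivAt.fun_sum fun k _ => ?_
    exact (hasDeriv (σ k) x w).mul_const _
  apply Polynomial.funext
  intro t
  have h7 := h2 t x v
  rw [h3, h3, eval_charpoly h] at h7
  rw [h7]
  simp only [Polynomial.eval_add, Polynomial.eval_mul, Polynomial.eval_X, Polynomial.eval_C,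
    Polynomial.eval_pow]

theorem key0 {σ : Fin n → MvPolynomial (Fin n) ℝ}
    {m : (Fin n → ℝ) →ₗ[ℝ] (Fin n → ℝ) →ₗ[ℝ] (Fin n → ℝ)} (hDF : St_DF) (hm : LSA m)
    (h : ∀ (x : Fin n → ℝ) (k : Fin n),
      (m.flip x).charpoly.coeff (n - 1 - k) = MvPolynomial.eval x (σ k)) (x v : Fin n → ℝ)
    (h0 : 0 < n) : tr m v = - Ds σ x v ⟨0, h0⟩ := by
  have h1 := congrArg (fun p => p.coeff n) (key hDF hm h x v)
  simp only [Polynomial.coeff_add, Polynomial.coeff_C_mul, coeff_Sa_n,
    Polynomial.coeff_X_pow, if_true, zero_add, mul_one] at h1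
  obtain ⟨l, rfl⟩ : ∃ l, n = l + 1 := ⟨n - 1, by omega⟩
  rw [Polynomial.coeff_X_mul] at h1
  have h2 := coeff_Sa (Ds σ x v) ⟨0, h0⟩
  simp only [Nat.add_sub_cancel, Nat.sub_zero] at h2
  rw [h2] at h1
  linarith

theorem key1 {σ : Fin n → MvPolynomial (Fin n) ℝ}
    {m : (Fin n → ℝ) →ₗ[ℝ] (Fin n → ℝ) →ₗ[ℝ] (Fin n → ℝ)} (hDF : St_DF) (hm : LSA m)
    (h : ∀ (x : Fin n → ℝ) (k : Fin n),
      (m.flip x).charpoly.coeff (n - 1 - k) = MvPolynomial.eval x (σ k)) (x v : Fin n → ℝ)
    (j : Fin n) : Ds σ x (m v x) j = (if hj : (j : ℕ) + 1 < n then Ds σ x v ⟨j + 1, hj⟩ else 0) +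
      tr m v * MvPolynomial.eval x (σ j) := by
  have h1 := congrArg (fun p => p.coeff (n - 1 - (j : ℕ))) (key hDF hm h x v)
  have hj := j.2
  simp only [Polynomial.coeff_add, Polynomial.coeff_C_mul, coeff_Sa, Polynomial.coeff_X_pow] at h1
  rw [if_neg (by omega), add_zero] at h1
  rw [h1]
  congr 1
  split_ifs with hj'
  · have h2 : n - 1 - (j : ℕ) = (n - 1 - ((j : ℕ) + 1)) + 1 := by omega
    rw [h2, Polynomial.coeff_X_mul]
    exact coeff_Sa (Ds σ x v) ⟨j + 1, hj'⟩
  · have h2 : n - 1 - (j : ℕ) = 0 := by omega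
    rw [h2, Polynomial.mul_coeff_zero, Polynomial.coeff_X_zero, zero_mul]

end B2

open Helper28.Nij in
open B2 in
theorem thm_B2 (hDF : St_DF) : St_B2 := by
  intro n σ m hm hnd h
  -- the collection
  have hσ : ∀ k : Fin n, σ k = (Mx m).charpoly.coeff (n - 1 - k) := by
    intro k
    apply MvPolynomial.funext
    intro x
    rw [eval_coeff, h]
  have hhom : ∀ k : Fin n, (σ k).IsHomogeneous (k + 1) := by
    intro k
    rw [hσ k]
    have hk := k.2
    exact coeff_homog (Mx m) (Mx_homog m) _ _ (by omega)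
  -- the equation
  have hJ : jac σ * Mx m = comp σ * jac σ := by
    ext1 i j
    apply MvPolynomial.funext
    intro x
    have h0 : 0 < n := lt_of_le_of_lt (Nat.zero_le _) i.2
    have e1 : MvPolynomial.eval x ((jac σ * Mx m) i j) = Ds σ x (m (Pi.single j 1) x) i := by
      rw [Matrix.mul_apply, map_sum]
      refine Finset.sum_congr rfl fun l _ => ?_
      rw [map_mul, eval_Mx]
      rfl
    have e2 : ∀ l : Fin n, MvPolynomial.eval x (jac σ l j) = Ds σ x (Pi.single j 1) l := by
      intro l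
      unfold Ds
      rw [Finset.sum_eq_single j]
      · simp [jac]
      · intro b _ hb
        rw [Pi.single_eq_of_ne hb, mul_zero]
      · intro hj
        exact absurd (Finset.mem_univ j) hj
    rw [e1, key1 hDF hm h, key0 hDF hm h x _ h0, Matrix.mul_apply, map_sum]
    have e3 : ∀ l : Fin n, MvPolynomial.eval x (comp σ i l * jac σ l j) =
        (if l = (⟨0, h0⟩ : Fin n) then - MvPolynomial.eval x (σ i) * Ds σ x (Pi.single j 1) l
          else 0) + (if (l : ℕ) = i + 1 then Ds σ x (Pi.single j 1) l else 0) := by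
      intro l
      rw [map_mul, e2]
      have e4 : (l = (⟨0, h0⟩ : Fin n)) ↔ (l : ℕ) = 0 := Fin.ext_iff
      simp only [comp, Matrix.of_apply, e4]
      split_ifs <;> simp
      ring
    rw [Finset.sum_congr rfl fun l _ => e3 l, Finset.sum_add_distrib,
      Finset.sum_ite_eq' Finset.univ (⟨0, h0⟩ : Fin n), if_pos (Finset.mem_univ _)]
    have e5 : (∑ l : Fin n, if (l : ℕ) = i + 1 then Ds σ x (Pi.single j 1) l else 0) =
        if hj : (i : ℕ) + 1 < n then Ds σ x (Pi.single j 1) ⟨i + 1, hj⟩ else 0 := by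
      split_ifs with hi
      · rw [Finset.sum_eq_single (⟨i + 1, hi⟩ : Fin n)]
        · rw [if_pos rfl]
        · intro b _ hb
          rw [if_neg]
          intro hb'
          exact hb (Fin.ext hb')
        · intro hb
          exact absurd (Finset.mem_univ _) hb
      · refine Finset.sum_eq_zero fun l _ => ?_
        rw [if_neg]
        have := l.2
        omega
    rw [e5]
    ring
  -- the determinant
  have hdet : (jac σ).det ≠ 0 := by
    intro h0
    obtain ⟨x, hx⟩ := hnd
    have h1 : ((MvPolynomial.eval x).mapMatrix (jac σ)).det = 0 := by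
      rw [← RingHom.map_det, h0, map_zero]
    obtain ⟨v, hv, hv'⟩ := Matrix.exists_mulVec_eq_zero_iff.2 h1
    have h2 : Ds σ x v = 0 := hv'
    apply hv
    apply hx
    rcases Nat.eq_zero_or_pos n with hn | hn
    · subst hn
      intro k
      rw [Subsingleton.elim ((m.flip x ^ k) v) 0, map_zero]
    have h3 : ∀ k : ℕ, Ds σ x ((m.flip x ^ k) v) = 0 := by
      intro k
      induction k with
      | zero => exact h2
      | succ k ih =>
        have h4 : (m.flip x ^ (k + 1)) v = m ((m.flip x ^ k) v) x := by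
          rw [pow_succ', Module.End.mul_apply]
          rfl
        funext j
        rw [h4, key1 hDF hm h, key0 hDF hm h x _ hn, ih]
        simp
    intro k
    rw [key0 hDF hm h x _ hn, h3 k]
    simp
  refine ⟨indep_of_det σ hdet, hhom, fun i j => ?_⟩
  have h1 : (jac σ).adjugate * comp σ * jac σ = (jac σ).det • Mx m := by
    rw [Matrix.mul_assoc, ← hJ, ← Matrix.mul_assoc, Matrix.adjugate_mul, Matrix.smul_mul,
      Matrix.one_mul]
  rw [h1]
  exact ⟨Mx m i j, rfl⟩

end Pool.Agent.RRC
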