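import Pool.Agent.RRC.St1

/-!
# RRC, module DF (helper92): the derivative of `P(x, t) = det(t - R_x)` in `x`
-/

set_option autoImplicit false

namespace Pool.Agent.RRC

namespace DF

open Matrix

/-- the formula of Jacobi, entrywise along a curve -/
theorem jacobi {n : Type} [Fintype n] [DecidableEq n] {A : ℝ → Matrix n n ℝ} {A' : Matrix n n ℝ}
    {r : ℝ} (h : ∀ i j, HasDerivAt (fun q => A q i j) (A' i j) r) :
    HasDerivAt (fun q => (A q).det) (Matrix.trace ((A r).adjugate * A')) r := by
  have h1 : HasDerivAt (fun q => ∑ σ : Equiv.Perm n, (Equiv.Perm.sign σ : ℤ) • ∏ i, A q (σ i) i)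
      (∑ σ : Equiv.Perm n, (Equiv.Perm.sign σ : ℤ) •
        ∑ i, (∏ j ∈ Finset.univ.erase i, A r (σ j) j) • A' (σ i) i) r := by
    refine HasDerivAt.fun_sum (fun σ _ => ?_)
    have h2 : HasDerivAt (fun q => ∏ i, A q (σ i) i)
        (∑ i, (∏ j ∈ Finset.univ.erase i, A r (σ j) j) • A' (σ i) i) r :=
      HasDerivAt.fun_finsetProd (fun i _ => h (σ i) i)
    have h3 := h2.const_mul (((Equiv.Perm.sign σ : ℤ)) : ℝ)
    simpa [zsmul_eq_mul] using h3
  have h4 : (fun q => (A q).det) =
      fun q => ∑ σ : Equiv.Perm n, (Equiv.Perm.sign σ : ℤ) • ∏ i, A q (σ i) i := by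
    funext q
    rw [Matrix.det_apply]
    rfl
  have h5 : Matrix.trace ((A r).adjugate * A') =
      ∑ σ : Equiv.Perm n, (Equiv.Perm.sign σ : ℤ) •
        ∑ i, (∏ j ∈ Finset.univ.erase i, A r (σ j) j) • A' (σ i) i := by
    have h6 : ∀ i, ((A r).adjugate * A') i i =
        ∑ σ : Equiv.Perm n, (Equiv.Perm.sign σ : ℤ) •
          ((∏ j ∈ Finset.univ.erase i, A r (σ j) j) • A' (σ i) i) := by
      intro i
      have h7 : ((A r).adjugate * A') i i = ((A r).adjugate *ᵥ (fun k => A' k i)) i := rfl
      rw [h7, ← Matrix.cramer_eq_adjugate_mulVec, Matrix.cramer_apply, Matrix.det_apply]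
      refine Finset.sum_congr rfl (fun σ _ => ?_)
      have h8 : ∏ j, (A r).updateCol i (fun k => A' k i) (σ j) j =
          (∏ j ∈ Finset.univ.erase i, A r (σ j) j) * A' (σ i) i := by
        rw [← Finset.prod_erase_mul _ _ (Finset.mem_univ i)]
        congr 1
        · refine Finset.prod_congr rfl (fun j hj => ?_)
          exact Matrix.updateCol_ne (Finset.ne_of_mem_erase hj)
        · exact Matrix.updateCol_self
      rw [h8]
      rfl
    rw [Matrix.trace]
    simp only [Matrix.diag_apply]
    rw [Finset.sum_congr rfl (fun i _ => h6 i), Finset.sum_comm]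
    refine Finset.sum_congr rfl (fun σ _ => ?_)
    rw [Finset.smul_sum]
  rw [h4, h5]
  exact h1

/-- the algebra behind `(*)` -/
theorem star {n : Type} [Fintype n] [DecidableEq n] (t : ℝ) (X K S Y : Matrix n n ℝ)
    (h : K * X - X * K = Y - X * S) :
    -Matrix.trace ((Matrix.scalar n t - X).adjugate * Y) =
      t * (-Matrix.trace ((Matrix.scalar n t - X).adjugate * S)) +
        Matrix.trace S * (Matrix.scalar n t - X).det := by
  have hsc : Matrix.scalar n t = t • (1 : Matrix n n ℝ) := by
    rw [Matrix.scalar_apply, Matrix.smul_one_eq_diagonal]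
  rw [hsc]
  set T : Matrix n n ℝ := t • (1 : Matrix n n ℝ) - X with hT
  have hX : X = t • (1 : Matrix n n ℝ) - T := by rw [hT]; abel
  have hY : Y = T * K - K * T + t • S - T * S := by
    have h1 : Y = K * X - X * K + X * S := by rw [h]; abel
    rw [h1, hX]
    simp only [Matrix.mul_sub, Matrix.sub_mul, Matrix.mul_smul, Matrix.smul_mul, Matrix.mul_one,
      Matrix.one_mul]
    abel
  have h1 : T.adjugate * T = T.det • (1 : Matrix n n ℝ) := Matrix.adjugate_mul T
  have h2 : T * T.adjugate = T.det • (1 : Matrix n n ℝ) := Matrix.mul_adjugate T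
  have h3 : Matrix.trace (T.adjugate * (T * K)) = T.det * Matrix.trace K := by
    rw [← Matrix.mul_assoc, h1, Matrix.smul_mul, Matrix.one_mul, Matrix.trace_smul, smul_eq_mul]
  have h4 : Matrix.trace (T.adjugate * (K * T)) = T.det * Matrix.trace K := by
    rw [← Matrix.mul_assoc, Matrix.trace_mul_comm, ← Matrix.mul_assoc, h2, Matrix.smul_mul,
      Matrix.one_mul, Matrix.trace_smul, smul_eq_mul]
  have h5 : Matrix.trace (T.adjugate * (T * S)) = T.det * Matrix.trace S := by
    rw [← Matrix.mul_assoc, h1, Matrix.smul_mul, Matrix.one_mul, Matrix.trace_smul, smul_eq_mul]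
  have h6 : Matrix.trace (T.adjugate * (t • S)) = t * Matrix.trace (T.adjugate * S) := by
    rw [Matrix.mul_smul, Matrix.trace_smul, smul_eq_mul]
  rw [hY, Matrix.mul_sub, Matrix.mul_add, Matrix.mul_sub, Matrix.trace_sub, Matrix.trace_add,
    Matrix.trace_sub, h3, h4, h5, h6]
  ring

end DF

open DF in
theorem thm_DF (hK1 : St_K1) : St_DF := by
  intro V _ _ _ m hm
  classical
  set b := Module.finBasis ℝ V with hb
  let N : V →ₗ[ℝ] Matrix (Fin (Module.finrank ℝ V)) (Fin (Module.finrank ℝ V)) ℝ :=
    (LinearMap.toMatrix b b).toLinearMap ∘ₗ m.flip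
  have hN : ∀ x, N x = LinearMap.toMatrix b b (m.flip x) := fun x => rfl
  have hch : ∀ (t : ℝ) (x : V), ((m.flip x).charpoly).eval t =
      (Matrix.scalar (Fin (Module.finrank ℝ V)) t - N x).det := by
    intro t x
    rw [← LinearMap.charpoly_toMatrix (m.flip x) b, Matrix.eval_charpoly, hN]
  have hent : ∀ i j, ∃ f : V →L[ℝ] ℝ, ∀ x, f x = N x i j := by
    intro i j
    refine ⟨LinearMap.toContinuousLinearMap
      ((LinearMap.proj j ∘ₗ LinearMap.proj i : (Fin (Module.finrank ℝ V) →
        Fin (Module.finrank ℝ V) → ℝ) →ₗ[ℝ] ℝ) ∘ₗ N), fun x => ?_⟩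
    rfl
  choose f hf using hent
  refine ⟨fun t x => -((Matrix.traceLinearMap (Fin (Module.finrank ℝ V)) ℝ ℝ) ∘ₗ
    (LinearMap.mulLeft ℝ (Matrix.scalar (Fin (Module.finrank ℝ V)) t - N x).adjugate) ∘ₗ N),
    ?_, ?_, ?_⟩
  · intro t z z' r hz
    have h1 : ∀ i j, HasDerivAt
        (fun q => (Matrix.scalar (Fin (Module.finrank ℝ V)) t - N (z q)) i j) ((-(N z')) i j) r := by
      intro i j
      have h2 : HasDerivAt (fun q => f i j (z q)) (f i j z') r :=
        (f i j).hasFDerivAt.comp_hasDerivAt r hz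
      have h3 := h2.const_sub ((Matrix.scalar (Fin (Module.finrank ℝ V)) t) i j)
      have h4 : (fun q => (Matrix.scalar (Fin (Module.finrank ℝ V)) t - N (z q)) i j) =
          fun q => (Matrix.scalar (Fin (Module.finrank ℝ V)) t) i j - f i j (z q) := by
        funext q
        rw [Matrix.sub_apply, hf]
      rw [h4, Matrix.neg_apply, ← hf]
      exact h3
    have h5 := jacobi h1
    have h6 : (fun q => ((m.flip (z q)).charpoly).eval t) =
        fun q => (Matrix.scalar (Fin (Module.finrank ℝ V)) t - N (z q)).det := by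
      funext q
      exact hch t (z q)
    rw [h6]
    have h7 : Matrix.trace ((Matrix.scalar (Fin (Module.finrank ℝ V)) t - N (z r)).adjugate *
        (-(N z'))) = -Matrix.trace ((Matrix.scalar (Fin (Module.finrank ℝ V)) t -
          N (z r)).adjugate * N z') := by
      rw [Matrix.mul_neg, Matrix.trace_neg]
    rw [h7] at h5
    exact h5
  · intro t x v
    have hK := (hK1 V m hm).1 v x
    have h1 : LinearMap.toMatrix b b (m v) * N x - N x * LinearMap.toMatrix b b (m v) =
        N (m v x) - N x * N v := by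
      rw [hN, hN, hN, ← LinearMap.toMatrix_mul, ← LinearMap.toMatrix_mul,
        ← LinearMap.toMatrix_mul, ← map_sub, ← map_sub, hK]
    have h2 := star t (N x) (LinearMap.toMatrix b b (m v)) (N v) (N (m v x)) h1
    have h3 : tr m v = Matrix.trace (N v) := by
      rw [hN]
      exact LinearMap.trace_eq_matrix_trace ℝ b (m.flip v)
    rw [hch, h3]
    exact h2
  · intro t
    have h1 : (fun x : V => ((m.flip x).charpoly).eval t) =
        fun x => (Matrix.scalar (Fin (Module.finrank ℝ V)) t - N x).det := by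
      funext x
      exact hch t x
    rw [h1]
    refine Continuous.matrix_det ?_
    refine continuous_const.sub ?_
    refine continuous_matrix (fun i j => ?_)
    have h2 : (fun x => N x i j) = fun x => f i j x := by
      funext x
      exact (hf i j x).symm
    rw [h2]
    exact (f i j).continuous

end Pool.Agent.RRC

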