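import Pool.Agent.RRC.St1

/-!
# RRC: identities in left-symmetric algebras

Module K1: `thm_K1 : St_K1`.
-/

set_option autoImplicit false

noncomputable section

namespace Pool.Agent.RRC

open scoped Polynomial
open Polynomial

namespace K1

variable {V : Type} [AddCommGroup V] [Module ℝ V]

theorem comm {m : V →ₗ[ℝ] V →ₗ[ℝ] V} (h : LSA m) (a x : V) :
    m a * m.flip x - m.flip x * m a = m.flip (m a x) - m.flip x * m.flip a := by
  apply LinearMap.ext
  intro b
  have h1 := h a b x
  simp only [LinearMap.sub_apply, Module.End.mul_apply, LinearMap.flip_apply]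
  rw [h1]

theorem tr_comm (A B : V →ₗ[ℝ] V) :
    LinearMap.trace ℝ V (A * B) = LinearMap.trace ℝ V (B * A) := LinearMap.trace_mul_comm ℝ A B

theorem flip_eq {m : V →ₗ[ℝ] V →ₗ[ℝ] V} (h : LSA m) (a x : V) :
    m.flip (m a x) = m a * m.flip x - m.flip x * m a + m.flip x * m.flip a := by
  rw [comm h a x]
  abel

theorem pow {m : V →ₗ[ℝ] V →ₗ[ℝ] V} (h : LSA m) (k : ℕ) (x v : V) :
    LinearMap.trace ℝ V (m.flip x ^ k * m.flip v) = tr m ((m.flip x ^ k) v) := by
  induction k generalizing v with
  | zero => simp [tr]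
  | succ k ih =>
    have h1 := ih (m v x)
    rw [flip_eq h v x] at h1
    have h2 : LinearMap.trace ℝ V (m.flip x ^ k * (m v * m.flip x - m.flip x * m v +
        m.flip x * m.flip v)) = LinearMap.trace ℝ V (m.flip x ^ (k + 1) * m.flip v) := by
      rw [mul_add, mul_sub, map_add, map_sub, ← mul_assoc (m.flip x ^ k) (m.flip x) (m.flip v),
        ← pow_succ, ← mul_assoc, ← mul_assoc, ← pow_succ, tr_comm (m.flip x ^ k * m v) (m.flip x),
        ← mul_assoc, ← pow_succ', sub_self, zero_add]
    rw [h2] at h1
    rw [h1, pow_succ, Module.End.mul_apply]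
    rfl

theorem poly {m : V →ₗ[ℝ] V →ₗ[ℝ] V} (h : LSA m) (g : ℝ[X]) (x v : V) :
    LinearMap.trace ℝ V (aeval (m.flip x) g * m.flip v) = tr m (aeval (m.flip x) g v) := by
  induction g using Polynomial.induction_on' with
  | add p q hp hq =>
    rw [map_add, add_mul, map_add, hp, hq, LinearMap.add_apply, map_add]
  | monomial k a =>
    rw [aeval_monomial, ← Algebra.smul_def, smul_mul_assoc, map_smul, pow h, LinearMap.smul_apply,
      map_smul]

end K1

/-- **K1**. -/
theorem thm_K1 : St_K1 := by
  intro V _ _ _ m h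
  have h2 := K1.pow h
  have e4 : ∀ x y : V, tr m (m x y) = LinearMap.trace ℝ V (m.flip x * m.flip y) := by
    intro x y
    have := h2 1 y x
    rw [pow_one] at this
    rw [K1.tr_comm, this]
    rfl
  have e5 : ∀ x y v : V, LinearMap.trace ℝ V (m.flip x * m.flip y * m.flip v +
      m.flip y * m.flip x * m.flip v) = tr m (m (m v y) x + m (m v x) y) := by
    intro x y v
    have h3 := h2 2 (x + y) v
    have h4 := h2 2 x v
    have h5 := h2 2 y v
    simp only [pow_two, map_add, add_mul, mul_add, LinearMap.add_apply, Module.End.mul_apply,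
      LinearMap.flip_apply] at h3 h4 h5 ⊢
    linarith
  refine ⟨K1.comm h, h2, K1.poly h, fun x y => ⟨e4 x y, ?_⟩, e5, ?_, ?_⟩
  · rw [e4, e4, K1.tr_comm]
  · intro c u v
    have h3 := h2 3 (c + u) v
    have h4 := h2 3 (c - u) v
    have h5 := h2 3 u v
    simp only [pow_succ, pow_zero, one_mul, map_add, map_sub, add_mul, mul_add, sub_mul, mul_sub,
      LinearMap.add_apply, LinearMap.sub_apply, Module.End.mul_apply,
      LinearMap.flip_apply] at h3 h4 h5 ⊢
    linarith
  · intro c u v
    rw [K1.flip_eq h c c, K1.flip_eq h c u, K1.flip_eq h c v]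
    have ht : ∀ A B : V →ₗ[ℝ] V, LinearMap.trace ℝ V (A * B) = LinearMap.trace ℝ V (B * A) :=
      K1.tr_comm
    simp only [add_mul, mul_add, sub_mul, mul_sub, map_add, map_sub, ← mul_assoc]
    set L := m c
    set R := m.flip c
    set U := m.flip u
    set W := m.flip v
    have c1 : ∀ A B D E : V →ₗ[ℝ] V, LinearMap.trace ℝ V (A * B * D * E) =
        LinearMap.trace ℝ V (B * D * E * A) := by
      intro A B D E
      rw [mul_assoc, mul_assoc, ht, ← mul_assoc]
    have d1 := c1 L R U W
    have d2 := c1 L R W U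
    have d3 := c1 R L U W
    have d4 := c1 R L W U
    have d5 := c1 L U W R
    have d6 := c1 L W U R
    have d7 := c1 U L W R
    have d8 := c1 W L U R
    have d9 := c1 L W R U
    have d10 := c1 L U R W
    have d11 := c1 U R R W
    have d12 := c1 R R W U
    have d13 := c1 R W U R
    have d14 := c1 R U R W
    have d15 := c1 R W R U
    have d16 := c1 R R U W
    have d17 := c1 U L R W
    have d18 := c1 W L R U
    have d19 := c1 R U L W
    have d20 := c1 R W L U
    have d21 := c1 R U W L
    have d22 := c1 R W U L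
    have d23 := c1 U W R R
    have d24 := c1 W R R U
    have d25 := c1 W U R R
    have d26 := c1 R U W R
    have d27 := c1 U R W R
    have d28 := c1 W R U R
    linarith

end Pool.Agent.RRC
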