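import Pool.Agent.RRC.St1
import Pool.Agent.Helper36.Nij3.AdmGood

/-!
# RRC B1a: the matrix of an admissible collection

The proofs of `Pool/Agent/Helper36/Nij3/AdmGood.lean` for any number of variables.
-/

set_option autoImplicit false

noncomputable section

namespace Pool.Agent.RRC

open MvPolynomial Matrix
open Helper28.Nij

namespace B1a

variable {n : ℕ}

/-- polynomials in `n` variables -/
abbrev PP (n : ℕ) : Type := MvPolynomial (Fin n) ℝ

/-- the field of rational functions -/
abbrev RF (n : ℕ) : Type := FractionRing (PP n)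

theorem D_eq (p : PP n) : KaehlerDifferential.D ℝ (RF n) (algebraMap (PP n) (RF n) p) =
    ∑ j, algebraMap (PP n) (RF n) (pderiv j p) •
      KaehlerDifferential.D ℝ (RF n) (algebraMap (PP n) (RF n) (X j)) := by
  induction p using MvPolynomial.induction_on with
  | C a =>
    have h1 : algebraMap (PP n) (RF n) (C a) = algebraMap ℝ (RF n) a := by
      rw [IsScalarTower.algebraMap_apply ℝ (PP n) (RF n)]
      rfl
    rw [h1, Derivation.map_algebraMap]
    symm
    refine Finset.sum_eq_zero fun j _ => ?_
    rw [pderiv_C, map_zero, zero_smul]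
  | add p q hp hq =>
    rw [map_add, map_add, hp, hq, ← Finset.sum_add_distrib]
    refine Finset.sum_congr rfl fun j _ => ?_
    rw [map_add, map_add, add_smul]
  | mul_X p i h =>
    rw [map_mul, Derivation.leibniz, h]
    have h2 : ∀ j, algebraMap (PP n) (RF n) (pderiv j (p * X i)) =
        algebraMap (PP n) (RF n) (X i) * algebraMap (PP n) (RF n) (pderiv j p) +
          (if j = i then algebraMap (PP n) (RF n) p else 0) := by
      intro j
      rw [pderiv_mul, pderiv_X, Pi.single_apply, map_add, map_mul, map_mul]
      by_cases hj : j = i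
      · subst hj
        simp
        ring
      · rw [if_neg hj, if_neg (fun h => hj h.symm)]
        simp
        ring
    simp only [h2, add_smul, Finset.sum_add_distrib, ite_smul, zero_smul, Finset.sum_ite_eq',
      Finset.mem_univ, if_true]
    rw [Finset.smul_sum, add_comm]
    congr 1
    refine Finset.sum_congr rfl fun j _ => ?_
    rw [smul_smul]

theorem det_ne_zero_of_indep {σ : Fin n → PP n} (h : AlgebraicIndependent ℝ σ) :
    (jac σ).det ≠ 0 := by
  intro hdet
  obtain ⟨v, hv0, hv⟩ := Matrix.exists_vecMul_eq_zero_iff.mpr hdet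
  have hinj : Function.Injective (algebraMap (PP n) (RF n)) := IsFractionRing.injective (PP n) (RF n)
  have h1 : AlgebraicIndependent ℝ (fun i => algebraMap (PP n) (RF n) (σ i)) := by
    have := h.map' (f := IsScalarTower.toAlgHom ℝ (PP n) (RF n)) hinj
    exact this
  have h2 := Pool.Agent.Helper36.Nij3.diffInd_linearIndependent _ h1
  rw [Fintype.linearIndependent_iff] at h2
  have h3 := h2 (fun i => algebraMap (PP n) (RF n) (v i)) (by
    have hD : ∀ i, KaehlerDifferential.D ℝ (RF n) (algebraMap (PP n) (RF n) (σ i)) =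
        ∑ j, algebraMap (PP n) (RF n) (pderiv j (σ i)) •
          KaehlerDifferential.D ℝ (RF n) (algebraMap (PP n) (RF n) (X j)) := fun i => D_eq (σ i)
    rw [Finset.sum_congr rfl fun i _ => by rw [hD i, Finset.smul_sum]]
    rw [Finset.sum_comm]
    refine Finset.sum_eq_zero fun j _ => ?_
    simp only [smul_smul]
    rw [← Finset.sum_smul]
    have h4 := congrFun hv j
    have h5 : ∑ i, algebraMap (PP n) (RF n) (v i) * algebraMap (PP n) (RF n) (pderiv j (σ i)) =
        algebraMap (PP n) (RF n) ((v ᵥ* jac σ) j) := by
      rw [Matrix.vecMul, dotProduct, map_sum]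
      refine Finset.sum_congr rfl fun i _ => ?_
      rw [map_mul]
      rfl
    rw [h5, h4, Pi.zero_apply, map_zero, zero_smul])
  apply hv0
  funext i
  exact hinj (by rw [h3 i, Pi.zero_apply, map_zero])

theorem hc_mul {p : PP n} {i : ℕ} (hp : p.IsHomogeneous i) (j : ℕ) (q : PP n) :
    homogeneousComponent (i + j) (p * q) = p * homogeneousComponent j q := by
  conv_lhs => rw [← sum_homogeneousComponent q, Finset.mul_sum, map_sum]
  have h1 : ∀ m, homogeneousComponent (i + j) (p * homogeneousComponent m q) =
      if j = m then p * homogeneousComponent j q else 0 := by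
    intro m
    rw [homogeneousComponent_of_mem (n := i + m)
      (show p * homogeneousComponent m q ∈ homogeneousSubmodule (Fin n) ℝ (i + m) from
        hp.mul (homogeneousComponent_isHomogeneous m q))]
    by_cases hjm : j = m
    · subst hjm
      simp
    · rw [if_neg hjm, if_neg (fun h => hjm (by omega))]
  simp only [h1]
  rw [Finset.sum_ite_eq]
  split_ifs with h2
  · rfl
  · rw [homogeneousComponent_eq_zero, mul_zero]
    rw [Finset.mem_range] at h2
    omega

theorem comp_jac_hom {σ : Fin n → PP n} (h : ∀ i, (σ i).IsHomogeneous (i + 1)) (i j : Fin n) :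
    ((comp σ * jac σ) i j).IsHomogeneous ((i : ℕ) + 1) := by
  have hJ : ∀ i j, (jac σ i j).IsHomogeneous (i : ℕ) := fun i j => (h i).pderiv
  rw [Matrix.mul_apply]
  refine IsHomogeneous.sum _ _ _ fun k _ => ?_
  change (((if (k : ℕ) = 0 then -σ i else 0) + (if (k : ℕ) = i + 1 then 1 else 0)) *
    jac σ k j).IsHomogeneous _
  rw [add_mul]
  refine IsHomogeneous.add ?_ ?_
  · split_ifs with hk
    · have := (h i).neg.mul (hJ k j)
      rw [hk, add_zero] at this
      exact this
    · rw [zero_mul]
      exact isHomogeneous_zero _ _ _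
  · split_ifs with hk
    · rw [one_mul, ← hk]
      exact hJ k j
    · rw [zero_mul]
      exact isHomogeneous_zero _ _ _

end B1a

/-- **B1a** -/
theorem thm_B1a : St_B1a := by
  intro n σ h
  have hdet := B1a.det_ne_zero_of_indep h.indep
  choose M hM using h.dvd
  have e1 : (jac σ).adjugate * comp σ * jac σ = (jac σ).det • (Matrix.of M) := by
    ext1 i j
    rw [hM, Matrix.smul_apply, smul_eq_mul, Matrix.of_apply]
  have e2 : jac σ * Matrix.of M = comp σ * jac σ := by
    have h1 : (jac σ).det • (jac σ * Matrix.of M) = (jac σ).det • (comp σ * jac σ) := by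
      rw [← Matrix.mul_smul, ← e1, ← Matrix.mul_assoc, ← Matrix.mul_assoc, Matrix.mul_adjugate,
        Matrix.smul_mul, Matrix.one_mul, Matrix.smul_mul]
    ext1 i j
    have h2 := congrFun (congrFun h1 i) j
    rw [Matrix.smul_apply, Matrix.smul_apply, smul_eq_mul, smul_eq_mul] at h2
    exact mul_left_cancel₀ hdet h2
  refine ⟨hdet, Matrix.of fun i j => homogeneousComponent 1 (M i j),
    fun i j => homogeneousComponent_isHomogeneous 1 _, ?_⟩
  have hJ : ∀ i j, (jac σ i j).IsHomogeneous (i : ℕ) := fun i j => (h.homog i).pderiv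
  ext1 i j
  have h3 := congrFun (congrFun e2 i) j
  have h4 := B1a.comp_jac_hom h.homog i j
  rw [← homogeneousComponent_eq_self h4, ← h3, Matrix.mul_apply, Matrix.mul_apply, map_sum]
  refine Finset.sum_congr rfl fun k _ => ?_
  rw [Matrix.of_apply, Matrix.of_apply, B1a.hc_mul (hJ i k)]

end Pool.Agent.RRC
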