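import Pool.Agent.RRC.St1

/-!
# RRC, module B1b: from admissible collections to left-symmetric algebras
-/

set_option autoImplicit false

noncomputable section

namespace Pool.Agent.RRC

namespace B1b

open MvPolynomial Matrix
open Helper28.Nij

variable {n : ℕ}

/-- Homogeneous polynomials of degree one. -/
theorem lin_eq (p : MvPolynomial (Fin n) ℝ) (hp : p.IsHomogeneous 1) :
    p = ∑ l, C (coeff (Finsupp.single l 1) p) * X l := by
  classical
  ext s
  rw [coeff_sum]
  simp only [coeff_C_mul, coeff_X]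
  by_cases hs : ∃ l, s = Finsupp.single l 1
  · obtain ⟨l, rfl⟩ := hs
    rw [Finset.sum_eq_single l]
    · rw [if_pos rfl, mul_one]
    · intro b _ hb
      rw [if_neg, mul_zero]
      intro h
      exact hb ((Finsupp.single_left_inj one_ne_zero).1 h)
    · intro h; exact absurd (Finset.mem_univ l) h
  · rw [Finset.sum_eq_zero]
    · by_contra hc
      apply hs
      have h1 := hp hc
      have h2 : s.sum (fun _ e => e) = 1 := by
        rw [← h1]
        simp [Finsupp.weight_apply]
      exact (Finsupp.sum_eq_one_iff s).1 h2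
    · intro l _
      rw [if_neg, mul_zero]
      intro h
      exact hs ⟨l, h.symm⟩

/-- The product with the structure constants `c`. -/
def mul (c : Fin n → Fin n → Fin n → ℝ) : (Fin n → ℝ) →ₗ[ℝ] (Fin n → ℝ) →ₗ[ℝ] (Fin n → ℝ) :=
  LinearMap.mk₂ ℝ (fun a x i => ∑ j, ∑ l, c i j l * a j * x l)
    (by intro a b x; ext i; simp [mul_add, add_mul, Finset.sum_add_distrib])
    (by intro r a x; ext i; simp [Finset.mul_sum]; refine Finset.sum_congr rfl fun j _ => ?_
        refine Finset.sum_congr rfl fun l _ => ?_; ring)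
    (by intro a x y; ext i; simp [mul_add, Finset.sum_add_distrib])
    (by intro r a x; ext i; simp [Finset.mul_sum]; refine Finset.sum_congr rfl fun j _ => ?_
        refine Finset.sum_congr rfl fun l _ => ?_; ring)

theorem mul_apply (c : Fin n → Fin n → Fin n → ℝ) (a x : Fin n → ℝ) (i : Fin n) :
    mul c a x i = ∑ j, ∑ l, c i j l * a j * x l := rfl

/-- The polynomials `(a * x)_i`. -/
def LL (c : Fin n → Fin n → Fin n → ℝ) (a : Fin n → ℝ) (i : Fin n) : MvPolynomial (Fin n) ℝ :=
  ∑ j, ∑ l, C (c i j l * a j) * X l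

theorem eval_LL (c : Fin n → Fin n → Fin n → ℝ) (a x : Fin n → ℝ) (i : Fin n) :
    eval x (LL c a i) = mul c a x i := by
  rw [LL, mul_apply, map_sum]
  refine Finset.sum_congr rfl fun j _ => ?_
  rw [map_sum]
  refine Finset.sum_congr rfl fun l _ => ?_
  rw [map_mul, eval_C, eval_X]

/-- The derivation `∑ a_j ∂_j`. -/
def DD (a : Fin n → ℝ) : Derivation ℝ (MvPolynomial (Fin n) ℝ) (MvPolynomial (Fin n) ℝ) :=
  mkDerivation ℝ fun j => C (a j)

/-- The derivation `∑ (a * x)_j ∂_j`. -/
def XX (c : Fin n → Fin n → Fin n → ℝ) (a : Fin n → ℝ) :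
    Derivation ℝ (MvPolynomial (Fin n) ℝ) (MvPolynomial (Fin n) ℝ) :=
  mkDerivation ℝ fun j => LL c a j

theorem der_eq (E : Derivation ℝ (MvPolynomial (Fin n) ℝ) (MvPolynomial (Fin n) ℝ))
    (p : MvPolynomial (Fin n) ℝ) : E p = ∑ k, pderiv k p * E (X k) := by
  classical
  induction p using MvPolynomial.induction_on with
  | C a => simp
  | add p q hp hq => simp only [map_add, hp, hq, add_mul, Finset.sum_add_distrib]
  | mul_X p i h =>
    have h2 : ∀ k, pderiv k (p * X i) = pderiv k p * X i + (if k = i then p else 0) := by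
      intro k
      rw [pderiv_mul, pderiv_X, Pi.single_apply]
      congr 1
      by_cases hk : i = k
      · subst hk; simp
      · rw [if_neg hk, if_neg (fun h => hk h.symm)]; simp
    simp only [h2, add_mul, Finset.sum_add_distrib, ite_mul, zero_mul, Finset.sum_ite_eq',
      Finset.mem_univ, if_true]
    rw [Derivation.leibniz, smul_eq_mul, smul_eq_mul, h, Finset.mul_sum, add_comm]
    congr 1
    exact Finset.sum_congr rfl fun k _ => by ring

theorem der_C_mul (E : Derivation ℝ (MvPolynomial (Fin n) ℝ) (MvPolynomial (Fin n) ℝ)) (r : ℝ)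
    (p : MvPolynomial (Fin n) ℝ) : E (C r * p) = C r * E p := by
  rw [Derivation.leibniz, derivation_C, smul_zero, add_zero, smul_eq_mul]

theorem DD_LL (c : Fin n → Fin n → Fin n → ℝ) (a b : Fin n → ℝ) (i : Fin n) :
    DD b (LL c a i) = C (mul c a b i) := by
  rw [LL, mul_apply, map_sum, map_sum]
  refine Finset.sum_congr rfl fun j _ => ?_
  rw [map_sum, map_sum]
  refine Finset.sum_congr rfl fun l _ => ?_
  rw [der_C_mul, DD, mkDerivation_X, ← map_mul]

theorem comm_XD (c : Fin n → Fin n → Fin n → ℝ) (a b : Fin n → ℝ) (p : MvPolynomial (Fin n) ℝ) :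
    XX c a (DD b p) = DD b (XX c a p) - DD (mul c a b) p := by
  have h : ⁅XX c a, DD b⁆ = -DD (mul c a b) := by
    apply derivation_ext
    intro i
    rw [Derivation.commutator_apply, DD, mkDerivation_X, Derivation.neg_apply, DD,
      mkDerivation_X, derivation_C, zero_sub, XX, mkDerivation_X]
    congr 1
    exact DD_LL c a b i
  have h1 := congrArg (fun D => D p) h
  simp only [Derivation.commutator_apply, Derivation.neg_apply] at h1
  linear_combination h1

theorem eval_XL (c : Fin n → Fin n → Fin n → ℝ) (a b x : Fin n → ℝ) (i : Fin n) :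
    eval x (XX c a (LL c b i)) = mul c b (mul c a x) i := by
  rw [LL, mul_apply, map_sum, map_sum]
  refine Finset.sum_congr rfl fun j _ => ?_
  rw [map_sum, map_sum]
  refine Finset.sum_congr rfl fun l _ => ?_
  rw [der_C_mul, XX, mkDerivation_X, map_mul, eval_C, eval_LL]

/-- The collection, continued by zero. -/
def SS' (σ : Fin n → MvPolynomial (Fin n) ℝ) (i : ℕ) : MvPolynomial (Fin n) ℝ :=
  if h : i < n then σ ⟨i, h⟩ else 0

theorem SS'_fin (σ : Fin n → MvPolynomial (Fin n) ℝ) (i : Fin n) : SS' σ i = σ i := by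
  rw [SS', dif_pos i.2]

theorem SS'_of_le (σ : Fin n → MvPolynomial (Fin n) ℝ) (i : ℕ) (h : n ≤ i) : SS' σ i = 0 := by
  rw [SS', dif_neg (by omega)]

/-- `D_a` in terms of the `∂_j`. -/
theorem DD_eq (a : Fin n → ℝ) (p : MvPolynomial (Fin n) ℝ) :
    DD a p = ∑ k, pderiv k p * C (a k) := by
  rw [der_eq (DD a) p]
  refine Finset.sum_congr rfl fun k _ => ?_
  rw [DD, mkDerivation_X]

/-- The row of `comp σ * jac σ`. -/
theorem comp_jac (σ : Fin n → MvPolynomial (Fin n) ℝ) (i j : Fin n) :
    (comp σ * jac σ) i j = pderiv j (SS' σ (i + 1)) - σ i * pderiv j (SS' σ 0) := by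
  classical
  rw [Matrix.mul_apply]
  have h1 : ∀ k : Fin n, comp σ i k * jac σ k j =
      (if (k : ℕ) = 0 then -σ i * pderiv j (σ k) else 0) +
        (if (k : ℕ) = i + 1 then pderiv j (σ k) else 0) := by
    intro k
    show ((if (k : ℕ) = 0 then -σ i else 0) + (if (k : ℕ) = i + 1 then 1 else 0)) *
      pderiv j (σ k) = _
    split_ifs <;> ring
  have h2 : ∀ (r : ℕ) (g : MvPolynomial (Fin n) ℝ),
      ∑ k : Fin n, (if (k : ℕ) = r then g * pderiv j (σ k) else 0) = g * pderiv j (SS' σ r) := by
    intro r g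
    by_cases hr : r < n
    · rw [Finset.sum_eq_single (⟨r, hr⟩ : Fin n)]
      · rw [if_pos rfl, SS', dif_pos hr]
      · intro b _ hb
        rw [if_neg]
        intro h
        exact hb (Fin.ext h)
      · intro h; exact absurd (Finset.mem_univ _) h
    · rw [Finset.sum_eq_zero, SS'_of_le σ r (by omega), map_zero, mul_zero]
      intro k _
      rw [if_neg]
      have := k.2
      omega
  rw [Finset.sum_congr rfl fun k _ => h1 k, Finset.sum_add_distrib, h2 0 (-σ i)]
  have h3 := h2 (i + 1) 1
  simp only [one_mul] at h3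
  rw [h3]
  ring

/-- The data of `B1a`. -/
structure Dat (σ : Fin n → MvPolynomial (Fin n) ℝ) (M : Matrix (Fin n) (Fin n)
    (MvPolynomial (Fin n) ℝ)) (c : Fin n → Fin n → Fin n → ℝ) : Prop where
  homog : ∀ i, (σ i).IsHomogeneous (i + 1)
  det : (jac σ).det ≠ 0
  hM : ∀ i j, M i j = ∑ l, C (c i j l) * X l
  JM : jac σ * M = comp σ * jac σ

variable {σ : Fin n → MvPolynomial (Fin n) ℝ} {M : Matrix (Fin n) (Fin n)
    (MvPolynomial (Fin n) ℝ)} {c : Fin n → Fin n → Fin n → ℝ}

theorem LL_eq (h : Dat σ M c) (a : Fin n → ℝ) (i : Fin n) : LL c a i = ∑ j, M i j * C (a j) := by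
  rw [LL]
  refine Finset.sum_congr rfl fun j _ => ?_
  rw [h.hM, Finset.sum_mul]
  refine Finset.sum_congr rfl fun l _ => ?_
  rw [map_mul]
  ring

/-- `X_a σ_i = D_a σ_(i+1) - σ_i D_a σ_0`. -/
theorem star0 (h : Dat σ M c) (a : Fin n → ℝ) (i : Fin n) :
    XX c a (σ i) = DD a (SS' σ (i + 1)) - σ i * DD a (SS' σ 0) := by
  rw [der_eq (XX c a) (σ i)]
  have h1 : ∀ k, XX c a (X k) = ∑ j, M k j * C (a j) := by
    intro k
    rw [XX, mkDerivation_X, LL_eq h]
  have h2 : ∀ j, ∑ k, pderiv k (σ i) * M k j =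
      pderiv j (SS' σ (i + 1)) - σ i * pderiv j (SS' σ 0) := by
    intro j
    rw [← comp_jac, ← h.JM, Matrix.mul_apply]
    rfl
  simp only [h1, Finset.mul_sum]
  rw [Finset.sum_comm]
  have h3 : ∀ j, ∑ k, pderiv k (σ i) * (M k j * C (a j)) =
      (pderiv j (SS' σ (i + 1)) - σ i * pderiv j (SS' σ 0)) * C (a j) := by
    intro j
    rw [← h2, Finset.sum_mul]
    exact Finset.sum_congr rfl fun k _ => by ring
  rw [Finset.sum_congr rfl fun j _ => h3 j, DD_eq, DD_eq, Finset.mul_sum,
    ← Finset.sum_sub_distrib]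
  exact Finset.sum_congr rfl fun j _ => by ring

/-- `D_a σ_0` is a number. -/
theorem const0 (h : Dat σ M c) (a : Fin n → ℝ) : ∃ s : ℝ, DD a (SS' σ 0) = C s := by
  by_cases hn : 0 < n
  · have h1 := h.homog ⟨0, hn⟩
    have h2 := lin_eq _ (show (σ ⟨0, hn⟩).IsHomogeneous 1 from h1)
    refine ⟨∑ l, coeff (Finsupp.single l 1) (σ ⟨0, hn⟩) * a l, ?_⟩
    rw [SS', dif_pos hn, h2, map_sum, map_sum]
    refine Finset.sum_congr rfl fun l _ => ?_
    rw [der_C_mul, DD, mkDerivation_X, ← map_mul, ← h2]
  · exact ⟨0, by rw [SS'_of_le σ 0 (by omega), map_zero, map_zero]⟩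

theorem star (h : Dat σ M c) (a : Fin n → ℝ) (s : ℝ) (hs : DD a (SS' σ 0) = C s) (i : ℕ) :
    XX c a (SS' σ i) = DD a (SS' σ (i + 1)) - C s * SS' σ i := by
  by_cases hi : i < n
  · have := star0 h a ⟨i, hi⟩
    rw [SS', dif_pos hi, this, hs]
    ring
  · rw [SS'_of_le σ i (by omega), SS'_of_le σ (i + 1) (by omega), map_zero, map_zero]
    ring

/-- `s(a * b) = s(b * a)` -/
theorem DD_mul_symm (h : Dat σ M c) (a b : Fin n → ℝ) :
    DD (mul c a b) (SS' σ 0) = DD (mul c b a) (SS' σ 0) := by
  obtain ⟨s, hs⟩ := const0 h a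
  obtain ⟨r, hr⟩ := const0 h b
  have key : ∀ (a b : Fin n → ℝ) (s r : ℝ), DD a (SS' σ 0) = C s → DD b (SS' σ 0) = C r →
      DD (mul c a b) (SS' σ 0) = DD b (DD a (SS' σ 1)) - C (s * r) := by
    intro a b s r hs hr
    have h1 := comm_XD c a b (SS' σ 0)
    rw [hr, derivation_C, star h a s hs 0, map_sub, der_C_mul, hr] at h1
    rw [map_mul]
    linear_combination h1
  have hDD : DD b (DD a (SS' σ 1)) = DD a (DD b (SS' σ 1)) := by
    have h2 : ⁅DD a, DD b⁆ = 0 := by
      apply derivation_ext
      intro i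
      rw [Derivation.commutator_apply, DD, DD, mkDerivation_X, mkDerivation_X, derivation_C,
        derivation_C, sub_zero]
      rfl
    have h3 := congrArg (fun D => D (SS' σ 1)) h2
    simp only [Derivation.commutator_apply, Derivation.zero_apply] at h3
    linear_combination -h3
  rw [key a b s r hs hr, key b a r s hr hs, hDD, mul_comm s r]

theorem DD_sub (a b : Fin n → ℝ) (p : MvPolynomial (Fin n) ℝ) :
    DD (a - b) p = DD a p - DD b p := by
  rw [DD_eq, DD_eq, DD_eq, ← Finset.sum_sub_distrib]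
  refine Finset.sum_congr rfl fun k _ => ?_
  rw [Pi.sub_apply, map_sub]
  ring

theorem brak (h : Dat σ M c) (a b : Fin n → ℝ) (i : ℕ) :
    XX c a (XX c b (SS' σ i)) - XX c b (XX c a (SS' σ i)) +
      XX c (mul c a b - mul c b a) (SS' σ i) = 0 := by
  obtain ⟨s, hs⟩ := const0 h a
  obtain ⟨r, hr⟩ := const0 h b
  have h0 : DD (mul c a b - mul c b a) (SS' σ 0) = C 0 := by
    rw [DD_sub, DD_mul_symm h a b, sub_self, map_zero]
  have hDD : DD b (DD a (SS' σ (i + 1 + 1))) = DD a (DD b (SS' σ (i + 1 + 1))) := by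
    have h2 : ⁅DD a, DD b⁆ = 0 := by
      apply derivation_ext
      intro i
      rw [Derivation.commutator_apply, DD, DD, mkDerivation_X, mkDerivation_X, derivation_C,
        derivation_C, sub_zero]
      rfl
    have h3 := congrArg (fun D => D (SS' σ (i + 1 + 1))) h2
    simp only [Derivation.commutator_apply, Derivation.zero_apply] at h3
    linear_combination -h3
  rw [star h _ 0 h0 i, star h a s hs i, star h b r hr i, map_sub, map_sub, der_C_mul, der_C_mul,
    comm_XD, comm_XD, star h a s hs (i + 1), star h b r hr (i + 1), star h a s hs i,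
    star h b r hr i, map_sub, map_sub, der_C_mul, der_C_mul, DD_sub, hDD, map_zero]
  ring

theorem lsa (h : Dat σ M c) : LSA (mul c) := by
  intro a b x
  -- the derivation
  set E : Fin n → MvPolynomial (Fin n) ℝ := fun k =>
    XX c a (XX c b (X k)) - XX c b (XX c a (X k)) + XX c (mul c a b - mul c b a) (X k) with hE
  have hder : ∀ p : MvPolynomial (Fin n) ℝ,
      XX c a (XX c b p) - XX c b (XX c a p) + XX c (mul c a b - mul c b a) p =
        ∑ k, pderiv k p * E k := by
    intro p
    have := der_eq (⁅XX c a, XX c b⁆ + XX c (mul c a b - mul c b a)) p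
    simp only [Derivation.add_apply, Derivation.commutator_apply] at this
    exact this
  have hJ : jac σ *ᵥ E = 0 := by
    ext1 i
    rw [Matrix.mulVec, dotProduct, Pi.zero_apply]
    have h1 := brak h a b i
    rw [hder, SS'_fin] at h1
    exact h1
  have hE0 := Matrix.eq_zero_of_mulVec_eq_zero h.det hJ
  ext i
  have h2 := congrFun hE0 i
  rw [hE, Pi.zero_apply] at h2
  simp only at h2
  have h3 := congrArg (eval x) h2
  have hX : ∀ a, XX c a (X i) = LL c a i := fun a => by rw [XX, mkDerivation_X]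
  rw [hX, hX, hX, map_add, map_sub, eval_XL, eval_XL, eval_LL, map_zero, map_sub,
    LinearMap.sub_apply, Pi.sub_apply] at h3
  rw [Pi.sub_apply, Pi.sub_apply]
  linarith

/-! ### the characteristic polynomial -/

open Polynomial in
/-- The polynomial of the collection. -/
def PP (σ : Fin n → MvPolynomial (Fin n) ℝ) : (MvPolynomial (Fin n) ℝ)[X] :=
  Polynomial.X ^ n + ∑ k : Fin n, Polynomial.C (σ k) * Polynomial.X ^ (n - 1 - (k : ℕ))

theorem PP_monic (σ : Fin n → MvPolynomial (Fin n) ℝ) : (PP σ).Monic ∧ (PP σ).natDegree = n := by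
  have hdeg : (∑ k : Fin n, Polynomial.C (σ k) * Polynomial.X ^ (n - 1 - (k : ℕ)) :
      Polynomial (MvPolynomial (Fin n) ℝ)).degree < (n : WithBot ℕ) := by
    refine lt_of_le_of_lt (Polynomial.degree_sum_le _ _) ?_
    rw [Finset.sup_lt_iff]
    · intro k _
      refine lt_of_le_of_lt (Polynomial.degree_C_mul_X_pow_le _ _) ?_
      have := k.2
      exact_mod_cast (by omega : n - 1 - (k : ℕ) < n)
    · exact WithBot.bot_lt_coe n
  refine ⟨Polynomial.monic_X_pow_add hdeg, ?_⟩
  rw [PP, Polynomial.natDegree_add_eq_left_of_degree_lt]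
  · exact Polynomial.natDegree_X_pow n
  · rw [Polynomial.degree_X_pow]; exact hdeg

theorem PP_coeff (σ : Fin n → MvPolynomial (Fin n) ℝ) (k : Fin n) :
    (PP σ).coeff (n - 1 - k) = σ k := by
  rw [PP, Polynomial.coeff_add, Polynomial.coeff_X_pow, if_neg (by have := k.2; omega), zero_add,
    Polynomial.finsetSum_coeff, Finset.sum_eq_single k]
  · rw [Polynomial.coeff_C_mul_X_pow, if_pos rfl]
  · intro b _ hb
    rw [Polynomial.coeff_C_mul_X_pow, if_neg]
    intro h
    apply hb
    have := k.2; have := b.2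
    exact Fin.ext (by omega)
  · intro h; exact absurd (Finset.mem_univ _) h

theorem comp_charpoly (σ : Fin n → MvPolynomial (Fin n) ℝ) : (comp σ).charpoly = PP σ := by
  classical
  rcases Nat.eq_zero_or_pos n with hn | hn
  · subst hn
    simp [PP, Matrix.charpoly, Matrix.charmatrix]
  · have hrow : (fun i : Fin n => (Polynomial.X ^ (n - 1 - (i : ℕ)) :
        Polynomial (MvPolynomial (Fin n) ℝ))) ᵥ* (comp σ).charmatrix =
        Pi.single (⟨0, hn⟩ : Fin n) (PP σ) := by
      ext1 j
      rw [Matrix.vecMul, dotProduct]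
      have h1 : ∀ i : Fin n, (Polynomial.X ^ (n - 1 - (i : ℕ)) :
          Polynomial (MvPolynomial (Fin n) ℝ)) * (comp σ).charmatrix i j =
          (if i = j then Polynomial.X ^ (n - 1 - (i : ℕ)) * Polynomial.X else 0) +
          (if (j : ℕ) = 0 then Polynomial.C (σ i) * Polynomial.X ^ (n - 1 - (i : ℕ)) else 0) -
          (if (j : ℕ) = i + 1 then Polynomial.X ^ (n - 1 - (i : ℕ)) else 0) := by
        intro i
        rw [Matrix.charmatrix_apply, Matrix.diagonal_apply]
        show _ * (_ - Polynomial.C ((if (j : ℕ) = 0 then -σ i else 0) +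
          (if (j : ℕ) = i + 1 then 1 else 0))) = _
        split_ifs <;> simp <;> ring
      rw [Finset.sum_congr rfl fun i _ => h1 i, Finset.sum_sub_distrib, Finset.sum_add_distrib,
        Finset.sum_ite_eq' Finset.univ j, if_pos (Finset.mem_univ j)]
      by_cases hj : (j : ℕ) = 0
      · have hj' : j = ⟨0, hn⟩ := Fin.ext hj
        subst hj'
        rw [Pi.single_eq_same]
        simp only [if_true]
        rw [Finset.sum_eq_zero (s := Finset.univ) (f := fun i : Fin n =>
          if (0 : ℕ) = (i : ℕ) + 1 then (Polynomial.X ^ (n - 1 - (i : ℕ)) :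
          Polynomial (MvPolynomial (Fin n) ℝ)) else 0), PP, ← pow_succ]
        · have : n - 1 - 0 + 1 = n := by omega
          rw [this, sub_zero]
        · intro i _
          rw [if_neg (by omega)]
      · have hj' : j ≠ ⟨0, hn⟩ := fun h => hj (by rw [h])
        rw [Pi.single_eq_of_ne hj']
        simp only [if_neg hj]
        rw [Finset.sum_const_zero, add_zero,
          Finset.sum_eq_single (⟨(j : ℕ) - 1, by have := j.2; omega⟩ : Fin n)]
        · rw [if_pos (by simp only; omega), ← pow_succ]
          have : n - 1 - (j : ℕ) + 1 = n - 1 - ((j : ℕ) - 1) := by have := j.2; omega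
          rw [this, sub_self]
        · intro b _ hb
          rw [if_neg]
          intro h
          exact hb (Fin.ext (by simp only; omega))
        · intro h; exact absurd (Finset.mem_univ _) h
    have h2 := congrArg (fun v => (v ᵥ* (comp σ).charmatrix.adjugate) ⟨n - 1, by omega⟩) hrow
    simp only [Matrix.vecMul_vecMul, Matrix.mul_adjugate, Matrix.vecMul_smul, Matrix.vecMul_one,
      Pi.smul_apply, smul_eq_mul, Matrix.single_vecMul] at h2
    rw [Nat.sub_self, pow_zero, mul_one] at h2
    refine (Polynomial.eq_of_monic_of_dvd_of_natDegree_le (PP_monic σ).1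
      (Matrix.charpoly_monic _) ⟨_, h2⟩ ?_)
    rw [(PP_monic σ).2, Matrix.charpoly_natDegree_eq_dim, Fintype.card_fin]

theorem charpoly_M (h : Dat σ M c) : M.charpoly = PP σ := by
  rw [← comp_charpoly]
  set Jc := (Polynomial.C : MvPolynomial (Fin n) ℝ →+* _).mapMatrix (jac σ) with hJc
  have h1 : Jc * M.charmatrix = (comp σ).charmatrix * Jc := by
    rw [Matrix.charmatrix, Matrix.charmatrix, mul_sub, sub_mul, hJc, ← map_mul, ← map_mul, h.JM]
    congr 1
    exact (Matrix.scalar_commute _ (fun r' => Commute.all _ r') _).symm.eq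
  have h2 := congrArg Matrix.det h1
  rw [Matrix.det_mul, Matrix.det_mul, mul_comm] at h2
  refine mul_right_cancel₀ ?_ h2
  rw [hJc, ← RingHom.map_det]
  intro h3
  exact h.det (Polynomial.C_injective (h3.trans Polynomial.C_0.symm))

theorem flip_eq (h : Dat σ M c) (x : Fin n → ℝ) :
    (mul c).flip x = Matrix.toLin' (M.map (eval x)) := by
  apply LinearMap.ext
  intro a
  ext1 i
  rw [LinearMap.flip_apply, mul_apply, Matrix.toLin'_apply, Matrix.mulVec, dotProduct]
  refine Finset.sum_congr rfl fun j _ => ?_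
  rw [Matrix.map_apply, h.hM, map_sum, Finset.sum_mul]
  refine Finset.sum_congr rfl fun l _ => ?_
  rw [map_mul, eval_C, eval_X]
  ring

theorem charpoly_flip (h : Dat σ M c) (x : Fin n → ℝ) :
    ((mul c).flip x).charpoly = (PP σ).map (eval x) := by
  rw [flip_eq h, Matrix.charpoly_toLin', Matrix.charpoly_map, charpoly_M h]

theorem coeff_flip (h : Dat σ M c) (x : Fin n → ℝ) (k : Fin n) :
    ((mul c).flip x).charpoly.coeff (n - 1 - k) = eval x (σ k) := by
  rw [charpoly_flip h, Polynomial.coeff_map, PP_coeff]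

theorem eval_flip (h : Dat σ M c) (x : Fin n → ℝ) (t : ℝ) :
    ((mul c).flip x).charpoly.eval t = t ^ n + ∑ k : Fin n, eval x (σ k) * t ^ (n - 1 - (k : ℕ)) := by
  rw [charpoly_flip h, PP, Polynomial.map_add, Polynomial.map_pow, Polynomial.map_X,
    Polynomial.eval_add, Polynomial.eval_pow, Polynomial.eval_X, Polynomial.map_sum,
    Polynomial.eval_finsetSum]
  congr 1
  refine Finset.sum_congr rfl fun k _ => ?_
  rw [Polynomial.map_mul, Polynomial.map_C, Polynomial.map_pow, Polynomial.map_X,
    Polynomial.eval_mul, Polynomial.eval_C, Polynomial.eval_pow, Polynomial.eval_X]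

/-! ### nondegeneracy -/

theorem hasDerivAt_eval (x v : Fin n → ℝ) (p : MvPolynomial (Fin n) ℝ) :
    HasDerivAt (fun q : ℝ => eval (x + q • v) p) (∑ j, eval x (pderiv j p) * v j) 0 := by
  classical
  have h0 : x + (0 : ℝ) • v = x := by simp
  induction p using MvPolynomial.induction_on with
  | C a => simpa using hasDerivAt_const (0 : ℝ) a
  | add p q hp hq =>
    have := hp.add hq
    rw [← Finset.sum_add_distrib] at this
    refine (this.congr_of_eventuallyEq ?_).congr_deriv ?_
    · exact Filter.Eventually.of_forall fun r => by simp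
    · refine Finset.sum_congr rfl fun j _ => ?_
      rw [map_add, map_add]; ring
  | mul_X p i hp =>
    have h1 : HasDerivAt (fun q : ℝ => x i + q * v i) (v i) 0 := by
      simpa using ((hasDerivAt_id (0 : ℝ)).mul_const (v i)).const_add (x i)
    have h2 := hp.mul h1
    refine (h2.congr_of_eventuallyEq ?_).congr_deriv ?_
    · exact Filter.Eventually.of_forall fun r => by simp
    · have h3 : ∀ j, eval x (pderiv j (p * X i)) * v j =
          eval x (pderiv j p) * v j * x i + (if j = i then eval x p * v j else 0) := by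
        intro j
        rw [pderiv_mul, pderiv_X, Pi.single_apply, map_add, map_mul, eval_X, map_mul]
        by_cases hj : i = j
        · subst hj; simp; ring
        · rw [if_neg hj, if_neg (fun h => hj h.symm), map_zero]; ring
      rw [Finset.sum_congr rfl fun j _ => h3 j, Finset.sum_add_distrib, Finset.sum_ite_eq',
        if_pos (Finset.mem_univ i), ← Finset.sum_mul, h0]
      ring

theorem nd (h : Dat σ M c) (hDF : St_DF) : ND (mul c) := by
  obtain ⟨x, hx⟩ : ∃ x, eval x (jac σ).det ≠ 0 := by
    by_contra hc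
    push Not at hc
    exact h.det (MvPolynomial.funext fun x => by rw [hc x, map_zero])
  refine ⟨x, fun v hv => ?_⟩
  obtain ⟨dP, hd1, hd2, _⟩ := hDF (Fin n → ℝ) (mul c) (lsa h)
  have h3 : ∀ (t : ℝ) (k : ℕ), dP t x (((mul c).flip x ^ k) v) = t ^ k * dP t x v := by
    intro t k
    induction k with
    | zero => simp
    | succ k ih =>
      have h4 : ((mul c).flip x ^ (k + 1)) v = mul c (((mul c).flip x ^ k) v) x := by
        rw [pow_succ']; rfl
      rw [h4, hd2, ih, hv k, pow_succ']
      ring
  have h4 : ∀ (t : ℝ) (g : Polynomial ℝ),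
      dP t x (Polynomial.aeval ((mul c).flip x) g v) = g.eval t * dP t x v := by
    intro t g
    induction g using Polynomial.induction_on' with
    | add p q hp hq =>
      rw [map_add, LinearMap.add_apply, map_add, hp, hq, Polynomial.eval_add]; ring
    | monomial k a =>
      rw [Polynomial.aeval_monomial, Module.End.mul_apply, Module.algebraMap_end_apply, map_smul,
        h3, Polynomial.eval_monomial, smul_eq_mul]
      ring
  have h5 : ∀ t : ℝ, ((mul c).flip x).charpoly.eval t * dP t x v = 0 := by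
    intro t
    rw [← h4, LinearMap.aeval_self_charpoly, LinearMap.zero_apply, map_zero]
  set w : Fin n → ℝ := fun k => ∑ j, eval x (pderiv j (σ k)) * v j with hw
  have h6 : ∀ t : ℝ, dP t x v = ∑ k : Fin n, w k * t ^ (n - 1 - (k : ℕ)) := by
    intro t
    have hz : HasDerivAt (fun q : ℝ => x + q • v) v 0 := by
      simpa using ((hasDerivAt_id (0 : ℝ)).smul_const v).const_add x
    have h7 := hd1 t (fun q : ℝ => x + q • v) v 0 hz
    simp only [zero_smul, add_zero] at h7
    have h8 : HasDerivAt (fun q : ℝ => ((mul c).flip (x + q • v)).charpoly.eval t)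
        (∑ k : Fin n, w k * t ^ (n - 1 - (k : ℕ))) 0 := by
      have h9 : HasDerivAt (fun q : ℝ => t ^ n +
          ∑ k : Fin n, eval (x + q • v) (σ k) * t ^ (n - 1 - (k : ℕ)))
          (∑ k : Fin n, w k * t ^ (n - 1 - (k : ℕ))) 0 := by
        apply HasDerivAt.const_add
        apply HasDerivAt.fun_sum
        intro k _
        exact (hasDerivAt_eval x v (σ k)).mul_const _
      refine h9.congr_of_eventuallyEq (Filter.Eventually.of_forall fun q => ?_)
      exact eval_flip h _ t
    exact h7.unique h8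
  set W : Polynomial ℝ := ∑ k : Fin n, Polynomial.C (w k) * Polynomial.X ^ (n - 1 - (k : ℕ))
    with hW
  have hWe : ∀ t : ℝ, W.eval t = dP t x v := by
    intro t
    rw [h6, hW, Polynomial.eval_finsetSum]
    refine Finset.sum_congr rfl fun k _ => ?_
    rw [Polynomial.eval_mul, Polynomial.eval_C, Polynomial.eval_pow, Polynomial.eval_X]
  have hW0 : W = 0 := by
    have h7 : ((mul c).flip x).charpoly * W = 0 := by
      apply Polynomial.funext
      intro t
      rw [Polynomial.eval_mul, hWe, h5, Polynomial.eval_zero]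
    exact (mul_eq_zero.1 h7).resolve_left (LinearMap.charpoly_monic _).ne_zero
  have hw0 : ∀ k, w k = 0 := by
    intro k
    have h7 : W.coeff (n - 1 - k) = w k := by
      rw [hW, Polynomial.finsetSum_coeff, Finset.sum_eq_single k]
      · rw [Polynomial.coeff_C_mul_X_pow, if_pos rfl]
      · intro b _ hb
        rw [Polynomial.coeff_C_mul_X_pow, if_neg]
        intro h
        apply hb
        have := k.2; have := b.2
        exact Fin.ext (by omega)
      · intro h; exact absurd (Finset.mem_univ _) h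
    rw [← h7, hW0, Polynomial.coeff_zero]
  have hdet : ((jac σ).map (eval x)).det ≠ 0 := by
    have := RingHom.map_det (eval x) (jac σ)
    rw [RingHom.mapMatrix_apply] at this
    rw [← this]; exact hx
  apply Matrix.eq_zero_of_mulVec_eq_zero hdet
  ext1 k
  exact hw0 k

end B1b

open Helper28.Nij in
theorem thm_B1b (hB1a : St_B1a) (hDF : St_DF) : St_B1b := by
  intro n σ hσ
  obtain ⟨hdet, M, hM, hJM⟩ := hB1a n σ hσ
  have h : B1b.Dat σ M (fun i j l => MvPolynomial.coeff (Finsupp.single l 1) (M i j)) :=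
    ⟨hσ.homog, hdet, fun i j => B1b.lin_eq _ (hM i j), hJM⟩
  exact ⟨B1b.mul _, B1b.lsa h, B1b.nd h hDF, B1b.coeff_flip h⟩

end Pool.Agent.RRC
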