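import Pool.Agent.RRC.St3

/-!
# RRC, module Cr: traces in terms of the complex eigenvalues (MP_835236_al)
-/

set_option autoImplicit false

noncomputable section

namespace Pool.Agent.RRC

open scoped Polynomial
open Polynomial

namespace Crx

open Module

/-- The trace of `f ^ n` when `f - μ` is nilpotent. -/
theorem trace_pow_of_nilpotent {V : Type} [AddCommGroup V] [Module ℂ V] [FiniteDimensional ℂ V]
    (f : Module.End ℂ V) (μ : ℂ) (hf : IsNilpotent (f - algebraMap ℂ _ μ)) (n : ℕ) :
    LinearMap.trace ℂ V (f ^ n) = (finrank ℂ V : ℂ) * μ ^ n := by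
  induction n with
  | zero => simp
  | succ n ih =>
    have hc : Commute (f ^ n) f := (Commute.refl f).pow_left n
    have h := LinearMap.trace_comp_eq_mul_of_commute_of_isNilpotent (f := f ^ n) (g := f) μ hc hf
    rw [pow_succ]
    change LinearMap.trace ℂ V ((f ^ n) ∘ₗ f) = _
    rw [h, ih]
    ring

/-- The generalized eigenspaces of a complex operator. -/
theorem internal {V : Type} [AddCommGroup V] [Module ℂ V] [FiniteDimensional ℂ V]
    (f : Module.End ℂ V) :
    DirectSum.IsInternal (fun μ : f.charpoly.roots.toFinset => f.maxGenEigenspace (μ : ℂ)) := by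
  classical
  have hind : iSupIndep (fun μ : f.charpoly.roots.toFinset => f.maxGenEigenspace (μ : ℂ)) :=
    f.independent_maxGenEigenspace.comp Subtype.val_injective
  have hinj := hind.dfinsupp_lsum_injective
  have hfr : finrank ℂ (DirectSum f.charpoly.roots.toFinset
      (fun μ => f.maxGenEigenspace (μ : ℂ))) = finrank ℂ V := by
    rw [Module.finrank_directSum]
    have h1 : ∀ μ : f.charpoly.roots.toFinset, finrank ℂ (f.maxGenEigenspace (μ : ℂ)) =
        f.charpoly.roots.count (μ : ℂ) := fun μ => by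
      rw [LinearMap.finrank_maxGenEigenspace_eq, count_roots]
    simp only [h1]
    rw [Finset.sum_coe_sort f.charpoly.roots.toFinset (fun μ => f.charpoly.roots.count μ),
      Multiset.toFinset_sum_count_eq, ← LinearMap.charpoly_natDegree f]
    exact (splits_iff_card_roots.1 (IsAlgClosed.splits _))
  refine ⟨hinj, ?_⟩
  exact (LinearMap.injective_iff_surjective_of_finrank_eq_finrank hfr).1 hinj

theorem trace_pow {V : Type} [AddCommGroup V] [Module ℂ V] [FiniteDimensional ℂ V]
    (f : Module.End ℂ V) (n : ℕ) :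
    LinearMap.trace ℂ V (f ^ n) = (f.charpoly.roots.map fun l => l ^ n).sum := by
  classical
  have hcomm : Commute f (f ^ n) := (Commute.refl f).pow_right n
  have hmaps : ∀ μ : f.charpoly.roots.toFinset,
      Set.MapsTo (f ^ n) (f.maxGenEigenspace (μ : ℂ)) (f.maxGenEigenspace (μ : ℂ)) := fun μ =>
    f.mapsTo_maxGenEigenspace_of_comm hcomm μ
  rw [LinearMap.trace_eq_sum_trace_restrict (internal f) hmaps]
  have h1 : ∀ μ : f.charpoly.roots.toFinset,
      LinearMap.trace ℂ (f.maxGenEigenspace (μ : ℂ)) ((f ^ n).restrict (hmaps μ)) =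
        (f.charpoly.roots.count (μ : ℂ) : ℂ) * (μ : ℂ) ^ n := fun μ => by
    have h2 : Set.MapsTo f (f.maxGenEigenspace (μ : ℂ)) (f.maxGenEigenspace (μ : ℂ)) :=
      f.mapsTo_maxGenEigenspace_of_comm (Commute.refl f) μ
    have h3 : (f ^ n).restrict (hmaps μ) = (f.restrict h2) ^ n :=
      (Module.End.pow_restrict n h2 (hmaps μ)).symm
    rw [h3, count_roots, ← LinearMap.finrank_maxGenEigenspace_eq]
    exact trace_pow_of_nilpotent _ μ (f.isNilpotent_restrict_maxGenEigenspace_sub_algebraMap μ) n
  simp only [h1]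
  rw [Finset.sum_coe_sort f.charpoly.roots.toFinset
    (fun μ => (f.charpoly.roots.count μ : ℂ) * μ ^ n), Finset.sum_multiset_map_count]
  simp

/-- the traces of the powers of a real operator -/
theorem trace_pow_real {V : Type} [AddCommGroup V] [Module ℝ V] [FiniteDimensional ℝ V]
    (T : Module.End ℝ V) (k : ℕ) :
    ((LinearMap.trace ℝ V (T ^ k) : ℝ) : ℂ) = ((cr T).map fun l => l ^ k).sum := by
  classical
  let b := Module.finBasis ℝ V
  let A : Matrix (Fin (finrank ℝ V)) (Fin (finrank ℝ V)) ℝ := LinearMap.toMatrix b b T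
  let A' : Matrix (Fin (finrank ℝ V)) (Fin (finrank ℝ V)) ℂ := A.map (algebraMap ℝ ℂ)
  have h1 : (Matrix.toLin' A').charpoly = T.charpoly.map (algebraMap ℝ ℂ) := by
    rw [Matrix.charpoly_toLin', ← LinearMap.charpoly_toMatrix T b, Matrix.charpoly_map]
  have h2 : LinearMap.trace ℝ V (T ^ k) = (A ^ k).trace := by
    rw [LinearMap.trace_eq_matrix_trace ℝ b, LinearMap.toMatrix_pow]
  have h3 : LinearMap.trace ℂ _ ((Matrix.toLin' A') ^ k) = (A' ^ k).trace := by
    rw [← Matrix.toLin'_pow, Matrix.trace_toLin'_eq]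
  have h4 : (((A ^ k).trace : ℝ) : ℂ) = (A' ^ k).trace := by
    have : A' ^ k = (A ^ k).map (algebraMap ℝ ℂ) := by
      change ((algebraMap ℝ ℂ).mapMatrix A) ^ k = (algebraMap ℝ ℂ).mapMatrix (A ^ k)
      rw [map_pow]
    rw [this]
    simp [Matrix.trace]
  rw [h2, h4, ← h3, trace_pow, h1]
  rfl

theorem splits_of (f : ℝ[X]) (hf : f ≠ 0) (h : ∀ z : ℂ, aeval z f = 0 → z.im = 0) :
    f.Splits := by
  refine Splits.of_splits_map (algebraMap ℝ ℂ) (IsAlgClosed.splits _) ?_
  intro z hz
  rw [mem_roots_map hf] at hz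
  have h1 := h z hz
  exact ⟨z.re, Complex.ext rfl h1.symm⟩

/-- the characteristic polynomial of a multiple -/
theorem charpoly_smul {V : Type} [AddCommGroup V] [Module ℝ V] [FiniteDimensional ℝ V]
    (T : Module.End ℝ V) (t : ℝ) (ht : t ≠ 0) :
    (t • T : Module.End ℝ V).charpoly = T.charpoly.scaleRoots t := by
  refine Polynomial.funext fun x => ?_
  have h0 : x = t * (t⁻¹ * x) := by
    rw [← mul_assoc, mul_inv_cancel₀ ht, one_mul]
  rw [h0, scaleRoots_eval_mul, LinearMap.eval_charpoly, LinearMap.eval_charpoly,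
    LinearMap.charpoly_natDegree]
  have h1 : (algebraMap ℝ (Module.End ℝ V) (t * (t⁻¹ * x)) - t • T) =
      t • (algebraMap ℝ (Module.End ℝ V) (t⁻¹ * x) - T) := by
    rw [smul_sub, Algebra.algebraMap_eq_smul_one, Algebra.algebraMap_eq_smul_one, smul_smul]
  rw [h1, LinearMap.det_smul]

end Crx

theorem thm_Cr : St_Cr := by
  intro V _ _ _ T
  refine ⟨?_, ?_, ?_, ?_⟩
  · unfold cr
    rw [splits_iff_card_roots.1 (IsAlgClosed.splits _), natDegree_map,
      LinearMap.charpoly_natDegree]
  · intro g
    induction g using Polynomial.induction_on' with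
    | add p q hp hq =>
      rw [map_add, map_add, Complex.ofReal_add, hp, hq, ← Multiset.sum_map_add]
      simp only [map_add]
    | monomial k a =>
      have h1 : (aeval T) (monomial k a) = a • (T : Module.End ℝ V) ^ k := by
        rw [aeval_monomial, ← Algebra.smul_def]
      rw [h1, map_smul, smul_eq_mul, Complex.ofReal_mul, Crx.trace_pow_real,
        ← Multiset.sum_map_mul_left]
      simp only [aeval_monomial]
      rfl
  · intro h
    refine Crx.splits_of _ (LinearMap.charpoly_monic _).ne_zero fun z hz => h z ?_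
    unfold cr
    rw [mem_roots_map (LinearMap.charpoly_monic _).ne_zero]
    exact hz
  · intro t ht
    unfold cr
    rw [Crx.charpoly_smul T t ht, map_scaleRoots _ _ _ (by
      rw [(LinearMap.charpoly_monic T).leadingCoeff, map_one]
      exact one_ne_zero)]
    have hu : IsUnit ((algebraMap ℝ ℂ) t) := by
      rw [isUnit_iff_ne_zero]
      simpa using ht
    rw [roots_scaleRoots _ hu]
    rfl

end Pool.Agent.RRC
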