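import Pool.Agent.RRC.St2

/-!
# RRC, part 3: a positive definite form `tr L²` implies real roots (helper69)

For a left-symmetric algebra with `tr R_x² > 0` for all `x ≠ 0` all eigenvalues of all `R_x` are real. So for
an admissible collection: real-rooted iff `σ_1² - 2 σ_2` is positive definite. Module `X` proves
`theorem thm_X (h.. : St_..) : St_X` in `Pool/Agent/RRC/X.lean`, namespace `Pool.Agent.RRC`; the hypotheses may be
the statements listed after `needs`. Auxiliary lemmas in the sub-namespace `X`.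
-/

set_option autoImplicit false

noncomputable section

namespace Pool.Agent.RRC

open scoped Polynomial
open Polynomial

/-- the complex eigenvalues, with multiplicities -/
def cr {V : Type} [AddCommGroup V] [Module ℝ V] [FiniteDimensional ℝ V] (T : V →ₗ[ℝ] V) :
    Multiset ℂ :=
  (T.charpoly.map (algebraMap ℝ ℂ)).roots

/-- **Cr.** Traces in terms of the complex eigenvalues.

Proof. Take a basis, `A` = matrix of `T`, `A'` = the same matrix over `ℂ` (`Matrix.charpoly_map`,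
`LinearMap.charpoly_toMatrix`). (1) `card roots = natDegree = finrank` (`IsAlgClosed.card_roots_eq_natDegree` or
`splits_iff_card_roots`). (2) by linearity `g = X^k`: `tr T^k = tr A'^k = Σ l^k` (`Pool/Agent/SAD/Tools.lean`,
`trace_pow_eq_sum'`, or `Matrix.trace_pow_eq_sum_roots_charpoly` or similar if it exists, or copy the proof of
`RRC/Tr.lean` (1)). (3) the roots of the complex polynomial are real, so the real polynomial splits (see
`RRC/B3.lean`). (4) `charpoly (t T)`: for `t ≠ 0` `det(X - t A') = t^n det(X/t - A')`; `t = 0`: `X^n`; or: by (2) all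
power sums of the two multisets agree and they have the same number of elements. -/
def St_Cr : Prop := ∀ (V : Type) [AddCommGroup V] [Module ℝ V] [FiniteDimensional ℝ V]
  (T : V →ₗ[ℝ] V), Multiset.card (cr T) = Module.finrank ℝ V ∧
    (∀ g : ℝ[X], ((LinearMap.trace ℝ V (aeval T g) : ℝ) : ℂ) =
      ((cr T).map fun l => aeval l g).sum) ∧
    ((∀ l ∈ cr T, l.im = 0) → T.charpoly.Splits) ∧
    ∀ t : ℝ, t ≠ 0 → cr (t • T) = (cr T).map fun l => (t : ℂ) * l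

/-- **Bd.** The eigenvalues of `R_y`, `‖y‖ ≤ 1`, are bounded.

Proof. In a basis the entries of the matrix of `R_y` are linear in `y`, so bounded by `B` for `‖y‖ ≤ 1` (linear maps
on finite dimensional spaces are bounded: `LinearMap.toContinuousLinearMap`, `le_opNorm`). If `A' v = l v`, `v ≠ 0` a
complex vector and `|v_i|` is maximal, then `|l| |v_i| ≤ Σ_j |A_ij| |v_j| ≤ n B |v_i|`, so `|l| ≤ n B`. (A root of the
characteristic polynomial is an eigenvalue: `Matrix.mem_spectrum_iff_isRoot_charpoly` or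
`Module.End.hasEigenvalue_iff_isRoot_charpoly` for `Matrix.toLin'`; or `spectrum.norm_le_norm_of_mem` with
`Matrix.linftyOpNormedAlgebra`.) -/
def St_Bd : Prop := ∀ (V : Type) [NormedAddCommGroup V] [InnerProductSpace ℝ V]
  [FiniteDimensional ℝ V] (m : V →ₗ[ℝ] V →ₗ[ℝ] V),
    ∃ B : ℝ, ∀ y : V, ‖y‖ ≤ 1 → ∀ l ∈ cr (m.flip y), ‖l‖ ≤ B

/-- **Crit.** Critical points of `y ↦ tr g(R_y)` on the closed unit ball.

Proof. `R = R_x`. Let `ℓ(v) = tr(g'(R) R_v)`, linear in `v`, the derivative of `e ↦ tr g(R_(x + e v))` at `e = 0` (`DT`).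
(a) If `⟨x, v⟩ < 0` or `‖x‖ < 1` then `‖x + e v‖ ≤ 1` for small `e > 0`, so `ℓ(v) ≤ 0` (the function has a maximum at
`0` on `[0, e₀]`: the right derivative is `≤ 0`). (b) So there is `ν ≥ 0` with `ℓ(v) = ν ⟨x, v⟩` for all `v`: if `‖x‖ < 1`
then `ℓ(v) ≤ 0` and `ℓ(-v) ≤ 0`, `ν = 0`. If `‖x‖ = 1`: for `v ⟂ x` and `d > 0` `ℓ(v - d x) ≤ 0`, `d → 0`: `ℓ(v) ≤ 0`, the same
for `-v`: `ℓ(v) = 0`. Put `ν = ℓ(x)`, `ν ≥ 0` as `ℓ(-x) ≤ 0`; `v - ⟨x, v⟩ x` is orthogonal to `x`. (c) `v = R^j x`: `ℓ(v) =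
s(g'(R) R^j x)` (`K1` (3)) `= tr(g'(R) R^(j+1))` (`K1` (3) with the polynomial `g' X^j` and `v = x`), `⟨x, v⟩ = ⟨v, x⟩ = s(v * x) =
s(R^(j+1) x) = tr(R^(j+2))` (`K1` (2)). So with `G = (g' - ν X) X`: `tr(G(R) R^j) = 0` for all `j`, so by `Cr` (2)
`Σ_l G(l) l^j = 0`, so `Σ_l G(l) f(l) = 0` for all complex polynomials `f` (linearity). (d) Take `f` with
`f(l) = conj(G(l))` for the finitely many `l ∈ cr R` (`Lagrange.interpolate`): `Σ |G(l)|² = 0`, so `G(l) = 0` for all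
`l ∈ cr R`. needs: DT, K1, Cr -/
def St_Crit : Prop := ∀ (V : Type) [NormedAddCommGroup V] [InnerProductSpace ℝ V]
  [FiniteDimensional ℝ V] (m : V →ₗ[ℝ] V →ₗ[ℝ] V), LSA m →
    (∀ x y : V, inner ℝ x y = tr m (m x y)) → ∀ (g : ℝ[X]) (x : V), ‖x‖ ≤ 1 →
      (∀ y : V, ‖y‖ ≤ 1 → LinearMap.trace ℝ V (aeval (m.flip y) g) ≤
        LinearMap.trace ℝ V (aeval (m.flip x) g)) →
      ∃ ν : ℝ, 0 ≤ ν ∧ ∀ l ∈ cr (m.flip x), l = 0 ∨ aeval l (derivative g) = ν * l

/-- `g(X) = T_(4L)(X / K)`, `T` the Chebyshev polynomials -/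
def gC (K : ℝ) (L : ℕ) : ℝ[X] := (Chebyshev.T ℝ (4 * (L : ℤ))).comp (C (1 / K) * X)

/-- **Trig.** The critical equation for `g = T_(4L)(X / K)` implies `Re g(l) ≤ 1`.

Proof. Let `sin θ = l / K` (`Complex.sin_surjective`), `θ = a + i b`. `sin θ = sin a cosh b + i cos a sinh b`, so
`|sin a| ≤ |sin a cosh b| ≤ |l / K| ≤ 1/2`, `cos 2a = 1 - 2 sin² a ≥ 1/2`. With `φ = π/2 - θ`, `cos φ = l / K`:
`g(l) = T_(4L)(cos φ) = cos(4L φ) = cos(2π L - 4L θ) = cos(4L θ)` (`Chebyshev.T_complex_cos`), `Re g(l) = cos(4L a) cosh(4L b)`.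
If `l = 0` take `θ = 0`. If `b = 0` clear. Otherwise `g'(l) = (4L / K) U_(4L-1)(cos φ)` (`Chebyshev.T_derivative_eq_U`),
`U_(4L-1)(cos φ) sin φ = sin(4L φ) = - sin(4L θ)` (`U_complex_cos`), `sin φ = cos θ`. So `g'(l) = ν l` gives
`- (4L / K) sin(4L θ) = ν l cos θ = ν K sin θ cos θ = (ν K / 2) sin 2θ`. Imaginary parts:
`- (4L / K) cos(4L a) sinh(4L b) = (ν K / 2) cos(2a) sinh(2b)`. Multiply by `sinh(2b)`: the right side is `≥ 0`. So (`L ≥ 1`,
`sinh(4L b) sinh(2b) > 0` as `b ≠ 0`) `cos(4L a) ≤ 0` and `Re g(l) ≤ 0`. `L = 0`: `g = 1`. -/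
def St_Trig : Prop := ∀ (K : ℝ) (L : ℕ) (ν : ℝ) (l : ℂ), 0 < K → 0 ≤ ν → 2 * ‖l‖ ≤ K →
  (l = 0 ∨ aeval l (derivative (gC K L)) = ν * l) → (aeval l (gC K L)).re ≤ 1

/-- **Alm.** If `Σ_l Re g(l)`, `g = T_(4L)(X / K)`, is bounded for all `L`, then all `l` are real.

Proof. For `l ∈ s` choose `θ_l = a_l + i b_l` with `sin θ_l = l / K`; as in `Trig` `Re g(l) = cos(4L a_l) cosh(4L b_l)`. Let
`S = s.toFinset` and `z_L = (exp(4 i L a_l))_(l ∈ S)`, a sequence in the compact set `{|z_l| ≤ 1}` of `S → ℂ`. There is a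
convergent subsequence `z_(φ(j))` (`IsCompact.tendsto_subseq`); so for every `N` there are `j < j'` with
`φ(j') - φ(j) ≥ N` and `|z_(φ(j')) - z_(φ(j))| ≤ 1/2` in all coordinates; with `L = φ(j') - φ(j)`:
`|exp(4 i L a_l) - 1| ≤ 1/2` (divide by `z_(φ(j))`, of absolute value `1`), so `cos(4L a_l) ≥ 1/2` for all `l ∈ S`. All
terms of the sum are `≥ (1/2) cosh(4L b_l) ≥ 0`, so for every fixed `l₀ ∈ s`: `(1/2) cosh(4L b_(l₀)) ≤ card s`, for
arbitrarily large `L`. So `b_(l₀) = 0` (`cosh t ≥ 1 + t²/2`, or `cosh t ≥ |t|`), and `l₀ = K sin(a_(l₀))` is real. -/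
def St_Alm : Prop := ∀ (K : ℝ) (s : Multiset ℂ), 0 < K → (∀ l ∈ s, 2 * ‖l‖ ≤ K) →
  (∀ L : ℕ, (s.map fun l => (aeval l (gC K L)).re).sum ≤ Multiset.card s) →
  ∀ l ∈ s, l.im = 0

/-- **Pos.** Positivity implies real roots.

Proof. `B x y = tr m (m x y)` is symmetric (`K1` (4)) and positive definite; `Norm.iso` (`RRC/Norm.lean`) gives
`φ : V ≃ EuclideanSpace`, `m' = Norm.tp m φ` satisfies `LSA m'` and `inner = tr m' (m' x y)` (`Norm.tp_apply`, `tp_tr`);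
`R'_(φ x)` is conjugate to `R_x`. So let `V` be Euclidean with `inner = h`. `B` from `Bd`, `K = 2 (|B| + 1)`. Let `L` be given,
`g = gC K L`. The function `y ↦ tr g(R_y)` is continuous (polynomial; the matrices of `R_y` depend linearly on `y`), so it
has a maximum on the closed unit ball, at `x`. `Crit`: `ν`; `Trig`: `Re g(l) ≤ 1` for all `l ∈ cr R_x`; `Cr`: `tr g(R_x) =
Σ Re g(l) ≤ n`. So `tr g(R_y) ≤ n` for all `‖y‖ ≤ 1` and all `L`; `Alm` for `s = cr R_y`: all eigenvalues are real. So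
`charpoly R_y` splits for `‖y‖ ≤ 1` (`Cr` (3)), and for all `y` by scaling (`Cr` (4), `y = t • y'`, `R_y = t • R_y'`).
needs: K1, Cr, Bd, Crit, Trig, Alm -/
def St_Pos : Prop := ∀ (V : Type) [AddCommGroup V] [Module ℝ V] [FiniteDimensional ℝ V]
  (m : V →ₗ[ℝ] V →ₗ[ℝ] V), LSA m → (∀ v : V, v ≠ 0 → 0 < tr m (m v v)) → RR m

/-- The quadratic form `tr L² = σ_1² - 2 σ_2` (`σ_k = 0` for `k > n`). -/
def qd {n : ℕ} (σ : Fin n → MvPolynomial (Fin n) ℝ) : MvPolynomial (Fin n) ℝ :=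
  (∑ k : Fin n, if (k : ℕ) = 0 then σ k else 0) ^ 2 -
    2 * ∑ k : Fin n, if (k : ℕ) = 1 then σ k else 0

/-- `σ_1² - 2 σ_2` is positive definite. -/
def PosDef {n : ℕ} (σ : Fin n → MvPolynomial (Fin n) ℝ) : Prop :=
  ∀ x : Fin n → ℝ, x ≠ 0 → 0 < MvPolynomial.eval x (qd σ)

/-- **Qd.** `tr T² = c_1² - 2 c_2` for the coefficients of the characteristic polynomial.

Proof. `Cr` (2) with `g = X²` and `g = X`, `(Σ l)² = Σ l² + 2 e_2` for a multiset (induction, `Multiset.esymm`), and Vieta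
(`Polynomial.coeff_eq_esymm_roots_of_card` for the monic polynomial over `ℂ`): the coefficient of `t^(n-1)` is `- Σ l`, of
`t^(n-2)` is `e_2` (`n ≥ 2`; for `n = 1` `e_2 = 0`; for `n = 0` everything is `0`). Alternative without `ℂ`: for the
matrix `A` `Matrix.charpoly` and the Newton identities. needs: Cr -/
def St_Qd : Prop := ∀ (n : ℕ) (σ : Fin n → MvPolynomial (Fin n) ℝ)
  (m : (Fin n → ℝ) →ₗ[ℝ] (Fin n → ℝ) →ₗ[ℝ] (Fin n → ℝ)),
    (∀ (x : Fin n → ℝ) (k : Fin n),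
      (m.flip x).charpoly.coeff (n - 1 - k) = MvPolynomial.eval x (σ k)) →
    ∀ x : Fin n → ℝ, MvPolynomial.eval x (qd σ) =
      LinearMap.trace ℝ (Fin n → ℝ) (m.flip x ^ 2)

open Helper28.Nij in
/-- **Main3.** For admissible collections: real-rooted iff `σ_1² - 2 σ_2` is positive definite.

Proof. `m` from `B1b`; `tr m (m x x) = tr(R_x R_x)` (`K1` (4)) `= (σ_1² - 2 σ_2)(x)` (`Qd`). `⟹`: `B3`: `RR m`, `P1`. `⟸`: `Pos`, `B3`.
needs: K1, P1, B1b, B3, Qd, Pos -/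
def St_Main3 : Prop := ∀ (n : ℕ) (σ : Fin n → MvPolynomial (Fin n) ℝ), Admissible σ →
  (RealRooted σ ↔ PosDef σ)

end Pool.Agent.RRC
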