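import Pool.Agent.RRC.St2

/-!
# Real-rooted admissible collections: adding a source, dimension zero (MP_835236_al)

Proof of `St_Add`.
-/

open Matrix Polynomial

namespace Pool.Agent.RRC

namespace Addx

theorem dext {D D' : Dig} (h : D.vs = D'.vs) (h' : D.E = D'.E) : D = D' := by
  cases D
  cases D'
  cases h
  cases h'
  rfl

/-- A number larger than all vertices. -/
def new (D : Dig) : ℕ := (insert 0 D.vs).sup id + 1

theorem lt_new (D : Dig) {j : ℕ} (h : j ∈ insert 0 D.vs) : j < new D :=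
  Nat.lt_succ_of_le (Finset.le_sup (f := id) h)

theorem new_notMem (D : Dig) : new D ∉ D.vs := fun h =>
  lt_irrefl _ (lt_new D (Finset.mem_insert_of_mem h))

/-- The digraph with a new source. -/
def addS (D : Dig) (T : Finset ℕ) (hT : T ⊆ insert 0 D.vs) : Dig where
  vs := insert (new D) D.vs
  E i j := D.E i j ∨ (i = new D ∧ j ∈ T)
  zero h := by
    rcases Finset.mem_insert.1 h with h | h
    · exact (Nat.succ_ne_zero _) h.symm
    · exact D.zero h
  down i j h := by
    rcases h with h | ⟨h, h'⟩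
    · exact ⟨(D.down i j h).1, Finset.mem_insert_of_mem (D.down i j h).2.1,
        (D.down i j h).2.2.imp id Finset.mem_insert_of_mem⟩
    · exact ⟨h ▸ lt_new D (hT h'), h ▸ Finset.mem_insert_self _ _,
        (Finset.mem_insert.1 (hT h')).imp id Finset.mem_insert_of_mem⟩

theorem add_a (D : Dig) (T : Finset ℕ) (hT : T ⊆ insert 0 D.vs) :
    ∃ (D1 : Dig) (k : ℕ), D1.Source k ∧ D1.del k = D ∧ D1.out k = T := by
  refine ⟨addS D T hT, new D, ⟨Finset.mem_insert_self _ _, ?_⟩, dext ?_ ?_, ?_⟩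
  · rintro i (h | ⟨-, h⟩)
    · exact lt_irrefl _ (lt_new D (Finset.mem_insert.2 (D.down _ _ h).2.2))
    · exact lt_irrefl _ (lt_new D (hT h))
  · exact Finset.erase_insert (new_notMem D)
  · funext i j
    refine propext ⟨?_, fun h => ⟨Or.inl h, ?_, ?_⟩⟩
    · rintro ⟨h | ⟨h, -⟩, h1, -⟩
      · exact h
      · exact absurd h h1
    · exact (lt_new D (Finset.mem_insert_of_mem (D.down _ _ h).2.1)).ne
    · exact (lt_new D (Finset.mem_insert.2 (D.down _ _ h).2.2)).ne
  · ext j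
    rw [Dig.mem_out]
    constructor
    · rintro (h | ⟨-, h⟩)
      · exact absurd (D.down _ _ h).2.1 (new_notMem D)
      · exact h
    · exact fun h => Or.inr ⟨rfl, h⟩

theorem add_b (D : Dig) (h : D.vs.Nonempty) : ∃ k, D.Source k :=
  ⟨D.vs.max' h, D.vs.max'_mem h, fun i hi =>
    absurd (D.vs.le_max' i (D.down _ _ hi).2.1) (not_le.2 (D.down _ _ hi).1)⟩

/-- The empty digraph. -/
def D0 : Dig where
  vs := ∅
  E _ _ := False
  zero := Finset.notMem_empty _
  down _ _ h := h.elim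

theorem pathP_iff (l : List ℕ) : D0.PathP l ↔ l = [0] := by
  constructor
  · rintro ⟨h1, h2, h3⟩
    match l, h1, h2, h3 with
    | [a], _, h2, _ =>
      rcases h2 a (List.mem_singleton_self a) with h | h
      · rw [h]
      · exact absurd h (Finset.notMem_empty _)
    | a :: b :: l, _, _, h3 => exact (List.isChain_cons_cons.1 h3).1.elim
  · rintro rfl
    exact ⟨List.cons_ne_nil _ _, fun i hi => Or.inl (List.mem_singleton.1 hi),
      List.isChain_singleton 0⟩

instance : IsEmpty D0.Path := ⟨fun p => p.2.2 ((pathP_iff _).1 p.2.1)⟩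

theorem ext0_eq {A : Type} [Zero A] (x : D0.Path → A) (l : List ℕ) : D0.ext0 x l = 0 := by
  unfold Dig.ext0
  exact dif_neg fun h => h.2 ((pathP_iff _).1 h.1)

theorem matQ_eq (T : Finset ℕ) (x : D0.Path → ℝ) : D0.matQ T x = 0 := by
  ext p q
  show Dig.ent (D0.ext0 x) p.1 q.1 = 0
  unfold Dig.ent
  split_ifs
  · exact ext0_eq x _
  · exact ext0_eq x _
  · rfl

theorem card_Q0 : Fintype.card (D0.Q ∅) = 0 := by
  rw [Fintype.card_eq_zero_iff]
  exact ⟨fun p => by
    obtain ⟨i, hi, -⟩ := p.2.2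
    exact Finset.notMem_empty _ hi⟩

theorem card_Q1 : Fintype.card (D0.Q {0}) = 1 := by
  rw [Fintype.card_eq_one_iff]
  refine ⟨⟨[0], (pathP_iff _).2 rfl, 0, Finset.mem_singleton_self 0, rfl⟩, fun p => ?_⟩
  exact Subtype.ext ((pathP_iff _).1 p.2.1)

theorem exT (n : ℕ) (hn : n ≤ 1) :
    ∃ T : Finset ℕ, T ⊆ insert 0 D0.vs ∧ Fintype.card (D0.Q T) = n := by
  rcases Nat.le_one_iff_eq_zero_or_eq_one.1 hn with h | h
  · exact ⟨∅, Finset.empty_subset _, h ▸ card_Q0⟩
  · exact ⟨{0}, Finset.singleton_subset_iff.2 (Finset.mem_insert_self _ _), h ▸ card_Q1⟩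

theorem finrank_le {H : Type} [NormedAddCommGroup H] [InnerProductSpace ℝ H]
    [FiniteDimensional ℝ H] (h : Cyc (0 : H →ₗ[ℝ] H)) : Module.finrank ℝ H ≤ 1 := by
  obtain ⟨v, hv⟩ := h
  refine finrank_le_one v fun w => ?_
  have h1 : w ∈ Submodule.span ℝ {v} := by
    have h2 : w ∈ (⊤ : Submodule ℝ H) := Submodule.mem_top
    rw [← hv] at h2
    refine Submodule.span_le.2 ?_ h2
    rintro _ ⟨k, rfl⟩
    rcases Nat.eq_zero_or_pos k with rfl | hk
    · exact Submodule.subset_span rfl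
    · show ((0 : H →ₗ[ℝ] H) ^ k) v ∈ _
      rw [zero_pow hk.ne']
      exact Submodule.zero_mem _
  exact Submodule.mem_span_singleton.1 h1

theorem add_c (V : Type) [AddCommGroup V] [Module ℝ V] [Module.Finite ℝ V]
    (m : V →ₗ[ℝ] V →ₗ[ℝ] V) (hV : Subsingleton V) :
    ∃ (D : Dig) (Φ : V ≃ₗ[ℝ] (D.Path → ℝ)), D.Full m Φ := by
  refine ⟨D0, 0, fun x => ?_, ?_⟩
  · rw [(Polynomial.Monic.natDegree_eq_zero (LinearMap.charpoly_monic _)).1
      (by rw [LinearMap.charpoly_natDegree, Module.finrank_zero_of_subsingleton]),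
      (Polynomial.Monic.natDegree_eq_zero (Matrix.charpoly_monic _)).1
      (by rw [Matrix.charpoly_natDegree_eq_dim, Fintype.card_eq_zero])]
  · intro H _ _ _ r _ hx
    have hS : ∀ x, SS r x = 0 := fun x => by
      rw [Subsingleton.elim x 0]
      unfold SS
      rw [map_zero, map_zero, add_zero]
    obtain ⟨x, hx⟩ := hx
    rw [hS x] at hx
    obtain ⟨T, hT, hc⟩ := exT _ (finrank_le hx)
    refine ⟨T, (stdOrthonormalBasis ℝ H).reindex (Fintype.equivFinOfCardEq hc).symm, hT,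
      fun x => ?_⟩
    rw [matQ_eq, hS x]
    ext i j
    show inner ℝ _ ((0 : H →ₗ[ℝ] H) _) = (0 : ℝ)
    rw [LinearMap.zero_apply, inner_zero_right]

end Addx

theorem thm_Add : St_Add :=
  ⟨Addx.add_a, Addx.add_b, fun V _ _ _ m hV => Addx.add_c V m hV⟩

end Pool.Agent.RRC
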