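import Pool.Agent.RRC.St1

/-!
# RRC, B3: real-rootedness of the collection and of the algebra
-/

set_option autoImplicit false

noncomputable section

namespace Pool.Agent.RRC

open scoped Polynomial
open Polynomial

namespace B3

/-- a real polynomial splits if and only if its complex roots are real -/
theorem splits_iff (f : ℝ[X]) (hf : f ≠ 0) :
    f.Splits ↔ ∀ z : ℂ, aeval z f = 0 → z.im = 0 := by
  constructor
  · intro h z hz
    obtain ⟨r, hr⟩ := h.mem_range_of_isRoot (i := algebraMap ℝ ℂ) hf (x := z) (by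
      rw [IsRoot, eval_map_algebraMap]
      exact hz)
    rw [← hr]
    rfl
  · intro h
    refine Splits.of_splits_map (algebraMap ℝ ℂ) (IsAlgClosed.splits _) ?_
    intro z hz
    rw [mem_roots_map hf] at hz
    have h1 := h z hz
    exact ⟨z.re, Complex.ext rfl h1.symm⟩

theorem aeval_rev (f : ℝ[X]) (n : ℕ) (hf : f.Monic) (hn : f.natDegree = n) (z : ℂ) :
    aeval z f = z ^ n + ∑ k : Fin n, ((f.coeff (n - 1 - k) : ℝ) : ℂ) * z ^ (n - 1 - (k : ℕ)) := by
  rw [aeval_eq_sum_range, hn, Finset.sum_range_succ, add_comm]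
  congr 1
  · have : f.coeff n = 1 := by
      rw [← hn]
      exact hf
    rw [this, one_smul]
  · rw [← Finset.sum_range_reflect, ← Fin.sum_univ_eq_sum_range
      (fun k => f.coeff (n - 1 - k) • z ^ (n - 1 - k))]
    refine Finset.sum_congr rfl fun k _ => ?_
    rw [Complex.real_smul]

end B3

theorem thm_B3 : St_B3 := by
  intro n σ m h
  have h1 : ∀ (x : Fin n → ℝ) (z : ℂ), aeval z (m.flip x).charpoly = z ^ n +
      ∑ k : Fin n, ((MvPolynomial.eval x (σ k) : ℝ) : ℂ) * z ^ (n - 1 - (k : ℕ)) := by
    intro x z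
    rw [B3.aeval_rev _ n (LinearMap.charpoly_monic _)
      (by rw [LinearMap.charpoly_natDegree, Module.finrank_fin_fun])]
    congr 1
    refine Finset.sum_congr rfl fun k _ => ?_
    rw [h]
  constructor
  · intro hR x z hz
    exact (B3.splits_iff _ (LinearMap.charpoly_monic _).ne_zero).1 (hR x) z ((h1 x z).trans hz)
  · intro hR x
    exact (B3.splits_iff _ (LinearMap.charpoly_monic _).ne_zero).2
      fun z hz => hR x z ((h1 x z).symm.trans hz)

end Pool.Agent.RRC
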