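import Pool.Agent.RRC.St1

/-!
# RRC, module C1c: the set of the rank one elements is compact (helper15)
-/

set_option autoImplicit false

open Polynomial

namespace Pool.Agent.RRC

theorem C1c.mem_iff (hTr : St_Tr) {V : Type} [NormedAddCommGroup V] [InnerProductSpace ℝ V]
    [FiniteDimensional ℝ V] (m : V →ₗ[ℝ] V →ₗ[ℝ] V) (hm : Good m) (c : V) :
    c ∈ C1 m ↔ ∀ e : ℝ, FF m (e • c) = 1 - e := by
  have h := (hTr V (m.flip c) (hm.rr c)).2.2.2.1
  have e1 : ∀ e : ℝ, FF m (e • c) = ((e • m.flip c).charpoly).eval 1 := by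
    intro e
    unfold FF
    rw [map_smul]
  simp only [e1]
  exact h.symm

theorem thm_C1c (hTr : St_Tr) (hK1 : St_K1) (hDF : St_DF) : St_C1c := by
  intro V _ _ _ m hm
  refine ⟨C1c.mem_iff hTr m hm, ?_⟩
  have hp : ProperSpace V := FiniteDimensional.proper_real V
  obtain ⟨dP, -, -, hc⟩ := hDF V m hm.lsa
  refine Metric.isCompact_of_isClosed_isBounded ?_ ?_
  · have e : C1 m = ⋂ e : ℝ, {c : V | FF m (e • c) = 1 - e} := by
      ext c
      rw [C1c.mem_iff hTr m hm, Set.mem_iInter]
      rfl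
    rw [e]
    refine isClosed_iInter fun e => isClosed_eq ?_ continuous_const
    exact (hc 1).comp (continuous_const_smul e)
  · refine (Metric.isBounded_closedBall (x := (0 : V)) (r := 1)).subset ?_
    rintro c ⟨-, h2, -⟩
    have h3 : inner ℝ c c = (1 : ℝ) := by
      rw [hm.inn, ((hK1 V m hm.lsa).2.2.2.1 c c).1, ← pow_two]
      exact h2
    rw [mem_closedBall_zero_iff]
    rw [real_inner_self_eq_norm_sq] at h3
    nlinarith [norm_nonneg c]

end Pool.Agent.RRC
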