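import Pool.Agent.RRC.St1

/-!
# RRC: there are rank one elements

Module C1n: `thm_C1n : St_Tr → St_K1 → St_P3 → St_R1 → St_C1c → St_DF → St_C1n`.
-/

set_option autoImplicit false

noncomputable section

namespace Pool.Agent.RRC

open scoped Polynomial Topology
open Polynomial

namespace C1n

/-- split monic polynomials as indexed products -/
theorem exists_roots {p : ℝ[X]} (hp : p.Splits) (hm : p.Monic) {n : ℕ} (hn : p.natDegree = n) :
    ∃ mu : Fin n → ℝ, p = ∏ i, (X - C (mu i)) ∧ (p.roots.Nodup → Function.Injective mu) := by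
  have hc : p.roots.toList.length = n := by
    rw [Multiset.length_toList, ← hn]
    exact hp.natDegree_eq_card_roots.symm
  subst hc
  refine ⟨fun i => p.roots.toList.get i, ?_, fun h => ?_⟩
  · have h1 : p = (p.roots.map fun a => X - C a).prod := by
      conv_lhs => rw [hp.eq_prod_roots, hm.leadingCoeff, C_1, one_mul]
    have h2 : (∏ i, (X - C (p.roots.toList.get i))) = (p.roots.map fun a => X - C a).prod := by
      conv_rhs => rw [← Multiset.coe_toList p.roots]
      rw [Multiset.map_coe, Multiset.prod_coe, ← List.prod_ofFn]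
      congr 1
      conv_rhs => rw [← List.ofFn_get p.roots.toList]
      rw [List.map_ofFn]
      rfl
    rw [h2]
    exact h1
  · have h2 : p.roots.toList.Nodup := by
      rw [← Multiset.coe_nodup, Multiset.coe_toList]
      exact h
    exact List.nodup_iff_injective_get.1 h2

variable {V : Type} [NormedAddCommGroup V] [InnerProductSpace ℝ V] [FiniteDimensional ℝ V]

theorem FF_smul (m : V →ₗ[ℝ] V →ₗ[ℝ] V) (e : ℝ) (x : V) :
    FF m (e • x) = ((e • m.flip x).charpoly).eval 1 := by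
  rw [FF, map_smul]

/-- the two descriptions of the roots -/
theorem iff_roots (hTr : St_Tr) {m : V →ₗ[ℝ] V →ₗ[ℝ] V} (hG : Good m) (x : V)
    (mu : Fin (Module.finrank ℝ V) → ℝ) :
    (∀ e : ℝ, FF m (e • x) = ∏ i, (1 - e * mu i)) ↔
      (m.flip x).charpoly = ∏ i, (X - C (mu i)) := by
  rw [← (hTr V (m.flip x) (hG.rr x)).2.2.1 mu]
  exact forall_congr' fun e => by rw [FF_smul]

theorem sum_sq (hTr : St_Tr) (hK1 : St_K1) {m : V →ₗ[ℝ] V →ₗ[ℝ] V} (hG : Good m) (x : V)
    (mu : Fin (Module.finrank ℝ V) → ℝ) (h : ∀ e : ℝ, FF m (e • x) = ∏ i, (1 - e * mu i)) :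
    ‖x‖ ^ 2 = ∑ i, mu i ^ 2 := by
  have h1 := (iff_roots hTr hG x mu).1 h
  have h2 := (hTr V (m.flip x) (hG.rr x)).1 (X ^ 2)
  rw [← real_inner_self_eq_norm_sq, hG.inn, ((hK1 V m hG.lsa).2.2.2.1 x x).1]
  have h3 : aeval (m.flip x) (X ^ 2 : ℝ[X]) = m.flip x * m.flip x := by
    rw [map_pow, aeval_X, pow_two]
  rw [h3] at h2
  rw [h2, h1]
  have h4 : (∏ i, (X - C (mu i))).roots = (Finset.univ : Finset (Fin _)).val.map mu := by
    rw [Finset.prod_eq_multiset_prod]
    have := Polynomial.roots_multiset_prod_X_sub_C ((Finset.univ : Finset (Fin _)).val.map mu)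
    rw [Multiset.map_map] at this
    exact this
  rw [h4, Multiset.map_map]
  simp [Finset.sum]

theorem FF_neg (m : V →ₗ[ℝ] V →ₗ[ℝ] V) (x : V) {n : ℕ} (mu : Fin n → ℝ)
    (h : ∀ e : ℝ, FF m (e • x) = ∏ i, (1 - e * mu i)) (c e : ℝ) :
    FF m (e • (c • x)) = ∏ i, (1 - e * (c * mu i)) := by
  rw [smul_smul, h]
  exact Finset.prod_congr rfl fun i _ => by ring

/-- a start: simple top eigenvalue -/
theorem start (hTr : St_Tr) (hK1 : St_K1) (hP3 : St_P3) {m : V →ₗ[ℝ] V →ₗ[ℝ] V} (hG : Good m)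
    (hV : Nontrivial V) (i0 : Fin (Module.finrank ℝ V)) :
    ∃ (x : V) (mu : Fin (Module.finrank ℝ V) → ℝ),
      (∀ e : ℝ, FF m (e • x) = ∏ i, (1 - e * mu i)) ∧ 0 < mu i0 ∧
        ∀ i, i ≠ i0 → mu i < mu i0 := by
  classical
  have hex : ∀ x : V, ∃ mu : Fin (Module.finrank ℝ V) → ℝ,
      (∀ e : ℝ, FF m (e • x) = ∏ i, (1 - e * mu i)) ∧
        ((m.flip x).charpoly.roots.Nodup → Function.Injective mu) := by
    intro x
    obtain ⟨mu, h1, h2⟩ := exists_roots (hG.rr x) (LinearMap.charpoly_monic (m.flip x))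
      (LinearMap.charpoly_natDegree (m.flip x))
    exact ⟨mu, (iff_roots hTr hG x mu).2 h1, h2⟩
  -- an element with different roots, one of them not zero
  have s1 : ∃ (x : V) (mu : Fin (Module.finrank ℝ V) → ℝ),
      (∀ e : ℝ, FF m (e • x) = ∏ i, (1 - e * mu i)) ∧ Function.Injective mu ∧
        ∃ i, mu i ≠ 0 := by
    by_cases hn : Module.finrank ℝ V = 1
    · obtain ⟨x, hx⟩ := exists_ne (0 : V)
      obtain ⟨mu, h1, -⟩ := hex x
      have h2 := sum_sq hTr hK1 hG x mu h1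
      refine ⟨x, mu, h1, ?_, ?_⟩
      · intro a b _
        apply Fin.ext
        have := a.2
        have := b.2
        omega
      · by_contra hcon
        push Not at hcon
        have h3 : ‖x‖ ^ 2 = 0 := by
          rw [h2]
          exact Finset.sum_eq_zero fun i _ => by rw [hcon i]; ring
        exact hx (norm_eq_zero.1 ((pow_eq_zero_iff two_ne_zero).1 h3))
    · obtain ⟨x, hx⟩ := hG.nd
      obtain ⟨mu, h1, h2⟩ := hex x
      have h3 := h2 (hP3 V m hG.lsa hG.rr x hx).1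
      refine ⟨x, mu, h1, h3, ?_⟩
      by_contra hcon
      push Not at hcon
      have hn2 : 1 < Module.finrank ℝ V := by
        have := Module.finrank_pos (R := ℝ) (M := V)
        omega
      have h4 : (⟨0, by omega⟩ : Fin (Module.finrank ℝ V)) = ⟨1, hn2⟩ :=
        h3 (by rw [hcon, hcon])
      have h5 := congrArg Fin.val h4
      simp at h5
  -- one of them positive
  have s2 : ∃ (x : V) (mu : Fin (Module.finrank ℝ V) → ℝ),
      (∀ e : ℝ, FF m (e • x) = ∏ i, (1 - e * mu i)) ∧ Function.Injective mu ∧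
        ∃ i, 0 < mu i := by
    obtain ⟨x, mu, h1, h2, i, hi⟩ := s1
    rcases lt_or_gt_of_ne hi with h | h
    · refine ⟨(-1 : ℝ) • x, fun j => (-1) * mu j, fun e => FF_neg m x mu h1 _ e, ?_, i, ?_⟩
      · intro a b hab
        apply h2
        have : (-1 : ℝ) * mu a = (-1) * mu b := hab
        linarith
      · change 0 < (-1 : ℝ) * mu i
        linarith
    · exact ⟨x, mu, h1, h2, i, h⟩
  obtain ⟨x, mu, h1, h2, i, hi⟩ := s2
  have hne : Nonempty (Fin (Module.finrank ℝ V)) := ⟨i0⟩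
  obtain ⟨i1, hi1⟩ := Finite.exists_max mu
  refine ⟨x, fun j => mu (Equiv.swap i0 i1 j), fun e => ?_, ?_, ?_⟩
  · rw [h1]
    exact (Equiv.prod_comp (Equiv.swap i0 i1) fun j => 1 - e * mu j).symm
  · change 0 < mu (Equiv.swap i0 i1 i0)
    rw [Equiv.swap_apply_left]
    exact lt_of_lt_of_le hi (hi1 i)
  · intro j hj
    change mu (Equiv.swap i0 i1 j) < mu (Equiv.swap i0 i1 i0)
    rw [Equiv.swap_apply_left]
    refine lt_of_le_of_ne (hi1 _) fun h => hj ?_
    have h3 := h2 h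
    have h4 : Equiv.swap i0 i1 j = Equiv.swap i0 i1 i0 := by rw [h3, Equiv.swap_apply_left]
    exact (Equiv.swap i0 i1).injective h4

/-- the compact set -/
def Sig (m : V →ₗ[ℝ] V →ₗ[ℝ] V) (i0 : Fin (Module.finrank ℝ V)) (κ : ℝ) :
    Set (V × (Fin (Module.finrank ℝ V) → ℝ)) :=
  {p | ‖p.1‖ = 1 ∧ (∀ e : ℝ, FF m (e • p.1) = ∏ i, (1 - e * p.2 i)) ∧ 0 ≤ p.2 i0 ∧
    ∀ i, i ≠ i0 → p.2 i ≤ κ * p.2 i0}

theorem compact_Sig (hTr : St_Tr) (hK1 : St_K1) (hDF : St_DF) {m : V →ₗ[ℝ] V →ₗ[ℝ] V}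
    (hG : Good m) (i0 : Fin (Module.finrank ℝ V)) (κ : ℝ) : IsCompact (Sig m i0 κ) := by
  obtain ⟨dP, -, -, hcont⟩ := hDF V m hG.lsa
  have hF : Continuous (FF m) := hcont 1
  have hprop : ProperSpace V := FiniteDimensional.proper ℝ V
  apply Metric.isCompact_of_isClosed_isBounded
  · have c1 : IsClosed {p : V × (Fin (Module.finrank ℝ V) → ℝ) | ‖p.1‖ = 1} :=
      isClosed_eq (continuous_fst.norm) continuous_const
    have c2 : IsClosed {p : V × (Fin (Module.finrank ℝ V) → ℝ) |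
        ∀ e : ℝ, FF m (e • p.1) = ∏ i, (1 - e * p.2 i)} := by
      rw [Set.ofPred_forall]
      refine isClosed_iInter fun e => isClosed_eq ?_ ?_
      · exact hF.comp (continuous_fst.const_smul e)
      · exact continuous_finsetProd _ fun i _ =>
          continuous_const.sub (continuous_const.mul ((continuous_apply i).comp continuous_snd))
    have c3 : IsClosed {p : V × (Fin (Module.finrank ℝ V) → ℝ) | 0 ≤ p.2 i0} :=
      isClosed_le continuous_const ((continuous_apply i0).comp continuous_snd)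
    have c4 : IsClosed {p : V × (Fin (Module.finrank ℝ V) → ℝ) |
        ∀ i, i ≠ i0 → p.2 i ≤ κ * p.2 i0} := by
      rw [Set.ofPred_forall]
      refine isClosed_iInter fun i => ?_
      rw [Set.ofPred_forall]
      refine isClosed_iInter fun _ => isClosed_le ((continuous_apply i).comp continuous_snd) ?_
      exact continuous_const.mul ((continuous_apply i0).comp continuous_snd)
    exact c1.inter (c2.inter (c3.inter c4))
  · refine (Metric.isBounded_closedBall (x := (0 : V × (Fin (Module.finrank ℝ V) → ℝ)))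
      (r := 1)).subset ?_
    rintro ⟨x, mu⟩ ⟨h1, h2, -, -⟩
    rw [mem_closedBall_zero_iff, Prod.norm_def]
    refine max_le h1.le ?_
    refine (pi_norm_le_iff_of_nonneg zero_le_one).2 fun i => ?_
    have h3 := sum_sq hTr hK1 hG x mu h2
    change ‖x‖ = 1 at h1
    rw [h1, one_pow] at h3
    have h4 : mu i ^ 2 ≤ ∑ i, mu i ^ 2 :=
      Finset.single_le_sum (f := fun i => mu i ^ 2) (fun i _ => sq_nonneg _) (Finset.mem_univ i)
    rw [← h3] at h4
    exact abs_le_one_iff_mul_self_le_one.2 (by nlinarith)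

theorem kappa {n : ℕ} (i0 : Fin n) (mu : Fin n → ℝ) (h0 : 0 < mu i0)
    (h : ∀ i, i ≠ i0 → mu i < mu i0) :
    ∃ κ : ℝ, 0 ≤ κ ∧ κ < 1 ∧ ∀ i, i ≠ i0 → mu i ≤ κ * mu i0 := by
  have h1 : ∀ᶠ κ in 𝓝[<] (1 : ℝ), 0 ≤ κ ∧ ∀ i, i ≠ i0 → mu i ≤ κ * mu i0 := by
    refine Filter.Eventually.and ?_ ?_
    · exact nhdsWithin_le_nhds (Ici_mem_nhds one_pos)
    · rw [Filter.eventually_all]
      intro i
      by_cases hi : i = i0
      · exact Filter.Eventually.of_forall fun _ h => absurd hi h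
      · have ht : Filter.Tendsto (fun κ : ℝ => κ * mu i0) (𝓝[<] 1) (𝓝 (1 * mu i0)) :=
          (Filter.tendsto_id.mul_const _).mono_left nhdsWithin_le_nhds
        rw [one_mul] at ht
        exact (ht.eventually (lt_mem_nhds (h i hi))).mono fun κ hκ _ => le_of_lt hκ
  obtain ⟨κ, h2, h3⟩ := (h1.and self_mem_nhdsWithin).exists
  exact ⟨κ, h2.1, h3, h2.2⟩

end C1n

open C1n in
/-- **C1n**. -/
theorem thm_C1n (hTr : St_Tr) (hK1 : St_K1) (hP3 : St_P3) (hR1 : St_R1) (hC1c : St_C1c)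
    (hDF : St_DF) : St_C1n := by
  intro V _ _ _ m hG hV
  classical
  have hn : 0 < Module.finrank ℝ V := Module.finrank_pos
  set i0 : Fin (Module.finrank ℝ V) := ⟨0, hn⟩
  obtain ⟨x₀, mu₀, h1, h2, h3⟩ := start hTr hK1 hP3 hG hV i0
  obtain ⟨κ, hκ0, hκ1, hκ⟩ := kappa i0 mu₀ h2 h3
  have hN₀ := sum_sq hTr hK1 hG x₀ mu₀ h1
  have hx₀ : 0 < ‖x₀‖ := by
    have h4 : mu₀ i0 ^ 2 ≤ ∑ i, mu₀ i ^ 2 :=
      Finset.single_le_sum (f := fun i => mu₀ i ^ 2) (fun i _ => sq_nonneg _)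
        (Finset.mem_univ i0)
    have h5 : 0 < mu₀ i0 ^ 2 := by positivity
    have h6 : 0 < ‖x₀‖ ^ 2 := by rw [hN₀]; linarith
    refine norm_pos_iff.2 fun h0 => ?_
    rw [h0, norm_zero] at h6
    norm_num at h6
  have hmem : ((‖x₀‖⁻¹ • x₀, fun i => ‖x₀‖⁻¹ * mu₀ i) :
      V × (Fin (Module.finrank ℝ V) → ℝ)) ∈ Sig m i0 κ := by
    refine ⟨?_, fun e => FF_neg m x₀ mu₀ h1 _ e, ?_, fun i hi => ?_⟩
    · change ‖‖x₀‖⁻¹ • x₀‖ = 1
      rw [norm_smul, norm_inv, norm_norm, inv_mul_cancel₀ hx₀.ne']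
    · change 0 ≤ ‖x₀‖⁻¹ * mu₀ i0
      positivity
    · change ‖x₀‖⁻¹ * mu₀ i ≤ κ * (‖x₀‖⁻¹ * mu₀ i0)
      have := mul_le_mul_of_nonneg_left (hκ i hi) (inv_nonneg.2 hx₀.le)
      linarith
  obtain ⟨⟨x, l⟩, hx, hmax⟩ := (compact_Sig hTr hK1 hDF hG i0 κ).exists_isMaxOn ⟨_, hmem⟩
    (f := fun p => p.2 i0)
    (((continuous_apply i0).comp continuous_snd).continuousOn)
  obtain ⟨hx1, hx2, hx3, hx4⟩ := hx
  change ‖x‖ = 1 at hx1
  change ∀ e : ℝ, FF m (e • x) = ∏ i, (1 - e * l i) at hx2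
  change 0 ≤ l i0 at hx3
  change ∀ i, i ≠ i0 → l i ≤ κ * l i0 at hx4
  have hl : 0 < l i0 := by
    have h4 : ‖x₀‖⁻¹ * mu₀ i0 ≤ l i0 := hmax hmem
    have h5 : 0 < ‖x₀‖⁻¹ * mu₀ i0 := by positivity
    linarith
  have hsum := sum_sq hTr hK1 hG x l hx2
  rw [hx1, one_pow] at hsum
  obtain ⟨e₁, y, he₁, -, hy⟩ := hR1 V m hG.lsa x
  -- a small step
  obtain ⟨r, hr0, hr1, hr2⟩ : ∃ r : ℝ, 0 < r ∧ r < e₁ ∧ r * l i0 < 1 := by
    refine ⟨min (e₁ / 2) (1 / (2 * l i0)), by positivity, ?_, ?_⟩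
    · exact lt_of_le_of_lt (min_le_left _ _) (by linarith)
    · have h5 : min (e₁ / 2) (1 / (2 * l i0)) * l i0 ≤ 1 / (2 * l i0) * l i0 :=
        mul_le_mul_of_nonneg_right (min_le_right _ _) hl.le
      have h6 : 1 / (2 * l i0) * l i0 = 1 / 2 := by field_simp
      linarith
  obtain ⟨-, hFpos, hFF⟩ := hy r (by rwa [abs_of_pos hr0])
  have hle : ∀ i, l i ≤ l i0 := by
    intro i
    by_cases hi : i = i0
    · rw [hi]
    · have := hx4 i hi
      nlinarith
  have hpos : ∀ i, 0 < 1 - r * l i := by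
    intro i
    have := mul_le_mul_of_nonneg_left (hle i) hr0.le
    linarith
  set mu : Fin (Module.finrank ℝ V) → ℝ := fun i => l i / (1 - r * l i) with hmu
  have hyF : ∀ e : ℝ, FF m (e • y r) = ∏ i, (1 - e * mu i) := by
    intro e
    have e1 := hFF e
    have e2 : FF m (r • x) * ∏ i, (1 - e * mu i) = FF m ((r + e) • x) := by
      rw [hx2, hx2, ← Finset.prod_mul_distrib]
      refine Finset.prod_congr rfl fun i _ => ?_
      have := (hpos i).ne'
      rw [hmu]
      field_simp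
      ring
    exact mul_left_cancel₀ hFpos.ne' (e1.trans e2.symm)
  have hN := sum_sq hTr hK1 hG (y r) mu hyF
  have hmu0 : 0 < mu i0 := div_pos hl (hpos i0)
  have hy0 : 0 < ‖y r‖ := by
    have h4 : mu i0 ^ 2 ≤ ∑ i, mu i ^ 2 :=
      Finset.single_le_sum (f := fun i => mu i ^ 2) (fun i _ => sq_nonneg _)
        (Finset.mem_univ i0)
    have h5 : 0 < mu i0 ^ 2 := by positivity
    have h6 : 0 < ‖y r‖ ^ 2 := by rw [hN]; linarith
    refine norm_pos_iff.2 fun h0 => ?_
    rw [h0, norm_zero] at h6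
    norm_num at h6
  have hmem2 : ((‖y r‖⁻¹ • y r, fun i => ‖y r‖⁻¹ * mu i) :
      V × (Fin (Module.finrank ℝ V) → ℝ)) ∈ Sig m i0 κ := by
    refine ⟨?_, fun e => FF_neg m (y r) mu hyF _ e, ?_, fun i hi => ?_⟩
    · change ‖‖y r‖⁻¹ • y r‖ = 1
      rw [norm_smul, norm_inv, norm_norm, inv_mul_cancel₀ hy0.ne']
    · change 0 ≤ ‖y r‖⁻¹ * mu i0
      positivity
    · change ‖y r‖⁻¹ * mu i ≤ κ * (‖y r‖⁻¹ * mu i0)
      have e1 : mu i ≤ κ * mu i0 := by
        have e2 := hx4 i hi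
        have e3 := hpos i
        have e4 := hpos i0
        have e5 : 0 ≤ κ * l i0 := by positivity
        have e6 : l i * (1 - r * l i0) ≤ κ * l i0 * (1 - r * l i) := by
          have e7 : l i ≤ κ * l i0 := e2
          have e8 : κ * l i0 ≤ l i0 := by nlinarith
          have e9 : 0 ≤ r * (l i0 - κ * l i0) := mul_nonneg hr0.le (by linarith)
          by_cases hs : 0 ≤ l i
          · have f1 : l i * (1 - r * l i0) ≤ l i * (1 - r * (κ * l i0)) := by
              have : 0 ≤ l i * (r * (l i0 - κ * l i0)) := mul_nonneg hs e9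
              nlinarith
            nlinarith
          · push Not at hs
            have f1 : l i * (1 - r * l i0) ≤ 0 := by nlinarith
            have f2 : 0 ≤ κ * l i0 * (1 - r * l i) := mul_nonneg e5 e3.le
            linarith
        change l i / (1 - r * l i) ≤ κ * (l i0 / (1 - r * l i0))
        rw [← mul_div_assoc, div_le_div_iff₀ e3 e4]
        exact e6
      have := mul_le_mul_of_nonneg_left e1 (inv_nonneg.2 hy0.le)
      linarith
  have hN1 : mu i0 ≤ l i0 * ‖y r‖ := by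
    have h4 : ‖y r‖⁻¹ * mu i0 ≤ l i0 := hmax hmem2
    have h5 := mul_le_mul_of_nonneg_right h4 hy0.le
    rw [mul_comm (‖y r‖⁻¹), mul_assoc, inv_mul_cancel₀ hy0.ne', mul_one] at h5
    exact h5
  have hN2 : 1 / (1 - r * l i0) ≤ ‖y r‖ := by
    have h4 : l i0 * (1 / (1 - r * l i0)) ≤ l i0 * ‖y r‖ := by
      rw [mul_one_div]
      exact hN1
    exact le_of_mul_le_mul_left h4 hl
  have hp0 := hpos i0
  have hN3 : (1 / (1 - r * l i0)) ^ 2 ≤ ∑ i, mu i ^ 2 := by
    rw [← hN]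
    exact pow_le_pow_left₀ (by positivity) hN2 2
  have hterm : ∀ i, mu i ^ 2 ≤ l i ^ 2 * (1 / (1 - r * l i0)) ^ 2 := by
    intro i
    have e3 := hpos i
    have e4 : 1 / (1 - r * l i) ≤ 1 / (1 - r * l i0) := by
      apply one_div_le_one_div_of_le hp0
      have := mul_le_mul_of_nonneg_left (hle i) hr0.le
      linarith
    have e5 : mu i ^ 2 = l i ^ 2 * (1 / (1 - r * l i)) ^ 2 := by
      rw [hmu]
      ring
    rw [e5]
    exact mul_le_mul_of_nonneg_left (pow_le_pow_left₀ (by positivity) e4 2) (sq_nonneg _)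
  have hz : ∑ i, (l i ^ 2 * (1 / (1 - r * l i0)) ^ 2 - mu i ^ 2) = 0 := by
    apply le_antisymm
    · rw [Finset.sum_sub_distrib, ← Finset.sum_mul, ← hsum, one_mul]
      linarith
    · exact Finset.sum_nonneg fun i _ => sub_nonneg.2 (hterm i)
  rw [Finset.sum_eq_zero_iff_of_nonneg fun i _ => sub_nonneg.2 (hterm i)] at hz
  have hzero : ∀ i, i ≠ i0 → l i = 0 := by
    intro i hi
    by_contra hne
    have e1 := hz i (Finset.mem_univ i)
    have e3 := hpos i
    have e5 : mu i ^ 2 = l i ^ 2 * (1 / (1 - r * l i)) ^ 2 := by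
      rw [hmu]
      ring
    rw [e5, ← mul_sub] at e1
    have e6 : (0 : ℝ) < l i ^ 2 := by positivity
    have e7 : (1 / (1 - r * l i0)) ^ 2 - (1 / (1 - r * l i)) ^ 2 = 0 := by
      rcases mul_eq_zero.1 e1 with h | h
      · exact absurd h e6.ne'
      · exact h
    have e8 : l i < l i0 := by
      have := hx4 i hi
      nlinarith
    have e9 : 1 / (1 - r * l i) < 1 / (1 - r * l i0) := by
      apply one_div_lt_one_div_of_lt hp0
      have := mul_lt_mul_of_pos_left e8 hr0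
      linarith
    have e10 : (1 / (1 - r * l i)) ^ 2 < (1 / (1 - r * l i0)) ^ 2 :=
      pow_lt_pow_left₀ e9 (by positivity) two_ne_zero
    linarith
  have hl1 : l i0 = 1 := by
    have e1 : ∑ i, l i ^ 2 = l i0 ^ 2 := by
      apply Finset.sum_eq_single i0
      · intro i _ hi
        rw [hzero i hi]
        ring
      · intro h
        exact absurd (Finset.mem_univ _) h
    rw [e1] at hsum
    nlinarith
  refine ⟨x, ((hC1c V m hG).1 x).2 fun e => ?_⟩
  rw [hx2, Finset.prod_eq_single i0]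
  · rw [hl1, mul_one]
  · intro i _ hi
    rw [hzero i hi]
    ring
  · intro h
    exact absurd (Finset.mem_univ _) h

end Pool.Agent.RRC
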