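import Pool.Agent.RRC.St1

/-!
# RRC, DT: traces along a line
-/

set_option autoImplicit false
set_option linter.unusedVariables false
set_option linter.unusedSectionVars false

noncomputable section

namespace Pool.Agent.RRC

open scoped Polynomial
open Polynomial

namespace DT

variable {n : Type} [Fintype n] [DecidableEq n]

/-- entrywise derivative -/
def D (M : Matrix n n ℝ[X]) : Matrix n n ℝ[X] := M.map fun p => derivative p

theorem D_mul (M N : Matrix n n ℝ[X]) : D (M * N) = D M * N + M * D N := by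
  ext1 i j
  rw [Matrix.add_apply, Matrix.mul_apply, Matrix.mul_apply]
  change derivative ((M * N) i j) = _
  rw [Matrix.mul_apply, derivative_sum, ← Finset.sum_add_distrib]
  exact Finset.sum_congr rfl fun k _ => derivative_mul

theorem D_trace (M : Matrix n n ℝ[X]) : derivative (Matrix.trace M) = Matrix.trace (D M) := by
  rw [Matrix.trace, derivative_sum]
  rfl

theorem D_one : D (1 : Matrix n n ℝ[X]) = 0 := by
  ext1 i j
  change derivative ((1 : Matrix n n ℝ[X]) i j) = 0
  rw [Matrix.one_apply]
  split_ifs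
  · exact derivative_one
  · exact derivative_zero

theorem key (M : Matrix n n ℝ[X]) (k : ℕ) : ∀ j : ℕ,
    Matrix.trace (D (M ^ (k + 1)) * M ^ j) =
      ((k + 1 : ℕ) : ℝ[X]) * Matrix.trace (M ^ (k + j) * D M) := by
  induction k with
  | zero =>
    intro j
    rw [zero_add, pow_one, zero_add, Nat.cast_one, one_mul, Matrix.trace_mul_comm]
  | succ k ih =>
    intro j
    rw [pow_succ M (k + 1), D_mul, add_mul, Matrix.trace_add, mul_assoc, ← pow_succ', ih (j + 1),
      mul_assoc, Matrix.trace_mul_comm (M ^ (k + 1)), mul_assoc, ← pow_add,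
      Matrix.trace_mul_comm (D M), show k + (j + 1) = j + (k + 1) by ring,
      show k + 1 + j = j + (k + 1) by ring, Nat.cast_succ (k + 1), add_mul, one_mul]

/-- the matrix of the line -/
def M (A B : Matrix n n ℝ) : Matrix n n ℝ[X] := A.map C + (X : ℝ[X]) • B.map C

theorem M_apply (A B : Matrix n n ℝ) (i j : n) : M A B i j = C (A i j) + X * C (B i j) := by
  rw [M, Matrix.add_apply, Matrix.smul_apply, Matrix.map_apply, Matrix.map_apply, smul_eq_mul]

theorem D_M (A B : Matrix n n ℝ) : D (M A B) = B.map C := by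
  ext1 i j
  rw [D, Matrix.map_apply, Matrix.map_apply, M_apply]
  simp

/-- evaluation -/
def ev (e : ℝ) : Matrix n n ℝ[X] →+* Matrix n n ℝ := (Polynomial.evalRingHom e).mapMatrix

theorem ev_C (e : ℝ) (A : Matrix n n ℝ) : ev e (A.map C) = A := by
  ext1 i j
  change eval e (C (A i j)) = A i j
  rw [eval_C]

theorem ev_M (e : ℝ) (A B : Matrix n n ℝ) : ev e (M A B) = A + e • B := by
  ext1 i j
  change eval e (M A B i j) = A i j + e * B i j
  rw [M_apply, eval_add, eval_mul, eval_X, eval_C, eval_C]

theorem ev_trace (e : ℝ) (N : Matrix n n ℝ[X]) : eval e (Matrix.trace N) = Matrix.trace (ev e N) := by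
  rw [Matrix.trace, eval_finsetSum]
  rfl

theorem deriv_pow (A B : Matrix n n ℝ) (k : ℕ) (e : ℝ) :
    eval e (derivative (Matrix.trace (M A B ^ k))) =
      (k : ℝ) * Matrix.trace ((A + e • B) ^ (k - 1) * B) := by
  cases k with
  | zero =>
    rw [pow_zero, D_trace, D_one, Matrix.trace_zero, eval_zero, Nat.cast_zero, zero_mul]
  | succ k =>
    have h := key (M A B) k 0
    rw [pow_zero, mul_one, ← D_trace, add_zero, D_M] at h
    rw [h, eval_mul, eval_natCast, ev_trace, map_mul, map_pow, ev_M, ev_C, Nat.add_sub_cancel]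

theorem main (A B : Matrix n n ℝ) (g : ℝ[X]) : ∃ q : ℝ[X],
    (∀ e : ℝ, Matrix.trace (aeval (A + e • B) g) = q.eval e) ∧
    ∀ e : ℝ, (derivative q).eval e = Matrix.trace (aeval (A + e • B) (derivative g) * B) := by
  induction g using Polynomial.induction_on' with
  | add p q hp hq =>
    obtain ⟨p', hp1, hp2⟩ := hp
    obtain ⟨q', hq1, hq2⟩ := hq
    refine ⟨p' + q', fun e => ?_, fun e => ?_⟩
    · rw [map_add, Matrix.trace_add, hp1, hq1, eval_add]
    · rw [derivative_add, derivative_add, map_add, add_mul, Matrix.trace_add, ← hp2, ← hq2,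
        eval_add]
  | monomial k a =>
    refine ⟨C a * Matrix.trace (M A B ^ k), fun e => ?_, fun e => ?_⟩
    · rw [aeval_monomial, eval_mul, eval_C, ev_trace, map_pow, ev_M, Algebra.algebraMap_eq_smul_one,
        smul_mul_assoc, one_mul, Matrix.trace_smul, smul_eq_mul]
    · rw [derivative_C_mul, eval_mul, eval_C, deriv_pow, derivative_monomial, aeval_monomial,
        Algebra.algebraMap_eq_smul_one, smul_mul_assoc, one_mul, smul_mul_assoc, Matrix.trace_smul,
        smul_eq_mul, mul_assoc]

end DT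

theorem thm_DT : St_DT := by
  intro V _ _ _ T S
  let b := Module.finBasis ℝ V
  let φ := LinearMap.toMatrixAlgEquiv b
  have hφ : ∀ f : V →ₗ[ℝ] V, LinearMap.trace ℝ V f = Matrix.trace (φ f) := fun f =>
    LinearMap.trace_eq_matrix_trace ℝ b f
  have h1 : ∀ (g : ℝ[X]) (e : ℝ), LinearMap.trace ℝ V (aeval (T + e • S) g) =
      Matrix.trace (aeval (φ T + e • φ S) g) := by
    intro g e
    rw [hφ, ← map_smul, ← map_add, aeval_algHom_apply]
  have h2 : ∀ (g : ℝ[X]) (e : ℝ), LinearMap.trace ℝ V (aeval (T + e • S) g * S) =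
      Matrix.trace (aeval (φ T + e • φ S) g * φ S) := by
    intro g e
    rw [hφ, map_mul, ← map_smul, ← map_add, aeval_algHom_apply]
  constructor
  · intro g e
    obtain ⟨q, hq1, hq2⟩ := DT.main (φ T) (φ S) g
    rw [h2, ← hq2]
    have h3 : (fun r : ℝ => LinearMap.trace ℝ V (aeval (T + r • S) g)) = fun r => q.eval r :=
      funext fun r => (h1 g r).trans (hq1 r)
    rw [h3]
    exact q.hasDerivAt e
  · intro g
    obtain ⟨q, hq1, hq2⟩ := DT.main (φ T) (φ S) g
    exact ⟨q, fun e => (h1 g e).trans (hq1 e)⟩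

end Pool.Agent.RRC
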