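import Pool.Agent.RRC.St1

/-!
# RRC, K2: the deformed products
-/

set_option autoImplicit false

noncomputable section

namespace Pool.Agent.RRC

namespace K2

variable {V : Type} [AddCommGroup V] [Module ℝ V] [FiniteDimensional ℝ V]

theorem trc (a b : V →ₗ[ℝ] V) :
    LinearMap.trace ℝ V (a * b) = LinearMap.trace ℝ V (b * a) := LinearMap.trace_mul_comm ℝ a b

/-- the product rule for the commutator with `a` -/
theorem com4 (a r q s : V →ₗ[ℝ] V) : a * (r * q * s * q) - r * q * s * q * a =
    (a * r - r * a) * q * s * q + r * (a * q - q * a) * s * q + r * q * (a * s - s * a) * q +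
      r * q * s * (a * q - q * a) := by
  noncomm_ring

end K2

open K2

theorem thm_K2 (hK1 : St_K1) : St_K2 := by
  intro V _ _ _ m hm p Q hQ
  have k1 : ∀ a x : V, m a * m.flip x - m.flip x * m a = m.flip (m a x) - m.flip x * m.flip a :=
    (hK1 V m hm).1
  have hQ' : Q * (1 - m.flip p) = 1 := mul_eq_one_comm.1 hQ
  have hB : ∀ a : V, m (Q a) p = Q a - a := by
    intro a
    have h := LinearMap.congr_fun hQ a
    simp only [Module.End.mul_apply, LinearMap.sub_apply, Module.End.one_apply,
      LinearMap.flip_apply] at h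
    have h' : m (Q a) p = Q a - (Q a - m (Q a) p) := by abel
    rw [h] at h'
    exact h'
  have hQB : ∀ z : V, Q (z - m z p) = z := by
    intro z
    have h := LinearMap.congr_fun hQ' z
    simpa only [Module.End.mul_apply, LinearMap.sub_apply, Module.End.one_apply,
      LinearMap.flip_apply] using h
  have hpQ : m.flip p * Q = Q - 1 := by
    have h := hQ
    rw [sub_mul, one_mul] at h
    rw [← h]
    abel
  have hQp : Q * m.flip p = Q - 1 := by
    have h := hQ'
    rw [mul_sub, mul_one] at h
    rw [← h]
    abel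
  -- `R_u = B R_z - [L_z, R_p]` for `z = Q u`
  have hR : ∀ u : V, m.flip u = (1 - m.flip p) * m.flip (Q u) -
      (m (Q u) * m.flip p - m.flip p * m (Q u)) := by
    intro u
    rw [k1, hB, map_sub]
    noncomm_ring
  have h4 : ∀ w : V, LinearMap.trace ℝ V (Q * m.flip w) = tr m (Q w) := by
    intro w
    have e1 : Q * m.flip w = m.flip (Q w) - (Q * m (Q w) * m.flip p - Q * m.flip p * m (Q w)) := by
      conv_lhs => rw [hR w]
      rw [mul_sub, ← mul_assoc, hQ', one_mul, mul_sub, mul_assoc, mul_assoc]
    have e2 : LinearMap.trace ℝ V (Q * m (Q w) * m.flip p) =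
        LinearMap.trace ℝ V (Q * m.flip p * m (Q w)) := by
      rw [trc (Q * m (Q w)), ← mul_assoc, hpQ, hQp]
    rw [e1, map_sub, map_sub, e2, sub_self, sub_zero]
    rfl
  have h3 : ∀ u v : V, LinearMap.trace ℝ V (m.flip u * Q * m.flip v * Q) =
      tr m (Q (m (Q u) v)) := by
    intro u v
    rw [← h4]
    set z := Q u with hz
    have e0 : m.flip (m z v) = m z * m.flip v - m.flip v * m z + m.flip v * m.flip z := by
      rw [k1]
      abel
    have e1 : LinearMap.trace ℝ V (m.flip u * Q * m.flip v * Q) =
        LinearMap.trace ℝ V ((1 - m.flip p) * (m.flip z * Q * m.flip v * Q)) -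
        (LinearMap.trace ℝ V (m z * (m.flip p * Q * m.flip v * Q)) -
          LinearMap.trace ℝ V (m.flip p * (m z * Q * m.flip v * Q))) := by
      conv_lhs => rw [hR u]
      rw [← map_sub, ← map_sub]
      refine congrArg _ ?_
      noncomm_ring
    have e2 : LinearMap.trace ℝ V ((1 - m.flip p) * (m.flip z * Q * m.flip v * Q)) =
        LinearMap.trace ℝ V (Q * (m.flip v * m.flip z)) := by
      rw [trc, mul_assoc _ Q (1 - m.flip p), hQ', mul_one, mul_assoc, trc, mul_assoc]
    have e3 : LinearMap.trace ℝ V (m z * (m.flip p * Q * m.flip v * Q)) =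
        LinearMap.trace ℝ V (m z * (Q * m.flip v * Q)) -
        LinearMap.trace ℝ V (Q * (m z * m.flip v)) := by
      rw [hpQ, trc Q, ← map_sub]
      congr 1
      noncomm_ring
    have e4 : LinearMap.trace ℝ V (m.flip p * (m z * Q * m.flip v * Q)) =
        LinearMap.trace ℝ V (m z * (Q * m.flip v * Q)) -
        LinearMap.trace ℝ V (Q * (m.flip v * m z)) := by
      rw [trc (m.flip p), mul_assoc _ Q (m.flip p), hQp, ← mul_assoc Q, trc (Q * m.flip v),
        ← map_sub]
      congr 1
      noncomm_ring
    rw [e1, e2, e3, e4, e0, mul_add, mul_sub, map_add, map_sub]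
    ring
  refine ⟨fun a w x => ?_, fun w u v => ?_, h3, h4⟩
  · -- the deformed products
    have l1 := hm (Q w) (Q a) x
    have l2 := hm (Q w) (Q a) p
    have e1 : m (Q w) (Q a) - m (Q a) (Q w) = Q (m (Q w) a) - Q (m (Q a) w) := by
      have h := hQB (m (Q w) (Q a) - m (Q a) (Q w))
      rw [← h, ← map_sub]
      congr 1
      rw [hB, hB, map_sub, map_sub] at l2
      rw [map_sub, LinearMap.sub_apply]
      have e2 : m (m (Q w) (Q a)) p - m (m (Q a) (Q w)) p =
          m (Q w) (Q a) - m (Q w) a - (m (Q a) (Q w) - m (Q a) w) := by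
        rw [sub_eq_sub_iff_add_eq_add] at l2 ⊢
        rw [add_comm (m (m (Q w) (Q a)) p), add_comm]
        have := l2
        rw [← sub_eq_zero] at this ⊢
        rw [← neg_eq_zero]
        rw [← this]
        abel
      rw [e2]
      abel
    have e2 : m (m (Q w) (Q a)) x - m (m (Q a) (Q w)) x =
        m (Q (m (Q w) a)) x - m (Q (m (Q a) w)) x := by
      have h := congrArg (fun y => m y x) e1
      simp only [map_sub, LinearMap.sub_apply] at h
      exact h
    have e3 : m (Q (m (Q a) w)) x = m (Q (m (Q w) a)) x -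
        (m (m (Q w) (Q a)) x - m (m (Q a) (Q w)) x) := by
      rw [e2]
      abel
    rw [e3]
    have e4 : m (m (Q w) (Q a)) x = m (Q w) (m (Q a) x) - (m (Q a) (m (Q w) x) -
        m (m (Q a) (Q w)) x) := by
      rw [← l1]
      abel
    rw [e4]
    abel
  · -- the derivative of the form
    set M := m (Q w) with hM
    have c1 : ∀ x : V, M * m.flip x - m.flip x * M = m.flip (M x) - m.flip x * m.flip (Q w) :=
      fun x => k1 (Q w) x
    have c2 : M * Q - Q * M = m.flip (Q w) * Q - Q * m.flip w * Q := by
      have e1 : M * Q - Q * M = Q * (M * m.flip p - m.flip p * M) * Q := by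
        have e2 : Q * (M * m.flip p - m.flip p * M) * Q =
            Q * M * (m.flip p * Q) - Q * m.flip p * (M * Q) := by noncomm_ring
        rw [e2, hpQ, hQp]
        noncomm_ring
      have e3 : m.flip (M p) = m.flip (Q w) - m.flip w := by
        rw [hM, hB, map_sub]
      rw [e1, c1, e3]
      have e4 : Q * (m.flip (Q w) - m.flip w - m.flip p * m.flip (Q w)) * Q =
          Q * (1 - m.flip p) * m.flip (Q w) * Q - Q * m.flip w * Q := by noncomm_ring
      rw [e4, hQ', one_mul]
    have c3 := com4 M (m.flip u) Q (m.flip v)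
    rw [c1, c1, c2] at c3
    have c4 := congrArg (LinearMap.trace ℝ V) c3
    rw [map_sub, trc M, sub_self] at c4
    have c5 : (m.flip (M u) - m.flip u * m.flip (Q w)) * Q * m.flip v * Q +
        m.flip u * (m.flip (Q w) * Q - Q * m.flip w * Q) * m.flip v * Q +
        m.flip u * Q * (m.flip (M v) - m.flip v * m.flip (Q w)) * Q +
        m.flip u * Q * m.flip v * (m.flip (Q w) * Q - Q * m.flip w * Q) =
        (m.flip (M u) * Q * m.flip v * Q + m.flip u * Q * m.flip (M v) * Q) -
        (m.flip u * Q * m.flip w * Q * m.flip v * Q +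
          m.flip u * Q * m.flip v * Q * m.flip w * Q) := by noncomm_ring
    rw [c5, map_sub, map_add, map_add] at c4
    linarith

end Pool.Agent.RRC
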