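import Pool.Agent.RRC.St1

/-!
# RRC, module Lf (helper92): every nonzero normalised algebra has a leaf
-/

set_option autoImplicit false

namespace Pool.Agent.RRC

theorem thm_Lf (hN3 : St_N3) (hN5 : St_N5) : St_Lf := by
  intro V _ _ _ m hm hV
  obtain ⟨c, hc, h⟩ := hN3 V m hm hV
  exact ⟨c, hN5 V m hm c hc h⟩

end Pool.Agent.RRC

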