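import Pool.Agent.RRC.St1

/-!
# RRC, module dpw: the derivative of the power sums (helper15)
-/

set_option autoImplicit false

open Polynomial

namespace Pool.Agent.RRC

theorem thm_dpw (hDT : St_DT) : St_dpw := by
  intro V _ _ _ m k x v
  have h := (hDT V (m.flip x) (m.flip v)).1 (X ^ k) 0
  have e1 : ∀ r : ℝ, LinearMap.trace ℝ V (aeval (m.flip x + r • m.flip v) (X ^ k : ℝ[X])) =
      pw m k (x + r • v) := by
    intro r
    unfold pw
    rw [map_pow, aeval_X, map_add, map_smul]
  have e3 : aeval (m.flip x + (0 : ℝ) • m.flip v) (derivative (X ^ k : ℝ[X])) =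
      (k : ℝ) • m.flip x ^ (k - 1) := by
    rw [zero_smul, add_zero, derivative_X_pow, map_mul, map_pow, aeval_X, aeval_C,
      ← Algebra.smul_def]
  have e2 : LinearMap.trace ℝ V (aeval (m.flip x + (0 : ℝ) • m.flip v)
      (derivative (X ^ k : ℝ[X])) * m.flip v) =
      k * LinearMap.trace ℝ V (m.flip x ^ (k - 1) * m.flip v) := by
    rw [e3, smul_mul_assoc, map_smul, smul_eq_mul]
  rw [e2] at h
  simpa only [e1] using h

end Pool.Agent.RRC
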