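import Pool.Agent.RRC.St1
import Pool.Agent.RRC.dpw

/-!
# RRC, module N1a: the symmetric part of the left multiplications, first order identities (helper50)
-/

set_option autoImplicit false

noncomputable section

namespace Pool.Agent.RRC

open scoped Polynomial
open Polynomial

namespace N1a

theorem ms_ineq (s : Multiset ℝ) (k : ℕ) (hk : 1 ≤ k) :
    ((s.map fun l => l ^ (k + 1)).sum) ^ 2 ≤ ((s.map fun l => l ^ 2).sum) ^ (k + 1) := by
  obtain ⟨j, rfl⟩ : ∃ j, k = j + 1 := ⟨k - 1, by omega⟩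
  obtain ⟨A, hA⟩ : ∃ A, A = (s.map fun l => l ^ 2).sum := ⟨_, rfl⟩
  rw [← hA]
  have hn : ∀ x ∈ s.map fun l => l ^ 2, 0 ≤ x := by
    intro x hx
    obtain ⟨l, -, rfl⟩ := Multiset.mem_map.1 hx
    positivity
  have hA0 : 0 ≤ A := hA ▸ Multiset.sum_nonneg hn
  have hl : ∀ l ∈ s, |l| ≤ Real.sqrt A := by
    intro l hl
    apply Real.abs_le_sqrt
    rw [hA]
    exact Multiset.single_le_sum hn _ (Multiset.mem_map_of_mem _ hl)
  have h1 : |(s.map fun l => l ^ (j + 1 + 1)).sum| ≤ Real.sqrt A ^ j * A := by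
    refine (Multiset.abs_sum_le_sum_abs (s := s.map fun l => l ^ (j + 1 + 1))).trans ?_
    rw [Multiset.map_map, hA, ← Multiset.sum_map_mul_left, ← hA]
    refine Multiset.sum_map_le_sum_map _ _ fun l hl' => ?_
    change |l ^ (j + 1 + 1)| ≤ Real.sqrt A ^ j * l ^ 2
    rw [abs_pow, show |l| ^ (j + 1 + 1) = |l| ^ j * |l| ^ 2 by ring, sq_abs]
    exact mul_le_mul_of_nonneg_right (pow_le_pow_left₀ (abs_nonneg l) (hl l hl') j) (sq_nonneg l)
  have h2 : (Real.sqrt A ^ j * A) ^ 2 = A ^ (j + 1 + 1) := by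
    rw [mul_pow, ← pow_mul, mul_comm j 2, pow_mul, Real.sq_sqrt hA0]
    ring
  rw [← h2, ← sq_abs]
  exact pow_le_pow_left₀ (abs_nonneg _) h1 2

theorem pw_sum (hTr : St_Tr) {V : Type} [AddCommGroup V] [Module ℝ V] [FiniteDimensional ℝ V]
    {m : V →ₗ[ℝ] V →ₗ[ℝ] V} (h : RR m) (k : ℕ) (x : V) :
    pw m k x = ((m.flip x).charpoly.roots.map fun l => l ^ k).sum := by
  have h1 := (hTr V (m.flip x) (h x)).1 (X ^ k)
  rw [map_pow, aeval_X] at h1
  simp only [eval_pow, eval_X] at h1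
  exact h1

theorem pw_ineq (hTr : St_Tr) {V : Type} [AddCommGroup V] [Module ℝ V] [FiniteDimensional ℝ V]
    {m : V →ₗ[ℝ] V →ₗ[ℝ] V} (h : RR m) (k : ℕ) (hk : 1 ≤ k) (x : V) :
    pw m (k + 1) x ^ 2 ≤ pw m 2 x ^ (k + 1) := by
  rw [pw_sum hTr h, pw_sum hTr h]
  exact ms_ineq _ k hk

theorem tr3 {V : Type} [AddCommGroup V] [Module ℝ V] (A B C : V →ₗ[ℝ] V) :
    LinearMap.trace ℝ V (A * B * C) = LinearMap.trace ℝ V (C * A * B) := by
  rw [LinearMap.trace_mul_comm, mul_assoc]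

section

variable {V : Type} [NormedAddCommGroup V] [InnerProductSpace ℝ V] [FiniteDimensional ℝ V]

theorem fs_inner (m : V →ₗ[ℝ] V →ₗ[ℝ] V) (x u v : V) :
    inner ℝ (Fs m x u) v = (1 / 2 : ℝ) * (inner ℝ (m x u) v + inner ℝ (m x v) u) := by
  unfold Fs
  rw [LinearMap.smul_apply, LinearMap.add_apply, real_inner_smul_left, inner_add_left,
    LinearMap.adjoint_inner_left, real_inner_comm (m x v) u]

theorem fs_tr (hK1 : St_K1) {m : V →ₗ[ℝ] V →ₗ[ℝ] V} (h : Good m) (x u v : V) :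
    inner ℝ (Fs m x u) v = (1 / 2 : ℝ) * LinearMap.trace ℝ V
      (m.flip x * m.flip u * m.flip v + m.flip x * m.flip v * m.flip u) := by
  have h5 := (hK1 V m h.lsa).2.2.2.2.1 v u x
  rw [fs_inner, h.inn, h.inn]
  rw [map_add, map_add] at h5
  rw [map_add, ← h5, tr3 (m.flip v) (m.flip u), tr3 (m.flip u) (m.flip v), add_comm]

theorem fs_symm (hK1 : St_K1) {m : V →ₗ[ℝ] V →ₗ[ℝ] V} (h : Good m) (x u v : V) :
    inner ℝ (Fs m x u) v = (inner ℝ (Fs m u v) x : ℝ) := by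
  rw [fs_tr hK1 h, fs_tr hK1 h, map_add, map_add, tr3 (m.flip u) (m.flip v) (m.flip x),
    tr3 (m.flip u) (m.flip x) (m.flip v), tr3 (m.flip v) (m.flip u) (m.flip x)]

theorem part_k (hTr : St_Tr) (hDT : St_DT) (hK1 : St_K1) {m : V →ₗ[ℝ] V →ₗ[ℝ] V} (h : Good m)
    {c : V} (hc : c ∈ C1 m) (k : ℕ) (v : V) (hk : 1 ≤ k) :
    tr m ((m.flip c ^ k) v) = inner ℝ c v := by
  have hK := hK1 V m h.lsa
  obtain ⟨hc1, hc2, hc3⟩ := hc
  have h5 := ((hTr V (m.flip c) (h.rr c)).2.2.2.2 hc1 hc2 hc3).2.2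
  have hpk : pw m (k + 1) c = 1 := h5 (k + 1) (by omega)
  have d2 := thm_dpw hDT V m 2 c v
  have dk := thm_dpw hDT V m (k + 1) c v
  have hd := (d2.pow (k + 1)).sub (dk.pow 2)
  have hmin : IsLocalMin ((fun e : ℝ => pw m 2 (c + e • v)) ^ (k + 1) -
      (fun e : ℝ => pw m (k + 1) (c + e • v)) ^ 2) 0 := by
    refine Filter.Eventually.of_forall fun e => ?_
    change pw m 2 (c + (0 : ℝ) • v) ^ (k + 1) - pw m (k + 1) (c + (0 : ℝ) • v) ^ 2 ≤
      pw m 2 (c + e • v) ^ (k + 1) - pw m (k + 1) (c + e • v) ^ 2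
    rw [zero_smul, add_zero, hc2, hpk, one_pow, one_pow, sub_self]
    exact sub_nonneg.2 (pw_ineq hTr h.rr k hk _)
  have h0 := hmin.hasDerivAt_eq_zero hd
  simp only [zero_smul, add_zero, hc2, hpk, one_pow, mul_one, Nat.add_sub_cancel] at h0
  have e1 : LinearMap.trace ℝ V (m.flip c ^ (2 - 1) * m.flip v) = inner ℝ c v := by
    rw [pow_one, h.inn, (hK.2.2.2.1 c v).1]
  have e2 : LinearMap.trace ℝ V (m.flip c ^ k * m.flip v) = tr m ((m.flip c ^ k) v) :=
    hK.2.1 k c v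
  rw [e1, e2] at h0
  push_cast at h0
  have hk0 : (0 : ℝ) < (k : ℝ) + 1 := by positivity
  have h6 : ((k : ℝ) + 1) * (2 * (inner ℝ c v - tr m ((m.flip c ^ k) v))) = 0 := by
    linear_combination h0
  rcases mul_eq_zero.1 h6 with h7 | h7
  · exact absurd h7 hk0.ne'
  · linarith

end

end N1a

open N1a in
/-- (2.2), (4.4): the symmetric part of the left multiplications, first order identities. -/
theorem thm_N1a (hTr : St_Tr) (hDT : St_DT) (hK1 : St_K1) : St_N1a := by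
  intro V _ _ _ m h
  have hK := hK1 V m h.lsa
  have sym : ∀ x y : V, tr m (m x y) = tr m (m y x) := fun x y => (hK.2.2.2.1 x y).2
  refine ⟨fun x y => ?_, fun x u v => fs_tr hK1 h x u v, fun x u v => ?_, fun x u v => ?_,
    fun c hc => ?_⟩
  · rw [h.inn, (hK.2.2.2.1 x y).1]
  · have h1 := fs_inner m u v x
    have h2 := fs_symm hK1 h x u v
    rw [real_inner_comm (m u v) x]
    linarith
  · rw [fs_inner, real_inner_comm _ u, fs_inner, add_comm]
  · have hk := fun k v hk' => part_k hTr hDT hK1 h hc k v hk'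
    refine ⟨hk, fun v => ?_, ?_, ?_⟩
    · rw [h.inn, sym, ← hk 2 v (by norm_num)]
      rfl
    · refine ext_inner_right ℝ fun v => ?_
      rw [fs_tr hK1 h, map_add, tr3 (m.flip c) (m.flip v) (m.flip c), ← pow_two,
        ← hk 2 v (by norm_num), ← hK.2.1 2 c v]
      ring
    · rw [h.inn, (hK.2.2.2.1 c c).1, ← pow_two]
      exact hc.2.1

end Pool.Agent.RRC
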