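import Pool.Agent.RRC.St1
import Pool.Agent.RRC.C1n

/-!
# RRC: second order identities at rank one elements

Module N1b.
-/

set_option autoImplicit false

noncomputable section

namespace Pool.Agent.RRC

open scoped Polynomial Topology
open Polynomial

namespace N1b

section

variable {V : Type} [AddCommGroup V] [Module ℝ V]

theorem cyc2 (A B : V →ₗ[ℝ] V) :
    LinearMap.trace ℝ V (A * B) = LinearMap.trace ℝ V (B * A) := LinearMap.trace_mul_comm ℝ A B

theorem cyc3 (A B C : V →ₗ[ℝ] V) :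
    LinearMap.trace ℝ V (A * B * C) = LinearMap.trace ℝ V (B * C * A) := by
  rw [mul_assoc, cyc2]

theorem cyc4 (A B C D : V →ₗ[ℝ] V) :
    LinearMap.trace ℝ V (A * B * C * D) = LinearMap.trace ℝ V (B * C * D * A) := by
  rw [mul_assoc, mul_assoc, cyc2, ← mul_assoc]

theorem exp2 (R S : V →ₗ[ℝ] V) (e : ℝ) : LinearMap.trace ℝ V ((R + e • S) ^ 2) =
    LinearMap.trace ℝ V (R ^ 2) + 2 * e * LinearMap.trace ℝ V (R * S) +
      e ^ 2 * LinearMap.trace ℝ V (S ^ 2) := by
  simp only [pow_succ, pow_zero, one_mul, add_mul, mul_add, smul_mul_assoc, mul_smul_comm,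
    map_add, map_smul, smul_eq_mul]
  rw [cyc2 S R]
  ring

theorem exp3 (R S : V →ₗ[ℝ] V) (e : ℝ) : LinearMap.trace ℝ V ((R + e • S) ^ 3) =
    LinearMap.trace ℝ V (R ^ 3) + 3 * e * LinearMap.trace ℝ V (R * R * S) +
      3 * e ^ 2 * LinearMap.trace ℝ V (R * S * S) + e ^ 3 * LinearMap.trace ℝ V (S ^ 3) := by
  simp only [pow_succ, pow_zero, one_mul, add_mul, mul_add, smul_mul_assoc, mul_smul_comm,
    map_add, map_smul, smul_eq_mul]
  rw [cyc3 S R R, cyc3 S S R, cyc3 S R S, cyc3 R S R, cyc3 S R R]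
  ring

theorem exp4 (R S : V →ₗ[ℝ] V) (e : ℝ) : LinearMap.trace ℝ V ((R + e • S) ^ 4) =
    LinearMap.trace ℝ V (R ^ 4) + 4 * e * LinearMap.trace ℝ V (R * R * R * S) +
      2 * e ^ 2 * (2 * LinearMap.trace ℝ V (R * R * S * S) +
        LinearMap.trace ℝ V (R * S * R * S)) +
      4 * e ^ 3 * LinearMap.trace ℝ V (R * S * S * S) + e ^ 4 * LinearMap.trace ℝ V (S ^ 4) := by
  simp only [pow_succ, pow_zero, one_mul, add_mul, mul_add, smul_mul_assoc, mul_smul_comm,
    map_add, map_smul, smul_eq_mul]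
  have a1 : LinearMap.trace ℝ V (S * R * R * R) = LinearMap.trace ℝ V (R * R * R * S) := cyc4 _ _ _ _
  have a2 : LinearMap.trace ℝ V (R * S * R * R) = LinearMap.trace ℝ V (R * R * R * S) := by
    rw [cyc4 R S R R, a1]
  have a3 : LinearMap.trace ℝ V (R * R * S * R) = LinearMap.trace ℝ V (R * R * R * S) := by
    rw [cyc4 R R S R, a2]
  have b1 : LinearMap.trace ℝ V (S * R * R * S) = LinearMap.trace ℝ V (R * R * S * S) := cyc4 _ _ _ _
  have b2 : LinearMap.trace ℝ V (S * S * R * R) = LinearMap.trace ℝ V (R * R * S * S) := by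
    rw [cyc4 S S R R, b1]
  have b3 : LinearMap.trace ℝ V (R * S * S * R) = LinearMap.trace ℝ V (R * R * S * S) := by
    rw [cyc4 R S S R, b2]
  have b4 : LinearMap.trace ℝ V (S * R * S * R) = LinearMap.trace ℝ V (R * S * R * S) := cyc4 _ _ _ _
  have c1 : LinearMap.trace ℝ V (S * R * S * S) = LinearMap.trace ℝ V (R * S * S * S) := cyc4 _ _ _ _
  have c2 : LinearMap.trace ℝ V (S * S * R * S) = LinearMap.trace ℝ V (R * S * S * S) := by
    rw [cyc4 S S R S, c1]
  have c3 : LinearMap.trace ℝ V (S * S * S * R) = LinearMap.trace ℝ V (R * S * S * S) := by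
    rw [cyc4 S S S R, c2]
  simp only [a1, a2, a3, b1, b2, b3, b4, c1, c2, c3]
  ring

end

/-- the limit argument -/
theorem limit (K g f s H p q r : ℝ)
    (h : ∀ᶠ e in 𝓝[≠] (0 : ℝ),
      ((1 + 4 * e * g + 2 * e ^ 2 * H + 4 * e ^ 3 * q + e ^ 4 * r) ^ 3 -
        (1 + 3 * e * g + 3 * e ^ 2 * f + e ^ 3 * p) ^ 4) ^ 2 ≤
      K * ((1 + 2 * e * g + e ^ 2 * s) ^ 3 - (1 + 3 * e * g + 3 * e ^ 2 * f + e ^ 3 * p) ^ 2) ^ 3) :
    H = 2 * f + g ^ 2 := by
  set Y : ℝ → ℝ := fun e =>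
    (6 * H - 12 * f) + e * (12 * q - 4 * p) + 3 * r * e ^ 2 +
      3 * (4 * g + 2 * H * e + 4 * q * e ^ 2 + r * e ^ 3) ^ 2 -
      6 * (3 * g + 3 * f * e + p * e ^ 2) ^ 2 +
      e * ((4 * g + 2 * H * e + 4 * q * e ^ 2 + r * e ^ 3) ^ 3 -
        4 * (3 * g + 3 * f * e + p * e ^ 2) ^ 3) -
      e ^ 2 * (3 * g + 3 * f * e + p * e ^ 2) ^ 4 with hY
  set Z : ℝ → ℝ := fun e =>
    3 * s - 6 * f - 2 * p * e + 3 * (2 * g + s * e) ^ 2 - (3 * g + 3 * f * e + p * e ^ 2) ^ 2 +
      e * (2 * g + s * e) ^ 3 with hZ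
  have h1 : ∀ᶠ e in 𝓝[≠] (0 : ℝ), Y e ^ 2 ≤ K * (e ^ 2 * Z e ^ 3) := by
    filter_upwards [h, self_mem_nhdsWithin] with e he he0
    have he0' : e ≠ 0 := he0
    have e1 : (1 + 4 * e * g + 2 * e ^ 2 * H + 4 * e ^ 3 * q + e ^ 4 * r) ^ 3 -
        (1 + 3 * e * g + 3 * e ^ 2 * f + e ^ 3 * p) ^ 4 = e ^ 2 * Y e := by
      rw [hY]
      ring
    have e2 : (1 + 2 * e * g + e ^ 2 * s) ^ 3 -
        (1 + 3 * e * g + 3 * e ^ 2 * f + e ^ 3 * p) ^ 2 = e ^ 2 * Z e := by
      rw [hZ]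
      ring
    rw [e1, e2] at he
    have e3 : 0 < e ^ 4 := by positivity
    have e4 : e ^ 4 * Y e ^ 2 ≤ e ^ 4 * (K * (e ^ 2 * Z e ^ 3)) := by
      calc e ^ 4 * Y e ^ 2 = (e ^ 2 * Y e) ^ 2 := by ring
        _ ≤ K * (e ^ 2 * Z e) ^ 3 := he
        _ = _ := by ring
    exact le_of_mul_le_mul_left e4 e3
  have hYc : Continuous Y := by
    rw [hY]
    fun_prop
  have hZc : Continuous Z := by
    rw [hZ]
    fun_prop
  have t1 : Filter.Tendsto (fun e => Y e ^ 2) (𝓝[≠] (0 : ℝ)) (𝓝 (Y 0 ^ 2)) :=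
    ((hYc.pow 2).tendsto 0).mono_left nhdsWithin_le_nhds
  have t2 : Filter.Tendsto (fun e => K * (e ^ 2 * Z e ^ 3)) (𝓝[≠] (0 : ℝ))
      (𝓝 (K * ((0 : ℝ) ^ 2 * Z 0 ^ 3))) :=
    ((continuous_const.mul ((continuous_id.pow 2).mul (hZc.pow 3))).tendsto 0).mono_left
      nhdsWithin_le_nhds
  have h2 := le_of_tendsto_of_tendsto t1 t2 h1
  have h3 : Y 0 = 0 := by
    have h4 : Y 0 ^ 2 ≤ 0 := by
      calc Y 0 ^ 2 ≤ K * ((0 : ℝ) ^ 2 * Z 0 ^ 3) := h2
        _ = 0 := by ring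
    exact pow_eq_zero_iff (two_ne_zero) |>.1 (le_antisymm h4 (sq_nonneg _))
  have h4 : Y 0 = 6 * H - 12 * f + 3 * (4 * g) ^ 2 - 6 * (3 * g) ^ 2 := by
    rw [hY]
    ring
  rw [h4] at h3
  linarith

end N1b

open N1b in
/-- **N1b**. -/
theorem thm_N1b (hTr : St_Tr) (hK1 : St_K1) (hN1a : St_N1a) (hNUM : St_NUM) : St_N1b := by
  intro V _ _ _ m hG c hc
  obtain ⟨a1, a2, a3, a4, a5⟩ := hN1a V m hG
  obtain ⟨c1, c2, c3, c4⟩ := a5 c hc
  obtain ⟨k1, k2, k3, k4, k5, k6, k7⟩ := hK1 V m hG.lsa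
  obtain ⟨K, hK⟩ := hNUM
  have htr := ((hTr V (m.flip c) (hG.rr c)).2.2.2.2 hc.1 hc.2.1 hc.2.2).2.2
  -- power sums of `R_x` as sums over `Fin n`
  have hps : ∀ x : V, ∃ l : Fin (Module.finrank ℝ V) → ℝ, ∀ k : ℕ,
      LinearMap.trace ℝ V (m.flip x ^ k) = ∑ i, l i ^ k := by
    intro x
    obtain ⟨mu, h1, -⟩ := C1n.exists_roots (hG.rr x) (LinearMap.charpoly_monic (m.flip x))
      (LinearMap.charpoly_natDegree (m.flip x))
    refine ⟨mu, fun k => ?_⟩
    have h2 := (hTr V (m.flip x) (hG.rr x)).1 (X ^ k)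
    rw [map_pow, aeval_X] at h2
    rw [h2, h1]
    have h4 : (∏ i, (X - C (mu i))).roots = (Finset.univ : Finset (Fin _)).val.map mu := by
      rw [Finset.prod_eq_multiset_prod]
      have := Polynomial.roots_multiset_prod_X_sub_C ((Finset.univ : Finset (Fin _)).val.map mu)
      rw [Multiset.map_map] at this
      exact this
    rw [h4, Multiset.map_map]
    simp [Finset.sum]
  have hquad : ∀ v : V, LinearMap.trace ℝ V (m.flip v * m.flip c * m.flip c * m.flip v +
        m.flip c * m.flip v * m.flip c * m.flip v + m.flip c * m.flip c * m.flip v * m.flip v) =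
      2 * inner ℝ (Fs m c v) v + inner ℝ c v * inner ℝ c v := by
    intro v
    have f1 : LinearMap.trace ℝ V (m.flip c * m.flip v) = inner ℝ c v := (a1 c v).symm
    have f2 : LinearMap.trace ℝ V (m.flip c * m.flip c * m.flip v) = inner ℝ c v := by
      rw [← pow_two, k2, c1 2 v (by norm_num)]
    have f3 : LinearMap.trace ℝ V (m.flip c * m.flip c * m.flip c * m.flip v) =
        inner ℝ c v := by
      have : m.flip c * m.flip c * m.flip c = m.flip c ^ 3 := by
        rw [pow_succ, pow_two]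
      rw [this, k2, c1 3 v (by norm_num)]
    have f4 : LinearMap.trace ℝ V (m.flip c * m.flip v * m.flip v) = inner ℝ (Fs m c v) v := by
      rw [a2, map_add]
      ring
    have f5 : LinearMap.trace ℝ V (m.flip v ^ 2) = inner ℝ v v := by
      rw [a1, pow_two]
    have hH : LinearMap.trace ℝ V (m.flip v * m.flip c * m.flip c * m.flip v +
        m.flip c * m.flip v * m.flip c * m.flip v + m.flip c * m.flip c * m.flip v * m.flip v) =
        2 * LinearMap.trace ℝ V (m.flip c * m.flip c * m.flip v * m.flip v) +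
          LinearMap.trace ℝ V (m.flip c * m.flip v * m.flip c * m.flip v) := by
      rw [map_add, map_add, cyc4 (m.flip v) (m.flip c) (m.flip c) (m.flip v)]
      ring
    rw [hH, ← pow_two (inner ℝ c v : ℝ)]
    refine limit K (inner ℝ c v) (inner ℝ (Fs m c v) v) (inner ℝ v v) _
      (LinearMap.trace ℝ V (m.flip v ^ 3))
      (LinearMap.trace ℝ V (m.flip c * m.flip v * m.flip v * m.flip v))
      (LinearMap.trace ℝ V (m.flip v ^ 4)) ?_
    have g2 : ∀ e : ℝ, LinearMap.trace ℝ V (m.flip (c + e • v) ^ 2) =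
        1 + 2 * e * inner ℝ c v + e ^ 2 * inner ℝ v v := by
      intro e
      rw [map_add, map_smul, exp2, htr 2 (by norm_num), f1, f5]
    have hc2 : Filter.Tendsto (fun e : ℝ => 1 + 2 * e * inner ℝ c v + e ^ 2 * inner ℝ v v)
        (𝓝[≠] (0 : ℝ)) (𝓝 1) := by
      have : Continuous (fun e : ℝ => 1 + 2 * e * inner ℝ c v + e ^ 2 * inner ℝ v v) := by
        fun_prop
      have h2 := (this.tendsto 0).mono_left (nhdsWithin_le_nhds (s := {0}ᶜ))
      simpa using h2
    filter_upwards [hc2.eventually (Icc_mem_nhds (by norm_num : (1 / 2 : ℝ) < 1)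
      (by norm_num : (1 : ℝ) < 2))] with e he
    obtain ⟨l, hl⟩ := hps (c + e • v)
    have e2 := hl 2
    have e3 := hl 3
    have e4 := hl 4
    rw [g2 e] at e2
    rw [map_add, map_smul, exp3, htr 3 (by norm_num), f2, f4] at e3
    rw [map_add, map_smul, exp4, htr 4 (by norm_num), f3] at e4
    have h3 := (hK _ l (by rw [← e2]; exact he.1) (by rw [← e2]; exact he.2)).2
    rw [← e2, ← e3, ← e4] at h3
    refine le_trans (le_of_eq ?_) (h3.trans (le_of_eq ?_)) <;> ring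
  have hsymH : ∀ u v : V, LinearMap.trace ℝ V (m.flip u * m.flip c * m.flip c * m.flip v +
        m.flip c * m.flip u * m.flip c * m.flip v + m.flip c * m.flip c * m.flip u * m.flip v) =
      2 * inner ℝ (Fs m c u) v + inner ℝ c u * inner ℝ c v := by
    intro u v
    have h1 := hquad (u + v)
    have h2 := hquad u
    have h3 := hquad v
    simp only [map_add, add_mul, mul_add, inner_add_left, inner_add_right] at h1 h2 h3 ⊢
    have s1 : (inner ℝ (Fs m c v) u : ℝ) = inner ℝ (Fs m c u) v := by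
      rw [a4 c v u, real_inner_comm]
    have t1 : LinearMap.trace ℝ V (m.flip v * m.flip c * m.flip c * m.flip u) =
        LinearMap.trace ℝ V (m.flip c * m.flip c * m.flip u * m.flip v) := cyc4 _ _ _ _
    have t2 : LinearMap.trace ℝ V (m.flip c * m.flip v * m.flip c * m.flip u) =
        LinearMap.trace ℝ V (m.flip c * m.flip u * m.flip c * m.flip v) := by
      rw [cyc4, cyc4]
    have t3 : LinearMap.trace ℝ V (m.flip c * m.flip c * m.flip v * m.flip u) =
        LinearMap.trace ℝ V (m.flip u * m.flip c * m.flip c * m.flip v) := by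
      rw [cyc4, cyc4, cyc4]
    rw [t1, t2, t3, s1] at h1
    linarith [mul_comm (inner ℝ c u : ℝ) (inner ℝ c v)]
  refine ⟨hsymH, fun v => ?_⟩
  refine ext_inner_right ℝ fun u => ?_
  have h1 := hsymH u v
  rw [k6 c u v] at h1
  have hsm : ∀ x y : V, tr m (m x y) = inner ℝ x y := fun x y => (hG.inn x y).symm
  have e1 : tr m (m (m (m v c) u) c) = inner ℝ c (m (m v c) u) := by
    have := c1 1 (m (m v c) u) le_rfl
    rw [pow_one] at this
    exact this
  have e2 : tr m (m (m (m v u) c) c) = inner ℝ c (m v u) := by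
    have := c1 2 (m v u) (by norm_num)
    rw [pow_two] at this
    exact this
  rw [map_add, map_add, hsm, e1, e2, a3, a3] at h1
  have s1 : (inner ℝ (Fs m c u) v : ℝ) = inner ℝ (Fs m c v) u := by
    rw [a4 c u v, real_inner_comm]
  rw [inner_sub_left, inner_smul_left, inner_smul_left, conj_trivial, conj_trivial]
  rw [s1] at h1
  linarith [mul_comm (inner ℝ c u : ℝ) (inner ℝ c v)]

end Pool.Agent.RRC
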