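import Pool.Agent.RRC.St1

/-!
# RRC: the deformed form at a rank one element

Module N2a: `thm_N2a : St_Tr → St_K1 → St_K2 → St_N1a → St_N1b → St_N2a`. The proof is algebraic (no
derivatives): the deformed product is left-symmetric, use `K1` (5) for it.
-/

set_option autoImplicit false

noncomputable section

namespace Pool.Agent.RRC

open scoped Polynomial
open Polynomial

namespace N2a

section

variable {V : Type} [AddCommGroup V] [Module ℝ V]

/-- an inverse of `1 - η R` if `R^(n+1) = R^n` -/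
theorem exists_inv (R : V →ₗ[ℝ] V) (n : ℕ) (hR : R ^ (n + 1) = R ^ n) (η : ℝ) (hη : η ≠ 1) :
    ∃ Q : V →ₗ[ℝ] V, (1 - η • R) * Q = 1 ∧ Q * (1 - η • R) = 1 := by
  have hd : (1 : ℝ) - η ≠ 0 := sub_ne_zero.2 (Ne.symm hη)
  have h1 : (η • R) ^ (n + 1) = η • (η • R) ^ n := by
    rw [_root_.smul_pow, _root_.smul_pow, hR, pow_succ, mul_comm, mul_smul]
  have h2 : (η • R) ^ n - (η • R) ^ (n + 1) = (1 - η) • (η • R) ^ n := by
    rw [h1, sub_smul, one_smul]
  refine ⟨∑ i ∈ Finset.range n, (η • R) ^ i + (1 - η)⁻¹ • (η • R) ^ n, ?_, ?_⟩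
  · rw [mul_add, mul_neg_geom_sum, mul_smul_comm, sub_mul, one_mul, ← pow_succ', h2, smul_smul,
      inv_mul_cancel₀ hd, one_smul, sub_add_cancel]
  · rw [add_mul, geom_sum_mul_neg, smul_mul_assoc, mul_sub, mul_one, ← pow_succ, h2, smul_smul,
      inv_mul_cancel₀ hd, one_smul, sub_add_cancel]

/-- the deformed product -/
def mp (m : V →ₗ[ℝ] V →ₗ[ℝ] V) (Q : V →ₗ[ℝ] V) : V →ₗ[ℝ] V →ₗ[ℝ] V := m ∘ₗ Q

theorem mp_apply (m : V →ₗ[ℝ] V →ₗ[ℝ] V) (Q : V →ₗ[ℝ] V) (a x : V) : mp m Q a x = m (Q a) x :=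
  rfl

theorem mp_flip (m : V →ₗ[ℝ] V →ₗ[ℝ] V) (Q : V →ₗ[ℝ] V) (x : V) :
    (mp m Q).flip x = m.flip x * Q := rfl

end

end N2a

/-- **N2a**. -/
theorem thm_N2a (hTr : St_Tr) (hK1 : St_K1) (hK2 : St_K2) (hN1a : St_N1a) (hN1b : St_N1b) :
    St_N2a := by
  intro V _ _ _ m hG c hc η hη
  obtain ⟨a1, a2, a3, a4, a5⟩ := hN1a V m hG
  obtain ⟨c1, c2, c3, c4⟩ := a5 c hc
  obtain ⟨b1, b2⟩ := hN1b V m hG c hc
  have hnt : Nontrivial V := ⟨⟨c, 0, fun h => by
    rw [h, inner_zero_left] at c4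
    exact zero_ne_one c4⟩⟩
  have hn : 0 < Module.finrank ℝ V := Module.finrank_pos
  obtain ⟨-, hRn, -⟩ := (hTr V (m.flip c) (hG.rr c)).2.2.2.2 hc.1 hc.2.1 hc.2.2
  have hR : m.flip c ^ (Module.finrank ℝ V + 1) = m.flip c ^ (Module.finrank ℝ V) := by
    rw [pow_succ, hRn, ← pow_succ, Nat.sub_add_cancel hn, hRn]
  obtain ⟨Q, hQ1, hQ2⟩ := N2a.exists_inv (m.flip c) _ hR η hη
  have hd : (1 : ℝ) - η ≠ 0 := sub_ne_zero.2 (Ne.symm hη)
  have hQ1' : (1 - m.flip (η • c)) * Q = 1 := by rw [map_smul]; exact hQ1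
  -- `u = u' - η u' * c`
  have hu : ∀ u : V, u = Q u - η • m (Q u) c := by
    intro u
    have h := congrArg (fun T : V →ₗ[ℝ] V => T u) hQ1
    simp only [Module.End.mul_apply, LinearMap.sub_apply, LinearMap.smul_apply,
      Module.End.one_apply, LinearMap.flip_apply] at h
    exact h.symm
  have hcQ : ∀ u : V, inner ℝ c u = (1 - η) * inner ℝ c (Q u) := by
    intro u
    conv_lhs => rw [hu u]
    rw [inner_sub_right, inner_smul_right, c2]
    ring
  have hs1 : ∀ v : V, tr m (m v c) = inner ℝ c v := by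
    intro v
    have := c1 1 v le_rfl
    rw [pow_one] at this
    exact this
  have hsm : ∀ u v : V, tr m (m u v) = inner ℝ u v := fun u v => (hG.inn u v).symm
  have hsQ : ∀ w : V, tr m (Q w) = tr m w + η / (1 - η) * inner ℝ c w := by
    intro w
    conv_rhs => rw [hu w]
    rw [map_sub, map_smul, hs1, inner_sub_right, inner_smul_right, c2, smul_eq_mul]
    field_simp
    ring
  -- the main computation
  have hF : ∀ u v : V, tr m (Q (m (Q u) v)) = inner ℝ u v +
      2 * η / (1 - η) * inner ℝ (Fs m c u) v +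
      η ^ 2 / (1 - η) ^ 2 * (inner ℝ c u * inner ℝ c v) := by
    intro u v
    have e1 := b2 (Q u)
    have e2 : (2 : ℝ) * inner ℝ (Fs m c (m (Q u) c)) v = inner ℝ (m (Q u) c) v +
        inner ℝ c (Q u) * inner ℝ c v := by
      have h := congrArg (fun z : V => (inner ℝ z v : ℝ)) e1
      simp only [inner_sub_left, inner_smul_left] at h
      simp only [conj_trivial] at h
      linarith
    have e3 := hcQ u
    have e4 : (inner ℝ u v : ℝ) = inner ℝ (Q u) v - η * inner ℝ (m (Q u) c) v := by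
      conv_lhs => rw [hu u]
      rw [inner_sub_left, inner_smul_left, conj_trivial]
    have e5 : (inner ℝ (Fs m c u) v : ℝ) = inner ℝ (Fs m c (Q u)) v -
        η * inner ℝ (Fs m c (m (Q u) c)) v := by
      conv_lhs => rw [hu u]
      rw [map_sub, map_smul, inner_sub_left, inner_smul_left, conj_trivial]
    rw [hsQ, hsm, a3, e3, e4, e5]
    have e6 : (inner ℝ (Fs m c (m (Q u) c)) v : ℝ) = (inner ℝ (m (Q u) c) v +
        inner ℝ c (Q u) * inner ℝ c v) / 2 := by linarith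
    rw [e6]
    field_simp
    ring
  obtain ⟨k1, k2, k3, k4⟩ := hK2 V m hG.lsa (η • c) Q hQ1'
  refine ⟨Q, hQ1, hQ2, hsQ, fun u v => ?_, fun u v => ?_⟩
  · rw [k3, hF]
  · rw [← k2 c u v]
    have hl : LSA (N2a.mp m Q) := by
      intro a b x
      have h := k1 a b x
      simp only [N2a.mp_apply]
      rw [h]
      abel
    have h5 := (hK1 V (N2a.mp m Q) hl).2.2.2.2.1 c v u
    have ht : ∀ z : V, tr (N2a.mp m Q) z = tr m (Q z) := by
      intro z
      rw [← k4 z, LinearMap.trace_mul_comm]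
      rfl
    simp only [N2a.mp_flip, ht, N2a.mp_apply, map_add] at h5
    have cy : ∀ A B : V →ₗ[ℝ] V, LinearMap.trace ℝ V (A * B) = LinearMap.trace ℝ V (B * A) :=
      fun A B => LinearMap.trace_mul_comm ℝ A B
    have t1 : LinearMap.trace ℝ V (m.flip u * Q * m.flip c * Q * m.flip v * Q) =
        LinearMap.trace ℝ V (m.flip c * Q * (m.flip v * Q) * (m.flip u * Q)) := by
      rw [cy (m.flip c * Q * (m.flip v * Q)) (m.flip u * Q)]
      simp only [mul_assoc]
    have t2 : LinearMap.trace ℝ V (m.flip u * Q * m.flip v * Q * m.flip c * Q) =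
        LinearMap.trace ℝ V (m.flip v * Q * (m.flip c * Q) * (m.flip u * Q)) := by
      rw [cy (m.flip v * Q * (m.flip c * Q)) (m.flip u * Q)]
      simp only [mul_assoc]
    rw [t1, t2, h5]
    have g1 : tr m (Q (m (Q (m (Q u) v)) c)) = 1 / (1 - η) ^ 2 * inner ℝ c (m (Q u) v) := by
      rw [hsQ, hs1, c2, hcQ (m (Q u) v)]
      field_simp
      ring
    rw [g1, hF (m (Q u) c) v, a3, c2]
    have e1 := b2 (Q u)
    have e2 : (2 : ℝ) * inner ℝ (Fs m c (m (Q u) c)) v = inner ℝ (m (Q u) c) v +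
        inner ℝ c (Q u) * inner ℝ c v := by
      have h := congrArg (fun z : V => (inner ℝ z v : ℝ)) e1
      simp only [inner_sub_left, inner_smul_left] at h
      simp only [conj_trivial] at h
      linarith
    have e3 := hcQ u
    have e5 : (inner ℝ (Fs m c u) v : ℝ) = inner ℝ (Fs m c (Q u)) v -
        η * inner ℝ (Fs m c (m (Q u) c)) v := by
      conv_lhs => rw [hu u]
      rw [map_sub, map_smul, inner_sub_left, inner_smul_left, conj_trivial]
    have e6 : (inner ℝ (Fs m c (m (Q u) c)) v : ℝ) = (inner ℝ (m (Q u) c) v +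
        inner ℝ c (Q u) * inner ℝ c v) / 2 := by linarith
    rw [e3, e5, e6]
    field_simp
    ring

end Pool.Agent.RRC
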