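import Pool.Agent.RRC.St1

/-!
# RRC, N2b: the eigenvalues of `F_c` on the orthogonal complement of `c` are in `[0, 1/2]`
-/

set_option autoImplicit false

noncomputable section

namespace Pool.Agent.RRC

theorem thm_N2b (hN2a : St_N2a) : St_N2b := by
  intro V _ _ _ m hm c hc φ v hv hcv hφ
  by_contra hcon
  have h0 : φ < 0 ∨ 1 / 2 < φ := by
    rcases lt_or_ge φ 0 with h | h
    · exact Or.inl h
    · right
      by_contra h1
      exact hcon ⟨h, not_lt.1 h1⟩
  have h1 : 2 * φ - 1 ≠ 0 := by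
    rcases h0 with h | h <;> intro h2 <;> linarith
  have h2 : φ ≠ 0 := by
    rcases h0 with h | h <;> intro h2 <;> linarith
  set δ : ℝ := 2 * φ / (2 * φ - 1) with hδ
  have h3 : δ ≠ 0 := div_ne_zero (mul_ne_zero two_ne_zero h2) h1
  have h4 : δ * (2 * φ - 1) = 2 * φ := div_mul_cancel₀ _ h1
  obtain ⟨Q, -, -, -, e1, e2⟩ := hN2a V m hm c hc (1 - δ) (by
    intro h
    apply h3
    linarith)
  have h5 : 1 - (1 - δ) = δ := by ring
  rw [h5] at e1 e2
  have h6 : ∀ x : V, LinearMap.trace ℝ V (m.flip v * Q * m.flip x * Q) = 0 := by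
    intro x
    rw [e1, hφ, inner_smul_left, hcv, zero_mul, mul_zero, add_zero]
    have : (1 : ℝ) + 2 * (1 - δ) / δ * φ = 0 := by
      field_simp
      linarith
    have h7 : inner ℝ v x + 2 * (1 - δ) / δ * ((starRingEnd ℝ) φ * inner ℝ v x) =
        (1 + 2 * (1 - δ) / δ * φ) * inner ℝ v x := by
      rw [conj_trivial]
      ring
    rw [h7, this, zero_mul]
  have h7 : ∀ x : V, LinearMap.trace ℝ V (m.flip x * Q * m.flip v * Q) = 0 := by
    intro x
    rw [← h6 x, mul_assoc (m.flip x * Q), LinearMap.trace_mul_comm]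
    simp only [mul_assoc]
  have h8 := e2 v v
  rw [h6, h7, hφ, inner_smul_left, hcv, conj_trivial, zero_mul, mul_zero, add_zero, add_zero] at h8
  have h9 : (inner ℝ v v : ℝ) ≠ 0 := inner_self_ne_zero.2 hv
  have h10 : (2 : ℝ) / δ ^ 2 * (φ * inner ℝ v v) ≠ 0 :=
    mul_ne_zero (div_ne_zero two_ne_zero (pow_ne_zero 2 h3)) (mul_ne_zero h2 h9)
  exact h10 h8.symm

end Pool.Agent.RRC
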