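import Pool.Agent.RRC.St1

/-!
# RRC N3: an element `c` of `C1` with `2 F_c² = F_c + c ⊗ c` (helper82)
-/

set_option autoImplicit false
set_option linter.unusedSectionVars false

noncomputable section

namespace Pool.Agent.RRC

namespace N3

variable {V : Type} [NormedAddCommGroup V] [InnerProductSpace ℝ V] [FiniteDimensional ℝ V]
  {m : V →ₗ[ℝ] V →ₗ[ℝ] V}

/-- `ρ(x) = tr L_x` -/
def rho (m : V →ₗ[ℝ] V →ₗ[ℝ] V) : V →ₗ[ℝ] ℝ := (LinearMap.trace ℝ V).comp m

theorem diag (x b : V) : inner ℝ (Fs m x b) b = (inner ℝ (m x b) b : ℝ) := by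
  rw [Fs, LinearMap.smul_apply, LinearMap.add_apply, inner_smul_left, inner_add_left,
    LinearMap.adjoint_inner_left, real_inner_comm b (m x b)]
  simp only [conj_trivial]
  ring

theorem rho_eq {n : ℕ} (b : OrthonormalBasis (Fin n) ℝ V) (x : V) :
    rho m x = ∑ i, (inner ℝ (m x (b i)) (b i) : ℝ) := by
  rw [rho, LinearMap.comp_apply, LinearMap.trace_eq_sum_inner _ b]
  exact Finset.sum_congr rfl fun i _ => real_inner_comm _ _

/-- the maximum of `ρ` on `C1` is a critical point for the Riccati flow -/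
theorem crit (hR1 : St_R1) (hC1c : St_C1c) (hm : Good m) {c : V} (hc : c ∈ C1 m)
    (hmax : ∀ x ∈ C1 m, rho m x ≤ rho m c) : rho m (m c c) = rho m c := by
  obtain ⟨e₁, y, he₁, hy0, hy⟩ := hR1 V m hm.lsa c
  have hF := (hC1c V m hm).1
  have hz : ∀ r : ℝ, |r| < e₁ → (1 - r) • y r ∈ C1 m := by
    intro r hr
    obtain ⟨-, hpos, hprod⟩ := hy r hr
    rw [(hF c).1 hc r] at hpos
    rw [hF]
    intro e
    have h1 := hprod (e * (1 - r))
    rw [(hF c).1 hc r, (hF c).1 hc] at h1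
    rw [smul_smul]
    have h2 : (1 - r) * FF m ((e * (1 - r)) • y r) = (1 - r) * (1 - e) := by
      rw [h1]; ring
    exact mul_left_cancel₀ hpos.ne' h2
  have hd : HasDerivAt (fun r : ℝ => (1 - r) • y r) (m c c - c) 0 := by
    have h1 := (hy 0 (by rw [abs_zero]; exact he₁)).1
    have h2 : HasDerivAt (fun r : ℝ => 1 - r) (-1) 0 := by
      simpa using (hasDerivAt_id (0 : ℝ)).const_sub 1
    have h3 := h2.smul h1
    have e : (1 - (0 : ℝ)) • m (y 0) (y 0) + (-1 : ℝ) • y 0 = m c c - c := by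
      rw [hy0, sub_zero, one_smul, neg_one_smul, sub_eq_add_neg]
    rw [e] at h3
    exact h3
  have hd' : HasDerivAt (fun r : ℝ => rho m ((1 - r) • y r)) (rho m (m c c - c)) 0 := by
    have h1 := ((rho m).toContinuousLinearMap.hasFDerivAt (x := (1 - (0 : ℝ)) • y 0)).comp_hasDerivAt
      (0 : ℝ) hd
    exact h1
  have hloc : IsLocalMax (fun r : ℝ => rho m ((1 - r) • y r)) 0 := by
    filter_upwards [Metric.ball_mem_nhds (0 : ℝ) he₁] with r hr
    have h1 : |r| < e₁ := by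
      rw [Metric.mem_ball, Real.dist_eq, sub_zero] at hr
      exact hr
    have h2 := hmax _ (hz r h1)
    rw [sub_zero, one_smul, hy0]
    exact h2
  have h0 := hloc.hasDerivAt_eq_zero hd'
  rw [map_sub] at h0
  linarith

end N3

open N3 in
theorem thm_N3 (hK1 : St_K1) (hN1a : St_N1a) (hN1b : St_N1b) (hN2b : St_N2b) (hR1 : St_R1)
    (hC1c : St_C1c) (hC1n : St_C1n) : St_N3 := by
  intro V _ _ _ m hm hV
  obtain ⟨c, hc, hmax⟩ := (hC1c V m hm).2.exists_isMaxOn (hC1n V m hm hV)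
    (f := fun x => rho m x) (rho m).continuous_of_finiteDimensional.continuousOn
  refine ⟨c, hc, ?_⟩
  have hcrit := crit hR1 hC1c hm hc fun x hx => hmax hx
  obtain ⟨a1, a2, a3, a4, a5⟩ := hN1a V m hm
  obtain ⟨-, -, c3, c4⟩ := a5 c hc
  obtain ⟨b1, -⟩ := hN1b V m hm c hc
  obtain ⟨-, -, -, -, -, -, k7⟩ := hK1 V m hm.lsa
  -- the identity (b)
  have hid : ∀ u v : V, inner ℝ (Fs m (m c c) u) v + inner ℝ (Fs m c (m c u)) v +
      inner ℝ (Fs m c u) (m c v) = 2 * inner ℝ (Fs m c u) v + (inner ℝ c u * inner ℝ c v : ℝ) := by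
    intro u v
    rw [← b1 u v, ← k7 c u v, a2 (m c c) u v, a2 c (m c u) v, a2 c u (m c v)]
    ring
  have hsym := a4 c
  let b := hsym.eigenvectorBasis rfl
  let φ := hsym.eigenvalues rfl
  have hb : ∀ i, Fs m c (b i) = φ i • b i := fun i => hsym.apply_eigenvectorBasis rfl i
  have hbn : ∀ i, (inner ℝ (b i) (b i) : ℝ) = 1 := fun i => by
    rw [real_inner_self_eq_norm_sq, b.norm_eq_one, one_pow]
  have hdg : ∀ i, (inner ℝ (m c (b i)) (b i) : ℝ) = φ i := by
    intro i
    rw [← diag, hb, inner_smul_left, hbn, mul_one]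
    rfl
  have hcb : ∀ i, φ i ≠ 1 → (inner ℝ c (b i) : ℝ) = 0 := by
    intro i hi
    have h1 := hsym c (b i)
    rw [c3, hb, inner_smul_right] at h1
    have h2 : (φ i - 1) * (inner ℝ c (b i) : ℝ) = 0 := by
      rw [sub_mul, one_mul, ← h1, sub_self]
    exact (mul_eq_zero.1 h2).resolve_left (sub_ne_zero.2 hi)
  have hbc : ∀ i, φ i = 1 → b i = (inner ℝ c (b i) : ℝ) • c := by
    intro i hi
    by_contra h0
    have h1 : b i - (inner ℝ c (b i) : ℝ) • c ≠ 0 := sub_ne_zero.2 h0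
    have h2 := hN2b V m hm c hc 1 _ h1
      (by rw [inner_sub_right, inner_smul_right, c4, mul_one, sub_self])
      (by rw [map_sub, map_smul, c3, hb, hi, one_smul, one_smul])
    linarith [h2.2]
  have hG : ∀ i, 0 ≤ φ i - 2 * φ i ^ 2 + (inner ℝ c (b i) : ℝ) ^ 2 := by
    intro i
    by_cases hi : φ i = 1
    · have h1 := hbn i
      rw [hbc i hi, inner_smul_left, inner_smul_right, c4] at h1
      simp only [conj_trivial] at h1
      rw [hi]
      nlinarith
    · have h1 : b i ≠ 0 := by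
        intro h0
        have h1 := hbn i
        rw [h0, inner_zero_left] at h1
        exact zero_ne_one h1
      have h2 := hN2b V m hm c hc (φ i) (b i) h1 (hcb i hi) (hb i)
      rw [hcb i hi]
      nlinarith [h2.1, h2.2]
  have hsum : ∑ i, (φ i - 2 * φ i ^ 2 + (inner ℝ c (b i) : ℝ) ^ 2) = 0 := by
    have h1 : ∀ i, (inner ℝ (m (m c c) (b i)) (b i) : ℝ) - inner ℝ (m c (b i)) (b i) =
        φ i - 2 * φ i ^ 2 + (inner ℝ c (b i) : ℝ) ^ 2 := by
      intro i
      have h2 := hid (b i) (b i)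
      have h3 : (inner ℝ (Fs m c (m c (b i))) (b i) : ℝ) = φ i ^ 2 := by
        rw [hsym, hb, inner_smul_right, hdg, sq]
      have h4 : (inner ℝ (Fs m c (b i)) (m c (b i)) : ℝ) = φ i ^ 2 := by
        rw [hb, inner_smul_left, real_inner_comm, hdg, sq]
        rfl
      rw [diag, h3, h4, diag, hdg] at h2
      rw [hdg]
      linarith
    rw [← Finset.sum_congr rfl fun i _ => h1 i, Finset.sum_sub_distrib, ← rho_eq b, ← rho_eq b,
      hcrit, sub_self]
  have hG0 : ∀ i, φ i - 2 * φ i ^ 2 + (inner ℝ c (b i) : ℝ) ^ 2 = 0 := fun i =>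
    (Finset.sum_eq_zero_iff_of_nonneg fun i _ => hG i).1 hsum i (Finset.mem_univ i)
  have hlin : (2 : ℝ) • (Fs m c ∘ₗ Fs m c) = Fs m c + cc c := by
    refine b.toBasis.ext fun i => ?_
    rw [OrthonormalBasis.coe_toBasis, LinearMap.smul_apply, LinearMap.comp_apply,
      LinearMap.add_apply, hb, map_smul, hb]
    have h1 : cc c (b i) = (inner ℝ c (b i) : ℝ) • c := rfl
    rw [h1]
    by_cases hi : φ i = 1
    · rw [← hbc i hi, hi, one_smul, one_smul, two_smul]
    · have h2 := hG0 i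
      rw [hcb i hi] at h2 ⊢
      rw [zero_smul, add_zero, smul_smul, smul_smul]
      congr 1
      nlinarith
  intro x
  exact LinearMap.congr_fun hlin x

end Pool.Agent.RRC
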