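import Pool.Agent.RRC.St1

/-!
# RRC [N4b]: `L_c = F_c` (helper67 for helper85)
-/

set_option autoImplicit false
set_option linter.unusedVariables false
set_option linter.unusedSectionVars false

noncomputable section

namespace Pool.Agent.RRC

open scoped Polynomial Topology
open Polynomial Filter

namespace N4b

/-! ### polynomial functions on the positive half line -/

def Pol (f : ℝ → ℝ) : Prop := ∃ q : ℝ[X], ∀ e : ℝ, 0 < e → f e = q.eval e

theorem Pol.const (a : ℝ) : Pol (fun _ => a) := ⟨C a, fun e _ => by simp⟩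

theorem Pol.id : Pol (fun e => e) := ⟨X, fun e _ => by simp⟩

theorem Pol.add {f g : ℝ → ℝ} (hf : Pol f) (hg : Pol g) : Pol (fun e => f e + g e) := by
  obtain ⟨p, hp⟩ := hf
  obtain ⟨q, hq⟩ := hg
  exact ⟨p + q, fun e he => by beta_reduce; rw [hp e he, hq e he, eval_add]⟩

theorem Pol.mul {f g : ℝ → ℝ} (hf : Pol f) (hg : Pol g) : Pol (fun e => f e * g e) := by
  obtain ⟨p, hp⟩ := hf
  obtain ⟨q, hq⟩ := hg
  exact ⟨p * q, fun e he => by beta_reduce; rw [hp e he, hq e he, eval_mul]⟩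

theorem Pol.pow {f : ℝ → ℝ} (hf : Pol f) (n : ℕ) : Pol (fun e => f e ^ n) := by
  obtain ⟨p, hp⟩ := hf
  exact ⟨p ^ n, fun e he => by beta_reduce; rw [hp e he, eval_pow]⟩

theorem Pol.sum {ι : Type} (s : Finset ι) {f : ι → ℝ → ℝ} (hf : ∀ i ∈ s, Pol (f i)) :
    Pol (fun e => ∑ i ∈ s, f i e) := by
  classical
  induction s using Finset.induction_on with
  | empty => exact ⟨0, fun e _ => by simp⟩
  | @insert a s ha ih =>
    have h1 := (hf a (Finset.mem_insert_self a s)).add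
      (ih fun i hi => hf i (Finset.mem_insert_of_mem hi))
    obtain ⟨q, hq⟩ := h1
    exact ⟨q, fun e he => by beta_reduce; rw [Finset.sum_insert ha]; exact hq e he⟩

theorem Pol.congr {f g : ℝ → ℝ} (hf : Pol f) (h : ∀ e, 0 < e → g e = f e) : Pol g := by
  obtain ⟨q, hq⟩ := hf
  exact ⟨q, fun e he => by rw [h e he, hq e he]⟩

theorem poly_const (q : ℝ[X]) (K : ℝ) (N : ℕ) (h : ∀ e : ℝ, 0 < e → |q.eval e| ≤ K * e ^ N) :
    ∀ e : ℝ, 0 < e → q.eval e = q.eval 1 * e ^ N := by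
  have h1 : q.natDegree ≤ N := by
    by_contra hcon
    have h2 : (X ^ N : ℝ[X]).degree < q.degree := by
      rw [degree_X_pow]
      have : q ≠ 0 := by
        rintro rfl
        simp at hcon
      rw [degree_eq_natDegree this]
      exact_mod_cast not_le.1 hcon
    have h3 := abs_div_tendsto_atTop_atTop_of_degree_gt q (X ^ N) h2 (pow_ne_zero _ X_ne_zero)
    obtain ⟨x, hx, hx0⟩ := ((h3.eventually_gt_atTop K).and (eventually_gt_atTop 0)).exists
    have h4 := h x hx0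
    rw [eval_pow, eval_X, abs_div, abs_of_pos (pow_pos hx0 N), lt_div_iff₀ (pow_pos hx0 N)] at hx
    linarith
  have key : ∀ e : ℝ, 0 < e → (reflect N q).eval e⁻¹ * e ^ N = q.eval e := by
    intro e he
    have : Invertible e := invertibleOfNonzero he.ne'
    have h2 := eval₂_reflect_mul_pow (RingHom.id ℝ) e N q h1
    rw [invOf_eq_inv] at h2
    exact h2
  have h2 : (reflect N q).degree ≤ 0 := by
    by_contra hcon
    have h3 := Polynomial.abs_tendsto_atTop (reflect N q) (not_le.1 hcon)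
    obtain ⟨x, hx, hx0⟩ := ((h3.eventually_gt_atTop K).and (eventually_gt_atTop 0)).exists
    have h4 := h x⁻¹ (inv_pos.2 hx0)
    have h5 := key x⁻¹ (inv_pos.2 hx0)
    rw [inv_inv] at h5
    rw [← h5, abs_mul, abs_of_pos (pow_pos (inv_pos.2 hx0) N)] at h4
    have h6 := le_of_mul_le_mul_right h4 (pow_pos (inv_pos.2 hx0) N)
    linarith
  have h3 := eq_C_of_degree_le_zero h2
  intro e he
  have h4 := key e he
  have h5 := key 1 one_pos
  rw [h3, eval_C] at h4 h5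
  rw [← h4, ← h5]
  ring

section

variable {V : Type} [NormedAddCommGroup V] [InnerProductSpace ℝ V] [FiniteDimensional ℝ V]

/-- polynomial curves in `V` -/
def VPol (f : ℝ → V) : Prop := ∀ φ : V →ₗ[ℝ] ℝ, Pol (fun e => φ (f e))

theorem VPol.const (a : V) : VPol (fun _ : ℝ => a) := fun φ => Pol.const (φ a)

theorem VPol.add {f g : ℝ → V} (hf : VPol f) (hg : VPol g) : VPol (fun e => f e + g e) :=
  fun φ => ((hf φ).add (hg φ)).congr fun e _ => map_add φ _ _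

theorem VPol.smul {p : ℝ → ℝ} {f : ℝ → V} (hp : Pol p) (hf : VPol f) :
    VPol (fun e => p e • f e) :=
  fun φ => (hp.mul (hf φ)).congr fun e _ => by rw [map_smul, smul_eq_mul]

theorem VPol.map {f : ℝ → V} (hf : VPol f) (T : V →ₗ[ℝ] V) : VPol (fun e => T (f e)) :=
  fun φ => hf (φ ∘ₗ T)

theorem VPol.sum {ι : Type} (s : Finset ι) {f : ι → ℝ → V} (hf : ∀ i ∈ s, VPol (f i)) :
    VPol (fun e => ∑ i ∈ s, f i e) :=
  fun φ => (Pol.sum s fun i hi => hf i hi φ).congr fun e _ => map_sum φ _ _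

theorem VPol.bil {f g : ℝ → V} (hf : VPol f) (hg : VPol g) (m : V →ₗ[ℝ] V →ₗ[ℝ] V) :
    VPol (fun e => m (f e) (g e)) := by
  intro φ
  let b := Module.finBasis ℝ V
  have h1 : Pol (fun e => ∑ i, ∑ j, (b.coord i (f e)) * (b.coord j (g e)) * φ (m (b i) (b j))) :=
    Pol.sum _ fun i _ => Pol.sum _ fun j _ =>
      ((hf (b.coord i)).mul (hg (b.coord j))).mul (Pol.const _)
  refine h1.congr fun e _ => ?_
  beta_reduce
  conv_lhs => rw [← b.sum_repr (f e), ← b.sum_repr (g e)]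
  simp only [map_sum, map_smul, LinearMap.sum_apply, LinearMap.smul_apply, smul_eq_mul,
    Module.Basis.coord_apply]
  conv_rhs => rw [Finset.sum_comm]
  refine Finset.sum_congr rfl fun i _ => ?_
  rw [Finset.mul_sum]
  refine Finset.sum_congr rfl fun j _ => ?_
  ring

/-- the explicit inverse of `1 - (1 - e²) R` -/
def Qe (R : V →ₗ[ℝ] V) (N : ℕ) (e : ℝ) : V →ₗ[ℝ] V :=
  (∑ k ∈ Finset.range N, ((1 - e ^ 2) ^ k) • R ^ k) +
    ((1 - e ^ 2) ^ N * (e ^ 2)⁻¹) • R ^ N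

theorem Qe_inv (R : V →ₗ[ℝ] V) (N : ℕ) (hR : R ^ (N + 1) = R ^ N) (e : ℝ) (he : 0 < e) :
    (1 - (1 - e ^ 2) • R) * Qe R N e = 1 := by
  have h1 : (∑ k ∈ Finset.range N, ((1 - e ^ 2) ^ k) • R ^ k) =
      ∑ k ∈ Finset.range N, ((1 - e ^ 2) • R) ^ k :=
    Finset.sum_congr rfl fun k _ => (_root_.smul_pow _ _ _).symm
  have h2 : R * R ^ N = R ^ N := by
    rw [← pow_succ', hR]
  rw [Qe, mul_add, h1, mul_neg_geom_sum, _root_.smul_pow, mul_smul_comm, sub_mul, one_mul,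
    smul_mul_assoc, h2]
  have h3 : R ^ N - (1 - e ^ 2) • R ^ N = (e ^ 2) • R ^ N := by
    rw [sub_smul, one_smul, sub_sub_cancel]
  rw [h3, smul_smul, mul_assoc, inv_mul_cancel₀ (pow_ne_zero 2 he.ne'), mul_one, sub_add_cancel]

/-- `A(e)` for `D` and `C` -/
def Aee (D C : V →ₗ[ℝ] V) (e : ℝ) : V →ₗ[ℝ] V :=
  e ^ 2 • C + e • ((2 : ℝ) • D - (2 : ℝ) • C) + (1 + C - (2 : ℝ) • D)

theorem Aee_apply (D C : V →ₗ[ℝ] V) (e : ℝ) (v : V) :
    Aee D C e v = e ^ 2 • C v + e • ((2 : ℝ) • D v - (2 : ℝ) • C v) +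
      (v + C v - (2 : ℝ) • D v) := rfl

theorem vpol_A (D C : V →ₗ[ℝ] V) {f : ℝ → V} (hf : VPol f) : VPol (fun e => Aee D C e (f e)) :=
  ((VPol.smul (Pol.id.pow 2) (hf.map C)).add
    (VPol.smul Pol.id (hf.map ((2 : ℝ) • D - (2 : ℝ) • C)))).add
      (hf.map (1 + C - (2 : ℝ) • D))

theorem vpol_A' (D C : V →ₗ[ℝ] V) {f : ℝ → V} (hf : VPol f) :
    VPol (fun e => C (f e) + e • ((2 : ℝ) • D - (2 : ℝ) • C) (f e) +
      e ^ 2 • (1 + C - (2 : ℝ) • D) (f e)) :=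
  ((hf.map C).add (VPol.smul Pol.id (hf.map ((2 : ℝ) • D - (2 : ℝ) • C)))).add
    (VPol.smul (Pol.id.pow 2) (hf.map (1 + C - (2 : ℝ) • D)))

theorem pol_eta : Pol (fun e => 1 - e ^ 2) :=
  ((Pol.const 1).add ((Pol.const (-1)).mul (Pol.id.pow 2))).congr fun e _ => by ring

theorem vpol_Q (R : V →ₗ[ℝ] V) (N : ℕ) {f : ℝ → V} (hf : VPol f) :
    VPol (fun e => (∑ k ∈ Finset.range N, (e ^ 2 * (1 - e ^ 2) ^ k) • (R ^ k) (f e)) +
      ((1 - e ^ 2) ^ N) • (R ^ N) (f e)) :=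
  (VPol.sum _ fun k _ => VPol.smul ((Pol.id.pow 2).mul (pol_eta.pow k)) (hf.map (R ^ k))).add
    (VPol.smul (pol_eta.pow N) (hf.map (R ^ N)))

theorem Qe_scal (R : V →ₗ[ℝ] V) (N : ℕ) (e : ℝ) (he : 0 < e) (v : V) :
    (e ^ 2) • Qe R N e v =
      (∑ k ∈ Finset.range N, (e ^ 2 * (1 - e ^ 2) ^ k) • (R ^ k) v) +
        ((1 - e ^ 2) ^ N) • (R ^ N) v := by
  rw [Qe, LinearMap.add_apply, LinearMap.sum_apply, smul_add, Finset.smul_sum,
    LinearMap.smul_apply, smul_smul]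
  congr 1
  · refine Finset.sum_congr rfl fun k _ => ?_
    rw [LinearMap.smul_apply, smul_smul]
  · congr 1
    have : e ^ 2 ≠ 0 := pow_ne_zero 2 he.ne'
    field_simp

theorem Aee_scal (D C : V →ₗ[ℝ] V) (e : ℝ) (he : 0 < e) (v : V) :
    (e ^ 2) • Aee D C e⁻¹ v = C v + e • ((2 : ℝ) • D - (2 : ℝ) • C) v +
      e ^ 2 • (1 + C - (2 : ℝ) • D) v := by
  have h1 : e ^ 2 * (e⁻¹) ^ 2 = 1 := by
    rw [← mul_pow, mul_inv_cancel₀ he.ne', one_pow]
  have h2 : e ^ 2 * e⁻¹ = e := by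
    rw [pow_two, mul_assoc, mul_inv_cancel₀ he.ne', mul_one]
  show (e ^ 2) • ((e⁻¹) ^ 2 • C v + e⁻¹ • ((2 : ℝ) • D - (2 : ℝ) • C) v +
    (1 + C - (2 : ℝ) • D) v) = _
  rw [smul_add, smul_add, smul_smul, smul_smul, h1, h2, one_smul]

/-- the deformed product, as a bilinear map -/
def me (m : V →ₗ[ℝ] V →ₗ[ℝ] V) (D C R : V →ₗ[ℝ] V) (N : ℕ) (e : ℝ) : V →ₗ[ℝ] V →ₗ[ℝ] V :=
  (m.compl₁₂ (Qe R N e ∘ₗ Aee D C e) (Aee D C e)).compr₂ (Aee D C e⁻¹)

theorem me_apply (m : V →ₗ[ℝ] V →ₗ[ℝ] V) (D C R : V →ₗ[ℝ] V) (N : ℕ) (e : ℝ) (a x : V) :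
    me m D C R N e a x = Aee D C e⁻¹ (m (Qe R N e (Aee D C e a)) (Aee D C e x)) := rfl

/-- the deformed product is a Laurent polynomial -/
theorem me_pol (m : V →ₗ[ℝ] V →ₗ[ℝ] V) (D C R : V →ₗ[ℝ] V) (N : ℕ) (a x : V) :
    VPol (fun e => (e ^ 4) • me m D C R N e a x) := by
  have h1 := vpol_A' D C ((vpol_Q R N (vpol_A D C (VPol.const a))).bil
    (vpol_A D C (VPol.const x)) m)
  intro φ
  refine (h1 φ).congr fun e he => ?_
  beta_reduce
  congr 1
  rw [← Qe_scal R N e he, ← Aee_scal D C e he, me_apply, map_smul, LinearMap.smul_apply,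
    map_smul, smul_smul]
  congr 1
  ring

/-- bounded Laurent polynomials are constant -/
theorem me_const (m : V →ₗ[ℝ] V →ₗ[ℝ] V) (D C R : V →ₗ[ℝ] V) (N : ℕ) (a x : V) (K : ℝ)
    (hK : ∀ e : ℝ, 0 < e → ‖me m D C R N e a x‖ ≤ K) (e : ℝ) (he : 0 < e) :
    me m D C R N e a x = me m D C R N 1 a x := by
  refine ext_inner_left ℝ fun z => ?_
  obtain ⟨q, hq⟩ := me_pol m D C R N a x (innerₛₗ ℝ z)
  have hq' : ∀ e : ℝ, 0 < e → q.eval e = e ^ 4 * inner ℝ z (me m D C R N e a x) := by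
    intro e he
    have h1 := hq e he
    beta_reduce at h1
    rw [map_smul, smul_eq_mul] at h1
    exact h1.symm
  have h2 := poly_const q (‖z‖ * K) 4 (by
    intro e he
    rw [hq' e he, abs_mul, abs_of_pos (pow_pos he 4), mul_comm]
    refine mul_le_mul_of_nonneg_right ?_ (pow_pos he 4).le
    exact (abs_real_inner_le_norm _ _).trans
      (mul_le_mul_of_nonneg_left (hK e he) (norm_nonneg z))) e he
  rw [hq' e he, hq' 1 one_pos, one_pow, one_mul, mul_comm] at h2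
  exact mul_right_cancel₀ (pow_ne_zero 4 he.ne') h2

/-- the algebraic part of the derivative at `e = 1` -/
theorem deriv_alg (m : V →ₗ[ℝ] V →ₗ[ℝ] V) (D C R Q : V →ₗ[ℝ] V) (e : ℝ) (he : 0 < e)
    (he1 : e ≠ 1) (hQ : (1 - (1 - e ^ 2) • R) * Q = 1) (a x : V)
    (h : Aee D C e⁻¹ (m (Q (Aee D C e a)) (Aee D C e x)) = m a x) :
    m ((e + 1) • C a + ((2 : ℝ) • D a - (2 : ℝ) • C a) + (-(1 + e)) • R (Q (Aee D C e a))) x +
      m a ((e + 1) • C x + ((2 : ℝ) • D x - (2 : ℝ) • C x)) +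
      (e - 1) • m ((e + 1) • C a + ((2 : ℝ) • D a - (2 : ℝ) • C a) +
        (-(1 + e)) • R (Q (Aee D C e a))) ((e + 1) • C x + ((2 : ℝ) • D x - (2 : ℝ) • C x)) -
      e⁻¹ • ((e⁻¹ + 1) • C (m (Q (Aee D C e a)) (Aee D C e x)) +
        ((2 : ℝ) • D (m (Q (Aee D C e a)) (Aee D C e x)) -
          (2 : ℝ) • C (m (Q (Aee D C e a)) (Aee D C e x)))) = 0 := by
  have hA : ∀ (s : ℝ) (v : V), Aee D C s v =
      v + (s - 1) • ((s + 1) • C v + ((2 : ℝ) • D v - (2 : ℝ) • C v)) := by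
    intro s v
    rw [Aee_apply]
    module
  have hQ' : ∀ v : V, Q v = v + (e - 1) • ((-(1 + e)) • R (Q v)) := by
    intro v
    have h1 := LinearMap.congr_fun hQ v
    have h2 : Q v - (1 - e ^ 2) • R (Q v) = v := h1
    rw [sub_eq_iff_eq_add] at h2
    conv_lhs => rw [h2]
    module
  set Aa := Aee D C e a with hAa
  set w := m (Q Aa) (Aee D C e x) with hw
  set u := (e + 1) • C a + ((2 : ℝ) • D a - (2 : ℝ) • C a) + (-(1 + e)) • R (Q Aa) with hu
  set y := (e + 1) • C x + ((2 : ℝ) • D x - (2 : ℝ) • C x) with hy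
  have h1 : Q Aa = a + (e - 1) • u := by
    have h0 : Aa = a + (e - 1) • ((e + 1) • C a + ((2 : ℝ) • D a - (2 : ℝ) • C a)) := hA e a
    have h00 := hQ' Aa
    rw [hu]
    calc Q Aa = Aa + (e - 1) • ((-(1 + e)) • R (Q Aa)) := h00
      _ = (a + (e - 1) • ((e + 1) • C a + ((2 : ℝ) • D a - (2 : ℝ) • C a))) +
          (e - 1) • ((-(1 + e)) • R (Q Aa)) := congrArg (· + _) h0
      _ = _ := by module
  have h2 : w = m a x + (e - 1) • (m u x + m a y + (e - 1) • m u y) := by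
    rw [hw, h1, hA e x, ← hy]
    simp only [map_add, map_smul, LinearMap.add_apply, LinearMap.smul_apply]
    module
  rw [hA e⁻¹ w] at h
  set z := (e⁻¹ + 1) • C w + ((2 : ℝ) • D w - (2 : ℝ) • C w) with hz
  have h3 : e⁻¹ - 1 = (e - 1) * (-e⁻¹) := by
    have := he.ne'
    field_simp
    ring
  have h4 : (e - 1) • (m u x + m a y + (e - 1) • m u y - e⁻¹ • z) = 0 := by
    have h5 : w + (e⁻¹ - 1) • z - m a x = 0 := by rw [h, sub_self]
    rw [h3] at h5
    conv_lhs at h5 => rw [h2]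
    rw [← h5]
    module
  exact (smul_eq_zero.1 h4).resolve_left (sub_ne_zero.2 he1)

theorem cont_lin (T : V →ₗ[ℝ] V) {f : ℝ → V} {r : ℝ} (hf : ContinuousAt f r) :
    ContinuousAt (fun e => T (f e)) r :=
  T.continuous_of_finiteDimensional.continuousAt.comp hf

theorem cont_bil (m : V →ₗ[ℝ] V →ₗ[ℝ] V) {f g : ℝ → V} {r : ℝ} (hf : ContinuousAt f r)
    (hg : ContinuousAt g r) : ContinuousAt (fun e => m (f e) (g e)) r := by
  let M : V →ₗ[ℝ] (V →L[ℝ] V) :=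
    (LinearMap.toContinuousLinearMap : (V →ₗ[ℝ] V) ≃ₗ[ℝ] (V →L[ℝ] V)).toLinearMap ∘ₗ m
  have h1 : ContinuousAt (fun e => M (f e)) r :=
    M.continuous_of_finiteDimensional.continuousAt.comp hf
  exact h1.clm_apply hg

theorem cont_A (D C : V →ₗ[ℝ] V) {s : ℝ → ℝ} {f : ℝ → V} {r : ℝ} (hs : ContinuousAt s r)
    (hf : ContinuousAt f r) : ContinuousAt (fun e => Aee D C (s e) (f e)) r :=
  (((hs.pow 2).smul (cont_lin C hf)).add (hs.smul (cont_lin ((2 : ℝ) • D - (2 : ℝ) • C) hf))).add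
    (cont_lin (1 + C - (2 : ℝ) • D) hf)

theorem cont_Q (R : V →ₗ[ℝ] V) (N : ℕ) {f : ℝ → V} (hf : ContinuousAt f 1) :
    ContinuousAt (fun e => Qe R N e (f e)) 1 := by
  have h1 : (fun e => Qe R N e (f e)) = fun e =>
      (∑ k ∈ Finset.range N, ((1 - e ^ 2) ^ k) • (R ^ k) (f e)) +
        ((1 - e ^ 2) ^ N * (e ^ 2)⁻¹) • (R ^ N) (f e) := by
    funext e
    rw [Qe, LinearMap.add_apply, LinearMap.sum_apply]
    rfl
  rw [h1]
  have h2 : ContinuousAt (fun e : ℝ => 1 - e ^ 2) 1 := by fun_prop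
  have h3 : ContinuousAt (fun e : ℝ => (e ^ 2)⁻¹) 1 :=
    ContinuousAt.inv₀ (by fun_prop) (by norm_num)
  refine ContinuousAt.add ?_ (((h2.pow N).mul h3).smul (cont_lin (R ^ N) hf))
  exact tendsto_finsetSum _ fun k _ => ((h2.pow k).smul (cont_lin (R ^ k) hf))

/-- the derivative at `e = 1` -/
theorem deriv_one (m : V →ₗ[ℝ] V →ₗ[ℝ] V) (D C R : V →ₗ[ℝ] V) (N : ℕ)
    (hR : R ^ (N + 1) = R ^ N) (a x : V)
    (h : ∀ e : ℝ, 0 < e → me m D C R N e a x = m a x) :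
    (2 : ℝ) • D (m a x) = m ((2 : ℝ) • D a - (2 : ℝ) • R a) x + m a ((2 : ℝ) • D x) := by
  let G : ℝ → V := fun e =>
    m ((e + 1) • C a + ((2 : ℝ) • D a - (2 : ℝ) • C a) +
        (-(1 + e)) • R (Qe R N e (Aee D C e a))) x +
      m a ((e + 1) • C x + ((2 : ℝ) • D x - (2 : ℝ) • C x)) +
      (e - 1) • m ((e + 1) • C a + ((2 : ℝ) • D a - (2 : ℝ) • C a) +
        (-(1 + e)) • R (Qe R N e (Aee D C e a))) ((e + 1) • C x + ((2 : ℝ) • D x - (2 : ℝ) • C x)) -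
      e⁻¹ • ((e⁻¹ + 1) • C (m (Qe R N e (Aee D C e a)) (Aee D C e x)) +
        ((2 : ℝ) • D (m (Qe R N e (Aee D C e a)) (Aee D C e x)) -
          (2 : ℝ) • C (m (Qe R N e (Aee D C e a)) (Aee D C e x))))
  have hid : ContinuousAt (fun e : ℝ => e) 1 := continuousAt_id
  have hc : ∀ v : V, ContinuousAt (fun _ : ℝ => v) 1 := fun v => continuousAt_const
  have hB : ∀ v : V, ContinuousAt
      (fun e : ℝ => (e + 1) • C v + ((2 : ℝ) • D v - (2 : ℝ) • C v)) 1 := by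
    intro v
    fun_prop
  have hinv : ContinuousAt (fun e : ℝ => e⁻¹) 1 := ContinuousAt.inv₀ hid one_ne_zero
  have hQA := cont_Q R N (cont_A D C hid (hc a))
  have hu : ContinuousAt (fun e : ℝ => (e + 1) • C a + ((2 : ℝ) • D a - (2 : ℝ) • C a) +
        (-(1 + e)) • R (Qe R N e (Aee D C e a))) 1 :=
    (hB a).add (ContinuousAt.smul (by fun_prop) (cont_lin R hQA))
  have hw : ContinuousAt (fun e : ℝ => m (Qe R N e (Aee D C e a)) (Aee D C e x)) 1 :=
    cont_bil m hQA (cont_A D C hid (hc x))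
  have hG : ContinuousAt G 1 := by
    refine ((((cont_bil m hu (hc x)).add (cont_bil m (hc a) (hB x))).add
      (ContinuousAt.smul (by fun_prop) (cont_bil m hu (hB x)))).sub (hinv.smul
        (((hinv.add continuousAt_const).smul (cont_lin C hw)).add
          ((continuousAt_const.smul (cont_lin D hw)).sub
            (continuousAt_const.smul (cont_lin C hw))))))
  have h0 : G =ᶠ[𝓝[≠] (1 : ℝ)] fun _ => 0 := by
    have h1 : ∀ᶠ e : ℝ in 𝓝[≠] (1 : ℝ), 0 < e :=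
      (eventually_gt_nhds one_pos).filter_mono nhdsWithin_le_nhds
    filter_upwards [h1, self_mem_nhdsWithin] with e he he1
    exact deriv_alg m D C R (Qe R N e) e he he1 (Qe_inv R N hR e he) a x
      ((me_apply m D C R N e a x).symm.trans (h e he))
  have h1 : G 1 = 0 := by
    have h2 : Tendsto G (𝓝[≠] (1 : ℝ)) (𝓝 (G 1)) := hG.tendsto.mono_left nhdsWithin_le_nhds
    have h3 : Tendsto G (𝓝[≠] (1 : ℝ)) (𝓝 0) := (tendsto_congr' h0).2 tendsto_const_nhds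
    exact tendsto_nhds_unique h2 h3
  have hQ1 : Qe R N 1 = 1 := by
    have h2 := Qe_inv R N hR 1 one_pos
    simpa using h2
  have hA1 : ∀ v : V, Aee D C 1 v = v := by
    intro v
    rw [Aee_apply]
    module
  have h2 : m ((1 + 1 : ℝ) • C a + ((2 : ℝ) • D a - (2 : ℝ) • C a) + (-(1 + 1) : ℝ) • R a) x +
      m a ((1 + 1 : ℝ) • C x + ((2 : ℝ) • D x - (2 : ℝ) • C x)) +
      (1 - 1 : ℝ) • m ((1 + 1 : ℝ) • C a + ((2 : ℝ) • D a - (2 : ℝ) • C a) +
        (-(1 + 1) : ℝ) • R a) ((1 + 1 : ℝ) • C x + ((2 : ℝ) • D x - (2 : ℝ) • C x)) -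
      (1 : ℝ)⁻¹ • (((1 : ℝ)⁻¹ + 1) • C (m a x) + ((2 : ℝ) • D (m a x) - (2 : ℝ) • C (m a x))) = 0 := by
    have h3 := h1
    simp only [G, hQ1, hA1, Module.End.one_apply] at h3
    exact h3
  simp only [map_add, map_smul, map_sub, LinearMap.add_apply, LinearMap.smul_apply,
    LinearMap.sub_apply, inv_one] at h2 ⊢
  rw [← sub_eq_zero, ← neg_eq_zero, ← h2]
  module

end

end N4b

/-- **N4b** -/
theorem thm_N4b (hTr : St_Tr) (hN1a : St_N1a) (hP2 : St_P2) (hN4a : St_N4a) : St_N4b := by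
  intro V _ _ _ m hm c hc hD
  obtain ⟨-, -, -, -, h5⟩ := hN1a V m hm
  obtain ⟨-, -, -, hcc⟩ := h5 c hc
  have hne : c ≠ 0 := by
    rintro rfl
    simp at hcc
  have : Nontrivial V := ⟨⟨c, 0, hne⟩⟩
  have hn : 0 < Module.finrank ℝ V := Module.finrank_pos
  obtain ⟨N, hN⟩ : ∃ N, Module.finrank ℝ V = N + 1 := ⟨Module.finrank ℝ V - 1, by omega⟩
  have hR : (m.flip c) ^ (N + 1) = (m.flip c) ^ N := by
    obtain ⟨c1, c2, c3⟩ := hc
    have h1 := ((hTr V (m.flip c) (hm.rr c)).2.2.2.2 c1 c2 c3).2.1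
    rw [hN, Nat.add_sub_cancel] at h1
    exact h1
  let b := stdOrthonormalBasis ℝ V
  have hAe : ∀ (e : ℝ) (v : V), Ae m c e v = N4b.Aee (Fs m c) (cc c) e v := fun e v => rfl
  have hme : ∀ (e : ℝ), 0 < e → ∀ i j,
      N4b.me m (Fs m c) (cc c) (m.flip c) N e (b i) (b j) = m (b i) (b j) := by
    intro e he i j
    have h1 := N4b.me_const m (Fs m c) (cc c) (m.flip c) N (b i) (b j)
      (Real.sqrt (∑ i, ∑ j, ‖m (b i) (b j)‖ ^ 2)) (by
        intro e he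
        refine Real.le_sqrt_of_sq_le ?_
        have h2 := hN4a V m hm c hc hD _ b e (N4b.Qe (m.flip c) N e) he
          (N4b.Qe_inv (m.flip c) N hR e he)
        rw [← h2]
        refine le_trans ?_ (Finset.single_le_sum (f := fun i => ∑ j,
          ‖Ae m c e⁻¹ (m (N4b.Qe (m.flip c) N e (Ae m c e (b i))) (Ae m c e (b j)))‖ ^ 2)
          (fun i _ => Finset.sum_nonneg fun j _ => sq_nonneg _) (Finset.mem_univ i))
        exact Finset.single_le_sum (f := fun j =>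
          ‖Ae m c e⁻¹ (m (N4b.Qe (m.flip c) N e (Ae m c e (b i))) (Ae m c e (b j)))‖ ^ 2)
          (fun j _ => sq_nonneg _) (Finset.mem_univ j)) e he
    rw [h1, N4b.me_apply]
    have hQ1 : N4b.Qe (m.flip c) N 1 = 1 := by
      have h2 := N4b.Qe_inv (m.flip c) N hR 1 one_pos
      simpa using h2
    have hA1 : ∀ v : V, N4b.Aee (Fs m c) (cc c) 1 v = v := by
      intro v
      rw [N4b.Aee_apply]
      module
    rw [inv_one, hA1, hA1, hA1, hQ1, Module.End.one_apply]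
  have hme' : ∀ e : ℝ, 0 < e → N4b.me m (Fs m c) (cc c) (m.flip c) N e = m := by
    intro e he
    refine b.toBasis.ext fun i => b.toBasis.ext fun j => ?_
    rw [b.coe_toBasis]
    exact hme e he i j
  have hder : ∀ a x : V, (2 : ℝ) • Fs m c (m a x) =
      m ((2 : ℝ) • Fs m c a - (2 : ℝ) • m.flip c a) x + m a ((2 : ℝ) • Fs m c x) :=
    fun a x => N4b.deriv_one m (Fs m c) (cc c) (m.flip c) N hR a x
      fun e he => by rw [hme' e he]
  have hS : m c - Fs m c = 0 := by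
    refine hP2 V m hm.lsa hm.nd (m c - Fs m c) fun a x => ?_
    have h1 := hder a x
    have h2 := hm.lsa c a x
    have h3 : Fs m c (m a x) = m (Fs m c a) x - m (m a c) x + m a (Fs m c x) := by
      have h4 : (2 : ℝ) • Fs m c (m a x) =
          (2 : ℝ) • (m (Fs m c a) x - m (m a c) x + m a (Fs m c x)) := by
        rw [h1, map_sub, map_smul, map_smul, LinearMap.sub_apply, LinearMap.smul_apply,
          LinearMap.smul_apply, map_smul, LinearMap.flip_apply]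
        module
      exact smul_right_injective V (two_ne_zero (α := ℝ)) h4
    have h5 : m c (m a x) = m (m c a) x + m a (m c x) - m (m a c) x := by
      rw [sub_eq_sub_iff_add_eq_add] at h2
      rw [eq_sub_iff_add_eq, h2, add_comm]
    rw [LinearMap.sub_apply, LinearMap.sub_apply, LinearMap.sub_apply, h3, h5, map_sub,
      LinearMap.sub_apply, map_sub]
    abel
  exact sub_eq_zero.1 hS

end Pool.Agent.RRC
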