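import Pool.Agent.RRC.St1

/-!
# RRC, module N5: the element `c` is a leaf (helper15)
-/

set_option autoImplicit false

open Polynomial

namespace Pool.Agent.RRC

namespace N5

/-- an idempotent with trace one has rank one -/
theorem rank_one {V : Type} [AddCommGroup V] [Module ℝ V] [FiniteDimensional ℝ V]
    {P : V →ₗ[ℝ] V} (h : IsIdempotentElem P) (ht : LinearMap.trace ℝ V P = 1) {c w : V}
    (hc : P c = c) (hw : P w = w) (hc0 : c ≠ 0) : ∃ a : ℝ, w = a • c := by
  have h1 := (LinearMap.IsIdempotentElem.isProj_range P h).trace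
  rw [ht] at h1
  have h2 : Module.finrank ℝ (LinearMap.range P) = 1 := by exact_mod_cast h1.symm
  have hc0' : (⟨c, ⟨c, hc⟩⟩ : LinearMap.range P) ≠ 0 := fun h => hc0 (congrArg Subtype.val h)
  obtain ⟨a, ha⟩ := (finrank_eq_one_iff_of_nonzero' _ hc0').1 h2 ⟨w, ⟨w, hw⟩⟩
  exact ⟨a, (congrArg Subtype.val ha).symm⟩

end N5

theorem thm_N5 (hTr : St_Tr) (hK1 : St_K1) (hN1a : St_N1a) (hN1b : St_N1b) (hN4b : St_N4b) :
    St_N5 := by
  intro V _ _ _ m hm c hc hD
  have hL := hN4b V m hm c hc hD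
  obtain ⟨-, -, -, hsym, hrest⟩ := hN1a V m hm
  obtain ⟨-, hinR, hFcc, hcc⟩ := hrest c hc
  obtain ⟨-, hb⟩ := hN1b V m hm c hc
  have hc0 : c ≠ 0 := by
    rintro rfl
    rw [inner_zero_left] at hcc
    exact zero_ne_one hcc
  have hsymc := hsym c
  rw [← hL] at hD hFcc hb hsymc
  obtain ⟨R, hR⟩ : ∃ R, R = m.flip c := ⟨_, rfl⟩
  have hRa : ∀ a, R a = m a c := by
    intro a
    rw [hR]
    rfl
  have hRc : R c = c := by rw [hRa, hFcc]
  -- the commutator
  have hcom : ∀ v, m c (R v) - R (m c v) = R v - R (R v) := by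
    intro v
    have h := congrArg (fun f : V →ₗ[ℝ] V => f v) ((hK1 V m hm.lsa).1 c c)
    rw [hFcc] at h
    rw [hR]
    exact h
  have htr := (hTr V (m.flip c) (hm.rr c)).2.2.2.2 hc.1 hc.2.1 hc.2.2
  rw [← hR] at htr
  obtain ⟨-, hpow, htrk⟩ := htr
  obtain ⟨n, hn⟩ : ∃ n, n = Module.finrank ℝ V := ⟨_, rfl⟩
  rw [← hn] at hpow
  have hn1 : 1 ≤ n := by
    have : Nontrivial V := ⟨c, 0, hc0⟩
    rw [hn]
    exact Module.finrank_pos
  -- the powers stabilise
  have hst : ∀ k, R ^ (n + k) = R ^ n := by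
    intro k
    induction k with
    | zero => rfl
    | succ k ih =>
      have e1 : n + (k + 1) = (n + k) + 1 := by omega
      have e2 : R ^ n * R = R ^ n := by
        have e3 : n = (n - 1) + 1 := by omega
        calc R ^ n * R = R ^ (n - 1) * R := by rw [hpow]
          _ = R ^ n := by
            rw [← pow_succ]
            congr 1
            omega
      rw [e1, pow_succ, ih, e2]
  have hid : IsIdempotentElem (R ^ n) := by
    change R ^ n * R ^ n = R ^ n
    rw [← pow_add]
    exact hst n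
  have hfix : ∀ (w : V) (s : ℝ), R w = s • w → ∀ k : ℕ, (R ^ k) w = s ^ k • w := by
    intro w s hw k
    induction k with
    | zero => simp
    | succ k ih =>
      rw [pow_succ', Module.End.mul_apply, ih, map_smul, hw, smul_smul, pow_succ]
  have hfix1 : ∀ w : V, R w = w → (R ^ n) w = w := by
    intro w hw
    have := hfix w 1 (by rw [one_smul, hw]) n
    rwa [one_pow, one_smul] at this
  -- the two cases
  have hA : ∀ v : V, inner ℝ c v = (0 : ℝ) → m c v = (1 / 2 : ℝ) • v → R v = 0 := by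
    intro v hv hDv
    have h0 := hb v
    rw [hv, zero_smul, ← hRa] at h0
    have h1 : m c (R v) = (1 / 2 : ℝ) • R v := by
      have h2 : (2 : ℝ) • m c (R v) = R v := sub_eq_zero.1 h0
      calc m c (R v) = (1 / 2 : ℝ) • ((2 : ℝ) • m c (R v)) := by
            rw [smul_smul]
            norm_num
        _ = (1 / 2 : ℝ) • R v := by rw [h2]
    have h3 := hcom v
    rw [h1, hDv, map_smul, sub_self] at h3
    have h4 : R (R v) = R v := (sub_eq_zero.1 h3.symm).symm
    obtain ⟨a, ha⟩ := N5.rank_one hid (htrk n hn1) (hfix1 c hRc) (hfix1 (R v) h4) hc0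
    have h5 : inner ℝ c (R v) = (0 : ℝ) := by rw [hRa, hinR, hv]
    rw [ha, inner_smul_right, hcc, mul_one] at h5
    rw [ha, h5, zero_smul]
  have hB : ∀ v : V, inner ℝ c v = (0 : ℝ) → m c v = 0 → R v = 0 := by
    intro v hv hDv
    have h0 := hb v
    rw [hv, zero_smul, ← hRa] at h0
    have h1 : m c (R v) = (1 / 2 : ℝ) • R v := by
      have h2 : (2 : ℝ) • m c (R v) = R v := sub_eq_zero.1 h0
      calc m c (R v) = (1 / 2 : ℝ) • ((2 : ℝ) • m c (R v)) := by
            rw [smul_smul]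
            norm_num
        _ = (1 / 2 : ℝ) • R v := by rw [h2]
    have h3 := hcom v
    rw [h1, hDv, map_zero, sub_zero] at h3
    have h4 : R (R v) = (1 / 2 : ℝ) • R v := by
      have h5 : R (R v) = R v - (1 / 2 : ℝ) • R v := by
        rw [h3]
        abel
      rw [h5]
      module
    have h6 := hfix (R v) (1 / 2) h4 n
    have h7 := hfix (R v) (1 / 2) h4 (n - 1)
    rw [hpow, h7] at h6
    have h8 : ((1 / 2 : ℝ) ^ (n - 1) - (1 / 2) ^ n) • R v = 0 := by
      rw [sub_smul, h6, sub_self]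
    have h9 : (1 / 2 : ℝ) ^ (n - 1) - (1 / 2) ^ n ≠ 0 := by
      obtain ⟨k, rfl⟩ : ∃ k, n = k + 1 := ⟨n - 1, by omega⟩
      rw [Nat.add_sub_cancel, pow_succ]
      have : (0 : ℝ) < (1 / 2) ^ k := by positivity
      intro h
      linarith
    exact (smul_eq_zero.1 h8).resolve_left h9
  have hsymi : ∀ v : V, inner ℝ c (m c v) = (inner ℝ c v : ℝ) := by
    intro v
    rw [← hsymc c v, hFcc]
  have hperp : ∀ u : V, inner ℝ c u = (0 : ℝ) → R u = 0 := by
    intro u hu
    have h1 : (2 : ℝ) • m c (m c u) = m c u := by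
      rw [hD, hu, zero_smul, add_zero]
    have e1 : R ((2 : ℝ) • m c u) = 0 := by
      refine hA _ ?_ ?_
      · rw [inner_smul_right, hsymi, hu, mul_zero]
      · rw [map_smul, h1, smul_smul]
        norm_num
    have e2 : R (u - (2 : ℝ) • m c u) = 0 := by
      refine hB _ ?_ ?_
      · rw [inner_sub_right, inner_smul_right, hsymi, hu, mul_zero, sub_zero]
      · rw [map_sub, map_smul, h1, sub_self]
    rw [map_sub, e1, sub_zero] at e2
    exact e2
  refine ⟨hcc, hc.1, fun a => ?_, hsymc, hD⟩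
  have h1 : inner ℝ c (a - (inner ℝ c a : ℝ) • c) = (0 : ℝ) := by
    rw [inner_sub_right, inner_smul_right, hcc, mul_one, sub_self]
  have h2 := hperp _ h1
  rw [map_sub, map_smul, hRc, sub_eq_zero, hRa] at h2
  exact h2

end Pool.Agent.RRC
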