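import Pool.Agent.RRC.St1

/-!
# RRC, module NDo: nondegeneracy is an open condition
-/

set_option autoImplicit false

noncomputable section

namespace Pool.Agent.RRC

open scoped Polynomial
open Polynomial

namespace NDo

variable {V : Type} [AddCommGroup V] [Module ℝ V] [FiniteDimensional ℝ V]

/-- the index type -/
abbrev I (V : Type) [AddCommGroup V] [Module ℝ V] : Type := Fin (Module.finrank ℝ V)

/-- the basis -/
def b (V : Type) [AddCommGroup V] [Module ℝ V] [FiniteDimensional ℝ V] : Module.Basis (I V) ℝ V :=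
  Module.finBasis ℝ V

variable (m : V →ₗ[ℝ] V →ₗ[ℝ] V)

/-- the matrix of the functionals `w ↦ tr(R_x ^ k w)`, `k < n` -/
def N (x : V) : Matrix (I V) (I V) ℝ :=
  Matrix.of fun k i => tr m ((m.flip x ^ (k : ℕ)) (b V i))

theorem N_mulVec (x : V) (w : V) (k : I V) :
    (N m x).mulVec (fun i => (b V).repr w i) k = tr m ((m.flip x ^ (k : ℕ)) w) := by
  have h1 : w = ∑ i, (b V).repr w i • b V i := ((b V).sum_repr w).symm
  conv_rhs => rw [h1]
  rw [map_sum, map_sum, Matrix.mulVec, dotProduct]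
  refine Finset.sum_congr rfl fun i _ => ?_
  rw [map_smul, map_smul, smul_eq_mul, mul_comm]
  rfl

theorem ndat_of_det {x : V} (h : (N m x).det ≠ 0) : NDat m x := by
  intro w hw
  have h1 : (N m x).mulVec (fun i => (b V).repr w i) = 0 := by
    funext k
    rw [N_mulVec, hw]
    rfl
  have h2 := Matrix.eq_zero_of_mulVec_eq_zero h h1
  rw [← (b V).sum_repr w]
  refine Finset.sum_eq_zero fun i _ => ?_
  rw [congrFun h2 i, Pi.zero_apply, zero_smul]

theorem all_of_lt {x w : V} (h : ∀ k : I V, tr m ((m.flip x ^ (k : ℕ)) w) = 0) (k : ℕ) :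
    tr m ((m.flip x ^ k) w) = 0 := by
  nontriviality V
  rw [LinearMap.pow_eq_aeval_mod_charpoly]
  have hn : (X ^ k %ₘ (m.flip x).charpoly).natDegree < Module.finrank ℝ V := by
    rw [← (m.flip x).charpoly_natDegree]
    refine Polynomial.natDegree_modByMonic_lt _ (LinearMap.charpoly_monic _) fun hc => ?_
    have h2 := (m.flip x).charpoly_natDegree
    rw [hc, Polynomial.natDegree_one] at h2
    exact (Module.finrank_pos (R := ℝ) (M := V)).ne h2
  rw [Polynomial.aeval_eq_sum_range' hn, LinearMap.sum_apply, map_sum]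
  refine Finset.sum_eq_zero fun i hi => ?_
  rw [LinearMap.smul_apply, map_smul, h ⟨i, Finset.mem_range.1 hi⟩, smul_zero]

theorem det_of_ndat {x : V} (h : NDat m x) : (N m x).det ≠ 0 := by
  intro hc
  obtain ⟨c, hc0, hc1⟩ := Matrix.exists_mulVec_eq_zero_iff.2 hc
  apply hc0
  have h1 : (fun i => (b V).repr (∑ i, c i • b V i) i) = c := (b V).repr_sum_self c
  have h2 : (∑ i, c i • b V i) = 0 := by
    refine h _ fun k => all_of_lt m (fun k => ?_) k
    rw [← N_mulVec, h1, hc1]
    rfl
  rw [← h1, h2]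
  funext i
  rw [map_zero]
  rfl

/-- the matrix of `R_x` -/
def A (x : V) : Matrix (I V) (I V) ℝ := LinearMap.toMatrixAlgEquiv (b V) (m.flip x)

theorem N_eq (x : V) (k i : I V) :
    N m x k i = ∑ j, tr m (b V j) * (A m x ^ (k : ℕ)) j i := by
  have h1 : A m x ^ (k : ℕ) = LinearMap.toMatrixAlgEquiv (b V) (m.flip x ^ (k : ℕ)) := by
    rw [A, map_pow]
  rw [h1, N, Matrix.of_apply]
  conv_lhs => rw [← (b V).sum_repr ((m.flip x ^ (k : ℕ)) (b V i))]
  rw [map_sum]
  refine Finset.sum_congr rfl fun j _ => ?_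
  rw [map_smul, smul_eq_mul, mul_comm, LinearMap.toMatrixAlgEquiv_apply]

/-- the polynomial matrix -/
def P (x v : V) : Matrix (I V) (I V) ℝ[X] :=
  (A m x).map C + (X : ℝ[X]) • (A m v).map C

/-- the polynomial matrix of the functionals -/
def NP (x v : V) : Matrix (I V) (I V) ℝ[X] :=
  Matrix.of fun k i => ∑ j, C (tr m (b V j)) * (P m x v ^ (k : ℕ)) j i

theorem P_eval (x v : V) (e : ℝ) :
    (evalRingHom e).mapMatrix (P m x v) = A m (x + e • v) := by
  have hA : A m (x + e • v) = A m x + e • A m v := by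
    rw [A, A, A, map_add, map_smul, map_add, map_smul]
  rw [hA]
  ext i j
  rw [RingHom.mapMatrix_apply, Matrix.map_apply, P, Matrix.add_apply, Matrix.smul_apply,
    Matrix.map_apply, Matrix.map_apply, Matrix.add_apply, Matrix.smul_apply, smul_eq_mul,
    smul_eq_mul, map_add, map_mul, coe_evalRingHom, eval_C, eval_X, eval_C]

theorem NP_eval (x v : V) (e : ℝ) :
    (evalRingHom e).mapMatrix (NP m x v) = N m (x + e • v) := by
  ext k i
  rw [RingHom.mapMatrix_apply, Matrix.map_apply, NP, Matrix.of_apply, map_sum, N_eq,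
    ← P_eval, ← map_pow]
  refine Finset.sum_congr rfl fun j _ => ?_
  rw [map_mul, RingHom.mapMatrix_apply, Matrix.map_apply, coe_evalRingHom, eval_C]

theorem det_eval (x v : V) (e : ℝ) : (NP m x v).det.eval e = (N m (x + e • v)).det := by
  rw [← NP_eval, ← RingHom.map_det, coe_evalRingHom]

end NDo

open NDo in
theorem thm_NDo : St_NDo := by
  intro V _ _ _ m x hx v
  have h0 : (NP m x v).det ≠ 0 := by
    intro hc
    have h1 := det_eval m x v 0
    rw [hc, eval_zero, zero_smul, add_zero] at h1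
    exact det_of_ndat m hx h1.symm
  have hf : {e : ℝ | ¬ NDat m (x + e • v)}.Finite := by
    refine (Polynomial.finite_setOfPred_isRoot h0).subset fun e he => ?_
    by_contra hc
    refine he (ndat_of_det m fun h2 => hc ?_)
    rw [Set.mem_ofPred_eq, IsRoot.def, det_eval, h2]
  refine ⟨?_, hf⟩
  have h1 : {e : ℝ | ¬ NDat m (x + e • v)}ᶜ ∈ nhds (0 : ℝ) := by
    refine hf.isClosed.isOpen_compl.mem_nhds ?_
    rw [Set.mem_compl_iff, Set.mem_ofPred_eq, not_not, zero_smul, add_zero]
    exact hx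
  obtain ⟨d, hd, h2⟩ := Metric.mem_nhds_iff.1 h1
  refine ⟨d, hd, fun e he => ?_⟩
  have h3 := h2 (show e ∈ Metric.ball (0 : ℝ) d by rwa [mem_ball_zero_iff, Real.norm_eq_abs])
  exact not_not.1 h3

end Pool.Agent.RRC
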