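import Pool.Agent.RRC.St1

/-!
# RRC NUM: an inequality for real power sums (helper19)
-/

set_option autoImplicit false

noncomputable section

namespace Pool.Agent.RRC

namespace NUM

/-- the final numerical estimate -/
theorem est (a s4 s3 r : ℝ) (hr : 0 ≤ r) (hr2 : r ^ 2 ≤ 2) (ha : a ^ 2 ≤ 2) (h40 : 0 ≤ s4)
    (h4 : s4 ≤ r ^ 4) (h3 : |s3| ≤ r ^ 3) :
    |(a ^ 4 + s4) ^ 3 - (a ^ 3 + s3) ^ 4| ≤ 600 * r ^ 3 := by
  have hr1 : r ≤ 3 / 2 := by nlinarith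
  have ht0 : 0 ≤ r ^ 3 := by positivity
  have ht3 : r ^ 3 ≤ 3 := by nlinarith
  have h42 : s4 ≤ 2 * r ^ 3 := by nlinarith
  have h44 : s4 ≤ 4 := by nlinarith [sq_nonneg (r ^ 2)]
  have h33 : |s3| ≤ 3 := h3.trans ht3
  have ha1 : |a| ≤ 3 / 2 := abs_le_of_sq_le_sq (by nlinarith) (by norm_num) |> fun h => h
  have ha0 : 0 ≤ |a| := abs_nonneg a
  have ha2 : |a| ^ 2 ≤ 2 := by rw [sq_abs]; exact ha
  have ha4 : |a| ^ 4 ≤ 4 := by nlinarith [sq_nonneg (|a| ^ 2)]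
  have ha8 : |a| ^ 8 ≤ 16 := by
    have h := pow_le_pow_left₀ (by positivity : 0 ≤ |a| ^ 4) ha4 2
    calc |a| ^ 8 = (|a| ^ 4) ^ 2 := by ring
      _ ≤ 4 ^ 2 := h
      _ = 16 := by norm_num
  have ha6 : |a| ^ 6 ≤ 8 := by
    have : |a| ^ 6 = |a| ^ 4 * |a| ^ 2 := by ring
    rw [this]; nlinarith [sq_nonneg (|a| ^ 2), sq_nonneg |a|]
  have ha3 : |a| ^ 3 ≤ 3 := by
    have : |a| ^ 3 = |a| ^ 2 * |a| := by ring
    rw [this]; nlinarith [sq_nonneg |a|]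
  have ha9 : |a| ^ 9 ≤ 24 := by
    have : |a| ^ 9 = |a| ^ 8 * |a| := by ring
    rw [this]; nlinarith [pow_nonneg ha0 8]
  have hs0 : 0 ≤ |s3| := abs_nonneg s3
  have e : (a ^ 4 + s4) ^ 3 - (a ^ 3 + s3) ^ 4 = 3 * a ^ 8 * s4 + 3 * a ^ 4 * s4 ^ 2 + s4 ^ 3 +
      (-(4 * a ^ 9 * s3)) + (-(6 * a ^ 6 * s3 ^ 2)) + (-(4 * a ^ 3 * s3 ^ 3)) + (-(s3 ^ 4)) := by
    ring
  rw [e]
  have t1 : |3 * a ^ 8 * s4| ≤ 96 * r ^ 3 := by
    rw [abs_mul, abs_mul, abs_pow, abs_of_nonneg h40, abs_of_pos (by norm_num : (0 : ℝ) < 3)]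
    calc 3 * |a| ^ 8 * s4 ≤ 3 * 16 * (2 * r ^ 3) := by gcongr
      _ = 96 * r ^ 3 := by ring
  have t2 : |3 * a ^ 4 * s4 ^ 2| ≤ 96 * r ^ 3 := by
    rw [abs_mul, abs_mul, abs_pow, abs_pow, abs_of_nonneg h40,
      abs_of_pos (by norm_num : (0 : ℝ) < 3)]
    calc 3 * |a| ^ 4 * s4 ^ 2 = 3 * |a| ^ 4 * (s4 * s4) := by ring
      _ ≤ 3 * 4 * (4 * (2 * r ^ 3)) := by gcongr
      _ = 96 * r ^ 3 := by ring
  have t3 : |s4 ^ 3| ≤ 32 * r ^ 3 := by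
    rw [abs_pow, abs_of_nonneg h40]
    calc s4 ^ 3 = s4 * s4 * s4 := by ring
      _ ≤ 4 * 4 * (2 * r ^ 3) := by gcongr
      _ = 32 * r ^ 3 := by ring
  have t4 : |(-(4 * a ^ 9 * s3))| ≤ 96 * r ^ 3 := by
    rw [abs_neg, abs_mul, abs_mul, abs_pow, abs_of_pos (by norm_num : (0 : ℝ) < 4)]
    calc 4 * |a| ^ 9 * |s3| ≤ 4 * 24 * r ^ 3 := by gcongr
      _ = 96 * r ^ 3 := by ring
  have t5 : |(-(6 * a ^ 6 * s3 ^ 2))| ≤ 144 * r ^ 3 := by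
    rw [abs_neg, abs_mul, abs_mul, abs_pow, abs_pow, abs_of_pos (by norm_num : (0 : ℝ) < 6)]
    calc 6 * |a| ^ 6 * |s3| ^ 2 = 6 * |a| ^ 6 * (|s3| * |s3|) := by ring
      _ ≤ 6 * 8 * (3 * r ^ 3) := by gcongr
      _ = 144 * r ^ 3 := by ring
  have t6 : |(-(4 * a ^ 3 * s3 ^ 3))| ≤ 108 * r ^ 3 := by
    rw [abs_neg, abs_mul, abs_mul, abs_pow, abs_pow, abs_of_pos (by norm_num : (0 : ℝ) < 4)]
    calc 4 * |a| ^ 3 * |s3| ^ 3 = 4 * |a| ^ 3 * (|s3| * |s3| * |s3|) := by ring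
      _ ≤ 4 * 3 * (3 * 3 * r ^ 3) := by gcongr
      _ = 108 * r ^ 3 := by ring
  have t7 : |(-(s3 ^ 4))| ≤ 27 * r ^ 3 := by
    rw [abs_neg, abs_pow]
    calc |s3| ^ 4 = |s3| * |s3| * |s3| * |s3| := by ring
      _ ≤ 3 * 3 * 3 * r ^ 3 := by gcongr
      _ = 27 * r ^ 3 := by ring
  refine (abs_add_le _ _).trans ?_
  refine (add_le_add_left (abs_add_le _ _) _).trans ?_
  refine (add_le_add_left (add_le_add_left (abs_add_le _ _) _) _).trans ?_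
  refine (add_le_add_left (add_le_add_left (add_le_add_left (abs_add_le _ _) _) _) _).trans ?_
  refine (add_le_add_left (add_le_add_left (add_le_add_left (add_le_add_left
    (abs_add_le _ _) _) _) _) _).trans ?_
  refine (add_le_add_left (add_le_add_left (add_le_add_left (add_le_add_left (add_le_add_left
    (abs_add_le _ _) _) _) _) _) _).trans ?_
  linarith

end NUM

open NUM in
theorem thm_NUM : St_NUM := by
  refine ⟨600 ^ 2 * 64, fun n l h1 h2 => ?_⟩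
  have hne : (Finset.univ : Finset (Fin n)).Nonempty := by
    rcases Nat.eq_zero_or_pos n with h0 | h0
    · subst h0; simp at h1; norm_num at h1
    · exact ⟨⟨0, h0⟩, Finset.mem_univ _⟩
  obtain ⟨j, -, hj⟩ := Finset.exists_max_image Finset.univ (fun i => |l i|) hne
  have hj' : ∀ i, |l i| ≤ |l j| := fun i => hj i (Finset.mem_univ i)
  set p2 := ∑ i, l i ^ 2 with hp2
  set p3 := ∑ i, l i ^ 3 with hp3
  set p4 := ∑ i, l i ^ 4 with hp4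
  have e2 : p2 = l j ^ 2 + ∑ i ∈ Finset.univ.erase j, l i ^ 2 := by
    rw [hp2, Finset.add_sum_erase _ (fun i => l i ^ 2) (Finset.mem_univ j)]
  have e3 : p3 = l j ^ 3 + ∑ i ∈ Finset.univ.erase j, l i ^ 3 := by
    rw [hp3, Finset.add_sum_erase _ (fun i => l i ^ 3) (Finset.mem_univ j)]
  have e4 : p4 = l j ^ 4 + ∑ i ∈ Finset.univ.erase j, l i ^ 4 := by
    rw [hp4, Finset.add_sum_erase _ (fun i => l i ^ 4) (Finset.mem_univ j)]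
  set r2 := ∑ i ∈ Finset.univ.erase j, l i ^ 2 with hr2
  set s3 := ∑ i ∈ Finset.univ.erase j, l i ^ 3 with hs3
  set s4 := ∑ i ∈ Finset.univ.erase j, l i ^ 4 with hs4
  have hr20 : 0 ≤ r2 := Finset.sum_nonneg fun i _ => sq_nonneg _
  set r := Real.sqrt r2 with hr
  have hr0 : 0 ≤ r := Real.sqrt_nonneg _
  have hrr : r ^ 2 = r2 := Real.sq_sqrt hr20
  have hlr : ∀ i ∈ Finset.univ.erase j, |l i| ≤ r := by
    intro i hi
    refine abs_le_of_sq_le_sq ?_ hr0 |> fun h => h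
    rw [hrr]
    exact Finset.single_le_sum (f := fun i => l i ^ 2) (fun i _ => sq_nonneg _) hi
  -- `|p3| ≤ |a| p2`
  have hp3a : |p3| ≤ |l j| * p2 := by
    rw [hp3, hp2, Finset.mul_sum]
    refine (Finset.abs_sum_le_sum_abs _ _).trans (Finset.sum_le_sum fun i _ => ?_)
    rw [abs_pow, ← sq_abs (l i)]
    calc |l i| ^ 3 = |l i| * |l i| ^ 2 := by ring
      _ ≤ |l j| * |l i| ^ 2 := mul_le_mul_of_nonneg_right (hj' i) (by positivity)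
  have hD : r2 * p2 ^ 2 ≤ p2 ^ 3 - p3 ^ 2 := by
    have h : p3 ^ 2 ≤ l j ^ 2 * p2 ^ 2 := by
      rw [← sq_abs p3, ← sq_abs (l j), ← mul_pow]
      exact pow_le_pow_left₀ (abs_nonneg _) hp3a 2
    have h' : r2 = p2 - l j ^ 2 := by rw [e2]; ring
    rw [h']; nlinarith
  have hD0 : 0 ≤ p2 ^ 3 - p3 ^ 2 := le_trans (by positivity) hD
  refine ⟨hD0, ?_⟩
  have hr4 : r2 ≤ 4 * (p2 ^ 3 - p3 ^ 2) := by
    have : (1 : ℝ) / 4 ≤ p2 ^ 2 := by nlinarith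
    nlinarith
  have ha : l j ^ 2 ≤ 2 := by rw [e2] at h2; linarith
  have hr22 : r ^ 2 ≤ 2 := by rw [hrr]; rw [e2] at h2; nlinarith [sq_nonneg (l j)]
  have h40 : 0 ≤ s4 := Finset.sum_nonneg fun i _ => by positivity
  have h4 : s4 ≤ r ^ 4 := by
    have : r ^ 4 = r ^ 2 * r2 := by rw [← hrr]; ring
    rw [this, hr2, hs4, Finset.mul_sum]
    refine Finset.sum_le_sum fun i hi => ?_
    have := pow_le_pow_left₀ (abs_nonneg _) (hlr i hi) 2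
    rw [sq_abs] at this
    calc l i ^ 4 = l i ^ 2 * l i ^ 2 := by ring
      _ ≤ r ^ 2 * l i ^ 2 := by gcongr
  have h3 : |s3| ≤ r ^ 3 := by
    have : r ^ 3 = r * r2 := by rw [← hrr]; ring
    rw [this, hr2, hs3, Finset.mul_sum]
    refine (Finset.abs_sum_le_sum_abs _ _).trans (Finset.sum_le_sum fun i hi => ?_)
    rw [abs_pow, ← sq_abs (l i)]
    calc |l i| ^ 3 = |l i| * |l i| ^ 2 := by ring
      _ ≤ r * |l i| ^ 2 := mul_le_mul_of_nonneg_right (hlr i hi) (by positivity)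
  have hE := est (l j) s4 s3 r hr0 hr22 ha h40 h4 h3
  rw [← e4, ← e3] at hE
  have hE2 : (p4 ^ 3 - p3 ^ 4) ^ 2 ≤ (600 * r ^ 3) ^ 2 := by
    rw [← sq_abs]; exact pow_le_pow_left₀ (abs_nonneg _) hE 2
  refine hE2.trans ?_
  have : (600 * r ^ 3) ^ 2 = 600 ^ 2 * r2 ^ 3 := by rw [← hrr]; ring
  rw [this]
  have h5 := pow_le_pow_left₀ hr20 hr4 3
  calc (600 : ℝ) ^ 2 * r2 ^ 3 ≤ 600 ^ 2 * (4 * (p2 ^ 3 - p3 ^ 2)) ^ 3 := by gcongr
    _ = 600 ^ 2 * 64 * (p2 ^ 3 - p3 ^ 2) ^ 3 := by ring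

end Pool.Agent.RRC
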