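import Pool.Agent.RRC.St1

/-!
# RRC, module Norm: normalisation of the inner product
-/

set_option autoImplicit false

noncomputable section

namespace Pool.Agent.RRC

namespace Norm

/-- an isometry with Euclidean space -/
theorem iso {V : Type} [AddCommGroup V] [Module ℝ V] [FiniteDimensional ℝ V]
    (B : V →ₗ[ℝ] V →ₗ[ℝ] ℝ) (hs : ∀ x y, B x y = B y x) (hp : ∀ v, v ≠ 0 → 0 < B v v) :
    ∃ φ : V ≃ₗ[ℝ] EuclideanSpace ℝ (Fin (Module.finrank ℝ V)),
      ∀ x y : V, inner ℝ (φ x) (φ y) = B x y := by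
  let core : InnerProductSpace.Core ℝ V :=
    { inner := fun x y => B x y
      conj_inner_symm := fun x y => by
        show B y x = B x y
        exact hs y x
      re_inner_nonneg := fun x => by
        show 0 ≤ B x x
        by_cases h : x = 0
        · rw [h, map_zero]
        · exact (hp x h).le
      add_left := fun x y z => by
        show B (x + y) z = B x z + B y z
        rw [map_add, LinearMap.add_apply]
      smul_left := fun x y r => by
        show B (r • x) y = r * B x y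
        rw [map_smul, LinearMap.smul_apply, smul_eq_mul]
      definite := fun x hx => by
        by_contra h
        exact (hp x h).ne' hx }
  let _ : NormedAddCommGroup V := core.toNormedAddCommGroup
  let _ : InnerProductSpace ℝ V := InnerProductSpace.ofCore core.toCore
  exact ⟨(stdOrthonormalBasis ℝ V).repr.toLinearEquiv,
    fun x y => (stdOrthonormalBasis ℝ V).repr.inner_map_map x y⟩

section

variable {V W : Type} [AddCommGroup V] [Module ℝ V] [AddCommGroup W] [Module ℝ W]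

/-- the transported product -/
def tp (m : V →ₗ[ℝ] V →ₗ[ℝ] V) (φ : V ≃ₗ[ℝ] W) : W →ₗ[ℝ] W →ₗ[ℝ] W :=
  (m.compl₁₂ (φ.symm : W →ₗ[ℝ] V) (φ.symm : W →ₗ[ℝ] V)).compr₂ (φ : V →ₗ[ℝ] W)

theorem tp_apply (m : V →ₗ[ℝ] V →ₗ[ℝ] V) (φ : V ≃ₗ[ℝ] W) (u v : W) :
    tp m φ u v = φ (m (φ.symm u) (φ.symm v)) := rfl

theorem tp_flip (m : V →ₗ[ℝ] V →ₗ[ℝ] V) (φ : V ≃ₗ[ℝ] W) (u : W) :
    (tp m φ).flip u = φ.conj (m.flip (φ.symm u)) := by
  ext v
  rfl

theorem tp_tr (m : V →ₗ[ℝ] V →ₗ[ℝ] V) (φ : V ≃ₗ[ℝ] W) (u : W) :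
    tr (tp m φ) u = tr m (φ.symm u) := by
  show LinearMap.trace ℝ W ((tp m φ).flip u) = LinearMap.trace ℝ V (m.flip (φ.symm u))
  rw [tp_flip, LinearMap.trace_conj']

theorem conj_pw (φ : V ≃ₗ[ℝ] W) (f : V →ₗ[ℝ] V) (k : ℕ) (v : W) :
    (φ.conj f ^ k) v = φ ((f ^ k) (φ.symm v)) := by
  induction k generalizing v with
  | zero =>
    rw [pow_zero, pow_zero, Module.End.one_apply, Module.End.one_apply, φ.apply_symm_apply]
  | succ k ih =>
    rw [pow_succ, pow_succ, Module.End.mul_apply, Module.End.mul_apply, ih, LinearEquiv.conj_apply,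
      LinearMap.comp_apply, LinearMap.comp_apply, LinearEquiv.coe_coe, LinearEquiv.coe_coe,
      φ.symm_apply_apply]

end

end Norm

open Pool.Agent.RRC.Norm in
theorem thm_Norm (hP1 : St_P1) (hK1 : St_K1) : St_Norm := by
  intro V _ _ _ m hL hR hN
  obtain ⟨φ, hφ⟩ := iso (m.compr₂ (tr m))
    (fun x y => ((hK1 V m hL).2.2.2.1 x y).2) (fun v hv => hP1 V m hL hR hN v hv)
  refine ⟨φ, tp m φ, ⟨fun a b x => ?_, fun x => ?_, ?_, fun x y => ?_⟩, fun a x => ?_⟩
  · simp only [tp_apply, φ.symm_apply_apply]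
    rw [← map_sub, ← map_sub, hL]
  · rw [tp_flip, LinearEquiv.charpoly_conj]
    exact hR _
  · obtain ⟨x, hx⟩ := hN
    refine ⟨φ x, fun v hv => ?_⟩
    have h1 : φ.symm v = 0 := by
      apply hx
      intro k
      have h2 := hv k
      rw [tp_flip, conj_pw, tp_tr, φ.symm_apply_apply, φ.symm_apply_apply] at h2
      exact h2
    rw [← φ.apply_symm_apply v, h1, map_zero]
  · have h1 := hφ (φ.symm x) (φ.symm y)
    rw [φ.apply_symm_apply, φ.apply_symm_apply] at h1
    rw [h1, tp_tr, tp_apply, φ.symm_apply_apply]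
    rfl
  · rw [tp_apply, φ.symm_apply_apply, φ.symm_apply_apply]

end Pool.Agent.RRC
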