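import Pool.Agent.RRC.St1

/-!
# RRC: the form `h(x, y) = tr R_(x * y)` is positive definite

Module P1: `thm_P1 : St_P1`.
-/

set_option autoImplicit false

noncomputable section

namespace Pool.Agent.RRC

open scoped Polynomial
open Polynomial

namespace P1

variable {V : Type} [AddCommGroup V] [Module ℝ V] [FiniteDimensional ℝ V]

/-- The power sums are the power sums of the roots. -/
theorem pw_eq (hTr : St_Tr) {T : V →ₗ[ℝ] V} (hT : T.charpoly.Splits) (k : ℕ) :
    LinearMap.trace ℝ V (T ^ k) = (T.charpoly.roots.map fun l => l ^ k).sum := by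
  have h := (hTr V T hT).1 (X ^ k)
  simpa using h

theorem sq_nonneg' (hTr : St_Tr) {T : V →ₗ[ℝ] V} (hT : T.charpoly.Splits) :
    0 ≤ LinearMap.trace ℝ V (T ^ 2) := by
  rw [pw_eq hTr hT]
  apply Multiset.sum_nonneg
  intro y hy
  obtain ⟨l, -, rfl⟩ := Multiset.mem_map.1 hy
  exact sq_nonneg l

/-- All roots are bounded in terms of the second power sum. -/
theorem root_le (hTr : St_Tr) {T : V →ₗ[ℝ] V} (hT : T.charpoly.Splits) {l : ℝ}
    (hl : l ∈ T.charpoly.roots) : |l| ≤ LinearMap.trace ℝ V (T ^ 2) + 1 := by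
  have h1 : l ^ 2 ≤ LinearMap.trace ℝ V (T ^ 2) := by
    rw [pw_eq hTr hT]
    refine Multiset.single_le_sum (fun y hy => ?_) _ (Multiset.mem_map_of_mem _ hl)
    obtain ⟨l, -, rfl⟩ := Multiset.mem_map.1 hy
    exact sq_nonneg l
  have h0 := sq_nonneg' hTr hT
  apply abs_le_of_sq_le_sq _ (by linarith)
  nlinarith

theorem pw_le (hTr : St_Tr) {T : V →ₗ[ℝ] V} (hT : T.charpoly.Splits) (k : ℕ) :
    |LinearMap.trace ℝ V (T ^ k)| ≤
      Module.finrank ℝ V * (LinearMap.trace ℝ V (T ^ 2) + 1) ^ k := by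
  have h0 := sq_nonneg' hTr hT
  rw [pw_eq hTr hT k]
  have h1 := Multiset.abs_sum_le_sum_abs (s := T.charpoly.roots.map fun l => l ^ k)
  have h2 : (((T.charpoly.roots.map fun l => l ^ k).map abs).sum) ≤
      Multiset.card ((T.charpoly.roots.map fun l => l ^ k).map abs) •
        (LinearMap.trace ℝ V (T ^ 2) + 1) ^ k := by
    apply Multiset.sum_le_card_nsmul
    intro y hy
    obtain ⟨z, hz, rfl⟩ := Multiset.mem_map.1 hy
    obtain ⟨l, hl, rfl⟩ := Multiset.mem_map.1 hz
    rw [abs_pow]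
    exact pow_le_pow_left₀ (abs_nonneg l) (root_le hTr hT hl) k
  refine (h1.trans h2).trans ?_
  rw [Multiset.card_map, Multiset.card_map, nsmul_eq_mul]
  apply mul_le_mul_of_nonneg_right _ (pow_nonneg (by linarith) k)
  have h3 := Polynomial.card_roots' T.charpoly
  rw [LinearMap.charpoly_natDegree] at h3
  exact_mod_cast h3

/-- A bounded polynomial is constant. -/
theorem const_of_bdd {q : ℝ[X]} {B : ℝ} (h : ∀ e : ℝ, |q.eval e| ≤ B) :
    ∃ a : ℝ, ∀ e : ℝ, q.eval e = a := by
  have h1 : Filter.IsBoundedUnder (· ≤ ·) Filter.atTop fun x : ℝ => |q.eval x| :=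
    Filter.isBoundedUnder_of ⟨B, h⟩
  rw [Polynomial.isBoundedUnder_abs_atTop_iff] at h1
  have h2 := Polynomial.eq_C_of_degree_le_zero h1
  exact ⟨q.coeff 0, fun e => by rw [h2]; simp⟩

end P1

theorem thm_P1 (hTr : St_Tr) (hDT : St_DT) (hK1 : St_K1) : St_P1 := by
  intro V _ _ _ m hL hR hN v hv
  obtain ⟨-, k2, -, k4, -⟩ := hK1 V m hL
  have hpos : ∀ u : V, 0 ≤ tr m (m u u) := fun u => by
    rw [(k4 u u).1, ← pow_two]
    exact P1.sq_nonneg' hTr (hR u)
  rcases (hpos v).lt_or_eq with h | h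
  · exact h
  exfalso
  have h0 : tr m (m v v) = 0 := h.symm
  -- Cauchy-Schwarz
  have h1 : ∀ u : V, tr m (m u v) = 0 := by
    intro u
    have h2 : ∀ e : ℝ, 0 ≤ tr m (m u u) + 2 * e * tr m (m u v) := by
      intro e
      have h3 := hpos (u + e • v)
      have h4 : tr m (m (u + e • v) (u + e • v)) =
          tr m (m u u) + 2 * e * tr m (m u v) := by
        simp only [map_add, map_smul, LinearMap.add_apply, LinearMap.smul_apply, smul_eq_mul,
          h0, (k4 v u).2]
        ring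
      rw [h4] at h3
      exact h3
    by_contra h5
    have h6 := h2 (-(tr m (m u u) + 1) / (2 * tr m (m u v)))
    have h7 : 2 * (-(tr m (m u u) + 1) / (2 * tr m (m u v))) * tr m (m u v) =
        -(tr m (m u u) + 1) := by
      field_simp
    rw [h7] at h6
    linarith
  obtain ⟨x, hx⟩ := hN
  apply hv
  apply hx
  intro k
  -- the second power sum is constant on the line
  have h2 : ∀ e : ℝ, LinearMap.trace ℝ V (m.flip (x + e • v) ^ 2) = tr m (m x x) := by
    intro e
    rw [pow_two, ← (k4 _ _).1]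
    simp only [map_add, map_smul, LinearMap.add_apply, LinearMap.smul_apply, smul_eq_mul,
      h0, (k4 v x).2, h1 x]
    ring
  have h3 : ∀ e : ℝ, m.flip (x + e • v) = m.flip x + e • m.flip v := fun e => by
    rw [map_add, map_smul]
  obtain ⟨hd, hq⟩ := hDT V (m.flip x) (m.flip v)
  obtain ⟨q, hq⟩ := hq (X ^ (k + 1))
  have h4 : ∀ e : ℝ, |q.eval e| ≤ Module.finrank ℝ V * (tr m (m x x) + 1) ^ (k + 1) := by
    intro e
    rw [← hq e, ← h3 e, map_pow, aeval_X, ← h2 e]
    exact P1.pw_le hTr (hR _) (k + 1)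
  obtain ⟨a, ha⟩ := P1.const_of_bdd h4
  have h5 := hd (X ^ (k + 1)) 0
  have h6 : (fun r : ℝ => LinearMap.trace ℝ V (aeval (m.flip x + r • m.flip v)
      (X ^ (k + 1) : ℝ[X]))) = fun _ => a := by
    funext r
    rw [hq r, ha r]
  rw [h6] at h5
  have h7 := h5.unique (hasDerivAt_const (0 : ℝ) a)
  have h8 : aeval (m.flip x) (derivative (X ^ (k + 1) : ℝ[X])) * m.flip v =
      ((k : ℝ) + 1) • (m.flip x ^ k * m.flip v) := by
    rw [derivative_X_pow, ← smul_eq_C_mul, map_smul, map_pow, aeval_X, smul_mul_assoc,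
      Nat.add_sub_cancel]
    push_cast
    rfl
  rw [zero_smul, add_zero, h8, map_smul, k2 k x v, smul_eq_mul] at h7
  rcases mul_eq_zero.1 h7 with h9 | h9
  · exact absurd h9 (by positivity)
  · exact h9

end Pool.Agent.RRC
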