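import Pool.Agent.RRC.St1

/-!
# RRC [P2]: derivations vanish
-/

set_option autoImplicit false

noncomputable section

namespace Pool.Agent.RRC

/-- at a nondegenerate point a derivation vanishes -/
theorem P2.point (hK1 : St_K1) {V : Type} [AddCommGroup V] [Module ℝ V] [FiniteDimensional ℝ V]
    (m : V →ₗ[ℝ] V →ₗ[ℝ] V) (hL : LSA m) (S : V →ₗ[ℝ] V)
    (hS : ∀ a b : V, S (m a b) = m (S a) b + m a (S b)) (x : V) (hx : NDat m x) : S x = 0 := by
  refine hx (S x) fun k => ?_
  rw [← (hK1 V m hL).2.1 k x (S x)]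
  have h1 : m.flip (S x) = S * m.flip x - m.flip x * S := by
    refine LinearMap.ext fun a => ?_
    change m a (S x) = S (m a x) - m (S a) x
    rw [hS, add_sub_cancel_left]
  rw [h1, mul_sub, map_sub, ← mul_assoc, LinearMap.trace_mul_comm ℝ (m.flip x ^ k * S) (m.flip x),
    ← mul_assoc, ← mul_assoc, (Commute.self_pow (m.flip x) k).eq, sub_self]

/-- **P2** -/
theorem thm_P2 (hK1 : St_K1) (hNDo : St_NDo) : St_P2 := by
  intro V _ _ _ m hL hND S hS
  obtain ⟨x, hx⟩ := hND
  refine LinearMap.ext fun v => ?_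
  obtain ⟨d, hd, h⟩ := (hNDo V m x hx v).1
  have h1 := P2.point hK1 m hL S hS x hx
  have h2 := P2.point hK1 m hL S hS (x + (d / 2) • v)
    (h (d / 2) (by rw [abs_of_pos (by positivity)]; linarith))
  rw [map_add, h1, zero_add, map_smul, smul_eq_zero] at h2
  rcases h2 with h2 | h2
  · exact absurd h2 (by positivity)
  · exact h2

end Pool.Agent.RRC
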