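import Pool.Agent.RRC.St1

/-!
# RRC [P3]: simple roots at a nondegenerate point (helper70)
-/

set_option autoImplicit false

noncomputable section

namespace Pool.Agent.RRC

open scoped Polynomial
open Polynomial

namespace P3

variable {V : Type} [AddCommGroup V] [Module ℝ V]

/-- (a): polynomials in `R_x` killed by the functional vanish -/
theorem aeval_eq_zero {m : V →ₗ[ℝ] V →ₗ[ℝ] V} {x : V} (hx : NDat m x) (g : ℝ[X])
    (hg : ∀ v : V, tr m (aeval (m.flip x) g v) = 0) : aeval (m.flip x) g = 0 := by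
  ext v
  apply hx
  intro k
  have h1 : (m.flip x ^ k) (aeval (m.flip x) g v) = aeval (m.flip x) g ((m.flip x ^ k) v) := by
    have h2 : m.flip x ^ k * aeval (m.flip x) g = aeval (m.flip x) g * m.flip x ^ k := by
      have h3 : m.flip x ^ k = aeval (m.flip x) (X ^ k : ℝ[X]) := by
        rw [map_pow, aeval_X]
      rw [h3, ← map_mul, ← map_mul, mul_comm]
    exact congrArg (fun S : V →ₗ[ℝ] V => S v) h2
  rw [h1]
  exact hg _

/-- (b): the minimal polynomial is the characteristic polynomial -/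
theorem minpoly_eq [FiniteDimensional ℝ V] {m : V →ₗ[ℝ] V →ₗ[ℝ] V} {x : V} (hx : NDat m x) :
    minpoly ℝ (m.flip x) = (m.flip x).charpoly := by
  set T : V →ₗ[ℝ] V := m.flip x with hT
  have hint : IsIntegral ℝ T := Algebra.IsIntegral.isIntegral T
  have hmon : (minpoly ℝ T).Monic := minpoly.monic hint
  refine (eq_of_monic_of_dvd_of_natDegree_le hmon T.charpoly_monic
    (LinearMap.minpoly_dvd_charpoly T) ?_).symm
  rw [LinearMap.charpoly_natDegree]
  let Φ : V →ₗ[ℝ] (Fin (minpoly ℝ T).natDegree → ℝ) :=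
    LinearMap.pi fun k => (tr m).comp (T ^ (k : ℕ))
  have hΦ : Function.Injective Φ := by
    rw [← LinearMap.ker_eq_bot, LinearMap.ker_eq_bot']
    intro v hv
    by_cases h5 : minpoly ℝ T = 1
    · have h6 := minpoly.aeval ℝ T
      rw [h5, map_one] at h6
      exact congrArg (fun S : V →ₗ[ℝ] V => S v) h6
    apply hx
    intro k
    have h1 : T ^ k = aeval T ((X ^ k : ℝ[X]) %ₘ minpoly ℝ T) := by
      have h2 := modByMonic_add_div (X ^ k : ℝ[X]) (minpoly ℝ T)
      have h3 := congrArg (aeval T) h2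
      rw [map_add, map_mul, minpoly.aeval, zero_mul, add_zero, map_pow, aeval_X] at h3
      exact h3.symm
    rw [← hT, h1, aeval_eq_sum_range' (natDegree_modByMonic_lt _ hmon h5), LinearMap.sum_apply,
      map_sum]
    refine Finset.sum_eq_zero fun i hi => ?_
    rw [LinearMap.smul_apply, map_smul]
    have h4 : tr m ((T ^ i) v) = 0 := congrFun hv ⟨i, Finset.mem_range.1 hi⟩
    rw [h4, smul_zero]
  have h7 := LinearMap.finrank_le_finrank_of_injective hΦ
  rw [Module.finrank_fin_fun] at h7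
  exact h7

end P3

open P3

theorem thm_P3 (hTr : St_Tr) (hDT : St_DT) (hK1 : St_K1) : St_P3 := by
  intro V _ _ _ m hL hR x hx
  refine ⟨?_, minpoly_eq hx⟩
  set T : V →ₗ[ℝ] V := m.flip x with hT
  set s : Finset ℝ := T.charpoly.roots.toFinset with hs
  set ρ : ℝ[X] := ∏ l ∈ s, (X - C l) with hρ
  -- the derivative of the trace vanishes
  have hder : ∀ v : V, tr m (aeval T (derivative (ρ ^ 2)) v) = 0 := by
    intro v
    have h1 := (hDT V T (m.flip v)).1 (ρ ^ 2) 0
    rw [zero_smul, add_zero, (hK1 V m hL).2.2.1] at h1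
    refine IsLocalMin.hasDerivAt_eq_zero (Filter.Eventually.of_forall fun e => ?_) h1
    have h2 : T + e • m.flip v = m.flip (x + e • v) := by
      rw [map_add, map_smul]
    have h3 : T + (0 : ℝ) • m.flip v = T := by rw [zero_smul, add_zero]
    show LinearMap.trace ℝ V (aeval (T + (0 : ℝ) • m.flip v) (ρ ^ 2)) ≤
      LinearMap.trace ℝ V (aeval (T + e • m.flip v) (ρ ^ 2))
    rw [h2, h3, (hTr V T (hR x)).1, (hTr V (m.flip (x + e • v)) (hR _)).1]
    have h4 : (T.charpoly.roots.map fun l => (ρ ^ 2).eval l).sum = 0 := by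
      apply Multiset.sum_eq_zero
      intro y hy
      obtain ⟨l, hl, rfl⟩ := Multiset.mem_map.1 hy
      have hl' : l ∈ s := by rw [hs, Multiset.mem_toFinset]; exact hl
      rw [eval_pow, hρ, eval_prod, Finset.prod_eq_zero hl' (by simp)]
      ring
    rw [h4]
    apply Multiset.sum_nonneg
    intro y hy
    obtain ⟨l, hl, rfl⟩ := Multiset.mem_map.1 hy
    rw [eval_pow]
    exact sq_nonneg _
  have hz := aeval_eq_zero hx _ hder
  have hdvd : T.charpoly ∣ derivative (ρ ^ 2) := by
    rw [← minpoly_eq hx]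
    exact minpoly.dvd _ _ hz
  rw [Multiset.nodup_iff_count_le_one]
  intro l
  by_contra hcon
  push Not at hcon
  rw [count_roots] at hcon
  have h5 : (X - C l) ^ 2 ∣ T.charpoly :=
    (le_rootMultiplicity_iff T.charpoly_monic.ne_zero).1 hcon
  have hls : l ∈ s := by
    rw [hs, Multiset.mem_toFinset, mem_roots T.charpoly_monic.ne_zero, ← dvd_iff_isRoot]
    exact (dvd_pow_self _ two_ne_zero).trans h5
  set ρ1 : ℝ[X] := ∏ k ∈ s.erase l, (X - C k) with hρ1
  have h6 : ρ = (X - C l) * ρ1 := (Finset.mul_prod_erase s (fun k => X - C k) hls).symm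
  have h7 : derivative (ρ ^ 2) = (X - C l) * (C 2 * ρ1 * derivative ρ) := by
    rw [derivative_pow]
    simp only [Nat.cast_ofNat, Nat.add_one_sub_one, pow_one]
    nth_rewrite 1 [h6]
    ring
  have h8 : (X - C l) ∣ C 2 * ρ1 * derivative ρ := by
    have h9 := h5.trans hdvd
    rw [h7, pow_two] at h9
    exact (mul_dvd_mul_iff_left (X_sub_C_ne_zero l)).1 h9
  rw [dvd_iff_isRoot, IsRoot.def] at h8
  have h10 : (derivative ρ).eval l = ρ1.eval l := by
    rw [h6, derivative_mul]
    simp
  have h11 : ρ1.eval l ≠ 0 := by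
    rw [hρ1, eval_prod, Finset.prod_ne_zero_iff]
    intro k hk
    rw [eval_sub, eval_X, eval_C, sub_ne_zero]
    exact (Finset.ne_of_mem_erase hk).symm
  rw [eval_mul, eval_mul, eval_C, h10] at h8
  rcases mul_eq_zero.1 h8 with h12 | h12
  · rcases mul_eq_zero.1 h12 with h13 | h13
    · norm_num at h13
    · exact h11 h13
  · exact h11 h12

end Pool.Agent.RRC
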