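import Pool.Agent.RRC.St1

/-!
# RRC, R1: the Riccati flow
-/

set_option autoImplicit false

noncomputable section

namespace Pool.Agent.RRC

open Set

namespace R1

theorem flip_smul {V : Type} [AddCommGroup V] [Module ℝ V] (m : V →ₗ[ℝ] V →ₗ[ℝ] V) (c : ℝ)
    (x y : V) : m (c • x) y = m x (c • y) := by
  rw [map_smul, map_smul, LinearMap.smul_apply]

end R1

theorem thm_R1 (hDF : St_DF) : St_R1 := by
  intro V _ _ _ m hm x
  obtain ⟨dP, h1, h2, h3⟩ := hDF V m hm
  have hb : ContDiff ℝ 1 (fun z : V × ℝ => ((m z.1 z.1, tr m z.1 * z.2) : V × ℝ)) := by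
    have e1 : ContDiff ℝ 1 (fun z : V × ℝ => m z.1 z.1) := by
      let B : V →L[ℝ] V →L[ℝ] V :=
        LinearMap.toContinuousLinearMap ((LinearMap.toContinuousLinearMap :
          (V →ₗ[ℝ] V) ≃ₗ[ℝ] (V →L[ℝ] V)).toLinearMap ∘ₗ m)
      have : (fun z : V × ℝ => m z.1 z.1) = fun z : V × ℝ => B z.1 z.1 := rfl
      rw [this]
      exact (B.contDiff.comp contDiff_fst).clm_apply contDiff_fst
    have e2 : ContDiff ℝ 1 (fun z : V × ℝ => tr m z.1 * z.2) :=
      ((LinearMap.toContinuousLinearMap (tr m)).contDiff.comp contDiff_fst).mul contDiff_snd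
    exact e1.prodMk e2
  obtain ⟨al, hal0, ε, hε, hal⟩ :=
    (hb.contDiffAt (x := ((x, 1) : V × ℝ))).exists_forall_mem_closedBall_exists_eq_forall_mem_Ioo_hasDerivAt₀ 0
  simp only [zero_sub, zero_add] at hal
  have hE0 : ∀ᶠ r in nhds (0 : ℝ), 0 < (al r).2 := by
    have hc : ContinuousAt (fun r => (al r).2) 0 :=
      continuous_snd.continuousAt.comp (hal 0 ⟨by linarith, hε⟩).continuousAt
    have h01 : (0 : ℝ) < (al 0).2 := by
      rw [hal0]
      exact one_pos
    exact hc.eventually (lt_mem_nhds h01)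
  obtain ⟨d, hd, hd2⟩ := Metric.eventually_nhds_iff.1 hE0
  have hy : ∀ r ∈ Ioo (-(min ε d)) (min ε d), HasDerivAt (fun r => (al r).1)
      (m (al r).1 (al r).1) r ∧ HasDerivAt (fun r => (al r).2) (tr m (al r).1 * (al r).2) r ∧
      0 < (al r).2 := by
    intro r hr
    have hr1 : r ∈ Ioo (-ε) ε := ⟨by
      have := min_le_left ε d
      linarith [hr.1], lt_of_lt_of_le hr.2 (min_le_left _ _)⟩
    have h := hal r hr1
    have ha : HasDerivAt (Prod.fst ∘ al) (m (al r).1 (al r).1) r :=
      (hasFDerivAt_fst (𝕜 := ℝ) (p := al r)).comp_hasDerivAt r h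
    have hb : HasDerivAt (Prod.snd ∘ al) (tr m (al r).1 * (al r).2) r :=
      (hasFDerivAt_snd (𝕜 := ℝ) (p := al r)).comp_hasDerivAt r h
    refine ⟨ha, hb, hd2 ?_⟩
    rw [Real.dist_eq, sub_zero, abs_lt]
    exact ⟨by
      have := min_le_right ε d
      linarith [hr.1], lt_of_lt_of_le hr.2 (min_le_right _ _)⟩
  have hpos : 0 < min ε d := lt_min hε hd
  have h0mem : (0 : ℝ) ∈ Ioo (-(min ε d)) (min ε d) := ⟨by linarith, hpos⟩
  -- the main computation
  have key : ∀ e0 : ℝ, ∀ r ∈ Ioo (-(min ε d)) (min ε d),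
      FF m ((e0 - r) • (al r).1) = (al r).2 * FF m (e0 • x) := by
    intro e0 r hr
    have hG : ∀ r ∈ Ioo (-(min ε d)) (min ε d),
        HasDerivAt (fun r => FF m ((e0 - r) • (al r).1))
          (tr m (al r).1 * FF m ((e0 - r) • (al r).1)) r := by
      intro r hr
      obtain ⟨ha, -, -⟩ := hy r hr
      have hz : HasDerivAt (fun r => (e0 - r) • (al r).1)
          ((e0 - r) • (m (al r).1 (al r).1) + (-1 : ℝ) • (al r).1) r :=
        ((hasDerivAt_id r).const_sub e0).smul ha
      have hF := h1 1 _ _ r hz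
      have e : dP 1 ((e0 - r) • (al r).1)
          ((e0 - r) • (m (al r).1 (al r).1) + (-1 : ℝ) • (al r).1) =
          tr m (al r).1 * FF m ((e0 - r) • (al r).1) := by
        rw [map_add, map_smul, map_smul]
        have h4 := h2 1 ((e0 - r) • (al r).1) (al r).1
        rw [map_smul, map_smul] at h4
        rw [h4]
        simp only [FF, smul_eq_mul]
        ring
      rw [e] at hF
      exact hF
    have hq : ∀ r ∈ Ioo (-(min ε d)) (min ε d),
        HasDerivAt (fun r => FF m ((e0 - r) • (al r).1) / (al r).2) 0 r := by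
      intro r hr
      obtain ⟨-, hb, hc⟩ := hy r hr
      have h5 := (hG r hr).div hb hc.ne'
      have h6 : (tr m (al r).1 * FF m ((e0 - r) • (al r).1) * (al r).2 -
          FF m ((e0 - r) • (al r).1) * (tr m (al r).1 * (al r).2)) / (al r).2 ^ 2 = 0 := by
        rw [div_eq_zero_iff]
        left
        ring
      rw [h6] at h5
      exact h5
    have hconst := (isOpen_Ioo (a := -(min ε d)) (b := min ε d)).is_const_of_deriv_eq_zero
      isPreconnected_Ioo (fun r hr => (hq r hr).differentiableAt.differentiableWithinAt)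
      (fun r hr => (hq r hr).deriv) hr h0mem
    rw [hal0] at hconst
    simp only [sub_zero, div_one] at hconst
    have hc := (hy r hr).2.2
    rw [div_eq_iff hc.ne'] at hconst
    rw [hconst, mul_comm]
  have hF0 : FF m (0 : V) = 1 := by
    have h4 := key 0 0 h0mem
    have h5 : FF m (0 : V) = 1 := by
      simp only [FF, map_zero]
      have : (0 : V →ₗ[ℝ] V).charpoly = Polynomial.X ^ Module.finrank ℝ V :=
        LinearMap.charpoly_zero
      rw [this]
      simp
    exact h5
  refine ⟨min ε d, fun r => (al r).1, hpos, congrArg Prod.fst hal0, fun r hr => ?_⟩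
  have hr' : r ∈ Ioo (-(min ε d)) (min ε d) := abs_lt.1 hr
  obtain ⟨ha, -, hc⟩ := hy r hr'
  have hk := key r r hr'
  rw [sub_self, zero_smul, hF0] at hk
  have hFr : FF m (r • x) = 1 / (al r).2 := by
    rw [eq_div_iff hc.ne', mul_comm]
    exact hk.symm
  refine ⟨ha, by rw [hFr]; positivity, fun e => ?_⟩
  have hk2 := key (r + e) r hr'
  rw [add_sub_cancel_left] at hk2
  rw [hk2, hFr]
  field_simp

end Pool.Agent.RRC
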