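import Pool.Agent.RRC.St1

/-!
# RRC, module Tr: traces and determinants in terms of the eigenvalues (MP_835236_al)

For a real operator with split characteristic polynomial. The traces of the powers come from the
decomposition into the generalized eigenspaces, whose dimensions are the root multiplicities.
-/

set_option autoImplicit false

noncomputable section

namespace Pool.Agent.RRC

open scoped Polynomial
open Polynomial

namespace Tr

open Module

/-- The trace of `f ^ n` when `f - μ` is nilpotent. -/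
theorem trace_pow_of_nilpotent {V : Type} [AddCommGroup V] [Module ℝ V] [FiniteDimensional ℝ V]
    (f : Module.End ℝ V) (μ : ℝ) (hf : IsNilpotent (f - algebraMap ℝ _ μ)) (n : ℕ) :
    LinearMap.trace ℝ V (f ^ n) = (finrank ℝ V : ℝ) * μ ^ n := by
  induction n with
  | zero => simp
  | succ n ih =>
    have hc : Commute (f ^ n) f := (Commute.refl f).pow_left n
    have h := LinearMap.trace_comp_eq_mul_of_commute_of_isNilpotent (f := f ^ n) (g := f) μ hc hf
    rw [pow_succ]
    change LinearMap.trace ℝ V ((f ^ n) ∘ₗ f) = _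
    rw [h, ih]
    ring

/-- The generalized eigenspaces of an operator with split characteristic polynomial. -/
theorem internal {V : Type} [AddCommGroup V] [Module ℝ V] [FiniteDimensional ℝ V]
    (f : Module.End ℝ V) (hf : f.charpoly.Splits) :
    DirectSum.IsInternal (fun μ : f.charpoly.roots.toFinset => f.maxGenEigenspace (μ : ℝ)) := by
  classical
  have hind : iSupIndep (fun μ : f.charpoly.roots.toFinset => f.maxGenEigenspace (μ : ℝ)) :=
    f.independent_maxGenEigenspace.comp Subtype.val_injective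
  have hinj := hind.dfinsupp_lsum_injective
  have hfr : finrank ℝ (DirectSum f.charpoly.roots.toFinset
      (fun μ => f.maxGenEigenspace (μ : ℝ))) = finrank ℝ V := by
    rw [Module.finrank_directSum]
    have h1 : ∀ μ : f.charpoly.roots.toFinset, finrank ℝ (f.maxGenEigenspace (μ : ℝ)) =
        f.charpoly.roots.count (μ : ℝ) := fun μ => by
      rw [LinearMap.finrank_maxGenEigenspace_eq, count_roots]
    simp only [h1]
    rw [Finset.sum_coe_sort f.charpoly.roots.toFinset (fun μ => f.charpoly.roots.count μ),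
      Multiset.toFinset_sum_count_eq, ← LinearMap.charpoly_natDegree f]
    exact (splits_iff_card_roots.1 hf)
  refine ⟨hinj, ?_⟩
  exact (LinearMap.injective_iff_surjective_of_finrank_eq_finrank hfr).1 hinj

theorem trace_pow {V : Type} [AddCommGroup V] [Module ℝ V] [FiniteDimensional ℝ V]
    (f : Module.End ℝ V) (hf : f.charpoly.Splits) (n : ℕ) :
    LinearMap.trace ℝ V (f ^ n) = (f.charpoly.roots.map fun l => l ^ n).sum := by
  classical
  have hcomm : Commute f (f ^ n) := (Commute.refl f).pow_right n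
  have hmaps : ∀ μ : f.charpoly.roots.toFinset,
      Set.MapsTo (f ^ n) (f.maxGenEigenspace (μ : ℝ)) (f.maxGenEigenspace (μ : ℝ)) := fun μ =>
    f.mapsTo_maxGenEigenspace_of_comm hcomm μ
  rw [LinearMap.trace_eq_sum_trace_restrict (internal f hf) hmaps]
  have h1 : ∀ μ : f.charpoly.roots.toFinset,
      LinearMap.trace ℝ (f.maxGenEigenspace (μ : ℝ)) ((f ^ n).restrict (hmaps μ)) =
        (f.charpoly.roots.count (μ : ℝ) : ℝ) * (μ : ℝ) ^ n := fun μ => by
    have h2 : Set.MapsTo f (f.maxGenEigenspace (μ : ℝ)) (f.maxGenEigenspace (μ : ℝ)) :=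
      f.mapsTo_maxGenEigenspace_of_comm (Commute.refl f) μ
    have h3 : (f ^ n).restrict (hmaps μ) = (f.restrict h2) ^ n :=
      (Module.End.pow_restrict n h2 (hmaps μ)).symm
    rw [h3, count_roots, ← LinearMap.finrank_maxGenEigenspace_eq]
    exact trace_pow_of_nilpotent _ μ (f.isNilpotent_restrict_maxGenEigenspace_sub_algebraMap μ) n
  simp only [h1]
  rw [Finset.sum_coe_sort f.charpoly.roots.toFinset
    (fun μ => (f.charpoly.roots.count μ : ℝ) * μ ^ n), Finset.sum_multiset_map_count]
  simp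

/-- (1): the trace of a polynomial. -/
theorem trace_aeval {V : Type} [AddCommGroup V] [Module ℝ V] [FiniteDimensional ℝ V]
    (f : Module.End ℝ V) (hf : f.charpoly.Splits) (g : ℝ[X]) :
    LinearMap.trace ℝ V (aeval f g) = (f.charpoly.roots.map fun l => g.eval l).sum := by
  induction g using Polynomial.induction_on' with
  | add p q hp hq =>
    rw [map_add, map_add, hp, hq, ← Multiset.sum_map_add]
    simp only [eval_add]
  | monomial k a =>
    rw [aeval_monomial, ← Algebra.smul_def, map_smul, trace_pow f hf k, smul_eq_mul,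
      ← Multiset.sum_map_mul_left]
    simp only [eval_monomial]

/-- The characteristic polynomial at `x ≠ 0` from the one of `(1 / x) • f` at `1`. -/
theorem eval_smul {V : Type} [AddCommGroup V] [Module ℝ V] [FiniteDimensional ℝ V]
    (f : Module.End ℝ V) (e : ℝ) (he : e ≠ 0) :
    ((e • f : Module.End ℝ V).charpoly).eval 1 = e ^ finrank ℝ V * f.charpoly.eval e⁻¹ := by
  rw [LinearMap.eval_charpoly, LinearMap.eval_charpoly]
  have h1 : (algebraMap ℝ (Module.End ℝ V) 1 - e • f) = e • (algebraMap ℝ (Module.End ℝ V) e⁻¹ - f) := by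
    rw [smul_sub, Algebra.algebraMap_eq_smul_one, Algebra.algebraMap_eq_smul_one, smul_smul,
      mul_inv_cancel₀ he]
  rw [h1, LinearMap.det_smul]

theorem eval_zero {V : Type} [AddCommGroup V] [Module ℝ V] [FiniteDimensional ℝ V]
    (f : Module.End ℝ V) : (((0 : ℝ) • f : Module.End ℝ V).charpoly).eval 1 = 1 := by
  rw [LinearMap.eval_charpoly, zero_smul, sub_zero, map_one, map_one]

/-- (3), the direction from the polynomial, for any product. -/
theorem eval_of_prod {V : Type} [AddCommGroup V] [Module ℝ V] [FiniteDimensional ℝ V]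
    (f : Module.End ℝ V) (mu : Fin (finrank ℝ V) → ℝ)
    (h : f.charpoly = ∏ i, (X - C (mu i))) (e : ℝ) :
    ((e • f : Module.End ℝ V).charpoly).eval 1 = ∏ i, (1 - e * mu i) := by
  rcases eq_or_ne e 0 with rfl | he
  · rw [eval_zero]
    simp
  · rw [eval_smul f e he, h, eval_prod]
    have h1 : e ^ finrank ℝ V = ∏ _i : Fin (finrank ℝ V), e := by simp
    rw [h1, ← Finset.prod_mul_distrib]
    refine Finset.prod_congr rfl fun i _ => ?_
    simp only [eval_sub, eval_X, eval_C]
    rw [mul_sub, mul_inv_cancel₀ he]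

theorem prod_of_eval {V : Type} [AddCommGroup V] [Module ℝ V] [FiniteDimensional ℝ V]
    (f : Module.End ℝ V) (mu : Fin (finrank ℝ V) → ℝ)
    (h : ∀ e : ℝ, ((e • f : Module.End ℝ V).charpoly).eval 1 = ∏ i, (1 - e * mu i)) :
    f.charpoly = ∏ i, (X - C (mu i)) := by
  have hinf : {x : ℝ | x ≠ 0}.Infinite := by
    have : {x : ℝ | x ≠ 0} = ({0} : Set ℝ)ᶜ := by ext; simp
    rw [this]
    exact (Set.finite_singleton 0).infinite_compl
  refine Polynomial.eq_of_infinite_eval_eq _ _ (hinf.mono fun x hx => ?_)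
  have hx0 : x ≠ 0 := hx
  have h1 := h x⁻¹
  rw [eval_smul f x⁻¹ (inv_ne_zero hx0), inv_inv] at h1
  have h2 : (x⁻¹) ^ finrank ℝ V * (∏ i, (X - C (mu i))).eval x = ∏ i, (1 - x⁻¹ * mu i) := by
    have h3 : (x⁻¹) ^ finrank ℝ V = ∏ _i : Fin (finrank ℝ V), x⁻¹ := by simp
    rw [h3, eval_prod, ← Finset.prod_mul_distrib]
    refine Finset.prod_congr rfl fun i _ => ?_
    simp only [eval_sub, eval_X, eval_C]
    rw [mul_sub, inv_mul_cancel₀ hx0]
  have h4 : (x⁻¹) ^ finrank ℝ V ≠ 0 := pow_ne_zero _ (inv_ne_zero hx0)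
  exact mul_left_cancel₀ h4 (h1.trans h2.symm)

/-- A list of the roots. -/
theorem exists_mu {V : Type} [AddCommGroup V] [Module ℝ V] [FiniteDimensional ℝ V]
    (f : Module.End ℝ V) (hf : f.charpoly.Splits) :
    ∃ mu : Fin (finrank ℝ V) → ℝ, f.charpoly.roots = Finset.univ.val.map mu ∧
      f.charpoly = ∏ i, (X - C (mu i)) := by
  have hc : f.charpoly.roots.card = finrank ℝ V := by
    rw [← LinearMap.charpoly_natDegree f]
    exact (splits_iff_card_roots.1 hf)
  have hex : ∀ (n : ℕ) (R : Multiset ℝ), R.card = n →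
      ∃ mu : Fin n → ℝ, R = Finset.univ.val.map mu := by
    intro n R
    refine Quotient.inductionOn R fun L hL => ?_
    have hL' : L.length = n := by simpa using hL
    subst hL'
    refine ⟨L.get, ?_⟩
    rw [Fin.univ_val_map, List.ofFn_get]
    rfl
  obtain ⟨mu, hmu⟩ := hex _ _ hc
  refine ⟨mu, hmu, ?_⟩
  have h1 := hf.eq_prod_roots_of_monic (LinearMap.charpoly_monic f)
  rw [h1, hmu, Multiset.map_map]
  rfl

/-- Real numbers with the power sums `1, 1, 1`. -/
theorem ones {n : ℕ} (mu : Fin n → ℝ) (h1 : ∑ i, mu i = 1) (h2 : ∑ i, mu i ^ 2 = 1)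
    (h3 : ∑ i, mu i ^ 3 = 1) : ∃ i0, mu i0 = 1 ∧ ∀ j, j ≠ i0 → mu j = 0 := by
  have hle : ∀ i, mu i ≤ 1 := fun i => by
    have h4 : mu i ^ 2 ≤ 1 := by
      rw [← h2]
      exact Finset.single_le_sum (f := fun i => mu i ^ 2) (fun j _ => sq_nonneg (mu j))
        (Finset.mem_univ i)
    nlinarith [sq_nonneg (mu i - 1)]
  have hz : ∀ i, mu i ^ 2 * (1 - mu i) = 0 := by
    have h5 : ∑ i, mu i ^ 2 * (1 - mu i) = 0 := by
      have h6 : ∀ i, mu i ^ 2 * (1 - mu i) = mu i ^ 2 - mu i ^ 3 := fun i => by ring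
      simp only [h6]
      rw [Finset.sum_sub_distrib, h2, h3, sub_self]
    have h7 := (Finset.sum_eq_zero_iff_of_nonneg (fun i _ =>
      mul_nonneg (sq_nonneg (mu i)) (sub_nonneg.2 (hle i)))).1 h5
    exact fun i => h7 i (Finset.mem_univ i)
  have h01 : ∀ i, mu i = 0 ∨ mu i = 1 := fun i => by
    rcases mul_eq_zero.1 (hz i) with h | h
    · exact Or.inl (pow_eq_zero_iff (two_ne_zero) |>.1 h)
    · exact Or.inr (by linarith)
  have hex : ∃ i0, mu i0 ≠ 0 := by
    by_contra hcon
    push Not at hcon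
    simp [hcon] at h1
  obtain ⟨i0, hi0⟩ := hex
  have hi1 : mu i0 = 1 := (h01 i0).resolve_left hi0
  refine ⟨i0, hi1, fun j hj => ?_⟩
  have hnn : ∀ i, 0 ≤ mu i := fun i => by rcases h01 i with h | h <;> simp [h]
  have h8 : mu i0 + mu j ≤ 1 := by
    rw [← h1, ← Finset.sum_pair (f := mu) (Ne.symm hj)]
    exact Finset.sum_le_sum_of_subset_of_nonneg (Finset.subset_univ _) fun i _ _ => hnn i
  have h9 := hnn j
  linarith

theorem sum_single {n : ℕ} (mu : Fin n → ℝ) (i0 : Fin n) (h0 : mu i0 = 1)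
    (hj : ∀ j, j ≠ i0 → mu j = 0) (k : ℕ) (hk : 1 ≤ k) : ∑ i, mu i ^ k = 1 := by
  rw [Finset.sum_eq_single i0]
  · rw [h0, one_pow]
  · intro j _ h
    rw [hj j h, zero_pow (by omega)]
  · intro h
    exact absurd (Finset.mem_univ _) h

theorem prod_single {R : Type*} [CommRing R] {n : ℕ} (F : Fin n → R) (i0 : Fin n) (a b : R)
    (h0 : F i0 = a) (hj : ∀ j, j ≠ i0 → F j = b) : ∏ i, F i = b ^ (n - 1) * a := by
  classical
  rw [← Finset.mul_prod_erase Finset.univ F (Finset.mem_univ i0), h0,
    Finset.prod_congr rfl (fun j hj' => hj j (Finset.ne_of_mem_erase hj')), Finset.prod_const,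
    Finset.card_erase_of_mem (Finset.mem_univ i0), Finset.card_univ, Fintype.card_fin, mul_comm]

/-- The traces of the powers from a list of the roots. -/
theorem trace_mu {V : Type} [AddCommGroup V] [Module ℝ V] [FiniteDimensional ℝ V]
    (f : Module.End ℝ V) (hf : f.charpoly.Splits) (mu : Fin (finrank ℝ V) → ℝ)
    (h : f.charpoly.roots = Finset.univ.val.map mu) (k : ℕ) :
    LinearMap.trace ℝ V (f ^ k) = ∑ i, mu i ^ k := by
  rw [trace_pow f hf k, h, Multiset.map_map]
  rfl

theorem charpoly_of_ones {V : Type} [AddCommGroup V] [Module ℝ V] [FiniteDimensional ℝ V]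
    (f : Module.End ℝ V) (hf : f.charpoly.Splits) (h1 : LinearMap.trace ℝ V f = 1)
    (h2 : LinearMap.trace ℝ V (f ^ 2) = 1) (h3 : LinearMap.trace ℝ V (f ^ 3) = 1) :
    f.charpoly = X ^ (finrank ℝ V - 1) * (X - 1) ∧
      (∀ k : ℕ, 1 ≤ k → LinearMap.trace ℝ V (f ^ k) = 1) ∧
      (∀ e : ℝ, ((e • f : Module.End ℝ V).charpoly).eval 1 = 1 - e) ∧ 1 ≤ finrank ℝ V := by
  obtain ⟨mu, hr, hp⟩ := exists_mu f hf
  have t1 := trace_mu f hf mu hr 1
  have t2 := trace_mu f hf mu hr 2
  have t3 := trace_mu f hf mu hr 3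
  rw [pow_one, h1] at t1
  rw [h2] at t2
  rw [h3] at t3
  simp only [pow_one] at t1
  obtain ⟨i0, hi0, hj⟩ := ones mu t1.symm t2.symm t3.symm
  refine ⟨?_, ?_, ?_, ?_⟩
  · rw [hp]
    refine prod_single _ i0 (X - 1) X ?_ ?_
    · rw [hi0, map_one]
    · intro j hji
      rw [hj j hji, map_zero, sub_zero]
  · intro k hk
    rw [trace_mu f hf mu hr k]
    exact sum_single mu i0 hi0 hj k hk
  · intro e
    rw [eval_of_prod f mu hp e, prod_single (fun i => 1 - e * mu i) i0 (1 - e) 1 (by simp [hi0])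
      (fun j hji => by simp [hj j hji]), one_pow, one_mul]
  · have := i0.pos
    omega

end Tr

/-- **Tr**: traces and determinants in terms of the eigenvalues. -/
theorem thm_Tr : St_Tr := by
  intro V _ _ _ T hT
  refine ⟨fun g => Tr.trace_aeval T hT g, ?_, ?_, ?_, ?_⟩
  · intro e
    obtain ⟨mu, hr, hp⟩ := Tr.exists_mu T hT
    have h1 := Tr.eval_of_prod T mu hp e
    rw [hr, Multiset.map_map]
    exact h1
  · intro mu
    exact ⟨fun h => Tr.prod_of_eval T mu h, fun h e => Tr.eval_of_prod T mu h e⟩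
  · constructor
    · intro h
      have hn : 1 ≤ Module.finrank ℝ V := by
        by_contra hcon
        have h0 : Module.finrank ℝ V = 0 := by omega
        have h2 := h 1
        have h3 : ((1 : ℝ) • T).charpoly = 1 := by
          refine (Polynomial.Monic.natDegree_eq_zero (LinearMap.charpoly_monic _)).1 ?_
          rw [LinearMap.charpoly_natDegree, h0]
        rw [h3] at h2
        simp at h2
      let i0 : Fin (Module.finrank ℝ V) := ⟨0, hn⟩
      let mu : Fin (Module.finrank ℝ V) → ℝ := fun i => if i = i0 then 1 else 0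
      have hi0 : mu i0 = 1 := if_pos rfl
      have hj : ∀ j, j ≠ i0 → mu j = 0 := fun j hj => if_neg hj
      have hp : T.charpoly = ∏ i, (X - C (mu i)) := by
        refine Tr.prod_of_eval T mu fun e => ?_
        rw [Tr.prod_single (fun i => 1 - e * mu i) i0 (1 - e) 1 (by simp [hi0])
          (fun j hji => by simp [hj j hji]), one_pow, one_mul]
        exact h e
      have hr : T.charpoly.roots = Finset.univ.val.map mu := by
        rw [hp]
        have h6 := roots_multiset_prod_X_sub_C (Finset.univ.val.map mu)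
        rw [Multiset.map_map] at h6
        exact h6
      have t1 := Tr.trace_mu T hT mu hr 1
      rw [pow_one] at t1
      refine ⟨t1.trans (Tr.sum_single mu i0 hi0 hj 1 le_rfl),
        (Tr.trace_mu T hT mu hr 2).trans (Tr.sum_single mu i0 hi0 hj 2 (by norm_num)),
        (Tr.trace_mu T hT mu hr 3).trans (Tr.sum_single mu i0 hi0 hj 3 (by norm_num))⟩
    · rintro ⟨h1, h2, h3⟩
      exact (Tr.charpoly_of_ones T hT h1 h2 h3).2.2.1
  · intro h1 h2 h3
    obtain ⟨hp, hk, -, hn⟩ := Tr.charpoly_of_ones T hT h1 h2 h3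
    refine ⟨hp, ?_, hk⟩
    have h4 := LinearMap.aeval_self_charpoly T
    rw [hp] at h4
    have h5 : T ^ (Module.finrank ℝ V - 1) * (T - 1) = 0 := by
      simpa using h4
    rw [mul_sub, mul_one, ← pow_succ, Nat.sub_add_cancel hn] at h5
    exact sub_eq_zero.1 h5

end Pool.Agent.RRC
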