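import Pool.Agent.RRC.All2
import Pool.Agent.RRC.B1a
import Pool.Agent.RRC.B1b
import Pool.Agent.RRC.B2
import Pool.Agent.RRC.B3
import Pool.Agent.RRC.C1c
import Pool.Agent.RRC.C1n
import Pool.Agent.RRC.DF
import Pool.Agent.RRC.DT
import Pool.Agent.RRC.K1
import Pool.Agent.RRC.K2
import Pool.Agent.RRC.Lf
import Pool.Agent.RRC.N1a
import Pool.Agent.RRC.N1bX
import Pool.Agent.RRC.N2a
import Pool.Agent.RRC.N2b
import Pool.Agent.RRC.N3
import Pool.Agent.RRC.N4a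
import Pool.Agent.RRC.N4b
import Pool.Agent.RRC.N5
import Pool.Agent.RRC.NDo
import Pool.Agent.RRC.NUM
import Pool.Agent.RRC.Norm
import Pool.Agent.RRC.P1
import Pool.Agent.RRC.P2
import Pool.Agent.RRC.P3
import Pool.Agent.RRC.R1
import Pool.Agent.RRC.Tr
import Pool.Agent.RRC.dpw

/-!
# RRC: final assembly
-/

namespace Pool.Agent.RRC

theorem all_DF : St_DF := thm_DF thm_K1

theorem all_P1 : St_P1 := thm_P1 thm_Tr thm_DT thm_K1

theorem all_P3 : St_P3 := thm_P3 thm_Tr thm_DT thm_K1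

theorem all_Norm : St_Norm := thm_Norm all_P1 thm_K1

theorem all_Lf : St_Lf := by
  have hDF := all_DF
  have hP2 := thm_P2 thm_K1 thm_NDo
  have hP3 := all_P3
  have hR1 := thm_R1 hDF
  have hC1c := thm_C1c thm_Tr thm_K1 hDF
  have hC1n := thm_C1n thm_Tr thm_K1 hP3 hR1 hC1c hDF
  have hK2 := thm_K2 thm_K1
  have hN1a := thm_N1a thm_Tr thm_DT thm_K1
  have hN1b := thm_N1b thm_Tr thm_K1 hN1a thm_NUM
  have hN2a := thm_N2a thm_Tr thm_K1 hK2 hN1a hN1b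
  have hN2b := thm_N2b hN2a
  have hN3 := thm_N3 thm_K1 hN1a hN1b hN2b hR1 hC1c hC1n
  have hN4a := thm_N4a hK2 hN1a hN2a
  have hN4b := thm_N4b thm_Tr hN1a hP2 hN4a
  have hN5 := thm_N5 thm_Tr thm_K1 hN1a hN1b hN4b
  exact thm_Lf hN3 hN5

theorem all_main : St_Main1 ∧ St_Main2 :=
  all2 thm_K1 (thm_dpw thm_DT) all_P3 all_Norm all_Lf (thm_B1b thm_B1a all_DF) (thm_B2 all_DF)
    thm_B3

end Pool.Agent.RRC
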