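import Pool.Agent.RRC.St2

/-!
# RRC: consequences for characteristic polynomials

Module CB: `thm_CB : St_Cyc → St_QA → St_QB → St_QC → St_CB`.
-/

namespace Pool.Agent.RRC

open Matrix Polynomial

namespace CBx

theorem cs {ι κ : Type} [Fintype ι] [Fintype κ] [DecidableEq ι] [DecidableEq κ]
    (M : Matrix ι ι ℝ) (e : κ ≃ ι) : (M.submatrix e e).charpoly = M.charpoly :=
  Matrix.charpoly_reindex e.symm M

theorem ce {ι : Type} [Fintype ι] [DecidableEq ι] (M : Matrix ι ι ℝ) (N : Matrix ι ι ℝ)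
    (h : M = N) : M.charpoly = N.charpoly := by rw [h]

theorem toE {ι : Type} [Fintype ι] [DecidableEq ι] (A : Matrix ι ι ℝ) :
    (Matrix.toEuclideanLin A).charpoly = A.charpoly := by
  rw [Matrix.toEuclideanLin_eq_toLin]
  exact Matrix.charpoly_toLin _ _

end CBx

open CBx in
/-- [CB] -/
theorem thm_CB (hC : St_Cyc) (hA : St_QA) (hB : St_QB) (hQ : St_QC) : St_CB := by
  intro D x
  obtain ⟨⟨e, he⟩, -, -, hT⟩ := hQ D x
  have hmat : (D.mat x).charpoly = (D.matQ D.vs x).charpoly := by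
    rw [← he, cs]
  refine ⟨fun k hk => ⟨?_, ?_, fun i hi => ?_⟩, fun T hTs hsep h0 => ?_⟩
  · obtain ⟨e', he'⟩ := hB D k hk D.vs hk.1
    obtain ⟨⟨e2, he2⟩, -, -, -⟩ := hQ (D.del k) (D.co hk.1 x).2.2
    have h1 : ((D.del k).mat (D.co hk.1 x).2.2).charpoly =
        ((D.del k).matQ (D.vs.erase k) (D.co hk.1 x).2.2).charpoly := by
      rw [← he2]
      exact cs _ e2
    rw [hmat, h1, ← cs (D.matQ D.vs x) e', he' x, Matrix.charpoly_fromBlocks_zero₁₂, mul_comm]
  · obtain ⟨e', he'⟩ := hB D k hk {k} (Finset.mem_singleton_self k)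
    rw [← cs (D.matQ {k} x) e', he' x, Matrix.charpoly_fromBlocks_zero₁₂]
    have hem : IsEmpty ((D.del k).Q (({k} : Finset ℕ).erase k)) := by
      constructor
      rintro ⟨l, -, i, hi, -⟩
      rw [Finset.mem_erase, Finset.mem_singleton] at hi
      exact hi.1 hi.2
    rw [Matrix.charpoly, Matrix.charpoly, Matrix.det_isEmpty (A := charmatrix
      ((D.del k).matQ (({k} : Finset ℕ).erase k) (D.co hk.1 x).2.2)), mul_one]
  · obtain ⟨e', he'⟩ := hA D k hk {i} (fun h => hi (Finset.mem_singleton.1 h).symm)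
    rw [← he' x, cs]
  · have hprod : ∀ S : Finset ℕ, (D.matQ S x).charpoly = ∏ i ∈ S, (D.matQ {i} x).charpoly :=
      fun S => (hT S).2.1
    have h1 : (D.matQ T x).charpoly ∣ X * (D.mat x).charpoly := by
      have h2 : ∏ i ∈ insert 0 D.vs, (D.matQ {i} x).charpoly = X * (D.mat x).charpoly := by
        rw [Finset.prod_insert D.zero, (hT ∅).2.2, hmat, hprod]
      rw [← h2, hprod]
      exact Finset.prod_dvd_prod_of_subset _ _ _ hTs
    have hco : IsCoprime (X : ℝ[X]) (D.mat x).charpoly := by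
      rw [irreducible_X.coprime_iff_not_dvd, X_dvd_iff, coeff_zero_eq_eval_zero]
      exact h0
    have h3 : (D.matQ T x).charpoly.Separable :=
      (separable_X.mul hsep hco).of_dvd h1
    refine ⟨h3, ?_⟩
    refine (hC _ (Matrix.toEuclideanLin (D.matQ T x))).1 ?_ ?_
    · rw [Matrix.isSymmetric_toEuclideanLin_iff]
      exact (hT T).1
    · rw [toE]
      exact h3

end Pool.Agent.RRC
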