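import Pool.Agent.RRC.St2

/-!
# Real-rooted admissible collections: the converse (8.2) (MP_835236_al)

Induction on the number of vertices: `Convx.base` (no vertices) and `Convx.step` (a source `k`).
-/

open Matrix Polynomial

namespace Pool.Agent.RRC

namespace Convx

theorem path_eq (D : Dig) (h : D.vs = ∅) (l : List ℕ) (hl : D.PathP l) : l = [0] := by
  rcases l with _ | ⟨a, _ | ⟨b, t⟩⟩
  · exact absurd rfl hl.1
  · rcases hl.2.1 a (List.mem_singleton.2 rfl) with h1 | h1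
    · rw [h1]
    · rw [h] at h1
      exact absurd h1 (Finset.notMem_empty a)
  · have h1 : D.E a b := (List.isChain_cons_cons.1 hl.2.2).1
    have h2 := (D.down a b h1).2.1
    rw [h] at h2
    exact absurd h2 (Finset.notMem_empty a)

theorem ext0_zero (D : Dig) (x : D.Path → ℝ) : D.ext0 x [0] = 0 := by
  unfold Dig.ext0
  exact dif_neg fun h => h.2 rfl

theorem matQ_zero (D : Dig) (h : D.vs = ∅) (T : Finset ℕ) (x : D.Path → ℝ) :
    D.matQ T x = 0 := by
  ext p q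
  have hp := path_eq D h p.1 p.2.1
  have hq := path_eq D h q.1 q.2.1
  change Dig.ent (D.ext0 x) p.1 q.1 = 0
  rw [hp, hq]
  unfold Dig.ent
  rw [if_pos (List.prefix_refl [0])]
  exact ext0_zero D x

/-- No vertices. -/
theorem base (D : Dig) (h : D.vs = ∅) : ConvD D := by
  have hE : IsEmpty D.Path := ⟨fun p => p.2.2 (path_eq D h p.1 p.2.1)⟩
  have h1 : ∀ f : (D.Path → ℝ) →ₗ[ℝ] (D.Path → ℝ), f.charpoly = 1 := by
    intro f
    refine (LinearMap.charpoly_monic f).natDegree_eq_zero.1 ?_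
    rw [LinearMap.charpoly_natDegree, Module.finrank_zero_of_subsingleton]
  refine ⟨0, fun a b x => Subsingleton.elim _ _, ⟨0, fun v _ => Subsingleton.elim _ _, ?_⟩,
    fun x => ?_, fun T _ => ⟨0, ⟨fun y y' => ?_, fun y y' => ?_⟩, fun x => ?_⟩⟩
  · rw [h1, eval_one]
    exact one_ne_zero
  · rw [h1]
    refine ((Matrix.charpoly_monic _).natDegree_eq_zero.1 ?_).symm
    rw [Matrix.charpoly_natDegree_eq_dim, Fintype.card_eq_zero]
  · simp only [LinearMap.zero_apply, Matrix.transpose_zero, add_zero, mul_zero]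
  · simp only [LinearMap.zero_apply, mul_zero, sub_zero]
  · rw [matQ_zero D h, LinearMap.zero_apply, Matrix.transpose_zero, add_zero]

/-- Reindexing and transport. -/
theorem key (hMX : St_MX) {V V' : Type} [AddCommGroup V] [Module ℝ V] [AddCommGroup V']
    [Module ℝ V'] (M : V →ₗ[ℝ] V →ₗ[ℝ] V) (m1 : V' →ₗ[ℝ] V' →ₗ[ℝ] V') (C : V' ≃ₗ[ℝ] V)
    (hC : AIso M m1 C.symm) {κ ι : Type} [Fintype κ] [DecidableEq κ] [Fintype ι] [DecidableEq ι]
    (e : κ ≃ ι) (ρ : V →ₗ[ℝ] Matrix κ κ ℝ) (hρ : MRep M ρ) (A : V' → Matrix ι ι ℝ)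
    (hA : ∀ x, (A x).submatrix e e = ρ (C x) + (ρ (C x))ᵀ) :
    ∃ r1 : V' →ₗ[ℝ] Matrix ι ι ℝ, MRep m1 r1 ∧ ∀ x, r1 x + (r1 x)ᵀ = A x := by
  obtain ⟨ρ2, h2, h2'⟩ := (hMX V M κ ρ hρ).2.2.2.1 ι e.symm
  refine ⟨ρ2 ∘ₗ C.symm.symm.toLinearMap, (hMX V M ι ρ2 h2).2.2.2.2 V' m1 C.symm hC, fun x => ?_⟩
  have h3 : (ρ2 ∘ₗ C.symm.symm.toLinearMap) x = ρ2 (C x) := rfl
  rw [h3, h2', ← hA, Matrix.submatrix_submatrix]
  ext i j
  simp only [Matrix.submatrix_apply, Function.comp_apply, Equiv.apply_symm_apply]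

/-- The induction step. -/
theorem step (hX : St_ExK) (hMX : St_MX) (hCo : St_Co) (hQA : St_QA) (hQB : St_QB)
    (D : Dig) (k : ℕ) (hk : D.Source k) (h : ConvD (D.del k)) : ConvD D := by
  obtain ⟨m', hm', hnd', hmod', hrep'⟩ := h
  have hout : D.out k ⊆ insert 0 (D.del k).vs := by
    intro j hj
    rw [Dig.mem_out] at hj
    have h1 := D.down k j hj
    rcases h1.2.2 with h2 | h2
    · exact Finset.mem_insert.2 (Or.inl h2)
    · exact Finset.mem_insert.2 (Or.inr (Finset.mem_erase.2 ⟨ne_of_lt h1.1, h2⟩))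
  obtain ⟨r, hr, hrs⟩ := hrep' (D.out k) hout
  obtain ⟨m1, hl, hnd, hmod, hco⟩ := hX D k hk m' r hm' hnd' hmod' hr hrs
  refine ⟨m1, hl, hnd, hmod, fun T hT => ?_⟩
  let C : (D.Path → ℝ) ≃ₗ[ℝ] ℝ × EuclideanSpace ℝ ((D.del k).Q (D.out k)) × ((D.del k).Path → ℝ) :=
    LinearEquiv.ofBijective (D.co hk.1) (hCo D k hk).1
  have hCx : ∀ x, C x = D.co hk.1 x := fun x => rfl
  have hC : AIso (extm m' (toH r)) m1 C.symm := by
    intro a b
    apply C.injective
    rw [C.apply_symm_apply, hCx, hco, ← hCx, ← hCx, C.apply_symm_apply, C.apply_symm_apply]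
  by_cases hkT : k ∈ T
  · have hT' : T.erase k ⊆ insert 0 (D.del k).vs := by
      intro j hj
      obtain ⟨h1, h2⟩ := Finset.mem_erase.1 hj
      rcases Finset.mem_insert.1 (hT h2) with h3 | h3
      · exact Finset.mem_insert.2 (Or.inl h3)
      · exact Finset.mem_insert.2 (Or.inr (Finset.mem_erase.2 ⟨h1, h3⟩))
    obtain ⟨r', hr', hrs'⟩ := hrep' (T.erase k) hT'
    obtain ⟨e, he⟩ := hQB D k hk T hkT
    have h1 := (hMX _ m' _ r hr).1 _ r' hr'
    obtain ⟨ρ, hρ, hρ'⟩ := (hMX _ m' _ r hr).2.1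
    obtain ⟨ρ1, hρ1, hρ1'⟩ := (hMX _ (extm m' (toH r)) _ ρ hρ).2.2.1 _ _ h1
    refine key hMX _ m1 C hC e ρ1 hρ1 (D.matQ T) fun x => ?_
    rw [he, hρ1', hρ', hrs, ← hCx]
    congr 1
    exact (hrs' _).symm
  · have hT' : T ⊆ insert 0 (D.del k).vs := by
      intro j hj
      rcases Finset.mem_insert.1 (hT hj) with h3 | h3
      · exact Finset.mem_insert.2 (Or.inl h3)
      · exact Finset.mem_insert.2 (Or.inr (Finset.mem_erase.2 ⟨fun h => hkT (h ▸ hj), h3⟩))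
    obtain ⟨r', hr', hrs'⟩ := hrep' T hT'
    obtain ⟨e, he⟩ := hQA D k hk T hkT
    have h1 := (hMX _ m' _ r hr).1 _ r' hr'
    refine key hMX _ m1 C hC e _ h1 (D.matQ T) fun x => ?_
    rw [he, ← hCx]
    exact (hrs' _).symm

theorem main (hX : St_ExK) (hMX : St_MX) (hA : St_Add) (hCo : St_Co) (hQA : St_QA)
    (hQB : St_QB) (n : ℕ) : ∀ D : Dig, D.vs.card = n → ConvD D := by
  induction n with
  | zero => exact fun D hD => base D (Finset.card_eq_zero.1 hD)
  | succ n ih =>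
    intro D hD
    have hne : D.vs.Nonempty := by
      rw [← Finset.card_pos, hD]
      exact Nat.succ_pos n
    obtain ⟨k, hk⟩ := hA.2.1 D hne
    refine step hX hMX hCo hQA hQB D k hk (ih (D.del k) ?_)
    change (D.vs.erase k).card = n
    rw [Finset.card_erase_of_mem hk.1, hD, Nat.add_sub_cancel]

end Convx

/-- [CONV] (8.2) The converse. -/
theorem thm_Conv (hX : St_ExK) (hMX : St_MX) (hA : St_Add) (hCo : St_Co) (hQA : St_QA)
    (hQB : St_QB) : St_Conv :=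
  fun D => Convx.main hX hMX hA hCo hQA hQB _ D rfl

end Pool.Agent.RRC
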