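import Pool.Agent.RRC.St2

/-!
# RRC, module Cyc (helper92): cyclic operators
-/

set_option autoImplicit false
set_option linter.unusedSectionVars false

namespace Pool.Agent.RRC

open Polynomial

namespace Cycx

section alg

variable {V : Type} [AddCommGroup V] [Module ℝ V]

/-- `v` is cyclic if and only if every vector is `p(S) v` -/
theorem span_iff (S : V →ₗ[ℝ] V) (v : V) :
    Submodule.span ℝ (Set.range fun k : ℕ => (S ^ k) v) = ⊤ ↔
      ∀ x : V, ∃ p : ℝ[X], aeval S p v = x := by
  constructor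
  · intro h x
    have hx : x ∈ Submodule.span ℝ (Set.range fun k : ℕ => (S ^ k) v) := by
      rw [h]
      exact Submodule.mem_top
    induction hx using Submodule.span_induction with
    | mem x hx =>
      obtain ⟨k, rfl⟩ := hx
      refine ⟨X ^ k, ?_⟩
      rw [map_pow, aeval_X]
    | zero => exact ⟨0, by rw [map_zero]; rfl⟩
    | add x y _ _ hx hy =>
      obtain ⟨p, hp⟩ := hx
      obtain ⟨q, hq⟩ := hy
      exact ⟨p + q, by rw [map_add, LinearMap.add_apply, hp, hq]⟩
    | smul t x _ hx =>
      obtain ⟨p, hp⟩ := hx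
      exact ⟨t • p, by rw [map_smul, LinearMap.smul_apply, hp]⟩
  · intro h
    rw [eq_top_iff]
    intro x _
    obtain ⟨p, rfl⟩ := h x
    rw [aeval_eq_sum_range, LinearMap.sum_apply]
    refine Submodule.sum_mem _ fun k _ => ?_
    rw [LinearMap.smul_apply]
    exact Submodule.smul_mem _ _ (Submodule.subset_span ⟨k, rfl⟩)

/-- polynomials in `S` on eigenvectors -/
theorem aeval_eig (S : V →ₗ[ℝ] V) {l : ℝ} {z : V} (h : S z = l • z) (p : ℝ[X]) :
    aeval S p z = p.eval l • z := by
  induction p using Polynomial.induction_on' with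
  | add p q hp hq => rw [map_add, LinearMap.add_apply, hp, hq, eval_add, add_smul]
  | monomial n a =>
    have h1 : ∀ k : ℕ, (S ^ k) z = l ^ k • z := by
      intro k
      induction k with
      | zero => rw [pow_zero, pow_zero, one_smul, Module.End.one_apply]
      | succ k ih =>
        rw [pow_succ, Module.End.mul_apply, h, map_smul, ih, smul_smul, pow_succ, mul_comm]
    rw [aeval_monomial, Module.End.mul_apply, h1, eval_monomial, Module.algebraMap_end_apply,
      smul_smul]

/-- operators which commute with `S` commute with the polynomials in `S` -/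
theorem comm_aeval (S K : V →ₗ[ℝ] V) (h : K * S = S * K) (p : ℝ[X]) :
    K * aeval S p = aeval S p * K := by
  have h1 : ∀ k : ℕ, K * S ^ k = S ^ k * K := fun k => ((show Commute K S from h).pow_right k).eq
  rw [aeval_eq_sum_range, Finset.mul_sum, Finset.sum_mul]
  refine Finset.sum_congr rfl fun k _ => ?_
  rw [mul_smul_comm, smul_mul_assoc, h1]

end alg

section inn

variable {H : Type} [NormedAddCommGroup H] [InnerProductSpace ℝ H] [FiniteDimensional ℝ H]

/-- separable characteristic polynomial -/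
theorem partA (S : H →ₗ[ℝ] H) (hS : S.IsSymmetric) (hc : S.charpoly.Separable) : Cyc S := by
  classical
  have hn : Module.finrank ℝ H = Module.finrank ℝ H := rfl
  set b := hS.eigenvectorBasis hn with hb
  set l := hS.eigenvalues hn with hl
  have h1 : ∀ i, S (b i) = l i • b i := fun i => hS.apply_eigenvectorBasis hn i
  have h2 : LinearMap.toMatrix b.toBasis b.toBasis S = Matrix.diagonal l := by
    ext i j
    rw [LinearMap.toMatrix_apply, OrthonormalBasis.coe_toBasis, h1, map_smul,
      Finsupp.smul_apply, smul_eq_mul, Matrix.diagonal_apply]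
    have h3 : b.toBasis.repr (b j) i = if j = i then 1 else 0 := by
      have h4 : b j = b.toBasis j := by rw [OrthonormalBasis.coe_toBasis]
      rw [h4, Module.Basis.repr_self, Finsupp.single_apply]
    rw [h3]
    by_cases hij : i = j
    · rw [if_pos hij.symm, if_pos hij, mul_one, hij]
    · rw [if_neg (fun h => hij h.symm), if_neg hij, mul_zero]
  have h3 : S.charpoly = ∏ i, (X - C (l i)) := by
    rw [← LinearMap.charpoly_toMatrix S b.toBasis, h2, Matrix.charpoly_diagonal]
  rw [h3, separable_prod_X_sub_C_iff] at hc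
  refine ⟨∑ i, b i, (span_iff S _).2 fun x => ?_⟩
  refine ⟨Lagrange.interpolate Finset.univ l (fun i => b.repr x i), ?_⟩
  rw [map_sum]
  conv_rhs => rw [← b.sum_repr x]
  refine Finset.sum_congr rfl fun i _ => ?_
  rw [aeval_eig S (h1 i), Lagrange.eval_interpolate_at_node _ (fun i _ j _ h => hc h)
    (Finset.mem_univ i)]

/-- the commutant -/
theorem partB (S : H →ₗ[ℝ] H) (hC : Cyc S) (K : H →ₗ[ℝ] H) (h : K ∘ₗ S = S ∘ₗ K) :
    ∃ p : ℝ[X], K = aeval S p := by
  obtain ⟨v, hv⟩ := hC
  rw [span_iff] at hv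
  obtain ⟨p, hp⟩ := hv (K v)
  refine ⟨p, LinearMap.ext fun x => ?_⟩
  obtain ⟨q, rfl⟩ := hv x
  have h1 : K (aeval S q v) = aeval S q (K v) :=
    LinearMap.congr_fun (comm_aeval S K h q) v
  have h2 : aeval S p (aeval S q v) = aeval S q (aeval S p v) := by
    have h3 : aeval S p * aeval S q = aeval S q * aeval S p := by
      rw [← map_mul, ← map_mul, mul_comm]
    exact LinearMap.congr_fun h3 v
  rw [h1, h2, hp]

/-- an eigenvector which is orthogonal to a cyclic vector vanishes -/
theorem orth (S : H →ₗ[ℝ] H) (hS : S.IsSymmetric) (v : H)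
    (hv : Submodule.span ℝ (Set.range fun k : ℕ => (S ^ k) v) = ⊤) (l : ℝ) (z : H)
    (hz : S z = l • z) (h : inner ℝ z v = (0 : ℝ)) : z = 0 := by
  have h1 : ∀ k : ℕ, inner ℝ z ((S ^ k) v) = (0 : ℝ) := by
    intro k
    induction k with
    | zero => simpa using h
    | succ k ih =>
      rw [pow_succ', Module.End.mul_apply, ← hS z ((S ^ k) v), hz, inner_smul_left, ih, mul_zero]
  have h2 : ∀ x : H, inner ℝ z x = (0 : ℝ) := by
    intro x
    have hx : x ∈ Submodule.span ℝ (Set.range fun k : ℕ => (S ^ k) v) := by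
      rw [hv]
      exact Submodule.mem_top
    induction hx using Submodule.span_induction with
    | mem x hx =>
      obtain ⟨k, rfl⟩ := hx
      exact h1 k
    | zero => exact inner_zero_right _
    | add x y _ _ hx hy => rw [inner_add_right, hx, hy, add_zero]
    | smul t x _ hx => rw [inner_smul_right, hx, mul_zero]
  exact inner_self_eq_zero.1 (h2 z)

/-- the eigenspaces are lines -/
theorem partC (S : H →ₗ[ℝ] H) (hC : Cyc S) (hS : S.IsSymmetric) (l : ℝ) (z z' : H)
    (hz : S z = l • z) (hz' : S z' = l • z') (h0 : z ≠ 0) : ∃ t : ℝ, z' = t • z := by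
  obtain ⟨v, hv⟩ := hC
  have h1 : (inner ℝ z v : ℝ) ≠ 0 := fun h => h0 (orth S hS v hv l z hz h)
  refine ⟨inner ℝ z' v / inner ℝ z v, ?_⟩
  have h2 : z' - (inner ℝ z' v / inner ℝ z v : ℝ) • z = 0 := by
    refine orth S hS v hv l _ ?_ ?_
    · rw [map_sub, map_smul, hz, hz', smul_sub, smul_comm]
    · rw [inner_sub_left, inner_smul_left, RCLike.conj_to_real, div_mul_cancel₀ _ h1, sub_self]
  exact sub_eq_zero.1 h2

/-- quotients -/
theorem partD (S : H →ₗ[ℝ] H) (hC : Cyc S) (H2 : Type) [AddCommGroup H2] [Module ℝ H2]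
    (S2 : H2 →ₗ[ℝ] H2) (π : H →ₗ[ℝ] H2) (hπ : Function.Surjective π)
    (h : π ∘ₗ S = S2 ∘ₗ π) : Cyc S2 := by
  obtain ⟨v, hv⟩ := hC
  have h1 : ∀ k : ℕ, (S2 ^ k) (π v) = π ((S ^ k) v) := by
    intro k
    induction k with
    | zero => simp
    | succ k ih =>
      rw [pow_succ', pow_succ', Module.End.mul_apply, Module.End.mul_apply, ih]
      exact (LinearMap.congr_fun h ((S ^ k) v)).symm
  refine ⟨π v, ?_⟩
  have h2 : (Set.range fun k : ℕ => (S2 ^ k) (π v)) = π '' Set.range fun k : ℕ => (S ^ k) v := by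
    rw [← Set.range_comp]
    congr 1
    funext k
    exact h1 k
  rw [h2, Submodule.span_image, hv, Submodule.map_top]
  exact LinearMap.range_eq_top.2 hπ

end inn

end Cycx

theorem thm_Cyc : St_Cyc := by
  intro H _ _ _ S
  exact ⟨fun hS hc => Cycx.partA S hS hc, fun hC K h => Cycx.partB S hC K h,
    fun hC hS l z z' hz hz' h0 => Cycx.partC S hC hS l z z' hz hz' h0,
    fun hC H2 _ _ S2 π hπ h => Cycx.partD S hC H2 S2 π hπ h⟩

end Pool.Agent.RRC

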