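import Pool.Agent.RRC.St2

/-!
# RRC: cyclicity along a line fails only finitely often
-/

set_option autoImplicit false
set_option linter.unusedSectionVars false

open Polynomial

namespace Pool.Agent.RRC

namespace CycLinex

/-- functions given by polynomials -/
def IsPoly (f : ℝ → ℝ) : Prop := ∃ p : ℝ[X], ∀ t, f t = p.eval t

theorem isPoly_const (a : ℝ) : IsPoly fun _ => a := ⟨C a, fun _ => eval_C.symm⟩

theorem isPoly_id : IsPoly fun t => t := ⟨X, fun _ => eval_X.symm⟩

theorem isPoly_add {f g : ℝ → ℝ} (hf : IsPoly f) (hg : IsPoly g) : IsPoly fun t => f t + g t := by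
  obtain ⟨p, hp⟩ := hf
  obtain ⟨q, hq⟩ := hg
  exact ⟨p + q, fun t => by simp only [hp, hq, eval_add]⟩

theorem isPoly_mul {f g : ℝ → ℝ} (hf : IsPoly f) (hg : IsPoly g) : IsPoly fun t => f t * g t := by
  obtain ⟨p, hp⟩ := hf
  obtain ⟨q, hq⟩ := hg
  exact ⟨p * q, fun t => by simp only [hp, hq, eval_mul]⟩

theorem isPoly_sum {ι : Type} (s : Finset ι) (f : ι → ℝ → ℝ) (hf : ∀ i, IsPoly (f i)) :
    IsPoly fun t => ∑ i ∈ s, f i t := by
  choose p hp using hf
  exact ⟨∑ i ∈ s, p i, fun t => by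
    rw [eval_finsetSum]
    exact Finset.sum_congr rfl fun i _ => hp i t⟩

theorem isPoly_prod {ι : Type} (s : Finset ι) (f : ι → ℝ → ℝ) (hf : ∀ i, IsPoly (f i)) :
    IsPoly fun t => ∏ i ∈ s, f i t := by
  choose p hp using hf
  exact ⟨∏ i ∈ s, p i, fun t => by
    rw [eval_prod]
    exact Finset.prod_congr rfl fun i _ => hp i t⟩

theorem isPoly_det {n : ℕ} (M : ℝ → Matrix (Fin n) (Fin n) ℝ)
    (h : ∀ i j, IsPoly fun t => M t i j) : IsPoly fun t => (M t).det := by
  simp only [Matrix.det_apply']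
  refine isPoly_sum _ _ fun σ => ?_
  exact isPoly_mul (isPoly_const _) (isPoly_prod _ _ fun i => h _ _)

variable {H : Type} [NormedAddCommGroup H] [InnerProductSpace ℝ H] [FiniteDimensional ℝ H]

/-- Cayley-Hamilton: the first `finrank H` iterates suffice -/
theorem span_lt (S : H →ₗ[ℝ] H) (v : H)
    (h : Submodule.span ℝ (Set.range fun k : ℕ => (S ^ k) v) = ⊤) :
    Submodule.span ℝ (Set.range fun j : Fin (Module.finrank ℝ H) => (S ^ (j : ℕ)) v) = ⊤ := by
  rw [eq_top_iff, ← h, Submodule.span_le]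
  rintro _ ⟨k, rfl⟩
  change (S ^ k) v ∈ _
  rcases Nat.eq_zero_or_pos (Module.finrank ℝ H) with h0 | h0
  · have : Subsingleton H := Module.finrank_zero_iff.1 h0
    rw [Subsingleton.elim ((S ^ k) v) 0]
    exact Submodule.zero_mem _
  · have hm : S.charpoly.Monic := S.charpoly_monic
    have hd : ((X ^ k : ℝ[X]) %ₘ S.charpoly).natDegree < Module.finrank ℝ H := by
      have h1 : S.charpoly ≠ 1 := fun h1 => by
        have h2 := S.charpoly_natDegree
        rw [h1, natDegree_one] at h2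
        omega
      have h2 := natDegree_modByMonic_lt (X ^ k : ℝ[X]) hm h1
      rwa [S.charpoly_natDegree] at h2
    have he : S ^ k = aeval S ((X ^ k : ℝ[X]) %ₘ S.charpoly) := by
      rw [aeval_modByMonic_eq_self_of_root S.aeval_self_charpoly, map_pow, aeval_X]
    rw [he, aeval_eq_sum_range' hd, LinearMap.sum_apply]
    refine Submodule.sum_mem _ fun i hi => ?_
    rw [LinearMap.smul_apply]
    exact Submodule.smul_mem _ _ (Submodule.subset_span ⟨⟨i, Finset.mem_range.1 hi⟩, rfl⟩)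

theorem isPoly_pow {n : ℕ} (b : Module.Basis (Fin n) ℝ H) (A B : H →ₗ[ℝ] H) (v : H) :
    ∀ (j : ℕ) (i : Fin n), IsPoly fun t => b.repr (((A + t • B) ^ j) v) i := by
  intro j
  induction j with
  | zero =>
    intro i
    simp only [pow_zero, Module.End.one_apply]
    exact isPoly_const _
  | succ j ih =>
    intro i
    have e : ∀ t : ℝ, b.repr (((A + t • B) ^ (j + 1)) v) i =
        ∑ l, b.repr (((A + t • B) ^ j) v) l * (b.repr (A (b l)) i + t * b.repr (B (b l)) i) := by
      intro t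
      rw [pow_succ', Module.End.mul_apply]
      conv_lhs => rw [← b.sum_repr (((A + t • B) ^ j) v)]
      rw [map_sum, map_sum, Finsupp.finsetSum_apply]
      refine Finset.sum_congr rfl fun l _ => ?_
      rw [map_smul, map_smul, LinearMap.add_apply, LinearMap.smul_apply, map_add, map_smul]
      rfl
    obtain ⟨p, hp⟩ : IsPoly fun t => ∑ l, b.repr (((A + t • B) ^ j) v) l *
        (b.repr (A (b l)) i + t * b.repr (B (b l)) i) :=
      isPoly_sum _ _ fun l => isPoly_mul (ih l) (isPoly_add (isPoly_const _)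
        (isPoly_mul isPoly_id (isPoly_const _)))
    exact ⟨p, fun t => (e t).trans (hp t)⟩

end CycLinex

open CycLinex

/-- **CYL** -/
theorem thm_CycLine : St_CycLine := by
  intro H _ _ _ A B t₀ h
  obtain ⟨v, hv⟩ := h
  have hs := span_lt _ v hv
  let b : Module.Basis (Fin (Module.finrank ℝ H)) ℝ H := basisOfTopLeSpanOfCardEqFinrank
    (fun j : Fin (Module.finrank ℝ H) => ((A + t₀ • B) ^ (j : ℕ)) v) hs.ge (Fintype.card_fin _)
  have hb : ⇑b = fun j : Fin (Module.finrank ℝ H) => ((A + t₀ • B) ^ (j : ℕ)) v :=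
    coe_basisOfTopLeSpanOfCardEqFinrank _ _ _
  obtain ⟨p, hp⟩ : IsPoly fun t => b.det fun j : Fin (Module.finrank ℝ H) =>
      ((A + t • B) ^ (j : ℕ)) v := by
    simp only [Module.Basis.det_apply]
    exact isPoly_det _ fun i j => isPoly_pow b A B v j i
  have h1 : p.eval t₀ = 1 := by
    refine (hp t₀).symm.trans ?_
    change b.det (fun j : Fin (Module.finrank ℝ H) => ((A + t₀ • B) ^ (j : ℕ)) v) = 1
    rw [← hb]
    exact b.det_self
  have hp0 : p ≠ 0 := fun h0 => by
    rw [h0, eval_zero] at h1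
    exact zero_ne_one h1
  refine (finite_setOfPred_isRoot hp0).subset fun t ht => ?_
  by_contra hc
  refine ht ⟨v, ?_⟩
  have h2 : IsUnit (b.det fun j : Fin (Module.finrank ℝ H) => ((A + t • B) ^ (j : ℕ)) v) := by
    refine isUnit_iff_ne_zero.2 fun h0 => hc ?_
    exact (hp t).symm.trans h0
  have h3 := ((Module.Basis.is_basis_iff_det b).2 h2).2
  rw [eq_top_iff, ← h3]
  refine Submodule.span_mono ?_
  rintro _ ⟨j, rfl⟩
  exact ⟨j, rfl⟩

end Pool.Agent.RRC
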