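import Pool.Agent.RRC.St2

/-!
# RRC DEC (6.1), (6.2): decomposition of an algebra by a leaf
-/

open Matrix Polynomial

namespace Pool.Agent.RRC

namespace Decx

variable {V : Type} [NormedAddCommGroup V] [InnerProductSpace ℝ V] [FiniteDimensional ℝ V]
variable {m : V →ₗ[ℝ] V →ₗ[ℝ] V} {c : V}

/-- the eigenspace of `1/2` -/
noncomputable abbrev Wd (m : V →ₗ[ℝ] V →ₗ[ℝ] V) (c : V) : Submodule ℝ V :=
  Module.End.eigenspace (m c) (1 / 2 : ℝ)

/-- the kernel of `L_c` -/
noncomputable abbrev Zd (m : V →ₗ[ℝ] V →ₗ[ℝ] V) (c : V) : Submodule ℝ V := LinearMap.ker (m c)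

theorem Wd_eq (w : Wd m c) : m c w = (1 / 2 : ℝ) • (w : V) :=
  Module.End.mem_eigenspace_iff.1 w.2

theorem Zd_eq (y : Zd m c) : m c (y : V) = 0 := y.2

theorem cc_eq (hl : Leaf m c) : m c c = c := by
  rw [hl.right c, hl.inn, one_smul]

theorem inner_W (hl : Leaf m c) (w : Wd m c) : (inner ℝ c (w : V) : ℝ) = 0 := by
  have h1 : (inner ℝ (m c c) (w : V) : ℝ) = inner ℝ c (m c w) := hl.symm c w
  rw [cc_eq hl, Wd_eq, real_inner_smul_right] at h1
  linarith

theorem inner_Z (hl : Leaf m c) (y : Zd m c) : (inner ℝ c (y : V) : ℝ) = 0 := by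
  have h1 : (inner ℝ (m c c) (y : V) : ℝ) = inner ℝ c (m c y) := hl.symm c y
  rw [cc_eq hl, Zd_eq, inner_zero_right] at h1
  exact h1

theorem Wc (hl : Leaf m c) (w : Wd m c) : m (w : V) c = 0 := by
  rw [hl.right, inner_W hl, zero_smul]

theorem Zc (hl : Leaf m c) (y : Zd m c) : m (y : V) c = 0 := by
  rw [hl.right, inner_Z hl, zero_smul]

theorem eigen (hg : Good m) (a x : V) (α β : ℝ) (h0 : m a c = 0) (ha : m c a = α • a)
    (hx : m c x = β • x) : m c (m a x) = (α + β) • m a x := by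
  have h := hg.lsa c a x
  rw [ha, hx, h0, map_zero, LinearMap.zero_apply, sub_zero, map_smul, map_smul,
    LinearMap.smul_apply] at h
  rw [add_smul, ← h]
  abel

theorem mem_WZ (hg : Good m) (hl : Leaf m c) (w : Wd m c) (y : Zd m c) :
    m (w : V) (y : V) ∈ Wd m c := by
  refine Module.End.mem_eigenspace_iff.2 ?_
  have h := eigen (c := c) hg (w : V) (y : V) (1 / 2) 0 (Wc hl w) (Wd_eq w) (by
    rw [Zd_eq, zero_smul])
  rw [h, add_zero]

theorem mem_ZW (hg : Good m) (hl : Leaf m c) (y : Zd m c) (w : Wd m c) :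
    m (y : V) (w : V) ∈ Wd m c := by
  refine Module.End.mem_eigenspace_iff.2 ?_
  have h := eigen (c := c) hg (y : V) (w : V) 0 (1 / 2) (Zc hl y) (by
    rw [Zd_eq, zero_smul]) (Wd_eq w)
  rw [h, zero_add]

theorem mem_ZZ (hg : Good m) (hl : Leaf m c) (y y' : Zd m c) :
    m (y : V) (y' : V) ∈ Zd m c := by
  refine LinearMap.mem_ker.2 ?_
  have h := eigen (c := c) hg (y : V) (y' : V) 0 0 (Zc hl y) (by
    rw [Zd_eq, zero_smul]) (by rw [Zd_eq, zero_smul])
  rw [h, add_zero, zero_smul]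

theorem WW (hg : Good m) (hl : Leaf m c) (w w' : Wd m c) :
    m (w : V) (w' : V) = (inner ℝ (w : V) (w' : V) : ℝ) • c := by
  have h := eigen (c := c) hg (w : V) (w' : V) (1 / 2) (1 / 2) (Wc hl w) (Wd_eq w) (Wd_eq w')
  have h1 : (1 / 2 : ℝ) + 1 / 2 = 1 := by norm_num
  rw [h1, one_smul] at h
  have h2 := hl.quad (m (w : V) (w' : V))
  rw [h, h] at h2
  have h3 : m (w : V) (w' : V) = (inner ℝ c (m (w : V) (w' : V)) : ℝ) • c := by
    have h4 : (2 : ℝ) • m (w : V) (w' : V) = m (w : V) (w' : V) + m (w : V) (w' : V) :=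
      two_smul ℝ _
    rw [h4] at h2
    exact add_left_cancel h2
  have h5 : (inner ℝ (w : V) (w' : V) : ℝ) = inner ℝ c (m (w : V) (w' : V)) := by
    rw [hg.inn (w : V) (w' : V)]
    conv_lhs => rw [h3]
    rw [map_smul, hl.tr, smul_eq_mul, mul_one]
  rw [h5]
  exact h3

/-- the restriction to `Z` -/
noncomputable def mZ (hg : Good m) (hl : Leaf m c) :
    Zd m c →ₗ[ℝ] Zd m c →ₗ[ℝ] Zd m c :=
  LinearMap.mk₂ ℝ (fun y y' => ⟨m (y : V) (y' : V), mem_ZZ hg hl y y'⟩)
    (fun _ _ _ => Subtype.ext (by simp))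
    (fun _ _ _ => Subtype.ext (by simp))
    (fun _ _ _ => Subtype.ext (by simp))
    (fun _ _ _ => Subtype.ext (by simp))

/-- `y ↦ (w ↦ y * w)` -/
noncomputable def rZ (hg : Good m) (hl : Leaf m c) :
    Zd m c →ₗ[ℝ] (Wd m c →ₗ[ℝ] Wd m c) :=
  LinearMap.mk₂ ℝ (fun y w => ⟨m (y : V) (w : V), mem_ZW hg hl y w⟩)
    (fun _ _ _ => Subtype.ext (by simp))
    (fun _ _ _ => Subtype.ext (by simp))
    (fun _ _ _ => Subtype.ext (by simp))
    (fun _ _ _ => Subtype.ext (by simp))

theorem mZ_coe (hg : Good m) (hl : Leaf m c) (y y' : Zd m c) :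
    ((mZ hg hl y y' : Zd m c) : V) = m (y : V) (y' : V) := rfl

theorem rZ_coe (hg : Good m) (hl : Leaf m c) (y : Zd m c) (w : Wd m c) :
    ((rZ hg hl y w : Wd m c) : V) = m (y : V) (w : V) := rfl

theorem sym_aux (hg : Good m) (hl : Leaf m c) (y : Zd m c) (w w' : Wd m c) :
    (inner ℝ (m (y : V) (w : V)) (w' : V) : ℝ) + inner ℝ (w : V) (m (y : V) (w' : V)) =
      inner ℝ (m (w : V) (y : V)) (w' : V) := by
  have h := hg.lsa (y : V) (w : V) (w' : V)
  have h1 := WW hg hl w w'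
  have h2 := WW hg hl ⟨_, mem_ZW hg hl y w⟩ w'
  have h3 := WW hg hl w ⟨_, mem_ZW hg hl y w'⟩
  have h4 := WW hg hl ⟨_, mem_WZ hg hl w y⟩ w'
  rw [h1, map_smul, Zc hl, smul_zero, h2, h3, h4, ← sub_smul] at h
  have h5 := congrArg (fun v : V => (inner ℝ c v : ℝ)) h
  simp only [inner_sub_right, real_inner_smul_right, hl.inn, inner_zero_right] at h5
  linarith

theorem SS_coe (hg : Good m) (hl : Leaf m c) (y : Zd m c) (w : Wd m c) :
    ((SS (rZ hg hl) y w : Wd m c) : V) = m (w : V) (y : V) := by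
  have h : SS (rZ hg hl) y w = ⟨m (w : V) (y : V), mem_WZ hg hl w y⟩ := by
    refine ext_inner_right ℝ fun w' => ?_
    rw [SS, LinearMap.add_apply, inner_add_left, LinearMap.adjoint_inner_left]
    exact sym_aux hg hl y w w'
  rw [h]

theorem adj_coe (hg : Good m) (hl : Leaf m c) (y : Zd m c) (w : Wd m c) :
    (((rZ hg hl y).adjoint w : Wd m c) : V) = m (w : V) (y : V) - m (y : V) (w : V) := by
  have h : (rZ hg hl y).adjoint w = SS (rZ hg hl) y w - rZ hg hl y w := by
    rw [SS, LinearMap.add_apply]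
    abel
  rw [h, Submodule.coe_sub, SS_coe, rZ_coe]

/-- the components -/
noncomputable def Psi (hl : Leaf m c) : V ≃ₗ[ℝ] ℝ × Wd m c × Zd m c where
  toFun v := (inner ℝ c v, ⟨(2 : ℝ) • m c v - (2 * inner ℝ c v : ℝ) • c, by
      refine Module.End.mem_eigenspace_iff.2 ?_
      rw [map_sub, map_smul, map_smul, hl.quad, cc_eq hl]
      module⟩, ⟨v - (inner ℝ c v : ℝ) • c - ((2 : ℝ) • m c v - (2 * inner ℝ c v : ℝ) • c), by
      refine LinearMap.mem_ker.2 ?_
      rw [map_sub, map_sub, map_sub, map_smul, map_smul, map_smul, hl.quad, cc_eq hl]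
      module⟩)
  map_add' v v' := by
    refine Prod.ext (inner_add_right _ _ _) (Prod.ext (Subtype.ext ?_) (Subtype.ext ?_))
    · simp only [map_add, inner_add_right, Prod.mk_add_mk, Submodule.coe_add]
      module
    · simp only [map_add, inner_add_right, Prod.mk_add_mk, Submodule.coe_add]
      module
  map_smul' t v := by
    refine Prod.ext (real_inner_smul_right _ _ _) (Prod.ext (Subtype.ext ?_) (Subtype.ext ?_))
    · simp only [map_smul, real_inner_smul_right, Prod.smul_mk, Submodule.coe_smul,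
        RingHom.id_apply]
      module
    · simp only [map_smul, real_inner_smul_right, Prod.smul_mk, Submodule.coe_smul,
        RingHom.id_apply]
      module
  invFun p := p.1 • c + (p.2.1 : V) + (p.2.2 : V)
  left_inv v := by
    simp only
    module
  right_inv p := by
    have h1 : (inner ℝ c (p.1 • c + (p.2.1 : V) + (p.2.2 : V)) : ℝ) = p.1 := by
      rw [inner_add_right, inner_add_right, real_inner_smul_right, hl.inn, inner_W hl,
        inner_Z hl]
      ring
    have h2 : m c (p.1 • c + (p.2.1 : V) + (p.2.2 : V)) =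
        p.1 • c + (1 / 2 : ℝ) • (p.2.1 : V) := by
      rw [map_add, map_add, map_smul, cc_eq hl, Wd_eq, Zd_eq, add_zero]
    refine Prod.ext h1 (Prod.ext (Subtype.ext ?_) (Subtype.ext ?_))
    · simp only [h1, h2]
      module
    · simp only [h1, h2]
      module

theorem Psi_symm (hl : Leaf m c) (p : ℝ × Wd m c × Zd m c) :
    (Psi hl).symm p = p.1 • c + (p.2.1 : V) + (p.2.2 : V) := rfl

end Decx

open Decx in
/-- (6.1), (6.2): an algebra with a leaf is an extension. -/
theorem thm_Dec : St_Dec := by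
  intro V _ _ _ m c hg hl
  refine ⟨Wd m c, Zd m c, mZ hg hl, rZ hg hl, Psi hl, ?_, ⟨?_, ?_⟩, ?_⟩
  · intro a b x
    exact Subtype.ext (hg.lsa (a : V) (b : V) (x : V))
  · intro y y'
    refine LinearMap.ext fun w => Subtype.ext ?_
    have h := hg.lsa (w : V) (y : V) (y' : V)
    rw [LinearMap.add_apply, LinearMap.comp_apply, LinearMap.comp_apply, Submodule.coe_add,
      SS_coe, SS_coe, rZ_coe, SS_coe, adj_coe, mZ_coe, map_sub, LinearMap.sub_apply]
    rw [sub_eq_iff_eq_add] at h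
    rw [h]
    abel
  · intro y y'
    refine LinearMap.ext fun w => Subtype.ext ?_
    have h := hg.lsa (y : V) (y' : V) (w : V)
    rw [LinearMap.sub_apply, LinearMap.comp_apply, LinearMap.comp_apply, Submodule.coe_sub,
      rZ_coe, rZ_coe, rZ_coe, rZ_coe, rZ_coe, Submodule.coe_sub, mZ_coe, mZ_coe, map_sub,
      LinearMap.sub_apply]
    rw [sub_eq_iff_eq_add] at h
    rw [h]
    abel
  · intro a b
    obtain ⟨p, rfl⟩ := (Psi hl).symm.surjective a
    obtain ⟨q, rfl⟩ := (Psi hl).symm.surjective b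
    rw [← LinearEquiv.eq_symm_apply, LinearEquiv.apply_symm_apply, LinearEquiv.apply_symm_apply,
      Psi_symm, Psi_symm, Psi_symm, extm_apply]
    simp only [Submodule.coe_add, Submodule.coe_smul, SS_coe, rZ_coe, mZ_coe, map_add, map_smul,
      LinearMap.add_apply, LinearMap.smul_apply, cc_eq hl, Wd_eq, Zd_eq, Wc hl, Zc hl,
      WW hg hl, smul_zero, add_zero, zero_add, Submodule.coe_inner]
    module

end Pool.Agent.RRC
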