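import Pool.Agent.RRC.ExtND

/-!
# RRC [DND]: real-rootedness and nondegeneracy of the subalgebra, cyclicity
-/

set_option autoImplicit false

open Matrix Polynomial

namespace Pool.Agent.RRC

open ExtNDx in
/-- **DND** -/
theorem thm_DecND (h1 : St_Ext1) (h2 : St_Ext2) (hG : St_ExG) (hS : St_Simple) : St_DecND := by
  classical
  intro V _ _ _ H _ _ _ m r hL hR hrr hnd
  obtain ⟨⟨γ, w, y⟩, hx⟩ := hnd
  have htr : ∀ p : ℝ × H × V, p.2.2 = 0 → tr (extm m r) p = p.1 := by
    intro p hp
    rw [(h2 V H m r p).2.1, hp]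
    have : SS r (0 : V) = 0 := by
      have := SS_smul r 0 (0 : V)
      rwa [zero_smul, zero_smul] at this
    rw [this, map_zero, map_zero, add_zero, add_zero]
  refine ⟨fun z => ?_, y, ?_, w, ?_⟩
  · have h3 := hrr (0, 0, z)
    rw [(h2 V H m r (0, 0, z)).1] at h3
    exact h3.of_dvd (mul_ne_zero (LinearMap.charpoly_monic _).ne_zero
      (LinearMap.charpoly_monic _).ne_zero) (dvd_mul_right _ _)
  · have hsep := hS (ℝ × H × V) (extm m r) (h1 V H m r hL hR) hrr (γ, w, y) hx
    rw [(h2 V H m r (γ, w, y)).1] at hsep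
    have hcop : IsCoprime (m.flip y).charpoly (blk γ w (SS r y)).charpoly := hsep.isCoprime
    obtain ⟨g, -, hg2, hg3⟩ := hG V H m r hL hR (γ, w, y) hcop
    intro v hv
    have h4 := hx (aeval ((extm m r).flip (γ, w, y)) g (0, 0, v)) fun k => by
      rw [hg3 (0, 0, v) k]
      exact hv k
    have h5 := hg2 (0, 0, v)
    rw [h4] at h5
    exact h5.symm
  · set R := (extm m r).flip (γ, w, y) with hRdef
    have hRp : ∀ p : ℝ × H × V, p.2.2 = 0 → p.1 = 0 →
        R p = (inner ℝ p.2.1 w, SS r y p.2.1, 0) := by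
      intro p hp hp1
      change extm m r p (γ, w, y) = _
      rw [extm_apply, hp, hp1]
      simp
    rw [← Submodule.orthogonal_eq_bot_iff, Submodule.eq_bot_iff]
    intro u hu
    have hu' : ∀ k : ℕ, inner ℝ u ((SS r y ^ k) w) = (0 : ℝ) := fun k => by
      rw [real_inner_comm]
      exact (Submodule.mem_orthogonal _ _).1 hu _ (Submodule.subset_span ⟨k, rfl⟩)
    have key : ∀ k : ℕ, (R ^ k) ((0, u, 0) : ℝ × H × V) = (0, (SS r y ^ k) u, 0) := by
      intro k
      induction k with
      | zero => rfl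
      | succ k ih =>
        rw [pow_succ', Module.End.mul_apply, ih, hRp _ rfl rfl, pow_succ',
          Module.End.mul_apply]
        refine Prod.ext ?_ rfl
        change inner ℝ ((SS r y ^ k) u) w = (0 : ℝ)
        rw [inn_pow]
        exact hu' k
    have h6 := hx (0, u, 0) fun k => by
      rw [key k, htr _ rfl]
    exact congrArg (fun p : ℝ × H × V => p.2.1) h6

end Pool.Agent.RRC
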