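import Pool.Agent.RRC.St2

/-!
# RRC / Ent

Entries of the matrices of a digraph, and removal of a vertex.
-/

namespace Pool.Agent.RRC

namespace Entx

/-- a nonempty suffix of a path is a path -/
theorem pathP_suffix {D : Dig} {l l' : List ℕ} (h : D.PathP l) (hs : l' <:+ l) (h0 : l' ≠ []) :
    D.PathP l' :=
  ⟨h0, fun i hi => h.2.1 i (hs.subset hi), h.2.2.suffix hs⟩

/-- the extension by zero -/
theorem ext0_del (D : Dig) (k : ℕ) (x : D.Path → ℝ) {l : List ℕ} (h : (D.del k).PathP l) :
    D.ext0 x l = (D.del k).ext0 (fun p => x (D.pP k p)) l := by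
  unfold Dig.ext0
  by_cases h0 : l = [0]
  · rw [dif_neg (fun h' => h'.2 h0), dif_neg (fun h' => h'.2 h0)]
  · rw [dif_pos ⟨h.of_del, h0⟩, dif_pos ⟨h, h0⟩]
    rfl

/-- the rest of a path -/
theorem pathP_drop {D : Dig} {p q : List ℕ} (hp : D.PathP p) (hq : D.PathP q) (h : p <+: q) :
    D.PathP (q.drop (p.length - 1)) := by
  apply pathP_suffix hq (List.drop_suffix _ _)
  intro h0
  have h1 := congrArg List.length h0
  rw [List.length_drop, List.length_nil] at h1
  have h2 := h.length_le
  have h3 : 0 < p.length := List.length_pos_iff.2 hp.1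
  omega

end Entx

open Entx in
theorem thm_Ent : St_Ent := by
  intro D k x p q hp hq
  unfold Dig.ent
  by_cases h1 : p <+: q
  · rw [if_pos h1, if_pos h1]
    exact ext0_del D k x (pathP_drop hp hq h1)
  · rw [if_neg h1, if_neg h1]
    by_cases h2 : q <+: p
    · rw [if_pos h2, if_pos h2]
      exact ext0_del D k x (pathP_drop hq hp h2)
    · rw [if_neg h2, if_neg h2]

end Pool.Agent.RRC
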