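import Pool.Agent.RRC.St2

/-!
# RRC: [EXG] the idempotent polynomial
-/

set_option autoImplicit false

noncomputable section

namespace Pool.Agent.RRC

open Matrix Polynomial

namespace ExGx

theorem inter {A B : Type} [AddCommGroup A] [Module ℝ A] [AddCommGroup B] [Module ℝ B]
    (S : A →ₗ[ℝ] A) (T : B →ₗ[ℝ] B) (i : A →ₗ[ℝ] B) (h : T ∘ₗ i = i ∘ₗ S) (f : ℝ[X]) :
    aeval T f ∘ₗ i = i ∘ₗ aeval S f := by
  have hpow : ∀ n : ℕ, (T ^ n) ∘ₗ i = i ∘ₗ (S ^ n) := by
    intro n
    induction n with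
    | zero => ext a; simp
    | succ n ihn =>
      ext a
      have h1 := LinearMap.congr_fun ihn (S a)
      have h2 := LinearMap.congr_fun h a
      simp only [LinearMap.comp_apply] at h1 h2 ⊢
      rw [pow_succ, pow_succ, Module.End.mul_apply, Module.End.mul_apply, h2, h1]
  induction f using Polynomial.induction_on' with
  | add p q hp hq =>
    rw [map_add, map_add, LinearMap.add_comp, LinearMap.comp_add, hp, hq]
  | monomial n a =>
    ext v
    have h1 := LinearMap.congr_fun (hpow n) v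
    simp only [LinearMap.comp_apply] at h1 ⊢
    rw [aeval_monomial, aeval_monomial, Module.End.mul_apply, Module.End.mul_apply,
      Module.algebraMap_end_apply, Module.algebraMap_end_apply, h1, map_smul]

end ExGx

/-- [EXG] -/
theorem thm_ExG (h1 : St_Ext1) (hK : St_K1) : St_ExG := by
  intro V _ _ _ H _ _ _ m r hm hr x hcop
  have hM : LSA (extm m r) := h1 V H m r hm hr
  obtain ⟨-, -, hK3, -⟩ := hK (ℝ × H × V) (extm m r) hM
  obtain ⟨-, hK2, -, -⟩ := hK V m hm
  let i : (ℝ × H) →ₗ[ℝ] (ℝ × H × V) :=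
    { toFun := fun p => (p.1, p.2, 0)
      map_add' := fun p q => Prod.ext rfl (Prod.ext rfl (add_zero 0).symm)
      map_smul' := fun t p => Prod.ext rfl (Prod.ext rfl (smul_zero t).symm) }
  let q : (ℝ × H × V) →ₗ[ℝ] V := LinearMap.snd ℝ H V ∘ₗ LinearMap.snd ℝ ℝ (H × V)
  let j : V →ₗ[ℝ] (ℝ × H × V) := LinearMap.inr ℝ ℝ (H × V) ∘ₗ LinearMap.inr ℝ H V
  have hq : ∀ a, q a = a.2.2 := fun _ => rfl
  have hj : ∀ b, j b = (0, 0, b) := fun _ => rfl
  have hi : ∀ p, i p = (p.1, p.2, 0) := fun _ => rfl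
  set R := (extm m r).flip x with hR
  set B := blk x.1 x.2.1 (SS r x.2.2) with hB
  have hRi : R ∘ₗ i = i ∘ₗ B := by
    refine LinearMap.ext fun p => ?_
    show extm m r (i p) x = i (B p)
    rw [extm_apply, hi, hi, hB]
    refine Prod.ext rfl (Prod.ext ?_ ?_)
    · show (p.1 / 2) • x.2.1 + SS r x.2.2 p.2 + r 0 x.2.1 = (p.1 / 2) • x.2.1 + SS r x.2.2 p.2
      rw [map_zero, LinearMap.zero_apply, add_zero]
    · show m 0 x.2.2 = 0
      rw [map_zero, LinearMap.zero_apply]
  have hqR : (m.flip x.2.2) ∘ₗ q = q ∘ₗ R := LinearMap.ext fun _ => rfl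
  obtain ⟨u, v, huv⟩ := hcop
  have hg : v * B.charpoly = 1 - u * (m.flip x.2.2).charpoly := by
    rw [← huv]
    ring
  have hg1 : ∀ a : ℝ × H × V, a.2.2 = 0 → aeval R (v * B.charpoly) a = 0 := by
    intro a ha
    have h2 : a = i (a.1, a.2.1) := Prod.ext rfl (Prod.ext rfl ha)
    have h3 := LinearMap.congr_fun (ExGx.inter B R i hRi (v * B.charpoly)) (a.1, a.2.1)
    rw [LinearMap.comp_apply, LinearMap.comp_apply, map_mul (aeval B),
      LinearMap.aeval_self_charpoly, mul_zero, LinearMap.zero_apply, map_zero] at h3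
    rw [h2, h3]
  have hg2 : ∀ a : ℝ × H × V, (aeval R (v * B.charpoly) a).2.2 = a.2.2 := by
    intro a
    have h3 : aeval (m.flip x.2.2) (v * B.charpoly) (q a) = q (aeval R (v * B.charpoly) a) :=
      LinearMap.congr_fun (ExGx.inter R (m.flip x.2.2) q hqR (v * B.charpoly)) a
    rw [← hq, ← h3, hg, map_sub, map_one, map_mul, LinearMap.aeval_self_charpoly, mul_zero,
      sub_zero]
    rfl
  refine ⟨v * B.charpoly, hg1, hg2, fun a k => ?_⟩
  -- the trace identity
  have h4 : (R ^ k) (aeval R (v * B.charpoly) a) = aeval R (X ^ k * (v * B.charpoly)) a := by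
    rw [map_mul (aeval R) (X ^ k), map_pow, aeval_X, Module.End.mul_apply]
  rw [h4, ← hK3 (X ^ k * (v * B.charpoly)) x a, ← hK2 k x.2.2 a.2.2]
  set Z := aeval ((extm m r).flip x) (X ^ k * (v * B.charpoly)) * (extm m r).flip a with hZ
  have hZa : ∀ b, Z b = (R ^ k) (aeval R (v * B.charpoly) (extm m r b a)) := by
    intro b
    rw [hZ, Module.End.mul_apply, ← hR, map_mul (aeval R) (X ^ k), map_pow, aeval_X,
      Module.End.mul_apply]
    rfl
  have hZi : ∀ b : ℝ × H × V, b.2.2 = 0 → Z b = 0 := by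
    intro b hb
    rw [hZa, hg1, map_zero]
    rw [extm_apply]
    show m b.2.2 a.2.2 = 0
    rw [hb, map_zero, LinearMap.zero_apply]
  have hqRk : ∀ b, q ((R ^ k) b) = ((m.flip x.2.2) ^ k) (q b) := by
    intro b
    have h3 : aeval (m.flip x.2.2) (X ^ k) (q b) = q (aeval R (X ^ k) b) :=
      LinearMap.congr_fun (ExGx.inter R (m.flip x.2.2) q hqR (X ^ k)) b
    rw [map_pow, map_pow, aeval_X, aeval_X] at h3
    exact h3.symm
  have hZq : Z = (Z ∘ₗ j) ∘ₗ q := by
    refine LinearMap.ext fun b => ?_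
    have h5 : Z (b - j (q b)) = 0 := hZi _ (by
      show b.2.2 - b.2.2 = 0
      exact sub_self _)
    rw [map_sub, sub_eq_zero] at h5
    exact h5
  rw [hZq, LinearMap.trace_comp_comm' q (Z ∘ₗ j)]
  congr 1
  refine LinearMap.ext fun b => ?_
  show q (Z (j b)) = ((m.flip x.2.2) ^ k) (m.flip a.2.2 b)
  rw [hZa, hqRk, hq, hg2]
  rfl

end Pool.Agent.RRC
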