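import Pool.Agent.RRC.St2

/-!
# Real-rooted admissible collections: [EXK], the extension step with coordinates (MP_835236_al)
-/

open Matrix Polynomial

namespace Pool.Agent.RRC

theorem thm_ExK (h1 : St_Ext1) (h2 : St_Ext2) (hN : St_ExtND) (hS : St_Simple) (hT : St_Tra)
    (hCo : St_Co) (hQ : St_QC) (hCB : St_CB) (hM : St_MR) : St_ExK := by
  intro D k hk m' r hm' hx hmod hr hrS
  obtain ⟨y, hy, hy0⟩ := hx
  obtain ⟨hrep, hSS, hom, -⟩ := hM _ _ m' r hr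
  have hLM : LSA (extm m' (toH r)) := h1 _ _ m' (toH r) hm' hrep
  let C : (D.Path → ℝ) ≃ₗ[ℝ]
      ℝ × EuclideanSpace ℝ ((D.del k).Q (D.out k)) × ((D.del k).Path → ℝ) :=
    LinearEquiv.ofBijective (D.co hk.1) (hCo D k hk).1
  have hC : ∀ a, C a = D.co hk.1 a := fun a => rfl
  let m1 : (D.Path → ℝ) →ₗ[ℝ] (D.Path → ℝ) →ₗ[ℝ] (D.Path → ℝ) :=
    ((extm m' (toH r)).compl₁₂ C.toLinearMap C.toLinearMap).compr₂ C.symm.toLinearMap
  have hm1 : ∀ a b, m1 a b = C.symm (extm m' (toH r) (C a) (C b)) := fun a b => rfl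
  have hiso : AIso (extm m' (toH r)) m1 C.symm := fun a b => by
    rw [hm1, C.apply_symm_apply, C.apply_symm_apply]
  obtain ⟨-, t1, t2, -, t4, -⟩ := hT _ _ (extm m' (toH r)) m1 C.symm hiso
  have hcm : ∀ z, (m'.flip z).charpoly = ((D.del k).mat z).charpoly := fun z => hmod z
  have hRR : RR m' := fun z => by
    rw [hcm z]
    exact (hQ (D.del k) z).2.2.1
  have hsep := hS _ m' hm' hRR y hy
  have hsub : D.out k ⊆ insert 0 (D.del k).vs := by
    intro j hj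
    have h3 := D.down k j ((D.mem_out k j).1 hj)
    rcases h3.2.2 with h4 | h4
    · exact h4 ▸ Finset.mem_insert_self _ _
    · exact Finset.mem_insert_of_mem (Finset.mem_erase.2 ⟨h3.1.ne, h4⟩)
  rw [hcm y] at hsep
  have hy0' := hy0
  rw [hcm y] at hy0'
  have hcyc : Cyc (SS (toH r) y) := by
    rw [hSS y, hrS y]
    exact ((hCB (D.del k) y).2 (D.out k) hsub hsep hy0').2
  obtain ⟨γ, w, hnd, hev⟩ := hN _ _ m' (toH r) hm' hrep y hy hcyc
  refine ⟨m1, t1 hLM, ⟨C.symm (γ, w, y), t4 _ hnd, ?_⟩, ?_, ?_⟩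
  · rw [← t2 (γ, w, y)]
    exact hev hy0
  · intro x
    have e1 := t2 (C x)
    rw [C.symm_apply_apply] at e1
    obtain ⟨e2, -, e3⟩ := h2 _ _ m' (toH r) (C x)
    have e4 := e3 _ (EuclideanSpace.basisFun ((D.del k).Q (D.out k)) ℝ)
    rw [hSS, hrS, hom] at e4
    rw [hSS, hrS] at e2
    have e5 := ((hCB D x).1 k hk).1
    rw [← e1, e2, e4, hcm]
    exact e5.symm
  · intro a b
    rw [← hC, ← hC, ← hC, hm1, C.apply_symm_apply]

end Pool.Agent.RRC
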