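import Pool.Agent.RRC.St2

/-!
# RRC [EXT1]: the extension is left-symmetric (helper70)
-/

set_option autoImplicit false

namespace Pool.Agent.RRC

namespace Ext1x

variable {V : Type} [AddCommGroup V] [Module ℝ V]
variable {H : Type} [NormedAddCommGroup H] [InnerProductSpace ℝ H] [FiniteDimensional ℝ H]

theorem SS_apply (r : V →ₗ[ℝ] (H →ₗ[ℝ] H)) (y : V) (u : H) :
    SS r y u = r y u + (r y).adjoint u := rfl

theorem SS_symm (r : V →ₗ[ℝ] (H →ₗ[ℝ] H)) (y : V) (u w : H) :
    (inner ℝ (SS r y u) w : ℝ) = inner ℝ u (SS r y w) := by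
  rw [SS_apply, SS_apply, inner_add_left, inner_add_right, LinearMap.adjoint_inner_left,
    LinearMap.adjoint_inner_right, add_comm]

end Ext1x

open Ext1x

theorem thm_Ext1 : St_Ext1 := by
  intro V _ _ H _ _ _ m r hL hR
  rintro ⟨α, u, b⟩ ⟨α', u', b'⟩ ⟨γ, w, y⟩
  simp only [extm_apply]
  refine Prod.ext ?_ (Prod.ext ?_ ?_)
  · simp only [Prod.fst_sub, inner_add_left, inner_add_right, inner_smul_left, inner_smul_right,
      RCLike.conj_to_real, SS_apply r b, SS_apply r b', LinearMap.adjoint_inner_left]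
    have h1 : (inner ℝ u (SS r y u') : ℝ) = inner ℝ u' (SS r y u) := by
      rw [← SS_symm, real_inner_comm]
    have h2 : (inner ℝ u u' : ℝ) = inner ℝ u' u := real_inner_comm _ _
    rw [h1, h2]
    ring
  · have h1 : ∀ (c : V) (z : H), SS r (m c y) z =
        r c (SS r y z) + SS r y ((r c).adjoint z) := fun c z =>
      congrArg (fun S : H →ₗ[ℝ] H => S z) (hR.sym c y)
    have h2 : r (m b b') w - r (m b' b) w = r b (r b' w) - r b' (r b w) := by
      have h3 := congrArg (fun S : H →ₗ[ℝ] H => S w) (hR.lie b b')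
      simpa only [map_sub, LinearMap.sub_apply, LinearMap.comp_apply] using h3
    have h3 : (inner ℝ u u' : ℝ) = inner ℝ u' u := real_inner_comm _ _
    rw [sub_eq_iff_eq_add] at h2
    simp only [Prod.snd_sub, Prod.fst_sub, map_add, map_smul, SS_apply r b, SS_apply r b', h1, h2,
      h3]
    module
  · exact hL b b' y

end Pool.Agent.RRC
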