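import Pool.Agent.RRC.St2

/-!
[EXT2] The characteristic polynomial and the trace of the extension.
-/

open Matrix Polynomial

namespace Pool.Agent.RRC

namespace Ext2x

section gen

variable {M N : Type} [AddCommGroup M] [Module ℝ M] [AddCommGroup N] [Module ℝ N]

/-- the matrix of a block operator -/
theorem mat_blocks {ι κ : Type} [Fintype ι] [DecidableEq ι] [Fintype κ] [DecidableEq κ]
    (bM : Module.Basis ι ℝ M) (bN : Module.Basis κ ℝ N)
    (f : (M × N) →ₗ[ℝ] (M × N)) (A : M →ₗ[ℝ] M) (B : N →ₗ[ℝ] M) (C : M →ₗ[ℝ] N) (D : N →ₗ[ℝ] N)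
    (hf : ∀ p, f p = (A p.1 + B p.2, C p.1 + D p.2)) :
    LinearMap.toMatrix (bM.prod bN) (bM.prod bN) f =
      fromBlocks (LinearMap.toMatrix bM bM A) (LinearMap.toMatrix bN bM B)
        (LinearMap.toMatrix bM bN C) (LinearMap.toMatrix bN bN D) := by
  have hf1 : ∀ p, (f p).1 = A p.1 + B p.2 := fun p => congrArg Prod.fst (hf p)
  have hf2 : ∀ p, (f p).2 = C p.1 + D p.2 := fun p => congrArg Prod.snd (hf p)
  ext i j
  rcases i with i | i <;> rcases j with j | j
  · rw [LinearMap.toMatrix_apply, fromBlocks_apply₁₁, LinearMap.toMatrix_apply,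
      Module.Basis.prod_repr_inl, hf1, Module.Basis.prod_apply_inl_fst,
      Module.Basis.prod_apply_inl_snd, map_zero, add_zero]
  · rw [LinearMap.toMatrix_apply, fromBlocks_apply₁₂, LinearMap.toMatrix_apply,
      Module.Basis.prod_repr_inl, hf1, Module.Basis.prod_apply_inr_fst,
      Module.Basis.prod_apply_inr_snd, map_zero, zero_add]
  · rw [LinearMap.toMatrix_apply, fromBlocks_apply₂₁, LinearMap.toMatrix_apply,
      Module.Basis.prod_repr_inr, hf2, Module.Basis.prod_apply_inl_fst,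
      Module.Basis.prod_apply_inl_snd, map_zero, add_zero]
  · rw [LinearMap.toMatrix_apply, fromBlocks_apply₂₂, LinearMap.toMatrix_apply,
      Module.Basis.prod_repr_inr, hf2, Module.Basis.prod_apply_inr_fst,
      Module.Basis.prod_apply_inr_snd, map_zero, zero_add]

variable [Module.Finite ℝ M] [Module.Finite ℝ N]

/-- the trace of a block operator -/
theorem trace_blocks (f : (M × N) →ₗ[ℝ] (M × N)) (A : M →ₗ[ℝ] M) (B : N →ₗ[ℝ] M)
    (C : M →ₗ[ℝ] N) (D : N →ₗ[ℝ] N)
    (hf : ∀ p, f p = (A p.1 + B p.2, C p.1 + D p.2)) :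
    LinearMap.trace ℝ (M × N) f = LinearMap.trace ℝ M A + LinearMap.trace ℝ N D := by
  classical
  have bM := Module.finBasis ℝ M
  have bN := Module.finBasis ℝ N
  rw [LinearMap.trace_eq_matrix_trace ℝ (bM.prod bN), LinearMap.trace_eq_matrix_trace ℝ bM,
    LinearMap.trace_eq_matrix_trace ℝ bN, mat_blocks bM bN f A B C D hf]
  simp only [Matrix.trace, Matrix.diag, Fintype.sum_sum_type, fromBlocks_apply₁₁,
    fromBlocks_apply₂₂]

/-- the characteristic polynomial of a triangular block operator -/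
theorem charpoly_blocks (f : (M × N) →ₗ[ℝ] (M × N)) (A : M →ₗ[ℝ] M) (B : N →ₗ[ℝ] M)
    (D : N →ₗ[ℝ] N) (hf : ∀ p, f p = (A p.1 + B p.2, D p.2)) :
    f.charpoly = A.charpoly * D.charpoly := by
  classical
  have bM := Module.finBasis ℝ M
  have bN := Module.finBasis ℝ N
  have hf' : ∀ p, f p = (A p.1 + B p.2, (0 : M →ₗ[ℝ] N) p.1 + D p.2) := by
    intro p
    rw [hf p, LinearMap.zero_apply, zero_add]
  rw [← LinearMap.charpoly_toMatrix f (bM.prod bN), ← LinearMap.charpoly_toMatrix A bM,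
    ← LinearMap.charpoly_toMatrix D bN, mat_blocks bM bN f A B 0 D hf', map_zero,
    charpoly_fromBlocks_zero₂₁]

end gen

section blkop

variable {H : Type} [NormedAddCommGroup H] [InnerProductSpace ℝ H] [FiniteDimensional ℝ H]

theorem trace_blk (γ : ℝ) (w : H) (S : H →ₗ[ℝ] H) :
    LinearMap.trace ℝ (ℝ × H) (blk γ w S) = γ + LinearMap.trace ℝ H S := by
  have h1 := trace_blocks (blk γ w S) (γ • LinearMap.id) (innerₛₗ ℝ w)
    (LinearMap.toSpanSingleton ℝ H ((1 / 2 : ℝ) • w)) S (by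
      intro p
      refine Prod.ext ?_ ?_
      · show p.1 * γ + inner ℝ p.2 w = γ * p.1 + inner ℝ w p.2
        rw [real_inner_comm, mul_comm]
      · show (p.1 / 2) • w + S p.2 = p.1 • ((1 / 2 : ℝ) • w) + S p.2
        rw [smul_smul]
        ring_nf)
  rw [h1, map_smul, LinearMap.trace_id, Module.finrank_self]
  norm_num

theorem charpoly_blk (γ : ℝ) (w : H) (S : H →ₗ[ℝ] H) (ι : Type) [Fintype ι] [DecidableEq ι]
    (b : OrthonormalBasis ι ℝ H) :
    (blk γ w S).charpoly = (bmat γ (fun i => b.repr w i) (omat b S)).charpoly := by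
  have hw : ∀ _ : ι, IsUnit (1 / √2 : ℝ) := fun _ => by
    refine IsUnit.mk0 _ ?_
    positivity
  have h2 : (√2 : ℝ) ≠ 0 := by positivity
  have h22 : (√2 : ℝ) * √2 = 2 := Real.mul_self_sqrt (by norm_num)
  set bN : Module.Basis ι ℝ H := b.toBasis.isUnitSMul hw with hbN
  have hb : ∀ i, bN i = (1 / √2 : ℝ) • b i := by
    intro i
    rw [hbN, Module.Basis.isUnitSMul_apply, OrthonormalBasis.coe_toBasis]
  have hr : ∀ v i, bN.repr v i = √2 * inner ℝ (b i) v := by
    intro v i
    have h3 : b.toBasis.repr v i = inner ℝ (b i) v := by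
      rw [OrthonormalBasis.coe_toBasis_repr_apply, OrthonormalBasis.repr_apply_apply]
    rw [hbN, Module.Basis.repr_isUnitSMul, h3, Units.smul_def, smul_eq_mul, Units.val_inv_eq_inv_val,
      IsUnit.unit_spec, one_div, inv_inv]
  rw [← LinearMap.charpoly_toMatrix (blk γ w S) ((Module.Basis.singleton Unit ℝ).prod bN)]
  congr 1
  ext i j
  have e1 : ∀ v : ℝ × H, (blk γ w S v).1 = v.1 * γ + inner ℝ v.2 w := fun _ => rfl
  have e2 : ∀ v : ℝ × H, (blk γ w S v).2 = (v.1 / 2) • w + S v.2 := fun _ => rfl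
  rcases i with i | i <;> rcases j with j | j
  · rw [LinearMap.toMatrix_apply, Module.Basis.prod_repr_inl, e1, Module.Basis.prod_apply_inl_fst,
      Module.Basis.prod_apply_inl_snd, inner_zero_left, add_zero, Module.Basis.singleton_apply, one_mul,
      Module.Basis.singleton_repr]
    rfl
  · rw [LinearMap.toMatrix_apply, Module.Basis.prod_repr_inl, e1, Module.Basis.prod_apply_inr_fst,
      Module.Basis.prod_apply_inr_snd, zero_mul, zero_add, Module.Basis.singleton_repr, hb,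
      real_inner_smul_left]
    show 1 / √2 * inner ℝ (b j) w = b.repr w j / √2
    rw [OrthonormalBasis.repr_apply_apply]
    ring
  · rw [LinearMap.toMatrix_apply, Module.Basis.prod_repr_inr, e2, Module.Basis.prod_apply_inl_fst,
      Module.Basis.prod_apply_inl_snd, map_zero S, add_zero, Module.Basis.singleton_apply, hr,
      inner_smul_right]
    show √2 * (1 / 2 * inner ℝ (b i) w) = b.repr w i / √2
    rw [OrthonormalBasis.repr_apply_apply, eq_div_iff h2]
    linear_combination (1 / 2 * inner ℝ (b i) w) * h22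
  · rw [LinearMap.toMatrix_apply, Module.Basis.prod_repr_inr, e2, Module.Basis.prod_apply_inr_fst,
      Module.Basis.prod_apply_inr_snd, zero_div, zero_smul, zero_add, hr, hb, map_smul,
      inner_smul_right]
    show √2 * (1 / √2 * inner ℝ (b i) (S (b j))) = inner ℝ (b i) (S (b j))
    field_simp

end blkop

end Ext2x

theorem thm_Ext2 : St_Ext2 := by
  intro V _ _ _ H _ _ _ m r x
  obtain ⟨γ, w, y⟩ := x
  -- the operator on `(ℝ × H) × V`
  let e : ((ℝ × H) × V) ≃ₗ[ℝ] (ℝ × H × V) := LinearEquiv.prodAssoc ℝ ℝ H V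
  let f : ((ℝ × H) × V) →ₗ[ℝ] ((ℝ × H) × V) := e.symm.conj ((extm m r).flip (γ, w, y))
  let Z : V →ₗ[ℝ] (ℝ × H) := (LinearMap.inr ℝ ℝ H) ∘ₗ (r.flip w)
  have hf : ∀ p, f p = (blk γ w (SS r y) p.1 + Z p.2, m.flip y p.2) := by
    rintro ⟨⟨α, u⟩, b⟩
    refine Prod.ext (Prod.ext ?_ ?_) rfl
    · show α * γ + inner ℝ u w = (α * γ + inner ℝ u w) + 0
      rw [add_zero]
    · rfl
  have hf' : ∀ p, f p = (blk γ w (SS r y) p.1 + Z p.2, (0 : (ℝ × H) →ₗ[ℝ] V) p.1 + m.flip y p.2) := by
    intro p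
    rw [hf p, LinearMap.zero_apply, zero_add]
  refine ⟨?_, ?_, ?_⟩
  · have h1 : f.charpoly = ((extm m r).flip (γ, w, y)).charpoly := LinearEquiv.charpoly_conj _ _
    rw [← h1, Ext2x.charpoly_blocks f _ Z _ hf, mul_comm]
  · have h1 : LinearMap.trace ℝ ((ℝ × H) × V) f =
        LinearMap.trace ℝ (ℝ × H × V) ((extm m r).flip (γ, w, y)) := LinearMap.trace_conj' _ _
    show LinearMap.trace ℝ (ℝ × H × V) ((extm m r).flip (γ, w, y)) =
      γ + LinearMap.trace ℝ H (SS r y) + LinearMap.trace ℝ V (m.flip y)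
    rw [← h1, Ext2x.trace_blocks f _ Z _ _ hf', Ext2x.trace_blk]
  · intro ι _ _ b
    exact Ext2x.charpoly_blk γ w (SS r y) ι b

end Pool.Agent.RRC
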