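import Pool.Agent.RRC.St2

/-!
# RRC [END]: nondegeneracy of the extension
-/

set_option autoImplicit false

open Matrix Polynomial

namespace Pool.Agent.RRC

namespace ExtNDx

/-- a split monic polynomial without common roots with `P` is coprime to `P` -/
theorem coprime {P Q : ℝ[X]} (hQ : Q.Splits) (hm : Q.Monic)
    (h : ∀ l : ℝ, P.eval l = 0 → Q.eval l ≠ 0) : IsCoprime P Q := by
  rw [hQ.eq_prod_roots_of_monic hm]
  have h1 : ∀ a ∈ Q.roots, P.eval a ≠ 0 := fun a ha h0 => h a h0 ((mem_roots'.1 ha).2)
  generalize Q.roots = s at h1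
  induction s using Multiset.induction_on with
  | empty =>
    rw [Multiset.map_zero, Multiset.prod_zero]
    exact isCoprime_one_right
  | cons a s ih =>
    rw [Multiset.map_cons, Multiset.prod_cons]
    refine IsCoprime.mul_right ?_ (ih fun b hb => h1 b (Multiset.mem_cons_of_mem hb))
    refine IsCoprime.symm ((irreducible_X_sub_C a).coprime_iff_not_dvd.2 fun hd => ?_)
    exact h1 a (Multiset.mem_cons_self a s) (dvd_iff_isRoot.1 hd)

variable {V : Type} [AddCommGroup V] [Module ℝ V]
variable {H : Type} [NormedAddCommGroup H] [InnerProductSpace ℝ H] [FiniteDimensional ℝ H]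

theorem inn (r : V →ₗ[ℝ] (H →ₗ[ℝ] H)) (y : V) (u v : H) :
    inner ℝ (SS r y u) v = inner ℝ u (SS r y v) := by
  simp only [SS, LinearMap.add_apply, inner_add_left, inner_add_right,
    LinearMap.adjoint_inner_left, LinearMap.adjoint_inner_right]
  ring

theorem sym (r : V →ₗ[ℝ] (H →ₗ[ℝ] H)) (y : V) : (SS r y).IsSymmetric := inn r y

theorem inn_pow (r : V →ₗ[ℝ] (H →ₗ[ℝ] H)) (y : V) (k : ℕ) (u v : H) :
    inner ℝ ((SS r y ^ k) u) v = inner ℝ u ((SS r y ^ k) v) := by
  induction k generalizing v with
  | zero => rfl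
  | succ k ih =>
    rw [pow_succ', Module.End.mul_apply, inn, ih, ← Module.End.mul_apply, ← pow_succ, pow_succ']

theorem tr_aeval {W : Type} [AddCommGroup W] [Module ℝ W] (φ : W →ₗ[ℝ] ℝ) (R : W →ₗ[ℝ] W)
    (v : W) (h : ∀ k : ℕ, φ ((R ^ k) v) = 0) (f : ℝ[X]) : φ (aeval R f v) = 0 := by
  rw [aeval_eq_sum_range, LinearMap.sum_apply, map_sum]
  refine Finset.sum_eq_zero fun k _ => ?_
  rw [LinearMap.smul_apply, map_smul, h, smul_zero]

end ExtNDx

open ExtNDx in
/-- **END** -/
theorem thm_ExtND (h2 : St_Ext2) (hG : St_ExG) (hg : St_Gam) : St_ExtND := by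
  classical
  intro V _ _ _ H _ _ _ m r hL hR y hy hcyc
  obtain ⟨w, hw⟩ := hcyc
  have hm0 : (m.flip y).charpoly ≠ 0 := (LinearMap.charpoly_monic _).ne_zero
  obtain ⟨γ, hγ⟩ := hg H (SS r y) w (sym r y) hw (insert 0 (m.flip y).charpoly.roots.toFinset)
  have hno : ∀ l : ℝ, (m.flip y).charpoly.eval l = 0 →
      (blk γ w (SS r y)).charpoly.eval l ≠ 0 := by
    intro l hl
    refine hγ l (Finset.mem_insert_of_mem ?_)
    rw [Multiset.mem_toFinset, mem_roots']
    exact ⟨hm0, hl⟩
  have hsplit : (blk γ w (SS r y)).charpoly.Splits := by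
    have h3 := (h2 V H m r (γ, w, y)).2.2 _ (stdOrthonormalBasis ℝ H)
    change (blk γ w (SS r y)).charpoly = _ at h3
    rw [h3]
    refine Matrix.IsHermitian.splits_charpoly ?_
    unfold bmat
    rw [Matrix.isHermitian_fromBlocks_iff]
    refine ⟨?_, ?_, ?_, ?_⟩
    · ext i j
      rfl
    · ext i j
      rfl
    · ext i j
      rfl
    · ext i j
      simp only [omat, Matrix.conjTranspose_apply, Matrix.of_apply, star_trivial]
      rw [← inn, real_inner_comm]
  have hcop : IsCoprime (m.flip y).charpoly (blk γ w (SS r y)).charpoly :=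
    coprime hsplit (LinearMap.charpoly_monic _) hno
  obtain ⟨g, -, hg2, hg3⟩ := hG V H m r hL hR (γ, w, y) hcop
  refine ⟨γ, w, fun v hv => ?_, fun h0 => ?_⟩
  · set R := (extm m r).flip (γ, w, y) with hRdef
    have hv2 : v.2.2 = 0 := by
      refine hy _ fun k => ?_
      rw [← hg3 v k, ← Module.End.mul_apply]
      have h4 : R ^ k * aeval R g = aeval R (X ^ k * g) := by
        rw [map_mul, map_pow, aeval_X]
      rw [h4]
      exact tr_aeval (tr (extm m r)) R v hv _
    have htr : ∀ p : ℝ × H × V, p.2.2 = 0 → tr (extm m r) p = p.1 := by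
      intro p hp
      rw [(h2 V H m r p).2.1, hp]
      have : SS r (0 : V) = 0 := by
        have := SS_smul r 0 (0 : V)
        rwa [zero_smul, zero_smul] at this
      rw [this, map_zero, map_zero, add_zero, add_zero]
    have hRp : ∀ p : ℝ × H × V, p.2.2 = 0 → p.1 = 0 →
        R p = (inner ℝ p.2.1 w, SS r y p.2.1, 0) := by
      intro p hp hp1
      change extm m r p (γ, w, y) = _
      rw [extm_apply, hp, hp1]
      simp
    have key : ∀ k : ℕ, (R ^ k) v = (0, (SS r y ^ k) v.2.1, 0) := by
      intro k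
      induction k with
      | zero =>
        have h5 := hv 0
        rw [pow_zero, Module.End.one_apply, htr v hv2] at h5
        rw [pow_zero, Module.End.one_apply, pow_zero, Module.End.one_apply]
        exact Prod.ext h5 (Prod.ext rfl hv2)
      | succ k ih =>
        have h5 : (R ^ (k + 1)) v = (inner ℝ ((SS r y ^ k) v.2.1) w,
            (SS r y ^ (k + 1)) v.2.1, 0) := by
          rw [pow_succ', Module.End.mul_apply, ih, hRp _ rfl rfl, pow_succ',
            Module.End.mul_apply]
        have h6 := hv (k + 1)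
        rw [h5, htr _ rfl] at h6
        rw [h5]
        exact Prod.ext h6 rfl
    have hu : v.2.1 = 0 := by
      have h7 : ∀ z ∈ Submodule.span ℝ (Set.range fun k : ℕ => (SS r y ^ k) w),
          inner ℝ v.2.1 z = (0 : ℝ) := by
        intro z hz
        induction hz using Submodule.span_induction with
        | mem x hx =>
          obtain ⟨k, rfl⟩ := hx
          have h8 := key (k + 1)
          rw [pow_succ', Module.End.mul_apply, key k, hRp _ rfl rfl] at h8
          have h9 : inner ℝ ((SS r y ^ k) v.2.1) w = (0 : ℝ) := congrArg Prod.fst h8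
          rw [inn_pow] at h9
          exact h9
        | zero => exact inner_zero_right _
        | add x z _ _ hx hz => rw [inner_add_right, hx, hz, add_zero]
        | smul a x _ hx => rw [inner_smul_right, hx, mul_zero]
      rw [hw] at h7
      exact inner_self_eq_zero.1 (h7 v.2.1 trivial)
    have h1 := hv 0
    rw [pow_zero, Module.End.one_apply, htr v hv2] at h1
    exact Prod.ext h1 (Prod.ext hu hv2)
  · rw [(h2 V H m r (γ, w, y)).1, eval_mul]
    exact mul_ne_zero h0 (hγ 0 (Finset.mem_insert_self _ _))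

end Pool.Agent.RRC
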