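import Pool.Agent.RRC.St2

/-!
# Choice of `γ` ([GAM], MP_835236_al)
-/

set_option autoImplicit false

namespace Pool.Agent.RRC

namespace Gamx

variable {H : Type} [NormedAddCommGroup H] [InnerProductSpace ℝ H] [FiniteDimensional ℝ H]

private theorem pow_inner (S : H →ₗ[ℝ] H) (hS : S.IsSymmetric) {z w : H} {l : ℝ}
    (hz : S z = l • z) (k : ℕ) : (inner ℝ z ((S ^ k) w) : ℝ) = l ^ k * inner ℝ z w := by
  induction k with
  | zero => simp
  | succ k ih =>
    rw [pow_succ' S k, Module.End.mul_apply, ← hS z, hz, inner_smul_left, ih, RCLike.conj_to_real,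
      pow_succ']
    ring

private theorem eq_zero (S : H →ₗ[ℝ] H) (hS : S.IsSymmetric) {z w : H} {l : ℝ}
    (hw : Submodule.span ℝ (Set.range fun k : ℕ => (S ^ k) w) = ⊤)
    (hz : S z = l • z) (h0 : (inner ℝ z w : ℝ) = 0) : z = 0 := by
  have h1 : ∀ v : H, (inner ℝ z v : ℝ) = 0 := by
    intro v
    have hv : v ∈ Submodule.span ℝ (Set.range fun k : ℕ => (S ^ k) w) := hw ▸ Submodule.mem_top
    induction hv using Submodule.span_induction with
    | mem x hx =>
      obtain ⟨k, rfl⟩ := hx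
      change (inner ℝ z ((S ^ k) w) : ℝ) = 0
      rw [pow_inner S hS hz, h0, mul_zero]
    | zero => exact inner_zero_right z
    | add x y _ _ hx hy => rw [inner_add_right, hx, hy, add_zero]
    | smul t x _ hx => rw [inner_smul_right, hx, mul_zero]
  exact inner_self_eq_zero.1 (h1 z)

private theorem exists_vec (γ : ℝ) (w : H) (S : H →ₗ[ℝ] H) (l : ℝ)
    (h : (blk γ w S).charpoly.eval l = 0) :
    ∃ p : ℝ × H, p ≠ 0 ∧ p.1 * γ + inner ℝ p.2 w = l * p.1 ∧
      (p.1 / 2) • w + S p.2 = l • p.2 := by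
  have h1 : Module.End.HasEigenvalue (blk γ w S) l :=
    (Module.End.hasEigenvalue_iff_isRoot_charpoly (blk γ w S) l).2 h
  obtain ⟨p, hp⟩ := h1.exists_hasEigenvector
  have h2 : blk γ w S p = l • p := hp.apply_eq_smul
  exact ⟨p, hp.2, congrArg Prod.fst h2, congrArg Prod.snd h2⟩

private theorem exists_u (γ : ℝ) (w : H) (S : H →ₗ[ℝ] H) (hS : S.IsSymmetric)
    (hw : Submodule.span ℝ (Set.range fun k : ℕ => (S ^ k) w) = ⊤) (l : ℝ)
    (h : (blk γ w S).charpoly.eval l = 0) :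
    ∃ u : H, γ + inner ℝ u w = l ∧ (1 / 2 : ℝ) • w + S u = l • u := by
  obtain ⟨⟨α, u⟩, hp, h1, h2⟩ := exists_vec γ w S l h
  change α * γ + inner ℝ u w = l * α at h1
  change (α / 2) • w + S u = l • u at h2
  have hα : α ≠ 0 := by
    rintro rfl
    rw [zero_mul, zero_add, mul_zero] at h1
    rw [zero_div, zero_smul, zero_add] at h2
    exact hp (Prod.ext rfl (eq_zero S hS hw h2 h1))
  refine ⟨α⁻¹ • u, ?_, ?_⟩
  · rw [inner_smul_left, RCLike.conj_to_real]
    field_simp
    linear_combination h1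
  · rw [map_smul, smul_comm l α⁻¹ u, ← h2, smul_add, smul_smul]
    congr 2
    field_simp

private theorem unique (w : H) (S : H →ₗ[ℝ] H) (hS : S.IsSymmetric)
    (hw : Submodule.span ℝ (Set.range fun k : ℕ => (S ^ k) w) = ⊤) (l : ℝ) :
    {γ : ℝ | (blk γ w S).charpoly.eval l = 0}.Subsingleton := by
  intro γ h γ' h'
  obtain ⟨u, h1, h2⟩ := exists_u γ w S hS hw l h
  obtain ⟨u', h1', h2'⟩ := exists_u γ' w S hS hw l h'
  have h3 : S (u - u') = l • (u - u') := by
    rw [map_sub, smul_sub, ← h2, ← h2']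
    abel
  have h4 : (inner ℝ (u - u') ((1 / 2 : ℝ) • w) : ℝ) = 0 := by
    have h5 : (1 / 2 : ℝ) • w = l • u - S u := by
      rw [← h2]
      abel
    rw [h5, inner_sub_right, ← hS (u - u') u, h3, inner_smul_left, inner_smul_right,
      RCLike.conj_to_real, sub_self]
  have h5 : (inner ℝ (u - u') w : ℝ) = 0 := by
    rw [inner_smul_right] at h4
    linarith
  have h6 : u - u' = 0 := eq_zero S hS hw h3 h5
  have h7 : u = u' := sub_eq_zero.1 h6
  rw [h7] at h1
  linarith

end Gamx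

theorem thm_Gam : St_Gam := by
  intro H _ _ _ S w hS hw F
  have h1 : (⋃ l ∈ F, {γ : ℝ | (blk γ w S).charpoly.eval l = 0}).Finite :=
    Set.Finite.biUnion F.finite_toSet fun l _ => (Gamx.unique w S hS hw l).finite
  obtain ⟨γ, hγ⟩ := h1.exists_notMem
  exact ⟨γ, fun l hl h => hγ (Set.mem_biUnion hl h)⟩

end Pool.Agent.RRC
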