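import Pool.Agent.RRC.St2

/-!
# RRC: the main induction (8.1)

Module INDA: `thm_IndA : St_Norm → St_Lf → St_Dec → St_DecND → St_Tra → St_Add → St_Step → St_IndA`.
-/

namespace Pool.Agent.RRC

namespace IndAx

/-- `Full` along an isomorphism of algebras. -/
theorem full_of_iso (hT : St_Tra) {V V' : Type} [AddCommGroup V] [Module ℝ V] [Module.Finite ℝ V]
    [AddCommGroup V'] [Module ℝ V'] [Module.Finite ℝ V'] (m : V →ₗ[ℝ] V →ₗ[ℝ] V)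
    (m' : V' →ₗ[ℝ] V' →ₗ[ℝ] V') (Ψ : V ≃ₗ[ℝ] V') (hΨ : AIso m m' Ψ) (D : Dig)
    (Φ : V' ≃ₗ[ℝ] (D.Path → ℝ)) (h : D.Full m' Φ) : D.Full m (Ψ.trans Φ) := by
  obtain ⟨-, -, h3, -, -, -, -, h8⟩ := hT V V' m m' Ψ hΨ
  refine ⟨fun x => ?_, fun H _ _ _ r hr hc => ?_⟩
  · rw [h3 x, h.1 (Ψ x)]
    rfl
  · obtain ⟨a1, a2⟩ := h8 H r hr
    obtain ⟨x, hx⟩ := hc
    obtain ⟨T, b, hT', hb⟩ := h.2 H (r ∘ₗ Ψ.symm.toLinearMap) a1 ⟨Ψ x, by rw [a2]; exact hx⟩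
    refine ⟨T, b, hT', fun z => ?_⟩
    rw [← a2 z, hb]
    rfl

theorem aux (hN : St_Norm) (hL : St_Lf) (hD : St_Dec) (hDN : St_DecND) (hT : St_Tra)
    (hA : St_Add) (hS : St_Step) (n : ℕ) : ∀ (V : Type) [AddCommGroup V] [Module ℝ V]
    [Module.Finite ℝ V] (m : V →ₗ[ℝ] V →ₗ[ℝ] V), Module.finrank ℝ V = n → LSA m → RR m → ND m →
    ∃ (D : Dig) (Φ : V ≃ₗ[ℝ] (D.Path → ℝ)), D.Full m Φ := by
  induction n using Nat.strong_induction_on with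
  | _ n ih =>
    intro V _ _ _ m hn hl hr hnd
    rcases subsingleton_or_nontrivial V with hV | hV
    · exact hA.2.2 V m hV
    obtain ⟨φ, m', hG, hφ⟩ := hN V m hl hr hnd
    have hE : Nontrivial (EuclideanSpace ℝ (Fin (Module.finrank ℝ V))) :=
      φ.injective.nontrivial
    obtain ⟨c, hc⟩ := hL _ m' hG hE
    obtain ⟨W, Z, m₀, r, Ψ, hl₀, hr₀, hΨ⟩ := hD _ m' c hG hc
    have hΨ1 : AIso m (extm m₀ r) (φ.trans Ψ) := by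
      intro a b
      change Ψ (φ (m a b)) = extm m₀ r (Ψ (φ a)) (Ψ (φ b))
      rw [← hφ, hΨ]
    obtain ⟨-, -, -, -, -, h6, h7, -⟩ := hT V (ℝ × W × Z) m (extm m₀ r) (φ.trans Ψ) hΨ1
    obtain ⟨hRR, y, hy1, hy2⟩ := hDN Z W m₀ r hl₀ hr₀ (h7 hr) (h6 hnd)
    have hlt : Module.finrank ℝ Z < n := by
      have e1 := (φ.trans Ψ).finrank_eq
      rw [Module.finrank_prod, Module.finrank_prod, Module.finrank_self] at e1
      omega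
    obtain ⟨D', Φ', hF⟩ := ih _ hlt Z m₀ rfl hl₀ hRR ⟨y, hy1⟩
    obtain ⟨T, b, hT', hb⟩ := hF.2 W r hr₀ ⟨y, hy2⟩
    obtain ⟨D, k, hk, rfl, rfl⟩ := hA.1 D' T hT'
    obtain ⟨Φ1, hΦ1⟩ := hS D k hk Z W m₀ r Φ' b hF hr₀ ⟨y, hy2⟩ hb
    exact ⟨D, (φ.trans Ψ).trans Φ1, full_of_iso hT m (extm m₀ r) (φ.trans Ψ) hΨ1 D Φ1 hΦ1⟩

end IndAx

/-- [INDA] -/
theorem thm_IndA (hN : St_Norm) (hL : St_Lf) (hD : St_Dec) (hDN : St_DecND) (hT : St_Tra)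
    (hA : St_Add) (hS : St_Step) : St_IndA := by
  intro V _ _ _ m hl hr hnd
  exact IndAx.aux hN hL hD hDN hT hA hS _ V m rfl hl hr hnd

end Pool.Agent.RRC
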