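import Pool.Agent.RRC.St2

/-!
# RRC / MR

From representations by matrices to representations.
-/

open Matrix

namespace Pool.Agent.RRC

namespace MRx

variable {ι : Type} [Fintype ι] [DecidableEq ι]

theorem eq_toLin : (Matrix.toEuclideanLin : Matrix ι ι ℝ ≃ₗ[ℝ] _) =
    Matrix.toLin (PiLp.basisFun 2 ℝ ι) (PiLp.basisFun 2 ℝ ι) := rfl

theorem mul (A B : Matrix ι ι ℝ) : Matrix.toEuclideanLin (A * B) =
    Matrix.toEuclideanLin A ∘ₗ Matrix.toEuclideanLin B := by
  rw [eq_toLin, Matrix.toLin_mul _ (PiLp.basisFun 2 ℝ ι) _]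

theorem adj (A : Matrix ι ι ℝ) : (Matrix.toEuclideanLin A).adjoint =
    Matrix.toEuclideanLin Aᵀ := by
  rw [← Matrix.toEuclideanLin_conjTranspose_eq_adjoint, Matrix.conjTranspose_eq_transpose_of_trivial]

end MRx

open MRx in
theorem thm_MR : St_MR := by
  intro V _ _ ι _ _ m r hr
  have hS : ∀ x, SS (toH r) x = Matrix.toEuclideanLin (r x + (r x)ᵀ) := by
    intro x
    unfold SS toH
    rw [map_add]
    simp only [LinearMap.comp_apply, LinearEquiv.coe_coe]
    rw [adj]
  refine ⟨⟨?_, ?_⟩, hS, ?_, ?_⟩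
  · intro y y'
    have h : Matrix.toEuclideanLin (r (m y y') + (r (m y y'))ᵀ) = Matrix.toEuclideanLin
        (r y * (r y' + (r y')ᵀ) + (r y' + (r y')ᵀ) * (r y)ᵀ) :=
      congrArg Matrix.toEuclideanLin (hr.sym y y')
    rw [map_add Matrix.toEuclideanLin (r y * _), mul, mul] at h
    rw [hS, hS]
    unfold toH
    simp only [LinearMap.comp_apply, LinearEquiv.coe_coe]
    rw [adj]
    exact h
  · intro y y'
    have h : Matrix.toEuclideanLin (r (m y y' - m y' y)) = Matrix.toEuclideanLin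
        (r y * r y' - r y' * r y) := congrArg Matrix.toEuclideanLin (hr.lie y y')
    rw [map_sub Matrix.toEuclideanLin (r y * _), mul, mul] at h
    exact h
  · intro A
    ext i j
    unfold omat
    rw [Matrix.of_apply]
    simp [Matrix.toLpLin_apply, EuclideanSpace.inner_eq_star_dotProduct]
  · intro A
    rw [eq_toLin]
    rw [← LinearMap.charpoly_toMatrix _ (PiLp.basisFun 2 ℝ ι), LinearMap.toMatrix_toLin]

end Pool.Agent.RRC
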