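import Pool.Agent.RRC.St2

/-!
# RRC: constructions of representations by matrices

Module MX: `thm_MX : St_MX`.
-/

set_option autoImplicit false
set_option linter.unusedSectionVars false

open Matrix

namespace Pool.Agent.RRC

namespace MXx

variable {V : Type} [AddCommGroup V] [Module ℝ V]

/-! ### the operators of a representation by matrices -/

theorem toH_apply {ι : Type} [Fintype ι] [DecidableEq ι] (r : V →ₗ[ℝ] Matrix ι ι ℝ) (y : V)
    (u : EuclideanSpace ℝ ι) (i : ι) : (toH r y u) i = ∑ j, r y i j * u j := rfl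

theorem SS_toH {ι : Type} [Fintype ι] [DecidableEq ι] (r : V →ₗ[ℝ] Matrix ι ι ℝ) (y : V)
    (u : EuclideanSpace ℝ ι) (i : ι) :
    (SS (toH r) y u) i = ∑ j, r y i j * u j + ∑ j, r y j i * u j := by
  have h1 : (toH r y).adjoint = Matrix.toEuclideanLin (r y)ᵀ := by
    have h2 := Matrix.toEuclideanLin_conjTranspose_eq_adjoint (𝕜 := ℝ) (r y)
    rw [Matrix.conjTranspose_eq_transpose_of_trivial] at h2
    exact h2.symm
  unfold SS
  rw [h1]
  rfl

theorem fb_sub {ι κ : Type} (A A' : Matrix ι ι ℝ) (B B' : Matrix ι κ ℝ) (C C' : Matrix κ ι ℝ)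
    (D D' : Matrix κ κ ℝ) : fromBlocks A B C D - fromBlocks A' B' C' D' =
      fromBlocks (A - A') (B - B') (C - C') (D - D') := by
  rw [sub_eq_add_neg, fromBlocks_neg, fromBlocks_add]
  simp only [sub_eq_add_neg]

/-! ### (b) -/

section b

variable {ι : Type} [Fintype ι] [DecidableEq ι]

/-- `[[γ/2, wᵀ/√2], [0, r(y)]]` -/
noncomputable def rb (r : V →ₗ[ℝ] Matrix ι ι ℝ) :
    (ℝ × EuclideanSpace ℝ ι × V) →ₗ[ℝ] Matrix (Unit ⊕ ι) (Unit ⊕ ι) ℝ where
  toFun x := fromBlocks (Matrix.of fun _ _ => x.1 / 2) (Matrix.of fun _ i => x.2.1 i / √2) 0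
    (r x.2.2)
  map_add' x y := by
    rw [fromBlocks_add]
    refine fromBlocks_inj.2 ⟨?_, ?_, (add_zero _).symm, ?_⟩
    · ext i j
      exact add_div _ _ _
    · ext i j
      exact add_div _ _ _
    · exact map_add r _ _
  map_smul' t x := by
    rw [RingHom.id_apply, fromBlocks_smul]
    refine fromBlocks_inj.2 ⟨?_, ?_, (smul_zero _).symm, ?_⟩
    · ext i j
      exact mul_div_assoc _ _ _
    · ext i j
      exact mul_div_assoc _ _ _
    · exact map_smul r _ _

theorem rb_apply (r : V →ₗ[ℝ] Matrix ι ι ℝ) (x : ℝ × EuclideanSpace ℝ ι × V) :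
    rb r x = fromBlocks (Matrix.of fun _ _ => x.1 / 2) (Matrix.of fun _ i => x.2.1 i / √2) 0
      (r x.2.2) := rfl

theorem rb_SS (r : V →ₗ[ℝ] Matrix ι ι ℝ) (x : ℝ × EuclideanSpace ℝ ι × V) :
    rb r x + (rb r x)ᵀ = bmat x.1 (fun i => x.2.1 i) (r x.2.2 + (r x.2.2)ᵀ) := by
  rw [rb_apply, fromBlocks_transpose, fromBlocks_add, bmat]
  refine fromBlocks_inj.2 ⟨?_, ?_, ?_, rfl⟩
  · ext i j
    exact add_halves _
  · ext i j
    exact add_zero _
  · ext i j
    exact zero_add _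

theorem inner_eq (u w : EuclideanSpace ℝ ι) : (inner ℝ u w : ℝ) = ∑ i, u i * w i := by
  rw [PiLp.inner_apply]
  refine Finset.sum_congr rfl fun i _ => ?_
  change w i * u i = u i * w i
  rw [mul_comm]

theorem half (x y : ℝ) : x / √2 * (y / √2) = x * y / 2 := by
  rw [div_mul_div_comm, Real.mul_self_sqrt (by norm_num)]

theorem rb_rep (m : V →ₗ[ℝ] V →ₗ[ℝ] V) (r : V →ₗ[ℝ] Matrix ι ι ℝ) (h : MRep m r) :
    MRep (extm m (toH r)) (rb r) := by
  constructor
  · rintro ⟨α, u, b⟩ ⟨γ, w, y⟩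
    rw [rb_SS, rb_SS, rb_apply, fromBlocks_transpose, bmat, bmat, fromBlocks_multiply,
      fromBlocks_multiply, fromBlocks_add]
    refine fromBlocks_inj.2 ⟨?_, ?_, ?_, ?_⟩
    · ext i j
      simp only [extm_apply, inner_eq, Matrix.add_apply, Matrix.mul_apply, Matrix.of_apply,
        Matrix.transpose_apply, Finset.univ_unique, Finset.sum_singleton, half]
      rw [← Finset.sum_div, ← Finset.sum_div]
      have h1 : ∑ i, w i * u i = ∑ i, u i * w i := Finset.sum_congr rfl fun i _ => mul_comm _ _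
      rw [h1]
      ring
    · ext i j
      simp only [extm_apply, Matrix.add_apply, Matrix.mul_apply, Matrix.of_apply,
        Matrix.transpose_apply, Finset.univ_unique, Finset.sum_singleton, Matrix.zero_apply,
        PiLp.add_apply, PiLp.smul_apply, SS_toH, toH_apply, smul_eq_mul]
      have h1 : ∀ f g : ι → ℝ, ∑ k, f k / √2 * g k = (∑ k, g k * f k) / √2 := fun f g => by
        rw [Finset.sum_div]
        exact Finset.sum_congr rfl fun k _ => by ring
      rw [h1, h1]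
      have h2 : ∑ k, (r y k j + r y j k) * u k = ∑ k, r y j k * u k + ∑ k, r y k j * u k := by
        rw [← Finset.sum_add_distrib]
        exact Finset.sum_congr rfl fun k _ => by ring
      rw [h2]
      ring
    · ext i j
      simp only [extm_apply, Matrix.add_apply, Matrix.mul_apply, Matrix.of_apply,
        Matrix.transpose_apply, Finset.univ_unique, Finset.sum_singleton, Matrix.zero_apply,
        PiLp.add_apply, PiLp.smul_apply, SS_toH, toH_apply, smul_eq_mul]
      have h1 : ∀ f g : ι → ℝ, ∑ k, g k * (f k / √2) = (∑ k, g k * f k) / √2 := fun f g => by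
        rw [Finset.sum_div]
        exact Finset.sum_congr rfl fun k _ => by ring
      rw [h1, h1]
      have h2 : ∑ k, (r y i k + r y k i) * u k = ∑ k, r y i k * u k + ∑ k, r y k i * u k := by
        rw [← Finset.sum_add_distrib]
        exact Finset.sum_congr rfl fun k _ => by ring
      rw [h2]
      ring
    · have h1 := h.sym b y
      simp only [extm_apply]
      rw [h1, Matrix.zero_mul, zero_add, transpose_zero, Matrix.mul_zero, zero_add]
  · rintro ⟨α, u, b⟩ ⟨γ, w, y⟩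
    rw [rb_apply, rb_apply, rb_apply, fromBlocks_multiply, fromBlocks_multiply, fb_sub]
    refine fromBlocks_inj.2 ⟨?_, ?_, ?_, ?_⟩
    · ext i j
      simp only [extm_apply, inner_eq, Matrix.add_apply, Matrix.sub_apply, Matrix.mul_apply,
        Matrix.of_apply, Prod.fst_sub, Finset.univ_unique, Finset.sum_singleton,
        Matrix.zero_apply, mul_zero, Finset.sum_const_zero]
      have h1 : ∑ i, w i * u i = ∑ i, u i * w i := Finset.sum_congr rfl fun i _ => mul_comm _ _
      rw [h1]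
      ring
    · ext i j
      simp only [extm_apply, Matrix.add_apply, Matrix.sub_apply, Matrix.mul_apply,
        Matrix.of_apply, Prod.snd_sub, Prod.fst_sub, Finset.univ_unique, Finset.sum_singleton,
        PiLp.add_apply, PiLp.sub_apply, PiLp.smul_apply, SS_toH, toH_apply, smul_eq_mul]
      have h1 : ∀ f g : ι → ℝ, ∑ k, f k / √2 * g k = (∑ k, g k * f k) / √2 := fun f g => by
        rw [Finset.sum_div]
        exact Finset.sum_congr rfl fun k _ => by ring
      rw [h1, h1]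
      ring
    · simp
    · have h1 := h.lie b y
      simp only [extm_apply, Prod.snd_sub]
      rw [h1, Matrix.zero_mul, Matrix.zero_mul, zero_add, zero_add]

end b

/-! ### (c) -/

/-- the direct sum -/
noncomputable def rc {ι κ : Type} (r : V →ₗ[ℝ] Matrix ι ι ℝ) (r' : V →ₗ[ℝ] Matrix κ κ ℝ) :
    V →ₗ[ℝ] Matrix (ι ⊕ κ) (ι ⊕ κ) ℝ where
  toFun x := fromBlocks (r x) 0 0 (r' x)
  map_add' x y := by rw [fromBlocks_add, map_add, map_add, add_zero, add_zero]
  map_smul' t x := by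
    rw [RingHom.id_apply, fromBlocks_smul, map_smul, map_smul, smul_zero, smul_zero]

theorem rc_apply {ι κ : Type} (r : V →ₗ[ℝ] Matrix ι ι ℝ) (r' : V →ₗ[ℝ] Matrix κ κ ℝ) (x : V) :
    rc r r' x = fromBlocks (r x) 0 0 (r' x) := rfl

theorem rc_SS {ι κ : Type} (r : V →ₗ[ℝ] Matrix ι ι ℝ) (r' : V →ₗ[ℝ] Matrix κ κ ℝ) (x : V) :
    rc r r' x + (rc r r' x)ᵀ = fromBlocks (r x + (r x)ᵀ) 0 0 (r' x + (r' x)ᵀ) := by
  rw [rc_apply, fromBlocks_transpose, fromBlocks_add, transpose_zero, transpose_zero, add_zero,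
    add_zero]

theorem rc_rep {ι κ : Type} [Fintype ι] [Fintype κ] (m : V →ₗ[ℝ] V →ₗ[ℝ] V)
    (r : V →ₗ[ℝ] Matrix ι ι ℝ) (r' : V →ₗ[ℝ] Matrix κ κ ℝ) (h : MRep m r) (h' : MRep m r') :
    MRep m (rc r r') := by
  constructor
  · intro y y'
    rw [rc_SS, rc_SS, rc_apply, fromBlocks_transpose, fromBlocks_multiply, fromBlocks_multiply,
      fromBlocks_add, h.sym, h'.sym]
    simp
  · intro y y'
    rw [rc_apply, rc_apply, rc_apply, fromBlocks_multiply, fromBlocks_multiply, fb_sub, h.lie,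
      h'.lie]
    simp

/-! ### (d) -/

/-- reindexing -/
noncomputable def rd {ι κ : Type} (e : κ ≃ ι) (r : V →ₗ[ℝ] Matrix ι ι ℝ) :
    V →ₗ[ℝ] Matrix κ κ ℝ where
  toFun x := (r x).submatrix e e
  map_add' x y := by rw [map_add]; rfl
  map_smul' t x := by rw [map_smul]; rfl

theorem rd_apply {ι κ : Type} (e : κ ≃ ι) (r : V →ₗ[ℝ] Matrix ι ι ℝ) (x : V) :
    rd e r x = (r x).submatrix e e := rfl

theorem rd_SS {ι κ : Type} (e : κ ≃ ι) (r : V →ₗ[ℝ] Matrix ι ι ℝ) (x : V) :
    rd e r x + (rd e r x)ᵀ = (r x + (r x)ᵀ).submatrix e e := rfl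

theorem rd_rep {ι κ : Type} [Fintype ι] [Fintype κ] (m : V →ₗ[ℝ] V →ₗ[ℝ] V) (e : κ ≃ ι)
    (r : V →ₗ[ℝ] Matrix ι ι ℝ) (h : MRep m r) : MRep m (rd e r) := by
  constructor
  · intro y y'
    rw [rd_SS, rd_SS, rd_apply, transpose_submatrix, submatrix_mul_equiv, submatrix_mul_equiv,
      h.sym]
    rfl
  · intro y y'
    rw [rd_apply, rd_apply, rd_apply, submatrix_mul_equiv, submatrix_mul_equiv, h.lie]
    rfl

end MXx

theorem thm_MX : St_MX := by
  intro V _ _ m ι _ _ r h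
  refine ⟨fun κ _ r' h' => ⟨fun y y' => h'.sym _ _, fun y y' => h'.lie _ _⟩,
    ⟨MXx.rb r, MXx.rb_rep m r h, MXx.rb_SS r⟩,
    fun κ _ r' h' => ⟨MXx.rc r r', MXx.rc_rep m r r' h h', MXx.rc_SS r r'⟩,
    fun κ _ e => ⟨MXx.rd e r, MXx.rd_rep m e r h, MXx.rd_SS e r⟩,
    fun V' _ _ m' Ψ hΨ => ⟨fun y y' => ?_, fun y y' => ?_⟩⟩
  · have h1 := h.sym (Ψ.symm y) (Ψ.symm y')
    have h2 : Ψ.symm (m' y y') = m (Ψ.symm y) (Ψ.symm y') := by
      rw [LinearEquiv.symm_apply_eq, hΨ, LinearEquiv.apply_symm_apply,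
        LinearEquiv.apply_symm_apply]
    change r (Ψ.symm (m' y y')) + (r (Ψ.symm (m' y y')))ᵀ = _
    rw [h2, h1]
    rfl
  · have h1 := h.lie (Ψ.symm y) (Ψ.symm y')
    have h2 : ∀ y y', Ψ.symm (m' y y') = m (Ψ.symm y) (Ψ.symm y') := fun y y' => by
      rw [LinearEquiv.symm_apply_eq, hΨ, LinearEquiv.apply_symm_apply,
        LinearEquiv.apply_symm_apply]
    change r (Ψ.symm (m' y y' - m' y' y)) = _
    rw [map_sub, h2, h2, h1]
    rfl

end Pool.Agent.RRC
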