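import Pool.Agent.RRC.St2

/-!
# The classification of real-rooted admissible collections ([MAIN1], MP_835236_al)
-/

set_option autoImplicit false

namespace Pool.Agent.RRC

namespace Main1x

/-- Transport of an algebra structure along a linear isomorphism. -/
private theorem exists_transport {V V' : Type} [AddCommGroup V] [Module ℝ V] [AddCommGroup V']
    [Module ℝ V'] (m : V →ₗ[ℝ] V →ₗ[ℝ] V) (Ψ : V ≃ₗ[ℝ] V') :
    ∃ m' : V' →ₗ[ℝ] V' →ₗ[ℝ] V', AIso m m' Ψ := by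
  refine ⟨(m.compl₁₂ Ψ.symm.toLinearMap Ψ.symm.toLinearMap).compr₂ Ψ.toLinearMap, ?_⟩
  intro a b
  simp only [LinearMap.compr₂_apply, LinearMap.compl₁₂_apply, LinearEquiv.coe_coe,
    LinearEquiv.symm_apply_apply]

private theorem forward (b1 : St_B1b) (b3 : St_B3) (hI : St_IndA) (hE : St_Ev) (n : ℕ)
    (σ : Fin n → MvPolynomial (Fin n) ℝ) (hA : Helper28.Nij.Admissible σ) (hR : RealRooted σ) :
    ∃ (D : Dig) (e : Fin n ≃ D.Path), Helper28.Nij.LinEquiv (D.sig e) σ := by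
  obtain ⟨m, hL, hN, hc⟩ := b1 n σ hA
  obtain ⟨D, Φ, hM, -⟩ := hI (Fin n → ℝ) m hL ((b3 n σ m hc).2 hR) hN
  have h1 : Fintype.card D.Path = n := by
    have h2 := LinearEquiv.finrank_eq Φ
    rw [Module.finrank_fintype_fun_eq_card, Module.finrank_fintype_fun_eq_card,
      Fintype.card_fin] at h2
    exact h2.symm
  refine ⟨D, (Fintype.equivFinOfCardEq h1).symm, (hE n D _ σ).2 ⟨Φ, fun x k => ?_⟩⟩
  rw [← hM x]
  exact hc x k

private theorem backward (b2 : St_B2) (b3 : St_B3) (hC : St_Conv) (hE : St_Ev) (hT : St_Tra)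
    (hQ : St_QC) (n : ℕ) (σ : Fin n → MvPolynomial (Fin n) ℝ) (D : Dig) (e : Fin n ≃ D.Path)
    (h : Helper28.Nij.LinEquiv (D.sig e) σ) :
    Helper28.Nij.Admissible σ ∧ RealRooted σ := by
  obtain ⟨A, hA⟩ := (hE n D e σ).1 h
  obtain ⟨m, hL, ⟨x₀, hx₀, -⟩, hM, -⟩ := hC D
  obtain ⟨m', hm'⟩ := exists_transport m A.symm
  obtain ⟨-, h1, h2, -, -, h3, -⟩ := hT (D.Path → ℝ) (Fin n → ℝ) m m' A.symm hm'
  have h4 : ∀ x : Fin n → ℝ, (m'.flip x).charpoly = (D.mat (A x)).charpoly := by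
    intro x
    have h5 := h2 (A x)
    rw [LinearEquiv.symm_apply_apply] at h5
    rw [← h5]
    exact hM (A x)
  have h5 : ∀ (x : Fin n → ℝ) (k : Fin n),
      (m'.flip x).charpoly.coeff (n - 1 - k) = MvPolynomial.eval x (σ k) := by
    intro x k
    rw [h4 x]
    exact hA x k
  refine ⟨b2 n σ m' (h1 hL) (h3 ⟨x₀, hx₀⟩) h5, (b3 n σ m' h5).1 fun x => ?_⟩
  rw [h4 x]
  exact (hQ D (A x)).2.2.1

end Main1x

theorem thm_Main1 (b1 : St_B1b) (b2 : St_B2) (b3 : St_B3) (hI : St_IndA) (hC : St_Conv)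
    (hE : St_Ev) (hT : St_Tra) (hQ : St_QC) : St_Main1 := by
  intro n σ
  constructor
  · rintro ⟨hA, hR⟩
    exact Main1x.forward b1 b3 hI hE n σ hA hR
  · rintro ⟨D, e, h⟩
    exact Main1x.backward b2 b3 hC hE hT hQ n σ D e h

end Pool.Agent.RRC
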