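import Pool.Agent.RRC.St2

/-!
# RRC, module MAIN2: uniqueness of the digraph (MP_835236_al)
-/

set_option autoImplicit false

noncomputable section

namespace Pool.Agent.RRC

open scoped Polynomial
open Polynomial

namespace Main2x

/-- the matrix of a digraph and ring homomorphisms -/
theorem mat_map (D : Dig) {A B : Type} [CommRing A] [CommRing B] (φ : A →+* B)
    (x : D.Path → A) : (D.mat x).map φ = D.mat fun p => φ (x p) := by
  classical
  have h0 : ∀ l : List ℕ, φ (D.ext0 x l) = D.ext0 (fun p => φ (x p)) l := by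
    intro l
    unfold Dig.ext0
    split_ifs
    · rfl
    · exact map_zero φ
  ext1 p q
  change φ (Dig.ent (D.ext0 x) p.1 q.1) = Dig.ent (D.ext0 fun p => φ (x p)) p.1 q.1
  unfold Dig.ent
  split_ifs
  · exact h0 _
  · exact h0 _
  · exact map_zero φ

theorem eval_sig (D : Dig) {n : ℕ} (e : Fin n ≃ D.Path) (k : Fin n) (x : Fin n → ℝ) :
    MvPolynomial.eval x (D.sig e k) = (D.mat (fun p => x (e.symm p))).charpoly.coeff (n - 1 - k) := by
  have h1 : (fun p => x (e.symm p)) = fun p : D.Path =>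
      MvPolynomial.eval x (MvPolynomial.X (e.symm p) : MvPolynomial (Fin n) ℝ) :=
    funext fun p => (MvPolynomial.eval_X _).symm
  rw [h1, ← mat_map D (MvPolynomial.eval x), Matrix.charpoly_map, Polynomial.coeff_map]
  rfl

theorem deg (D : Dig) {n : ℕ} (e : Fin n ≃ D.Path) (x : D.Path → ℝ) :
    (D.mat x).charpoly.natDegree = n := by
  rw [Matrix.charpoly_natDegree_eq_dim, ← Fintype.card_congr e, Fintype.card_fin]

end Main2x

/-- uniqueness of the digraph -/
theorem thm_Main2 (hC : St_Conv) (hU : St_U3) (hE : St_Ev) (hR : St_Rel) : St_Main2 := by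
  intro n D D' e e'
  constructor
  · intro h
    obtain ⟨A, hA⟩ := (hE n D e (D'.sig e')).1 h
    have hA' : ∀ x, (D.mat (A x)).charpoly = (D'.mat (fun p => x (e'.symm p))).charpoly := by
      intro x
      refine monic_ext_coeff (Matrix.charpoly_monic _) (Matrix.charpoly_monic _)
        (Main2x.deg D e _) (Main2x.deg D' e' _) fun k => ?_
      rw [hA x k, Main2x.eval_sig]
    obtain ⟨m, hm, ⟨x₀, hx₀, -⟩, hM, -⟩ := hC D
    obtain ⟨π, h0, h1, h2, -⟩ := hU (D.Path → ℝ) m D D' (LinearEquiv.refl ℝ _)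
      (A.symm ≪≫ₗ LinearEquiv.funCongrLeft ℝ ℝ e'.symm) hm ⟨x₀, hx₀⟩ hM (fun v => by
        rw [hM v]
        have h3 := hA' (A.symm v)
        rw [A.apply_symm_apply] at h3
        exact h3)
    exact ⟨π, h0, h1, h2⟩
  · intro h
    obtain ⟨ε, hε⟩ := hR D D' h
    refine (hE n D e (D'.sig e')).2 ⟨LinearEquiv.funCongrLeft ℝ ℝ (ε.trans e'.symm),
      fun x k => ?_⟩
    rw [Main2x.eval_sig]
    have h2 : (LinearEquiv.funCongrLeft ℝ ℝ (ε.trans e'.symm) x : D.Path → ℝ) =
        (fun p => x (e'.symm p)) ∘ ε := rfl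
    have h1 := hε fun p => x (e'.symm p)
    have h3 : (D'.mat fun p => x (e'.symm p)).submatrix ε ε =
        Matrix.reindex ε.symm ε.symm (D'.mat fun p => x (e'.symm p)) := rfl
    rw [h2, ← h1, h3, Matrix.charpoly_reindex]

end Pool.Agent.RRC
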