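import Pool.Agent.RRC.St2

/-!
# Real-rooted admissible collections, [QA]: paths starting in `T`, `k` not in `T` (helper14)
-/

set_option autoImplicit false

open Matrix

namespace Pool.Agent.RRC

namespace QAx

/-- a source is not on a path which does not start there -/
theorem notMem {D : Dig} {k : ℕ} (hk : D.Source k) (l : List ℕ) (hl : l.IsChain D.E)
    (h : l.head? ≠ some k) : k ∉ l := by
  induction l with
  | nil => exact List.not_mem_nil
  | cons a l ih =>
    rw [List.isChain_cons] at hl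
    intro hm
    rcases List.mem_cons.1 hm with h1 | h1
    · exact h (by rw [List.head?_cons, h1])
    · refine ih hl.2 (fun h2 => ?_) h1
      exact hk.2 a (hl.1 k h2)

theorem chain {D : Dig} {k : ℕ} (l : List ℕ) (hl : l.IsChain D.E) (h : k ∉ l) :
    l.IsChain (D.del k).E := by
  induction l with
  | nil => exact List.isChain_nil
  | cons a l ih =>
    rw [List.isChain_cons] at hl ⊢
    have h1 : k ∉ l := fun h2 => h (List.mem_cons_of_mem _ h2)
    refine ⟨fun y hy => ⟨hl.1 y hy, ?_, ?_⟩, ih hl.2 h1⟩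
    · rintro rfl
      exact h List.mem_cons_self
    · rintro rfl
      exact h1 (List.mem_of_mem_head? hy)

end QAx

/-- [QA] -/
theorem thm_QA (hE : St_Ent) : St_QA := by
  intro D k hk T hT
  refine ⟨⟨fun q => ⟨q.1, q.2.1.of_del, q.2.2⟩, fun q => ⟨q.1, ?_, q.2.2⟩, fun q => rfl,
    fun q => rfl⟩, fun x => ?_⟩
  · obtain ⟨i, hi, hi'⟩ := q.2.2
    have h1 : k ∉ q.1 := by
      refine QAx.notMem hk q.1 q.2.1.2.2 fun h => ?_
      rw [hi'] at h
      have h2 : i = k := Option.some.inj h
      exact hT (h2 ▸ hi)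
    refine ⟨q.2.1.1, fun j hj => (q.2.1.2.1 j hj).imp id fun h => ?_, QAx.chain q.1 q.2.1.2.2 h1⟩
    refine Finset.mem_erase.2 ⟨?_, h⟩
    rintro rfl
    exact h1 hj
  · refine Matrix.ext fun p q => ?_
    exact hE D k x p.1 q.1 p.2.1 q.2.1

end Pool.Agent.RRC
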