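import Pool.Agent.RRC.St2

/-!
# RRC, QB: the paths with first vertex in `T`, `k ∈ T` a source
-/

open Matrix

namespace Pool.Agent.RRC

namespace QBx

variable {D : Dig} {k : ℕ}

/-- a path of `D` which does not contain `k` is a path of `D.del k` -/
theorem isChain_del {l : List ℕ} (h : l.IsChain D.E) (hk : k ∉ l) : l.IsChain (D.del k).E := by
  induction l with
  | nil => exact List.IsChain.nil
  | cons a l ih =>
    cases l with
    | nil => exact List.isChain_singleton a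
    | cons b l =>
      rw [List.isChain_cons_cons] at h ⊢
      have h1 : k ≠ a := fun e => hk (e ▸ List.mem_cons_self)
      have h2 : k ≠ b := fun e => hk (e ▸ List.mem_cons_of_mem _ List.mem_cons_self)
      exact ⟨⟨h.1, h1.symm, h2.symm⟩, ih h.2 fun e => hk (List.mem_cons_of_mem _ e)⟩

theorem pathP_del {l : List ℕ} (h : D.PathP l) (hk : k ∉ l) : (D.del k).PathP l := by
  refine ⟨h.1, fun i hi => ?_, isChain_del h.2.2 hk⟩
  refine (h.2.1 i hi).imp id fun h' => ?_
  exact Finset.mem_erase.2 ⟨fun e => hk (e ▸ hi), h'⟩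

/-- a source does not occur behind the first place of a path -/
theorem not_mem_tail (hk : D.Source k) {a : ℕ} {l : List ℕ} (h : (a :: l).IsChain D.E) :
    k ∉ l := by
  induction l generalizing a with
  | nil => exact List.not_mem_nil
  | cons b l ih =>
    rw [List.isChain_cons_cons] at h
    intro h1
    rcases List.mem_cons.1 h1 with h2 | h2
    · subst h2
      exact hk.2 a h.1
    · exact ih h.2 h2

theorem tail_pathP {a b : ℕ} {l : List ℕ} (h : D.PathP (a :: b :: l)) : D.PathP (b :: l) := by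
  have h2 := h.2.2
  rw [List.isChain_cons_cons] at h2
  exact ⟨List.cons_ne_nil _ _, fun i hi => h.2.1 i (List.mem_cons_of_mem _ hi), h2.2⟩

theorem ent_cons {A : Type} [Zero A] (X : List ℕ → A) (a : ℕ) {p q : List ℕ} (hp : p ≠ [])
    (hq : q ≠ []) : Dig.ent X (a :: p) (a :: q) = Dig.ent X p q := by
  obtain ⟨b, p, rfl⟩ := List.exists_cons_of_ne_nil hp
  obtain ⟨c, q, rfl⟩ := List.exists_cons_of_ne_nil hq
  unfold Dig.ent
  simp only [List.prefix_cons_inj, List.length_cons, Nat.add_sub_cancel, List.drop_succ_cons]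

theorem ent_ne {A : Type} [Zero A] (X : List ℕ → A) {a b : ℕ} (hab : a ≠ b) (p q : List ℕ) :
    Dig.ent X (a :: p) (b :: q) = 0 := by
  unfold Dig.ent
  rw [if_neg, if_neg]
  · intro h
    exact hab (List.cons_prefix_cons.1 h).1.symm
  · intro h
    exact hab (List.cons_prefix_cons.1 h).1

theorem ent_nil_left {A : Type} [Zero A] (X : List ℕ → A) (a : ℕ) (q : List ℕ) :
    Dig.ent X [a] (a :: q) = X (a :: q) := by
  unfold Dig.ent
  rw [if_pos]
  · rfl
  · exact List.cons_prefix_cons.2 ⟨rfl, List.nil_prefix⟩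

theorem ent_nil_right {A : Type} [Zero A] (X : List ℕ → A) (a : ℕ) {q : List ℕ} (hq : q ≠ []) :
    Dig.ent X (a :: q) [a] = X (a :: q) := by
  unfold Dig.ent
  rw [if_neg, if_pos]
  · rfl
  · exact List.cons_prefix_cons.2 ⟨rfl, List.nil_prefix⟩
  · intro h
    exact hq (List.prefix_nil.1 (List.cons_prefix_cons.1 h).2)

theorem ext0_pos (x : D.Path → ℝ) (p : D.Path) : D.ext0 x p.1 = x p := by
  unfold Dig.ext0
  rw [dif_pos p.2]
  rfl

/-- the first entry -/
theorem head_cons {D : Dig} {T : Finset ℕ} (q : D.Q T) : ∃ i l, q.1 = i :: l ∧ i ∈ T := by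
  obtain ⟨i, hi, h⟩ := q.2.2
  obtain ⟨a, l, h1⟩ := List.exists_cons_of_ne_nil q.2.1.1
  rw [h1, List.head?_cons] at h
  have h2 : a = i := Option.some.inj h
  exact ⟨a, l, h1, h2 ▸ hi⟩

/-- the bijection -/
def F (hk : D.Source k) {T : Finset ℕ} (hT : k ∈ T) :
    ((Unit ⊕ (D.del k).Q (D.out k)) ⊕ (D.del k).Q (T.erase k)) → D.Q T
  | Sum.inl (Sum.inl _) => ⟨(D.pK hk.1).1, (D.pK hk.1).2.1, k, hT, rfl⟩
  | Sum.inl (Sum.inr q) => ⟨(D.pQ hk.1 q).1, (D.pQ hk.1 q).2.1, k, hT, rfl⟩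
  | Sum.inr p => ⟨p.1, p.2.1.of_del, by
      obtain ⟨i, hi, h⟩ := p.2.2
      exact ⟨i, Finset.mem_of_mem_erase hi, h⟩⟩

theorem F_inj (hk : D.Source k) {T : Finset ℕ} (hT : k ∈ T) : Function.Injective (F hk hT) := by
  intro a b h
  have h' : (F hk hT a).1 = (F hk hT b).1 := congrArg Subtype.val h
  rcases a with (a | a) | a <;> rcases b with (b | b) | b
  · rfl
  · exact absurd (List.cons.inj h').2.symm b.2.1.1
  · obtain ⟨i, l, h1, h2⟩ := head_cons b
    have h3 : [k] = i :: l := h'.trans h1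
    exact absurd (List.cons.inj h3).1.symm (Finset.ne_of_mem_erase h2)
  · exact absurd (List.cons.inj h').2 a.2.1.1
  · have h3 : a.1 = b.1 := (List.cons.inj h').2
    rw [Subtype.ext h3]
  · obtain ⟨i, l, h1, h2⟩ := head_cons b
    have h3 : k :: a.1 = i :: l := h'.trans h1
    exact absurd (List.cons.inj h3).1.symm (Finset.ne_of_mem_erase h2)
  · obtain ⟨i, l, h1, h2⟩ := head_cons a
    have h3 : [k] = i :: l := h'.symm.trans h1
    exact absurd (List.cons.inj h3).1.symm (Finset.ne_of_mem_erase h2)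
  · obtain ⟨i, l, h1, h2⟩ := head_cons a
    have h3 : k :: b.1 = i :: l := h'.symm.trans h1
    exact absurd (List.cons.inj h3).1.symm (Finset.ne_of_mem_erase h2)
  · have h3 : a.1 = b.1 := h'
    rw [Subtype.ext h3]

theorem F_surj (hk : D.Source k) {T : Finset ℕ} (hT : k ∈ T) : Function.Surjective (F hk hT) := by
  intro l
  obtain ⟨i, q, h1, h2⟩ := head_cons l
  have hp : D.PathP (i :: q) := h1 ▸ l.2.1
  have hq : k ∉ q := not_mem_tail hk hp.2.2
  by_cases hi : i = k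
  · subst hi
    cases q with
    | nil => exact ⟨Sum.inl (Sum.inl ()), Subtype.ext h1.symm⟩
    | cons b q =>
      have h3 : D.PathP (b :: q) := tail_pathP hp
      have h4 : D.E i b := (List.isChain_cons_cons.1 hp.2.2).1
      refine ⟨Sum.inl (Sum.inr ⟨b :: q, pathP_del h3 hq, b, (D.mem_out i b).2 h4, rfl⟩),
        Subtype.ext h1.symm⟩
  · have h3 : k ∉ i :: q := by
      intro h
      rcases List.mem_cons.1 h with h4 | h4
      · exact hi h4.symm
      · exact hq h4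
    refine ⟨Sum.inr ⟨i :: q, pathP_del hp h3, i, Finset.mem_erase.2 ⟨hi, h2⟩, rfl⟩,
      Subtype.ext h1.symm⟩

end QBx

theorem thm_QB (hE : St_Ent) : St_QB := by
  intro D k hk T hT
  refine ⟨Equiv.ofBijective (QBx.F hk hT) ⟨QBx.F_inj hk hT, QBx.F_surj hk hT⟩, fun x => ?_⟩
  have h2 : √2 ≠ (0 : ℝ) := by positivity
  ext a b
  change Dig.ent (D.ext0 x) (QBx.F hk hT a).1 (QBx.F hk hT b).1 = _
  rcases a with (a | a) | a <;> rcases b with (b | b) | b
  · change Dig.ent (D.ext0 x) [k] [k] = x (D.pK hk.1)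
    rw [QBx.ent_nil_left]
    exact QBx.ext0_pos x (D.pK hk.1)
  · change Dig.ent (D.ext0 x) [k] (k :: b.1) = √2 * x (D.pQ hk.1 b) / √2
    rw [QBx.ent_nil_left, mul_div_cancel_left₀ _ h2]
    exact QBx.ext0_pos x (D.pQ hk.1 b)
  · change Dig.ent (D.ext0 x) [k] b.1 = 0
    obtain ⟨i, l, h3, h4⟩ := QBx.head_cons b
    rw [h3, QBx.ent_ne _ (Finset.ne_of_mem_erase h4).symm]
  · change Dig.ent (D.ext0 x) (k :: a.1) [k] = √2 * x (D.pQ hk.1 a) / √2
    rw [QBx.ent_nil_right _ _ a.2.1.1, mul_div_cancel_left₀ _ h2]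
    exact QBx.ext0_pos x (D.pQ hk.1 a)
  · change Dig.ent (D.ext0 x) (k :: a.1) (k :: b.1) =
      Dig.ent ((D.del k).ext0 fun p => x (D.pP k p)) a.1 b.1
    rw [QBx.ent_cons _ _ a.2.1.1 b.2.1.1]
    exact hE D k x a.1 b.1 a.2.1 b.2.1
  · change Dig.ent (D.ext0 x) (k :: a.1) b.1 = 0
    obtain ⟨i, l, h3, h4⟩ := QBx.head_cons b
    rw [h3, QBx.ent_ne _ (Finset.ne_of_mem_erase h4).symm]
  · change Dig.ent (D.ext0 x) a.1 [k] = 0
    obtain ⟨i, l, h3, h4⟩ := QBx.head_cons a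
    rw [h3, QBx.ent_ne _ (Finset.ne_of_mem_erase h4)]
  · change Dig.ent (D.ext0 x) a.1 (k :: b.1) = 0
    obtain ⟨i, l, h3, h4⟩ := QBx.head_cons a
    rw [h3, QBx.ent_ne _ (Finset.ne_of_mem_erase h4)]
  · change Dig.ent (D.ext0 x) a.1 b.1 = Dig.ent ((D.del k).ext0 fun p => x (D.pP k p)) a.1 b.1
    exact hE D k x a.1 b.1 a.2.1 b.2.1

end Pool.Agent.RRC
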