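import Pool.Agent.RRC.St2

/-!
# RRC, module QC: matrices of digraphs, symmetry and product formula (MP_835236_al)
-/

open Matrix Polynomial

namespace Pool.Agent.RRC

namespace QCx

theorem ent_comm {A : Type} [Zero A] (x : List ℕ → A) (p q : List ℕ) :
    Dig.ent x p q = Dig.ent x q p := by
  unfold Dig.ent
  by_cases h1 : p <+: q
  · by_cases h2 : q <+: p
    · have h3 : p = q := h1.eq_of_length_le h2.length_le
      subst h3
      rfl
    · rw [if_pos h1, if_neg h2, if_pos h1]
  · by_cases h2 : q <+: p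
    · rw [if_neg h1, if_pos h2, if_pos h2]
    · rw [if_neg h1, if_neg h2, if_neg h2, if_neg h1]

theorem head_of_prefix {l l' : List ℕ} (h : l <+: l') {i : ℕ} (hi : l.head? = some i) :
    l'.head? = some i := by
  obtain ⟨s, rfl⟩ := h
  cases l with
  | nil => simp at hi
  | cons a l => simpa using hi

theorem ent_zero {A : Type} [Zero A] (x : List ℕ → A) {p q : List ℕ} {i j : ℕ} (hij : i ≠ j)
    (hp : p.head? = some i) (hq : q.head? = some j) : Dig.ent x p q = 0 := by
  have h1 : ¬ p <+: q := fun h => hij (Option.some.inj ((head_of_prefix h hp).symm.trans hq))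
  have h2 : ¬ q <+: p := fun h => hij (Option.some.inj (hp.symm.trans (head_of_prefix h hq)))
  unfold Dig.ent
  rw [if_neg h1, if_neg h2]

variable (D : Dig)

theorem path_iff (l : List ℕ) : (D.PathP l ∧ l ≠ [0]) ↔
    (D.PathP l ∧ ∃ i ∈ D.vs, l.head? = some i) := by
  refine and_congr_right fun h => ?_
  constructor
  · intro h0
    cases l with
    | nil => exact absurd rfl h.1
    | cons a l =>
      rcases h.2.1 a List.mem_cons_self with ha | ha
      · subst ha
        cases l with
        | nil => exact absurd rfl h0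
        | cons b l =>
          exfalso
          have h1 : D.E 0 b := (List.isChain_cons_cons.1 h.2.2).1
          exact absurd (D.down 0 b h1).1 (Nat.not_lt_zero b)
      · exact ⟨a, ha, rfl⟩
  · rintro ⟨i, hi, h1⟩ rfl
    have h2 : 0 = i := Option.some.inj h1
    exact D.zero (h2 ▸ hi)

theorem part1 (x : D.Path → ℝ) :
    ∃ e : D.Path ≃ D.Q D.vs, (D.matQ D.vs x).submatrix e e = D.mat x :=
  ⟨Equiv.subtypeEquivRight (path_iff D), rfl⟩

theorem mat_symm (x : D.Path → ℝ) : (D.mat x).IsSymm := by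
  ext p q
  exact ent_comm _ _ _

theorem matQ_symm (T : Finset ℕ) (x : D.Path → ℝ) : (D.matQ T x).IsSymm := by
  ext p q
  exact ent_comm _ _ _

theorem charpoly_sub {ι κ : Type} [Fintype ι] [DecidableEq ι] [Fintype κ] [DecidableEq κ]
    (e : ι ≃ κ) (M : Matrix κ κ ℝ) : (M.submatrix e e).charpoly = M.charpoly := by
  have h := Matrix.charpoly_reindex e.symm M
  rw [Matrix.reindex_apply, Equiv.symm_symm] at h
  exact h

theorem zero_part (x : D.Path → ℝ) : (D.matQ {0} x).charpoly = X := by
  have h0 : D.PathP [0] := ⟨List.cons_ne_nil _ _, fun i hi => Or.inl (List.mem_singleton.1 hi),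
    List.isChain_singleton 0⟩
  have hu : ∀ p : D.Q {0}, p.1 = [0] := by
    rintro ⟨l, h, i, hi, h1⟩
    rw [Finset.mem_singleton] at hi
    subst hi
    by_contra h2
    obtain ⟨_, j, hj, h3⟩ := (path_iff D l).1 ⟨h, h2⟩
    rw [h1] at h3
    have h4 : 0 = j := Option.some.inj h3
    exact D.zero (h4 ▸ hj)
  have hz : D.matQ {0} x = 0 := by
    ext p q
    show Dig.ent (D.ext0 x) p.1 q.1 = 0
    rw [hu p, hu q]
    unfold Dig.ent
    rw [if_pos (List.prefix_refl _)]
    show D.ext0 x [0] = 0
    unfold Dig.ext0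
    rw [dif_neg (fun h => h.2 rfl)]
  have hc : Fintype.card (D.Q {0}) = 1 := by
    rw [Fintype.card_eq_one_iff]
    exact ⟨⟨[0], h0, 0, Finset.mem_singleton_self 0, rfl⟩, fun p => Subtype.ext (hu p)⟩
  rw [hz, Matrix.charpoly_zero, hc, pow_one]

/-- the paths with first vertex in `insert i T` -/
noncomputable def eT {T : Finset ℕ} {i : ℕ} (hi : i ∉ T) : (D.Q {i} ⊕ D.Q T) ≃ D.Q (insert i T) :=
  Equiv.ofBijective (Sum.elim
    (fun p => ⟨p.1, p.2.1, p.2.2.imp fun _ h => ⟨Finset.mem_insert.2 (Or.inl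
      (Finset.mem_singleton.1 h.1)), h.2⟩⟩)
    fun p => ⟨p.1, p.2.1, p.2.2.imp fun _ h => ⟨Finset.mem_insert_of_mem h.1, h.2⟩⟩) (by
    constructor
    · rintro (p | p) (q | q) h
      · have h1 : p.1 = q.1 := congrArg (fun z : D.Q (insert i T) => z.1) h
        exact congrArg Sum.inl (Subtype.ext h1)
      · exfalso
        have h1 : p.1 = q.1 := congrArg Subtype.val h
        obtain ⟨a, ha, ha'⟩ := p.2.2
        obtain ⟨b, hb, hb'⟩ := q.2.2
        rw [h1, hb'] at ha'
        have h2 : b = a := Option.some.inj ha'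
        rw [Finset.mem_singleton] at ha
        exact hi (ha ▸ h2 ▸ hb)
      · exfalso
        have h1 : p.1 = q.1 := congrArg Subtype.val h
        obtain ⟨a, ha, ha'⟩ := q.2.2
        obtain ⟨b, hb, hb'⟩ := p.2.2
        rw [← h1, hb'] at ha'
        have h2 : b = a := Option.some.inj ha'
        rw [Finset.mem_singleton] at ha
        exact hi (ha ▸ h2 ▸ hb)
      · have h1 : p.1 = q.1 := congrArg (fun z : D.Q (insert i T) => z.1) h
        exact congrArg Sum.inr (Subtype.ext h1)
    · rintro ⟨l, hl, j, hj, hj'⟩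
      rcases Finset.mem_insert.1 hj with h | h
      · exact ⟨Sum.inl ⟨l, hl, j, Finset.mem_singleton.2 h, hj'⟩, rfl⟩
      · exact ⟨Sum.inr ⟨l, hl, j, h, hj'⟩, rfl⟩)

theorem step {T : Finset ℕ} {i : ℕ} (hi : i ∉ T) (x : D.Path → ℝ) :
    (D.matQ (insert i T) x).charpoly = (D.matQ {i} x).charpoly * (D.matQ T x).charpoly := by
  have h : (D.matQ (insert i T) x).submatrix (eT D hi) (eT D hi) =
      fromBlocks (D.matQ {i} x) 0 0 (D.matQ T x) := by
    ext p q
    rcases p with p | p <;> rcases q with q | q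
    · rfl
    · obtain ⟨a, ha, ha'⟩ := p.2.2
      obtain ⟨b, hb, hb'⟩ := q.2.2
      rw [Finset.mem_singleton] at ha
      subst ha
      refine ent_zero _ (fun h => hi ?_) ha' hb'
      rw [h]
      exact hb
    · obtain ⟨a, ha, ha'⟩ := q.2.2
      obtain ⟨b, hb, hb'⟩ := p.2.2
      rw [Finset.mem_singleton] at ha
      subst ha
      refine ent_zero _ (fun h => hi ?_) hb' ha'
      rw [← h]
      exact hb
    · rfl
  rw [← charpoly_sub (eT D hi), h, Matrix.charpoly_fromBlocks_zero₁₂]

theorem prod_part (T : Finset ℕ) (x : D.Path → ℝ) :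
    (D.matQ T x).charpoly = ∏ i ∈ T, (D.matQ {i} x).charpoly := by
  induction T using Finset.induction_on with
  | empty =>
    have : IsEmpty (D.Q ∅) := ⟨fun p => by
      obtain ⟨i, hi, _⟩ := p.2.2
      exact absurd hi (Finset.notMem_empty i)⟩
    rw [Finset.prod_empty, Matrix.charpoly_isEmpty]
  | insert i T hi ih => rw [step D hi x, ih, Finset.prod_insert hi]

end QCx

open QCx

theorem thm_QC : St_QC := by
  intro D x
  refine ⟨part1 D x, mat_symm D x, ?_, fun T => ⟨matQ_symm D T x, prod_part D T x,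
    zero_part D x⟩⟩
  have h : (D.mat x).IsHermitian := by
    rw [Matrix.IsHermitian, Matrix.conjTranspose_eq_transpose_of_trivial]
    exact mat_symm D x
  exact h.splits_charpoly

end Pool.Agent.RRC
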