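import Pool.Agent.RRC.St2

/-!
# RRC, module REL: relabelling of digraphs
-/

set_option autoImplicit false

namespace Pool.Agent.RRC

open Dig

namespace Relx

theorem zero_iff {π : Equiv.Perm ℕ} (h0 : π 0 = 0) (i : ℕ) : π i = 0 ↔ i = 0 :=
  ⟨fun h => π.injective (h.trans h0.symm), fun h => by rw [h, h0]⟩

theorem map_symm_map (π : Equiv.Perm ℕ) (l : List ℕ) : (l.map π).map π.symm = l := by
  rw [List.map_map]
  simp

theorem map_map_symm (π : Equiv.Perm ℕ) (l : List ℕ) : (l.map π.symm).map π = l := by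
  rw [List.map_map]
  simp

theorem pathP {D D' : Dig} {π : Equiv.Perm ℕ} (h0 : π 0 = 0)
    (hv : ∀ i, i ∈ D.vs ↔ π i ∈ D'.vs) (hE : ∀ i j, D.E i j ↔ D'.E (π i) (π j)) (l : List ℕ) :
    D.PathP l ↔ D'.PathP (l.map π) := by
  unfold PathP
  refine and_congr ?_ (and_congr ?_ ?_)
  · rw [Ne, Ne, List.map_eq_nil_iff]
  · constructor
    · intro h i hi
      obtain ⟨j, hj, rfl⟩ := List.mem_map.1 hi
      exact (h j hj).imp (fun h => (zero_iff h0 j).2 h) (fun h => (hv j).1 h)
    · intro h i hi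
      exact (h (π i) (List.mem_map.2 ⟨i, hi, rfl⟩)).imp (fun h => (zero_iff h0 i).1 h)
        (fun h => (hv i).2 h)
  · rw [List.isChain_map]
    exact ⟨fun h => h.imp fun a b hab => (hE a b).1 hab,
      fun h => h.imp fun a b hab => (hE a b).2 hab⟩

theorem ne_sing {π : Equiv.Perm ℕ} (h0 : π 0 = 0) (l : List ℕ) : l ≠ [0] ↔ l.map π ≠ [0] := by
  rw [Ne, Ne, not_iff_not]
  constructor
  · rintro rfl
    simp [h0]
  · intro h
    have h1 := congrArg (List.map π.symm) h
    rw [map_symm_map] at h1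
    rw [h1]
    have h2 : π.symm 0 = 0 := by
      rw [Equiv.symm_apply_eq]
      exact h0.symm
    simp [h2]

theorem prefix_iff (π : Equiv.Perm ℕ) (p q : List ℕ) : p.map π <+: q.map π ↔ p <+: q := by
  constructor
  · intro h
    have h1 := h.map π.symm
    rwa [map_symm_map, map_symm_map] at h1
  · intro h
    exact h.map π

theorem ent_map (π : Equiv.Perm ℕ) (y : List ℕ → ℝ) (p q : List ℕ) :
    ent y (p.map π) (q.map π) = ent (fun l => y (l.map π)) p q := by
  unfold ent
  simp only [prefix_iff, List.length_map, ← List.map_drop]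

end Relx

open Relx

/-- [REL] -/
theorem thm_Rel : St_Rel := by
  rintro D D' ⟨π, h0, hv, hE⟩
  let ε : D.Path ≃ D'.Path :=
    { toFun := fun p => ⟨p.1.map π, (pathP h0 hv hE p.1).1 p.2.1, (ne_sing h0 p.1).1 p.2.2⟩
      invFun := fun q => ⟨q.1.map π.symm,
        (pathP h0 hv hE _).2 (by rw [map_map_symm]; exact q.2.1),
        (ne_sing h0 _).2 (by rw [map_map_symm]; exact q.2.2)⟩
      left_inv := fun p => Subtype.ext (map_symm_map π p.1)
      right_inv := fun q => Subtype.ext (map_map_symm π q.1) }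
  refine ⟨ε, fun x => ?_⟩
  have hext : ∀ l : List ℕ, D'.ext0 x (l.map π) = D.ext0 (x ∘ ε) l := by
    intro l
    unfold ext0
    by_cases h : D.PathP l ∧ l ≠ [0]
    · have h' : D'.PathP (l.map π) ∧ l.map π ≠ [0] :=
        ⟨(pathP h0 hv hE l).1 h.1, (ne_sing h0 l).1 h.2⟩
      rw [dif_pos h, dif_pos h']
      rfl
    · have h' : ¬ (D'.PathP (l.map π) ∧ l.map π ≠ [0]) := fun h' =>
        h ⟨(pathP h0 hv hE l).2 h'.1, (ne_sing h0 l).2 h'.2⟩
      rw [dif_neg h, dif_neg h']
  ext p q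
  show ent (D'.ext0 x) (p.1.map π) (q.1.map π) = ent (D.ext0 (x ∘ ε)) p.1 q.1
  rw [ent_map]
  exact congrArg (fun y => ent y p.1 q.1) (funext hext)

end Pool.Agent.RRC
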