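import Pool.Agent.RRC.St2

/-!
# RRC [STEP]: (8.1) the induction step (helper67 for helper22)
-/

set_option autoImplicit false

open Matrix Polynomial

namespace Pool.Agent.RRC

namespace Stepx

theorem omat_reindex {H : Type} [NormedAddCommGroup H] [InnerProductSpace ℝ H] {ι κ : Type}
    [Fintype ι] [Fintype κ] (b : OrthonormalBasis ι ℝ H) (e : ι ≃ κ) (S : H →ₗ[ℝ] H) :
    omat (b.reindex e) S = (omat b S).submatrix e.symm e.symm := by
  ext i j
  simp only [omat, Matrix.of_apply, Matrix.submatrix_apply, OrthonormalBasis.reindex_apply]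

theorem sub_sub {ι κ : Type} (e : ι ≃ κ) (A : Matrix κ κ ℝ) (B : Matrix ι ι ℝ)
    (h : A.submatrix e e = B) : B.submatrix e.symm e.symm = A := by
  rw [← h, Matrix.submatrix_submatrix]
  simp

end Stepx

/-- [STEP] (8.1) The induction step. -/
theorem thm_Step (h2 : St_Ext2) (h1 : St_V1) (h3 : St_V3) (h4 : St_V4) (hCo : St_Co)
    (hA : St_QA) (hB : St_QB) (hCB : St_CB) : St_Step := by
  intro D k hk V _ _ _ W _ _ _ m r Φ b hF hr hcyc hb
  let C := LinearEquiv.ofBijective (D.co hk.1) (hCo D k hk).1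
  let Ψ : (ℝ × W × V) ≃ₗ[ℝ]
      (ℝ × EuclideanSpace ℝ ((D.del k).Q (D.out k)) × ((D.del k).Path → ℝ)) :=
    LinearEquiv.prodCongr (LinearEquiv.refl ℝ ℝ) (LinearEquiv.prodCongr b.repr.toLinearEquiv Φ)
  let Φ1 := Ψ.trans C.symm
  have hco : ∀ x, D.co hk.1 (Φ1 x) = (x.1, b.repr x.2.1, Φ x.2.2) := fun x =>
    C.apply_symm_apply (Ψ x)
  have hk0 : ∀ T : Finset ℕ, T ⊆ insert 0 (D.del k).vs → k ∉ T := by
    intro T hT hkT
    rcases Finset.mem_insert.1 (hT hkT) with h | h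
    · exact D.zero (h ▸ hk.1)
    · exact (Finset.mem_erase.1 h).1 rfl
  have hT0 : insert 0 (D.del k).vs ⊆ insert 0 D.vs :=
    Finset.insert_subset_insert 0 (Finset.erase_subset k D.vs)
  refine ⟨Φ1, ?_, ?_⟩
  · intro x
    obtain ⟨e1, -, e2⟩ := h2 V W m r x
    rw [e1, e2 _ b, hb, hF.1 x.2.2, ((hCB D (Φ1 x)).1 k hk).1, hco x]
  · intro K _ _ _ ρ hρ hcycρ
    have hS : Sit m r ρ := ⟨hr, hρ, hcyc, hcycρ⟩
    have hV1 := h1 V W K m r ρ hS
    rcases h3 V W K m r ρ hS hV1 with ⟨ha, hrep, hc⟩ | ⟨u, K2, r2, hV3⟩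
    · obtain ⟨T, b', hT, hb'⟩ := hF.2 K _ hrep hc
      obtain ⟨e, he⟩ := hA D k hk T (hk0 T hT)
      refine ⟨T, b'.reindex e, hT.trans hT0, fun x => ?_⟩
      have hx : SS ρ x = SS (ρ ∘ₗ LinearMap.inr ℝ ℝ (W × V) ∘ₗ LinearMap.inr ℝ W V) x.2.2 := by
        have h5 : (ρ ∘ₗ LinearMap.inr ℝ ℝ (W × V) ∘ₗ LinearMap.inr ℝ W V) x.2.2 = ρ x :=
          (ha x).symm
        rw [SS, SS, h5]
      rw [Stepx.omat_reindex, hx, hb' x.2.2]
      refine Stepx.sub_sub e _ _ ?_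
      rw [he, hco]
    · obtain ⟨T', b2, hT', hb2⟩ := hF.2 K2 r2 hV3.rep hV3.cyc
      obtain ⟨T, hkT, hTe, hT⟩ : ∃ T : Finset ℕ, k ∈ T ∧ T.erase k = T' ∧ T ⊆ insert 0 D.vs := by
        refine ⟨insert k T', Finset.mem_insert_self _ _, Finset.erase_insert (hk0 T' hT'), ?_⟩
        exact Finset.insert_subset (Finset.mem_insert_of_mem hk.1) (hT'.trans hT0)
      subst hTe
      obtain ⟨B, hBm⟩ := h4 V W K m r ρ u K2 r2 hV3 _ _ b b2
      obtain ⟨e, he⟩ := hB D k hk T hkT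
      refine ⟨T, B.reindex e, hT, fun x => ?_⟩
      rw [Stepx.omat_reindex]
      refine Stepx.sub_sub e _ _ ?_
      rw [he, hco]
      have hx := hBm x.1 x.2.1 x.2.2
      rw [hb, hb2] at hx
      exact hx.symm

end Pool.Agent.RRC
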