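import Pool.Agent.RRC.St2

/-!
# RRC [STR]: the structure of a modelled algebra at a source
-/

set_option autoImplicit false

open Matrix Polynomial

namespace Pool.Agent.RRC

/-- **STR** -/
theorem thm_Str (hC : St_Conv) (hX : St_ExK) (hU : St_U1) (hT : St_Tra) : St_Str := by
  intro D k hk V _ _ _ m Φ hL hN hM
  obtain ⟨m₀, hL0, hN0, hM0, hrep⟩ := hC (D.del k)
  have hsub : D.out k ⊆ insert 0 (D.del k).vs := by
    intro j hj
    rw [Dig.mem_out] at hj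
    obtain ⟨h1, -, h2⟩ := D.down k j hj
    rw [Finset.mem_insert]
    exact h2.imp id fun h => Finset.mem_erase.2 ⟨h1.ne, h⟩
  obtain ⟨r, hr, hr'⟩ := hrep (D.out k) hsub
  obtain ⟨m1, hL1, -, hM1, hco⟩ := hX D k hk m₀ r hL0 hN0 hM0 hr hr'
  let m2 : V →ₗ[ℝ] V →ₗ[ℝ] V :=
    (m1.compl₁₂ Φ.toLinearMap Φ.toLinearMap).compr₂ Φ.symm.toLinearMap
  have hm2 : AIso m2 m1 Φ := fun a b => Φ.apply_symm_apply (m1 (Φ a) (Φ b))
  obtain ⟨h1, -, h3, -⟩ := hT V (D.Path → ℝ) m2 m1 Φ hm2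
  have hL2 : LSA m2 := (hT (D.Path → ℝ) V m1 m2 Φ.symm h1).2.1 hL1
  have hmm : m = m2 := by
    refine hU V m m2 hL hL2 hN fun x => ?_
    rw [hM x, h3 x, hM1 (Φ x)]
    rfl
  refine ⟨m₀, r, hL0, hN0, hM0, hr, hr', fun a b => ?_⟩
  rw [← hco, hmm, hm2 a b]

end Pool.Agent.RRC
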