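import Pool.Agent.RRC.St2

/-!
# RRC, TRA: transport along isomorphisms of algebras
-/

set_option autoImplicit false

namespace Pool.Agent.RRC

open Module

section

variable {V V' : Type} [AddCommGroup V] [Module ℝ V] [Module.Finite ℝ V]
  [AddCommGroup V'] [Module ℝ V'] [Module.Finite ℝ V']
  {m : V →ₗ[ℝ] V →ₗ[ℝ] V} {m' : V' →ₗ[ℝ] V' →ₗ[ℝ] V'} {Ψ : V ≃ₗ[ℝ] V'}

omit [Module.Finite ℝ V] [Module.Finite ℝ V'] in
private theorem Trax_symm (h : AIso m m' Ψ) : AIso m' m Ψ.symm := by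
  intro a b
  rw [← LinearEquiv.symm_apply_apply Ψ (m (Ψ.symm a) (Ψ.symm b)), h]
  simp

omit [Module.Finite ℝ V] [Module.Finite ℝ V'] in
private theorem Trax_flip (h : AIso m m' Ψ) (x : V) : m'.flip (Ψ x) = Ψ.conj (m.flip x) := by
  ext a
  rw [LinearEquiv.conj_apply_apply, LinearMap.flip_apply, LinearMap.flip_apply, h]
  simp

omit [Module.Finite ℝ V] [Module.Finite ℝ V'] in
private theorem Trax_lsa (h : AIso m m' Ψ) (hl : LSA m) : LSA m' := by
  intro a b x
  have h1 := congrArg Ψ (hl (Ψ.symm a) (Ψ.symm b) (Ψ.symm x))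
  simp only [map_sub, h _ _, LinearEquiv.apply_symm_apply] at h1
  exact h1

private theorem Trax_char (h : AIso m m' Ψ) (x : V) :
    (m.flip x).charpoly = (m'.flip (Ψ x)).charpoly := by
  rw [Trax_flip h, LinearEquiv.charpoly_conj]

omit [Module.Finite ℝ V] [Module.Finite ℝ V'] in
private theorem Trax_tr (h : AIso m m' Ψ) (x : V) : tr m x = tr m' (Ψ x) := by
  change LinearMap.trace ℝ V (m.flip x) = LinearMap.trace ℝ V' (m'.flip (Ψ x))
  rw [Trax_flip h, LinearMap.trace_conj']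

omit [Module.Finite ℝ V] [Module.Finite ℝ V'] in
private theorem Trax_pow (h : AIso m m' Ψ) (x v : V) (k : ℕ) :
    (m'.flip (Ψ x) ^ k) (Ψ v) = Ψ ((m.flip x ^ k) v) := by
  induction k with
  | zero => simp
  | succ k ih =>
    rw [pow_succ', pow_succ', Module.End.mul_apply, Module.End.mul_apply, ih, Trax_flip h,
      LinearEquiv.conj_apply_apply]
    simp

private theorem Trax_nd (h : AIso m m' Ψ) (x : V) (hx : NDat m x) : NDat m' (Ψ x) := by
  intro v hv
  have h1 : Ψ.symm v = 0 := by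
    refine hx _ fun k => ?_
    rw [Trax_tr h, ← Trax_pow h, LinearEquiv.apply_symm_apply]
    exact hv k
  simpa using h1

end

theorem thm_Tra : St_Tra := by
  intro V V' _ _ _ _ _ _ m m' Ψ h
  refine ⟨Trax_symm h, Trax_lsa h, Trax_char h, Trax_tr h, Trax_nd h, ?_, ?_, ?_⟩
  · rintro ⟨x, hx⟩
    exact ⟨Ψ x, Trax_nd h x hx⟩
  · intro hr x
    rw [← LinearEquiv.apply_symm_apply Ψ x, ← Trax_char h]
    exact hr _
  · intro H _ _ _ r hr
    have hs : ∀ y, SS (r ∘ₗ Ψ.symm.toLinearMap) y = SS r (Ψ.symm y) := fun y => rfl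
    have hm : ∀ y y', Ψ.symm (m' y y') = m (Ψ.symm y) (Ψ.symm y') := Trax_symm h
    refine ⟨⟨fun y y' => ?_, fun y y' => ?_⟩, fun x => ?_⟩
    · rw [hs, hs, hm, hr.sym]
      rfl
    · have h1 : (r ∘ₗ Ψ.symm.toLinearMap) (m' y y' - m' y' y) =
          r (m (Ψ.symm y) (Ψ.symm y') - m (Ψ.symm y') (Ψ.symm y)) := by
        change r (Ψ.symm (m' y y' - m' y' y)) = _
        rw [map_sub, hm, hm]
      rw [h1, hr.lie]
      rfl
    · rw [hs, LinearEquiv.symm_apply_apply]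

end Pool.Agent.RRC
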