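import Pool.Agent.RRC.St2
import Pool.Agent.RRC.NDo

/-!
# RRC, module U1: the characteristic polynomial determines the algebra (MP_835236_al)
-/

set_option autoImplicit false
set_option linter.unusedVariables false

noncomputable section

namespace Pool.Agent.RRC

open scoped Polynomial
open Polynomial

namespace U1x

open Module

/-- The trace of `f ^ n` when `f - μ` is nilpotent. -/
theorem trace_pow_of_nilpotent {V : Type} [AddCommGroup V] [Module ℂ V] [FiniteDimensional ℂ V]
    (f : Module.End ℂ V) (μ : ℂ) (hf : IsNilpotent (f - algebraMap ℂ _ μ)) (n : ℕ) :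
    LinearMap.trace ℂ V (f ^ n) = (finrank ℂ V : ℂ) * μ ^ n := by
  induction n with
  | zero => simp
  | succ n ih =>
    have hc : Commute (f ^ n) f := (Commute.refl f).pow_left n
    have h := LinearMap.trace_comp_eq_mul_of_commute_of_isNilpotent (f := f ^ n) (g := f) μ hc hf
    rw [pow_succ]
    change LinearMap.trace ℂ V ((f ^ n) ∘ₗ f) = _
    rw [h, ih]
    ring

/-- The generalized eigenspaces. -/
theorem internal {V : Type} [AddCommGroup V] [Module ℂ V] [FiniteDimensional ℂ V]
    (f : Module.End ℂ V) :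
    DirectSum.IsInternal (fun μ : f.charpoly.roots.toFinset => f.maxGenEigenspace (μ : ℂ)) := by
  classical
  have hf : f.charpoly.Splits := IsAlgClosed.splits _
  have hind : iSupIndep (fun μ : f.charpoly.roots.toFinset => f.maxGenEigenspace (μ : ℂ)) :=
    f.independent_maxGenEigenspace.comp Subtype.val_injective
  have hinj := hind.dfinsupp_lsum_injective
  have hfr : finrank ℂ (DirectSum f.charpoly.roots.toFinset
      (fun μ => f.maxGenEigenspace (μ : ℂ))) = finrank ℂ V := by
    rw [Module.finrank_directSum]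
    have h1 : ∀ μ : f.charpoly.roots.toFinset, finrank ℂ (f.maxGenEigenspace (μ : ℂ)) =
        f.charpoly.roots.count (μ : ℂ) := fun μ => by
      rw [LinearMap.finrank_maxGenEigenspace_eq, count_roots]
    simp only [h1]
    rw [Finset.sum_coe_sort f.charpoly.roots.toFinset (fun μ => f.charpoly.roots.count μ),
      Multiset.toFinset_sum_count_eq, ← LinearMap.charpoly_natDegree f]
    exact (splits_iff_card_roots.1 hf)
  refine ⟨hinj, ?_⟩
  exact (LinearMap.injective_iff_surjective_of_finrank_eq_finrank hfr).1 hinj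

theorem trace_pow {V : Type} [AddCommGroup V] [Module ℂ V] [FiniteDimensional ℂ V]
    (f : Module.End ℂ V) (n : ℕ) :
    LinearMap.trace ℂ V (f ^ n) = (f.charpoly.roots.map fun l => l ^ n).sum := by
  classical
  have hcomm : Commute f (f ^ n) := (Commute.refl f).pow_right n
  have hmaps : ∀ μ : f.charpoly.roots.toFinset,
      Set.MapsTo (f ^ n) (f.maxGenEigenspace (μ : ℂ)) (f.maxGenEigenspace (μ : ℂ)) := fun μ =>
    f.mapsTo_maxGenEigenspace_of_comm hcomm μ
  rw [LinearMap.trace_eq_sum_trace_restrict (internal f) hmaps]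
  have h1 : ∀ μ : f.charpoly.roots.toFinset,
      LinearMap.trace ℂ (f.maxGenEigenspace (μ : ℂ)) ((f ^ n).restrict (hmaps μ)) =
        (f.charpoly.roots.count (μ : ℂ) : ℂ) * (μ : ℂ) ^ n := fun μ => by
    have h2 : Set.MapsTo f (f.maxGenEigenspace (μ : ℂ)) (f.maxGenEigenspace (μ : ℂ)) :=
      f.mapsTo_maxGenEigenspace_of_comm (Commute.refl f) μ
    have h3 : (f ^ n).restrict (hmaps μ) = (f.restrict h2) ^ n :=
      (Module.End.pow_restrict n h2 (hmaps μ)).symm
    rw [h3, count_roots, ← LinearMap.finrank_maxGenEigenspace_eq]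
    exact trace_pow_of_nilpotent _ μ (f.isNilpotent_restrict_maxGenEigenspace_sub_algebraMap μ) n
  simp only [h1]
  rw [Finset.sum_coe_sort f.charpoly.roots.toFinset
    (fun μ => (f.charpoly.roots.count μ : ℂ) * μ ^ n), Finset.sum_multiset_map_count]
  simp

/-- Operators with the same characteristic polynomial have the same traces of powers. -/
theorem tr_pow {V : Type} [AddCommGroup V] [Module ℝ V] [FiniteDimensional ℝ V]
    (T T' : V →ₗ[ℝ] V) (h : T.charpoly = T'.charpoly) (k : ℕ) :
    LinearMap.trace ℝ V (T ^ k) = LinearMap.trace ℝ V (T' ^ k) := by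
  classical
  have key : ∀ S : V →ₗ[ℝ] V, ((LinearMap.trace ℝ V (S ^ k) : ℝ) : ℂ) =
      ((S.charpoly.map Complex.ofRealHom).roots.map fun l => l ^ k).sum := by
    intro S
    let b := Module.finBasis ℝ V
    have h1 : LinearMap.trace ℝ V (S ^ k) = Matrix.trace (LinearMap.toMatrix b b S ^ k) := by
      rw [LinearMap.trace_eq_matrix_trace ℝ b, LinearMap.toMatrix_pow]
    have h2 : S.charpoly = (LinearMap.toMatrix b b S).charpoly :=
      (LinearMap.charpoly_toMatrix S b).symm
    rw [h1, h2]
    generalize LinearMap.toMatrix b b S = A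
    have h3 : (A.charpoly.map Complex.ofRealHom) =
        (Matrix.toLin' (A.map Complex.ofRealHom)).charpoly := by
      rw [Matrix.charpoly_toLin', ← Matrix.charpoly_map]
    rw [h3, ← trace_pow, ← Matrix.toLin'_pow, Matrix.trace_toLin'_eq]
    have h4 : (A.map Complex.ofRealHom) ^ k = (A ^ k).map Complex.ofRealHom :=
      (map_pow (Complex.ofRealHom.mapMatrix) A k).symm
    rw [h4]
    exact (AddMonoidHom.map_trace (Complex.ofRealHom : ℝ →+ ℂ) (A ^ k))
  have h1 := key T
  have h2 := key T'
  rw [h, ← h2] at h1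
  exact_mod_cast h1

end U1x

theorem thm_U1 (hK : St_K1) (hd : St_dpw) : St_U1 := by
  intro V _ _ _ m m' hm hm' hnd hc
  obtain ⟨x₀, hx₀⟩ := hnd
  -- the power sums
  have hpw : ∀ (k : ℕ) (x : V), pw m k x = pw m' k x := fun k x => U1x.tr_pow _ _ (hc x) k
  have hphi : ∀ (k : ℕ) (x v : V), tr m ((m.flip x ^ k) v) = tr m' ((m'.flip x ^ k) v) := by
    intro k x v
    rw [← (hK V m hm).2.1 k x v, ← (hK V m' hm').2.1 k x v]
    have h1 := hd V m (k + 1) x v
    have h2 := hd V m' (k + 1) x v
    have h3 : (fun e : ℝ => pw m (k + 1) (x + e • v)) = fun e : ℝ => pw m' (k + 1) (x + e • v) :=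
      funext fun e => hpw _ _
    rw [h3] at h1
    have h4 := h1.unique h2
    rw [Nat.add_sub_cancel] at h4
    have h5 : ((k + 1 : ℕ) : ℝ) ≠ 0 := by exact_mod_cast Nat.succ_ne_zero k
    exact mul_left_cancel₀ h5 h4
  have hE : ∀ (k : ℕ) (x v : V), tr m ((m.flip x ^ k) (m v x - m' v x)) = 0 := by
    intro k x v
    have h1 : tr m ((m.flip x ^ k) (m v x)) = tr m ((m.flip x ^ (k + 1)) v) := by
      rw [pow_succ]
      rfl
    have h2 : tr m' ((m'.flip x ^ k) (m' v x)) = tr m' ((m'.flip x ^ (k + 1)) v) := by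
      rw [pow_succ]
      rfl
    rw [map_sub, map_sub, h1, hphi k x (m' v x), h2, hphi (k + 1), sub_self]
  have h0 : ∀ v : V, m v x₀ - m' v x₀ = 0 := fun v => hx₀ _ fun k => hE k x₀ v
  refine LinearMap.ext fun v => LinearMap.ext fun x => ?_
  obtain ⟨⟨d, hd0, hd1⟩, -⟩ := thm_NDo V m x₀ hx₀ x
  have h1 := hd1 (d / 2) (by rw [abs_of_pos (by positivity)]; linarith)
  have h2 := h1 _ fun k => hE k (x₀ + (d / 2) • x) v
  have h3 : m v (x₀ + (d / 2) • x) - m' v (x₀ + (d / 2) • x) = (d / 2) • (m v x - m' v x) := by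
    rw [map_add, map_add, map_smul, map_smul, smul_sub, add_sub_add_comm, h0, zero_add]
  rw [h3] at h2
  have h4 : (d / 2) ≠ 0 := by positivity
  exact sub_eq_zero.1 ((smul_eq_zero.1 h2).resolve_left h4)

end Pool.Agent.RRC
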