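import Pool.Agent.RRC.St2

/-!
# RRC: [U2] (9.2) leaves
-/

set_option autoImplicit false

noncomputable section

namespace Pool.Agent.RRC

open Matrix

namespace U2x

theorem path_empty (D : Dig) (h : D.vs = ∅) : IsEmpty D.Path := by
  refine ⟨fun p => ?_⟩
  obtain ⟨l, ⟨hne, hmem, hch⟩, h0⟩ := p
  match l, hne, hmem, hch, h0 with
  | [i], _, hmem, _, h0 =>
    rcases hmem i (List.mem_singleton.2 rfl) with h1 | h1
    · exact h0 (by rw [h1])
    · rw [h] at h1
      exact absurd h1 (Finset.notMem_empty i)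
  | i :: j :: l, _, _, hch, _ =>
    have h1 : D.E i j := (List.isChain_cons_cons.1 hch).1
    have h2 := (D.down i j h1).2.1
    rw [h] at h2
    exact absurd h2 (Finset.notMem_empty i)

theorem key (hS : St_Str) (hA : St_Add) (h2 : St_Ext2) (hT : St_Tra) (hM : St_MR)
    (hCo : St_Co) : ∀ (n : ℕ) (D : Dig), D.vs.card = n → ∀ (V : Type) [AddCommGroup V]
    [Module ℝ V] [Module.Finite ℝ V] (m : V →ₗ[ℝ] V →ₗ[ℝ] V) (Φ : V ≃ₗ[ℝ] (D.Path → ℝ)),
    LSA m → ND m → D.Model m Φ →
    ∀ c : V, tr m c = 1 → (∀ a, ∃ t : ℝ, m a c = t • c) →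
    ∃ (k : ℕ) (hk : D.Source k), Φ c = Pi.single (D.pK hk.1) 1 := by
  intro n
  induction n with
  | zero =>
    intro D hD V _ _ _ m Φ _ _ _ c hc _
    have hE := path_empty D (Finset.card_eq_zero.1 hD)
    have h0 : c = 0 := by
      apply Φ.injective
      funext p
      exact hE.elim p
    rw [h0, map_zero] at hc
    exact absurd hc zero_ne_one
  | succ n ih =>
    intro D hD V _ _ _ m Φ hL hN hMo c hc hcm
    have hne : D.vs.Nonempty := by
      rw [← Finset.card_pos]
      omega
    obtain ⟨k, hk⟩ := hA.2.1 D hne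
    obtain ⟨m₀, r, hL0, ⟨x0, hx0, hx0'⟩, hMo0, hMR, hmat, hext⟩ := hS D k hk V m Φ hL hN hMo
    obtain ⟨hbij, hco1, hco2⟩ := hCo D k hk
    let Ψ : V ≃ₗ[ℝ] ℝ × EuclideanSpace ℝ ((D.del k).Q (D.out k)) × ((D.del k).Path → ℝ) :=
      Φ.trans (LinearEquiv.ofBijective (D.co hk.1) hbij)
    have hΨ : ∀ a, Ψ a = D.co hk.1 (Φ a) := fun _ => rfl
    have hAI : AIso m (extm m₀ (toH r)) Ψ := fun a b => hext a b
    obtain ⟨-, -, -, htr, -⟩ := hT V _ m (extm m₀ (toH r)) Ψ hAI
    obtain ⟨hRep, hSS, hom, -⟩ := hM _ _ m₀ r hMR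
    have htr1 : (Ψ c).1 + LinearMap.trace ℝ _ (SS (toH r) (Ψ c).2.2) + tr m₀ (Ψ c).2.2 = 1 := by
      rw [← (h2 _ _ m₀ (toH r) (Ψ c)).2.1, ← htr c, hc]
    have hmul : ∀ a', ∃ t : ℝ, extm m₀ (toH r) a' (Ψ c) = t • Ψ c := by
      intro a'
      obtain ⟨t, ht⟩ := hcm (Ψ.symm a')
      refine ⟨t, ?_⟩
      have h3 := hAI (Ψ.symm a') c
      rw [LinearEquiv.apply_symm_apply] at h3
      rw [← h3, ht, map_smul]
    have hΨi : ∀ z : D.Path → ℝ, D.co hk.1 z = Ψ c → Φ c = z := by
      intro z hz
      apply hbij.1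
      rw [hz, hΨ]
    set x := Ψ c with hx
    by_cases hy : x.2.2 = 0
    · -- the case `y = 0`
      have hw : x.2.1 = 0 := by
        by_contra hw
        obtain ⟨t, ht⟩ := hmul (0, x.2.1, 0)
        rw [extm_apply] at ht
        have h3 := congrArg (fun p => p.1) ht
        have h4 := congrArg (fun p => p.2.1) ht
        simp only [Prod.smul_fst, Prod.smul_snd, hy, zero_mul, zero_add, smul_eq_mul] at h3 h4
        have hS0 : SS (toH r) 0 = 0 := by
          unfold SS
          rw [map_zero, map_zero, add_zero]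
        have hr0 : (toH r) 0 = 0 := map_zero _
        rw [hS0, hr0, LinearMap.zero_apply, zero_div, zero_smul, add_zero, add_zero] at h4
        have ht0 : t = 0 := by
          rcases smul_eq_zero.1 h4.symm with h | h
          · exact h
          · exact absurd h hw
        rw [ht0, zero_mul, inner_self_eq_zero] at h3
        exact hw h3
      have hγ : x.1 = 1 := by
        have h3 := htr1
        rw [hy, map_zero] at h3
        have hS0 : SS (toH r) 0 = 0 := by
          unfold SS
          rw [map_zero, map_zero, add_zero]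
        rw [hS0, map_zero, add_zero, add_zero] at h3
        exact h3
      refine ⟨k, hk, hΨi _ ?_⟩
      rw [hco1]
      exact Prod.ext hγ.symm (Prod.ext hw.symm hy.symm)
    · -- the case `y ≠ 0`
      have hzero : ∀ (α : ℝ) (u : EuclideanSpace ℝ ((D.del k).Q (D.out k))),
          α * x.1 + inner ℝ u x.2.1 = 0 ∧ (α / 2) • x.2.1 + SS (toH r) x.2.2 u = 0 := by
        intro α u
        obtain ⟨t, ht⟩ := hmul (α, u, 0)
        rw [extm_apply] at ht
        have h3 := congrArg (fun p => p.1) ht
        have h4 := congrArg (fun p => p.2.1) ht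
        have h5 := congrArg (fun p => p.2.2) ht
        simp only [Prod.smul_fst, Prod.smul_snd, map_zero, LinearMap.zero_apply, add_zero] at h3 h4 h5
        have ht0 : t = 0 := by
          rcases smul_eq_zero.1 h5.symm with h | h
          · exact h
          · exact absurd h hy
        rw [ht0, zero_smul] at h3 h4
        exact ⟨h3, h4⟩
      have hγ : x.1 = 0 := by
        have h3 := (hzero 1 0).1
        rw [inner_zero_left, add_zero, one_mul] at h3
        exact h3
      have hw : x.2.1 = 0 := by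
        have h3 := (hzero 1 0).2
        rw [map_zero, add_zero] at h3
        rcases smul_eq_zero.1 h3 with h | h
        · norm_num at h
        · exact h
      have hS0 : SS (toH r) x.2.2 = 0 := by
        ext1 u
        have h3 := (hzero 0 u).2
        rw [zero_div, zero_smul, zero_add] at h3
        rw [h3]
        rfl
      have htr0 : tr m₀ x.2.2 = 1 := by
        have h3 := htr1
        rw [hγ, hS0, map_zero, add_zero, zero_add] at h3
        exact h3
      have hmul0 : ∀ b, ∃ t : ℝ, m₀ b x.2.2 = t • x.2.2 := by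
        intro b
        obtain ⟨t, ht⟩ := hmul (0, 0, b)
        rw [extm_apply] at ht
        exact ⟨t, congrArg (fun p => p.2.2) ht⟩
      have hcard : (D.del k).vs.card = n := by
        have h3 : (D.del k).vs = D.vs.erase k := rfl
        rw [h3, Finset.card_erase_of_mem hk.1]
        omega
      obtain ⟨i, hi, hyi⟩ := ih (D.del k) hcard _ m₀ (LinearEquiv.refl ℝ _) hL0 ⟨x0, hx0⟩ hMo0
        x.2.2 htr0 hmul0
      have hyi' : x.2.2 = Pi.single ((D.del k).pK hi.1) 1 := hyi
      have hik : i ≠ k := Finset.ne_of_mem_erase hi.1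
      have hsrc : D.Source i := by
        refine ⟨Finset.mem_of_mem_erase hi.1, fun j hj => ?_⟩
        by_cases hjk : j = k
        · subst hjk
          have hiT : i ∈ D.out j := (D.mem_out j i).2 hj
          let q : (D.del j).Q (D.out j) := ⟨[i], ((D.del j).pK hi.1).2.1, i, hiT, rfl⟩
          have h3 : r x.2.2 + (r x.2.2)ᵀ = 0 := by
            rw [← hom (r x.2.2 + (r x.2.2)ᵀ), ← hSS, hS0]
            ext a b
            simp [omat]
          rw [hmat] at h3
          have h4 := congrFun (congrFun h3 q) q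
          have h5 : (D.del j).matQ (D.out j) x.2.2 q q = 1 := by
            show Dig.ent ((D.del j).ext0 x.2.2) [i] [i] = 1
            unfold Dig.ent
            rw [if_pos List.prefix_rfl]
            show (D.del j).ext0 x.2.2 [i] = 1
            unfold Dig.ext0
            rw [dif_pos (show (D.del j).PathP [i] ∧ [i] ≠ [0] from ((D.del j).pK hi.1).2), hyi']
            exact Pi.single_eq_same _ _
          rw [h5] at h4
          exact one_ne_zero h4
        · exact hi.2 j ⟨hj, hjk, hik⟩
      refine ⟨i, hsrc, hΨi _ ?_⟩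
      rw [hco2 i hi.1]
      exact Prod.ext hγ.symm (Prod.ext hw.symm hyi'.symm)

end U2x

/-- [U2] -/
theorem thm_U2 (hS : St_Str) (hA : St_Add) (h2 : St_Ext2) (hT : St_Tra) (hM : St_MR)
    (hCo : St_Co) : St_U2 :=
  fun D V _ _ _ m Φ hL hN hMo c hc hcm =>
    U2x.key hS hA h2 hT hM hCo _ D rfl V m Φ hL hN hMo c hc hcm

end Pool.Agent.RRC
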