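import Pool.Agent.RRC.St2

/-!
# RRC: module U3, uniqueness of the digraph (9.3)
-/

set_option autoImplicit false
set_option maxHeartbeats 400000

open Matrix Polynomial

namespace Pool.Agent.RRC

namespace U3x

theorem path_empty {D : Dig} (h : D.vs = ∅) : IsEmpty D.Path := by
  refine ⟨fun p => p.2.2 ?_⟩
  obtain ⟨l, ⟨h1, h2, h3⟩, -⟩ := p
  show l = [0]
  have h4 : ∀ i ∈ l, i = 0 := by
    intro i hi
    rcases h2 i hi with h5 | h5
    · exact h5
    · rw [h] at h5
      exact absurd h5 (Finset.notMem_empty i)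
  cases l with
  | nil => exact absurd rfl h1
  | cons a t =>
    have ha : a = 0 := h4 a (List.mem_cons_self ..)
    cases t with
    | nil => rw [ha]
    | cons b t =>
      exfalso
      have hb : b = 0 := h4 b (List.mem_cons_of_mem _ (List.mem_cons_self ..))
      have h5 : D.E a b := by
        rw [List.isChain_cons_cons] at h3
        exact h3.1
      have := (D.down a b h5).1
      omega

theorem vs_empty {D : Dig} (h : IsEmpty D.Path) : D.vs = ∅ := by
  rw [Finset.eq_empty_iff_forall_notMem]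
  intro i hi
  exact h.false (D.pK hi)

theorem mem_sup {D : Dig} {i j : ℕ} (h : D.E i j) : i ∈ D.vs ∧ (j = 0 ∨ j ∈ D.vs) :=
  (D.down i j h).2

theorem perm_step {D D' : Dig} {k k' : ℕ} (hk : D.Source k) (hk' : D'.Source k')
    (π₀ : Equiv.Perm ℕ) (h0 : π₀ 0 = 0)
    (hv : ∀ i, i ∈ (D.del k).vs ↔ π₀ i ∈ (D'.del k').vs)
    (he : ∀ i j, (D.del k).E i j ↔ (D'.del k').E (π₀ i) (π₀ j))
    (ho : ∀ j, j ∈ D.out k ↔ π₀ j ∈ D'.out k') :
    ∃ π : Equiv.Perm ℕ, π 0 = 0 ∧ π k = k' ∧ (∀ i ∈ (D.del k).vs, π i = π₀ i) ∧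
      (∀ i, i ∈ D.vs ↔ π i ∈ D'.vs) ∧ ∀ i j, D.E i j ↔ D'.E (π i) (π j) := by
  have hk0 : k ≠ 0 := fun h => D.zero (h ▸ hk.1)
  have hk0' : k' ≠ 0 := fun h => D'.zero (h ▸ hk'.1)
  have hkd : k ∉ (D.del k).vs := Finset.notMem_erase k D.vs
  have hkd' : k' ∉ (D'.del k').vs := Finset.notMem_erase k' D'.vs
  have hP : ∀ i, (Equiv.swap (π₀ k) k') (π₀ i) = π₀ i ∨ i = k ∨ π₀ i = k' := by
    intro i
    by_cases h1 : i = k
    · exact Or.inr (Or.inl h1)
    · by_cases h2 : π₀ i = k'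
      · exact Or.inr (Or.inr h2)
      · exact Or.inl (Equiv.swap_apply_of_ne_of_ne (fun h => h1 (π₀.injective h)) h2)
  have hπk : (Equiv.swap (π₀ k) k') (π₀ k) = k' := Equiv.swap_apply_left _ _
  have hπk' : ∀ i, π₀ i = k' → (Equiv.swap (π₀ k) k') (π₀ i) = π₀ k := by
    intro i hi
    rw [hi]
    exact Equiv.swap_apply_right _ _
  -- the support
  have hS : ∀ i, (i = 0 ∨ i ∈ (D.del k).vs) → (Equiv.swap (π₀ k) k') (π₀ i) = π₀ i := by
    intro i hi
    rcases hP i with h | h | h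
    · exact h
    · exfalso
      rw [h] at hi
      exact hi.elim hk0 hkd
    · exfalso
      rcases hi with hi | hi
      · rw [hi, h0] at h
        exact hk0' h.symm
      · rw [hv, h] at hi
        exact hkd' hi
  have hS' : ∀ i, ((Equiv.swap (π₀ k) k') (π₀ i) = 0 ∨
      (Equiv.swap (π₀ k) k') (π₀ i) ∈ (D'.del k').vs) → (i = 0 ∨ i ∈ (D.del k).vs) := by
    intro i hi
    have h3 : ∀ j, (π₀ j = 0 ∨ π₀ j ∈ (D'.del k').vs) → (j = 0 ∨ j ∈ (D.del k).vs) := by
      rintro j (hj | hj)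
      · left
        rw [← h0] at hj
        exact π₀.injective hj
      · right
        exact (hv j).2 hj
    rcases hP i with h | h | h
    · rw [h] at hi
      exact h3 i hi
    · exfalso
      rw [h, hπk] at hi
      exact hi.elim hk0' hkd'
    · exfalso
      rw [hπk' i h] at hi
      exact (h3 k hi).elim hk0 hkd
  refine ⟨π₀.trans (Equiv.swap (π₀ k) k'), ?_, hπk, fun i hi => hS i (Or.inr hi), ?_, ?_⟩
  · show (Equiv.swap (π₀ k) k') (π₀ 0) = 0
    rw [hS 0 (Or.inl rfl), h0]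
  · intro i
    show i ∈ D.vs ↔ (Equiv.swap (π₀ k) k') (π₀ i) ∈ D'.vs
    by_cases h1 : i = k
    · rw [h1, hπk]
      exact ⟨fun _ => hk'.1, fun _ => hk.1⟩
    · have h2 : (Equiv.swap (π₀ k) k') (π₀ i) ≠ k' := by
        intro h
        exact h1 (π₀.injective ((Equiv.swap (π₀ k) k').injective (h.trans hπk.symm)))
      constructor
      · intro hi
        have h3 : i ∈ (D.del k).vs := Finset.mem_erase.2 ⟨h1, hi⟩
        rw [hS i (Or.inr h3)]
        exact Finset.mem_of_mem_erase ((hv i).1 h3)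
      · intro hi
        have h3 : (Equiv.swap (π₀ k) k') (π₀ i) ∈ (D'.del k').vs := Finset.mem_erase.2 ⟨h2, hi⟩
        rcases hS' i (Or.inr h3) with h4 | h4
        · exfalso
          rw [h4, hS 0 (Or.inl rfl), h0] at hi
          exact D'.zero hi
        · exact Finset.mem_of_mem_erase h4
  · intro i j
    show D.E i j ↔ D'.E ((Equiv.swap (π₀ k) k') (π₀ i)) ((Equiv.swap (π₀ k) k') (π₀ j))
    by_cases h1 : i = k
    · rw [h1, hπk]
      have ho' : D.E k j ↔ D'.E k' (π₀ j) := by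
        rw [← D.mem_out, ← D'.mem_out]
        exact ho j
      constructor
      · intro h
        have h2 := (D.down _ _ h).2.2
        have h3 : j = 0 ∨ j ∈ (D.del k).vs := h2.imp id fun h4 =>
          Finset.mem_erase.2 ⟨(D.down _ _ h).1.ne, h4⟩
        rw [hS j h3]
        exact ho'.1 h
      · intro h
        have h2 := (D'.down _ _ h).2.2
        have h3 := hS' j (h2.imp id fun h4 => Finset.mem_erase.2 ⟨(D'.down _ _ h).1.ne, h4⟩)
        rw [hS j h3] at h
        exact ho'.2 h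
    · have h2 : (Equiv.swap (π₀ k) k') (π₀ i) ≠ k' := by
        intro h
        exact h1 (π₀.injective ((Equiv.swap (π₀ k) k').injective (h.trans hπk.symm)))
      have e1 : D.E i j ↔ (D.del k).E i j :=
        ⟨fun h => ⟨h, h1, fun h3 => hk.2 i (h3 ▸ h)⟩, fun h => h.1⟩
      have e2 : ∀ b, D'.E ((Equiv.swap (π₀ k) k') (π₀ i)) b ↔
          (D'.del k').E ((Equiv.swap (π₀ k) k') (π₀ i)) b :=
        fun b => ⟨fun h => ⟨h, h2, fun h3 => hk'.2 _ (h3 ▸ h)⟩, fun h => h.1⟩
      rw [e1, e2]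
      constructor
      · intro h
        have h3 := mem_sup h
        rw [hS i (Or.inr h3.1), hS j h3.2]
        exact (he i j).1 h
      · intro h
        have h3 := mem_sup h
        rw [hS i (hS' i (Or.inr h3.1)), hS j (hS' j h3.2)] at h
        exact (he i j).2 h

theorem out_sub {D : Dig} (k : ℕ) : D.out k ⊆ insert 0 (D.del k).vs := by
  intro j hj
  rw [Dig.mem_out] at hj
  rw [Finset.mem_insert]
  exact (D.down _ _ hj).2.2.imp id fun h => Finset.mem_erase.2 ⟨(D.down _ _ hj).1.ne, h⟩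

end U3x

open U3x in
/-- [U3] (9.3) Uniqueness of the digraph. -/
theorem thm_U3 (hS : St_Str) (h2 : St_U2) (hA : St_U3A) (hB : St_U3B) (hE : St_Ext2)
    (hT : St_Tra) (hM : St_MR) (hQ : St_QC) (hCB : St_CB) (hAdd : St_Add) (hCo : St_Co)
    (hSi : St_Simple) : St_U3 := by
  have key : ∀ (n : ℕ) (V : Type) [AddCommGroup V] [Module ℝ V] [Module.Finite ℝ V]
      (m : V →ₗ[ℝ] V →ₗ[ℝ] V) (D D' : Dig) (Φ : V ≃ₗ[ℝ] (D.Path → ℝ))
      (Φ' : V ≃ₗ[ℝ] (D'.Path → ℝ)), D.vs.card = n →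
      LSA m → ND m → D.Model m Φ → D'.Model m Φ' →
      ∃ π : Equiv.Perm ℕ, π 0 = 0 ∧ (∀ i, i ∈ D.vs ↔ π i ∈ D'.vs) ∧
        (∀ i j, D.E i j ↔ D'.E (π i) (π j)) ∧
        ∀ i ∈ D.vs, ∀ x, (D.matQ {i} (Φ x)).charpoly = (D'.matQ {π i} (Φ' x)).charpoly := by
    intro n
    induction n with
    | zero =>
      intro V _ _ _ m D D' Φ Φ' hn hl hnd hm hm'
      have hv : D.vs = ∅ := Finset.card_eq_zero.1 hn
      have hp := path_empty hv
      have hV : Subsingleton V := Φ.toEquiv.subsingleton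
      have hp' : IsEmpty D'.Path := by
        refine ⟨fun p => ?_⟩
        have h1 : Φ'.symm (Pi.single p 1) = Φ'.symm 0 := Subsingleton.elim _ _
        have h3 := congrFun (Φ'.symm.injective h1) p
        rw [Pi.single_eq_same, Pi.zero_apply] at h3
        exact one_ne_zero h3
      have hv' := vs_empty hp'
      refine ⟨1, rfl, ?_, ?_, ?_⟩
      · intro i
        rw [hv, hv']
        simp
      · intro i j
        constructor
        · intro h
          have := (mem_sup h).1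
          rw [hv] at this
          simp at this
        · intro h
          have := (mem_sup h).1
          rw [hv'] at this
          simp at this
      · intro i hi
        rw [hv] at hi
        simp at hi
    | succ n ih =>
      intro V _ _ _ m D D' Φ Φ' hn hl hnd hm hm'
      obtain ⟨k, hk⟩ := hAdd.2.1 D (Finset.card_pos.1 (by omega))
      obtain ⟨m₀, r, hl₀, ⟨y₀, hy₀, hy₀'⟩, hm₀, hr, hrs, hco⟩ := hS D k hk V m Φ hl hnd hm
      -- the isomorphism with the extension
      obtain ⟨Ψ, hΨ⟩ : ∃ Ψ : V ≃ₗ[ℝ] ℝ × EuclideanSpace ℝ ((D.del k).Q (D.out k)) ×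
          ((D.del k).Path → ℝ), ∀ x, Ψ x = D.co hk.1 (Φ x) :=
        ⟨Φ.trans (LinearEquiv.ofBijective (D.co hk.1) (hCo D k hk).1), fun x => rfl⟩
      have hΨa : AIso m (extm m₀ (toH r)) Ψ := by
        intro a b
        rw [hΨ, hΨ, hΨ]
        exact hco a b
      obtain ⟨c, hc⟩ : ∃ c : V, Φ c = Pi.single (D.pK hk.1) 1 := Φ.surjective _
      have hΨc : Ψ c = (1, 0, 0) := by
        rw [hΨ, hc]
        exact (hCo D k hk).2.1
      have hSS0 : SS (toH r) 0 = 0 := by
        unfold SS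
        rw [map_zero, map_zero, add_zero]
      have hmul : ∀ a, ∃ t : ℝ, m a c = t • c := by
        intro a
        refine ⟨(Ψ a).1, Ψ.injective ?_⟩
        rw [hΨa, map_smul, hΨc, extm_apply]
        refine Prod.ext ?_ (Prod.ext ?_ ?_)
        · simp
        · simp [hSS0]
        · simp
      have htr : tr m c = 1 := by
        rw [(hT V _ m (extm m₀ (toH r)) Ψ hΨa).2.2.2.1 c, hΨc, (hE _ _ m₀ (toH r) (1, 0, 0)).2.1]
        simp [hSS0]
      obtain ⟨k', hk', hc'⟩ := h2 D' V m Φ' hl hnd hm' c htr hmul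
      obtain ⟨m₀', r', hl₀', -, hm₀', hr', hrs', hco'⟩ := hS D' k' hk' V m Φ' hl hnd hm'
      obtain ⟨Ψ', hΨ'⟩ : ∃ Ψ' : V ≃ₗ[ℝ] ℝ × EuclideanSpace ℝ ((D'.del k').Q (D'.out k')) ×
          ((D'.del k').Path → ℝ), ∀ x, Ψ' x = D'.co hk'.1 (Φ' x) :=
        ⟨Φ'.trans (LinearEquiv.ofBijective (D'.co hk'.1) (hCo D' k' hk').1), fun x => rfl⟩
      have hΨa' : AIso m (extm m₀' (toH r')) Ψ' := by
        intro a b
        rw [hΨ', hΨ', hΨ']
        exact hco' a b
      have hΨc' : Ψ' c = (1, 0, 0) := by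
        rw [hΨ', hc']
        exact (hCo D' k' hk').2.1
      -- the isomorphism of the extensions
      have hΘ : AIso (extm m₀ (toH r)) (extm m₀' (toH r')) (Ψ.symm.trans Ψ') := by
        intro a b
        show Ψ' (Ψ.symm (extm m₀ (toH r) a b)) =
          extm m₀' (toH r') (Ψ' (Ψ.symm a)) (Ψ' (Ψ.symm b))
        rw [← hΨa']
        congr 1
        rw [LinearEquiv.symm_apply_eq, hΨa, LinearEquiv.apply_symm_apply,
          LinearEquiv.apply_symm_apply]
      have hΘc : (Ψ.symm.trans Ψ') (1, 0, 0) = (1, 0, 0) := by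
        show Ψ' (Ψ.symm (1, 0, 0)) = (1, 0, 0)
        rw [← hΨc, LinearEquiv.symm_apply_apply, hΨc']
      obtain ⟨θ₀, hθa, hθ, hθc⟩ := hB _ _ _ _ m₀ m₀' (toH r) (toH r') (Ψ.symm.trans Ψ') hΘ hΘc
      have hθ' : ∀ x, (D'.co hk'.1 (Φ' x)).2.2 = θ₀ (D.co hk.1 (Φ x)).2.2 := by
        intro x
        have h3 := hθ (Ψ x)
        have h4 : (Ψ.symm.trans Ψ') (Ψ x) = Ψ' x := by
          show Ψ' (Ψ.symm (Ψ x)) = Ψ' x
          rw [LinearEquiv.symm_apply_apply]
        rw [h4, hΨ, hΨ'] at h3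
        exact h3
      have hmod : (D'.del k').Model m₀ θ₀ := by
        intro x
        rw [(hT _ _ m₀ m₀' θ₀ hθa).2.2.1 x]
        exact hm₀' (θ₀ x)
      -- the induction hypothesis
      have hcard : (D.del k).vs.card = n := by
        have h3 : (D.del k).vs.card = D.vs.card - 1 := Finset.card_erase_of_mem hk.1
        omega
      obtain ⟨π₀, p0, pv, pe, pc⟩ := ih _ m₀ (D.del k) (D'.del k') (LinearEquiv.refl ℝ _) θ₀
        hcard hl₀ ⟨y₀, hy₀⟩ hm₀ hmod
      have hRR : RR m₀ := by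
        intro x
        rw [hm₀ x]
        exact (hQ (D.del k) x).2.2.1
      have hcm : (m₀.flip y₀).charpoly = ((D.del k).mat y₀).charpoly := hm₀ y₀
      have hsep : ((D.del k).mat y₀).charpoly.Separable := by
        rw [← hcm]
        exact hSi _ m₀ hl₀ hRR y₀ hy₀
      have hT1 : ((D.del k).matQ (D.out k) y₀).charpoly =
          ((D'.del k').matQ (D'.out k') (θ₀ y₀)).charpoly := by
        have e1 := hM _ _ m₀ r hr
        have e2 := hM _ _ m₀' r' hr'
        rw [← hrs, ← hrs', ← e1.2.2.2, ← e2.2.2.2, ← e1.2.1, ← e2.2.1]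
        exact hθc y₀
      have ho := hA (D.del k) (D'.del k') π₀ p0 pv y₀ (θ₀ y₀) (fun i hi => pc i hi y₀) hsep
        (by rw [← hcm]; exact hy₀') (D.out k) (D'.out k') (out_sub k) (out_sub k') hT1
      obtain ⟨π, q0, qk, qv, qvs, qe⟩ := perm_step hk hk' π₀ p0 pv pe ho
      refine ⟨π, q0, qvs, qe, ?_⟩
      intro i hi x
      by_cases hik : i = k
      · subst hik
        rw [qk]
        have e1 := (hCB D (Φ x)).1 i hk
        have e2 := (hCB D' (Φ' x)).1 k' hk'
        rw [e1.2.1, e2.2.1]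
        have e3 : (D.mat (Φ x)).charpoly = (D'.mat (Φ' x)).charpoly := by
          rw [← hm x, ← hm' x]
        have e4 : ((D.del i).mat (D.co hk.1 (Φ x)).2.2).charpoly =
            ((D'.del k').mat (D'.co hk'.1 (Φ' x)).2.2).charpoly := by
          rw [hθ' x, ← hmod]
          exact (hm₀ _).symm
        rw [e1.1, e2.1, e4] at e3
        exact mul_left_cancel₀ (Matrix.charpoly_monic _).ne_zero e3
      · have hi' : i ∈ (D.del k).vs := Finset.mem_erase.2 ⟨hik, hi⟩
        have hne : π₀ i ≠ k' := by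
          have h3 := (pv i).1 hi'
          exact (Finset.mem_erase.1 h3).1
        rw [((hCB D (Φ x)).1 k hk).2.2 i hik, qv i hi', ((hCB D' (Φ' x)).1 k' hk').2.2 _ hne,
          hθ' x]
        exact pc i hi' _
  intro V _ _ _ m D D' Φ Φ' hl hnd hm hm'
  exact key _ V m D D' Φ Φ' rfl hl hnd hm hm'

end Pool.Agent.RRC
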