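import Pool.Agent.RRC.St2

/-!
# RRC: matching of the sets of targets

Module U3A: `thm_U3A (hQ : St_QC) : St_U3A`.
-/

set_option autoImplicit false

open Matrix Polynomial

namespace Pool.Agent.RRC

namespace U3Ax

/-- the characteristic polynomial of the part of the matrix with first vertex `i` -/
noncomputable def P (D : Dig) (x : D.Path → ℝ) (i : ℕ) : ℝ[X] := (D.matQ {i} x).charpoly

theorem root (hQ : St_QC) (D : Dig) (x : D.Path → ℝ) (i : ℕ) (hi : i ∈ insert 0 D.vs) :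
    ∃ l : ℝ, (P D x i).eval l = 0 := by
  have h1 : (P D x i).Splits := by
    have h2 := ((hQ D x).2.2.2 {i}).1
    refine Matrix.IsHermitian.splits_charpoly ?_
    rw [Matrix.IsHermitian, Matrix.conjTranspose_eq_transpose_of_trivial]
    exact h2
  refine h1.exists_eval_eq_zero ?_
  have h3 : Nonempty (D.Q {i}) := by
    refine ⟨⟨[i], ⟨List.cons_ne_nil _ _, fun j hj => ?_, List.isChain_singleton i⟩, i,
      Finset.mem_singleton_self i, rfl⟩⟩
    rw [List.mem_singleton] at hj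
    rw [hj]
    exact Finset.mem_insert.1 hi
  have h4 : (P D x i).natDegree = Fintype.card (D.Q {i}) := Matrix.charpoly_natDegree_eq_dim _
  have h5 : 0 < (P D x i).natDegree := by
    rw [h4]
    exact Fintype.card_pos
  exact (natDegree_pos_iff_degree_pos.1 h5).ne'

theorem prod_vs (hQ : St_QC) (D : Dig) (x : D.Path → ℝ) :
    (D.mat x).charpoly = ∏ i ∈ D.vs, P D x i := by
  obtain ⟨e, he⟩ := (hQ D x).1
  rw [← he]
  have h1 : (D.matQ D.vs x).submatrix e e = Matrix.reindex e.symm e.symm (D.matQ D.vs x) := rfl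
  rw [h1, Matrix.charpoly_reindex]
  exact ((hQ D x).2.2.2 D.vs).2.1

theorem zero (hQ : St_QC) (D : Dig) (x : D.Path → ℝ) : P D x 0 = X := ((hQ D x).2.2.2 ∅).2.2

theorem sep (hQ : St_QC) (D : Dig) (x : D.Path → ℝ) (hs : (D.mat x).charpoly.Separable)
    (h0 : (D.mat x).charpoly.eval 0 ≠ 0) : (∏ i ∈ insert 0 D.vs, P D x i).Separable := by
  rw [Finset.prod_insert D.zero, zero hQ, ← prod_vs hQ]
  refine Separable.mul separable_X hs ?_
  refine (Irreducible.coprime_iff_not_dvd irreducible_X).2 fun h => h0 ?_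
  exact dvd_iff_isRoot.1 (by rwa [C_0, sub_zero])

theorem inj (hQ : St_QC) (D : Dig) (x : D.Path → ℝ) (hs : (D.mat x).charpoly.Separable)
    (h0 : (D.mat x).charpoly.eval 0 ≠ 0) (i j : ℕ) (hi : i ∈ insert 0 D.vs)
    (hj : j ∈ insert 0 D.vs) (l : ℝ) (h1 : (P D x i).eval l = 0) (h2 : (P D x j).eval l = 0) :
    i = j := by
  by_contra hij
  have h3 := sep hQ D x hs h0
  rw [← Finset.mul_prod_erase _ _ hi, ← Finset.mul_prod_erase _ _
    (Finset.mem_erase.2 ⟨Ne.symm hij, hj⟩)] at h3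
  have h4 : IsCoprime (P D x i) (P D x j) := (h3.isCoprime).of_mul_right_left
  obtain ⟨a, b, hab⟩ := h4
  have h5 := congrArg (eval l) hab
  rw [eval_add, eval_mul, eval_mul, h1, h2, mul_zero, mul_zero, add_zero, eval_one] at h5
  exact zero_ne_one h5

theorem vanish (hQ : St_QC) (D : Dig) (x : D.Path → ℝ) (T : Finset ℕ) (l : ℝ) :
    (D.matQ T x).charpoly.eval l = 0 ↔ ∃ i ∈ T, (P D x i).eval l = 0 := by
  rw [((hQ D x).2.2.2 T).2.1, eval_prod, Finset.prod_eq_zero_iff]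
  rfl

end U3Ax

theorem thm_U3A (hQ : St_QC) : St_U3A := by
  intro D D' π h0 hπ x x' hP hsep hne T T' hT hT' hTT i
  have hm : ∀ i, i ∈ insert 0 D.vs ↔ π i ∈ insert 0 D'.vs := by
    intro i
    rw [Finset.mem_insert, Finset.mem_insert, hπ i]
    refine or_congr ⟨fun h => by rw [h, h0], fun h => π.injective (h.trans h0.symm)⟩ Iff.rfl
  have hPP : ∀ i ∈ insert 0 D.vs, U3Ax.P D x i = U3Ax.P D' x' (π i) := by
    intro i hi
    rcases Finset.mem_insert.1 hi with rfl | hi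
    · rw [h0, U3Ax.zero hQ, U3Ax.zero hQ]
    · exact hP i hi
  constructor
  · intro hi
    obtain ⟨l, hl⟩ := U3Ax.root hQ D x i (hT hi)
    have h1 := (U3Ax.vanish hQ D x T l).2 ⟨i, hi, hl⟩
    rw [hTT] at h1
    obtain ⟨j, hj, hjl⟩ := (U3Ax.vanish hQ D' x' T' l).1 h1
    have h2 : π.symm j ∈ insert 0 D.vs := (hm _).2 (by
      rw [Equiv.apply_symm_apply]
      exact hT' hj)
    have h3 : (U3Ax.P D x (π.symm j)).eval l = 0 := by
      rw [hPP _ h2, Equiv.apply_symm_apply]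
      exact hjl
    have h4 := U3Ax.inj hQ D x hsep hne i _ (hT hi) h2 l hl h3
    rw [h4, Equiv.apply_symm_apply]
    exact hj
  · intro hi
    have hi' : i ∈ insert 0 D.vs := (hm i).2 (hT' hi)
    obtain ⟨l, hl⟩ := U3Ax.root hQ D x i hi'
    have h1 : (U3Ax.P D' x' (π i)).eval l = 0 := by
      rw [← hPP i hi']
      exact hl
    have h2 := (U3Ax.vanish hQ D' x' T' l).2 ⟨_, hi, h1⟩
    rw [← hTT] at h2
    obtain ⟨j, hj, hjl⟩ := (U3Ax.vanish hQ D x T l).1 h2
    have h3 := U3Ax.inj hQ D x hsep hne i j hi' (hT hj) l hl hjl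
    rw [h3]
    exact hj

end Pool.Agent.RRC
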