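import Pool.Agent.RRC.St2

/-!
# RRC, module U3B (helper92): (9.3), isomorphisms of extensions
-/

set_option autoImplicit false
set_option linter.unusedSectionVars false

namespace Pool.Agent.RRC

namespace U3Bx

variable {V V' : Type} [AddCommGroup V] [Module ℝ V] [AddCommGroup V'] [Module ℝ V']
  {H H' : Type} [NormedAddCommGroup H] [InnerProductSpace ℝ H] [FiniteDimensional ℝ H]
  [NormedAddCommGroup H'] [InnerProductSpace ℝ H'] [FiniteDimensional ℝ H']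
  {m : V →ₗ[ℝ] V →ₗ[ℝ] V} {m' : V' →ₗ[ℝ] V' →ₗ[ℝ] V'}
  {r : V →ₗ[ℝ] (H →ₗ[ℝ] H)} {r' : V' →ₗ[ℝ] (H' →ₗ[ℝ] H')}

/-- multiplication with `c` -/
theorem cmul (m : V →ₗ[ℝ] V →ₗ[ℝ] V) (r : V →ₗ[ℝ] (H →ₗ[ℝ] H)) (x : ℝ × H × V) :
    extm m r (1, 0, 0) x = (x.1, (1 / 2 : ℝ) • x.2.1, 0) := by
  rw [extm_apply]
  refine Prod.ext ?_ (Prod.ext ?_ ?_)
  · simp
  · simp
  · simp

theorem yy (m : V →ₗ[ℝ] V →ₗ[ℝ] V) (r : V →ₗ[ℝ] (H →ₗ[ℝ] H)) (y y' : V) :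
    extm m r (0, 0, y) (0, 0, y') = (0, 0, m y y') := by
  rw [extm_apply]
  refine Prod.ext ?_ (Prod.ext ?_ ?_)
  · simp
  · simp
  · rfl

theorem wy (m : V →ₗ[ℝ] V →ₗ[ℝ] V) (r : V →ₗ[ℝ] (H →ₗ[ℝ] H)) (w : H) (y : V) :
    extm m r (0, w, 0) (0, 0, y) = (0, SS r y w, 0) := by
  rw [extm_apply]
  refine Prod.ext ?_ (Prod.ext ?_ ?_)
  · simp
  · simp
  · simp

theorem symm_iso (Θ : (ℝ × H × V) ≃ₗ[ℝ] (ℝ × H' × V')) (h : AIso (extm m r) (extm m' r') Θ) :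
    AIso (extm m' r') (extm m r) Θ.symm := by
  intro a b
  apply Θ.injective
  rw [h, LinearEquiv.apply_symm_apply, LinearEquiv.apply_symm_apply,
    LinearEquiv.apply_symm_apply]

/-- the images of the `(0, 0, y)` -/
theorem img_y (Θ : (ℝ × H × V) ≃ₗ[ℝ] (ℝ × H' × V')) (h : AIso (extm m r) (extm m' r') Θ)
    (hc : Θ (1, 0, 0) = (1, 0, 0)) (y : V) : Θ (0, 0, y) = (0, 0, (Θ (0, 0, y)).2.2) := by
  have h1 := h (1, 0, 0) (0, 0, y)
  rw [hc, cmul, cmul] at h1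
  have h2 : ((0 : ℝ), (1 / 2 : ℝ) • (0 : H), (0 : V)) = 0 := by
    rw [smul_zero]
    rfl
  change Θ ((0 : ℝ), (1 / 2 : ℝ) • (0 : H), (0 : V)) = _ at h1
  rw [h2, map_zero] at h1
  have h3 : (Θ (0, 0, y)).1 = 0 := (congrArg Prod.fst h1).symm
  have h4 : (1 / 2 : ℝ) • (Θ (0, 0, y)).2.1 = 0 := (congrArg (fun z => z.2.1) h1).symm
  have h5 : (Θ (0, 0, y)).2.1 = 0 := by
    rcases smul_eq_zero.1 h4 with h | h
    · norm_num at h
    · exact h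
  exact Prod.ext h3 (Prod.ext h5 rfl)

/-- the images of the `(0, w, 0)` -/
theorem img_w (Θ : (ℝ × H × V) ≃ₗ[ℝ] (ℝ × H' × V')) (h : AIso (extm m r) (extm m' r') Θ)
    (hc : Θ (1, 0, 0) = (1, 0, 0)) (w : H) : Θ (0, w, 0) = (0, (Θ (0, w, 0)).2.1, 0) := by
  have h1 := h (1, 0, 0) (0, w, 0)
  rw [hc, cmul, cmul] at h1
  have h2 : ((0 : ℝ), (1 / 2 : ℝ) • w, (0 : V)) = (1 / 2 : ℝ) • ((0 : ℝ), w, (0 : V)) := by
    refine Prod.ext ?_ (Prod.ext ?_ ?_)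
    · simp
    · rfl
    · simp
  change Θ ((0 : ℝ), (1 / 2 : ℝ) • w, (0 : V)) = _ at h1
  rw [h2, map_smul] at h1
  have h3 : (1 / 2 : ℝ) * (Θ (0, w, 0)).1 = (Θ (0, w, 0)).1 := congrArg Prod.fst h1
  have h4 : (1 / 2 : ℝ) • (Θ (0, w, 0)).2.2 = 0 := congrArg (fun z => z.2.2) h1
  have h5 : (Θ (0, w, 0)).2.2 = 0 := by
    rcases smul_eq_zero.1 h4 with h | h
    · norm_num at h
    · exact h
  exact Prod.ext (by linarith) (Prod.ext rfl h5)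

/-- the isomorphism of the algebras -/
noncomputable def t0 (Θ : (ℝ × H × V) ≃ₗ[ℝ] (ℝ × H' × V'))
    (h : AIso (extm m r) (extm m' r') Θ) (hc : Θ (1, 0, 0) = (1, 0, 0)) : V ≃ₗ[ℝ] V' where
  toFun y := (Θ (0, 0, y)).2.2
  invFun y := (Θ.symm (0, 0, y)).2.2
  map_add' x y := by
    have h1 : ((0 : ℝ), (0 : H), x + y) = (0, 0, x) + (0, 0, y) := by
      refine Prod.ext ?_ (Prod.ext ?_ rfl)
      · simp
      · simp
    rw [h1, map_add]
    rfl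
  map_smul' t x := by
    have h1 : ((0 : ℝ), (0 : H), t • x) = t • (0, 0, x) := by
      refine Prod.ext ?_ (Prod.ext ?_ rfl)
      · simp
      · simp
    rw [h1, map_smul]
    rfl
  left_inv y := by
    change (Θ.symm (0, 0, (Θ (0, 0, y)).2.2)).2.2 = y
    rw [← img_y Θ h hc y, LinearEquiv.symm_apply_apply]
  right_inv y := by
    have hc' : Θ.symm (1, 0, 0) = (1, 0, 0) := by
      rw [← hc, LinearEquiv.symm_apply_apply]
    change (Θ (0, 0, (Θ.symm (0, 0, y)).2.2)).2.2 = y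
    rw [← img_y Θ.symm (symm_iso Θ h) hc' y, LinearEquiv.apply_symm_apply]

/-- the isomorphism of the representation spaces -/
noncomputable def t1 (Θ : (ℝ × H × V) ≃ₗ[ℝ] (ℝ × H' × V'))
    (h : AIso (extm m r) (extm m' r') Θ) (hc : Θ (1, 0, 0) = (1, 0, 0)) : H ≃ₗ[ℝ] H' where
  toFun w := (Θ (0, w, 0)).2.1
  invFun w := (Θ.symm (0, w, 0)).2.1
  map_add' x y := by
    have h1 : ((0 : ℝ), x + y, (0 : V)) = (0, x, 0) + (0, y, 0) := by
      refine Prod.ext ?_ (Prod.ext rfl ?_)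
      · simp
      · simp
    rw [h1, map_add]
    rfl
  map_smul' t x := by
    have h1 : ((0 : ℝ), t • x, (0 : V)) = t • (0, x, 0) := by
      refine Prod.ext ?_ (Prod.ext rfl ?_)
      · simp
      · simp
    rw [h1, map_smul]
    rfl
  left_inv y := by
    change (Θ.symm (0, (Θ (0, y, 0)).2.1, 0)).2.1 = y
    rw [← img_w Θ h hc y, LinearEquiv.symm_apply_apply]
  right_inv y := by
    have hc' : Θ.symm (1, 0, 0) = (1, 0, 0) := by
      rw [← hc, LinearEquiv.symm_apply_apply]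
    change (Θ (0, (Θ.symm (0, y, 0)).2.1, 0)).2.1 = y
    rw [← img_w Θ.symm (symm_iso Θ h) hc' y, LinearEquiv.apply_symm_apply]

theorem t0_apply (Θ : (ℝ × H × V) ≃ₗ[ℝ] (ℝ × H' × V'))
    (h : AIso (extm m r) (extm m' r') Θ) (hc : Θ (1, 0, 0) = (1, 0, 0)) (y : V) :
    Θ (0, 0, y) = (0, 0, t0 Θ h hc y) := img_y Θ h hc y

theorem t1_apply (Θ : (ℝ × H × V) ≃ₗ[ℝ] (ℝ × H' × V'))
    (h : AIso (extm m r) (extm m' r') Θ) (hc : Θ (1, 0, 0) = (1, 0, 0)) (w : H) :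
    Θ (0, w, 0) = (0, t1 Θ h hc w, 0) := img_w Θ h hc w

end U3Bx

open U3Bx in
theorem thm_U3B : St_U3B := by
  intro V V' _ _ _ _ H H' _ _ _ _ _ _ m m' r r' Θ h hc
  refine ⟨t0 Θ h hc, fun y y' => ?_, fun x => ?_, fun y => ?_⟩
  · have h1 := h (0, 0, y) (0, 0, y')
    rw [yy, t0_apply Θ h hc, t0_apply Θ h hc, t0_apply Θ h hc, yy] at h1
    exact congrArg (fun z => z.2.2) h1
  · have h1 : x = x.1 • ((1 : ℝ), (0 : H), (0 : V)) + (0, x.2.1, 0) + (0, 0, x.2.2) := by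
      refine Prod.ext ?_ (Prod.ext ?_ ?_)
      · simp
      · simp
      · simp
    conv_lhs => rw [h1]
    rw [map_add, map_add, map_smul, hc, t0_apply Θ h hc, t1_apply Θ h hc]
    simp
  · have h1 : SS r' (t0 Θ h hc y) = (t1 Θ h hc).conj (SS r y) := by
      apply LinearMap.ext
      intro w'
      obtain ⟨w, rfl⟩ := (t1 Θ h hc).surjective w'
      have h2 := h (0, w, 0) (0, 0, y)
      rw [wy, t0_apply Θ h hc, t1_apply Θ h hc, t1_apply Θ h hc, wy] at h2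
      rw [LinearEquiv.conj_apply_apply, LinearEquiv.symm_apply_apply]
      exact (congrArg (fun z => z.2.1) h2).symm
    rw [h1, LinearEquiv.charpoly_conj]

end Pool.Agent.RRC

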