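import Pool.Agent.RRC.St2

/-!
# RRC: representations of an extension (7.1), (7.2)

Module V1: `thm_V1 : St_Cyc → St_V1`.
-/

namespace Pool.Agent.RRC

open Polynomial

namespace V1x

variable {K : Type} [NormedAddCommGroup K] [InnerProductSpace ℝ K] [FiniteDimensional ℝ K]

theorem tr_comm (A B : K →ₗ[ℝ] K) :
    LinearMap.trace ℝ K (A * B) = LinearMap.trace ℝ K (B * A) := LinearMap.trace_mul_comm ℝ A B

theorem eq_zero_of_trace (A : K →ₗ[ℝ] K) (hA : star A = A)
    (h : LinearMap.trace ℝ K (A * A) = 0) : A = 0 := by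
  have h1 := LinearMap.trace_eq_sum_inner (A * A) (stdOrthonormalBasis ℝ K)
  rw [h] at h1
  have h2 : ∀ i, (inner ℝ (stdOrthonormalBasis ℝ K i) ((A * A) (stdOrthonormalBasis ℝ K i)) : ℝ) =
      ‖A (stdOrthonormalBasis ℝ K i)‖ ^ 2 := by
    intro i
    rw [Module.End.mul_apply]
    conv_lhs => rw [← hA]
    rw [LinearMap.star_eq_adjoint, LinearMap.adjoint_inner_right, ← LinearMap.star_eq_adjoint, hA,
      real_inner_self_eq_norm_sq]
  rw [Finset.sum_congr rfl fun i _ => h2 i] at h1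
  have h3 := (Finset.sum_eq_zero_iff_of_nonneg fun i _ => sq_nonneg _).1 h1.symm
  refine (stdOrthonormalBasis ℝ K).toBasis.ext fun i => ?_
  have h4 := h3 i (Finset.mem_univ i)
  rw [OrthonormalBasis.coe_toBasis, LinearMap.zero_apply]
  exact norm_eq_zero.1 ((pow_eq_zero_iff two_ne_zero).1 h4)

/-- the operator identity in the first case -/
theorem step1 (P k : K →ₗ[ℝ] K) (hP : star P = P) (h : P = P * P + (k * P - P * k)) :
    P * P = P ∧ k * P = P * k := by
  have ht : ∀ Q : K →ₗ[ℝ] K, Q * P = P * Q →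
      LinearMap.trace ℝ K (P * Q) = LinearMap.trace ℝ K (P * P * Q) := by
    intro Q hQ
    have h1 : LinearMap.trace ℝ K (P * Q) =
        LinearMap.trace ℝ K ((P * P + (k * P - P * k)) * Q) := by rw [← h]
    rw [h1, add_mul, sub_mul, map_add, map_sub]
    have h2 : LinearMap.trace ℝ K (k * P * Q) = LinearMap.trace ℝ K (P * k * Q) := by
      rw [mul_assoc, mul_assoc, tr_comm P (k * Q), mul_assoc, hQ]
    rw [h2, sub_self, add_zero]
  have t1 := ht P rfl
  have t2 := ht (P * P) (mul_assoc P P P)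
  have h3 : P - P * P = 0 := by
    apply eq_zero_of_trace
    · rw [star_sub, star_mul, hP]
    · rw [sub_mul, mul_sub, mul_sub, map_sub, map_sub, map_sub, t1, t2]
      simp only [← mul_assoc]
      ring
  have h4 : P * P = P := (sub_eq_zero.1 h3).symm
  refine ⟨h4, ?_⟩
  rw [h4] at h
  exact sub_eq_zero.1 (left_eq_add.1 h)

/-- the operator identity in general -/
theorem step2 (P k S : K →ₗ[ℝ] K) (b : ℝ) (hP : star P = P) (hS : star S = S)
    (hk : k * P = P * k) (h : b • S = (1 / 2 : ℝ) • (P * S + S * P) + (k * S - S * k)) :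
    b • S = (1 / 2 : ℝ) • (P * S + S * P) ∧ k * S = S * k := by
  have h0 : b • S - (1 / 2 : ℝ) • (P * S + S * P) = k * S - S * k := by
    rw [h]
    abel
  have h1 : b • S - (1 / 2 : ℝ) • (P * S + S * P) = 0 := by
    apply eq_zero_of_trace
    · rw [star_sub, star_smul, star_smul, star_add, star_mul, star_mul, hP, hS, star_trivial,
        star_trivial, add_comm (S * P)]
    · have e1 : LinearMap.trace ℝ K ((b • S - (1 / 2 : ℝ) • (P * S + S * P)) *
          (b • S - (1 / 2 : ℝ) • (P * S + S * P))) =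
          LinearMap.trace ℝ K ((b • S - (1 / 2 : ℝ) • (P * S + S * P)) * (k * S - S * k)) := by
        conv_lhs => rw [h0]
        rw [h0]
      rw [e1]
      simp only [sub_mul, mul_sub, add_mul, mul_add, smul_mul_assoc, map_sub, map_add, map_smul,
        smul_eq_mul, ← mul_assoc]
      have c1 : ∀ A B C D : K →ₗ[ℝ] K, LinearMap.trace ℝ K (A * B * C * D) =
          LinearMap.trace ℝ K (B * C * D * A) := by
        intro A B C D
        rw [mul_assoc, mul_assoc, tr_comm, ← mul_assoc]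
      have c0 : ∀ A B C : K →ₗ[ℝ] K, LinearMap.trace ℝ K (A * B * C) =
          LinearMap.trace ℝ K (B * C * A) := by
        intro A B C
        rw [mul_assoc, tr_comm]
      have d1 := c0 S k S
      have d2 := c0 S S k
      have d3 : LinearMap.trace ℝ K (P * S * k * S) = LinearMap.trace ℝ K (k * S * P * S) := by
        rw [c1 P S k S, c1 S k S P]
      have d4 : LinearMap.trace ℝ K (S * P * S * k) = LinearMap.trace ℝ K (k * S * P * S) := by
        rw [c1 S P S k, c1 P S k S, c1 S k S P]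
      have d5 : LinearMap.trace ℝ K (S * P * k * S) = LinearMap.trace ℝ K (S * k * P * S) := by
        rw [mul_assoc S P k, ← hk, ← mul_assoc]
      have d6 : LinearMap.trace ℝ K (P * S * S * k) = LinearMap.trace ℝ K (S * k * P * S) := by
        rw [c1 P S S k, c1 S S k P]
      rw [d2]
      linarith
  refine ⟨sub_eq_zero.1 h1, ?_⟩
  rw [h1] at h0
  exact (sub_eq_zero.1 h0.symm)

theorem aeval_self (S : K →ₗ[ℝ] K) (hS : star S = S) (p : ℝ[X]) :
    star (aeval S p) = aeval S p := by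
  induction p using Polynomial.induction_on' with
  | add p q hp hq => rw [map_add, star_add, hp, hq]
  | monomial n a =>
    rw [aeval_monomial, ← Algebra.smul_def, star_smul, star_pow, hS, star_trivial]

end V1x

open V1x in
/-- [V1] -/
theorem thm_V1 (hC : St_Cyc) : St_V1 := by
  intro V _ _ _ W _ _ _ K _ _ _ m r ρ hs
  have hSS0 : SS r 0 = 0 := by
    simp [SS]
  have hcx : ∀ x : ℝ × W × V, extm m r (1, 0, 0) x = (x.1, (1 / 2 : ℝ) • x.2.1, 0) := by
    intro x
    rw [extm_apply]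
    refine Prod.ext ?_ (Prod.ext ?_ ?_)
    · simp
    · simp
    · simp
  have hxc : ∀ x : ℝ × W × V, extm m r x (1, 0, 0) = (x.1, 0, 0) := by
    intro x
    rw [extm_apply]
    refine Prod.ext ?_ (Prod.ext ?_ ?_)
    · simp
    · simp [hSS0]
    · simp
  set P : K →ₗ[ℝ] K := SS ρ (1, 0, 0) with hPdef
  set R : K →ₗ[ℝ] K := ρ (1, 0, 0) with hRdef
  have hPR : P = R + star R := rfl
  have hSst : ∀ x, star (SS ρ x) = SS ρ x := by
    intro x
    change star (ρ x + star (ρ x)) = ρ x + star (ρ x)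
    rw [star_add, star_star, add_comm]
  have hPs : star P = P := hSst _
  set k : K →ₗ[ℝ] K := R - (1 / 2 : ℝ) • P with hkdef
  have hks : star k = -k := by
    rw [hkdef, star_sub, star_smul, hPs, star_trivial (1 / 2 : ℝ), hPR]
    module
  have hR : R = (1 / 2 : ℝ) • P + k := by rw [hkdef]; abel
  have hR' : star R = (1 / 2 : ℝ) • P - k := by
    rw [hR, star_add, star_smul, hPs, hks, star_trivial (1 / 2 : ℝ), sub_eq_add_neg]
  -- the identity (*)
  have star1 : ∀ (b : ℝ) (x : ℝ × W × V), extm m r (1, 0, 0) x = b • x →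
      b • SS ρ x = (1 / 2 : ℝ) • (P * SS ρ x + SS ρ x * P) + (k * SS ρ x - SS ρ x * k) := by
    intro b x hx
    have h1 := hs.rho.sym (1, 0, 0) x
    rw [hx, SS_smul] at h1
    have h2 : b • SS ρ x = R * SS ρ x + SS ρ x * star R := h1
    rw [h2, hR', hR, add_mul, mul_sub, smul_mul_assoc, mul_smul_comm, smul_add]
    abel
  have s1 := star1 1 (1, 0, 0) (by rw [hcx]; simp)
  obtain ⟨hid, hkP⟩ := step1 P k hPs (by
    have h1 : P = (1 / 2 : ℝ) • (P * P + P * P) + (k * P - P * k) := by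
      rw [one_smul] at s1
      exact s1
    have h2 : (1 / 2 : ℝ) • (P * P + P * P) = P * P := by
      rw [← two_smul ℝ (P * P), smul_smul]
      norm_num
    rw [h2] at h1
    exact h1)
  have sw : ∀ w : W, (1 / 2 : ℝ) • SS ρ (0, w, 0) =
      (1 / 2 : ℝ) • (P * SS ρ (0, w, 0) + SS ρ (0, w, 0) * P) ∧
        k * SS ρ (0, w, 0) = SS ρ (0, w, 0) * k := by
    intro w
    refine step2 P k _ _ hPs (hSst _) hkP (star1 (1 / 2) (0, w, 0) ?_)
    rw [hcx]
    refine Prod.ext ?_ (Prod.ext ?_ ?_) <;> simp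
  have sy : ∀ y : V, (0 : ℝ) • SS ρ (0, 0, y) =
      (1 / 2 : ℝ) • (P * SS ρ (0, 0, y) + SS ρ (0, 0, y) * P) ∧
        k * SS ρ (0, 0, y) = SS ρ (0, 0, y) * k := by
    intro y
    refine step2 P k _ _ hPs (hSst _) hkP (star1 0 (0, 0, y) ?_)
    rw [hcx]
    refine Prod.ext ?_ (Prod.ext ?_ ?_) <;> simp
  -- `k` commutes with all `S_x`
  have hkall : ∀ x : ℝ × W × V, k * SS ρ x = SS ρ x * k := by
    intro x
    have hx : x = x.1 • ((1, 0, 0) : ℝ × W × V) + ((0, x.2.1, 0) + (0, 0, x.2.2)) := by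
      refine Prod.ext ?_ (Prod.ext ?_ ?_) <;> simp
    have h1 : SS ρ x = x.1 • P + (SS ρ (0, x.2.1, 0) + SS ρ (0, 0, x.2.2)) := by
      conv_lhs => rw [hx]
      rw [SS_add, SS_smul, SS_add]
    rw [h1, mul_add, mul_add, add_mul, add_mul, mul_smul_comm, smul_mul_assoc, hkP, (sw _).2,
      (sy _).2]
  obtain ⟨x₀, hx₀⟩ := hs.cyc
  obtain ⟨p, hp⟩ := (hC K (SS ρ x₀)).2.1 hx₀ k (hkall x₀)
  have hk0 : k = 0 := by
    have h1 : star k = k := by
      rw [hp]
      exact aeval_self _ (hSst _) p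
    rw [hks] at h1
    have h2 : (2 : ℝ) • k = 0 := by
      rw [two_smul]
      nth_rewrite 1 [← h1]
      exact neg_add_cancel k
    exact (smul_eq_zero.1 h2).resolve_left two_ne_zero
  have hRP : R = (1 / 2 : ℝ) • P := by rw [hR, hk0, add_zero]
  have hy0 : ∀ y : V, P * SS ρ (0, 0, y) = 0 ∧ SS ρ (0, 0, y) * P = 0 := by
    intro y
    have h1 : P * SS ρ (0, 0, y) + SS ρ (0, 0, y) * P = 0 := by
      have h2 := (sy y).1
      rw [zero_smul] at h2
      exact (smul_eq_zero.1 h2.symm).resolve_left (by norm_num)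
    have h2 : P * SS ρ (0, 0, y) + P * SS ρ (0, 0, y) * P = 0 := by
      have h3 := congrArg (fun T => P * T) h1
      simp only [mul_add, mul_zero, ← mul_assoc, hid] at h3
      exact h3
    have h3 : P * SS ρ (0, 0, y) * P + SS ρ (0, 0, y) * P = 0 := by
      have h4 := congrArg (fun T => T * P) h1
      simp only [add_mul, zero_mul] at h4
      rw [mul_assoc (SS ρ (0, 0, y)) P P, hid] at h4
      exact h4
    have h4 : P * SS ρ (0, 0, y) = SS ρ (0, 0, y) * P := by
      have h5 : P * SS ρ (0, 0, y) = -(P * SS ρ (0, 0, y) * P) := eq_neg_of_add_eq_zero_left h2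
      have h6 : SS ρ (0, 0, y) * P = -(P * SS ρ (0, 0, y) * P) :=
        eq_neg_of_add_eq_zero_right h3
      rw [h5, h6]
    have h5 : (2 : ℝ) • (P * SS ρ (0, 0, y)) = 0 := by
      rw [two_smul]
      nth_rewrite 2 [h4]
      exact h1
    have h6 : P * SS ρ (0, 0, y) = 0 := (smul_eq_zero.1 h5).resolve_left two_ne_zero
    exact ⟨h6, by rw [← h4, h6]⟩
  have hw0 : ∀ w : W, P * SS ρ (0, w, 0) + SS ρ (0, w, 0) * P = SS ρ (0, w, 0) := by
    intro w
    have h2 := (sw w).1
    exact (smul_right_injective _ (by norm_num : (1 / 2 : ℝ) ≠ 0) h2).symm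
  have hrw : ∀ w : W, ρ (0, w, 0) = P * SS ρ (0, w, 0) := by
    intro w
    have h1 := hs.rho.lie (1, 0, 0) (0, w, 0)
    rw [hcx, hxc] at h1
    have h2 : (((0 : ℝ), (1 / 2 : ℝ) • w, (0 : V)) - ((0 : ℝ), (0 : W), (0 : V)) :
        ℝ × W × V) = (1 / 2 : ℝ) • (0, w, 0) := by
      refine Prod.ext ?_ (Prod.ext ?_ ?_) <;> simp
    have h3 : (1 / 2 : ℝ) • ρ (0, w, 0) = R * ρ (0, w, 0) - ρ (0, w, 0) * R := by
      rw [← map_smul, ← h2]
      exact h1
    rw [hRP, smul_mul_assoc, mul_smul_comm, ← smul_sub] at h3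
    have h4 : ρ (0, w, 0) = P * ρ (0, w, 0) - ρ (0, w, 0) * P :=
      smul_right_injective _ (by norm_num : (1 / 2 : ℝ) ≠ 0) h3
    have h5 : P * ρ (0, w, 0) * P = 0 := by
      have h6 := congrArg (fun T => P * T) h4
      simp only [mul_sub, ← mul_assoc, hid] at h6
      exact sub_eq_self.1 h6.symm
    have h6 : ρ (0, w, 0) * P = 0 := by
      have h7 := congrArg (fun T => T * P) h4
      simp only [sub_mul] at h7
      rw [h5, mul_assoc, hid, zero_sub] at h7
      have h8 : (2 : ℝ) • (ρ (0, w, 0) * P) = 0 := by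
        rw [two_smul]
        nth_rewrite 1 [h7]
        exact neg_add_cancel _
      exact (smul_eq_zero.1 h8).resolve_left two_ne_zero
    have h7 : P * ρ (0, w, 0) = ρ (0, w, 0) := by
      rw [h6, sub_zero] at h4
      exact h4.symm
    have h8 : SS ρ (0, w, 0) = ρ (0, w, 0) + star (ρ (0, w, 0)) := rfl
    have h9 : P * star (ρ (0, w, 0)) = 0 := by
      have h10 := congrArg star h6
      rw [star_mul, hPs, star_zero] at h10
      exact h10
    rw [h8, mul_add, h7, h9, add_zero]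
  have hry : ∀ y : V, ρ (0, 0, y) * P = P * ρ (0, 0, y) := by
    intro y
    have h1 := hs.rho.lie (1, 0, 0) (0, 0, y)
    rw [hcx, hxc] at h1
    have h2 : (((0 : ℝ), (1 / 2 : ℝ) • (0 : W), (0 : V)) - ((0 : ℝ), (0 : W), (0 : V)) :
        ℝ × W × V) = 0 := by
      refine Prod.ext ?_ (Prod.ext ?_ ?_) <;> simp
    have h3 : (0 : K →ₗ[ℝ] K) = R * ρ (0, 0, y) - ρ (0, 0, y) * R := by
      rw [← map_zero ρ, ← h2]
      exact h1
    rw [hRP, smul_mul_assoc, mul_smul_comm, ← smul_sub] at h3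
    have h4 := (smul_eq_zero.1 h3.symm).resolve_left (by norm_num)
    exact (sub_eq_zero.1 h4).symm
  exact ⟨hid, hRP, fun y => (hy0 y).1, fun y => (hy0 y).2, hw0, hrw, hry⟩

end Pool.Agent.RRC
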