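import Pool.Agent.RRC.St2

/-!
# RRC: representations of an extension (7.3)

Module V1B: `thm_V1B : St_V1B`.
-/

namespace Pool.Agent.RRC

/-- [V1B] -/
theorem thm_V1B : St_V1B := by
  intro V _ _ _ W _ _ _ K _ _ _ m r ρ hs hv u u' hu hu'
  have hSS0 : SS r 0 = 0 := by
    simp [SS]
  have hsym : ∀ (x : ℝ × W × V) (a b : K), (inner ℝ (SS ρ x a) b : ℝ) = inner ℝ a (SS ρ x b) := by
    intro x a b
    change inner ℝ ((ρ x + (ρ x).adjoint) a) b = inner ℝ a ((ρ x + (ρ x).adjoint) b)
    rw [LinearMap.add_apply, LinearMap.add_apply, inner_add_left, inner_add_right,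
      LinearMap.adjoint_inner_left, LinearMap.adjoint_inner_right, add_comm]
  have hadj : ∀ (x : ℝ × W × V) (a : K), (ρ x).adjoint a = SS ρ x a - ρ x a := by
    intro x a
    change _ = (ρ x + (ρ x).adjoint) a - ρ x a
    rw [LinearMap.add_apply]
    abel
  have h0 : ∀ w, SS ρ (1, 0, 0) (SS ρ (0, w, 0) u) = 0 := by
    intro w
    have h1 := congrArg (fun T : K →ₗ[ℝ] K => T u) (hv.Sw w)
    simp only [LinearMap.add_apply, LinearMap.comp_apply] at h1
    rw [hu] at h1
    exact add_eq_right.1 h1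
  have hrw' : ∀ (w : W) (a b : K), (inner ℝ ((ρ (0, w, 0)).adjoint a) b : ℝ) =
      inner ℝ (SS ρ (0, w, 0) (SS ρ (1, 0, 0) a)) b := by
    intro w a b
    rw [LinearMap.adjoint_inner_left, hv.rw w, LinearMap.comp_apply, hsym, hsym]
  have hrwa : ∀ (w : W) (a : K), (ρ (0, w, 0)).adjoint a =
      SS ρ (0, w, 0) (SS ρ (1, 0, 0) a) := fun w a => ext_inner_right ℝ fun b => hrw' w a b
  have hyu : ∀ y, SS ρ (0, 0, y) u = 0 := by
    intro y
    have h1 := congrArg (fun T : K →ₗ[ℝ] K => T u) (hv.Sy' y)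
    simp only [LinearMap.comp_apply, LinearMap.zero_apply] at h1
    rwa [hu] at h1
  refine ⟨h0, fun w w' => ?_, fun y w => ?_, fun y w => ?_⟩
  · have h1 := hs.rho.sym (0, w, 0) (0, w', 0)
    have h2 : extm m r (0, w, 0) (0, w', 0) = (inner ℝ w w' : ℝ) • (1, 0, 0) := by
      rw [extm_apply]
      refine Prod.ext ?_ (Prod.ext ?_ ?_)
      · simp
      · simp [hSS0]
      · simp
    rw [h2, SS_smul] at h1
    have h3 := congrArg (fun T : K →ₗ[ℝ] K => (inner ℝ (T u) u' : ℝ)) h1
    simp only [LinearMap.smul_apply, LinearMap.add_apply, LinearMap.comp_apply] at h3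
    rw [hu, hrwa, hu, hv.rw w, LinearMap.comp_apply, inner_smul_left, inner_add_left, hsym, hu',
      hsym, hsym, conj_trivial] at h3
    rw [h3, add_comm, hsym (0, w', 0) u, hsym (0, w', 0) (SS ρ (0, w, 0) u)]
  · have h1 := hs.rho.sym (0, w, 0) (0, 0, y)
    have h2 : extm m r (0, w, 0) (0, 0, y) = (0, SS r y w, 0) := by
      rw [extm_apply]
      refine Prod.ext ?_ (Prod.ext ?_ ?_)
      · simp
      · simp
      · simp
    rw [h2] at h1
    have h3 := congrArg (fun T : K →ₗ[ℝ] K => T u) h1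
    simp only [LinearMap.add_apply, LinearMap.comp_apply] at h3
    rw [hyu, map_zero, hrwa, hu, zero_add] at h3
    exact h3.symm
  · have h1 := hs.rho.sym (0, 0, y) (0, w, 0)
    have h2 : extm m r (0, 0, y) (0, w, 0) = (0, r y w, 0) := by
      rw [extm_apply]
      refine Prod.ext ?_ (Prod.ext ?_ ?_)
      · simp
      · simp
      · simp
    rw [h2] at h1
    have h3 := congrArg (fun T : K →ₗ[ℝ] K => T u) h1
    simp only [LinearMap.add_apply, LinearMap.comp_apply] at h3
    rw [hadj, hyu, zero_sub, map_neg] at h3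
    rw [h3]
    abel

end Pool.Agent.RRC
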