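import Pool.Agent.RRC.St2

/-!
# RRC V2 (7.4): `dim H1 ≤ 1`
-/

open Matrix Polynomial

namespace Pool.Agent.RRC

namespace V2x

variable {V : Type} [AddCommGroup V] [Module ℝ V]
variable {W : Type} [NormedAddCommGroup W] [InnerProductSpace ℝ W] [FiniteDimensional ℝ W]
variable {K : Type} [NormedAddCommGroup K] [InnerProductSpace ℝ K] [FiniteDimensional ℝ K]

theorem SS_inner (r : V →ₗ[ℝ] (K →ₗ[ℝ] K)) (y : V) (u v : K) :
    (inner ℝ (SS r y u) v : ℝ) = inner ℝ u (SS r y v) := by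
  simp only [SS, LinearMap.add_apply, inner_add_left, inner_add_right,
    LinearMap.adjoint_inner_left, LinearMap.adjoint_inner_right]
  ring

theorem SS_symm (r : V →ₗ[ℝ] (K →ₗ[ℝ] K)) (y : V) : (SS r y).IsSymmetric :=
  fun u v => SS_inner r y u v

/-- `SS` as a linear map -/
noncomputable def SSl (r : V →ₗ[ℝ] (K →ₗ[ℝ] K)) : V →ₗ[ℝ] (K →ₗ[ℝ] K) where
  toFun := SS r
  map_add' := SS_add r
  map_smul' := SS_smul r

/-- `w ↦ S_w u` -/
noncomputable def Lw (ρ : (ℝ × W × V) →ₗ[ℝ] (K →ₗ[ℝ] K)) (u : K) : W →ₗ[ℝ] K :=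
  (SSl ρ).flip u ∘ₗ LinearMap.inr ℝ ℝ (W × V) ∘ₗ LinearMap.inl ℝ W V

omit [FiniteDimensional ℝ W] in
theorem Lw_apply (ρ : (ℝ × W × V) →ₗ[ℝ] (K →ₗ[ℝ] K)) (u : K) (w : W) :
    Lw ρ u w = SS ρ (0, w, 0) u := rfl

omit [FiniteDimensional ℝ W] in
theorem SS_decomp (ρ : (ℝ × W × V) →ₗ[ℝ] (K →ₗ[ℝ] K)) (γ : ℝ) (w : W) (y : V) :
    SS ρ (γ, w, y) = γ • SS ρ (1, 0, 0) + SS ρ (0, w, 0) + SS ρ (0, 0, y) := by
  rw [← SS_smul, ← SS_add, ← SS_add]
  congr 1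
  ext <;> simp

/-- a common cyclic point -/
theorem common (hL : St_CycLine) (r : V →ₗ[ℝ] (W →ₗ[ℝ] W))
    (ρ : (ℝ × W × V) →ₗ[ℝ] (K →ₗ[ℝ] K)) (h1 : ∃ x, Cyc (SS ρ x)) (h2 : ∃ y, Cyc (SS r y)) :
    ∃ x : ℝ × W × V, Cyc (SS ρ x) ∧ Cyc (SS r x.2.2) := by
  obtain ⟨x₁, h1⟩ := h1
  obtain ⟨y₂, h2⟩ := h2
  have e1 : ∀ t : ℝ, SS ρ x₁ + t • SS ρ ((0, 0, y₂) - x₁) =
      SS ρ (x₁ + t • ((0, 0, y₂) - x₁)) := fun t => by rw [SS_add, SS_smul]
  have e2 : ∀ t : ℝ, SS r x₁.2.2 + t • SS r (y₂ - x₁.2.2) =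
      SS r (x₁.2.2 + t • (y₂ - x₁.2.2)) := fun t => by rw [SS_add, SS_smul]
  have f1 := hL K (SS ρ x₁) (SS ρ ((0, 0, y₂) - x₁)) 0 (by
    rw [zero_smul, add_zero]
    exact h1)
  have f2 := hL W (SS r x₁.2.2) (SS r (y₂ - x₁.2.2)) 1 (by
    rw [e2, one_smul, add_sub_cancel]
    exact h2)
  obtain ⟨t, ht⟩ := (f1.union f2).infinite_compl.nonempty
  rw [Set.mem_compl_iff, Set.mem_union, not_or] at ht
  refine ⟨x₁ + t • ((0, 0, y₂) - x₁), ?_, ?_⟩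
  · rw [← e1]
    exact not_not.1 ht.1
  · have e3 : (x₁ + t • (((0, 0, y₂) : ℝ × W × V) - x₁)).2.2 = x₁.2.2 + t • (y₂ - x₁.2.2) := rfl
    rw [e3, ← e2]
    exact not_not.1 ht.2

/-- an eigenvector in an invariant subspace -/
theorem eig (T : K →ₗ[ℝ] K) (hT : T.IsSymmetric) (K1 : Submodule ℝ K)
    (hi : ∀ v ∈ K1, T v ∈ K1) (u : K) (hu : u ∈ K1) (hu0 : u ≠ 0) :
    ∃ z ∈ K1, z ≠ 0 ∧ ∃ l : ℝ, T z = l • z := by
  have hn : Nontrivial K1 := ⟨⟨⟨u, hu⟩, 0, fun h => hu0 (congrArg Subtype.val h)⟩⟩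
  have hs := hT.restrict_invariant hi
  obtain ⟨z, hz⟩ := hs.hasEigenvalue_iSup_of_finiteDimensional.exists_hasEigenvector
  exact ⟨z.1, z.2, fun h => hz.2 (Subtype.ext h), _, congrArg Subtype.val hz.apply_eq_smul⟩

section Main

variable {m : V →ₗ[ℝ] V →ₗ[ℝ] V} {r : V →ₗ[ℝ] (W →ₗ[ℝ] W)} {ρ : (ℝ × W × V) →ₗ[ℝ] (K →ₗ[ℝ] K)}

theorem EE [Module.Finite ℝ V] (hC : St_Cyc) (hB : St_V1B) (hs : Sit m r ρ) (hc : V1c ρ) (y : V)
    (hy : Cyc (SS r y)) (u u' : K) (hu : SS ρ (1, 0, 0) u = u) (hu' : SS ρ (1, 0, 0) u' = u')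
    (v v' : W) :
    (inner ℝ (SS ρ (0, v, 0) u) (SS ρ (0, v', 0) u') : ℝ) = inner ℝ v v' * inner ℝ u u' / 2 := by
  have b1 := hB V W K m r ρ hs hc u u' hu hu'
  have b2 := hB V W K m r ρ hs hc u' u' hu' hu'
  have hS := SS_symm r y
  let b := hS.eigenvectorBasis rfl
  let l := hS.eigenvalues rfl
  have hb : ∀ i, SS r y (b i) = l i • b i := fun i => hS.apply_eigenvectorBasis rfl i
  have hl : ∀ i j, i ≠ j → l i ≠ l j := by
    intro i j hij h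
    obtain ⟨t, ht⟩ := (hC W (SS r y)).2.2.1 hy hS (l i) (b i) (b j) (hb i)
      (by rw [hb j, h]) (b.toBasis.ne_zero i |> fun h' h'' => h' (by
        rw [OrthonormalBasis.coe_toBasis]; exact h''))
    have h1 : (inner ℝ (b i) (b j) : ℝ) = 0 := b.orthonormal.2 hij
    rw [ht, inner_smul_right, real_inner_self_eq_norm_sq, b.orthonormal.1 i] at h1
    have h2 : t = 0 := by simpa using h1
    have h3 := b.orthonormal.1 j
    rw [ht, h2, zero_smul, norm_zero] at h3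
    exact zero_ne_one h3
  have hbb : ∀ i j, (inner ℝ (Lw ρ u (b i)) (Lw ρ u' (b j)) : ℝ) =
      (inner ℝ (b i) (b j) : ℝ) * inner ℝ u u' / 2 := by
    intro i j
    rw [Lw_apply, Lw_apply]
    by_cases hij : i = j
    · subst hij
      have h1 := b1.2.1 (b i) (b i)
      linarith
    · have h1 : (inner ℝ (SS ρ (0, 0, y) (SS ρ (0, b i, 0) u)) (SS ρ (0, b j, 0) u') : ℝ) =
          l i * inner ℝ (SS ρ (0, b i, 0) u) (SS ρ (0, b j, 0) u') := by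
        rw [b1.2.2.1 y (b i), hb i]
        have : SS ρ (0, l i • b i, 0) u = l i • SS ρ (0, b i, 0) u := (Lw ρ u).map_smul _ _
        rw [this, real_inner_smul_left]
      have h2 : (inner ℝ (SS ρ (0, b i, 0) u) (SS ρ (0, 0, y) (SS ρ (0, b j, 0) u')) : ℝ) =
          l j * inner ℝ (SS ρ (0, b i, 0) u) (SS ρ (0, b j, 0) u') := by
        rw [b2.2.2.1 y (b j), hb j]
        have : SS ρ (0, l j • b j, 0) u' = l j • SS ρ (0, b j, 0) u' := (Lw ρ u').map_smul _ _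
        rw [this, real_inner_smul_right]
      rw [SS_inner, h2] at h1
      have h3 : (l j - l i) * (inner ℝ (SS ρ (0, b i, 0) u) (SS ρ (0, b j, 0) u') : ℝ) = 0 := by
        linarith
      rcases mul_eq_zero.1 h3 with h | h
      · exact absurd (sub_eq_zero.1 h).symm (hl i j hij)
      · have h4 : (inner ℝ (b i) (b j) : ℝ) = 0 := b.orthonormal.2 hij
        rw [h, h4]
        ring
  rw [← Lw_apply, ← Lw_apply]
  have e1 : v = ∑ i, (inner ℝ (b i) v : ℝ) • b i := (b.sum_repr' v).symm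
  have e2 : v' = ∑ i, (inner ℝ (b i) v' : ℝ) • b i := (b.sum_repr' v').symm
  have e3 : (inner ℝ (Lw ρ u v) (Lw ρ u' v') : ℝ) =
      ∑ i, ∑ j, inner ℝ (b i) v * (inner ℝ (b j) v' * inner ℝ (Lw ρ u (b i)) (Lw ρ u' (b j))) := by
    conv_lhs => rw [e1, e2]
    simp only [map_sum, map_smul, sum_inner, inner_sum, real_inner_smul_left,
      real_inner_smul_right]
    rw [Finset.sum_comm]
    exact Finset.sum_congr rfl fun i _ => Finset.sum_congr rfl fun j _ => by ring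
  have e4 : (inner ℝ v v' : ℝ) =
      ∑ i, ∑ j, inner ℝ (b i) v * (inner ℝ (b j) v' * inner ℝ (b i) (b j)) := by
    conv_lhs => rw [e1, e2]
    simp only [sum_inner, inner_sum, real_inner_smul_left, real_inner_smul_right]
    rw [Finset.sum_comm]
    exact Finset.sum_congr rfl fun i _ => Finset.sum_congr rfl fun j _ => by ring
  rw [e3, e4, Finset.sum_mul, Finset.sum_div]
  refine Finset.sum_congr rfl fun i _ => ?_
  rw [Finset.sum_mul, Finset.sum_div]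
  refine Finset.sum_congr rfl fun j _ => ?_
  rw [hbb]
  ring

/-- `ψ_u (α, v) = α u + S_v u` -/
noncomputable def psi (ρ : (ℝ × W × V) →ₗ[ℝ] (K →ₗ[ℝ] K)) (u : K) : (ℝ × W) →ₗ[ℝ] K :=
  (LinearMap.toSpanSingleton ℝ K u).coprod (Lw ρ u)

omit [FiniteDimensional ℝ W] in
theorem psi_apply (ρ : (ℝ × W × V) →ₗ[ℝ] (K →ₗ[ℝ] K)) (u : K) (p : ℝ × W) :
    psi ρ u p = p.1 • u + SS ρ (0, p.2, 0) u := rfl

variable [Module.Finite ℝ V]

theorem cross (hB : St_V1B) (hs : Sit m r ρ) (hc : V1c ρ) (u : K)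
    (hu : SS ρ (1, 0, 0) u = u) (v : W) : (inner ℝ u (SS ρ (0, v, 0) u) : ℝ) = 0 := by
  have b1 := hB V W K m r ρ hs hc u u hu hu
  conv_lhs => rw [← hu]
  rw [hu, ← hu, SS_inner, hu, b1.1 v, inner_zero_right]

theorem psi_inner (hC : St_Cyc) (hB : St_V1B) (hs : Sit m r ρ) (hc : V1c ρ) (y : V)
    (hy : Cyc (SS r y)) (u : K) (hu : SS ρ (1, 0, 0) u = u) (p : ℝ × W) :
    (inner ℝ (psi ρ u p) (psi ρ u p) : ℝ) =
      (p.1 ^ 2 + inner ℝ p.2 p.2 / 2) * inner ℝ u u := by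
  have h1 := EE hC hB hs hc y hy u u hu hu p.2 p.2
  have h2 := cross hB hs hc u hu p.2
  rw [psi_apply, inner_add_left, inner_add_right, inner_add_right, real_inner_smul_left,
    real_inner_smul_right, real_inner_smul_left, real_inner_smul_right, h1, h2,
    real_inner_comm u (SS ρ (0, p.2, 0) u), h2]
  ring

theorem SwSv (hC : St_Cyc) (hB : St_V1B) (hs : Sit m r ρ) (hc : V1c ρ) (y : V)
    (hy : Cyc (SS r y)) (u : K) (hu : SS ρ (1, 0, 0) u = u) (w v : W) :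
    SS ρ (0, w, 0) (SS ρ (0, v, 0) u) = (inner ℝ v w / 2 : ℝ) • u := by
  have b1 := hB V W K m r ρ hs hc u u hu hu
  have h1 : SS ρ (1, 0, 0) (SS ρ (0, w, 0) (SS ρ (0, v, 0) u)) =
      SS ρ (0, w, 0) (SS ρ (0, v, 0) u) := by
    have h := LinearMap.congr_fun (hc.Sw w) (SS ρ (0, v, 0) u)
    rw [LinearMap.add_apply, LinearMap.comp_apply, LinearMap.comp_apply, b1.1 v, map_zero,
      add_zero] at h
    exact h
  set q := SS ρ (0, w, 0) (SS ρ (0, v, 0) u) - (inner ℝ v w / 2 : ℝ) • u with hq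
  have h2 : SS ρ (1, 0, 0) q = q := by
    rw [hq, map_sub, map_smul, h1, hu]
  have h3 : (inner ℝ q q : ℝ) = 0 := by
    have h4 : (inner ℝ (SS ρ (0, w, 0) (SS ρ (0, v, 0) u)) q : ℝ) =
        inner ℝ v w * inner ℝ u q / 2 := by
      rw [SS_inner, EE hC hB hs hc y hy u q hu h2]
    have h5 : (inner ℝ q q : ℝ) = inner ℝ (SS ρ (0, w, 0) (SS ρ (0, v, 0) u)) q -
        inner ℝ ((inner ℝ v w / 2 : ℝ) • u) q := by
      rw [← inner_sub_left]
    rw [h5, h4, real_inner_smul_left]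
    ring
  exact sub_eq_zero.1 (inner_self_eq_zero.1 h3)

theorem Sx_psi (hC : St_Cyc) (hB : St_V1B) (hs : Sit m r ρ) (hc : V1c ρ) (γ : ℝ) (w : W) (y : V)
    (hy : Cyc (SS r y)) (u : K) (hu : SS ρ (1, 0, 0) u = u) (p : ℝ × W) :
    SS ρ (γ, w, y) (psi ρ u p) =
      psi ρ u (γ * p.1 + inner ℝ p.2 w / 2, p.1 • w + SS r y p.2) := by
  have b1 := hB V W K m r ρ hs hc u u hu hu
  have h1 : SS ρ (0, 0, y) u = 0 := by
    have h := LinearMap.congr_fun (hc.Sy' y) u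
    rw [LinearMap.comp_apply, hu] at h
    exact h
  rw [psi_apply, psi_apply, SS_decomp]
  simp only [LinearMap.add_apply, LinearMap.smul_apply, map_add, map_smul, hu, b1.1, h1,
    b1.2.2.1 y p.2, SwSv hC hB hs hc y hy u hu w p.2]
  have h2 : SS ρ (0, p.1 • w + SS r y p.2, 0) u =
      p.1 • SS ρ (0, w, 0) u + SS ρ (0, SS r y p.2, 0) u := by
    rw [← Lw_apply, map_add, map_smul]
    rfl
  rw [h2, add_smul, mul_smul]
  module

end Main

end V2x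

open V2x in
/-- (7.4) `dim H1 ≤ 1`. -/
theorem thm_V2 (hC : St_Cyc) (hL : St_CycLine) (hB : St_V1B) : St_V2 := by
  intro V _ _ _ W _ _ _ K _ _ _ m r ρ hs hc u u' hu hu' hu0
  obtain ⟨⟨γ, w, y⟩, hx, hy⟩ := common hL r ρ hs.cyc hs.cycW
  have hy : Cyc (SS r y) := hy
  obtain ⟨z, ⟨p, rfl⟩, hz0, l, hl⟩ := eig (SS ρ (γ, w, y)) (SS_symm ρ _)
    (LinearMap.range (psi ρ u)) (by
      rintro _ ⟨p, rfl⟩
      exact ⟨_, (Sx_psi hC hB hs hc γ w y hy u hu p).symm⟩) u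
    ⟨(1, 0), by
      rw [psi_apply]
      have : SS ρ (0, (0 : W), 0) = 0 := by
        have h := SS_smul ρ 0 (0 : ℝ × W × V)
        rw [zero_smul, zero_smul] at h
        exact h
      rw [this]
      simp⟩ hu0
  have inj : ∀ (v : K), SS ρ (1, 0, 0) v = v → ∀ q : ℝ × W, psi ρ v q = 0 → q ≠ 0 → v = 0 := by
    intro v hv q h1 hq
    have h2 := psi_inner hC hB hs hc y hy v hv q
    rw [h1, inner_zero_left] at h2
    rcases mul_eq_zero.1 h2.symm with h | h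
    · exfalso
      have h3 : (0 : ℝ) ≤ inner ℝ q.2 q.2 := real_inner_self_nonneg
      have h4 : q.1 = 0 := by
        have : q.1 ^ 2 = 0 := by nlinarith [sq_nonneg q.1]
        exact pow_eq_zero_iff (two_ne_zero) |>.1 this
      have h5 : (inner ℝ q.2 q.2 : ℝ) = 0 := by nlinarith [sq_nonneg q.1]
      exact hq (Prod.ext h4 (inner_self_eq_zero.1 h5))
    · exact inner_self_eq_zero.1 h
  have hp0 : p ≠ 0 := fun h => hz0 (by rw [h, map_zero])
  have h1 : (γ * p.1 + inner ℝ p.2 w / 2, p.1 • w + SS r y p.2) = l • p := by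
    rw [Sx_psi hC hB hs hc γ w y hy u hu p, ← map_smul, ← sub_eq_zero, ← map_sub] at hl
    by_contra h
    exact hu0 (inj u hu _ hl (sub_ne_zero.2 h))
  have h2 : SS ρ (γ, w, y) (psi ρ u' p) = l • psi ρ u' p := by
    rw [Sx_psi hC hB hs hc γ w y hy u' hu' p, h1, map_smul]
  obtain ⟨t, ht⟩ := (hC K (SS ρ (γ, w, y))).2.2.1 hx (SS_symm ρ _) l _ _ hl h2 hz0
  refine ⟨t, ?_⟩
  have h3 : psi ρ (u' - t • u) p = 0 := by
    rw [psi_apply] at ht ⊢
    rw [psi_apply] at ht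
    rw [map_sub, map_smul, smul_sub, smul_comm p.1 t u, sub_add_sub_comm, ht, smul_add, sub_self]
  have h4 := inj (u' - t • u) (by rw [map_sub, map_smul, hu, hu']) p h3 hp0
  exact sub_eq_zero.1 h4

end Pool.Agent.RRC
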