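import Pool.Agent.RRC.St2

/-!
# RRC, module V3: (7.5), the alternative for a representation of an extension (MP_835236_al)
-/

open Matrix Polynomial

namespace Pool.Agent.RRC

namespace V3x

section gen

variable {V : Type} [AddCommGroup V] [Module ℝ V]
variable {H : Type} [NormedAddCommGroup H] [InnerProductSpace ℝ H] [FiniteDimensional ℝ H]

theorem SS_ap (r : V →ₗ[ℝ] (H →ₗ[ℝ] H)) (y : V) (v : H) :
    SS r y v = r y v + (r y).adjoint v := rfl

/-- `S_y` is symmetric. -/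
theorem SS_symm (r : V →ₗ[ℝ] (H →ₗ[ℝ] H)) (y : V) (v w : H) :
    (inner ℝ (SS r y v) w : ℝ) = inner ℝ v (SS r y w) := by
  rw [SS_ap, SS_ap, inner_add_left, inner_add_right, LinearMap.adjoint_inner_left,
    LinearMap.adjoint_inner_right, add_comm]

theorem adj_ap (r : V →ₗ[ℝ] (H →ₗ[ℝ] H)) (y : V) (v : H) :
    (r y).adjoint v = SS r y v - r y v := by
  rw [SS_ap, add_sub_cancel_left]

end gen

section sit

variable {V : Type} [AddCommGroup V] [Module ℝ V]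
  {W : Type} [NormedAddCommGroup W] [InnerProductSpace ℝ W] [FiniteDimensional ℝ W]
  {K : Type} [NormedAddCommGroup K] [InnerProductSpace ℝ K] [FiniteDimensional ℝ K]
  {m : V →ₗ[ℝ] V →ₗ[ℝ] V} {r : V →ₗ[ℝ] (W →ₗ[ℝ] W)} {ρ : (ℝ × W × V) →ₗ[ℝ] (K →ₗ[ℝ] K)}

omit [FiniteDimensional ℝ W] in
theorem dec (x : ℝ × W × V) :
    x = x.1 • ((1 : ℝ), (0 : W), (0 : V)) + (0, x.2.1, 0) + (0, 0, x.2.2) := by
  obtain ⟨a, b, c⟩ := x
  refine Prod.ext ?_ (Prod.ext ?_ ?_)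
  · show a = a * 1 + 0 + 0
    ring
  · show b = a • (0 : W) + b + 0
    rw [smul_zero, zero_add, add_zero]
  · show c = a • (0 : V) + 0 + c
    rw [smul_zero, zero_add, zero_add]

omit [FiniteDimensional ℝ W] in
theorem SS_dec (ρ : (ℝ × W × V) →ₗ[ℝ] (K →ₗ[ℝ] K)) (γ : ℝ) (w : W) (y : V) (v : K) :
    SS ρ (γ, w, y) v = γ • SS ρ (1, 0, 0) v + SS ρ (0, w, 0) v + SS ρ (0, 0, y) v := by
  have h := dec (W := W) (V := V) (γ, w, y)
  calc SS ρ (γ, w, y) v
      = SS ρ (γ • ((1 : ℝ), (0 : W), (0 : V)) + (0, w, 0) + (0, 0, y)) v := by rw [← h]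
    _ = _ := by
      rw [SS_add, SS_add, SS_smul]
      rfl

theorem ext_yy (m : V →ₗ[ℝ] V →ₗ[ℝ] V) (r : V →ₗ[ℝ] (W →ₗ[ℝ] W)) (y y' : V) :
    extm m r (0, 0, y) (0, 0, y') = (0, 0, m y y') := by
  rw [extm_apply]
  refine Prod.ext ?_ (Prod.ext ?_ rfl)
  · show (0 : ℝ) * 0 + inner ℝ (0 : W) (0 : W) = 0
    rw [inner_zero_left, zero_mul, add_zero]
  · show ((0 : ℝ) / 2) • (0 : W) + SS r y' 0 + r y 0 = 0
    rw [smul_zero, map_zero, map_zero, add_zero, add_zero]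

omit [Module ℝ V] [InnerProductSpace ℝ W] [FiniteDimensional ℝ W] in
theorem sub_yy (y y' : V) : (((0 : ℝ), (0 : W), y) - (0, 0, y')) = (0, 0, y - y') := by
  refine Prod.ext ?_ (Prod.ext ?_ rfl)
  · exact sub_zero _
  · exact sub_zero _

/-- the identities for the elements `(0, 0, y)` -/
theorem rep_sym (h : Sit m r ρ) (y y' : V) : SS ρ (0, 0, m y y') =
    ρ (0, 0, y) ∘ₗ SS ρ (0, 0, y') + SS ρ (0, 0, y') ∘ₗ (ρ (0, 0, y)).adjoint := by
  have h1 := h.rho.sym (0, 0, y) (0, 0, y')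
  rwa [ext_yy] at h1

theorem rep_lie (h : Sit m r ρ) (y y' : V) : ρ (0, 0, m y y' - m y' y) =
    ρ (0, 0, y) ∘ₗ ρ (0, 0, y') - ρ (0, 0, y') ∘ₗ ρ (0, 0, y) := by
  have h1 := h.rho.lie (0, 0, y) (0, 0, y')
  rwa [ext_yy, ext_yy, sub_yy] at h1

/-- the first case -/
theorem case1 (h : Sit m r ρ) (hc : V1c ρ) (h0 : SS ρ (1, 0, 0) = 0) :
    (∀ x, ρ x = ρ (0, 0, x.2.2)) ∧
    Rep m (ρ ∘ₗ LinearMap.inr ℝ ℝ (W × V) ∘ₗ LinearMap.inr ℝ W V) ∧
    ∃ y, Cyc (SS (ρ ∘ₗ LinearMap.inr ℝ ℝ (W × V) ∘ₗ LinearMap.inr ℝ W V) y) := by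
  have h1 : ∀ x, ρ x = ρ (0, 0, x.2.2) := by
    intro x
    have e1 : ρ (1, 0, 0) = 0 := by rw [hc.rc, h0, smul_zero]
    have e2 : ρ (0, x.2.1, 0) = 0 := by
      rw [hc.rw, h0]
      exact LinearMap.zero_comp _
    conv_lhs => rw [dec x]
    rw [map_add, map_add, map_smul, e1, e2, smul_zero, zero_add, zero_add]
  refine ⟨h1, ⟨fun y y' => rep_sym h y y', fun y y' => rep_lie h y y'⟩, ?_⟩
  obtain ⟨x, hx⟩ := h.cyc
  refine ⟨x.2.2, ?_⟩
  have h2 : SS (ρ ∘ₗ LinearMap.inr ℝ ℝ (W × V) ∘ₗ LinearMap.inr ℝ W V) x.2.2 = SS ρ x := by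
    show ρ (0, 0, x.2.2) + (ρ (0, 0, x.2.2)).adjoint = ρ x + (ρ x).adjoint
    rw [← h1 x]
  rw [h2]
  exact hx

/-- the orthogonal complement of `u` and the `S_w u` -/
def K2 (ρ : (ℝ × W × V) →ₗ[ℝ] (K →ₗ[ℝ] K)) (u : K) : Submodule ℝ K where
  carrier := {z | (inner ℝ u z : ℝ) = 0 ∧ ∀ w, (inner ℝ (SS ρ (0, w, 0) u) z : ℝ) = 0}
  add_mem' := fun {a b} ha hb => ⟨by rw [inner_add_right, ha.1, hb.1, add_zero], fun w => by
    rw [inner_add_right, ha.2 w, hb.2 w, add_zero]⟩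
  zero_mem' := ⟨inner_zero_right _, fun w => inner_zero_right _⟩
  smul_mem' := fun c a ha => ⟨by rw [inner_smul_right, ha.1, mul_zero], fun w => by
    rw [inner_smul_right, ha.2 w, mul_zero]⟩

/-- the second case -/
theorem case2 [Module.Finite ℝ V] (hC : St_Cyc) (hB : St_V1B) (h2 : St_V2) (h : Sit m r ρ)
    (hc : V1c ρ) (u : K) (hu : (inner ℝ u u : ℝ) = 1) (hPu : SS ρ (1, 0, 0) u = u) :
    ∃ (K2 : Submodule ℝ K) (r2 : V →ₗ[ℝ] (K2 →ₗ[ℝ] K2)), V3c m r ρ u K2 r2 := by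
  have hu0 : u ≠ 0 := by
    rintro rfl
    rw [inner_zero_left] at hu
    exact zero_ne_one hu
  obtain ⟨b1, b2, b3, b4⟩ := hB V W K m r ρ h hc u u hPu hPu
  have hH1 : ∀ z, SS ρ (1, 0, 0) z = z → z = (inner ℝ z u : ℝ) • u := by
    intro z hz
    obtain ⟨t, rfl⟩ := h2 V W K m r ρ h hc u z hPu hz hu0
    rw [inner_smul_left, hu, RCLike.conj_to_real, mul_one]
  have hPP : ∀ z, SS ρ (1, 0, 0) (SS ρ (1, 0, 0) z) = SS ρ (1, 0, 0) z := fun z =>
    LinearMap.congr_fun hc.idem z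
  have hSyu : ∀ y, SS ρ (0, 0, y) u = 0 := by
    intro y
    have e := LinearMap.congr_fun (hc.Sy' y) u
    rw [LinearMap.comp_apply, hPu, LinearMap.zero_apply] at e
    exact e
  have hρu : ∀ y, ρ (0, 0, y) u = 0 := by
    intro y
    have e := LinearMap.congr_fun (hc.ry y) u
    rw [LinearMap.comp_apply, LinearMap.comp_apply, hPu] at e
    have e1 := hH1 _ e.symm
    have e2 : (inner ℝ (ρ (0, 0, y) u) u : ℝ) = 0 := by
      have e3 : (inner ℝ (SS ρ (0, 0, y) u) u : ℝ) = 0 := by rw [hSyu, inner_zero_left]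
      rw [SS_ap, inner_add_left, LinearMap.adjoint_inner_left, real_inner_comm] at e3
      rw [real_inner_comm]
      linarith
    rw [e1, e2, zero_smul]
  have hρtu : ∀ y, (ρ (0, 0, y)).adjoint u = 0 := by
    intro y
    rw [adj_ap ρ (0, 0, y) u, hSyu, hρu, sub_zero]
  have hρb : ∀ y w, ρ (0, 0, y) (SS ρ (0, w, 0) u) = SS ρ (0, r y w, 0) u := by
    intro y w
    rw [b4, hρu, map_zero, add_zero]
  have hsub : ∀ w w', SS ρ (0, w, 0) u - SS ρ (0, w', 0) u = SS ρ (0, w - w', 0) u := by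
    intro w w'
    have e : ((0 : ℝ), w, (0 : V)) = (0, w - w', 0) + (0, w', 0) := by
      refine Prod.ext ?_ (Prod.ext ?_ ?_)
      · exact (add_zero _).symm
      · exact (sub_add_cancel _ _).symm
      · exact (add_zero _).symm
    rw [e, SS_add, LinearMap.add_apply, add_sub_cancel_right]
  have hρtb : ∀ y w, (ρ (0, 0, y)).adjoint (SS ρ (0, w, 0) u) =
      SS ρ (0, (SS r y w - r y w), 0) u := by
    intro y w
    rw [adj_ap ρ (0, 0, y), b3, hρb, hsub]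
  have hub : ∀ w, (inner ℝ u (SS ρ (0, w, 0) u) : ℝ) = 0 := by
    intro w
    calc (inner ℝ u (SS ρ (0, w, 0) u) : ℝ)
        = inner ℝ (SS ρ (1, 0, 0) u) (SS ρ (0, w, 0) u) := by rw [hPu]
      _ = 0 := by rw [SS_symm, b1, inner_zero_right]
  have hbb : ∀ w w', (inner ℝ (SS ρ (0, w, 0) u) (SS ρ (0, w', 0) u) : ℝ) = inner ℝ w w' / 2 := by
    intro w w'
    have e := b2 w w'
    rw [hu, mul_one, real_inner_comm (SS ρ (0, w, 0) u) (SS ρ (0, w', 0) u)] at e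
    linarith
  have hSwb : ∀ w z, SS ρ (1, 0, 0) z = 0 →
      SS ρ (0, w, 0) z = (inner ℝ z (SS ρ (0, w, 0) u) : ℝ) • u := by
    intro w z hz
    have e := LinearMap.congr_fun (hc.Sw w) z
    rw [LinearMap.add_apply, LinearMap.comp_apply, LinearMap.comp_apply, hz, map_zero,
      add_zero] at e
    have e1 := hH1 _ e
    rw [SS_symm] at e1
    exact e1
  -- the space `K2`
  have mem2 : ∀ z, z ∈ K2 ρ u ↔ (inner ℝ u z : ℝ) = 0 ∧
      ∀ w, (inner ℝ (SS ρ (0, w, 0) u) z : ℝ) = 0 := fun z => Iff.rfl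
  have hinv : ∀ y, ∀ z ∈ K2 ρ u, ρ (0, 0, y) z ∈ K2 ρ u := by
    intro y z hz
    rw [mem2] at hz ⊢
    refine ⟨?_, fun w => ?_⟩
    · rw [← LinearMap.adjoint_inner_left, hρtu, inner_zero_left]
    · rw [← LinearMap.adjoint_inner_left, hρtb]
      exact hz.2 _
  have hinv' : ∀ y, ∀ z ∈ K2 ρ u, (ρ (0, 0, y)).adjoint z ∈ K2 ρ u := by
    intro y z hz
    rw [mem2] at hz ⊢
    refine ⟨?_, fun w => ?_⟩
    · rw [LinearMap.adjoint_inner_right, hρu, inner_zero_left]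
    · rw [LinearMap.adjoint_inner_right, hρb]
      exact hz.2 _
  let r2 : V →ₗ[ℝ] (K2 ρ u →ₗ[ℝ] K2 ρ u) :=
    { toFun := fun y => (ρ (0, 0, y)).restrict (hinv y)
      map_add' := fun y y' => by
        ext z
        have e : ((0 : ℝ), (0 : W), y + y') = (0, 0, y) + (0, 0, y') := by
          refine Prod.ext ?_ (Prod.ext ?_ rfl)
          · exact (add_zero _).symm
          · exact (add_zero _).symm
        show ρ (0, 0, y + y') z = ρ (0, 0, y) z + ρ (0, 0, y') z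
        rw [e, map_add]
        rfl
      map_smul' := fun t y => by
        ext z
        have e : ((0 : ℝ), (0 : W), t • y) = t • (0, 0, y) := by
          refine Prod.ext ?_ (Prod.ext ?_ rfl)
          · exact (smul_zero _).symm
          · exact (smul_zero _).symm
        show ρ (0, 0, t • y) z = t • ρ (0, 0, y) z
        rw [e, map_smul]
        rfl }
  have hr2 : ∀ y (z : K2 ρ u), ((r2 y z : K2 ρ u) : K) = ρ (0, 0, y) z := fun y z => rfl
  have hr2t : ∀ y (z : K2 ρ u), (((r2 y).adjoint z : K2 ρ u) : K) = (ρ (0, 0, y)).adjoint z := by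
    intro y z
    have e : (ρ (0, 0, y)).adjoint.restrict (hinv' y) = (r2 y).adjoint := by
      rw [LinearMap.eq_adjoint_iff]
      intro x z'
      show (inner ℝ ((ρ (0, 0, y)).adjoint x) (z' : K) : ℝ) = inner ℝ (x : K) (ρ (0, 0, y) z')
      rw [LinearMap.adjoint_inner_left]
    rw [← e]
    rfl
  have hSS2 : ∀ y (z : K2 ρ u), ((SS r2 y z : K2 ρ u) : K) = SS ρ (0, 0, y) z := by
    intro y z
    rw [SS_ap, Submodule.coe_add, hr2, hr2t]
    rfl
  have hPz : ∀ z : K2 ρ u, SS ρ (1, 0, 0) (z : K) = 0 := by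
    intro z
    rw [hH1 _ (hPP z), SS_symm, hPu, real_inner_comm, ((mem2 z).1 z.2).1, zero_smul]
  have hSwz : ∀ w (z : K2 ρ u), SS ρ (0, w, 0) (z : K) = 0 := by
    intro w z
    rw [hSwb w z (hPz z), real_inner_comm, ((mem2 z).1 z.2).2 w, zero_smul]
  have hs2 : ∀ γ w y (z : K2 ρ u), SS ρ (γ, w, y) z = SS r2 y z := by
    intro γ w y z
    rw [SS_dec, hPz, hSwz, smul_zero, add_zero, zero_add, hSS2]
  refine ⟨K2 ρ u, r2, ⟨hu, hub, hbb, mem2, ?_, ?_, hs2, ⟨?_, ?_⟩, ?_⟩⟩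
  · intro γ w y
    rw [SS_dec, hPu, hSyu, add_zero]
  · intro γ w y w'
    rw [SS_dec, b1, smul_zero, zero_add, b3, hSwb w _ (b1 w'), hbb, real_inner_comm w w']
  · intro y y'
    ext z
    have e := LinearMap.congr_fun (rep_sym h y y') (z : K)
    rw [LinearMap.add_apply, LinearMap.comp_apply, LinearMap.comp_apply] at e
    rw [hSS2, LinearMap.add_apply, LinearMap.comp_apply, LinearMap.comp_apply,
      Submodule.coe_add, hr2, hSS2, hSS2, hr2t]
    exact e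
  · intro y y'
    ext z
    have e := LinearMap.congr_fun (rep_lie h y y') (z : K)
    rw [LinearMap.sub_apply, LinearMap.comp_apply, LinearMap.comp_apply] at e
    rw [hr2, LinearMap.sub_apply, LinearMap.comp_apply, LinearMap.comp_apply,
      Submodule.coe_sub, hr2, hr2, hr2, hr2]
    exact e
  · obtain ⟨⟨γ, w, y⟩, hx⟩ := h.cyc
    refine ⟨y, ?_⟩
    refine (hC K (SS ρ (γ, w, y))).2.2.2 hx (K2 ρ u) (SS r2 y)
      ((K2 ρ u).orthogonalProjectionOnto : K →ₗ[ℝ] K2 ρ u) ?_ ?_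
    · intro z
      exact ⟨z, Submodule.orthogonalProjectionOnto_mem_subspace_eq_self z⟩
    · ext v
      congr 1
      refine ext_inner_right ℝ fun z => ?_
      show (inner ℝ ((K2 ρ u).orthogonalProjectionOnto (SS ρ (γ, w, y) v)) z : ℝ) =
        inner ℝ (SS r2 y ((K2 ρ u).orthogonalProjectionOnto v)) z
      rw [Submodule.inner_orthogonalProjectionOnto_eq_of_mem_right, SS_symm, hs2, SS_symm,
        Submodule.inner_orthogonalProjectionOnto_eq_of_mem_right]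

end sit

end V3x

open V3x

theorem thm_V3 (hC : St_Cyc) (hB : St_V1B) (h2 : St_V2) : St_V3 := by
  intro V _ _ _ W _ _ _ K _ _ _ m r ρ h hc
  by_cases h0 : SS ρ (1, 0, 0) = 0
  · exact Or.inl (case1 h hc h0)
  · right
    have h1 : ∃ z, SS ρ (1, 0, 0) z ≠ 0 := by
      by_contra hn
      push Not at hn
      exact h0 (LinearMap.ext hn)
    obtain ⟨z, hz⟩ := h1
    have hn : ‖SS ρ (1, 0, 0) z‖ ≠ 0 := norm_ne_zero_iff.2 hz
    obtain ⟨K2, r2, h3⟩ := case2 hC hB h2 h hc ((‖SS ρ (1, 0, 0) z‖)⁻¹ • SS ρ (1, 0, 0) z) (by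
      rw [real_inner_self_eq_norm_sq, norm_smul, norm_inv, norm_norm, inv_mul_cancel₀ hn, one_pow])
      (by
        rw [map_smul]
        congr 1
        exact LinearMap.congr_fun hc.idem z)
    exact ⟨_, K2, r2, h3⟩

end Pool.Agent.RRC
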