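import Pool.Agent.RRC.St2

/-!
# RRC, module V4: (7.5), the matrix form of the second case (helper50)
-/

set_option autoImplicit false

noncomputable section

open Matrix

namespace Pool.Agent.RRC

namespace V4x

variable {V : Type} [AddCommGroup V] [Module ℝ V] {W : Type}
  [NormedAddCommGroup W] [InnerProductSpace ℝ W] [FiniteDimensional ℝ W] {K : Type}
  [NormedAddCommGroup K] [InnerProductSpace ℝ K] [FiniteDimensional ℝ K]

/-- the map `w ↦ S_w u` -/
def bw (ρ : (ℝ × W × V) →ₗ[ℝ] (K →ₗ[ℝ] K)) (u : K) : W →ₗ[ℝ] K where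
  toFun w := SS ρ (0, w, 0) u
  map_add' w w' := by
    have h : ((0, w + w', 0) : ℝ × W × V) = (0, w, 0) + (0, w', 0) := by
      refine Prod.ext ?_ (Prod.ext ?_ ?_)
      · exact (add_zero _).symm
      · rfl
      · exact (add_zero _).symm
    rw [h, SS_add, LinearMap.add_apply]
  map_smul' t w := by
    have h : ((0, t • w, 0) : ℝ × W × V) = t • (0, w, 0) := by
      refine Prod.ext ?_ (Prod.ext ?_ ?_)
      · exact (smul_zero t).symm
      · rfl
      · exact (smul_zero t).symm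
    rw [h, SS_smul, LinearMap.smul_apply]
    rfl

/-- the family `u`, `√2 S_(b_i) u`, `b2_j` -/
def fam (ρ : (ℝ × W × V) →ₗ[ℝ] (K →ₗ[ℝ] K)) (u : K) (K2 : Submodule ℝ K) {ι κ : Type}
    (b : ι → W) (b2 : κ → K2) : (Unit ⊕ ι) ⊕ κ → K :=
  Sum.elim (Sum.elim (fun _ => u) fun i => √2 • bw ρ u (b i)) fun j => (b2 j : K)

theorem s22 : (√2 : ℝ) * √2 = 2 := Real.mul_self_sqrt (by norm_num)

theorem s2d (a : ℝ) : √2 * (a / 2) = a / √2 := by
  have h : (√2 : ℝ) ≠ 0 := by positivity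
  rw [eq_div_iff h]
  linear_combination (a / 2) * s22

end V4x

open V4x in
/-- The matrix form of the second case. -/
theorem thm_V4 : St_V4 := by
  classical
  intro V _ _ _ W _ _ _ K _ _ _ m r ρ u K2 r2 h ι κ _ _ b b2
  have hu : ∀ w, (inner ℝ u (bw ρ u w) : ℝ) = 0 := h.ub
  have hu' : ∀ w, (inner ℝ (bw ρ u w) u : ℝ) = 0 := fun w => by
    rw [real_inner_comm]
    exact hu w
  have hbb : ∀ w w', (inner ℝ (bw ρ u w) (bw ρ u w') : ℝ) = inner ℝ w w' / 2 := h.bb
  have h2u : ∀ z : K2, (inner ℝ u (z : K) : ℝ) = 0 := fun z => ((h.mem2 z).1 z.2).1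
  have h2w : ∀ (z : K2) w, (inner ℝ (bw ρ u w) (z : K) : ℝ) = 0 := fun z w =>
    ((h.mem2 z).1 z.2).2 w
  have h2u' : ∀ z : K2, (inner ℝ (z : K) u : ℝ) = 0 := fun z => by
    rw [real_inner_comm]
    exact h2u z
  have h2w' : ∀ (z : K2) w, (inner ℝ (z : K) (bw ρ u w) : ℝ) = 0 := fun z w => by
    rw [real_inner_comm]
    exact h2w z w
  have hon : Orthonormal ℝ (fam ρ u K2 b b2) := by
    rw [orthonormal_iff_ite]
    rintro ((⟨⟩ | i) | i) ((⟨⟩ | j) | j)
    · exact h.norm.trans (if_pos rfl).symm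
    · change inner ℝ u (√2 • bw ρ u (b j)) = (_ : ℝ)
      rw [real_inner_smul_right, hu, mul_zero, if_neg (by simp)]
    · change inner ℝ u (b2 j : K) = (_ : ℝ)
      rw [h2u, if_neg (by simp)]
    · change inner ℝ (√2 • bw ρ u (b i)) u = (_ : ℝ)
      rw [real_inner_smul_left, hu', mul_zero, if_neg (by simp)]
    · change inner ℝ (√2 • bw ρ u (b i)) (√2 • bw ρ u (b j)) = (_ : ℝ)
      rw [real_inner_smul_left, real_inner_smul_right, hbb, ← mul_assoc, s22,
        orthonormal_iff_ite.1 b.orthonormal i j]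
      by_cases hij : i = j
      · rw [if_pos hij, if_pos (by rw [hij])]
        norm_num
      · rw [if_neg hij, if_neg (by simpa using hij)]
        norm_num
    · change inner ℝ (√2 • bw ρ u (b i)) (b2 j : K) = (_ : ℝ)
      rw [real_inner_smul_left, h2w, mul_zero, if_neg (by simp)]
    · change inner ℝ (b2 i : K) u = (_ : ℝ)
      rw [h2u', if_neg (by simp)]
    · change inner ℝ (b2 i : K) (√2 • bw ρ u (b j)) = (_ : ℝ)
      rw [real_inner_smul_right, h2w', mul_zero, if_neg (by simp)]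
    · change inner ℝ (b2 i : K) (b2 j : K) = (_ : ℝ)
      rw [← Submodule.coe_inner, orthonormal_iff_ite.1 b2.orthonormal i j]
      by_cases hij : i = j
      · rw [if_pos hij, if_pos (by rw [hij])]
      · rw [if_neg hij, if_neg (by simpa using hij)]
  have hsp : (Submodule.span ℝ (Set.range (fam ρ u K2 b b2)))ᗮ = ⊥ := by
    rw [Submodule.eq_bot_iff]
    intro z hz
    rw [Submodule.mem_orthogonal] at hz
    have hz' : ∀ x, (inner ℝ (fam ρ u K2 b b2 x) z : ℝ) = 0 := fun x =>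
      hz _ (Submodule.subset_span ⟨x, rfl⟩)
    have h1 : (inner ℝ u z : ℝ) = 0 := hz' (Sum.inl (Sum.inl ()))
    have h2 : ∀ i, (inner ℝ (bw ρ u (b i)) z : ℝ) = 0 := by
      intro i
      have h3 : (inner ℝ (√2 • bw ρ u (b i)) z : ℝ) = 0 := hz' (Sum.inl (Sum.inr i))
      rw [real_inner_smul_left] at h3
      rcases mul_eq_zero.1 h3 with h4 | h4
      · exact absurd h4 (by positivity)
      · exact h4
    have h3 : ∀ w, (inner ℝ (bw ρ u w) z : ℝ) = 0 := by
      intro w
      rw [← b.sum_repr' w, map_sum, sum_inner]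
      refine Finset.sum_eq_zero fun i _ => ?_
      rw [map_smul, real_inner_smul_left, h2, mul_zero]
    have hm : z ∈ K2 := (h.mem2 z).2 ⟨h1, h3⟩
    have h4 : (⟨z, hm⟩ : K2) = 0 := by
      rw [← b2.sum_repr' ⟨z, hm⟩]
      refine Finset.sum_eq_zero fun j _ => ?_
      have h5 : (inner ℝ (b2 j) (⟨z, hm⟩ : K2) : ℝ) = 0 := hz' (Sum.inr j)
      rw [h5, zero_smul]
    exact congrArg Subtype.val h4
  refine ⟨OrthonormalBasis.mkOfOrthogonalEqBot hon hsp, fun γ w y => ?_⟩
  have hsu : SS ρ (γ, w, y) u = γ • u + bw ρ u w := h.su γ w y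
  have hsb : ∀ w', SS ρ (γ, w, y) (bw ρ u w') =
      (inner ℝ w w' / 2 : ℝ) • u + bw ρ u (SS r y w') := h.sb γ w y
  have hs2 : ∀ z : K2, SS ρ (γ, w, y) z = SS r2 y z := h.s2 γ w y
  unfold omat
  rw [OrthonormalBasis.coe_of_orthogonal_eq_bot_mk]
  ext ((⟨⟩ | i) | i) ((⟨⟩ | j) | j)
  · change inner ℝ u (SS ρ (γ, w, y) u) = γ
    rw [hsu, inner_add_right, real_inner_smul_right, h.norm, hu]
    ring
  · change inner ℝ u (SS ρ (γ, w, y) (√2 • bw ρ u (b j))) = b.repr w j / √2
    rw [map_smul, hsb, real_inner_smul_right, inner_add_right, real_inner_smul_right, h.norm, hu,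
      mul_one, add_zero, s2d, b.repr_apply_apply, real_inner_comm]
  · change inner ℝ u (SS ρ (γ, w, y) (b2 j : K)) = 0
    rw [hs2, h2u]
  · change inner ℝ (√2 • bw ρ u (b i)) (SS ρ (γ, w, y) u) = b.repr w i / √2
    rw [hsu, real_inner_smul_left, inner_add_right, real_inner_smul_right, hu', hbb, mul_zero,
      zero_add, s2d, b.repr_apply_apply]
  · change inner ℝ (√2 • bw ρ u (b i)) (SS ρ (γ, w, y) (√2 • bw ρ u (b j))) =
      inner ℝ (b i) (SS r y (b j))
    rw [map_smul, hsb, real_inner_smul_left, real_inner_smul_right, inner_add_right,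
      real_inner_smul_right, hu', hbb, mul_zero, zero_add, ← mul_assoc, s22]
    ring
  · change inner ℝ (√2 • bw ρ u (b i)) (SS ρ (γ, w, y) (b2 j : K)) = 0
    rw [hs2, real_inner_smul_left, h2w, mul_zero]
  · change inner ℝ (b2 i : K) (SS ρ (γ, w, y) u) = 0
    rw [hsu, inner_add_right, real_inner_smul_right, h2u', h2w']
    ring
  · change inner ℝ (b2 i : K) (SS ρ (γ, w, y) (√2 • bw ρ u (b j))) = 0
    rw [map_smul, hsb, real_inner_smul_right, inner_add_right, real_inner_smul_right, h2u', h2w']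
    ring
  · change inner ℝ (b2 i : K) (SS ρ (γ, w, y) (b2 j : K)) = inner ℝ (b2 i) (SS r2 y (b2 j))
    rw [hs2, ← Submodule.coe_inner]

end Pool.Agent.RRC
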