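import Pool.Agent.RRC.Simple
import Pool.Agent.RRC.Tra
import Pool.Agent.RRC.Cyc
import Pool.Agent.RRC.CycLine
import Pool.Agent.RRC.Ext1
import Pool.Agent.RRC.Ext2
import Pool.Agent.RRC.ExG
import Pool.Agent.RRC.DecND
import Pool.Agent.RRC.Gam
import Pool.Agent.RRC.ExtND
import Pool.Agent.RRC.Dec
import Pool.Agent.RRC.V1
import Pool.Agent.RRC.V1B
import Pool.Agent.RRC.V2
import Pool.Agent.RRC.V3
import Pool.Agent.RRC.V4
import Pool.Agent.RRC.Ent
import Pool.Agent.RRC.Co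
import Pool.Agent.RRC.QA
import Pool.Agent.RRC.QB
import Pool.Agent.RRC.QC
import Pool.Agent.RRC.CB
import Pool.Agent.RRC.Add
import Pool.Agent.RRC.Step
import Pool.Agent.RRC.IndA
import Pool.Agent.RRC.MR
import Pool.Agent.RRC.MX
import Pool.Agent.RRC.ExK
import Pool.Agent.RRC.Conv
import Pool.Agent.RRC.U1
import Pool.Agent.RRC.Str
import Pool.Agent.RRC.U2
import Pool.Agent.RRC.U3A
import Pool.Agent.RRC.U3B
import Pool.Agent.RRC.U3
import Pool.Agent.RRC.Ev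
import Pool.Agent.RRC.Rel
import Pool.Agent.RRC.Main1
import Pool.Agent.RRC.Main2

/-!
# RRC: assembly of part 2
-/

namespace Pool.Agent.RRC

/-- The classification and its uniqueness, from the results of part 1. -/
theorem all2 (hK : St_K1) (hd : St_dpw) (hP3 : St_P3) (hN : St_Norm) (hL : St_Lf)
    (b1 : St_B1b) (b2 : St_B2) (b3 : St_B3) : St_Main1 ∧ St_Main2 := by
  have hSi := thm_Simple hP3
  have hG := thm_ExG thm_Ext1 hK
  have hDN := thm_DecND thm_Ext1 thm_Ext2 hG hSi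
  have hEN := thm_ExtND thm_Ext2 hG thm_Gam
  have hV1 := thm_V1 thm_Cyc
  have hV2 := thm_V2 thm_Cyc thm_CycLine thm_V1B
  have hV3 := thm_V3 thm_Cyc thm_V1B hV2
  have hQA := thm_QA thm_Ent
  have hQB := thm_QB thm_Ent
  have hCB := thm_CB thm_Cyc hQA hQB thm_QC
  have hSt := thm_Step thm_Ext2 hV1 hV3 thm_V4 thm_Co hQA hQB hCB
  have hI := thm_IndA hN hL thm_Dec hDN thm_Tra thm_Add hSt
  have hX := thm_ExK thm_Ext1 thm_Ext2 hEN hSi thm_Tra thm_Co thm_QC hCB thm_MR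
  have hC := thm_Conv hX thm_MX thm_Add thm_Co hQA hQB
  have hU1 := thm_U1 hK hd
  have hStr := thm_Str hC hX hU1 thm_Tra
  have hU2 := thm_U2 hStr thm_Add thm_Ext2 thm_Tra thm_MR thm_Co
  have hU3A := thm_U3A thm_QC
  have hU3 := thm_U3 hStr hU2 hU3A thm_U3B thm_Ext2 thm_Tra thm_MR thm_QC hCB thm_Add thm_Co hSi
  exact ⟨thm_Main1 b1 b2 b3 hI hC thm_Ev thm_Tra thm_QC, thm_Main2 hC hU3 thm_Ev thm_Rel⟩

end Pool.Agent.RRC
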