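import Pool.Agent.RRC.St3

/-!
# RRC, module Alm: simultaneous recurrence (MP_835236_al)
-/

set_option autoImplicit false

noncomputable section

namespace Pool.Agent.RRC

open scoped Polynomial
open Polynomial Filter Topology

namespace Almx

/-- `T_(4L)(sin θ) = cos (4 L θ)`. -/
theorem eval_gC (K : ℝ) (L : ℕ) (l θ : ℂ) (hθ : Complex.sin θ = l / K) :
    aeval l (gC K L) = Complex.cos (4 * L * θ) := by
  unfold gC
  rw [aeval_comp, map_mul, aeval_C, aeval_X, Chebyshev.aeval_T]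
  have h1 : (algebraMap ℝ ℂ) (1 / K) * l = Complex.cos (Real.pi / 2 - θ) := by
    rw [Complex.cos_pi_div_two_sub, hθ]
    simp only [one_div, Complex.coe_algebraMap, Complex.ofReal_inv]
    rw [div_eq_mul_inv, mul_comm]
  rw [h1, Chebyshev.T_complex_cos]
  have h2 : ((4 * (L : ℤ) : ℤ) : ℂ) * (Real.pi / 2 - θ) = (L : ℕ) * (2 * Real.pi) - 4 * L * θ := by
    push_cast
    ring
  rw [h2, Complex.cos_nat_mul_two_pi_sub]

theorem re_cos (z : ℂ) : (Complex.cos z).re = Real.cos z.re * Real.cosh z.im := by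
  rw [Complex.cos_eq z]
  simp [Complex.cos_ofReal_re, Complex.sin_ofReal_re, Complex.cosh_ofReal_re,
    Complex.sinh_ofReal_re]

theorem re_gC (K : ℝ) (L : ℕ) (l θ : ℂ) (hθ : Complex.sin θ = l / K) :
    (aeval l (gC K L)).re = Real.cos (4 * L * θ.re) * Real.cosh (4 * L * θ.im) := by
  rw [eval_gC K L l θ hθ, re_cos]
  have h1 : ((4 * L * θ : ℂ)).re = 4 * L * θ.re := by
    simp
  have h2 : ((4 * L * θ : ℂ)).im = 4 * L * θ.im := by
    simp
  rw [h1, h2]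

/-- Simultaneous recurrence. -/
theorem recur (S : Finset ℂ) (a : ℂ → ℝ) (N : ℕ) :
    ∃ L : ℕ, N ≤ L ∧ ∀ l ∈ S, 1 / 2 ≤ Real.cos (4 * L * a l) := by
  set z : ℕ → (S → ℂ) := fun L l => Complex.exp (((4 * L * a l.1 : ℝ) : ℂ) * Complex.I) with hz
  have hb : ∀ L, z L ∈ Metric.closedBall (0 : S → ℂ) 1 := by
    intro L
    rw [mem_closedBall_zero_iff, pi_norm_le_iff_of_nonneg zero_le_one]
    intro l
    simp only [hz]
    rw [Complex.norm_exp_ofReal_mul_I]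
  obtain ⟨w, -, φ, hφ, hlim⟩ :=
    (isCompact_closedBall (0 : S → ℂ) 1).tendsto_subseq hb
  have hc : CauchySeq (z ∘ φ) := hlim.cauchySeq
  obtain ⟨N₀, hN₀⟩ := Metric.cauchySeq_iff.1 hc (1 / 2) (by norm_num)
  have h1 : φ N₀ + N ≤ φ (N₀ + (φ N₀ + N)) := by
    have := hφ.id_le (N₀ + (φ N₀ + N))
    simp only [id_eq] at this
    omega
  refine ⟨φ (N₀ + (φ N₀ + N)) - φ N₀, by omega, ?_⟩
  intro l hl
  have h2 := hN₀ (N₀ + (φ N₀ + N)) (by omega) N₀ le_rfl
  have h3 : dist ((z ∘ φ) (N₀ + (φ N₀ + N)) ⟨l, hl⟩) ((z ∘ φ) N₀ ⟨l, hl⟩) < 1 / 2 :=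
    lt_of_le_of_lt (dist_le_pi_dist _ _ _) h2
  set p := φ (N₀ + (φ N₀ + N)) with hp
  set q := φ N₀ with hq
  have h4 : ((z ∘ φ) (N₀ + (φ N₀ + N)) ⟨l, hl⟩) =
      Complex.exp (((4 * ((p - q : ℕ) : ℝ) * a l : ℝ) : ℂ) * Complex.I) *
        ((z ∘ φ) N₀ ⟨l, hl⟩) := by
    simp only [hz, Function.comp]
    rw [← Complex.exp_add]
    congr 1
    rw [← hp, ← hq]
    have : ((p - q : ℕ) : ℂ) = (p : ℂ) - q := by
      rw [Nat.cast_sub (by omega)]
    push_cast
    rw [this]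
    ring
  have h5 : ‖((z ∘ φ) N₀ ⟨l, hl⟩)‖ = 1 := by
    simp only [hz, Function.comp]
    rw [Complex.norm_exp_ofReal_mul_I]
  rw [dist_eq_norm, h4] at h3
  have h6 : Complex.exp (((4 * ((p - q : ℕ) : ℝ) * a l : ℝ) : ℂ) * Complex.I) *
        ((z ∘ φ) N₀ ⟨l, hl⟩) - ((z ∘ φ) N₀ ⟨l, hl⟩) =
      (Complex.exp (((4 * ((p - q : ℕ) : ℝ) * a l : ℝ) : ℂ) * Complex.I) - 1) *
        ((z ∘ φ) N₀ ⟨l, hl⟩) := by ring
  rw [h6, norm_mul, h5, mul_one] at h3
  have h7 := (Complex.abs_re_le_norm _).trans h3.le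
  rw [Complex.sub_re, Complex.exp_ofReal_mul_I_re, Complex.one_re, abs_le] at h7
  linarith [h7.1]

theorem cosh_ge (t : ℝ) : |t| + 1 ≤ 2 * Real.cosh t := by
  rw [← Real.cosh_abs, Real.cosh_eq]
  have h1 := Real.add_one_le_exp |t|
  have h2 := Real.exp_pos (-|t|)
  linarith

end Almx

open Almx in
theorem thm_Alm : St_Alm := by
  intro K s hK _ hsum l₀ hl₀
  choose th hth using fun l : ℂ => Complex.sin_surjective (l / K)
  have hcosh : ∀ N : ℕ, ∃ L : ℕ, N ≤ L ∧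
      Real.cosh (4 * L * (th l₀).im) ≤ 2 * Multiset.card s := by
    intro N
    obtain ⟨L, hL, hc⟩ := recur s.toFinset (fun l => (th l).re) N
    refine ⟨L, hL, ?_⟩
    have h1 := hsum L
    have h2 : ∀ l ∈ s, (1 / 2 : ℝ) * Real.cosh (4 * L * (th l).im) ≤ (aeval l (gC K L)).re := by
      intro l hl
      rw [re_gC K L l (th l) (hth l)]
      exact mul_le_mul_of_nonneg_right (hc l (Multiset.mem_toFinset.2 hl))
        (Real.cosh_pos _).le
    have h3 : (aeval l₀ (gC K L)).re ≤ (s.map fun l => (aeval l (gC K L)).re).sum := by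
      apply Multiset.single_le_sum
      · intro x hx
        obtain ⟨l, hl, rfl⟩ := Multiset.mem_map.1 hx
        exact le_trans (mul_nonneg (by norm_num) (Real.cosh_pos _).le) (h2 l hl)
      · exact Multiset.mem_map_of_mem _ hl₀
    have h4 := h2 l₀ hl₀
    linarith
  have him : (th l₀).im = 0 := by
    by_contra hne
    have hpos : 0 < |(th l₀).im| := abs_pos.2 hne
    obtain ⟨N, hN⟩ := exists_nat_gt ((4 * Multiset.card s : ℝ) / |(th l₀).im|)
    obtain ⟨L, hL, hc⟩ := hcosh N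
    have h1 := cosh_ge (4 * L * (th l₀).im)
    rw [abs_mul] at h1
    have h2 : |(4 * L : ℝ)| = 4 * L := abs_of_nonneg (by positivity)
    rw [h2] at h1
    rw [div_lt_iff₀ hpos] at hN
    have h3 : (N : ℝ) ≤ L := by exact_mod_cast hL
    have h4 : (N : ℝ) * |(th l₀).im| ≤ L * |(th l₀).im| := mul_le_mul_of_nonneg_right h3 hpos.le
    nlinarith [mul_nonneg (Nat.cast_nonneg (α := ℝ) L) hpos.le]
  have h1 : l₀ = K * Complex.sin (((th l₀).re : ℝ) : ℂ) := by
    have h2 : (((th l₀).re : ℝ) : ℂ) = th l₀ := by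
      apply Complex.ext
      · simp
      · simp [him]
    rw [h2, hth l₀]
    have hK' : (K : ℂ) ≠ 0 := by exact_mod_cast hK.ne'
    field_simp
  rw [h1, ← Complex.ofReal_sin, ← Complex.ofReal_mul, Complex.ofReal_im]

end Pool.Agent.RRC
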