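import Pool.Agent.RRC.St3

/-!
# RRC Bd: bound for the complex eigenvalues of `R_y` on the unit ball
-/

set_option autoImplicit false

noncomputable section

namespace Pool.Agent.RRC

open scoped Polynomial
open Polynomial

namespace Bdx

open scoped Matrix

/-- eigenvalues of a matrix with entries bounded by `C` -/
theorem bound {n : ℕ} (A : Matrix (Fin n) (Fin n) ℂ) (C : ℝ) (hA : ∀ i j, ‖A i j‖ ≤ C)
    (l : ℂ) (hl : A.charpoly.IsRoot l) : ‖l‖ ≤ n * C := by
  have h1 : (Matrix.scalar (Fin n) l - A).det = 0 := by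
    rw [← Matrix.eval_charpoly]
    exact hl
  obtain ⟨v, hv, hv'⟩ := Matrix.exists_mulVec_eq_zero_iff.2 h1
  have h2 : ∀ i, l * v i = ∑ j, A i j * v j := by
    intro i
    have h3 := congrFun hv' i
    rw [Matrix.sub_mulVec, Pi.sub_apply, Pi.zero_apply, sub_eq_zero, Matrix.scalar_apply,
      Matrix.mulVec_diagonal] at h3
    rw [h3]
    rfl
  obtain ⟨k, hk⟩ := Function.ne_iff.1 hv
  obtain ⟨i, -, hi⟩ := Finset.exists_max_image Finset.univ (fun i => ‖v i‖) ⟨k, Finset.mem_univ k⟩
  have hpos : 0 < ‖v i‖ := lt_of_lt_of_le (norm_pos_iff.2 hk) (hi k (Finset.mem_univ k))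
  have h4 : ‖l‖ * ‖v i‖ ≤ n * C * ‖v i‖ := by
    rw [← norm_mul, h2]
    refine (norm_sum_le _ _).trans ?_
    have h5 : ∀ j ∈ (Finset.univ : Finset (Fin n)), ‖A i j * v j‖ ≤ C * ‖v i‖ := by
      intro j _
      rw [norm_mul]
      exact mul_le_mul (hA i j) (hi j (Finset.mem_univ j)) (norm_nonneg _)
        ((norm_nonneg _).trans (hA i j))
    refine (Finset.sum_le_sum h5).trans ?_
    rw [Finset.sum_const, Finset.card_univ, Fintype.card_fin, nsmul_eq_mul, mul_assoc]
  exact le_of_mul_le_mul_right h4 hpos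

end Bdx

/-- **Bd.** The eigenvalues of `R_y`, `‖y‖ ≤ 1`, are bounded. -/
theorem thm_Bd : St_Bd := by
  intro V _ _ _ m
  let b := Module.finBasis ℝ V
  let n := Module.finrank ℝ V
  let E : Fin n → Fin n → (V →ₗ[ℝ] ℝ) := fun i j =>
    (b.coord i).comp (m (b j))
  have hE : ∀ i j y, E i j y = LinearMap.toMatrix b b (m.flip y) i j := by
    intro i j y
    rw [LinearMap.toMatrix_apply]
    rfl
  let C : ℝ := ∑ i, ∑ j, ‖LinearMap.toContinuousLinearMap (E i j)‖
  have hC : ∀ i j y, ‖y‖ ≤ 1 → ‖E i j y‖ ≤ C := by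
    intro i j y hy
    have h1 : ‖E i j y‖ ≤ ‖LinearMap.toContinuousLinearMap (E i j)‖ := by
      have h2 := (LinearMap.toContinuousLinearMap (E i j)).le_opNorm y
      have h3 : (LinearMap.toContinuousLinearMap (E i j)) y = E i j y := rfl
      rw [h3] at h2
      refine h2.trans ?_
      exact mul_le_of_le_one_right (norm_nonneg _) hy
    refine h1.trans ?_
    have h4 : ‖LinearMap.toContinuousLinearMap (E i j)‖ ≤
        ∑ j, ‖LinearMap.toContinuousLinearMap (E i j)‖ :=
      Finset.single_le_sum (f := fun j => ‖LinearMap.toContinuousLinearMap (E i j)‖)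
        (fun _ _ => norm_nonneg _) (Finset.mem_univ j)
    refine h4.trans ?_
    exact Finset.single_le_sum
      (f := fun i => ∑ j, ‖LinearMap.toContinuousLinearMap (E i j)‖)
      (fun _ _ => Finset.sum_nonneg fun _ _ => norm_nonneg _) (Finset.mem_univ i)
  refine ⟨n * C, fun y hy l hl => ?_⟩
  have h5 := Polynomial.isRoot_of_mem_roots hl
  rw [← LinearMap.charpoly_toMatrix (m.flip y) b, ← Matrix.charpoly_map] at h5
  refine Bdx.bound _ C (fun i j => ?_) l h5
  rw [Matrix.map_apply, ← hE]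
  have h6 : ‖(algebraMap ℝ ℂ) (E i j y)‖ = ‖E i j y‖ := by
    rw [Complex.coe_algebraMap, Complex.norm_real]
  rw [h6]
  exact hC i j y hy

end Pool.Agent.RRC
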