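import Pool.Agent.RRC.St3

/-!
# RRC, part 3: critical points of `y ↦ tr g(R_y)` on the unit ball (helper98)

Module `Crit`: `thm_Crit : St_DT → St_K1 → St_Cr → St_Crit`.
-/

set_option autoImplicit false

noncomputable section

namespace Pool.Agent.RRC

open scoped Polynomial
open Polynomial

namespace Critx

open Filter Topology

/-- A one-sided maximum: the right derivative is at most `0`. -/
theorem deriv_nonpos {f : ℝ → ℝ} {f' : ℝ} (hf : HasDerivAt f f' 0)
    (hm : ∀ᶠ e in 𝓝[>] (0 : ℝ), f e ≤ f 0) : f' ≤ 0 := by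
  have h1 := hf.tendsto_slope_zero_right
  refine le_of_tendsto h1 ?_
  filter_upwards [hm, self_mem_nhdsWithin] with e he hpos
  have hpos' : 0 < e := hpos
  rw [zero_add, smul_eq_mul]
  exact mul_nonpos_of_nonneg_of_nonpos (inv_nonneg.2 hpos'.le) (by linarith)

section Ball

variable {V : Type} [NormedAddCommGroup V] [InnerProductSpace ℝ V]

/-- Directions pointing into the unit ball. -/
theorem eventually_ball {x v : V} (hx : ‖x‖ ≤ 1) (h : ‖x‖ < 1 ∨ inner ℝ x v < 0) :
    ∀ᶠ e in 𝓝[>] (0 : ℝ), ‖x + e • v‖ ≤ 1 := by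
  rcases h with h | h
  · have hc : Continuous fun e : ℝ => ‖x + e • v‖ := by fun_prop
    have h0 : ‖x + (0 : ℝ) • v‖ < 1 := by simpa using h
    have h1 : ∀ᶠ e in 𝓝 (0 : ℝ), ‖x + e • v‖ < 1 := hc.continuousAt.eventually (gt_mem_nhds h0)
    exact (h1.filter_mono nhdsWithin_le_nhds).mono fun e he => he.le
  · have hc : Continuous fun e : ℝ => 2 * inner ℝ x v + e * ‖v‖ ^ 2 := by fun_prop
    have h0 : 2 * inner ℝ x v + (0 : ℝ) * ‖v‖ ^ 2 < 0 := by linarith
    have h1 : ∀ᶠ e in 𝓝 (0 : ℝ), 2 * inner ℝ x v + e * ‖v‖ ^ 2 < 0 :=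
      hc.continuousAt.eventually (gt_mem_nhds h0)
    filter_upwards [h1.filter_mono nhdsWithin_le_nhds, self_mem_nhdsWithin] with e he hpos
    have hpos' : 0 < e := hpos
    have h2 : ‖x + e • v‖ ^ 2 = ‖x‖ ^ 2 + e * (2 * inner ℝ x v + e * ‖v‖ ^ 2) := by
      rw [norm_add_sq_real, real_inner_smul_right, norm_smul, mul_pow, Real.norm_eq_abs, sq_abs]
      ring
    have h3 : ‖x + e • v‖ ^ 2 ≤ 1 := by
      have h4 : ‖x‖ ^ 2 ≤ 1 := pow_le_one₀ (norm_nonneg _) hx
      have h5 : e * (2 * inner ℝ x v + e * ‖v‖ ^ 2) ≤ 0 :=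
        mul_nonpos_of_nonneg_of_nonpos hpos'.le he.le
      rw [h2]
      linarith
    exact (sq_le_one_iff₀ (norm_nonneg _)).1 h3

/-- The Lagrange condition on the unit ball. -/
theorem lagrange {x : V} (hx : ‖x‖ ≤ 1) (ℓ : V →ₗ[ℝ] ℝ)
    (h : ∀ v : V, (‖x‖ < 1 ∨ inner ℝ x v < 0) → ℓ v ≤ 0) :
    ∃ ν : ℝ, 0 ≤ ν ∧ ∀ v, ℓ v = ν * inner ℝ x v := by
  rcases hx.lt_or_eq with h1 | h1
  · refine ⟨0, le_rfl, fun v => ?_⟩
    have h2 := h v (Or.inl h1)
    have h3 := h (-v) (Or.inl h1)
    rw [map_neg] at h3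
    linarith
  · have hxx : inner ℝ x x = (1 : ℝ) := by rw [real_inner_self_eq_norm_sq, h1, one_pow]
    have hν : 0 ≤ ℓ x := by
      have h3 := h (-x) (Or.inr (by rw [inner_neg_right, hxx]; norm_num))
      rw [map_neg] at h3
      linarith
    have hperp : ∀ v : V, inner ℝ x v = (0 : ℝ) → ℓ v ≤ 0 := by
      intro v hv
      by_contra hcon
      push Not at hcon
      have hd : 0 < ℓ v / (2 * (ℓ x + 1)) := div_pos hcon (by linarith)
      have h4 := h (v - (ℓ v / (2 * (ℓ x + 1))) • x) (Or.inr (by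
        rw [inner_sub_right, real_inner_smul_right, hv, hxx]; linarith))
      rw [map_sub, map_smul, smul_eq_mul] at h4
      have h5 : ℓ v / (2 * (ℓ x + 1)) * ℓ x < ℓ v := by
        rw [div_mul_eq_mul_div, div_lt_iff₀ (by linarith)]
        nlinarith
      linarith
    refine ⟨ℓ x, hν, fun v => ?_⟩
    have hv : inner ℝ x (v - (inner ℝ x v : ℝ) • x) = (0 : ℝ) := by
      rw [inner_sub_right, real_inner_smul_right, hxx]; ring
    have h6 := hperp _ hv
    have h7 := hperp (-(v - (inner ℝ x v : ℝ) • x)) (by rw [inner_neg_right, hv, neg_zero])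
    rw [map_neg] at h7
    have h8 : ℓ (v - (inner ℝ x v : ℝ) • x) = 0 := by linarith
    rw [map_sub, map_smul, smul_eq_mul] at h8
    linarith

end Ball

/-- A finite family of complex numbers `G(l)` with all moments `0` vanishes. -/
theorem vanish (s : Multiset ℂ) (G : ℂ → ℂ)
    (h : ∀ j : ℕ, (s.map fun l => G l * l ^ j).sum = 0) : ∀ l ∈ s, G l = 0 := by
  classical
  have h1 : ∀ f : ℂ[X], (s.map fun l => G l * f.eval l).sum = 0 := by
    intro f
    induction f using Polynomial.induction_on' with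
    | add p q hp hq =>
      have : (fun l => G l * (p + q).eval l) = fun l => G l * p.eval l + G l * q.eval l := by
        funext l; rw [eval_add]; ring
      rw [this, Multiset.sum_map_add, hp, hq, add_zero]
    | monomial n a =>
      have : (fun l => G l * (monomial n a).eval l) = fun l => a * (G l * l ^ n) := by
        funext l; rw [eval_monomial]; ring
      rw [this, Multiset.sum_map_mul_left, h n, mul_zero]
  have h2 := h1 (Lagrange.interpolate s.toFinset id fun l => (starRingEnd ℂ) (G l))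
  have h3 : (s.map fun l => G l *
      (Lagrange.interpolate s.toFinset id fun l => (starRingEnd ℂ) (G l)).eval l) =
      s.map fun l => ((Complex.normSq (G l) : ℝ) : ℂ) := by
    refine Multiset.map_congr rfl fun l hl => ?_
    have h4 := Lagrange.eval_interpolate_at_node (s := s.toFinset) (v := id)
      (fun l => (starRingEnd ℂ) (G l)) (Set.injOn_id _) (Multiset.mem_toFinset.2 hl)
    rw [id] at h4
    rw [h4, Complex.mul_conj]
  rw [h3] at h2
  have h5 : (s.map fun l => Complex.normSq (G l)).sum = 0 := by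
    have h6 : (((s.map fun l => Complex.normSq (G l)).sum : ℝ) : ℂ) = 0 := by
      rw [← h2]
      have := map_multiset_sum Complex.ofRealHom (s.map fun l => Complex.normSq (G l))
      rw [Multiset.map_map] at this
      exact this
    exact_mod_cast h6
  intro l hl
  have h7 : Complex.normSq (G l) ≤ 0 := by
    rw [← h5]
    refine Multiset.single_le_sum ?_ _ (Multiset.mem_map_of_mem _ hl)
    intro y hy
    obtain ⟨z, -, rfl⟩ := Multiset.mem_map.1 hy
    exact Complex.normSq_nonneg _
  exact Complex.normSq_eq_zero.1 (le_antisymm h7 (Complex.normSq_nonneg _))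

end Critx

open Critx in
theorem thm_Crit (hDT : St_DT) (hK1 : St_K1) (hCr : St_Cr) : St_Crit := by
  intro V _ _ _ m hm hin g x hx hmax
  obtain ⟨-, k2, k3, k4, -⟩ := hK1 V m hm
  -- the derivative in the direction `v`
  let ℓ : V →ₗ[ℝ] ℝ := (LinearMap.trace ℝ V).comp
    ((LinearMap.mulLeft ℝ (aeval (m.flip x) (derivative g))).comp m.flip)
  have hℓ : ∀ v, ℓ v = LinearMap.trace ℝ V (aeval (m.flip x) (derivative g) * m.flip v) :=
    fun v => rfl
  obtain ⟨ν, hν, hlag⟩ := lagrange hx ℓ (by
    intro v hv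
    have hd := (hDT V (m.flip x) (m.flip v)).1 g 0
    rw [zero_smul, add_zero, ← hℓ] at hd
    refine deriv_nonpos hd ?_
    filter_upwards [eventually_ball hx hv] with e he
    have := hmax (x + e • v) he
    rw [map_add, map_smul] at this
    rw [zero_smul, add_zero]
    exact this)
  refine ⟨ν, hν, ?_⟩
  have hmom : ∀ j : ℕ, LinearMap.trace ℝ V
      (aeval (m.flip x) ((derivative g - C ν * X) * X * X ^ j)) = 0 := by
    intro j
    have h1 := hlag ((m.flip x ^ j) x)
    have h2 : ℓ ((m.flip x ^ j) x) =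
        LinearMap.trace ℝ V (aeval (m.flip x) (derivative g * X ^ (j + 1))) := by
      rw [hℓ, k3]
      have h3 := k3 (derivative g * X ^ j) x x
      have h4 : aeval (m.flip x) (derivative g * X ^ j) x =
          aeval (m.flip x) (derivative g) ((m.flip x ^ j) x) := by
        rw [map_mul, map_pow, aeval_X]; rfl
      rw [h4] at h3
      rw [← h3, pow_succ, ← mul_assoc, map_mul _ (derivative g * X ^ j) X, aeval_X]
    have h5 : (inner ℝ x ((m.flip x ^ j) x) : ℝ) =
        LinearMap.trace ℝ V (aeval (m.flip x) (X ^ (j + 2) : ℝ[X])) := by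
      rw [hin, (k4 x ((m.flip x ^ j) x)).2]
      have h6 := k2 (j + 1) x x
      have h7 : (m.flip x ^ (j + 1)) x = m ((m.flip x ^ j) x) x := by
        rw [pow_succ']; rfl
      rw [h7] at h6
      rw [← h6, ← pow_succ, map_pow (aeval (m.flip x)) (X : ℝ[X]) (j + 2), aeval_X]
    rw [h2, h5] at h1
    have h8 : (derivative g - C ν * X) * X * X ^ j =
        derivative g * X ^ (j + 1) - ν • X ^ (j + 2) := by
      rw [smul_eq_C_mul]; ring
    rw [h8, map_sub, map_sub, h1, map_smul, map_smul, smul_eq_mul, sub_self]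
  obtain ⟨-, c2, -, -⟩ := hCr V (m.flip x)
  have hG := vanish (cr (m.flip x)) (fun l => aeval l ((derivative g - C ν * X) * X : ℝ[X])) (by
    intro j
    have h1 := c2 ((derivative g - C ν * X) * X * X ^ j)
    rw [hmom j, Complex.ofReal_zero] at h1
    rw [h1]
    refine congrArg Multiset.sum (Multiset.map_congr rfl fun l _ => ?_)
    rw [map_mul _ ((derivative g - C ν * X) * X) (X ^ j), map_pow, aeval_X])
  intro l hl
  have h1 := hG l hl
  simp only [map_mul, map_sub, aeval_X, aeval_C] at h1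
  rcases mul_eq_zero.1 h1 with h2 | h2
  · exact Or.inr (sub_eq_zero.1 h2)
  · exact Or.inl h2

end Pool.Agent.RRC
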