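import Pool.Agent.RRC.St3

/-!
# RRC, module MAIN3: real-rooted iff `σ_1² - 2 σ_2` is positive definite (MP_835236_al)
-/

set_option autoImplicit false

noncomputable section

namespace Pool.Agent.RRC

open scoped Polynomial
open Polynomial

open Helper28.Nij in
/-- admissible collections: real-rooted iff the trace form is positive definite -/
theorem thm_Main3 (hK1 : St_K1) (hP1 : St_P1) (b1 : St_B1b) (b3 : St_B3) (hQd : St_Qd)
    (hPos : St_Pos) : St_Main3 := by
  intro n σ h
  obtain ⟨m, hL, hN, hσ⟩ := b1 n σ h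
  have key : ∀ x : Fin n → ℝ, tr m (m x x) = MvPolynomial.eval x (qd σ) := by
    intro x
    rw [((hK1 (Fin n → ℝ) m hL).2.2.2.1 x x).1, hQd n σ m hσ x, pow_two]
  constructor
  · intro hr x hx
    rw [← key x]
    exact hP1 (Fin n → ℝ) m hL ((b3 n σ m hσ).2 hr) hN x hx
  · intro hp
    refine (b3 n σ m hσ).1 (hPos (Fin n → ℝ) m hL fun v hv => ?_)
    rw [key v]
    exact hp v hv

end Pool.Agent.RRC
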