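import Pool.Agent.RRC.St3
import Pool.Agent.RRC.Norm

/-!
# RRC, part 3, module Pos: positivity of `tr L²` implies real roots
-/

set_option autoImplicit false

noncomputable section

namespace Pool.Agent.RRC

open scoped Polynomial
open Polynomial

namespace Posx

theorem cont {V : Type} [NormedAddCommGroup V] [InnerProductSpace ℝ V] [FiniteDimensional ℝ V]
    (m : V →ₗ[ℝ] V →ₗ[ℝ] V) (g : ℝ[X]) :
    Continuous fun y : V => LinearMap.trace ℝ V (aeval (m.flip y) g) := by
  classical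
  let b := Module.finBasis ℝ V
  let N : V →ₗ[ℝ] Matrix (Fin (Module.finrank ℝ V)) (Fin (Module.finrank ℝ V)) ℝ :=
    (LinearMap.toMatrix b b : (V →ₗ[ℝ] V) →ₗ[ℝ] _) ∘ₗ m.flip
  have hN : Continuous N := LinearMap.continuous_of_finiteDimensional N
  have h1 : (fun y : V => LinearMap.trace ℝ V (aeval (m.flip y) g)) =
      fun y : V => Matrix.trace (aeval (N y) g) := by
    funext y
    rw [LinearMap.trace_eq_matrix_trace ℝ b]
    congr 1
    exact (Polynomial.aeval_algHom_apply (LinearMap.toMatrixAlgEquiv b).toAlgHom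
      (m.flip y) g).symm
  rw [h1]
  exact ((Polynomial.continuous_aeval g).comp hN).matrix_trace

theorem eucl {V : Type} [NormedAddCommGroup V] [InnerProductSpace ℝ V] [FiniteDimensional ℝ V]
    (hCr : St_Cr) (hBd : St_Bd) (hCrit : St_Crit) (hTrig : St_Trig) (hAlm : St_Alm)
    (m : V →ₗ[ℝ] V →ₗ[ℝ] V) (hL : LSA m) (hi : ∀ x y : V, inner ℝ x y = tr m (m x y)) :
    RR m := by
  obtain ⟨B, hB⟩ := hBd V m
  obtain ⟨K, hK⟩ : ∃ K : ℝ, K = 2 * (|B| + 1) := ⟨_, rfl⟩
  have hK0 : 0 < K := by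
    have := abs_nonneg B
    rw [hK]; linarith
  have hlK : ∀ y : V, ‖y‖ ≤ 1 → ∀ l ∈ cr (m.flip y), 2 * ‖l‖ ≤ K := by
    intro y hy l hl
    have h1 := hB y hy l hl
    have h2 := le_abs_self B
    rw [hK]; linarith
  have hre : ∀ (y : V) (g : ℝ[X]), LinearMap.trace ℝ V (aeval (m.flip y) g) =
      ((cr (m.flip y)).map fun l => (aeval l g : ℂ).re).sum := by
    intro y g
    have h1 := (hCr V (m.flip y)).2.1 g
    have h2 : ∀ s : Multiset ℂ, ((s.map fun l => (aeval l g : ℂ)).sum).re =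
        (s.map fun l => (aeval l g : ℂ).re).sum := by
      intro s
      induction s using Multiset.induction with
      | empty => simp
      | cons a s ih => simp [ih]
    rw [← h2, ← h1, Complex.ofReal_re]
  have hmain : ∀ y : V, ‖y‖ ≤ 1 → ∀ l ∈ cr (m.flip y), l.im = 0 := by
    intro y hy
    refine hAlm K _ hK0 (hlK y hy) fun L => ?_
    rw [← hre y (gC K L)]
    obtain ⟨x, hx, hmax⟩ := (isCompact_closedBall (0 : V) 1).exists_isMaxOn
      ⟨0, Metric.mem_closedBall_self zero_le_one⟩ (cont m (gC K L)).continuousOn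
    have hx1 : ‖x‖ ≤ 1 := by simpa using hx
    have hmax' : ∀ y : V, ‖y‖ ≤ 1 → LinearMap.trace ℝ V (aeval (m.flip y) (gC K L)) ≤
        LinearMap.trace ℝ V (aeval (m.flip x) (gC K L)) := by
      intro y hy
      exact hmax (by simpa using hy)
    obtain ⟨ν, hν, hcr⟩ := hCrit V m hL hi (gC K L) x hx1 hmax'
    refine (hmax' y hy).trans ?_
    rw [hre x, (hCr V (m.flip y)).1, ← (hCr V (m.flip x)).1]
    have h3 : ∀ s : Multiset ℂ, (∀ l ∈ s, (aeval l (gC K L) : ℂ).re ≤ 1) →
        (s.map fun l => (aeval l (gC K L) : ℂ).re).sum ≤ Multiset.card s := by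
      intro s
      induction s using Multiset.induction with
      | empty => simp
      | cons a s ih =>
        intro h
        rw [Multiset.map_cons, Multiset.sum_cons, Multiset.card_cons]
        have h4 := h a (Multiset.mem_cons_self a s)
        have h5 := ih fun l hl => h l (Multiset.mem_cons_of_mem hl)
        push_cast
        linarith
    exact h3 _ fun l hl => hTrig K L ν l hK0 hν (hlK x hx1 l hl) (hcr l hl)
  intro y
  apply (hCr V (m.flip y)).2.2.1
  by_cases hy : ‖y‖ ≤ 1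
  · exact hmain y hy
  · push Not at hy
    have hy0 : ‖y‖ ≠ 0 := by linarith
    have h1 : m.flip y = ‖y‖ • m.flip (‖y‖⁻¹ • y) := by
      rw [map_smul, smul_smul, mul_inv_cancel₀ hy0, one_smul]
    intro l hl
    rw [h1, (hCr V (m.flip (‖y‖⁻¹ • y))).2.2.2 ‖y‖ hy0, Multiset.mem_map] at hl
    obtain ⟨l', hl', rfl⟩ := hl
    have h2 : ‖(‖y‖⁻¹ • y : V)‖ ≤ 1 := by
      rw [norm_smul, norm_inv, norm_norm, inv_mul_cancel₀ hy0]
    have h3 := hmain _ h2 l' hl'
    rw [Complex.mul_im, Complex.ofReal_im, Complex.ofReal_re, h3]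
    ring

end Posx

open Pool.Agent.RRC.Norm Pool.Agent.RRC.Posx in
theorem thm_Pos (hK1 : St_K1) (hCr : St_Cr) (hBd : St_Bd) (hCrit : St_Crit) (hTrig : St_Trig)
    (hAlm : St_Alm) : St_Pos := by
  intro V _ _ _ m hL hp
  obtain ⟨φ, hφ⟩ := iso (m.compr₂ (tr m))
    (fun x y => ((hK1 V m hL).2.2.2.1 x y).2) (fun v hv => hp v hv)
  have h := eucl hCr hBd hCrit hTrig hAlm (tp m φ) (fun a b x => by
      simp only [tp_apply, φ.symm_apply_apply]
      rw [← map_sub, ← map_sub, hL]) (fun x y => by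
      have h1 := hφ (φ.symm x) (φ.symm y)
      rw [φ.apply_symm_apply, φ.apply_symm_apply] at h1
      rw [h1, tp_tr, tp_apply, φ.symm_apply_apply]
      rfl)
  intro x
  have h2 := h (φ x)
  rw [tp_flip, φ.symm_apply_apply, LinearEquiv.charpoly_conj] at h2
  exact h2

end Pool.Agent.RRC
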