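import Pool.Agent.RRC.St3

/-!
# RRC, module Qd (helper41): `tr T² = c_1² - 2 c_2`
-/

set_option autoImplicit false

noncomputable section

namespace Pool.Agent.RRC

open scoped Polynomial
open Polynomial

namespace Qdx

theorem sum_if {n : ℕ} {M : Type} [AddCommMonoid M] (f : Fin n → M) (j : ℕ) (h : j < n) :
    (∑ k : Fin n, if (k : ℕ) = j then f k else 0) = f ⟨j, h⟩ := by
  rw [Finset.sum_eq_single (⟨j, h⟩ : Fin n)]
  · rw [if_pos rfl]
  · intro b _ hb
    rw [if_neg]
    intro h'
    exact hb (Fin.ext h')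
  · intro h'
    exact absurd (Finset.mem_univ _) h'

theorem sum_if' {n : ℕ} {M : Type} [AddCommMonoid M] (f : Fin n → M) (j : ℕ) (h : n ≤ j) :
    (∑ k : Fin n, if (k : ℕ) = j then f k else 0) = 0 := by
  refine Finset.sum_eq_zero fun k _ => ?_
  rw [if_neg]
  have := k.2
  omega

theorem esymm_one (s : Multiset ℂ) : s.esymm 1 = s.sum := by
  rw [Multiset.esymm, Multiset.powersetCard_one, Multiset.map_map]
  congr 1
  simp

theorem esymm_two_cons (a : ℂ) (s : Multiset ℂ) :
    (a ::ₘ s).esymm 2 = s.esymm 2 + a * s.sum := by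
  rw [Multiset.esymm, Multiset.powersetCard_cons, Multiset.map_add, Multiset.sum_add,
    Multiset.map_map]
  congr 1
  rw [← esymm_one s, Multiset.esymm, ← Multiset.sum_map_mul_left]
  congr 1
  refine Multiset.map_congr rfl fun x _ => ?_
  simp

theorem sq_sum (s : Multiset ℂ) : s.sum ^ 2 = (s.map fun l => l ^ 2).sum + 2 * s.esymm 2 := by
  induction s using Multiset.induction with
  | empty =>
    have : (0 : Multiset ℂ).esymm 2 = 0 := by
      rw [Multiset.esymm]
      simp [Multiset.powersetCard_zero_right]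
    rw [this]
    simp
  | cons a s ih =>
    rw [esymm_two_cons, Multiset.sum_cons, Multiset.map_cons, Multiset.sum_cons]
    linear_combination ih

theorem esymm_small (s : Multiset ℂ) (k : ℕ) (h : Multiset.card s < k) : s.esymm k = 0 := by
  rw [Multiset.esymm, Multiset.powersetCard_eq_empty k h]
  simp

end Qdx

open Qdx in
theorem thm_Qd (hCr : St_Cr) : St_Qd := by
  intro n σ m hσ x
  set T := m.flip x with hT
  obtain ⟨h1, h2, -, -⟩ := hCr (Fin n → ℝ) T
  rw [Module.finrank_fin_fun] at h1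
  have h3 : ((LinearMap.trace ℝ (Fin n → ℝ) (T ^ 2) : ℝ) : ℂ) =
      ((cr T).map fun l => l ^ 2).sum := by
    have := h2 (X ^ 2)
    simpa using this
  set p := T.charpoly.map (algebraMap ℝ ℂ) with hp
  have hmon : p.Monic := T.charpoly_monic.map _
  have hdeg : p.natDegree = n := by
    rw [hp, T.charpoly_monic.natDegree_map, LinearMap.charpoly_natDegree, Module.finrank_fin_fun]
  have hcard : Multiset.card p.roots = p.natDegree := by
    rw [hdeg]
    exact h1
  have hco : ∀ k, k ≤ n → p.coeff k = (-1) ^ (n - k) * (cr T).esymm (n - k) := by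
    intro k hk
    have := Polynomial.coeff_eq_esymm_roots_of_card hcard (k := k) (by rw [hdeg]; exact hk)
    rw [this, hdeg, hmon.leadingCoeff, one_mul]
    rfl
  have hreal : ∀ k, p.coeff k = ((T.charpoly.coeff k : ℝ) : ℂ) := by
    intro k
    rw [hp, Polynomial.coeff_map]
    rfl
  have e1 : ((MvPolynomial.eval x (∑ k : Fin n, if (k : ℕ) = 0 then σ k else 0) : ℝ) : ℂ) =
      -(cr T).sum := by
    by_cases hn : 0 < n
    · rw [sum_if σ 0 hn, ← hσ x ⟨0, hn⟩, ← hreal, hco _ (by omega)]
      have : n - (n - 1 - ((⟨0, hn⟩ : Fin n) : ℕ)) = 1 := by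
        change n - (n - 1 - 0) = 1
        omega
      rw [this, esymm_one]
      ring
    · rw [sum_if' σ 0 (by omega)]
      have hs : cr T = 0 := Multiset.card_eq_zero.1 (by omega)
      rw [hs]
      simp
  have e2 : ((MvPolynomial.eval x (∑ k : Fin n, if (k : ℕ) = 1 then σ k else 0) : ℝ) : ℂ) =
      (cr T).esymm 2 := by
    by_cases hn : 1 < n
    · rw [sum_if σ 1 hn, ← hσ x ⟨1, hn⟩, ← hreal, hco _ (by omega)]
      have : n - (n - 1 - ((⟨1, hn⟩ : Fin n) : ℕ)) = 2 := by
        change n - (n - 1 - 1) = 2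
        omega
      rw [this]
      ring
    · rw [sum_if' σ 1 (by omega), esymm_small (cr T) 2 (by omega)]
      simp
  have h4 := sq_sum (cr T)
  have h5 : ((MvPolynomial.eval x (qd σ) : ℝ) : ℂ) =
      ((LinearMap.trace ℝ (Fin n → ℝ) (T ^ 2) : ℝ) : ℂ) := by
    rw [h3, qd, map_sub, map_pow, map_mul, Complex.ofReal_sub, Complex.ofReal_pow,
      Complex.ofReal_mul, e1, e2, map_ofNat]
    push_cast
    linear_combination h4
  exact_mod_cast h5

end Pool.Agent.RRC
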