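import Pool.Agent.RRC.St3

/-!
# RRC, part 3: the critical equation for Chebyshev polynomials ([Trig], MP_835236_al)
-/

set_option autoImplicit false

noncomputable section

namespace Pool.Agent.RRC

open scoped Polynomial
open Polynomial

namespace Trigx

theorem sin_re (z : ℂ) : (Complex.sin z).re = Real.sin z.re * Real.cosh z.im := by
  rw [Complex.sin_eq, ← Complex.ofReal_sin, ← Complex.ofReal_cosh, ← Complex.ofReal_cos,
    ← Complex.ofReal_sinh]
  simp only [Complex.add_re, Complex.add_im, Complex.sub_re, Complex.mul_re, Complex.mul_im,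
    Complex.ofReal_re, Complex.ofReal_im, Complex.I_re, Complex.I_im]
  ring

theorem sin_im (z : ℂ) : (Complex.sin z).im = Real.cos z.re * Real.sinh z.im := by
  rw [Complex.sin_eq, ← Complex.ofReal_sin, ← Complex.ofReal_cosh, ← Complex.ofReal_cos,
    ← Complex.ofReal_sinh]
  simp only [Complex.add_re, Complex.add_im, Complex.sub_re, Complex.mul_re, Complex.mul_im,
    Complex.ofReal_re, Complex.ofReal_im, Complex.I_re, Complex.I_im]
  ring

theorem cos_re (z : ℂ) : (Complex.cos z).re = Real.cos z.re * Real.cosh z.im := by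
  rw [Complex.cos_eq, ← Complex.ofReal_sin, ← Complex.ofReal_cosh, ← Complex.ofReal_cos,
    ← Complex.ofReal_sinh]
  simp only [Complex.add_re, Complex.add_im, Complex.sub_re, Complex.mul_re, Complex.mul_im,
    Complex.ofReal_re, Complex.ofReal_im, Complex.I_re, Complex.I_im]
  ring

/-- The value of `gC K L` at `l = K sin θ`. -/
theorem eval_gC (K : ℝ) (L : ℕ) (l θ : ℂ) (hθ : Complex.sin θ = ((1 / K : ℝ) : ℂ) * l) :
    aeval l (gC K L) = Complex.cos ((4 * (L : ℝ) : ℝ) * θ) := by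
  unfold gC
  rw [aeval_comp, map_mul, aeval_C, aeval_X, Complex.coe_algebraMap, ← hθ, Chebyshev.aeval_T,
    ← Complex.cos_pi_div_two_sub, Chebyshev.T_complex_cos]
  have h1 : ((4 * (L : ℤ) : ℤ) : ℂ) * (Real.pi / 2 - θ) =
      -(((4 * (L : ℝ) : ℝ) : ℂ) * θ) + (L : ℤ) * (2 * Real.pi) := by
    push_cast
    ring
  rw [h1, Complex.cos_add_int_mul_two_pi, Complex.cos_neg]

/-- The derivative of `gC K L` at `l = K sin θ`. -/
theorem eval_gC' (K : ℝ) (L : ℕ) (l θ : ℂ) (hθ : Complex.sin θ = ((1 / K : ℝ) : ℂ) * l) :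
    aeval l (derivative (gC K L)) * Complex.cos θ =
      -((4 * L / K : ℝ) : ℂ) * Complex.sin ((4 * (L : ℝ) : ℝ) * θ) := by
  unfold gC
  rw [derivative_comp, map_mul, aeval_comp, map_mul (aeval l), aeval_C, aeval_X,
    Complex.coe_algebraMap, ← hθ, Chebyshev.T_derivative_eq_U, derivative_mul, derivative_C,
    derivative_X, zero_mul, zero_add, mul_one, aeval_C, Complex.coe_algebraMap, map_mul,
    Chebyshev.aeval_U, map_intCast]
  have h0 := Chebyshev.U_complex_cos (Real.pi / 2 - θ) (4 * (L : ℤ) - 1)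
  rw [Complex.cos_pi_div_two_sub, Complex.sin_pi_div_two_sub] at h0
  have h1 : (((4 * (L : ℤ) - 1 : ℤ) : ℂ) + 1) * (Real.pi / 2 - θ) =
      -(((4 * (L : ℝ) : ℝ) : ℂ) * θ) + (L : ℤ) * (2 * Real.pi) := by
    push_cast
    ring
  rw [h1, Complex.sin_add_int_mul_two_pi, Complex.sin_neg] at h0
  have h2 : ((1 / K : ℝ) : ℂ) * (((4 * (L : ℤ) : ℤ) : ℂ) *
      eval (Complex.sin θ) (Chebyshev.U ℂ (4 * (L : ℤ) - 1))) * Complex.cos θ =
      ((4 * L / K : ℝ) : ℂ) * (eval (Complex.sin θ) (Chebyshev.U ℂ (4 * (L : ℤ) - 1)) *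
        Complex.cos θ) := by
    push_cast
    ring
  rw [h2, h0]
  ring

end Trigx

theorem thm_Trig : St_Trig := by
  intro K L ν l hK hν hl hcrit
  obtain ⟨θ, hθ⟩ := Complex.sin_surjective (((1 / K : ℝ) : ℂ) * l)
  by_cases hl0 : l = 0
  · have h1 := Trigx.eval_gC K L l 0 (by rw [hl0, Complex.sin_zero, mul_zero])
    rw [h1, mul_zero, Complex.cos_zero, Complex.one_re]
  have hcrit := hcrit.resolve_left hl0
  have hg := Trigx.eval_gC K L l θ hθ
  rw [hg, Trigx.cos_re, Complex.re_ofReal_mul, Complex.im_ofReal_mul]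
  have hlK : Complex.sin θ * K = l := by
    rw [hθ]
    have : (K : ℂ) ≠ 0 := by exact_mod_cast hK.ne'
    push_cast
    field_simp
  -- the real part of `θ`
  have hsin : Real.sin θ.re ^ 2 ≤ 1 / 4 := by
    have h1 : ‖Complex.sin θ‖ ≤ 1 / 2 := by
      rw [hθ, norm_mul, Complex.norm_real, Real.norm_eq_abs, abs_of_pos (by positivity)]
      rw [one_div, inv_mul_le_iff₀ hK]
      linarith
    have h2 : |(Complex.sin θ).re| ≤ 1 / 2 := (Complex.abs_re_le_norm _).trans h1
    rw [Trigx.sin_re, abs_mul, abs_of_pos (Real.cosh_pos _)] at h2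
    have h3 : |Real.sin θ.re| ≤ 1 / 2 :=
      (le_mul_of_one_le_right (abs_nonneg _) (Real.one_le_cosh _)).trans h2
    have h4 := abs_le.1 h3
    nlinarith [h4.1, h4.2]
  have hcos2 : 0 < Real.cos (2 * θ.re) := by
    rw [Real.cos_two_mul, Real.cos_sq']
    linarith
  by_cases hb : θ.im = 0
  · rw [hb, mul_zero, Real.cosh_zero, mul_one]
    exact Real.cos_le_one _
  rcases Nat.eq_zero_or_pos L with hL | hL
  · rw [hL]
    simp
  have hLr : (0 : ℝ) < L := by exact_mod_cast hL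
  -- the equation
  have h1 := Trigx.eval_gC' K L l θ hθ
  rw [hcrit, ← hlK] at h1
  have h2 : ((ν * K / 2 : ℝ) : ℂ) * Complex.sin (2 * θ) =
      -((4 * L / K : ℝ) : ℂ) * Complex.sin ((4 * (L : ℝ) : ℝ) * θ) := by
    rw [← h1, Complex.sin_two_mul]
    push_cast
    ring
  have h3 := congrArg Complex.im h2
  have h4 : (2 * θ : ℂ) = ((2 : ℝ) : ℂ) * θ := by push_cast; ring
  rw [h4, ← Complex.ofReal_neg, Complex.im_ofReal_mul, Complex.im_ofReal_mul, Trigx.sin_im,
    Trigx.sin_im, Complex.re_ofReal_mul, Complex.im_ofReal_mul, Complex.re_ofReal_mul,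
    Complex.im_ofReal_mul] at h3
  have h5 : 0 < Real.sinh (4 * (L : ℝ) * θ.im) * Real.sinh (2 * θ.im) := by
    rcases lt_or_gt_of_ne hb with h6 | h6
    · exact mul_pos_of_neg_of_neg (Real.sinh_neg_iff.2 (by nlinarith))
        (Real.sinh_neg_iff.2 (by linarith))
    · exact mul_pos (Real.sinh_pos_iff.2 (by positivity)) (Real.sinh_pos_iff.2 (by linarith))
  have h6 : Real.cos (4 * (L : ℝ) * θ.re) ≤ 0 := by
    by_contra h7
    have h7 := not_le.1 h7
    have h8 : 0 ≤ ν * K / 2 * (Real.cos (2 * θ.re) * Real.sinh (2 * θ.im)) *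
        Real.sinh (2 * θ.im) := by
      have : 0 ≤ Real.sinh (2 * θ.im) * Real.sinh (2 * θ.im) := mul_self_nonneg _
      have h9 : 0 ≤ ν * K / 2 * Real.cos (2 * θ.re) := by positivity
      nlinarith [mul_nonneg h9 this]
    rw [h3] at h8
    have h9 : 0 < 4 * (L : ℝ) / K * Real.cos (4 * (L : ℝ) * θ.re) *
        (Real.sinh (4 * (L : ℝ) * θ.im) * Real.sinh (2 * θ.im)) := by positivity
    nlinarith [h9, h8]
  have h7 := mul_nonpos_of_nonpos_of_nonneg h6 (Real.cosh_pos (4 * (L : ℝ) * θ.im)).le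
  linarith

end Pool.Agent.RRC
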