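import Pool.Agent.RRC.All
import Pool.Agent.RRC.Cr
import Pool.Agent.RRC.Bd
import Pool.Agent.RRC.Crit
import Pool.Agent.RRC.Trig
import Pool.Agent.RRC.Alm
import Pool.Agent.RRC.Pos
import Pool.Agent.RRC.Qd
import Pool.Agent.RRC.Main3

/-!
# RRC, part 3: assembly
-/

namespace Pool.Agent.RRC

theorem all_Pos : St_Pos :=
  thm_Pos thm_K1 thm_Cr thm_Bd (thm_Crit thm_DT thm_K1 thm_Cr) thm_Trig thm_Alm

theorem all3 : St_Main3 :=
  thm_Main3 thm_K1 all_P1 (thm_B1b thm_B1a all_DF) thm_B3 (thm_Qd thm_Cr) all_Pos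

end Pool.Agent.RRC
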