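import Pool.Agent.RRC.St2

/-!
# [CO] The coordinates of a digraph at a source (helper15)
-/

set_option autoImplicit false

namespace Pool.Agent.RRC

namespace Cox

/-- In a chain every entry but the first one is the end of an edge. -/
theorem notMem_tail {D : Dig} {k : ℕ} (hk : D.Source k) :
    ∀ (l : List ℕ) (a : ℕ), (a :: l).IsChain D.E → k ∉ l
  | [], _, _ => List.not_mem_nil
  | b :: l, a, h => by
    rw [List.isChain_cons_cons] at h
    intro hm
    rcases List.mem_cons.1 hm with h1 | h1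
    · exact hk.2 a (h1 ▸ h.1)
    · exact notMem_tail hk l b h.2 h1

theorem chain_del {D : Dig} {k : ℕ} : ∀ l : List ℕ, l.IsChain D.E → k ∉ l →
    l.IsChain (D.del k).E
  | [], _, _ => List.isChain_nil
  | [a], _, _ => List.isChain_singleton a
  | a :: b :: l, h, hm => by
    rw [List.isChain_cons_cons] at h ⊢
    refine ⟨⟨h.1, fun e => hm (e ▸ List.mem_cons_self), fun e => hm (e ▸ ?_)⟩,
      chain_del _ h.2 fun e => hm (List.mem_cons_of_mem _ e)⟩
    exact List.mem_cons_of_mem _ List.mem_cons_self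

/-- A path which does not contain `k` is a path of the digraph with `k` removed. -/
theorem pathP_del {D : Dig} {k : ℕ} {l : List ℕ} (h : D.PathP l) (hm : k ∉ l) :
    (D.del k).PathP l :=
  ⟨h.1, fun i hi => (h.2.1 i hi).imp id fun h' =>
    Finset.mem_erase.2 ⟨fun e => hm (e ▸ hi), h'⟩, chain_del l h.2.2 hm⟩

/-- A path of the digraph with `k` removed does not contain `k`. -/
theorem notMem_of_del {D : Dig} {k : ℕ} (hk : k ∈ D.vs) {l : List ℕ} (h : (D.del k).PathP l) :
    k ∉ l := by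
  intro hm
  rcases h.2.1 k hm with h1 | h1
  · exact D.zero (h1 ▸ hk)
  · exact (Finset.mem_erase.1 h1).1 rfl

/-- The three parts of the set of paths. -/
def f (D : Dig) {k : ℕ} (hk : k ∈ D.vs) :
    Unit ⊕ ((D.del k).Q (D.out k) ⊕ (D.del k).Path) → D.Path :=
  Sum.elim (fun _ => D.pK hk) (Sum.elim (D.pQ hk) (D.pP k))

theorem pQ_ne_pK (D : Dig) {k i : ℕ} (hk : k ∈ D.vs) (hi : i ∈ D.vs)
    (q : (D.del k).Q (D.out k)) : D.pQ hk q ≠ D.pK hi := fun h =>
  q.2.1.1 (List.tail_eq_of_cons_eq (congrArg Subtype.val h))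

theorem pP_ne_pK (D : Dig) {k : ℕ} (hk : k ∈ D.vs) (p : (D.del k).Path) :
    D.pP k p ≠ D.pK hk := fun h => by
  have h1 : p.1 = [k] := congrArg Subtype.val h
  exact notMem_of_del hk p.2.1 (h1 ▸ List.mem_cons_self)

theorem pP_ne_pQ (D : Dig) {k : ℕ} (hk : k ∈ D.vs) (p : (D.del k).Path)
    (q : (D.del k).Q (D.out k)) : D.pP k p ≠ D.pQ hk q := fun h => by
  have h1 : p.1 = k :: q.1 := congrArg Subtype.val h
  exact notMem_of_del hk p.2.1 (h1 ▸ List.mem_cons_self)

theorem f_inj (D : Dig) {k : ℕ} (hk : k ∈ D.vs) : Function.Injective (f D hk) := by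
  rintro (_ | q | p) (_ | q' | p') h
  · rfl
  · exact absurd h.symm (pQ_ne_pK D hk hk q')
  · exact absurd h.symm (pP_ne_pK D hk p')
  · exact absurd h (pQ_ne_pK D hk hk q)
  · have h1 : q = q' := Subtype.ext (List.tail_eq_of_cons_eq (congrArg Subtype.val h))
    rw [h1]
  · exact absurd h.symm (pP_ne_pQ D hk p' q)
  · exact absurd h (pP_ne_pK D hk p)
  · exact absurd h (pP_ne_pQ D hk p q')
  · have h0 : (D.pP k p).1 = (D.pP k p').1 := congrArg Subtype.val h
    have h1 : p = p' := Subtype.ext h0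
    rw [h1]

theorem f_surj (D : Dig) {k : ℕ} (hk : D.Source k) : Function.Surjective (f D hk.1) := by
  rintro ⟨l, hl, h0⟩
  cases l with
  | nil => exact absurd rfl hl.1
  | cons a l =>
    have h1 := notMem_tail hk l a hl.2.2
    by_cases ha : a = k
    · subst ha
      cases l with
      | nil => exact ⟨Sum.inl (), rfl⟩
      | cons b l =>
        have h2 := hl.2.2
        rw [List.isChain_cons_cons] at h2
        have h3 : D.PathP (b :: l) := ⟨List.cons_ne_nil _ _,
          fun i hi => hl.2.1 i (List.mem_cons_of_mem _ hi), h2.2⟩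
        exact ⟨Sum.inr (Sum.inl ⟨b :: l, pathP_del h3 h1, b, (D.mem_out a b).2 h2.1, rfl⟩), rfl⟩
    · have h2 : k ∉ a :: l := fun e => (List.mem_cons.1 e).elim (fun e => ha e.symm) h1
      exact ⟨Sum.inr (Sum.inr ⟨a :: l, pathP_del hl h2, h0⟩), rfl⟩

/-- The set of paths. -/
noncomputable def ff (D : Dig) {k : ℕ} (hk : D.Source k) :
    Unit ⊕ ((D.del k).Q (D.out k) ⊕ (D.del k).Path) ≃ D.Path :=
  Equiv.ofBijective (f D hk.1) ⟨f_inj D hk.1, f_surj D hk⟩

end Cox

theorem thm_Co : St_Co := by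
  intro D k hk
  refine ⟨⟨?_, ?_⟩, ?_, ?_⟩
  · intro x y h
    have h1 : x (D.pK hk.1) = y (D.pK hk.1) := congrArg Prod.fst h
    have h2 : ∀ q, √2 * x (D.pQ hk.1 q) = √2 * y (D.pQ hk.1 q) := fun q =>
      congrArg (fun z => z.2.1 q) h
    have h3 : ∀ p, x (D.pP k p) = y (D.pP k p) := fun p => congrArg (fun z => z.2.2 p) h
    funext l
    obtain ⟨s, rfl⟩ := Cox.f_surj D hk l
    rcases s with _ | q | p
    · exact h1
    · exact mul_left_cancel₀ (Real.sqrt_ne_zero'.2 two_pos) (h2 q)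
    · exact h3 p
  · rintro ⟨γ, w, y⟩
    refine ⟨fun l => Sum.elim (fun _ => γ) (Sum.elim (fun q => w q / √2) y)
      ((Cox.ff D hk).symm l), ?_⟩
    have e1 : (Cox.ff D hk).symm (D.pK hk.1) = Sum.inl () :=
      (Equiv.symm_apply_eq _).2 rfl
    have e2 : ∀ q, (Cox.ff D hk).symm (D.pQ hk.1 q) = Sum.inr (Sum.inl q) := fun q =>
      (Equiv.symm_apply_eq _).2 rfl
    have e3 : ∀ p, (Cox.ff D hk).symm (D.pP k p) = Sum.inr (Sum.inr p) := fun p =>
      (Equiv.symm_apply_eq _).2 rfl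
    refine Prod.ext ?_ (Prod.ext ?_ ?_)
    · change Sum.elim _ _ ((Cox.ff D hk).symm (D.pK hk.1)) = γ
      rw [e1]
      rfl
    · ext q
      change √2 * Sum.elim _ _ ((Cox.ff D hk).symm (D.pQ hk.1 q)) = w q
      rw [e2]
      change √2 * (w q / √2) = w q
      exact mul_div_cancel₀ _ (Real.sqrt_ne_zero'.2 two_pos)
    · funext p
      change Sum.elim _ _ ((Cox.ff D hk).symm (D.pP k p)) = y p
      rw [e3]
      rfl
  · refine Prod.ext ?_ (Prod.ext ?_ ?_)
    · exact Pi.single_eq_same _ _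
    · ext q
      change √2 * (Pi.single (D.pK hk.1) 1 : D.Path → ℝ) (D.pQ hk.1 q) = 0
      rw [Pi.single_eq_of_ne (Cox.pQ_ne_pK D hk.1 hk.1 q), mul_zero]
    · funext p
      exact Pi.single_eq_of_ne (Cox.pP_ne_pK D hk.1 p) _
  · intro i hi
    refine Prod.ext ?_ (Prod.ext ?_ ?_)
    · refine Pi.single_eq_of_ne (fun h => ?_) _
      have h1 : k = i := List.head_eq_of_cons_eq (congrArg Subtype.val h)
      exact (Finset.mem_erase.1 hi).1 h1.symm
    · ext q
      change √2 * (Pi.single (D.pK (Finset.mem_of_mem_erase hi)) 1 : D.Path → ℝ)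
        (D.pQ hk.1 q) = 0
      rw [Pi.single_eq_of_ne (Cox.pQ_ne_pK D hk.1 _ q), mul_zero]
    · funext p
      change (Pi.single (D.pK (Finset.mem_of_mem_erase hi)) 1 : D.Path → ℝ) (D.pP k p) =
        (Pi.single ((D.del k).pK hi) 1 : (D.del k).Path → ℝ) p
      by_cases h : p = (D.del k).pK hi
      · subst h
        rw [Pi.single_eq_same]
        exact Pi.single_eq_same _ _
      · rw [Pi.single_eq_of_ne h, Pi.single_eq_of_ne]
        intro h'
        have h0 : p.1 = [i] := congrArg Subtype.val h'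
        exact h (Subtype.ext h0)

end Pool.Agent.RRC
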