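import Mathlib
import Pool.Agent.Helper28.NijDefs

/-!
# Real-rooted admissible collections: common definitions (MP_835236_al)

`m a x` is the product `a * x` of a real algebra `V`. `m.flip x` is the right multiplication
`R_x : a ↦ a * x`, `m a` the left multiplication `L_a`.
-/

open MvPolynomial

namespace Pool.Agent.RRC

section Algebra

variable {V : Type} [AddCommGroup V] [Module ℝ V]

/-- Left-symmetric algebras. -/
def LSA (m : V →ₗ[ℝ] V →ₗ[ℝ] V) : Prop :=
  ∀ a b x : V, m a (m b x) - m (m a b) x = m b (m a x) - m (m b a) x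

/-- `s(x) = tr R_x`. -/
noncomputable def tr (m : V →ₗ[ℝ] V →ₗ[ℝ] V) : V →ₗ[ℝ] ℝ :=
  (LinearMap.trace ℝ V).comp m.flip

/-- The functionals `v ↦ tr(R_x^k v)`, `k ≥ 0`, have no common zero except `0`. -/
def NDat (m : V →ₗ[ℝ] V →ₗ[ℝ] V) (x : V) : Prop :=
  ∀ v : V, (∀ k : ℕ, tr m ((m.flip x ^ k) v) = 0) → v = 0

/-- Nondegenerate algebras. -/
def ND (m : V →ₗ[ℝ] V →ₗ[ℝ] V) : Prop := ∃ x : V, NDat m x

/-- Real-rooted algebras: `det(t - R_x)` is a product of real linear factors. -/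
def RR [Module.Finite ℝ V] (m : V →ₗ[ℝ] V →ₗ[ℝ] V) : Prop :=
  ∀ x : V, (m.flip x).charpoly.Splits

/-- `F(x) = P(x, 1) = det(1 - R_x)`. -/
noncomputable def FF [Module.Finite ℝ V] (m : V →ₗ[ℝ] V →ₗ[ℝ] V) (x : V) : ℝ :=
  ((m.flip x).charpoly).eval 1

/-- Power sums `p_k(x) = tr R_x^k`. -/
noncomputable def pw (m : V →ₗ[ℝ] V →ₗ[ℝ] V) (k : ℕ) (x : V) : ℝ :=
  LinearMap.trace ℝ V (m.flip x ^ k)

/-- Cyclic operators. -/
def Cyc (S : V →ₗ[ℝ] V) : Prop :=
  ∃ v : V, Submodule.span ℝ (Set.range fun k : ℕ => (S ^ k) v) = ⊤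

end Algebra

section Euclid

variable {V : Type} [NormedAddCommGroup V] [InnerProductSpace ℝ V] [FiniteDimensional ℝ V]

/-- Normalised algebras: left-symmetric, real-rooted, nondegenerate, and the inner product of `V`
is `h(x, y) = tr R_(x * y)`. -/
structure Good (m : V →ₗ[ℝ] V →ₗ[ℝ] V) : Prop where
  lsa : LSA m
  rr : RR m
  nd : ND m
  inn : ∀ x y : V, inner ℝ x y = tr m (m x y)

/-- The symmetric part of the left multiplication: `F_x = (L_x + L_xᵀ)/2`. -/
noncomputable def Fs (m : V →ₗ[ℝ] V →ₗ[ℝ] V) (x : V) : V →ₗ[ℝ] V :=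
  (1 / 2 : ℝ) • (m x + (m x).adjoint)

/-- `c ⊗ c : v ↦ ⟨c, v⟩ c`. -/
noncomputable def cc (c : V) : V →ₗ[ℝ] V :=
  LinearMap.toSpanSingleton ℝ V c ∘ₗ (innerₛₗ ℝ c)

/-- The set of normalised rank one elements. -/
def C1 (m : V →ₗ[ℝ] V →ₗ[ℝ] V) : Set V :=
  {c | tr m c = 1 ∧ pw m 2 c = 1 ∧ pw m 3 c = 1}

/-- Leaves: `a * c = ⟨c, a⟩ c`, `L_c` symmetric with eigenvalues `1` (simple, eigenvector `c`),
`1/2`, `0`. -/
structure Leaf (m : V →ₗ[ℝ] V →ₗ[ℝ] V) (c : V) : Prop where
  inn : inner ℝ c c = (1 : ℝ)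
  tr : tr m c = 1
  right : ∀ a, m a c = (inner ℝ c a : ℝ) • c
  symm : (m c).IsSymmetric
  quad : ∀ x, (2 : ℝ) • m c (m c x) = m c x + (inner ℝ c x : ℝ) • c

end Euclid

section Rep

variable {V : Type} [AddCommGroup V] [Module ℝ V]
variable {H : Type} [NormedAddCommGroup H] [InnerProductSpace ℝ H] [FiniteDimensional ℝ H]

/-- `S_y = r(y) + r(y)ᵀ`. -/
noncomputable def SS (r : V →ₗ[ℝ] (H →ₗ[ℝ] H)) (y : V) : H →ₗ[ℝ] H :=
  r y + (r y).adjoint

/-- Representations of a left-symmetric algebra. -/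
structure Rep (m : V →ₗ[ℝ] V →ₗ[ℝ] V) (r : V →ₗ[ℝ] (H →ₗ[ℝ] H)) : Prop where
  sym : ∀ y y', SS r (m y y') = r y ∘ₗ SS r y' + SS r y' ∘ₗ (r y).adjoint
  lie : ∀ y y', r (m y y' - m y' y) = r y ∘ₗ r y' - r y' ∘ₗ r y

end Rep

/-! ### Digraphs -/

/-- A finite acyclic digraph with marked vertices: the vertices are positive integers, the edges
go from larger to smaller numbers; `0` is the frozen sink, an edge `E i 0` is the mark of the
vertex `i`. -/
structure Dig where
  /-- The vertices. -/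
  vs : Finset ℕ
  /-- The edges. -/
  E : ℕ → ℕ → Prop
  zero : 0 ∉ vs
  down : ∀ i j, E i j → j < i ∧ i ∈ vs ∧ (j = 0 ∨ j ∈ vs)

namespace Dig

/-- Directed paths, as lists of numbers (the trivial paths are the lists with one element). -/
def PathP (D : Dig) (l : List ℕ) : Prop :=
  l ≠ [] ∧ (∀ i ∈ l, i = 0 ∨ i ∈ D.vs) ∧ l.IsChain D.E

/-- The type of all directed paths, without the trivial path at the frozen sink. -/
def Path (D : Dig) : Type := {l : List ℕ // D.PathP l ∧ l ≠ [0]}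

/-- The paths (the trivial path at the sink included) with first vertex in `T`. -/
def Q (D : Dig) (T : Finset ℕ) : Type := {l : List ℕ // D.PathP l ∧ ∃ i ∈ T, l.head? = some i}

open Classical in
/-- Extension of a family indexed by the paths: `0` at the trivial path at the sink (and outside
the paths). -/
noncomputable def ext0 (D : Dig) {A : Type} [Zero A] (x : D.Path → A) (l : List ℕ) : A :=
  if h : D.PathP l ∧ l ≠ [0] then x ⟨l, h⟩ else 0

/-- The entry in position `(p, q)`: the variable of the path `q / p` (the rest of `q`, starting at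
the end of `p`) if `p` is a prefix of `q`, symmetric, and `0` if no one is a prefix of the other. -/
def ent {A : Type} [Zero A] (x : List ℕ → A) (p q : List ℕ) : A :=
  if p <+: q then x (q.drop (p.length - 1))
  else if q <+: p then x (p.drop (q.length - 1)) else 0

/-- The symmetric matrix of the digraph, indexed by the paths. -/
noncomputable def mat (D : Dig) {A : Type} [Zero A] (x : D.Path → A) :
    Matrix D.Path D.Path A :=
  Matrix.of fun p q => ent (D.ext0 x) p.1 q.1

/-- The part of the matrix indexed by the paths with first vertex in `T` (with a zero row and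
column for the trivial path at the sink). -/
noncomputable def matQ (D : Dig) (T : Finset ℕ) {A : Type} [Zero A] (x : D.Path → A) :
    Matrix (D.Q T) (D.Q T) A :=
  Matrix.of fun p q => ent (D.ext0 x) p.1 q.1

theorem pairwise_of_isChain (D : Dig) {l : List ℕ} (hl : l.IsChain D.E) :
    l.Pairwise (fun a b => b < a) := by
  have h1 : l.IsChain (fun a b => b < a) := hl.imp fun a b h => (D.down a b h).1
  have : IsTrans ℕ (fun a b => b < a) := ⟨fun a b c h1 h2 => lt_trans h2 h1⟩
  exact List.isChain_iff_pairwise.1 h1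

instance finite_pathP (D : Dig) : Finite {l : List ℕ // D.PathP l} := by
  have hf : Finite {s : Finset ℕ // s ∈ (insert 0 D.vs).powerset} :=
    Finset.finite_toSet _
  refine Finite.of_injective (β := {s : Finset ℕ // s ∈ (insert 0 D.vs).powerset})
    (fun l => ⟨l.1.toFinset, ?_⟩) ?_
  · rw [Finset.mem_powerset]
    intro i hi
    rw [List.mem_toFinset] at hi
    exact Finset.mem_insert.2 (l.2.2.1 i hi)
  · intro l l' h
    have h1 := D.pairwise_of_isChain l.2.2.2
    have h2 := D.pairwise_of_isChain l'.2.2.2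
    have h3 : l.1.toFinset = l'.1.toFinset := congrArg Subtype.val h
    have h4 : l.1.Perm l'.1 := List.perm_of_nodup_nodup_toFinset_eq
      (h1.imp fun h => ne_of_gt h) (h2.imp fun h => ne_of_gt h) h3
    exact Subtype.ext (h4.eq_of_pairwise (fun a b _ _ h h' => absurd h (lt_asymm h')) h1 h2)

instance finite_path (D : Dig) : Finite D.Path :=
  Finite.of_injective (fun p : D.Path => (⟨p.1, p.2.1⟩ : {l : List ℕ // D.PathP l}))
    fun _ _ h => Subtype.ext (congrArg (fun l => l.1) h)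

instance finite_Q (D : Dig) (T : Finset ℕ) : Finite (D.Q T) :=
  Finite.of_injective (fun p : D.Q T => (⟨p.1, p.2.1⟩ : {l : List ℕ // D.PathP l}))
    fun _ _ h => Subtype.ext (congrArg (fun l => l.1) h)

noncomputable instance (D : Dig) : Fintype D.Path := Fintype.ofFinite _

noncomputable instance (D : Dig) (T : Finset ℕ) : Fintype (D.Q T) := Fintype.ofFinite _

instance (D : Dig) : DecidableEq D.Path := fun p q => decidable_of_iff (p.1 = q.1) Subtype.ext_iff.symm

instance (D : Dig) (T : Finset ℕ) : DecidableEq (D.Q T) :=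
  fun p q => decidable_of_iff (p.1 = q.1) Subtype.ext_iff.symm

/-- The collection of a digraph whose paths are numbered by `Fin n`: `σ_(k+1)` is the coefficient
of `t^(n-1-k)` in `det(t - M)`. -/
noncomputable def sig (D : Dig) {n : ℕ} (e : Fin n ≃ D.Path) (k : Fin n) :
    MvPolynomial (Fin n) ℝ :=
  (D.mat fun p => (X (e.symm p) : MvPolynomial (Fin n) ℝ)).charpoly.coeff (n - 1 - k)

/-- Isomorphism of marked digraphs. -/
def Iso (D D' : Dig) : Prop :=
  ∃ π : Equiv.Perm ℕ, π 0 = 0 ∧ (∀ i, i ∈ D.vs ↔ π i ∈ D'.vs) ∧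
    ∀ i j, D.E i j ↔ D'.E (π i) (π j)

/-- A model of the algebra `m` by the digraph `D`: `P(x, t) = det(t - M_D(Φ x))`. -/
def Model (D : Dig) {V : Type} [AddCommGroup V] [Module ℝ V] [Module.Finite ℝ V]
    (m : V →ₗ[ℝ] V →ₗ[ℝ] V) (Φ : V ≃ₗ[ℝ] (D.Path → ℝ)) : Prop :=
  ∀ x, (m.flip x).charpoly = (D.mat (Φ x)).charpoly

end Dig

/-- Real-rootedness: for all real `x` all complex zeros of `t^n + σ_1(x) t^(n-1) + … + σ_n(x)` are
real. -/
def RealRooted {n : ℕ} (σ : Fin n → MvPolynomial (Fin n) ℝ) : Prop :=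
  ∀ (x : Fin n → ℝ) (z : ℂ),
    z ^ n + ∑ k : Fin n, ((eval x (σ k) : ℝ) : ℂ) * z ^ (n - 1 - (k : ℕ)) = 0 → z.im = 0

end Pool.Agent.RRC
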