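import Pool.Agent.RRC.Defs

/-!
# Real-rooted admissible collections: definitions for part 2 (MP_835236_al)

* the extension `ℝ × H × V` of a left-symmetric algebra `V` by a representation `H`,
* matrices of operators in orthonormal bases, matrix representations,
* removal of a source from a digraph, the coordinates `x ↦ (x_[k], √2 x_(k.q), x')`.
-/

open Matrix

namespace Pool.Agent.RRC

section Ext

variable {V : Type} [AddCommGroup V] [Module ℝ V]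
variable {H : Type} [NormedAddCommGroup H] [InnerProductSpace ℝ H] [FiniteDimensional ℝ H]

theorem SS_add (r : V →ₗ[ℝ] (H →ₗ[ℝ] H)) (x y : V) : SS r (x + y) = SS r x + SS r y := by
  simp only [SS, map_add]
  abel

theorem SS_smul (r : V →ₗ[ℝ] (H →ₗ[ℝ] H)) (t : ℝ) (x : V) : SS r (t • x) = t • SS r x := by
  simp only [SS, map_smulₛₗ, RingHom.id_apply, smul_add]
  congr 1

/-- The extension of the algebra `(V, m)` by the representation `(H, r)`: the space `ℝ × H × V`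
with `(α, u, b) * (γ, w, y) = (α γ + ⟨u, w⟩, (α/2) w + S_y u + r(b) w, b * y)`. -/
noncomputable def extm (m : V →ₗ[ℝ] V →ₗ[ℝ] V) (r : V →ₗ[ℝ] (H →ₗ[ℝ] H)) :
    (ℝ × H × V) →ₗ[ℝ] (ℝ × H × V) →ₗ[ℝ] (ℝ × H × V) :=
  LinearMap.mk₂ ℝ (fun a x => (a.1 * x.1 + inner ℝ a.2.1 x.2.1,
      (a.1 / 2) • x.2.1 + SS r x.2.2 a.2.1 + r a.2.2 x.2.1, m a.2.2 x.2.2))
    (fun a a' x => by
      refine Prod.ext ?_ (Prod.ext ?_ ?_)
      · simp only [Prod.fst_add, Prod.snd_add, inner_add_left]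
        ring
      · simp only [Prod.fst_add, Prod.snd_add, map_add, LinearMap.add_apply, add_div, add_smul]
        abel
      · simp only [Prod.snd_add, map_add, LinearMap.add_apply])
    (fun t a x => by
      refine Prod.ext ?_ (Prod.ext ?_ ?_)
      · simp only [Prod.smul_fst, Prod.smul_snd, inner_smul_left, smul_eq_mul, RCLike.conj_to_real]
        ring
      · simp only [Prod.smul_fst, Prod.smul_snd, map_smul, LinearMap.smul_apply, smul_eq_mul,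
          smul_add, smul_smul, mul_div_assoc]
      · simp only [Prod.smul_snd, map_smul, LinearMap.smul_apply])
    (fun a x x' => by
      refine Prod.ext ?_ (Prod.ext ?_ ?_)
      · simp only [Prod.fst_add, Prod.snd_add, inner_add_right]
        ring
      · simp only [Prod.fst_add, Prod.snd_add, map_add, LinearMap.add_apply, smul_add, SS_add]
        abel
      · simp only [Prod.snd_add, map_add])
    (fun t a x => by
      refine Prod.ext ?_ (Prod.ext ?_ ?_)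
      · simp only [Prod.smul_fst, Prod.smul_snd, inner_smul_right, smul_eq_mul]
        ring
      · simp only [Prod.smul_fst, Prod.smul_snd, map_smul, LinearMap.smul_apply, SS_smul,
          smul_add, smul_smul]
        rw [mul_comm (a.1 / 2) t]
      · simp only [Prod.smul_snd, map_smul])

theorem extm_apply (m : V →ₗ[ℝ] V →ₗ[ℝ] V) (r : V →ₗ[ℝ] (H →ₗ[ℝ] H)) (a x : ℝ × H × V) :
    extm m r a x = (a.1 * x.1 + inner ℝ a.2.1 x.2.1,
      (a.1 / 2) • x.2.1 + SS r x.2.2 a.2.1 + r a.2.2 x.2.1, m a.2.2 x.2.2) := rfl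

/-- Isomorphisms of algebras. -/
def AIso {V' : Type} [AddCommGroup V'] [Module ℝ V'] (m : V →ₗ[ℝ] V →ₗ[ℝ] V)
    (m' : V' →ₗ[ℝ] V' →ₗ[ℝ] V') (Ψ : V ≃ₗ[ℝ] V') : Prop :=
  ∀ a b, Ψ (m a b) = m' (Ψ a) (Ψ b)

/-- The matrix of an operator in an orthonormal basis. -/
noncomputable def omat {ι : Type} [Fintype ι] (b : OrthonormalBasis ι ℝ H) (S : H →ₗ[ℝ] H) :
    Matrix ι ι ℝ :=
  Matrix.of fun i j => inner ℝ (b i) (S (b j))

/-- The symmetric matrix `[[γ, wᵀ/√2], [w/√2, S]]`. -/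
noncomputable def bmat {ι : Type} (γ : ℝ) (w : ι → ℝ) (S : Matrix ι ι ℝ) :
    Matrix (Unit ⊕ ι) (Unit ⊕ ι) ℝ :=
  Matrix.fromBlocks (Matrix.of fun _ _ => γ) (Matrix.of fun _ i => w i / √2)
    (Matrix.of fun i _ => w i / √2) S

/-- The operator `(α, u) ↦ (α γ + ⟨u, w⟩, (α/2) w + S u)` on `ℝ × H`. -/
noncomputable def blk (γ : ℝ) (w : H) (S : H →ₗ[ℝ] H) : (ℝ × H) →ₗ[ℝ] (ℝ × H) where
  toFun p := (p.1 * γ + inner ℝ p.2 w, (p.1 / 2) • w + S p.2)
  map_add' p q := by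
    refine Prod.ext ?_ ?_
    · simp only [Prod.fst_add, Prod.snd_add, inner_add_left]
      ring
    · simp only [Prod.fst_add, Prod.snd_add, map_add, add_div, add_smul]
      abel
  map_smul' t p := by
    refine Prod.ext ?_ ?_
    · simp only [Prod.smul_fst, Prod.smul_snd, inner_smul_left, smul_eq_mul, RCLike.conj_to_real,
        RingHom.id_apply]
      ring
    · simp only [Prod.smul_fst, Prod.smul_snd, map_smul, smul_eq_mul, smul_add, smul_smul,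
        mul_div_assoc, RingHom.id_apply]

/-- The situation of section 7: a representation `ρ` on `K` of the extension of `(V, m)` by the
representation `(W, r)`. -/
structure Sit {W : Type} [NormedAddCommGroup W] [InnerProductSpace ℝ W] [FiniteDimensional ℝ W]
    {K : Type} [NormedAddCommGroup K] [InnerProductSpace ℝ K] [FiniteDimensional ℝ K]
    (m : V →ₗ[ℝ] V →ₗ[ℝ] V) (r : V →ₗ[ℝ] (W →ₗ[ℝ] W)) (ρ : (ℝ × W × V) →ₗ[ℝ] (K →ₗ[ℝ] K)) :
    Prop where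
  rep : Rep m r
  rho : Rep (extm m r) ρ
  cycW : ∃ y, Cyc (SS r y)
  cyc : ∃ x, Cyc (SS ρ x)

/-- The conclusion of (7.1), (7.2), with `P = SS ρ (1, 0, 0)`. -/
structure V1c {W : Type} [NormedAddCommGroup W] [InnerProductSpace ℝ W] [FiniteDimensional ℝ W]
    {K : Type} [NormedAddCommGroup K] [InnerProductSpace ℝ K] [FiniteDimensional ℝ K]
    (ρ : (ℝ × W × V) →ₗ[ℝ] (K →ₗ[ℝ] K)) : Prop where
  idem : SS ρ (1, 0, 0) ∘ₗ SS ρ (1, 0, 0) = SS ρ (1, 0, 0)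
  rc : ρ (1, 0, 0) = (1 / 2 : ℝ) • SS ρ (1, 0, 0)
  Sy : ∀ y, SS ρ (1, 0, 0) ∘ₗ SS ρ (0, 0, y) = 0
  Sy' : ∀ y, SS ρ (0, 0, y) ∘ₗ SS ρ (1, 0, 0) = 0
  Sw : ∀ w, SS ρ (1, 0, 0) ∘ₗ SS ρ (0, w, 0) + SS ρ (0, w, 0) ∘ₗ SS ρ (1, 0, 0) =
    SS ρ (0, w, 0)
  rw : ∀ w, ρ (0, w, 0) = SS ρ (1, 0, 0) ∘ₗ SS ρ (0, w, 0)
  ry : ∀ y, ρ (0, 0, y) ∘ₗ SS ρ (1, 0, 0) = SS ρ (1, 0, 0) ∘ₗ ρ (0, 0, y)

/-- The conclusion of (7.5), second case: `H1 = ℝ u`, `K = ℝ u ⊕ {S_w u} ⊕ K2`. -/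
structure V3c {W : Type} [NormedAddCommGroup W] [InnerProductSpace ℝ W] [FiniteDimensional ℝ W]
    {K : Type} [NormedAddCommGroup K] [InnerProductSpace ℝ K] [FiniteDimensional ℝ K]
    (m : V →ₗ[ℝ] V →ₗ[ℝ] V) (r : V →ₗ[ℝ] (W →ₗ[ℝ] W)) (ρ : (ℝ × W × V) →ₗ[ℝ] (K →ₗ[ℝ] K))
    (u : K) (K2 : Submodule ℝ K) (r2 : V →ₗ[ℝ] (K2 →ₗ[ℝ] K2)) : Prop where
  norm : (inner ℝ u u : ℝ) = 1
  ub : ∀ w, (inner ℝ u (SS ρ (0, w, 0) u) : ℝ) = 0
  bb : ∀ w w', (inner ℝ (SS ρ (0, w, 0) u) (SS ρ (0, w', 0) u) : ℝ) = inner ℝ w w' / 2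
  mem2 : ∀ z, z ∈ K2 ↔ (inner ℝ u z : ℝ) = 0 ∧ ∀ w, (inner ℝ (SS ρ (0, w, 0) u) z : ℝ) = 0
  su : ∀ γ w y, SS ρ (γ, w, y) u = γ • u + SS ρ (0, w, 0) u
  sb : ∀ γ w y w', SS ρ (γ, w, y) (SS ρ (0, w', 0) u) =
    (inner ℝ w w' / 2 : ℝ) • u + SS ρ (0, SS r y w', 0) u
  s2 : ∀ γ w y (z : K2), SS ρ (γ, w, y) z = SS r2 y z
  rep : Rep m r2
  cyc : ∃ y, Cyc (SS r2 y)

/-- Representations by matrices. -/
structure MRep {ι : Type} [Fintype ι] (m : V →ₗ[ℝ] V →ₗ[ℝ] V) (r : V →ₗ[ℝ] Matrix ι ι ℝ) :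
    Prop where
  sym : ∀ y y', r (m y y') + (r (m y y'))ᵀ =
    r y * (r y' + (r y')ᵀ) + (r y' + (r y')ᵀ) * (r y)ᵀ
  lie : ∀ y y', r (m y y' - m y' y) = r y * r y' - r y' * r y

/-- The representation on the Euclidean space given by a representation by matrices. -/
noncomputable def toH {ι : Type} [Fintype ι] [DecidableEq ι] (r : V →ₗ[ℝ] Matrix ι ι ℝ) :
    V →ₗ[ℝ] (EuclideanSpace ℝ ι →ₗ[ℝ] EuclideanSpace ℝ ι) :=
  Matrix.toEuclideanLin.toLinearMap ∘ₗ r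

end Ext

namespace Dig

/-- `k` is a vertex without incoming edges. -/
def Source (D : Dig) (k : ℕ) : Prop := k ∈ D.vs ∧ ∀ i, ¬ D.E i k

open Classical in
/-- The targets of the edges starting at `k`. -/
noncomputable def out (D : Dig) (k : ℕ) : Finset ℕ := (insert 0 D.vs).filter fun j => D.E k j

theorem mem_out (D : Dig) (k j : ℕ) : j ∈ D.out k ↔ D.E k j := by
  classical
  unfold out
  rw [Finset.mem_filter, Finset.mem_insert]
  exact ⟨fun h => h.2, fun h => ⟨(D.down k j h).2.2, h⟩⟩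

/-- Remove the vertex `k`. -/
def del (D : Dig) (k : ℕ) : Dig where
  vs := D.vs.erase k
  E i j := D.E i j ∧ i ≠ k ∧ j ≠ k
  zero h := D.zero (Finset.mem_of_mem_erase h)
  down i j h := ⟨(D.down i j h.1).1, Finset.mem_erase.2 ⟨h.2.1, (D.down i j h.1).2.1⟩,
    (D.down i j h.1).2.2.imp id fun h' => Finset.mem_erase.2 ⟨h.2.2, h'⟩⟩

theorem PathP.of_del {D : Dig} {k : ℕ} {l : List ℕ} (h : (D.del k).PathP l) : D.PathP l :=
  ⟨h.1, fun i hi => (h.2.1 i hi).imp id Finset.mem_of_mem_erase, h.2.2.imp fun _ _ h => h.1⟩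

/-- The trivial path at the vertex `k`. -/
def pK (D : Dig) {k : ℕ} (hk : k ∈ D.vs) : D.Path :=
  ⟨[k], ⟨List.cons_ne_nil _ _, fun i hi => Or.inr (by
    rw [List.mem_singleton] at hi
    exact hi ▸ hk), List.isChain_singleton k⟩, fun h => D.zero (by
    have h1 : k = 0 := List.head_eq_of_cons_eq h
    exact h1 ▸ hk)⟩

/-- The path `k.q`. -/
def pQ (D : Dig) {k : ℕ} (hk : k ∈ D.vs) (q : (D.del k).Q (D.out k)) : D.Path :=
  ⟨k :: q.1, ⟨List.cons_ne_nil _ _, fun i hi => by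
    rcases List.mem_cons.1 hi with h | h
    · exact Or.inr (h ▸ hk)
    · exact q.2.1.of_del.2.1 i h, List.isChain_cons.2 ⟨fun y hy => by
      obtain ⟨i, hi, hi'⟩ := q.2.2
      rw [hi'] at hy
      have h1 : i = y := Option.some.inj hy
      exact h1 ▸ (D.mem_out k i).1 hi, q.2.1.of_del.2.2⟩⟩, fun h => D.zero (by
    have h1 : k = 0 := List.head_eq_of_cons_eq h
    exact h1 ▸ hk)⟩

/-- The paths of the digraph with `k` removed. -/
def pP (D : Dig) (k : ℕ) (p : (D.del k).Path) : D.Path := ⟨p.1, p.2.1.of_del, p.2.2⟩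

/-- The coordinates `x ↦ (x_[k], √2 x_(k.q), x')`. -/
noncomputable def co (D : Dig) {k : ℕ} (hk : k ∈ D.vs) :
    (D.Path → ℝ) →ₗ[ℝ]
      ℝ × EuclideanSpace ℝ ((D.del k).Q (D.out k)) × ((D.del k).Path → ℝ) where
  toFun x := (x (D.pK hk), WithLp.toLp 2 (fun q => √2 * x (D.pQ hk q)), fun p => x (D.pP k p))
  map_add' x y := by
    refine Prod.ext rfl (Prod.ext ?_ rfl)
    ext q
    exact mul_add _ _ _
  map_smul' t x := by
    refine Prod.ext rfl (Prod.ext ?_ rfl)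
    ext q
    exact mul_left_comm _ _ _

/-- A model of the algebra and of its representations: `P(x, t) = det(t - M_D(Φ x))`, and every
representation with a cyclic operator `S_x` is given by a set `T` of vertices: `S_x` is the part
of the matrix indexed by the paths with first vertex in `T`. -/
def Full (D : Dig) {V : Type} [AddCommGroup V] [Module ℝ V] [Module.Finite ℝ V]
    (m : V →ₗ[ℝ] V →ₗ[ℝ] V) (Φ : V ≃ₗ[ℝ] (D.Path → ℝ)) : Prop :=
  D.Model m Φ ∧ ∀ (H : Type) [NormedAddCommGroup H] [InnerProductSpace ℝ H]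
    [FiniteDimensional ℝ H] (r : V →ₗ[ℝ] (H →ₗ[ℝ] H)), Rep m r → (∃ x, Cyc (SS r x)) →
    ∃ (T : Finset ℕ) (b : OrthonormalBasis (D.Q T) ℝ H), T ⊆ insert 0 D.vs ∧
      ∀ x, omat b (SS r x) = D.matQ T (Φ x)

end Dig

end Pool.Agent.RRC
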