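import Pool.Agent.RRC.St2

/-!
# RRC, EV: linear equivalence in terms of characteristic polynomials
-/

open Matrix

namespace Pool.Agent.RRC

namespace Evx

theorem eval_ent (D : Dig) {n : ℕ} (e : Fin n ≃ D.Path) (y : Fin n → ℝ) (p q : D.Path) :
    MvPolynomial.eval y (D.mat (fun p => (MvPolynomial.X (e.symm p) : MvPolynomial (Fin n) ℝ)) p q) =
      D.mat (fun p => y (e.symm p)) p q := by
  have h : ∀ l : List ℕ, MvPolynomial.eval y
      (D.ext0 (fun p => (MvPolynomial.X (e.symm p) : MvPolynomial (Fin n) ℝ)) l) =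
      D.ext0 (fun p => y (e.symm p)) l := by
    intro l
    unfold Dig.ext0
    split_ifs with h
    · rw [MvPolynomial.eval_X]
    · rw [map_zero]
  change MvPolynomial.eval y (Dig.ent _ p.1 q.1) = Dig.ent _ p.1 q.1
  unfold Dig.ent
  split_ifs
  · exact h _
  · exact h _
  · exact map_zero _

theorem eval_sig (D : Dig) {n : ℕ} (e : Fin n ≃ D.Path) (y : Fin n → ℝ) (k : Fin n) :
    MvPolynomial.eval y (D.sig e k) =
      (D.mat fun p => y (e.symm p)).charpoly.coeff (n - 1 - k) := by
  have h : (D.mat fun p => (MvPolynomial.X (e.symm p) : MvPolynomial (Fin n) ℝ)).map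
      (MvPolynomial.eval y) = D.mat fun p => y (e.symm p) := by
    ext p q
    rw [Matrix.map_apply]
    exact eval_ent D e y p q
  rw [← h, Matrix.charpoly_map, Polynomial.coeff_map]
  rfl

theorem eval_aeval {n : ℕ} (A : Matrix (Fin n) (Fin n) ℝ) (x : Fin n → ℝ)
    (F : MvPolynomial (Fin n) ℝ) :
    MvPolynomial.eval x (MvPolynomial.aeval
      (fun j => ∑ l, (MvPolynomial.C (A j l) * MvPolynomial.X l : MvPolynomial (Fin n) ℝ)) F) =
      MvPolynomial.eval (A *ᵥ x) F := by
  induction F using MvPolynomial.induction_on with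
  | C a => rw [MvPolynomial.aeval_C, MvPolynomial.algebraMap_eq, MvPolynomial.eval_C,
      MvPolynomial.eval_C]
  | add p q hp hq => rw [map_add, map_add, map_add, hp, hq]
  | mul_X p i h =>
    rw [map_mul, map_mul, map_mul, h, MvPolynomial.aeval_X, MvPolynomial.eval_X, map_sum]
    congr 1
    simp only [map_mul, MvPolynomial.eval_C, MvPolynomial.eval_X]
    rfl

end Evx

theorem thm_Ev : St_Ev := by
  intro n D e σ
  constructor
  · rintro ⟨A, hA, h⟩
    refine ⟨(Matrix.toLinearEquiv' A (Matrix.invertibleOfIsUnitDet A hA)).trans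
      (LinearEquiv.funCongrLeft ℝ ℝ e.symm), fun x k => ?_⟩
    rw [← h k, Evx.eval_aeval, Evx.eval_sig]
    rfl
  · rintro ⟨A, h⟩
    let B : (Fin n → ℝ) ≃ₗ[ℝ] (Fin n → ℝ) := A.trans (LinearEquiv.funCongrLeft ℝ ℝ e)
    have hB : ∀ x, LinearMap.toMatrix' B.toLinearMap *ᵥ x = B x := fun x => by
      rw [LinearMap.toMatrix'_mulVec]
      rfl
    refine ⟨LinearMap.toMatrix' B.toLinearMap, ?_, fun k => ?_⟩
    · have h1 : LinearMap.toMatrix' B.toLinearMap * LinearMap.toMatrix' B.symm.toLinearMap = 1 := by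
        rw [← LinearMap.toMatrix'_comp, LinearEquiv.comp_symm, LinearMap.toMatrix'_id]
      exact Matrix.isUnit_det_of_right_inverse h1
    · refine MvPolynomial.funext fun x => ?_
      rw [Evx.eval_aeval, Evx.eval_sig, hB, ← h x k]
      have h2 : (fun p => B x (e.symm p)) = A x := by
        funext p
        change A x (e (e.symm p)) = A x p
        rw [e.apply_symm_apply]
      rw [h2]

end Pool.Agent.RRC
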