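import Pool.Agent.RRC.St1

/-!
# RRC, module N1b: second order identities at the elements of `C1`
-/

set_option autoImplicit false

noncomputable section

namespace Pool.Agent.RRC

open scoped Polynomial
open Polynomial Filter Topology

namespace N1b

theorem alg1 (e b c : ℝ) : (1 + e * c) ^ 3 - (1 + e * b) ^ 4 =
    e * (3 * c - 4 * b) + e ^ 2 * (3 * c ^ 2 + e * c ^ 3 - 6 * b ^ 2 - 4 * e * b ^ 3 -
      e ^ 2 * b ^ 4) := by ring

theorem alg2 (e a b : ℝ) : (1 + e * a) ^ 3 - (1 + e * b) ^ 2 =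
    e * (3 * a - 2 * b) + e ^ 2 * (3 * a ^ 2 + e * a ^ 3 - b ^ 2) := by ring

theorem alg3 (e x y z : ℝ) (h : z = x + y) : e * (e * x) + e ^ 2 * y = e ^ 2 * z := by
  subst h; ring

theorem alg4 (e G : ℝ) : (e ^ 2 * G) ^ 2 = e ^ 4 * G ^ 2 := by ring

theorem alg5 (K e G : ℝ) : K * (e ^ 2 * G) ^ 3 = e ^ 4 * (K * e ^ 2 * G ^ 3) := by ring

/-- The real variable part: a polynomial inequality near `0` gives an identity. -/
theorem real_key (K g f w q H r s : ℝ)
    (h : ∀ᶠ e : ℝ in 𝓝[≠] 0,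
      ((1 + 4 * e * g + 2 * e ^ 2 * H + 4 * e ^ 3 * r + e ^ 4 * s) ^ 3 -
          (1 + 3 * e * g + 3 * e ^ 2 * f + e ^ 3 * q) ^ 4) ^ 2 ≤
        K * ((1 + 2 * e * g + e ^ 2 * w) ^ 3 -
          (1 + 3 * e * g + 3 * e ^ 2 * f + e ^ 3 * q) ^ 2) ^ 3) :
    H = 2 * f + g ^ 2 := by
  obtain ⟨a, ha⟩ : ∃ a : ℝ → ℝ, ∀ e, a e = 2 * g + e * w := ⟨_, fun _ => rfl⟩
  obtain ⟨b, hb⟩ : ∃ b : ℝ → ℝ, ∀ e, b e = 3 * g + 3 * e * f + e ^ 2 * q := ⟨_, fun _ => rfl⟩
  obtain ⟨c, hc⟩ : ∃ c : ℝ → ℝ, ∀ e, c e = 4 * g + 2 * e * H + 4 * e ^ 2 * r + e ^ 3 * s :=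
    ⟨_, fun _ => rfl⟩
  obtain ⟨dl, hdl⟩ : ∃ dl : ℝ → ℝ, ∀ e, dl e = (3 * w - 6 * f - 2 * e * q) +
    (3 * a e ^ 2 + e * a e ^ 3 - b e ^ 2) := ⟨_, fun _ => rfl⟩
  obtain ⟨gm, hgm⟩ : ∃ gm : ℝ → ℝ, ∀ e, gm e =
      (6 * H - 12 * f + 12 * e * r - 4 * e * q + 3 * e ^ 2 * s) +
      (3 * c e ^ 2 + e * c e ^ 3 - 6 * b e ^ 2 - 4 * e * b e ^ 3 - e ^ 2 * b e ^ 4) :=
    ⟨_, fun _ => rfl⟩
  have ca : Continuous a := by
    have : a = fun e => 2 * g + e * w := funext ha
    rw [this]; fun_prop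
  have cb : Continuous b := by
    have : b = fun e => 3 * g + 3 * e * f + e ^ 2 * q := funext hb
    rw [this]; fun_prop
  have cc : Continuous c := by
    have : c = fun e => 4 * g + 2 * e * H + 4 * e ^ 2 * r + e ^ 3 * s := funext hc
    rw [this]; fun_prop
  have cg : Continuous gm := by
    have : gm = fun e => (6 * H - 12 * f + 12 * e * r - 4 * e * q + 3 * e ^ 2 * s) +
      (3 * c e ^ 2 + e * c e ^ 3 - 6 * b e ^ 2 - 4 * e * b e ^ 3 - e ^ 2 * b e ^ 4) := funext hgm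
    rw [this]; fun_prop
  have cd : Continuous dl := by
    have : dl = fun e => (3 * w - 6 * f - 2 * e * q) +
      (3 * a e ^ 2 + e * a e ^ 3 - b e ^ 2) := funext hdl
    rw [this]; fun_prop
  have hle : ∀ᶠ e : ℝ in 𝓝[≠] 0, gm e ^ 2 ≤ K * e ^ 2 * dl e ^ 3 := by
    filter_upwards [h, self_mem_nhdsWithin] with e he hne
    have hne' : e ≠ 0 := hne
    have h4 : 0 < e ^ 4 := by positivity
    have p2 : 1 + 2 * e * g + e ^ 2 * w = 1 + e * a e := by rw [ha]; ring
    have p3 : 1 + 3 * e * g + 3 * e ^ 2 * f + e ^ 3 * q = 1 + e * b e := by rw [hb]; ring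
    have p4 : 1 + 4 * e * g + 2 * e ^ 2 * H + 4 * e ^ 3 * r + e ^ 4 * s = 1 + e * c e := by
      rw [hc]; ring
    have q1 : 3 * a e - 2 * b e = e * (3 * w - 6 * f - 2 * e * q) := by rw [ha, hb]; ring
    have q2 : 3 * c e - 4 * b e =
        e * (6 * H - 12 * f + 12 * e * r - 4 * e * q + 3 * e ^ 2 * s) := by rw [hc, hb]; ring
    rw [p2, p3, p4, alg1, alg2, q1, q2] at he
    rw [alg3 _ _ _ _ (hgm e), alg3 _ _ _ _ (hdl e), alg4, alg5] at he
    exact le_of_mul_le_mul_left he h4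
  have t1 : Tendsto (fun e => gm e ^ 2) (𝓝[≠] 0) (𝓝 (gm 0 ^ 2)) :=
    ((cg.pow 2).tendsto 0).mono_left nhdsWithin_le_nhds
  have t2 : Tendsto (fun e => K * e ^ 2 * dl e ^ 3) (𝓝[≠] 0) (𝓝 (K * 0 ^ 2 * dl 0 ^ 3)) := by
    have : Continuous fun e => K * e ^ 2 * dl e ^ 3 := by fun_prop
    exact (this.tendsto 0).mono_left nhdsWithin_le_nhds
  have h0 : gm 0 ^ 2 ≤ K * 0 ^ 2 * dl 0 ^ 3 := le_of_tendsto_of_tendsto t1 t2 hle
  have h1 : gm 0 = 0 := by
    have h0' : gm 0 ^ 2 ≤ 0 := by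
      refine h0.trans (le_of_eq ?_)
      rw [zero_pow two_ne_zero, mul_zero, zero_mul]
    exact pow_eq_zero_iff (two_ne_zero) |>.1 (le_antisymm h0' (sq_nonneg _))
  have h2 : gm 0 = 6 * (H - 2 * f - g ^ 2) := by
    rw [hgm, hc, hb]; ring
  have h3 : 6 * (H - 2 * f - g ^ 2) = 0 := by rw [← h2, h1]
  linarith

section Tr

variable {V : Type} [AddCommGroup V] [Module ℝ V]

theorem tr2 (A B : V →ₗ[ℝ] V) (e : ℝ) : LinearMap.trace ℝ V ((A + e • B) ^ 2) =
    LinearMap.trace ℝ V (A ^ 2) + 2 * e * LinearMap.trace ℝ V (A * B) +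
      e ^ 2 * LinearMap.trace ℝ V (B ^ 2) := by
  have h : (A + e • B) ^ 2 = A ^ 2 + e • (A * B) + e • (B * A) + e ^ 2 • (B ^ 2) := by
    simp only [pow_two, mul_add, add_mul, smul_mul_assoc, mul_smul_comm, smul_add, smul_smul]
    abel
  rw [h]
  simp only [map_add, map_smul, smul_eq_mul]
  rw [LinearMap.trace_mul_comm ℝ B A]
  ring

theorem tr3 (A B : V →ₗ[ℝ] V) (e : ℝ) : LinearMap.trace ℝ V ((A + e • B) ^ 3) =
    LinearMap.trace ℝ V (A ^ 3) + 3 * e * LinearMap.trace ℝ V (A * A * B) +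
      3 * e ^ 2 * LinearMap.trace ℝ V (A * B * B) + e ^ 3 * LinearMap.trace ℝ V (B ^ 3) := by
  have h : (A + e • B) ^ 3 = A ^ 3 + e • (A * A * B) + e • (A * B * A) + e • (B * A * A) +
      e ^ 2 • (A * B * B) + e ^ 2 • (B * A * B) + e ^ 2 • (B * B * A) + e ^ 3 • (B ^ 3) := by
    simp only [pow_succ, pow_zero, one_mul, mul_add, add_mul, smul_mul_assoc, mul_smul_comm,
      smul_add, smul_smul, mul_assoc]
    abel
  rw [h]
  simp only [map_add, map_smul, smul_eq_mul]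
  have c1 : LinearMap.trace ℝ V (A * B * A) = LinearMap.trace ℝ V (A * A * B) := by
    rw [LinearMap.trace_mul_comm ℝ (A * B) A, ← mul_assoc]
  have c2 : LinearMap.trace ℝ V (B * A * A) = LinearMap.trace ℝ V (A * A * B) := by
    rw [mul_assoc, LinearMap.trace_mul_comm ℝ B (A * A)]
  have c3 : LinearMap.trace ℝ V (B * A * B) = LinearMap.trace ℝ V (A * B * B) := by
    rw [mul_assoc, LinearMap.trace_mul_comm ℝ B (A * B)]
  have c4 : LinearMap.trace ℝ V (B * B * A) = LinearMap.trace ℝ V (A * B * B) := by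
    rw [LinearMap.trace_mul_comm ℝ (B * B) A, ← mul_assoc]
  rw [c1, c2, c3, c4]
  ring

theorem tr4 (A B : V →ₗ[ℝ] V) (e : ℝ) : LinearMap.trace ℝ V ((A + e • B) ^ 4) =
    LinearMap.trace ℝ V (A ^ 4) + 4 * e * LinearMap.trace ℝ V (A * A * A * B) +
      2 * e ^ 2 * LinearMap.trace ℝ V (B * A * A * B + A * B * A * B + A * A * B * B) +
      4 * e ^ 3 * LinearMap.trace ℝ V (A * B * B * B) + e ^ 4 * LinearMap.trace ℝ V (B ^ 4) := by
  have h : (A + e • B) ^ 4 = A ^ 4 + e • (A * A * A * B) + e • (A * A * B * A) +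
      e • (A * B * A * A) + e • (B * A * A * A) +
      e ^ 2 • (A * A * B * B) + e ^ 2 • (A * B * A * B) + e ^ 2 • (A * B * B * A) +
      e ^ 2 • (B * A * A * B) + e ^ 2 • (B * A * B * A) + e ^ 2 • (B * B * A * A) +
      e ^ 3 • (A * B * B * B) + e ^ 3 • (B * A * B * B) + e ^ 3 • (B * B * A * B) +
      e ^ 3 • (B * B * B * A) + e ^ 4 • (B ^ 4) := by
    simp only [pow_succ, pow_zero, one_mul, mul_add, add_mul, smul_mul_assoc, mul_smul_comm,
      smul_add, smul_smul, mul_assoc]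
    abel
  rw [h]
  simp only [map_add, map_smul, smul_eq_mul]
  have cyc : ∀ X Y : V →ₗ[ℝ] V, LinearMap.trace ℝ V (X * Y) = LinearMap.trace ℝ V (Y * X) :=
    fun X Y => LinearMap.trace_mul_comm ℝ X Y
  have a1 : LinearMap.trace ℝ V (A * A * B * A) = LinearMap.trace ℝ V (A * A * A * B) := by
    rw [cyc (A * A * B) A]; simp only [mul_assoc]
  have a2 : LinearMap.trace ℝ V (A * B * A * A) = LinearMap.trace ℝ V (A * A * A * B) := by
    rw [mul_assoc (A * B), cyc (A * B) (A * A)]; simp only [mul_assoc]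
  have a3 : LinearMap.trace ℝ V (B * A * A * A) = LinearMap.trace ℝ V (A * A * A * B) := by
    rw [mul_assoc (B * A), mul_assoc B, cyc B]; simp only [mul_assoc]
  have b1 : LinearMap.trace ℝ V (A * B * B * A) = LinearMap.trace ℝ V (A * A * B * B) := by
    rw [cyc (A * B * B) A]; simp only [mul_assoc]
  have b2 : LinearMap.trace ℝ V (B * A * A * B) = LinearMap.trace ℝ V (A * A * B * B) := by
    rw [mul_assoc (B * A), mul_assoc B, cyc B]; simp only [mul_assoc]
  have b3 : LinearMap.trace ℝ V (B * B * A * A) = LinearMap.trace ℝ V (A * A * B * B) := by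
    rw [mul_assoc (B * B), cyc (B * B) (A * A)]; simp only [mul_assoc]
  have b4 : LinearMap.trace ℝ V (B * A * B * A) = LinearMap.trace ℝ V (A * B * A * B) := by
    rw [cyc (B * A * B) A]; simp only [mul_assoc]
  have d1 : LinearMap.trace ℝ V (B * A * B * B) = LinearMap.trace ℝ V (A * B * B * B) := by
    rw [mul_assoc (B * A), mul_assoc B, cyc B]; simp only [mul_assoc]
  have d2 : LinearMap.trace ℝ V (B * B * A * B) = LinearMap.trace ℝ V (A * B * B * B) := by
    rw [mul_assoc (B * B), cyc (B * B) (A * B)]; simp only [mul_assoc]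
  have d3 : LinearMap.trace ℝ V (B * B * B * A) = LinearMap.trace ℝ V (A * B * B * B) := by
    rw [cyc (B * B * B) A]; simp only [mul_assoc]
  rw [a1, a2, a3, b1, b2, b3, b4, d1, d2, d3]
  ring

/-- The eigenvalues as a family. -/
theorem exists_fam [FiniteDimensional ℝ V] (hTr : St_Tr) (T : V →ₗ[ℝ] V) (hT : T.charpoly.Splits) :
    ∃ (n : ℕ) (l : Fin n → ℝ), ∀ k : ℕ, LinearMap.trace ℝ V (T ^ k) = ∑ i, l i ^ k := by
  obtain ⟨h1, -⟩ := hTr V T hT
  obtain ⟨L, hL⟩ : ∃ L : List ℝ, (L : Multiset ℝ) = T.charpoly.roots := Quotient.exists_rep _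
  refine ⟨L.length, L.get, fun k => ?_⟩
  have h := h1 (X ^ k)
  rw [map_pow, aeval_X] at h
  rw [h, ← hL]
  simp only [eval_pow, eval_X, Multiset.map_coe, Multiset.sum_coe]
  rw [← List.sum_ofFn]
  congr 1
  apply List.ext_get
  · simp
  · intro i h1 h2
    simp

end Tr

end N1b

open N1b in
theorem thm_N1b (hTr : St_Tr) (hDT : St_DT) (hK1 : St_K1) (hN1a : St_N1a) (hNUM : St_NUM) :
    St_N1b := by
  intro V _ _ _ m hm c hc
  obtain ⟨K, hK⟩ := hNUM
  obtain ⟨hi1, hi2, hi3, hi4, hi5⟩ := hN1a V m hm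
  obtain ⟨hk1, hk2, hk3, hk4, hk5, hk6, hk7⟩ := hK1 V m hm.lsa
  obtain ⟨hc1, hc2, hc3, hc4⟩ := hi5 c hc
  have htr := hm.inn
  -- all traces of powers of `R_c` are `1`
  have hone : ∀ k : ℕ, 1 ≤ k → LinearMap.trace ℝ V (m.flip c ^ k) = 1 := by
    obtain ⟨-, -, -, -, h5⟩ := hTr V (m.flip c) (hm.rr c)
    have t1 : LinearMap.trace ℝ V (m.flip c) = 1 := hc.1
    have t2 : LinearMap.trace ℝ V (m.flip c ^ 2) = 1 := hc.2.1
    have t3 : LinearMap.trace ℝ V (m.flip c ^ 3) = 1 := hc.2.2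
    exact (h5 t1 t2 t3).2.2
  -- the diagonal case
  have hdiag : ∀ v : V, LinearMap.trace ℝ V (m.flip v * m.flip c * m.flip c * m.flip v +
        m.flip c * m.flip v * m.flip c * m.flip v + m.flip c * m.flip c * m.flip v * m.flip v) =
      2 * inner ℝ (Fs m c v) v + inner ℝ c v ^ 2 := by
    intro v
    have g1 : LinearMap.trace ℝ V (m.flip c * m.flip v) = inner ℝ c v := (hi1 c v).symm
    have g2 : LinearMap.trace ℝ V (m.flip c * m.flip c * m.flip v) = inner ℝ c v := by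
      have := hk2 2 c v
      rw [hc1 2 v (by norm_num), pow_two] at this
      exact this
    have g3 : LinearMap.trace ℝ V (m.flip c * m.flip c * m.flip c * m.flip v) = inner ℝ c v := by
      have := hk2 3 c v
      rw [hc1 3 v (by norm_num), pow_succ, pow_two] at this
      exact this
    have f1 : LinearMap.trace ℝ V (m.flip c * m.flip v * m.flip v) = inner ℝ (Fs m c v) v := by
      rw [hi2 c v v, map_add]; ring
    refine real_key K (inner ℝ c v) (inner ℝ (Fs m c v) v) (LinearMap.trace ℝ V (m.flip v ^ 2))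
      (LinearMap.trace ℝ V (m.flip v ^ 3)) _
      (LinearMap.trace ℝ V (m.flip c * m.flip v * m.flip v * m.flip v))
      (LinearMap.trace ℝ V (m.flip v ^ 4)) ?_
    have hflip : ∀ e : ℝ, m.flip (c + e • v) = m.flip c + e • m.flip v := by
      intro e; rw [map_add, map_smul]
    have e2 : ∀ e : ℝ, LinearMap.trace ℝ V (m.flip (c + e • v) ^ 2) =
        1 + 2 * e * inner ℝ c v + e ^ 2 * LinearMap.trace ℝ V (m.flip v ^ 2) := by
      intro e
      rw [hflip, tr2, g1, hone 2 (by norm_num)]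
    have e3 : ∀ e : ℝ, LinearMap.trace ℝ V (m.flip (c + e • v) ^ 3) =
        1 + 3 * e * inner ℝ c v + 3 * e ^ 2 * inner ℝ (Fs m c v) v +
          e ^ 3 * LinearMap.trace ℝ V (m.flip v ^ 3) := by
      intro e
      rw [hflip, tr3, g2, f1, hone 3 (by norm_num)]
    have e4 : ∀ e : ℝ, LinearMap.trace ℝ V (m.flip (c + e • v) ^ 4) =
        1 + 4 * e * inner ℝ c v + 2 * e ^ 2 *
          LinearMap.trace ℝ V (m.flip v * m.flip c * m.flip c * m.flip v +
            m.flip c * m.flip v * m.flip c * m.flip v +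
            m.flip c * m.flip c * m.flip v * m.flip v) +
          4 * e ^ 3 * LinearMap.trace ℝ V (m.flip c * m.flip v * m.flip v * m.flip v) +
          e ^ 4 * LinearMap.trace ℝ V (m.flip v ^ 4) := by
      intro e
      rw [hflip, tr4, g3, hone 4 (by norm_num)]
    -- `p_2` is near `1`
    have hcont : Continuous fun e : ℝ =>
        1 + 2 * e * inner ℝ c v + e ^ 2 * LinearMap.trace ℝ V (m.flip v ^ 2) := by fun_prop
    have h0 : Tendsto (fun e : ℝ => 1 + 2 * e * inner ℝ c v +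
        e ^ 2 * LinearMap.trace ℝ V (m.flip v ^ 2)) (𝓝[≠] 0) (𝓝 1) := by
      have := (hcont.tendsto 0).mono_left (nhdsWithin_le_nhds (s := {0}ᶜ))
      simpa using this
    have hn : ∀ᶠ e : ℝ in 𝓝[≠] 0, (1 + 2 * e * inner ℝ c v +
        e ^ 2 * LinearMap.trace ℝ V (m.flip v ^ 2)) ∈ Set.Icc (1 / 2 : ℝ) 2 :=
      h0 (Icc_mem_nhds (by norm_num) (by norm_num))
    filter_upwards [hn] with e he
    obtain ⟨n, l, hl⟩ := exists_fam hTr (m.flip (c + e • v)) (hm.rr (c + e • v))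
    rw [← e2 e, hl 2] at he
    have := (hK n l he.1 he.2).2
    rw [← hl 2, ← hl 3, ← hl 4, e2 e, e3 e, e4 e] at this
    exact this
  have hsymm : ∀ x y : V, inner ℝ (Fs m c x) y = (inner ℝ (Fs m c y) x : ℝ) := by
    intro x y
    rw [real_inner_comm]
    exact (hi4 c y x).symm
  -- polarisation
  have h1 : ∀ u v : V, LinearMap.trace ℝ V (m.flip u * m.flip c * m.flip c * m.flip v +
        m.flip c * m.flip u * m.flip c * m.flip v + m.flip c * m.flip c * m.flip u * m.flip v) =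
      2 * inner ℝ (Fs m c u) v + inner ℝ c u * inner ℝ c v := by
    intro u v
    have cyc : ∀ X Y : V →ₗ[ℝ] V, LinearMap.trace ℝ V (X * Y) = LinearMap.trace ℝ V (Y * X) :=
      fun X Y => LinearMap.trace_mul_comm ℝ X Y
    have hp := hdiag (u + v)
    have hu := hdiag u
    have hv := hdiag v
    have s1 : LinearMap.trace ℝ V (m.flip v * m.flip c * m.flip c * m.flip u) =
        LinearMap.trace ℝ V (m.flip c * m.flip c * m.flip u * m.flip v) := by
      rw [mul_assoc (m.flip v * m.flip c), mul_assoc (m.flip v), cyc (m.flip v)]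
      simp only [mul_assoc]
    have s2 : LinearMap.trace ℝ V (m.flip c * m.flip v * m.flip c * m.flip u) =
        LinearMap.trace ℝ V (m.flip c * m.flip u * m.flip c * m.flip v) := by
      rw [mul_assoc (m.flip c * m.flip v), cyc (m.flip c * m.flip v)]
      simp only [mul_assoc]
    have s3 : LinearMap.trace ℝ V (m.flip c * m.flip c * m.flip v * m.flip u) =
        LinearMap.trace ℝ V (m.flip u * m.flip c * m.flip c * m.flip v) := by
      rw [cyc _ (m.flip u)]
      simp only [mul_assoc]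
    have hF : inner ℝ (Fs m c (u + v)) (u + v) = inner ℝ (Fs m c u) u +
        2 * inner ℝ (Fs m c u) v + (inner ℝ (Fs m c v) v : ℝ) := by
      rw [map_add, inner_add_left, inner_add_right, inner_add_right, hsymm v u]
      ring
    simp only [map_add, mul_add, add_mul] at hp hu hv ⊢
    have hF' : inner ℝ (Fs m c u + Fs m c v) (u + v) = inner ℝ (Fs m c u) u +
        2 * inner ℝ (Fs m c u) v + (inner ℝ (Fs m c v) v : ℝ) := by
      rw [← map_add]; exact hF
    have hI : (inner ℝ c (u + v) : ℝ) = inner ℝ c u + inner ℝ c v := inner_add_right _ _ _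
    rw [hF', hI, s1, s2, s3] at hp
    linarith
  refine ⟨h1, fun v => ?_⟩
  refine ext_inner_right ℝ fun u => ?_
  have hA := hk6 c u v
  rw [h1 u v] at hA
  have r1 : tr m (m (m (m v c) c) u) = inner ℝ (m (m v c) c) u := (htr _ _).symm
  have r2 : tr m (m (m (m v c) u) c) = inner ℝ c (m (m v c) u) := by
    have := hc1 1 (m (m v c) u) le_rfl
    rwa [pow_one, LinearMap.flip_apply] at this
  have r3 : tr m (m (m (m v u) c) c) = inner ℝ c (m v u) := by
    have := hc1 2 (m v u) (by norm_num)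
    rwa [pow_two, Module.End.mul_apply, LinearMap.flip_apply, LinearMap.flip_apply] at this
  rw [map_add, map_add, r1, r2, r3, hi3 c (m v c) u, hi3 c v u] at hA
  rw [inner_sub_left, inner_smul_left, inner_smul_left]
  simp only [conj_trivial]
  rw [hsymm v u] at hA
  nlinarith [hA]

end Pool.Agent.RRC
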