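import Pool.Agent.RRC.St1

/-!
# RRC, N4a: the norm of the deformed products is constant
-/

set_option autoImplicit false

noncomputable section

namespace Pool.Agent.RRC

namespace N4a

variable {V : Type} [NormedAddCommGroup V] [InnerProductSpace ℝ V] [FiniteDimensional ℝ V]

omit [FiniteDimensional ℝ V] in
theorem cc_apply (c v : V) : cc c v = (inner ℝ c v : ℝ) • c := by
  simp [cc]

theorem Ae_apply (m : V →ₗ[ℝ] V →ₗ[ℝ] V) (c : V) (e : ℝ) (x : V) :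
    Ae m c e x = x + (2 * (e - 1)) • Fs m c x + ((e - 1) ^ 2 * inner ℝ c x) • c := by
  simp only [Ae, LinearMap.add_apply, LinearMap.sub_apply, LinearMap.smul_apply, cc_apply,
    Module.End.one_apply]
  module

/-- The data about `D = F_c` and `c`. -/
structure Dat (D : V →ₗ[ℝ] V) (c : V) : Prop where
  sym : ∀ x y : V, inner ℝ (D x) y = (inner ℝ x (D y) : ℝ)
  Dc : D c = c
  nc : inner ℝ c c = (1 : ℝ)
  quad : ∀ x : V, D (D x) = (1 / 2 : ℝ) • D x + ((1 / 2 : ℝ) * inner ℝ c x) • c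

omit [FiniteDimensional ℝ V] in
theorem Dat.cD {D : V →ₗ[ℝ] V} {c : V} (h : Dat D c) (x : V) :
    inner ℝ c (D x) = (inner ℝ c x : ℝ) := by
  rw [← h.sym, h.Dc]

theorem Ae_comm_D {m : V →ₗ[ℝ] V →ₗ[ℝ] V} {c : V} (h : Dat (Fs m c) c) (e : ℝ) (x : V) :
    Ae m c e (Fs m c x) = Fs m c (Ae m c e x) := by
  rw [Ae_apply, Ae_apply]
  simp only [map_add, map_smul, h.Dc, h.cD]

theorem inner_Ae {m : V →ₗ[ℝ] V →ₗ[ℝ] V} {c : V} (h : Dat (Fs m c) c) (e : ℝ) (x : V) :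
    inner ℝ c (Ae m c e x) = e ^ 2 * (inner ℝ c x : ℝ) := by
  rw [Ae_apply]
  simp only [inner_add_right, inner_smul_right, h.cD, h.nc]
  ring

theorem Ae_mul {m : V →ₗ[ℝ] V →ₗ[ℝ] V} {c : V} (h : Dat (Fs m c) c) (e f : ℝ) (x : V) :
    Ae m c e (Ae m c f x) = Ae m c (e * f) x := by
  rw [Ae_apply m c e, inner_Ae h, Ae_apply m c f, Ae_apply m c (e * f)]
  simp only [map_add, map_smul, h.Dc, h.quad]
  module

theorem Ae_one (m : V →ₗ[ℝ] V →ₗ[ℝ] V) (c x : V) : Ae m c 1 x = x := by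
  rw [Ae_apply]
  simp

theorem Ae_inv {m : V →ₗ[ℝ] V →ₗ[ℝ] V} {c : V} (h : Dat (Fs m c) c) {e : ℝ} (he : e ≠ 0)
    (x : V) : Ae m c e (Ae m c e⁻¹ x) = x := by
  rw [Ae_mul h, mul_inv_cancel₀ he, Ae_one]

theorem Ae_inv' {m : V →ₗ[ℝ] V →ₗ[ℝ] V} {c : V} (h : Dat (Fs m c) c) {e : ℝ} (he : e ≠ 0)
    (x : V) : Ae m c e⁻¹ (Ae m c e x) = x := by
  rw [Ae_mul h, inv_mul_cancel₀ he, Ae_one]

theorem Ae_sym {m : V →ₗ[ℝ] V →ₗ[ℝ] V} {c : V} (h : Dat (Fs m c) c) (e : ℝ) (x y : V) :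
    inner ℝ (Ae m c e x) y = (inner ℝ x (Ae m c e y) : ℝ) := by
  rw [Ae_apply, Ae_apply]
  simp only [inner_add_left, inner_add_right, inner_smul_left, inner_smul_right, h.sym,
    conj_trivial]
  rw [real_inner_comm c x]
  ring

/-- derivative of a linear map applied to a curve -/
theorem hasDerivAt_lin (D : V →ₗ[ℝ] V) {g : ℝ → V} {g' : V} {e : ℝ} (hg : HasDerivAt g g' e) :
    HasDerivAt (fun r => D (g r)) (D g') e := by
  have := (LinearMap.toContinuousLinearMap D).hasFDerivAt (x := g e) |>.comp_hasDerivAt e hg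
  simpa [Function.comp_def] using this

theorem hasDerivAt_bil (m : V →ₗ[ℝ] V →ₗ[ℝ] V) {u v : ℝ → V} {u' v' : V} {e : ℝ}
    (hu : HasDerivAt u u' e) (hv : HasDerivAt v v' e) :
    HasDerivAt (fun r => m (u r) (v r)) (m u' (v e) + m (u e) v') e := by
  let mC : V →L[ℝ] V →L[ℝ] V :=
    LinearMap.toContinuousLinearMap
      ((LinearMap.toContinuousLinearMap : (V →ₗ[ℝ] V) ≃ₗ[ℝ] V →L[ℝ] V).toLinearMap ∘ₗ m)
  have hm : ∀ a x, mC a x = m a x := fun a x => rfl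
  have h1 : HasDerivAt (fun r => mC (u r)) (mC u') e :=
    mC.hasFDerivAt.comp_hasDerivAt e hu
  have h2 := h1.clm_apply hv
  simpa only [hm] using h2

theorem hasDerivAt_Ae {m : V →ₗ[ℝ] V →ₗ[ℝ] V} {c : V} (h : Dat (Fs m c) c) {e : ℝ} (he : e ≠ 0)
    (x : V) : HasDerivAt (fun r => Ae m c r x) ((2 / e) • Ae m c e (Fs m c x)) e := by
  have h1 : HasDerivAt (fun r : ℝ => x + (2 * (r - 1)) • Fs m c x +
      ((r - 1) ^ 2 * inner ℝ c x) • c)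
      ((2 * 1 : ℝ) • Fs m c x + ((2 * (e - 1) * 1) * inner ℝ c x) • c) e := by
    have h2 : HasDerivAt (fun r : ℝ => 2 * (r - 1)) (2 * 1) e :=
      ((hasDerivAt_id e).sub_const 1).const_mul 2
    have h3 : HasDerivAt (fun r : ℝ => (r - 1) ^ 2 * (inner ℝ c x : ℝ))
        ((2 * (e - 1) * 1) * inner ℝ c x) e := by
      have h4 := (((hasDerivAt_id e).sub_const 1).pow 2).mul_const (inner ℝ c x : ℝ)
      simpa using h4
    have h5 := (h2.smul_const (Fs m c x)).const_add x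
    exact h5.add (h3.smul_const c)
  have h6 : (fun r => Ae m c r x) = fun r : ℝ => x + (2 * (r - 1)) • Fs m c x +
      ((r - 1) ^ 2 * inner ℝ c x) • c := funext fun r => Ae_apply m c r x
  rw [h6]
  have h7 : (2 / e) • Ae m c e (Fs m c x) =
      (2 * 1 : ℝ) • Fs m c x + ((2 * (e - 1) * 1) * inner ℝ c x) • c := by
    rw [Ae_apply, h.quad, h.cD]
    match_scalars <;> field_simp <;> ring
  rw [h7]
  exact h1

theorem hasDerivAt_Ae_inv {m : V →ₗ[ℝ] V →ₗ[ℝ] V} {c : V} (h : Dat (Fs m c) c) {e : ℝ}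
    (he : e ≠ 0) {g : ℝ → V} {g' : V} (hg : HasDerivAt g g' e) :
    HasDerivAt (fun r => Ae m c r⁻¹ (g r))
      (Ae m c e⁻¹ g' - (2 / e) • Fs m c (Ae m c e⁻¹ (g e))) e := by
  have h1 : HasDerivAt (fun r : ℝ => r⁻¹ - 1) (-(e ^ 2)⁻¹) e := (hasDerivAt_inv he).sub_const 1
  have h2 : HasDerivAt (fun r : ℝ => 2 * (r⁻¹ - 1)) (2 * -(e ^ 2)⁻¹) e := h1.const_mul 2
  have h3 : HasDerivAt (fun r : ℝ => (r⁻¹ - 1) ^ 2) (2 * (e⁻¹ - 1) * -(e ^ 2)⁻¹) e := by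
    simpa using h1.fun_pow 2
  have h4 : HasDerivAt (fun r => Fs m c (g r)) (Fs m c g') e := hasDerivAt_lin _ hg
  have h5 : HasDerivAt (fun r => (inner ℝ c (g r) : ℝ)) (inner ℝ c g') e := by
    have := (hasDerivAt_const e c).inner ℝ hg
    simpa using this
  have h6 := (hg.add (h2.smul h4)).add ((h3.mul h5).smul_const c)
  have h7 : (fun r => Ae m c r⁻¹ (g r)) = fun r => g r + (2 * (r⁻¹ - 1)) • Fs m c (g r) +
      ((r⁻¹ - 1) ^ 2 * inner ℝ c (g r)) • c := funext fun r => Ae_apply m c r⁻¹ (g r)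
  rw [h7]
  refine h6.congr_deriv ?_
  rw [Ae_apply, Ae_apply]
  simp only [map_add, map_smul, h.Dc, h.quad]
  match_scalars <;> field_simp <;> ring

/-! ### the inverse of `1 - η R_c` as a function of `e` -/

/-- `1 - (1 - e²) R` -/
def Br (R : V →L[ℝ] V) (e : ℝ) : V →L[ℝ] V := 1 - (1 - e ^ 2) • R

theorem hasDerivAt_Q (R : V →L[ℝ] V) {e : ℝ} (hu : IsUnit (Br R e)) {g : ℝ → V} {g' : V}
    (hg : HasDerivAt g g' e) :
    HasDerivAt (fun r => Ring.inverse (Br R r) (g r))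
      (Ring.inverse (Br R e) g' -
        (2 * e) • Ring.inverse (Br R e) (R (Ring.inverse (Br R e) (g e)))) e := by
  have : CompleteSpace V := FiniteDimensional.complete ℝ V
  have h1 : HasDerivAt (fun r : ℝ => Br R r) ((2 * e) • R) e := by
    have h2 : HasDerivAt (fun r : ℝ => 1 - r ^ 2) (-(2 * e)) e := by
      have := (((hasDerivAt_id e).fun_pow 2).const_sub 1)
      simpa using this
    have h3 := (h2.smul_const R).const_sub (1 : V →L[ℝ] V)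
    refine h3.congr_deriv ?_
    module
  obtain ⟨u, hu'⟩ := hu
  have h4 : HasFDerivAt Ring.inverse (-ContinuousLinearMap.mulLeftRight ℝ (V →L[ℝ] V)
      (↑u⁻¹ : V →L[ℝ] V) (↑u⁻¹ : V →L[ℝ] V)) (Br R e) := by
    rw [← hu']
    exact hasFDerivAt_ringInverse u
  have h5 : HasDerivAt (fun r : ℝ => Ring.inverse (Br R r))
      ((-ContinuousLinearMap.mulLeftRight ℝ (V →L[ℝ] V)
      (↑u⁻¹ : V →L[ℝ] V) (↑u⁻¹ : V →L[ℝ] V)) ((2 * e) • R)) e := h4.comp_hasDerivAt e h1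
  have h6 := h5.clm_apply hg
  have h7 : Ring.inverse (Br R e) = (↑u⁻¹ : V →L[ℝ] V) := by
    rw [← hu', Ring.inverse_unit]
  rw [h7] at h6 ⊢
  refine h6.congr_deriv ?_
  simp
  abel

theorem Q_spec (m : V →ₗ[ℝ] V →ₗ[ℝ] V) (c : V) (e : ℝ) (Q : V →ₗ[ℝ] V)
    (h1 : (1 - (1 - e ^ 2) • m.flip c) * Q = 1) (h2 : Q * (1 - (1 - e ^ 2) • m.flip c) = 1) :
    IsUnit (Br (LinearMap.toContinuousLinearMap (m.flip c)) e) ∧
      ∀ x, Ring.inverse (Br (LinearMap.toContinuousLinearMap (m.flip c)) e) x = Q x := by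
  let R := LinearMap.toContinuousLinearMap (m.flip c)
  let Qc := LinearMap.toContinuousLinearMap Q
  have e1 : Br R e * Qc = 1 := by
    ext x
    have := LinearMap.congr_fun h1 x
    simpa [Br, R, Qc] using this
  have e2 : Qc * Br R e = 1 := by
    ext x
    have := LinearMap.congr_fun h2 x
    simpa [Br, R, Qc] using this
  let u : (V →L[ℝ] V)ˣ := ⟨Br R e, Qc, e1, e2⟩
  refine ⟨⟨u, rfl⟩, fun x => ?_⟩
  have h3 : Ring.inverse (Br R e) = Qc := Ring.inverse_unit u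
  change Ring.inverse (Br R e) x = Q x
  rw [h3]
  rfl

omit [FiniteDimensional ℝ V] in
theorem sum_skew {n : ℕ} (b : OrthonormalBasis (Fin n) ℝ V) (T Z : V →ₗ[ℝ] V)
    (hZ : ∀ u v : V, inner ℝ (Z u) v + (inner ℝ u (Z v) : ℝ) = 0) :
    ∑ i, (inner ℝ (T (b i)) (T (Z (b i))) : ℝ) = 0 := by
  have h1 : ∀ i, (inner ℝ (T (b i)) (T (Z (b i))) : ℝ) =
      ∑ k, (inner ℝ (b k) (Z (b i)) : ℝ) * inner ℝ (T (b i)) (T (b k)) := by
    intro i
    conv_lhs => rw [← b.sum_repr (Z (b i))]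
    rw [map_sum, inner_sum]
    refine Finset.sum_congr rfl fun k _ => ?_
    rw [map_smul, inner_smul_right, b.repr_apply_apply]
  have h2 : ∑ i, ∑ k, (inner ℝ (b k) (Z (b i)) : ℝ) * inner ℝ (T (b i)) (T (b k)) =
      -∑ i, ∑ k, (inner ℝ (b k) (Z (b i)) : ℝ) * inner ℝ (T (b i)) (T (b k)) := by
    conv_lhs => rw [Finset.sum_comm]
    rw [← Finset.sum_neg_distrib]
    refine Finset.sum_congr rfl fun i _ => ?_
    rw [← Finset.sum_neg_distrib]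
    refine Finset.sum_congr rfl fun k _ => ?_
    have e0 := hZ (b i) (b k)
    have e1 : (inner ℝ (Z (b i)) (b k) : ℝ) = inner ℝ (b k) (Z (b i)) :=
      real_inner_comm (b k) (Z (b i))
    have e2 : (inner ℝ (T (b k)) (T (b i)) : ℝ) = inner ℝ (T (b i)) (T (b k)) :=
      real_inner_comm (T (b i)) (T (b k))
    have h3 : (inner ℝ (b i) (Z (b k)) : ℝ) = -inner ℝ (b k) (Z (b i)) := by linarith
    rw [h3, e2]
    ring
  rw [Finset.sum_congr rfl fun i _ => h1 i]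
  linarith

/-- the deformed product -/
def fe (m : V →ₗ[ℝ] V →ₗ[ℝ] V) (c : V) (Q : V →ₗ[ℝ] V) (e : ℝ) (a x : V) : V :=
  Ae m c e⁻¹ (m (Q (Ae m c e a)) (Ae m c e x))

/-- the skew operator -/
def Zo (m : V →ₗ[ℝ] V →ₗ[ℝ] V) (c : V) (Q : V →ₗ[ℝ] V) (e : ℝ) : V →ₗ[ℝ] V :=
  (2 / e) • Fs m c - (2 * e) • (Ae m c e⁻¹ ∘ₗ m (Q c) ∘ₗ Ae m c e)

theorem Zo_apply (m : V →ₗ[ℝ] V →ₗ[ℝ] V) (c : V) (Q : V →ₗ[ℝ] V) (e : ℝ) (u : V) :
    Zo m c Q e u = (2 / e) • Fs m c u - (2 * e) • Ae m c e⁻¹ (m (Q c) (Ae m c e u)) := rfl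

theorem fe_Z_left {m : V →ₗ[ℝ] V →ₗ[ℝ] V} {c : V} (h : Dat (Fs m c) c) (Q : V →ₗ[ℝ] V)
    {e : ℝ} (he : e ≠ 0) (a x : V) :
    fe m c Q e (Zo m c Q e a) x = (2 / e) • Ae m c e⁻¹ (m (Q (Ae m c e (Fs m c a))) (Ae m c e x)) -
      (2 * e) • Ae m c e⁻¹ (m (Q (m (Q c) (Ae m c e a))) (Ae m c e x)) := by
  rw [fe, Zo_apply]
  simp only [map_sub, map_smul, LinearMap.sub_apply, LinearMap.smul_apply, Ae_inv h he]

theorem fe_Z_right {m : V →ₗ[ℝ] V →ₗ[ℝ] V} {c : V} (h : Dat (Fs m c) c) (Q : V →ₗ[ℝ] V)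
    {e : ℝ} (he : e ≠ 0) (a x : V) :
    fe m c Q e a (Zo m c Q e x) = (2 / e) • Ae m c e⁻¹ (m (Q (Ae m c e a)) (Ae m c e (Fs m c x))) -
      (2 * e) • Ae m c e⁻¹ (m (Q (Ae m c e a)) (m (Q c) (Ae m c e x))) := by
  rw [fe, Zo_apply]
  simp only [map_sub, map_smul, Ae_inv h he]

theorem Z_fe {m : V →ₗ[ℝ] V →ₗ[ℝ] V} {c : V} (h : Dat (Fs m c) c) (Q : V →ₗ[ℝ] V)
    {e : ℝ} (he : e ≠ 0) (a x : V) :
    Zo m c Q e (fe m c Q e a x) = (2 / e) • Fs m c (fe m c Q e a x) -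
      (2 * e) • Ae m c e⁻¹ (m (Q c) (m (Q (Ae m c e a)) (Ae m c e x))) := by
  rw [Zo_apply, fe, Ae_inv h he]

theorem Z_skew {m : V →ₗ[ℝ] V →ₗ[ℝ] V} {c : V} (h : Dat (Fs m c) c) (Q : V →ₗ[ℝ] V)
    {e : ℝ} (he : 0 < e)
    (h1 : ∀ u v : V, LinearMap.trace ℝ V (m.flip u * Q * m.flip v * Q) = inner ℝ u v +
        2 * (1 - e ^ 2) / (1 - (1 - e ^ 2)) * inner ℝ (Fs m c u) v +
        (1 - e ^ 2) ^ 2 / (1 - (1 - e ^ 2)) ^ 2 * (inner ℝ c u * inner ℝ c v))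
    (h2 : ∀ u v : V, LinearMap.trace ℝ V (m.flip (m (Q c) u) * Q * m.flip v * Q) +
          LinearMap.trace ℝ V (m.flip u * Q * m.flip (m (Q c) v) * Q) =
        2 / (1 - (1 - e ^ 2)) ^ 2 * inner ℝ (Fs m c u) v +
          2 * (1 - e ^ 2) / (1 - (1 - e ^ 2)) ^ 3 * (inner ℝ c u * inner ℝ c v)) (u v : V) :
    inner ℝ (Zo m c Q e u) v + (inner ℝ u (Zo m c Q e v) : ℝ) = 0 := by
  have he0 : e ≠ 0 := he.ne'
  have hE : ∀ u v : V, LinearMap.trace ℝ V (m.flip u * Q * m.flip v * Q) =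
      inner ℝ (Ae m c e⁻¹ u) (Ae m c e⁻¹ v) := by
    intro u v
    rw [h1, ← Ae_sym h, Ae_mul h, Ae_apply]
    simp only [inner_add_left, inner_smul_left, conj_trivial]
    field_simp
    ring
  have hA : ∀ w v : V, (inner ℝ (Ae m c e⁻¹ w) v : ℝ) =
      inner ℝ (Ae m c e⁻¹ w) (Ae m c e⁻¹ (Ae m c e v)) := by
    intro w v
    rw [Ae_inv' h he0]
  have hB : ∀ w v : V, (inner ℝ w (Ae m c e⁻¹ v) : ℝ) =
      inner ℝ (Ae m c e⁻¹ (Ae m c e w)) (Ae m c e⁻¹ v) := by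
    intro w v
    rw [Ae_inv' h he0]
  have h3 : (inner ℝ (Ae m c e⁻¹ (m (Q c) (Ae m c e u))) v : ℝ) +
      inner ℝ u (Ae m c e⁻¹ (m (Q c) (Ae m c e v))) = 2 / e ^ 2 * inner ℝ (Fs m c u) v := by
    rw [hA (m (Q c) (Ae m c e u)) v, hB u (m (Q c) (Ae m c e v)),
      ← hE (m (Q c) (Ae m c e u)) (Ae m c e v), ← hE (Ae m c e u) (m (Q c) (Ae m c e v)), h2,
      inner_Ae h, inner_Ae h, ← Ae_sym h, ← Ae_comm_D h, Ae_mul h, Ae_apply, h.quad, h.cD]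
    simp only [inner_add_left, inner_smul_left, conj_trivial]
    field_simp
    ring
  have h4 : (inner ℝ u (Fs m c v) : ℝ) = inner ℝ (Fs m c u) v := (h.sym u v).symm
  rw [Zo_apply, Zo_apply]
  simp only [inner_sub_left, inner_sub_right, inner_smul_left, inner_smul_right, conj_trivial]
  rw [h4]
  have h5 : (2 / e * inner ℝ (Fs m c u) v - 2 * e * inner ℝ (Ae m c e⁻¹ (m (Q c) (Ae m c e u))) v +
      (2 / e * inner ℝ (Fs m c u) v - 2 * e * inner ℝ u (Ae m c e⁻¹ (m (Q c) (Ae m c e v)))) : ℝ) =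
      4 / e * inner ℝ (Fs m c u) v - 2 * e * (inner ℝ (Ae m c e⁻¹ (m (Q c) (Ae m c e u))) v +
        inner ℝ u (Ae m c e⁻¹ (m (Q c) (Ae m c e v)))) := by ring
  rw [h5, h3]
  field_simp
  ring

/-- the inverse of `1 - (1 - e²) R_c` as a function of `e` -/
def Qe (m : V →ₗ[ℝ] V →ₗ[ℝ] V) (c : V) (e : ℝ) : V →ₗ[ℝ] V :=
  (Ring.inverse (Br (LinearMap.toContinuousLinearMap (m.flip c)) e)).toLinearMap

theorem Qe_eq (m : V →ₗ[ℝ] V →ₗ[ℝ] V) (c : V) (e : ℝ) (Q : V →ₗ[ℝ] V)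
    (h1 : (1 - (1 - e ^ 2) • m.flip c) * Q = 1) (h2 : Q * (1 - (1 - e ^ 2) • m.flip c) = 1) :
    Qe m c e = Q :=
  LinearMap.ext fun x => (Q_spec m c e Q h1 h2).2 x

theorem hasDerivAt_fe {m : V →ₗ[ℝ] V →ₗ[ℝ] V} {c : V} (h : Dat (Fs m c) c) {e : ℝ} (he : 0 < e)
    (hu : IsUnit (Br (LinearMap.toContinuousLinearMap (m.flip c)) e))
    (hK : ∀ a w x : V, m (Qe m c e (m (Qe m c e a) w)) x =
      m (Qe m c e (m (Qe m c e w) a)) x + m (Qe m c e a) (m (Qe m c e w) x) -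
        m (Qe m c e w) (m (Qe m c e a) x)) (a x : V) :
    HasDerivAt (fun r => fe m c (Qe m c r) r a x)
      (-Zo m c (Qe m c e) e (fe m c (Qe m c e) e a x) +
        fe m c (Qe m c e) e (Zo m c (Qe m c e) e a) x +
        fe m c (Qe m c e) e a (Zo m c (Qe m c e) e x)) e := by
  have he0 : e ≠ 0 := he.ne'
  have h1 := hasDerivAt_Q _ hu (hasDerivAt_Ae h he0 a)
  have h2 := hasDerivAt_Ae_inv h he0 (hasDerivAt_bil m h1 (hasDerivAt_Ae h he0 x))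
  refine h2.congr_deriv ?_
  rw [fe_Z_left h _ he0, fe_Z_right h _ he0, Z_fe h _ he0]
  have h3 := hK (Ae m c e a) c (Ae m c e x)
  have h4 : ∀ y, (Ring.inverse (Br (LinearMap.toContinuousLinearMap (m.flip c)) e)) y =
      Qe m c e y := fun y => rfl
  have h5 : ∀ y, (LinearMap.toContinuousLinearMap (m.flip c)) y = m y c := fun y => rfl
  simp only [h4, h5, fe, map_sub, map_add, map_smul, LinearMap.sub_apply, LinearMap.smul_apply]
  rw [h3]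
  simp only [map_sub, map_add]
  module

/-- the norm of the deformed product -/
def Nn (m : V →ₗ[ℝ] V →ₗ[ℝ] V) (c : V) {n : ℕ} (b : OrthonormalBasis (Fin n) ℝ V) (e : ℝ) : ℝ :=
  ∑ i, ∑ j, ‖fe m c (Qe m c e) e (b i) (b j)‖ ^ 2

theorem hasDerivAt_Nn {m : V →ₗ[ℝ] V →ₗ[ℝ] V} {c : V} (h : Dat (Fs m c) c) {n : ℕ}
    (b : OrthonormalBasis (Fin n) ℝ V) {e : ℝ} (he : 0 < e)
    (hu : IsUnit (Br (LinearMap.toContinuousLinearMap (m.flip c)) e))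
    (hK : ∀ a w x : V, m (Qe m c e (m (Qe m c e a) w)) x =
      m (Qe m c e (m (Qe m c e w) a)) x + m (Qe m c e a) (m (Qe m c e w) x) -
        m (Qe m c e w) (m (Qe m c e a) x))
    (hZ : ∀ u v : V, inner ℝ (Zo m c (Qe m c e) e u) v +
      (inner ℝ u (Zo m c (Qe m c e) e v) : ℝ) = 0) :
    HasDerivAt (Nn m c b) 0 e := by
  set Z := Zo m c (Qe m c e) e with hZd
  set f : V → V → V := fe m c (Qe m c e) e with hf
  have h1 : HasDerivAt (Nn m c b) (∑ i, ∑ j, 2 * (inner ℝ (f (b i) (b j))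
      (-Z (f (b i) (b j)) + f (Z (b i)) (b j) + f (b i) (Z (b j))) : ℝ)) e := by
    unfold Nn
    refine HasDerivAt.fun_sum fun i _ => HasDerivAt.fun_sum fun j _ => ?_
    exact (hasDerivAt_fe h he hu hK (b i) (b j)).norm_sq
  refine h1.congr_deriv ?_
  have h2 : ∀ u : V, (inner ℝ u (Z u) : ℝ) = 0 := by
    intro u
    have e1 := hZ u u
    rw [real_inner_comm u (Z u)] at e1
    linarith
  have h3 : ∀ j, ∑ i, (inner ℝ (f (b i) (b j)) (f (Z (b i)) (b j)) : ℝ) = 0 := fun j =>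
    sum_skew b (Ae m c e⁻¹ ∘ₗ m.flip (Ae m c e (b j)) ∘ₗ Qe m c e ∘ₗ Ae m c e) Z hZ
  have h4 : ∀ i, ∑ j, (inner ℝ (f (b i) (b j)) (f (b i) (Z (b j))) : ℝ) = 0 := fun i =>
    sum_skew b (Ae m c e⁻¹ ∘ₗ m (Qe m c e (Ae m c e (b i))) ∘ₗ Ae m c e) Z hZ
  have h5 : ∑ i, ∑ j, 2 * (inner ℝ (f (b i) (b j))
      (-Z (f (b i) (b j)) + f (Z (b i)) (b j) + f (b i) (Z (b j))) : ℝ) =
      2 * ∑ j, ∑ i, (inner ℝ (f (b i) (b j)) (f (Z (b i)) (b j)) : ℝ) +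
      2 * ∑ i, ∑ j, (inner ℝ (f (b i) (b j)) (f (b i) (Z (b j))) : ℝ) := by
    rw [Finset.sum_comm (f := fun j i => (inner ℝ (f (b i) (b j)) (f (Z (b i)) (b j)) : ℝ)),
      Finset.mul_sum, Finset.mul_sum, ← Finset.sum_add_distrib]
    refine Finset.sum_congr rfl fun i _ => ?_
    rw [Finset.mul_sum, Finset.mul_sum, ← Finset.sum_add_distrib]
    refine Finset.sum_congr rfl fun j _ => ?_
    rw [inner_add_right, inner_add_right, inner_neg_right, h2]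
    ring
  rw [h5, Finset.sum_eq_zero fun j _ => h3 j, Finset.sum_eq_zero fun i _ => h4 i]
  ring

end N4a

theorem thm_N4a (hK2 : St_K2) (hN1a : St_N1a) (hN2a : St_N2a) : St_N4a := by
  intro V _ _ _ m hm c hc hq n b e Q he hQ
  obtain ⟨-, -, -, hsym, hC⟩ := hN1a V m hm
  obtain ⟨-, -, hDc, hnc⟩ := hC c hc
  have h : N4a.Dat (Fs m c) c := by
    refine ⟨fun x y => hsym c x y, hDc, hnc, fun x => ?_⟩
    have e1 := hq x
    have e2 : Fs m c (Fs m c x) = (1 / 2 : ℝ) • ((2 : ℝ) • Fs m c (Fs m c x)) := by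
      module
    rw [e2, e1]
    module
  -- the data at every `r > 0`
  have hmain : ∀ r : ℝ, 0 < r → ∃ Q' : V →ₗ[ℝ] V,
      ((1 - (1 - r ^ 2) • m.flip c) * Q' = 1 ∧ Q' * (1 - (1 - r ^ 2) • m.flip c) = 1) ∧
        N4a.Qe m c r = Q' ∧
        HasDerivAt (N4a.Nn m c b) 0 r := by
    intro r hr
    have hη : (1 - r ^ 2 : ℝ) ≠ 1 := by
      have : 0 < r ^ 2 := by positivity
      intro h
      linarith
    obtain ⟨Q', q1, q2, -, q4, q5⟩ := hN2a V m hm c hc (1 - r ^ 2) hη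
    have e1 := N4a.Qe_eq m c r Q' q1 q2
    refine ⟨Q', ⟨q1, q2⟩, e1, ?_⟩
    have hK := hK2 V m hm.lsa ((1 - r ^ 2) • c) Q' (by rw [map_smul]; exact q1)
    have hZ := N4a.Z_skew h Q' hr q4 q5
    rw [← e1] at hK hZ
    exact N4a.hasDerivAt_Nn h b hr (N4a.Q_spec m c r Q' q1 q2).1 hK.1 hZ
  -- constant
  have hconst : N4a.Nn m c b e = N4a.Nn m c b 1 := by
    have hd : DifferentiableOn ℝ (N4a.Nn m c b) (Set.Ioi 0) := by
      intro r hr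
      obtain ⟨_, -, -, h3⟩ := hmain r hr
      exact h3.differentiableAt.differentiableWithinAt
    have hz : (Set.Ioi (0 : ℝ)).EqOn (deriv (N4a.Nn m c b)) 0 := by
      intro r hr
      obtain ⟨_, -, -, h3⟩ := hmain r hr
      exact h3.deriv
    exact isOpen_Ioi.is_const_of_deriv_eq_zero isPreconnected_Ioi hd hz he (Set.mem_Ioi.2 one_pos)
  obtain ⟨Q', ⟨q1, q1'⟩, q2, -⟩ := hmain e he
  obtain ⟨Q1, ⟨p1, -⟩, p2, -⟩ := hmain 1 one_pos
  have hQQ : Q' = Q := by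
    calc Q' = Q' * ((1 - (1 - e ^ 2) • m.flip c) * Q) := by rw [hQ, mul_one]
      _ = (Q' * (1 - (1 - e ^ 2) • m.flip c)) * Q := by rw [mul_assoc]
      _ = Q := by rw [q1', one_mul]
  have hQ1 : Q1 = 1 := by
    simpa using p1
  have e3 : N4a.Nn m c b e =
      ∑ i, ∑ j, ‖Ae m c e⁻¹ (m (Q (Ae m c e (b i))) (Ae m c e (b j)))‖ ^ 2 := by
    unfold N4a.Nn N4a.fe
    rw [q2, hQQ]
  have e4 : N4a.Nn m c b 1 = ∑ i, ∑ j, ‖m (b i) (b j)‖ ^ 2 := by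
    unfold N4a.Nn N4a.fe
    rw [p2, hQ1]
    refine Finset.sum_congr rfl fun i _ => Finset.sum_congr rfl fun j _ => ?_
    rw [inv_one, N4a.Ae_one, N4a.Ae_one, N4a.Ae_one, Module.End.one_apply]
  rw [← e3, hconst, e4]

end Pool.Agent.RRC
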