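import Pool.Agent.RRC.St2

/-!
# RRC: simple roots, in the form of separability
-/

open Polynomial

namespace Pool.Agent.RRC

theorem thm_Simple (h : St_P3) : St_Simple := by
  intro V _ _ _ m hm hr x hx
  exact (Polynomial.nodup_roots_iff_of_splits (LinearMap.charpoly_monic _).ne_zero (hr x)).1
    (h V m hm hr x hx).1

end Pool.Agent.RRC
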