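import Pool.Agent.RRC.Defs

/-!
# RRC: real-rooted admissible collections, half 1: from an algebra to its leaf, and the bridge

Mathematics: helper69 (with simplifications), statements: helper85. `R_x = m.flip x`, `L_a = m a`,
`a * x = m a x`, `s = tr m`, `h(x, y) = s(x * y)`, `p_k = pw m k`. Module `X` proves
`theorem thm_X (h.. : St_..) : St_X` in `Pool/Agent/RRC/X.lean`, namespace `Pool.Agent.RRC`; the
hypotheses may be the statements listed after `needs`. Auxiliary lemmas in the sub-namespace `X`.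
-/

set_option autoImplicit false

noncomputable section

namespace Pool.Agent.RRC

open scoped Polynomial
open Polynomial

/-! ### linear algebra -/

/-- **Tr** (2 h). Traces and determinants in terms of the eigenvalues, for a real operator with
split characteristic polynomial.

Proof. (2) for `e ≠ 0`: `det(1 - eT) = e^n χ(1/e)`, `n = dim V` (`LinearMap.charpoly` of a basis matrix,
`Matrix.charpoly`, `Matrix.eval_charpoly` or `Matrix.det` of `1/e - T`), `e = 0` clear. (1) By linearity `g = X^k`.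
For matrices over `ℂ` see `Pool/Agent/SAD/Tools.lean` (`trace_pow_eq_sum`), then map the real matrix to
`ℂ` (`Matrix.charpoly_map`, roots of a split polynomial: `Polynomial.roots_map`); or: an upper
triangular form; or: both sides of (2) as polynomials in `e`, logarithmic derivative. (3) is (2) with
`1/e` (two polynomials in `e` of degree at most `n` which agree for all `e`). (4), (5): clear from (3), (1):
if `Σλ = Σλ² = Σλ³ = 1` then all `|λ| ≤ 1`, `Σ λ²(1 - λ) = 0`, so every `λ` is `0` or `1` and exactly one is `1`. -/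
def St_Tr : Prop := ∀ (V : Type) [AddCommGroup V] [Module ℝ V] [FiniteDimensional ℝ V]
  (T : V →ₗ[ℝ] V), T.charpoly.Splits →
    (∀ g : ℝ[X], LinearMap.trace ℝ V (aeval T g) = (T.charpoly.roots.map fun l => g.eval l).sum) ∧
    (∀ e : ℝ, ((e • T).charpoly).eval 1 = (T.charpoly.roots.map fun l => 1 - e * l).prod) ∧
    (∀ mu : Fin (Module.finrank ℝ V) → ℝ,
      (∀ e : ℝ, ((e • T).charpoly).eval 1 = ∏ i, (1 - e * mu i)) ↔
        T.charpoly = ∏ i, (X - C (mu i))) ∧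
    ((∀ e : ℝ, ((e • T).charpoly).eval 1 = 1 - e) ↔
      LinearMap.trace ℝ V T = 1 ∧ LinearMap.trace ℝ V (T ^ 2) = 1 ∧
        LinearMap.trace ℝ V (T ^ 3) = 1) ∧
    (LinearMap.trace ℝ V T = 1 → LinearMap.trace ℝ V (T ^ 2) = 1 →
      LinearMap.trace ℝ V (T ^ 3) = 1 →
      T.charpoly = X ^ (Module.finrank ℝ V - 1) * (X - 1) ∧ T ^ (Module.finrank ℝ V) =
        T ^ (Module.finrank ℝ V - 1) ∧ ∀ k : ℕ, 1 ≤ k → LinearMap.trace ℝ V (T ^ k) = 1)

/-- **DT** (1.5 h). Traces along a line: derivative, and they are polynomials.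

Proof. `V ≃ (Fin n → ℝ)`, matrices (`LinearMap.toMatrix`), which are a normed algebra
(`Matrix.linftyOpNormedAlgebra` as local instance; or entrywise). (1) by linearity `g = X^k`; the
derivative of `(T + eS)^k` is the sum of the `A^i S A^(k-1-i)`, all have the trace of `A^(k-1) S`
(`LinearMap.trace_mul_comm`). (2) matrix over `ℝ[X]` with the entries `C T_ij + X * C S_ij`. -/
def St_DT : Prop := ∀ (V : Type) [AddCommGroup V] [Module ℝ V] [FiniteDimensional ℝ V]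
  (T S : V →ₗ[ℝ] V),
    (∀ (g : ℝ[X]) (e : ℝ), HasDerivAt (fun r : ℝ => LinearMap.trace ℝ V (aeval (T + r • S) g))
      (LinearMap.trace ℝ V (aeval (T + e • S) (derivative g) * S)) e) ∧
    ∀ g : ℝ[X], ∃ q : ℝ[X], ∀ e : ℝ, LinearMap.trace ℝ V (aeval (T + e • S) g) = q.eval e

/-! ### identities in left-symmetric algebras -/

/-- **K1** (1.5 h). Identities. (1) `[L_a, R_x] = R_(a * x) - R_x R_a`. (2), (3) `tr(g(R_x) R_v) = s(g(R_x) v)`.
(4) `h(x, y) = tr R_x R_y`, symmetric. (5), (6) polarisations of (2) for `k = 2`, `k = 3`. (7) the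
symmetric form `f(u,v,w) = (1/2) tr(R_u R_v R_w + R_u R_w R_v)`: `q(a; u, v, w)` symmetric, case needed.

Proof. (1) apply to `b`: it is the LSA identity. (2) `tr(R_x^k R_(v * x)) = tr(R_x^k [L_v, R_x]) +
tr(R_x^k R_x R_v)` by (1), the first term is `0` (`trace_mul_comm`), and `v * x = R_x v`; induction on `k`:
`tr(R_x^(k+1) R_v) = tr(R_x^k R_(R_x v)) = s(R_x^k (R_x v))`. (3) linearity. (4) (2) for `k = 1`.
(5) (2) with `k = 2` for `x + y`, `x`, `y`. (6) (2) with `k = 3` for `c + u`, `c - u`, `u`. (7) By (1)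
`R_(c * u) = [L_c, R_u] + R_u R_c` and so on; the terms with `L_c` cancel (a trace of a commutator
`[L_c, ...]`); what remains is half of the sum of the traces over the six cyclic orders of
`R_c, R_c, R_u, R_v`: `tr(R_u R_c² R_v) + tr(R_u R_c R_v R_c) + tr(R_u R_v R_c²)`. needs: nothing -/
def St_K1 : Prop := ∀ (V : Type) [AddCommGroup V] [Module ℝ V] [FiniteDimensional ℝ V]
  (m : V →ₗ[ℝ] V →ₗ[ℝ] V), LSA m →
    (∀ a x : V, m a * m.flip x - m.flip x * m a = m.flip (m a x) - m.flip x * m.flip a) ∧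
    (∀ (k : ℕ) (x v : V), LinearMap.trace ℝ V (m.flip x ^ k * m.flip v) =
      tr m ((m.flip x ^ k) v)) ∧
    (∀ (g : ℝ[X]) (x v : V), LinearMap.trace ℝ V (aeval (m.flip x) g * m.flip v) =
      tr m (aeval (m.flip x) g v)) ∧
    (∀ x y : V, tr m (m x y) = LinearMap.trace ℝ V (m.flip x * m.flip y) ∧
      tr m (m x y) = tr m (m y x)) ∧
    (∀ x y v : V, LinearMap.trace ℝ V (m.flip x * m.flip y * m.flip v +
      m.flip y * m.flip x * m.flip v) = tr m (m (m v y) x + m (m v x) y)) ∧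
    (∀ c u v : V, LinearMap.trace ℝ V (m.flip u * m.flip c * m.flip c * m.flip v +
        m.flip c * m.flip u * m.flip c * m.flip v + m.flip c * m.flip c * m.flip u * m.flip v) =
      tr m (m (m (m v c) c) u + m (m (m v c) u) c + m (m (m v u) c) c)) ∧
    ∀ c u v : V, (1 / 2 : ℝ) * (LinearMap.trace ℝ V
        (m.flip (m c c) * m.flip u * m.flip v + m.flip (m c c) * m.flip v * m.flip u) +
      LinearMap.trace ℝ V
        (m.flip c * m.flip (m c u) * m.flip v + m.flip c * m.flip v * m.flip (m c u)) +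
      LinearMap.trace ℝ V
        (m.flip c * m.flip u * m.flip (m c v) + m.flip c * m.flip (m c v) * m.flip u)) =
      LinearMap.trace ℝ V (m.flip u * m.flip c * m.flip c * m.flip v +
        m.flip c * m.flip u * m.flip c * m.flip v + m.flip c * m.flip c * m.flip u * m.flip v)

/-- **K2** (1.5 h). The deformed product `a *_p x = (B⁻¹ a) * x`, `B = 1 - R_p`, and the form
`h_p(u, v) = tr(R_u B⁻¹ R_v B⁻¹)`; `w' = B⁻¹ w`, `M = L_(w')`. (1), (2): their derivatives in the direction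
`w` of `p`. (3) `h_p(u, v) = s(B⁻¹ R_v B⁻¹ u)`.

Proof. `Q = B⁻¹`. (1) Put `a' = Q a`. `w' * (a' * x) - a' * (w' * x) = (w' * a' - a' * w') * x` (LSA), and
`B (w' * a' - a' * w') = [w', a'] - w' * (a' * p) + a' * (w' * p) = w' * (B a') - a' * (B w') = w' * a - a' * w`. So
`[w', a'] = Q (w' * a) - Q (a' * w)`: this is (1). (2) `[M, R_u] = R_(M u) - R_u R_(w')` (K1 (1)) and
`[M, Q] = Q [M, R_p] Q = Q (R_(w' * p) - R_p R_(w')) Q = R_(w') Q - Q R_w Q` since `w' * p = w' - w`. The trace of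
`[M, R_u Q R_v Q]` is `0`; expand by the product rule. (3) Put `z = Q u`, so `u = z - z * p` and
`R_u = R_z - R_(z * p) = B R_z - [L_z, R_p]`. So `tr(R_u Q R_v Q) = tr(R_z Q R_v) - tr(L_z (R_p Q R_v Q - Q R_v Q R_p))`
`= tr(R_z Q R_v) + tr(L_z (R_v Q - Q R_v))` (`R_p Q = Q R_p = Q - 1`) `= tr(Q R_v R_z) + tr(Q [L_z, R_v]) = tr(Q R_(z * v))`
by K1 (1). In the same way `tr(Q R_w) = s(Q w)` for every `w`: with `z = Q w`, `R_w = B R_z - [L_z, R_p]`,
`tr(Q R_w) = tr R_z - tr(Q [L_z, R_p]) = s(z)` as `Q` commutes with `R_p`. Here `w = z * v = R_v (Q u)`.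
needs: K1 -/
def St_K2 : Prop := ∀ (V : Type) [AddCommGroup V] [Module ℝ V] [FiniteDimensional ℝ V]
  (m : V →ₗ[ℝ] V →ₗ[ℝ] V), LSA m → ∀ (p : V) (Q : V →ₗ[ℝ] V), (1 - m.flip p) * Q = 1 →
    (∀ a w x : V, m (Q (m (Q a) w)) x =
      m (Q (m (Q w) a)) x + m (Q a) (m (Q w) x) - m (Q w) (m (Q a) x)) ∧
    (∀ w u v : V, LinearMap.trace ℝ V (m.flip u * Q * m.flip w * Q * m.flip v * Q) +
        LinearMap.trace ℝ V (m.flip u * Q * m.flip v * Q * m.flip w * Q) =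
      LinearMap.trace ℝ V (m.flip (m (Q w) u) * Q * m.flip v * Q) +
        LinearMap.trace ℝ V (m.flip u * Q * m.flip (m (Q w) v) * Q)) ∧
    (∀ u v : V, LinearMap.trace ℝ V (m.flip u * Q * m.flip v * Q) =
      tr m (Q (m (Q u) v))) ∧
    ∀ w : V, LinearMap.trace ℝ V (Q * m.flip w) = tr m (Q w)

/-- **dpw** (0.4 h). The derivative of the power sums `p_k` (for any product; for `LSA m` see `K1` (2)).

Proof. `DT` (1) with `g = X^k`, `e = 0`. needs: DT -/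
def St_dpw : Prop := ∀ (V : Type) [AddCommGroup V] [Module ℝ V] [FiniteDimensional ℝ V]
  (m : V →ₗ[ℝ] V →ₗ[ℝ] V) (k : ℕ) (x v : V),
    HasDerivAt (fun e : ℝ => pw m k (x + e • v))
      (k * LinearMap.trace ℝ V (m.flip x ^ (k - 1) * m.flip v)) 0

/-! ### positivity, derivations, simple roots -/

/-- **NDo** (1.5 h). Nondegeneracy is an open condition (for any bilinear product).

Proof. By Cayley-Hamilton `NDat m x` iff the linear map `v ↦ (s(R_x^k v))_(k < n)`, `V → ℝ^n`, `n = dim V`, is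
injective, iff its matrix `A(x)` in a basis has determinant `≠ 0`. `e ↦ det A(x + e v)` is continuous
(matrices: `Continuous.matrix_mul`, powers; the entries are polynomials in `e`) and `≠ 0` at `e = 0`. (2): the same
with a polynomial in `e`: only finitely many zeros. -/
def St_NDo : Prop := ∀ (V : Type) [AddCommGroup V] [Module ℝ V] [FiniteDimensional ℝ V]
  (m : V →ₗ[ℝ] V →ₗ[ℝ] V) (x : V), NDat m x → ∀ v : V,
    (∃ d : ℝ, 0 < d ∧ ∀ e : ℝ, |e| < d → NDat m (x + e • v)) ∧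
      {e : ℝ | ¬ NDat m (x + e • v)}.Finite

/-- **P1** (2 h). (3.1) `h` is positive definite.

Proof. `h(v, v) = tr R_v² = Σ λ² ≥ 0` (`Tr`). Let `h(v, v) = 0`. Cauchy-Schwarz for the positive
semidefinite form `h`: `h(v, u) = 0` for all `u` (`0 ≤ h(u + e v, u + e v) = h(u,u) + 2 e h(u, v)` for all `e`). Let `x` be an
ND point. `p_2(x + e v) = h(x, x) =: N` for all `e`, so all eigenvalues of `R_(x + e v)` have absolute
value at most `√N`, and `p_k(x + e v)` is a bounded polynomial in `e` (`DT` (2)), so constant; its derivative at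
`0` is `k s(R_x^(k-1) v)` (`DT` (1), `K1` (2)). So `s(R_x^k v) = 0` for all `k`, `v = 0`. needs: Tr, DT, K1 -/
def St_P1 : Prop := ∀ (V : Type) [AddCommGroup V] [Module ℝ V] [FiniteDimensional ℝ V]
  (m : V →ₗ[ℝ] V →ₗ[ℝ] V), LSA m → RR m → ND m → ∀ v : V, v ≠ 0 → 0 < tr m (m v v)

/-- **Norm** (1.5 h). Every LSA with RR and ND is isomorphic to one in which the inner product is `h`.

Proof. `P1`: `h` (symmetric by `K1`) is an inner product (`InnerProductSpace.Core`), take an `h`-orthonormal basis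
(`stdOrthonormalBasis` for the structure on `V` given by the core; or `LinearMap.BilinForm`), `φ` = its coordinates.
`LSA`, `RR` (`LinearEquiv.charpoly_conj`), `ND`, and the inner product are transported. needs: P1, K1 -/
def St_Norm : Prop := ∀ (V : Type) [AddCommGroup V] [Module ℝ V] [FiniteDimensional ℝ V]
  (m : V →ₗ[ℝ] V →ₗ[ℝ] V), LSA m → RR m → ND m →
    ∃ (φ : V ≃ₗ[ℝ] EuclideanSpace ℝ (Fin (Module.finrank ℝ V)))
      (m' : EuclideanSpace ℝ (Fin (Module.finrank ℝ V)) →ₗ[ℝ]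
        EuclideanSpace ℝ (Fin (Module.finrank ℝ V)) →ₗ[ℝ]
        EuclideanSpace ℝ (Fin (Module.finrank ℝ V))),
      Good m' ∧ ∀ a x : V, m' (φ a) (φ x) = φ (m a x)

/-- **P2** (1 h). (3.2) Derivations vanish.

Proof. `[S, R_x] = R_(S x)`, so `s(R_x^k S x) = tr(R_x^k R_(S x)) = tr(R_x^k [S, R_x]) = 0` (`K1` (2)): `S x = 0` at every ND
point `x`. Let `x` be an ND point, `v` in `V`: by `NDo` there is `e ≠ 0` such that `x + e v` is an ND point:
`S x = 0`, `S (x + e v) = 0`, `S v = 0`. needs: K1, NDo -/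
def St_P2 : Prop := ∀ (V : Type) [AddCommGroup V] [Module ℝ V] [FiniteDimensional ℝ V]
  (m : V →ₗ[ℝ] V →ₗ[ℝ] V), LSA m → ND m → ∀ S : V →ₗ[ℝ] V,
    (∀ a b : V, S (m a b) = m (S a) b + m a (S b)) → S = 0

/-- **P3** (2.5 h). (3.3) At an ND point `x` the characteristic polynomial `χ` of `T = R_x` has only
simple roots.

Proof. (This is shorter than part 1, (3.3).) (a) If `g` is a polynomial with `s(g(T) v) = 0` for all `v`
then `g(T) = 0`: replace `v` by `T^k v`, use ND. (b) `χ` is the minimal polynomial `μ` of `T`: with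
`d = deg μ` the map `v ↦ (s(T^k v))_(k < d)` is injective (all `T^k` are combinations of these), so
`n ≤ d`; and `μ` divides `χ`, both monic. (c) Let `ρ = ∏ (X - λ)` over the DIFFERENT roots, `q = ρ²`. Then
`φ(e) = tr q(R_(x + e v)) = Σ q(λ) ≥ 0` (real roots, `Tr`), `φ(0) = 0`. So `0 = φ'(0) = tr(q'(T) R_v) = s(q'(T) v)` for all
`v` (`DT`, `K1` (3)), so `q'(T) = 0` by (a), `χ = μ` divides `q' = 2 ρ ρ'`. A root `λ` of `χ` of multiplicity
`≥ 2` would be a root of multiplicity `≥ 2` of `ρ ρ'`, but `ρ` has `λ` as a simple root and `ρ'(λ) ≠ 0`.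
needs: Tr, DT, K1 -/
def St_P3 : Prop := ∀ (V : Type) [AddCommGroup V] [Module ℝ V] [FiniteDimensional ℝ V]
  (m : V →ₗ[ℝ] V →ₗ[ℝ] V), LSA m → RR m → ∀ x : V, NDat m x →
    (m.flip x).charpoly.roots.Nodup ∧ minpoly ℝ (m.flip x) = (m.flip x).charpoly

/-! ### the Riccati flow -/

/-- **DF** (2 h). The derivative of `P(x, t) = det(t - R_x)` in `x`, and
`(*) d_(v * x) P = t d_v P + s(v) P`.

Proof. In a basis, `P(x, t) = det(A)`, `A = t - R_x` (matrix), `det` is differentiable (polynomial in the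
entries); let `δ(T) S` be its derivative at `T` in the direction `S`, linear in `S`. `δ(T)(T S) = det T tr S` and
`δ(T)(K T) = det T tr K`: from `det(T + e T S) = det T det(1 + e S)` and the derivative `tr S` of `det(1 + e S)` at `e = 0`
(`Matrix.det_one_add_smul`). `dP t x w = - δ(t - R_x)(R_w)`. With `T = t - R_x`, `K = L_v`: `R_(v * x) = [K, R_x] + R_x R_v =
- [K, T] + (t - T) R_v` (`K1` (1)), so `- δ(T)(R_(v * x)) = δ(T)(K T - T K) - t δ(T)(R_v) + δ(T)(T R_v) = 0 + t dP(v) + P s(v)`.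
needs: K1 -/
def St_DF : Prop := ∀ (V : Type) [NormedAddCommGroup V] [NormedSpace ℝ V]
  [FiniteDimensional ℝ V] (m : V →ₗ[ℝ] V →ₗ[ℝ] V), LSA m →
    ∃ dP : ℝ → V → (V →ₗ[ℝ] ℝ),
      (∀ (t : ℝ) (z : ℝ → V) (z' : V) (r : ℝ), HasDerivAt z z' r →
        HasDerivAt (fun q => ((m.flip (z q)).charpoly).eval t) (dP t (z r) z') r) ∧
      (∀ (t : ℝ) (x v : V), dP t x (m v x) =
        t * dP t x v + tr m v * ((m.flip x).charpoly).eval t) ∧
      ∀ t : ℝ, Continuous fun x : V => ((m.flip x).charpoly).eval t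

/-- **R1** (2 h). (4.1) The Riccati flow `y' = y * y`.

Proof. Picard-Lindelöf for the (smooth) vector field `y ↦ y * y`: a solution `y` on `(-e₁, e₁)`, `y(0) = x`. Let
`S(r) = ∫_0^r s(y)`. For fixed `e₀` put `G(r) = F((e₀ - r) y(r))`; with `X = (e₀ - r) y`:
`G' = dF_X(-y + (e₀ - r) y * y) = - dF_X(y) + dF_X(y * X) = s(y) F(X)` by (*) with `t = 1` (`DF`). So
`G(r) exp(-S(r))` is constant `= F(e₀ x)`. `e₀ = r`: `exp(-S(r)) = F(r x)` as `F(0) = 1`; `e₀ = r + e`: the assertion.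
needs: DF -/
def St_R1 : Prop := ∀ (V : Type) [NormedAddCommGroup V] [InnerProductSpace ℝ V]
  [FiniteDimensional ℝ V] (m : V →ₗ[ℝ] V →ₗ[ℝ] V), LSA m → ∀ x : V,
    ∃ (e₁ : ℝ) (y : ℝ → V), 0 < e₁ ∧ y 0 = x ∧ ∀ r : ℝ, |r| < e₁ →
      HasDerivAt y (m (y r) (y r)) r ∧ 0 < FF m (r • x) ∧
        ∀ e : ℝ, FF m (r • x) * FF m (e • y r) = FF m ((r + e) • x)

/-! ### rank one elements -/

/-- **C1c** (1 h). The set `C1` of the rank one elements: `F(e c) = 1 - e`; compact.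

Proof. (1) `Tr` (4) for `T = R_c`. (2) closed (`pw` and `tr` are continuous; or by (1) and the continuity of
`F`, `DF` (3)) and contained in the unit sphere: `⟨c, c⟩ = s(c * c) = p_2(c) = 1`. needs: Tr, K1, DF -/
def St_C1c : Prop := ∀ (V : Type) [NormedAddCommGroup V] [InnerProductSpace ℝ V]
  [FiniteDimensional ℝ V] (m : V →ₗ[ℝ] V →ₗ[ℝ] V), Good m →
    (∀ c : V, c ∈ C1 m ↔ ∀ e : ℝ, FF m (e • c) = 1 - e) ∧ IsCompact (C1 m)

/-- **C1n** (4 h). (4.3) There are rank one elements. (New proof, no limit of the flow.)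

Proof. `n = dim V ≥ 1`, `R = Fin n`. Step 1: there are `x₀` and an injective `λ : Fin n → ℝ` with
`χ(R_(x₀)) = ∏ (X - λ_i)` and some `λ_i > 0`: if `n ≥ 2` take an ND point (`P3`), replace it by its
negative if necessary; if `n = 1` take any vector `≠ 0` (`Σ λ² = |x|²`). We may assume that `λ_0` is
the largest one (permute). So there is `κ < 1`, `κ ≥ 0`, with `λ_i ≤ κ λ_0` for `i ≠ 0`; scale `x₀` such that
`|x₀| = 1`. Step 2: let `Σ` be the set of the pairs `(x, λ)` in `V × ℝ^n` with `|x| = 1`, `F(e x) = ∏ (1 - e λ_i)` for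
all `e`, `λ_0 ≥ 0`, `λ_i ≤ κ λ_0` for `i ≠ 0`. It is closed, `Σ λ_i² = p_2(x) = 1`, so it is compact; it is not empty.
Let `(x, λ)` be a point of `Σ` where `λ_0 =: l` is maximal, so `l > 0`. Step 3: take `y = y(r)` as in `R1` for a small
`r > 0` with `r l < 1`. `F(e y) = F((r + e) x) / F(r x) = ∏ (1 - e μ_i)`, `μ_i = λ_i / (1 - r λ_i)` (`1 - r λ_i ≥ 1 - r l > 0`).
`μ_i ≤ κ μ_0` for `i ≠ 0` (`t ↦ t / (1 - r t)` is increasing for `t < 1 / r`, and `κ l / (1 - r κ l) ≤ κ l / (1 - r l)`). So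
`(y / N, μ / N)` is in `Σ`, `N = |y|`, `N² = Σ μ_i²`. Maximality: `μ_0 / N ≤ l`, `1 / (1 - r l) ≤ N`. But
`N² = Σ λ_i² / (1 - r λ_i)² ≤ Σ λ_i² / (1 - r l)² = 1 / (1 - r l)²`. So all these inequalities are equalities:
for every `i`, `λ_i = 0` or `λ_i = l`. So `λ_i = 0` for `i ≠ 0`, `l = 1`, `F(e x) = 1 - e`: `x` is in `C1`.
needs: Tr, K1, P3, R1, C1c, DF -/
def St_C1n : Prop := ∀ (V : Type) [NormedAddCommGroup V] [InnerProductSpace ℝ V]
  [FiniteDimensional ℝ V] (m : V →ₗ[ℝ] V →ₗ[ℝ] V), Good m → Nontrivial V → (C1 m).Nonempty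

/-- **NUM** (1.5 h). An inequality for real power sums.

Proof. Let `a = λ_j` have the largest absolute value, `r² = p_2 - a²` (the sum of the other squares).
`|p_3| ≤ |a| p_2`, so `r² p_2² ≤ p_2³ - p_3² = D`, `0 ≤ D` and `r² ≤ 4 D`. `p_4 = a⁴ + s₄`, `0 ≤ s₄ ≤ r⁴`;
`p_3 = a³ + s₃`, `|s₃| ≤ r³`; `a², r² ≤ 2`. So `|p_4³ - a¹²| ≤ K r³`, `|p_3⁴ - a¹²| ≤ K r³`, and
`(p_4³ - p_3⁴)² ≤ 4 K² r⁶ ≤ 256 K² D³`. needs: nothing -/
def St_NUM : Prop := ∃ K : ℝ, ∀ (n : ℕ) (l : Fin n → ℝ), 1 / 2 ≤ ∑ i, l i ^ 2 →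
  ∑ i, l i ^ 2 ≤ 2 → 0 ≤ (∑ i, l i ^ 2) ^ 3 - (∑ i, l i ^ 3) ^ 2 ∧
    ((∑ i, l i ^ 4) ^ 3 - (∑ i, l i ^ 3) ^ 4) ^ 2 ≤
      K * ((∑ i, l i ^ 2) ^ 3 - (∑ i, l i ^ 3) ^ 2) ^ 3

/-- **N1a** (2 h). (2.2), (4.4). The symmetric part `F_x` of `L_x`, and first order identities at `c ∈ C1`.

Proof. (1) `K1` (4). (2) `2 ⟨F_x u, v⟩ = ⟨x * u, v⟩ + ⟨u, x * v⟩ = s((x * u) * v + (x * v) * u)` and `K1` (5) (with
`x, y, v` there `= v, u, x`). So `F_x` is symmetric and `⟨F_x u, v⟩` is symmetric in `x, u, v`. (3) rewrite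
`⟨x, u * v⟩ = ⟨u * v, x⟩ = 2 ⟨F_u v, x⟩ - ⟨v, u * x⟩ = 2 ⟨F_x u, v⟩ - ⟨R_x u, v⟩`. (4) Let `c ∈ C1`, `k ≥ 1`. All eigenvalues
satisfy `|λ| ≤ (Σλ²)^(1/2)`, so `p_(k+1)(x)² ≤ p_2(x)^(k+1)`, with equality at `c`; the function
`e ↦ p_2(c + e v)^(k+1) - p_(k+1)(c + e v)²` is `≥ 0`, and `0` at `e = 0`; its derivative at `0` is (`DT`, `K1` (2))
`(k+1) 2 ⟨c, v⟩ - 2 (k+1) s(R_c^k v)`. (5) `⟨c, R_c v⟩ = s(R_c (R_c v)) = ⟨c, v⟩` by (4). (6) `⟨F_c c, v⟩ = tr(R_c² R_v) =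
s(R_c² v) = ⟨c, v⟩` (by (2)). (7) `c * c`-free: clear from `C1`, `Tr` (5). needs: Tr, DT, K1 -/
def St_N1a : Prop := ∀ (V : Type) [NormedAddCommGroup V] [InnerProductSpace ℝ V]
  [FiniteDimensional ℝ V] (m : V →ₗ[ℝ] V →ₗ[ℝ] V), Good m →
    (∀ x y : V, inner ℝ x y = LinearMap.trace ℝ V (m.flip x * m.flip y)) ∧
    (∀ x u v : V, inner ℝ (Fs m x u) v = (1 / 2 : ℝ) * LinearMap.trace ℝ V
      (m.flip x * m.flip u * m.flip v + m.flip x * m.flip v * m.flip u)) ∧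
    (∀ x u v : V, inner ℝ x (m u v) = (2 : ℝ) * inner ℝ (Fs m x u) v - inner ℝ (m u x) v) ∧
    (∀ x : V, (Fs m x).IsSymmetric) ∧
    ∀ c ∈ C1 m, (∀ (k : ℕ) (v : V), 1 ≤ k → tr m ((m.flip c ^ k) v) = inner ℝ c v) ∧
      (∀ v : V, inner ℝ c (m v c) = (inner ℝ c v : ℝ)) ∧ Fs m c c = c ∧ inner ℝ c c = (1 : ℝ)

/-- **N1b** (2.5 h). (4.5). Second order identities at `c ∈ C1`.

Proof. `H(u, v)` := the trace on the left of (1) (symmetric in `u, v`). (1) It suffices to take `u = v`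
(polarisation). With `g = ⟨c, v⟩`, `f = ⟨F_c v, v⟩`: `p_2(c + e v) = 1 + 2 e g + e² |v|²`, `p_3(c + e v) = 1 + 3 e g + 3 e² f +
e³ p_3(v)`, `p_4(c + e v) = 1 + 4 e g + 2 e² H(v, v) + 4 e³ tr(R_c R_v³) + e⁴ p_4(v)` (`N1a`; expand the powers under the
trace). So `D(e) = p_2³ - p_3²` is a polynomial in `e` divisible by `e²`, and `p_4³ - p_3⁴ =
e² (6 H + 48 g² - 12 f - 54 g²) + e³ (...)`. By `NUM` (`|p_2 - 1| ≤ 1/2` for small `e`; `Tr`: the `p_k` are power sums of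
the real eigenvalues) `(p_4³ - p_3⁴)² ≤ K D³ = O(e⁶)`, so `6 H + 48 g² - 12 f - 54 g² = 0`: `H = 2 f + g²`.
(2) `K1` (6), `N1a`: `H(u, v) = s(R_u R_c² v) + s(R_c R_u R_c v) + s(R_c² R_u v) = ⟨u, R_c² v⟩ + ⟨c, (R_c v) * u⟩ + ⟨c, v * u⟩`
`= ⟨u, R_c² v⟩ + ⟨T R_c v, u⟩ + ⟨T v, u⟩`, `T = 2 F_c - R_c` (`N1a` (3)). With (1): `R_c² + T R_c + T = 2 F_c + c ⊗ c`, that is
`2 F_c R_c - R_c = c ⊗ c`. needs: Tr, DT, K1, N1a, NUM -/
def St_N1b : Prop := ∀ (V : Type) [NormedAddCommGroup V] [InnerProductSpace ℝ V]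
  [FiniteDimensional ℝ V] (m : V →ₗ[ℝ] V →ₗ[ℝ] V), Good m → ∀ c ∈ C1 m,
    (∀ u v : V, LinearMap.trace ℝ V (m.flip u * m.flip c * m.flip c * m.flip v +
        m.flip c * m.flip u * m.flip c * m.flip v + m.flip c * m.flip c * m.flip u * m.flip v) =
      2 * inner ℝ (Fs m c u) v + inner ℝ c u * inner ℝ c v) ∧
    ∀ v : V, (2 : ℝ) • Fs m c (m v c) - m v c = (inner ℝ c v : ℝ) • c

/-- **N2a** (2.5 h). (4.6) and its derivative. `η ≠ 1`, `δ = 1 - η`, `Q` the inverse of `1 - η R_c`.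

Proof. (0) `Q` exists: `det(1 - η R_c) = F(η c) = 1 - η` (`C1c`). (1) `s(Q w) = s(w) + (η/δ) ⟨c, w⟩`: `Q` is
`1 + Σ_(1 ≤ k < n) η^k R_c^k + (η^n / δ) R_c^n` (`R_c^(n+1) = R_c^n`, `Tr` (5), multiply by `1 - η R_c`), use
`N1a` (5) and `Σ_(1 ≤ k < n) η^k + η^n/δ = η/δ`; or: `w = z - η z * c`, `s(w) = s(z) - η ⟨z, c⟩`, `⟨c, w⟩ = (1 - η) ⟨c, z⟩`. (2)
`h_p(u, v) := tr(R_u Q R_v Q) = s(Q R_v Q u)` (`K2` (3), `p = η c`) `= s(R_v Q u) + (η/δ) ⟨c, (Q u) * v⟩ = ⟨v, (1 + (η/δ) T) Q u⟩`,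
`T = 2 F_c - R_c` (`N1a` (3)). And `E := 1 + (2η/δ) F_c + (η²/δ²) c ⊗ c` satisfies `E (1 - η R_c) = 1 + (η/δ)(2 F_c - R_c)`: use
`2 F_c R_c = R_c + c ⊗ c` (`N1b`), `⟨c, R_c v⟩ = ⟨c, v⟩` and `1 + η/δ = 1/δ`. So `h_p(u, v) = ⟨E u, v⟩`: this is (i). (ii) Differentiate (i) in
`η` (`Q` depends differentiably on `η`, `Q' = Q R_c Q`: inverse in the normed algebra `V →L[ℝ] V`, or the explicit
formula for `Q`); the derivative of the left side is `K2` (2) with `w = c`. needs: Tr, K1, K2, C1c, N1a, N1b -/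
def St_N2a : Prop := ∀ (V : Type) [NormedAddCommGroup V] [InnerProductSpace ℝ V]
  [FiniteDimensional ℝ V] (m : V →ₗ[ℝ] V →ₗ[ℝ] V), Good m → ∀ c ∈ C1 m, ∀ η : ℝ, η ≠ 1 →
    ∃ Q : V →ₗ[ℝ] V, (1 - η • m.flip c) * Q = 1 ∧ Q * (1 - η • m.flip c) = 1 ∧
      (∀ w : V, tr m (Q w) = tr m w + η / (1 - η) * inner ℝ c w) ∧
      (∀ u v : V, LinearMap.trace ℝ V (m.flip u * Q * m.flip v * Q) = inner ℝ u v +
        2 * η / (1 - η) * inner ℝ (Fs m c u) v +
        η ^ 2 / (1 - η) ^ 2 * (inner ℝ c u * inner ℝ c v)) ∧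
      ∀ u v : V, LinearMap.trace ℝ V (m.flip (m (Q c) u) * Q * m.flip v * Q) +
          LinearMap.trace ℝ V (m.flip u * Q * m.flip (m (Q c) v) * Q) =
        2 / (1 - η) ^ 2 * inner ℝ (Fs m c u) v +
          2 * η / (1 - η) ^ 3 * (inner ℝ c u * inner ℝ c v)

/-- **N2b** (1 h). (4.7) The eigenvalues of `F_c` on the orthogonal complement of `c` are in `[0, 1/2]`.
(New short proof, no differential equation.)

Proof. Let `F_c v = φ v`, `v ⟂ c`, `v ≠ 0`, and suppose `φ < 0` or `φ > 1/2`. Then `δ := 2φ / (2φ - 1) > 0`; put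
`η = 1 - δ < 1`. `N2a` (i): `h_p(v, x) = (1 + 2ηφ/δ) ⟨v, x⟩ = 0` for all `x` since `δ + 2ηφ = δ (1 - 2φ) + 2φ = 0`. `N2a` (ii) with
`u = v`: the left side is `h_p(M v, v) + h_p(v, M v) = 0` (`h_p` is symmetric), the right side is
`(2/δ²) φ |v|² ≠ 0`. Contradiction. needs: N2a -/
def St_N2b : Prop := ∀ (V : Type) [NormedAddCommGroup V] [InnerProductSpace ℝ V]
  [FiniteDimensional ℝ V] (m : V →ₗ[ℝ] V →ₗ[ℝ] V), Good m → ∀ c ∈ C1 m, ∀ (φ : ℝ) (v : V),
    v ≠ 0 → inner ℝ c v = (0 : ℝ) → Fs m c v = φ • v → 0 ≤ φ ∧ φ ≤ 1 / 2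

/-! ### the leaf -/

/-- **N3** (3 h). (4.8), (5.1). There is `c ∈ C1` such that `D = F_c` satisfies `2 D² = D + c ⊗ c`.

Proof. Let `c` in `C1` (compact, not empty: `C1c`, `C1n`) maximise `ρ(c) = tr L_c`. (a) `R1` at `x = c`: `F(r c) = 1 - r`,
so `z(r) = (1 - r) y(r)` satisfies `F(e z(r)) = 1 - e`, `z(r)` is in `C1`; `ρ(z(r))` has a maximum at
`r = 0`, so its derivative `ρ(c * c - c)` is `0`. (b) `K1` (7), `N1a` (2), `N1b` (1): for all `u, v`
`⟨F_(c*c) u, v⟩ + ⟨F_c (c * u), v⟩ + ⟨F_c u, c * v⟩ = 2 ⟨F_c u, v⟩ + ⟨c,u⟩⟨c,v⟩` (`F` is symmetric in all three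
arguments), so `F_(c*c) + F_c L_c + L_cᵀ F_c = 2 F_c + c ⊗ c`. Take traces: `tr F_x = tr L_x`, `tr(F_c L_c) = tr(L_cᵀ F_c) =
tr F_c²` (as `L_c + L_cᵀ = 2 F_c`), `tr(c ⊗ c) = 1`. So `0 = ρ(c * c) - ρ(c) = tr G`, `G = F_c - 2 F_c² + c ⊗ c`. (c) In an
orthonormal basis of eigenvectors of `F_c` (`LinearMap.IsSymmetric.eigenvectorBasis`) `G` is diagonal
with entries `≥ 0`: let `F_c v = φ v`, `|v| = 1`. `F_c c = c`. If `φ ≠ 1` then `v ⟂ c`, `G v = (φ - 2 φ²) v`, `≥ 0` by `N2b`. If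
`φ = 1` then `v' = v - ⟨c,v⟩ c` is orthogonal to `c` with `F_c v' = v'`, so `v' = 0` (`N2b`), and `G v = 0`. So `G = 0`.
needs: K1, N1a, N1b, N2b, R1, C1c, C1n -/
def St_N3 : Prop := ∀ (V : Type) [NormedAddCommGroup V] [InnerProductSpace ℝ V]
  [FiniteDimensional ℝ V] (m : V →ₗ[ℝ] V →ₗ[ℝ] V), Good m → Nontrivial V → ∃ c ∈ C1 m,
    ∀ x : V, (2 : ℝ) • Fs m c (Fs m c x) = Fs m c x + (inner ℝ c x : ℝ) • c

/-- `A(e) = e² c ⊗ c + e Π + Π₀`, `Π = 2 D - 2 c ⊗ c`, `Π₀ = 1 + c ⊗ c - 2 D`, `D = F_c` -/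
def Ae {V : Type} [NormedAddCommGroup V] [InnerProductSpace ℝ V] [FiniteDimensional ℝ V]
    (m : V →ₗ[ℝ] V →ₗ[ℝ] V) (c : V) (e : ℝ) : V →ₗ[ℝ] V :=
  e ^ 2 • cc c + e • ((2 : ℝ) • Fs m c - (2 : ℝ) • cc c) + (1 + cc c - (2 : ℝ) • Fs m c)

/-- **N4a** (4 h). (5.2), first part. The norm of the deformed products is constant.

Proof. `D = F_c` is symmetric, `D c = c`, `2 D² = D + c ⊗ c`: `c ⊗ c`, `Π`, `Π₀` are commuting orthogonal
projections with sum `1`, `A(1/e)` is the inverse of `A = A(e)`. For `e > 0` put `η = 1 - e²`, `Q` = inverse of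
`1 - η R_c`, `m_e(a, x) = A⁻¹((Q A a) * (A x))`. Derivatives with respect to `η` (`de/dη = -1/(2e)`): `A' = dA/dη` commutes with
`A`; `Q' = Q R_c Q`. `E = A⁻²` is the operator `E` of `N2a`: `1 + (2η/δ) D + (η²/δ²) c ⊗ c`, `δ = e²`, so `N2a` (i), (ii) say with
`M = L_(Q c)`: `E' = E M + Mᵀ E`, that is `-2 A⁻¹ A' = A⁻¹ M A + A Mᵀ A⁻¹`; so `Y := A⁻¹ A' + A⁻¹ M A` is skew. By `K2` (1)
(`w = c`, `p = η c`; `Q (A a)` etc.) the derivative of `m_e(a, x)` is `- (Y m_e(a, x) - m_e(Y a, x) - m_e(a, Y x))`. So the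
derivative of `N = Σ_(i,j) |m_e(b_i, b_j)|²` is `-2 Σ ⟨m_e(b_i,b_j), Y m_e(b_i,b_j) - m_e(Y b_i, b_j) - m_e(b_i, Y b_j)⟩`
`= 0` since `Y` is skew (expand `Y b_i` in the basis). So `N` is constant on `e > 0` (as a function of `η < 1`), and at
`e = 1`: `A = 1`, `Q = 1`. (Calculus in `V →L[ℝ] V`: `HasDerivAt.clm_apply`, `HasDerivAt.clm_comp`.) needs: K2, N1a, N2a -/
def St_N4a : Prop := ∀ (V : Type) [NormedAddCommGroup V] [InnerProductSpace ℝ V]
  [FiniteDimensional ℝ V] (m : V →ₗ[ℝ] V →ₗ[ℝ] V), Good m → ∀ c ∈ C1 m,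
    (∀ x : V, (2 : ℝ) • Fs m c (Fs m c x) = Fs m c x + (inner ℝ c x : ℝ) • c) →
    ∀ (n : ℕ) (b : OrthonormalBasis (Fin n) ℝ V) (e : ℝ) (Q : V →ₗ[ℝ] V), 0 < e →
      (1 - (1 - e ^ 2) • m.flip c) * Q = 1 →
      ∑ i, ∑ j, ‖Ae m c e⁻¹ (m (Q (Ae m c e (b i))) (Ae m c e (b j)))‖ ^ 2 =
        ∑ i, ∑ j, ‖m (b i) (b j)‖ ^ 2

/-- **N4b** (3 h). (5.2), second part. `L_c = F_c`.

Proof. `Q = Q(e) = Σ_(k < n - 1) η^k R_c^k + (η^(n-1) / e²) R_c^(n-1)`, `η = 1 - e²` (`Tr` (5)), `A(e)`, `A(1/e)` are Laurent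
polynomials in `e`; so for all `a, x, z` the function `e ↦ ⟨m_e(a, x), z⟩` (`e > 0`) is a Laurent polynomial (there are `N`
and a polynomial `q` with `e^N ⟨m_e(a, x), z⟩ = q(e)`; these functions form a ring). By `N4a` it is bounded on
`(0, ∞)` for basis vectors `a, x` and so for all `a, x`. A bounded Laurent polynomial on `(0, ∞)` is constant (`e → ∞`:
`deg q ≤ N`; `e → 0`: `e^N` divides `q`). So `m_e(a, x) = m_1(a, x) = a * x`. Derivative at `e = 1`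
(`A' = 2 D`, `(A⁻¹)' = -2 D`, `Q' = -2 R_c`): `0 = -2 D (a * x) + (2 D a - 2 R_c a) * x + a * (2 D x)`, so
`D (a * x) = (D a) * x + a * (D x) - (a * c) * x`. The LSA identity says
`c * (a * x) = (c * a) * x + a * (c * x) - (a * c) * x`. So `L_c - D` is a derivation, `0` by `P2`. needs: Tr, P2, N4a -/
def St_N4b : Prop := ∀ (V : Type) [NormedAddCommGroup V] [InnerProductSpace ℝ V]
  [FiniteDimensional ℝ V] (m : V →ₗ[ℝ] V →ₗ[ℝ] V), Good m → ∀ c ∈ C1 m,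
    (∀ x : V, (2 : ℝ) • Fs m c (Fs m c x) = Fs m c x + (inner ℝ c x : ℝ) • c) →
    m c = Fs m c

/-- **N5** (2 h). (5.3) The element `c` is a leaf.

Proof. `R = R_c`, `D = L_c = F_c`. `R c = c * c = D c = c`. `[D, R] = [L_c, R_c] = R_(c * c) - R² = R - R²` (`K1` (1)).
`(2 D - 1) R = c ⊗ c` (`N1b` (2)). Let `u ⟂ c`; `⟨c, R u⟩ = ⟨c, u⟩ = 0` (`N1a`). `2 D R u = R u`, so `R u` is in the
`1/2`-eigenspace of `D`. `Π u = 2 D u - 2 ⟨c,u⟩ c = 2 D u` and `Π₀ u = u - 2 D u`; both are orthogonal to `c`, so it suffices to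
show `R u = 0` if `D u = u/2` and if `D u = 0`. If `D u = u/2`: `[D, R] u = (R u)/2 - (R u)/2 = 0`, so `R² u = R u`. If `D u = 0`: `[D, R] u =
(R u)/2`, so `R² u = (R u)/2`. `w = R u`, `w ⟂ c`, `R w = w` or `R w = w/2`. In the second case `R^n = R^(n-1)`
(`Tr` (5)) gives `w = 0`. In the first case: `R^n` is idempotent with trace `1` (`Tr` (5)), so of rank one, and `c`,
`w` are in its range; `w` is a multiple of `c` and `w ⟂ c`, so `w = 0`. So `a * c = R a = ⟨c, a⟩ c`.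
The other fields are clear. needs: Tr, K1, N1a, N1b, N4b -/
def St_N5 : Prop := ∀ (V : Type) [NormedAddCommGroup V] [InnerProductSpace ℝ V]
  [FiniteDimensional ℝ V] (m : V →ₗ[ℝ] V →ₗ[ℝ] V), Good m → ∀ c ∈ C1 m,
    (∀ x : V, (2 : ℝ) • Fs m c (Fs m c x) = Fs m c x + (inner ℝ c x : ℝ) • c) → Leaf m c

/-- **Lf** (0.2 h). Every nonzero normalised algebra has a leaf. needs: N3, N5 -/
def St_Lf : Prop := ∀ (V : Type) [NormedAddCommGroup V] [InnerProductSpace ℝ V]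
  [FiniteDimensional ℝ V] (m : V →ₗ[ℝ] V →ₗ[ℝ] V), Good m → Nontrivial V → ∃ c : V, Leaf m c

/-! ### the bridge -/

open Helper28.Nij in
/-- **B1a** (2.5 h). Admissible collections: `det J ≠ 0` and `J M = C J` with a matrix `M` of linear forms.

Proof. `Pool/Agent/Helper36/Nij3/AdmGood.lean` has everything for `Fin 3` (`D_eq`, `det_ne_zero_of_indep`,
`admissible_good`; the part about Kähler differentials is already general): the same proofs for `Fin n`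
(import that file for `diffInd_linearIndependent`; do not change it). -/
def St_B1a : Prop := ∀ (n : ℕ) (σ : Fin n → MvPolynomial (Fin n) ℝ), Admissible σ →
  (jac σ).det ≠ 0 ∧ ∃ M : Matrix (Fin n) (Fin n) (MvPolynomial (Fin n) ℝ),
    (∀ i j, (M i j).IsHomogeneous 1) ∧ jac σ * M = comp σ * jac σ

open Helper28.Nij in
/-- **B1b** (4 h). From admissible collections to left-symmetric algebras.

Proof. `M` as in `B1a`, `(a * x)_i = Σ_j M_ij(x) a_j` (bilinear since the `M_ij` are linear forms; in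
`St_B1b` `m` is given by this formula). Let `D_a = Σ a_j ∂_j`, `X_a = Σ_j (a * x)_j ∂_j` (derivations of the polynomial
ring), `s(a) = - D_a σ_1` (a number), `σ_0 = 1`, `σ_(n+1) = 0`. `J M = C J` says
`(*) X_a σ_i = D_a σ_(i+1) + s(a) σ_i` for `i = 1..n`. `[X_a, D_b] = - D_(a * b)` (linear coefficients), so
`X_a X_b σ_i = X_a (D_b σ_(i+1) + s(b) σ_i) = D_b D_a σ_(i+2) + s(a) D_b σ_(i+1) + s(b) D_a σ_(i+1) + s(a) s(b) σ_i - D_(a * b) σ_(i+1)`
(for `i = n` the terms with `σ_(n+1), σ_(n+2)` vanish), `[X_a, X_b] σ_i = - D_([a,b]) σ_(i+1) = - X_([a,b]) σ_i + s([a,b]) σ_i`. (*) for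
`i = 1` at `x`: `s(a * x) = s(a) s(x) - D_a σ_2 (x)`, symmetric in `a`, `x`, so `s([a,b]) = 0`. `[X_a, X_b]` is the derivation with
coefficients `- ([L_a, L_b] x)_j`. So `J(x) ((L_([a,b]) - [L_a, L_b]) x) = 0` as polynomials, and `det J ≠ 0`: LSA. Characteristic
polynomial: over `(MvPolynomial)[t]`: `det J det(t - M) = det(t - C) det J`, so `charpoly M = charpoly C`; and
`(t^(n-1), …, t, 1)(t - C) = (P, 0, …, 0)`, `P = t^n + Σ σ_k t^(n-k)`, multiply with the adjugate: `det(t - C) = P q`, both monic of degree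
`n`, `q = 1`. Evaluate at `x`: (2). ND at a point `x` with `det J(x) ≠ 0`: if `s(R_x^k v) = 0` for all `k` then by `DT`, `K1` (2) the
derivatives of all `p_k` at `x` in the direction `v` vanish, by the Newton identities (or by `DF`: `dP t x v`; the
coefficients of `charpoly` are polynomials in the `p_k`, `Matrix.charpoly` and `MvPolynomial.psum`/`esymm`) those of all `σ_k` too, so
`J(x) v = 0`, `v = 0`. [Alternative for ND: `K1` (3) with `g` the polynomial `adj`: `d_v P(x, t) = - tr(adj(t - R_x) R_v) =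
- s(adj(t - R_x) v)`, `adj(t - R_x) = Σ_j t^(n-1-j) (R_x^j + σ_1 R_x^(j-1) + …)`.] needs: B1a, DT, K1, DF -/
def St_B1b : Prop := ∀ (n : ℕ) (σ : Fin n → MvPolynomial (Fin n) ℝ), Admissible σ →
  ∃ m : (Fin n → ℝ) →ₗ[ℝ] (Fin n → ℝ) →ₗ[ℝ] (Fin n → ℝ), LSA m ∧ ND m ∧
    ∀ (x : Fin n → ℝ) (k : Fin n),
      (m.flip x).charpoly.coeff (n - 1 - k) = MvPolynomial.eval x (σ k)

open Helper28.Nij in
/-- **B2** (3.5 h). From left-symmetric algebras to admissible collections.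

Proof. Let `(a * x)_i = Σ_j M_ij(x) a_j`, `M` a matrix of linear forms. `σ_k` is the coefficient of the characteristic
polynomial of `M` (equality of polynomials from equality of values, `MvPolynomial.funext`), homogeneous of
degree `k + 1` (`Matrix.charpoly.univ_coeff_isHomogeneous`, or: `σ_k(c x) = c^(k+1) σ_k(x)` for all real `c`). `DF`: for all `x, v, t`,
`d_(v * x) P = t d_v P + s(v) P`; compare the coefficients of `t`: `(J M)(x) = (C J)(x)` for all `x`, so `J M = C J`. `det J ≠ 0`: let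
`x` be an ND point and `J(x) v = 0`: all derivatives of `σ_k` in the direction `v` vanish, so those of all
power sums `p_k` (Newton; or see `B1b`), `s(R_x^k v) = 0` for all `k` (`DT`, `K1`), `v = 0`. Then `adj(J) C J = adj(J) J M = det J • M`
(divisibility), and `indep_of_det`. needs: DF, DT, K1 -/
def St_B2 : Prop := ∀ (n : ℕ) (σ : Fin n → MvPolynomial (Fin n) ℝ)
  (m : (Fin n → ℝ) →ₗ[ℝ] (Fin n → ℝ) →ₗ[ℝ] (Fin n → ℝ)), LSA m → ND m →
    (∀ (x : Fin n → ℝ) (k : Fin n),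
      (m.flip x).charpoly.coeff (n - 1 - k) = MvPolynomial.eval x (σ k)) → Admissible σ

/-- **B3** (1 h). Real-rootedness of the collection and of the algebra.

Proof. The characteristic polynomial `χ` of `R_x` is monic of degree `n` with these coefficients; the sum in
`RealRooted` is its value at `z`. `χ` splits over `ℝ` iff all its complex roots are real (split over `ℂ`:
`IsAlgClosed.splits`, `Polynomial.Splits` over `ℝ` iff the roots of the map to `ℂ` are in the range). needs: nothing -/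
def St_B3 : Prop := ∀ (n : ℕ) (σ : Fin n → MvPolynomial (Fin n) ℝ)
  (m : (Fin n → ℝ) →ₗ[ℝ] (Fin n → ℝ) →ₗ[ℝ] (Fin n → ℝ)),
    (∀ (x : Fin n → ℝ) (k : Fin n),
      (m.flip x).charpoly.coeff (n - 1 - k) = MvPolynomial.eval x (σ k)) →
    (RR m ↔ RealRooted σ)

end Pool.Agent.RRC
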