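import Pool.Agent.RRC.Defs2
import Pool.Agent.RRC.St1

/-!
# Real-rooted admissible collections: statements of part 2 (MP_835236_al)

Paper text: LIFT_MP_835236_al_helper69_2.md (sections 6-9) in the team store. Numbers `(6.4)` etc.
refer to it. Every statement has its complete proof in its docstring.
-/

open Matrix Polynomial

namespace Pool.Agent.RRC

/-! ### Interface with part 1: `St_K1`, `St_dpw`, `St_P3`, `St_Norm`, `St_Lf`, `St_B1b`, `St_B2`,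
`St_B3` of `St1.lean`, and -/

/-- [SIM] (3.3) Simple roots. From `St_P3` by `Polynomial.nodup_roots_iff_of_splits`. -/
def St_Simple : Prop := ∀ (V : Type) [AddCommGroup V] [Module ℝ V] [Module.Finite ℝ V]
  (m : V →ₗ[ℝ] V →ₗ[ℝ] V), LSA m → RR m → ∀ x, NDat m x → (m.flip x).charpoly.Separable

/-! ### A. Generalities -/

/-- [TRA] Transport along isomorphisms.
Proof. `m'.flip (Ψ x) = Ψ.conj (m.flip x)` (ext; write `a' = Ψ (Ψ.symm a')`), so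
`LinearEquiv.charpoly_conj`, `LinearMap.trace_conj'`, and
`(m'.flip (Ψ x) ^ k) (Ψ v) = Ψ ((m.flip x ^ k) v)` (induction on `k`, `pow_succ'`). -/
def St_Tra : Prop := ∀ (V V' : Type) [AddCommGroup V] [Module ℝ V] [Module.Finite ℝ V]
  [AddCommGroup V'] [Module ℝ V'] [Module.Finite ℝ V']
  (m : V →ₗ[ℝ] V →ₗ[ℝ] V) (m' : V' →ₗ[ℝ] V' →ₗ[ℝ] V') (Ψ : V ≃ₗ[ℝ] V'), AIso m m' Ψ →
  AIso m' m Ψ.symm ∧ (LSA m → LSA m') ∧
  (∀ x, (m.flip x).charpoly = (m'.flip (Ψ x)).charpoly) ∧ (∀ x, tr m x = tr m' (Ψ x)) ∧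
  (∀ x, NDat m x → NDat m' (Ψ x)) ∧ (ND m → ND m') ∧ (RR m → RR m') ∧
  ∀ (H : Type) [NormedAddCommGroup H] [InnerProductSpace ℝ H] [FiniteDimensional ℝ H]
    (r : V →ₗ[ℝ] (H →ₗ[ℝ] H)), Rep m r → Rep m' (r ∘ₗ Ψ.symm.toLinearMap) ∧
      ∀ x, SS (r ∘ₗ Ψ.symm.toLinearMap) (Ψ x) = SS r x

/-- [CYC] Cyclic operators.
Proof. (a) `S` symmetric with separable characteristic polynomial: all roots are real
(`LinearMap.IsSymmetric`), the eigenvalues `λ_i` of the orthonormal eigenbasis `z_i`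
(`LinearMap.IsSymmetric.eigenvectorBasis`) are different (the characteristic polynomial is
`∏ (X - λ_i)`, so `λ` is injective if it is separable: `LinearMap.IsSymmetric` spectral theorem, or
`Matrix.IsHermitian.charpoly_eq` and `OrthonormalBasis`); `v = ∑ z_i` is cyclic: if `z` is
orthogonal to all `S^k v` then `∑ λ_i^k ⟨z, z_i⟩ = 0` for all `k`, so (Lagrange interpolation:
`∑ p(λ_i) ⟨z, z_i⟩ = 0` for every polynomial `p`) `⟨z, z_i⟩ = 0` for all `i`, `z = 0`; so the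
orthogonal complement of the span is `⊥` and the span is `⊤`.
(b) `v` cyclic, `K v = p(S) v` for some `p` (`K v` is in the span of the `S^k v`), and then
`K (S^k v) = S^k (K v) = S^k p(S) v = p(S) S^k v`, so `K = p(S)` on the span of the `S^k v`, `⊤`.
(c) `v` cyclic. Some combination `z₀ = α z + β z' ≠ 0`... if `z, z'` are independent there are
`(α, β) ≠ 0` with `⟨α z + β z', v⟩ = 0`; `z₀ = α z + β z'` has `⟨z₀, S^k v⟩ = λ^k ⟨z₀, v⟩ = 0` for all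
`k`, so `z₀ = 0`. (Direct form: `z₀ = ⟨z, v⟩ z' - ⟨z', v⟩ z` is orthogonal to all `S^k v`, so `z₀ = 0`;
and `⟨z, v⟩ ≠ 0`, otherwise `z` is orthogonal to all `S^k v`, `z = 0`; so
`z' = (⟨z', v⟩ / ⟨z, v⟩) z`.)
(d) `v` cyclic for `S`, then `π v` is cyclic for `S₂`: `S₂^k (π v) = π (S^k v)` and `π` maps the span
onto the span. -/
def St_Cyc : Prop := ∀ (H : Type) [NormedAddCommGroup H] [InnerProductSpace ℝ H]
  [FiniteDimensional ℝ H] (S : H →ₗ[ℝ] H),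
  (S.IsSymmetric → S.charpoly.Separable → Cyc S) ∧
  (Cyc S → ∀ K : H →ₗ[ℝ] H, K ∘ₗ S = S ∘ₗ K → ∃ p : ℝ[X], K = aeval S p) ∧
  (Cyc S → S.IsSymmetric → ∀ (l : ℝ) (z z' : H), S z = l • z → S z' = l • z' → z ≠ 0 →
    ∃ t : ℝ, z' = t • z) ∧
  (Cyc S → ∀ (H2 : Type) [AddCommGroup H2] [Module ℝ H2] (S2 : H2 →ₗ[ℝ] H2) (π : H →ₗ[ℝ] H2),
    Function.Surjective π → π ∘ₗ S = S2 ∘ₗ π → Cyc S2)

/-- [CYL] The set of all `t` for which `A + t B` is not cyclic is finite if `A + t₀ B` is cyclic.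
Proof. `d = dim H`, `v` cyclic for `A + t₀ B`. By Cayley-Hamilton (`LinearMap.aeval_self_charpoly`,
every `S^k v` is in the span of the `S^j v`, `j < d`) the vectors `(A + t₀ B)^j v`, `j < d`, span
`H`, so they are a basis `b` (`d` vectors). Let `D(t)` be the determinant (in the basis `b`,
`b.det`) of the vectors `(A + t B)^j v`, `j < d`. It is a polynomial function of `t` (there is
`p : ℝ[X]` with `D(t) = p.eval t`: the coordinates of `(A + t B)^j v` are polynomial functions of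
`t` by induction on `j`: work with the matrices of `A`, `B` over `ℝ[X]`, or prove that functions
`f : ℝ → ℝ` of the form `t ↦ p.eval t` are closed under sums and products) and `D(t₀) = 1`. So `p ≠ 0`
has only finitely many zeros, and for `D(t) ≠ 0` the vectors span `H`. -/
def St_CycLine : Prop := ∀ (H : Type) [NormedAddCommGroup H] [InnerProductSpace ℝ H]
  [FiniteDimensional ℝ H] (A B : H →ₗ[ℝ] H) (t₀ : ℝ), Cyc (A + t₀ • B) →
  {t : ℝ | ¬ Cyc (A + t • B)}.Finite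

/-! ### B. Extensions (6.1)-(6.5) -/

/-- [EXT1] (6.5) The extension is left-symmetric. Both sides are bilinear expressions in the
components: write `a = (α, u, b)`, `a' = (α', u', b')`, `x = (γ, w, y)`, use `extm_apply` and compare
the three components. Facts used: `SS r y` is symmetric
(`inner (SS r y u) w = inner u (SS r y w)`), `SS r (m b y) = r b ∘ₗ SS r y + SS r y ∘ₗ (r b).adjoint`
with `(r b).adjoint = SS r b - r b`, `r (m b b' - m b' b) = [r b, r b']`, `LSA m`. The identities for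
the single types (`c = (1,0,0)`, `w`, `y`): (w,w',y): symmetry of `S_y`; (y,w,w'):
`S_y = r(y) + r(y)ᵀ`; (y,w,y'): the first identity of `Rep`; (y,y',w): the second one. -/
def St_Ext1 : Prop := ∀ (V : Type) [AddCommGroup V] [Module ℝ V] (H : Type)
  [NormedAddCommGroup H] [InnerProductSpace ℝ H] [FiniteDimensional ℝ H]
  (m : V →ₗ[ℝ] V →ₗ[ℝ] V) (r : V →ₗ[ℝ] (H →ₗ[ℝ] H)), LSA m → Rep m r → LSA (extm m r)

/-- [EXT2] (6.3) The characteristic polynomial and the trace of the extension.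
Proof. `R = (extm m r).flip x`, `x = (γ, w, y)`: `R (α, u, b) = (α γ + ⟨u, w⟩,
(α/2) w + S_y u + r(b) w, b * y)`. Under `ℝ × H × V ≃ (ℝ × H) × V` (`LinearEquiv.prodAssoc`) it is
block triangular: `(p, b) ↦ (blk γ w (SS r y) p + Z b, m.flip y b)` with `Z b = (0, r(b) w)`. Matrix
in bases of `ℝ × H` and `V` (`Basis.prod`, `LinearMap.charpoly_toMatrix`):
`Matrix.fromBlocks A B 0 D`, `Matrix.charpoly_fromBlocks_zero₂₁`. The trace in the same way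
(`LinearMap.trace_eq_matrix_trace`, `Matrix.trace_fromBlocks`), `trace (blk γ w S) = γ + trace S`
(again blocks for `ℝ × H`). The last part: matrix of `blk γ w S` in the basis
`(√2⁻¹ (1,0)?)`: in the basis `(1, 0), (0, b_i)` it is `[[γ, wᵀ], [w/2, S]]`; conjugate with
`diag(1, √2)`: take the basis `(1, 0), (0, (1/√2) b_i)`: the matrix is exactly
`[[γ, w_i/√2], [w_i/√2, S]]` (`(0, b_j/√2) ↦ (w_j/√2, (1/√2) S b_j)`,
`(1, 0) ↦ (γ, (1/2) w) = γ (1,0) + ∑ (w_i/√2) (0, b_i/√2)`). -/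
def St_Ext2 : Prop := ∀ (V : Type) [AddCommGroup V] [Module ℝ V] [Module.Finite ℝ V] (H : Type)
  [NormedAddCommGroup H] [InnerProductSpace ℝ H] [FiniteDimensional ℝ H]
  (m : V →ₗ[ℝ] V →ₗ[ℝ] V) (r : V →ₗ[ℝ] (H →ₗ[ℝ] H)) (x : ℝ × H × V),
  ((extm m r).flip x).charpoly =
    (m.flip x.2.2).charpoly * (blk x.1 x.2.1 (SS r x.2.2)).charpoly ∧
  tr (extm m r) x = x.1 + LinearMap.trace ℝ H (SS r x.2.2) + tr m x.2.2 ∧
  ∀ (ι : Type) [Fintype ι] [DecidableEq ι] (b : OrthonormalBasis ι ℝ H),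
    (blk x.1 x.2.1 (SS r x.2.2)).charpoly =
      (bmat x.1 (fun i => b.repr x.2.1 i) (omat b (SS r x.2.2))).charpoly

/-- [EXG] The idempotent polynomial.
Proof. `R = (extm m r).flip x`, `P₀ = (m.flip y).charpoly`, `P₁ = (blk ..).charpoly`, Bezout
`u P₀ + v P₁ = 1`, `g = v P₁ = 1 - u P₀`. With `i : ℝ × H → ℝ × H × V`, `(α, u) ↦ (α, u, 0)`, and
`q : ℝ × H × V → V` the projection: `R ∘ i = i ∘ blk`, `q ∘ R = (m.flip y) ∘ q`, so for every
polynomial `f`: `f(R) ∘ i = i ∘ f(blk)`, `q ∘ f(R) = f(m.flip y) ∘ q`. By Cayley-Hamilton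
(`LinearMap.aeval_self_charpoly`) `g(R) ∘ i = 0`, `q ∘ g(R) = q`. Third part: by `St_K1` (3) (linearity in
the polynomial: `tr M (f(R) v) = trace (f(R) * M.flip v)`, `M = extm m r`)
`tr M (R^k (g(R) v)) = trace Z`, `Z = R^k g(R) R_v`; `R_v ∘ i = i ∘ (..)` so `Z ∘ i = 0` (`g(R) ∘ i = 0`,
`R_v` maps the image of `i` into itself), `q ∘ Z = Z₀ ∘ q`, `Z₀ = (m.flip y)^k (m.flip v₂₂)`. With the
section `j : V → ℝ × H × V`, `j b = (0, 0, b)`: `Z = Z ∘ j ∘ q` (since `v - j (q v)` is in the image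
of `i`), `trace Z = trace (q ∘ Z ∘ j) = trace (Z₀ ∘ q ∘ j) = trace Z₀ = tr m ((m.flip y)^k v₂₂)` by
`St_K1` (2) (`LinearMap.trace_comp_comm'`). -/
def St_ExG : Prop := ∀ (V : Type) [AddCommGroup V] [Module ℝ V] [Module.Finite ℝ V] (H : Type)
  [NormedAddCommGroup H] [InnerProductSpace ℝ H] [FiniteDimensional ℝ H]
  (m : V →ₗ[ℝ] V →ₗ[ℝ] V) (r : V →ₗ[ℝ] (H →ₗ[ℝ] H)), LSA m → Rep m r → ∀ x : ℝ × H × V,
  IsCoprime (m.flip x.2.2).charpoly (blk x.1 x.2.1 (SS r x.2.2)).charpoly →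
  ∃ g : ℝ[X], (∀ v : ℝ × H × V, v.2.2 = 0 → aeval ((extm m r).flip x) g v = 0) ∧
    (∀ v : ℝ × H × V, (aeval ((extm m r).flip x) g v).2.2 = v.2.2) ∧
    ∀ (v : ℝ × H × V) (k : ℕ),
      tr (extm m r) (((extm m r).flip x ^ k) (aeval ((extm m r).flip x) g v)) =
        tr m ((m.flip x.2.2 ^ k) v.2.2)

/-- [DND] (6.4) RR and ND for the subalgebra, and cyclicity.
Proof. `M = extm m r`, `RR m`: `((m.flip y).charpoly)` divides `(M.flip (0, 0, y)).charpoly`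
(`St_Ext2`), `Polynomial.Splits` of a divisor. `x₀ = (γ, w, y)` with `NDat M x₀`, `R = M.flip x₀`.
Cyclic: let `u : H` be orthogonal to all `S_y^k w`. `R^k (0, u, 0) = (0, S_y^k u, 0)` by induction
(`⟨S_y^k u, w⟩ = ⟨u, S_y^k w⟩ = 0`), its trace is `0` (`St_Ext2`), so `u = 0`: the span of the
`S_y^k w` is `⊤` (its orthogonal complement is `⊥`). `NDat m y`: `P₀ P₁ = (M.flip x₀).charpoly` is
separable (`St_Simple`; `M` is left-symmetric by `St_Ext1`), so `P₀, P₁` are coprime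
(`Polynomial.Separable` of a product); `g` from `St_ExG`. If `tr m ((m.flip y)^k v) = 0` for all `k`:
`tr M (R^k (g(R) (0, 0, v))) = 0` for all `k`, so `g(R) (0, 0, v) = 0`, and its last component
is `v`. -/
def St_DecND : Prop := ∀ (V : Type) [AddCommGroup V] [Module ℝ V] [Module.Finite ℝ V] (H : Type)
  [NormedAddCommGroup H] [InnerProductSpace ℝ H] [FiniteDimensional ℝ H]
  (m : V →ₗ[ℝ] V →ₗ[ℝ] V) (r : V →ₗ[ℝ] (H →ₗ[ℝ] H)), LSA m → Rep m r →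
  RR (extm m r) → ND (extm m r) → RR m ∧ ∃ y, NDat m y ∧ Cyc (SS r y)

/-- [GAM] Choice of `γ`.
Proof. For each `l` the set of `γ` for which `l` is an eigenvalue of `blk γ w S` has at most one
element: let `(α, u) ≠ 0`, `α γ + ⟨u, w⟩ = l α`, `(α/2) w + S u = l u`. If `α = 0`: `S u = l u`,
`⟨u, w⟩ = 0`, `⟨u, S^k w⟩ = l^k ⟨u, w⟩ = 0` for all `k`, `u = 0`, contradiction. So `α = 1` after
scaling. If also `γ', u'` (with `α' = 1`): `z = u - u'` satisfies `S z = l z` and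
`⟨z, w⟩/2 = ⟨z, l u - S u⟩ = 0`, so `z = 0` as before, `u = u'`, `γ = l - ⟨u, w⟩ = γ'`. The union over
`F` is finite, so there is `γ` outside; `l` is a root of the characteristic polynomial iff it is an
eigenvalue (`Module.End.hasEigenvalue_iff_isRoot_charpoly`). -/
def St_Gam : Prop := ∀ (H : Type) [NormedAddCommGroup H] [InnerProductSpace ℝ H]
  [FiniteDimensional ℝ H] (S : H →ₗ[ℝ] H) (w : H), S.IsSymmetric →
  Submodule.span ℝ (Set.range fun k : ℕ => (S ^ k) w) = ⊤ → ∀ F : Finset ℝ,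
  ∃ γ : ℝ, ∀ l ∈ F, (blk γ w S).charpoly.eval l ≠ 0

/-- [END] (6.5) ND for the extension.
Proof. `w` cyclic vector of `S_y`, `F` = the roots of `X * (m.flip y).charpoly`, `γ` from `St_Gam`.
`P₁ = (blk γ w (SS r y)).charpoly` splits (it is the characteristic polynomial of the symmetric
matrix `bmat`, `St_Ext2` with `stdOrthonormalBasis`; `Matrix.IsHermitian.splits_charpoly`) and has
no common root with `P₀ = (m.flip y).charpoly`, so they are coprime (a common irreducible factor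
would divide `P₁`, so it would have degree one), `g` from `St_ExG`. Let `tr M (R^k v) = 0` for all
`k`. Then `tr M (f(R) v) = 0` for every polynomial `f`, so `tr m ((m.flip y)^k v₂₂) = 0` for all `k`,
`v₂₂ = 0`. `v = (α, u, 0)`: `R^k v = (.., .., 0)` and its trace is its first component (`St_Ext2`).
Induction: the first component of `R^k v` vanishes for all `k`, so `α = 0`, and
`R (0, u, 0) = (⟨u, w⟩, S u, 0)`: `⟨u, w⟩ = 0`, and so on: `R^k (0, u, 0) = (0, S^k u, 0)`,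
`⟨S^k u, w⟩ = 0` for all `k`, so `u` is orthogonal to all `S^k w`, `u = 0`. The last part:
`0` is not a root of `P₁` and not of `P₀`. -/
def St_ExtND : Prop := ∀ (V : Type) [AddCommGroup V] [Module ℝ V] [Module.Finite ℝ V] (H : Type)
  [NormedAddCommGroup H] [InnerProductSpace ℝ H] [FiniteDimensional ℝ H]
  (m : V →ₗ[ℝ] V →ₗ[ℝ] V) (r : V →ₗ[ℝ] (H →ₗ[ℝ] H)), LSA m → Rep m r →
  ∀ y, NDat m y → Cyc (SS r y) → ∃ (γ : ℝ) (w : H), NDat (extm m r) (γ, w, y) ∧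
    ((m.flip y).charpoly.eval 0 ≠ 0 → ((extm m r).flip (γ, w, y)).charpoly.eval 0 ≠ 0)

/-- [DEC] (6.1)-(6.2) The decomposition by a leaf `c`.
Proof. `h = inner`, `D = m c` symmetric, `2 D² = D + c ⊗ c`, `D c = c` (`right`, `inn`). `Z = ker D`,
`W = {w | D w = (1/2) w}`. `D` is symmetric with eigenvalues `1, 1/2, 0` and the eigenspace of `1`
is `ℝ c`: for every `v`: `v = ⟨c, v⟩ c + w + y` with `w = 4 (D v - D² v)`
(`= 2 D v - 2 ⟨c, v⟩ c`, in `W`), `y = v - ⟨c, v⟩ c - w`; `⟨c, w⟩ = 0` for `w ∈ W` (`⟨c, w⟩ = ⟨D c, w⟩ =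
⟨c, w⟩/2`), `⟨c, y⟩ = 0`, `⟨w, y⟩ = 0`. So `Ψ.symm (γ, w, y) = γ c + w + y` is bijective. `LSA` with
`c`, (a, x arbitrary): `D(a*x) = (Da)*x + a*(Dx) - ⟨a,c⟩ Dx`. So for `a, x` eigenvectors with
eigenvalues `α ∈ {1/2, 0}`, `β`: `D(a*x) = (α + β) (a*x)`. Hence `w*w' ∈ ℝ c`, `w*y, y*w ∈ W`,
`y*y' ∈ Z`; `w*c = y*c = 0`, `c*w = w/2`, `c*y = 0`; `w*w' = μ c`, `⟨w,w'⟩ = tr m (w*w') = μ` (`Good.inn`).
`m₀` = restriction of `m` to `Z`, `r y w = y*w`, `S_y w := w*y`. (w,w',y): `⟨w, S_y w'⟩` is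
symmetric; (y,w,w'): `S_y = r y + (r y)ᵀ` (`⟨r(y)w, w'⟩ + ⟨w, r(y)w'⟩ = ⟨S_y w, w'⟩`), so
`S_y = SS r y`; (y,w,y') and (y,y',w) are the identities of `Rep`; `LSA m₀` is the restriction. -/
def St_Dec : Prop := ∀ (V : Type) [NormedAddCommGroup V] [InnerProductSpace ℝ V]
  [FiniteDimensional ℝ V] (m : V →ₗ[ℝ] V →ₗ[ℝ] V) (c : V), Good m → Leaf m c →
  ∃ (W Z : Submodule ℝ V) (m₀ : Z →ₗ[ℝ] Z →ₗ[ℝ] Z) (r : Z →ₗ[ℝ] (W →ₗ[ℝ] W))
    (Ψ : V ≃ₗ[ℝ] ℝ × W × Z), LSA m₀ ∧ Rep m₀ r ∧ AIso m (extm m₀ r) Ψ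

/-! ### C. Representations of an extension (section 7) -/

/-- [V1] (7.1), (7.2).
Proof. `c = (1,0,0)`, `P = SS ρ c`, `k = ρ c - (1/2) P` (skew: `kᵀ = -k`). For `x` with `c * x = β x`
(`x = c`: `β = 1`; `x = (0,w,0)`: `1/2`; `x = (0,0,y)`: `0`) `Rep.sym` gives
`β S_x = ρ(c) S_x + S_x ρ(c)ᵀ = (P S_x + S_x P)/2 + k S_x - S_x k`  (*).
`x = c`: `P - P² = k P - P k`; multiply by `P^j` and take traces: `tr P^(j+1) = tr P^(j+2)`
(`tr((kP - Pk) P^j) = 0`) for `j = 0, 1, 2, ..`, so `tr (P - P²)² = tr P² - 2 tr P³ + tr P⁴ = 0` and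
`P - P²` is symmetric, so `P² = P`, and `k P = P k`. (`tr(A²) = 0`, `A` symmetric, gives `A = 0`:
`tr (Aᵀ A) = ∑ ‖A b_i‖²`.)
In general let `x` be as above, `S = S_x`, and put `A = β S - (P S + S P)/2`, symmetric, `= k S - S k`.
`tr (A²)`: `tr (A A) = tr (A (k S - S k))`. `L(T) = P T + T P` commutes with `T ↦ k T - T k` (as
`k P = P k`), and `A = (β - L/2) S`, so `A = [k, S]` gives `tr(A A) = tr([k,S] A) = -tr(S [k, A])`..
simplest by blocks: `S = ∑ S_ij`, `S_ij = P_i S P_j`, `P_1 = P`, `P_0 = 1 - P`; `P_i (*) P_j`: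
`(β - (i+j)/2) S_ij = k S_ij - S_ij k` (`k` commutes with `P_i`); multiply by `S_ijᵀ = S_ji` from the
right and take the trace: `tr (k S_ij S_ji) = 0` (`k` skew, `S_ij S_ji` symmetric) and
`tr (S_ij k S_ji) = tr (k S_ji S_ij) = 0`. So `(β - (i+j)/2) tr (S_ij S_ji) = 0`: `S_ij = 0` unless
`i + j = 2β`. So (*) has left side `A = 0` and `k` commutes with `S_x`, for all three types, so with
all `S_x` (linearity). Take `x` with `S_x` cyclic: `k = p(S_x)` is symmetric (`St_Cyc` (b)), so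
`k = 0`: `ρ c = P/2`. `β = 0`: `P S_y = 0 = S_y P` (`S_01 = S_10 = S_11 = 0`). `β = 1/2`:
`P S_w + S_w P = S_w`. `Rep.lie` for `c, (0,w,0)`: `c*w - w*c = w/2`:
`(P ρ(w) - ρ(w) P)/2 = ρ(w)/2`; so `P ρ(w) P = 0` (multiply by `P` on both sides), `P ρ(w) = ρ(w)`
and `ρ(w) P = 0` (multiply by `P` on the left: `P ρ(w) - P ρ(w) P = P ρ(w)`, on the right:
`P ρ(w) P - ρ(w) P = ρ(w) P`, so `ρ(w) P = 0`, `P ρ(w) = ρ(w)`). Then `P S_w = P ρ(w) + P ρ(w)ᵀ =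
ρ(w) + (ρ(w) P)ᵀ = ρ(w)`. `Rep.lie` for `c, (0,0,y)`: `c*y - y*c = 0`: `P ρ(y) = ρ(y) P`. -/
def St_V1 : Prop := ∀ (V : Type) [AddCommGroup V] [Module ℝ V] [Module.Finite ℝ V] (W : Type)
  [NormedAddCommGroup W] [InnerProductSpace ℝ W] [FiniteDimensional ℝ W] (K : Type)
  [NormedAddCommGroup K] [InnerProductSpace ℝ K] [FiniteDimensional ℝ K]
  (m : V →ₗ[ℝ] V →ₗ[ℝ] V) (r : V →ₗ[ℝ] (W →ₗ[ℝ] W)) (ρ : (ℝ × W × V) →ₗ[ℝ] (K →ₗ[ℝ] K)),
  Sit m r ρ → V1c ρ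

/-- [V1B] (7.3). With `P = SS ρ (1,0,0)`, `S_w = SS ρ (0,w,0)`, `S_y = SS ρ (0,0,y)` and `P u = u`,
`P u' = u'`.
Proof. (a) `P (S_w u) = S_w u - S_w (P u) = 0` (`Sw`). (b) `(0,w,0) * (0,w',0) = ⟨w,w'⟩ c`, `Rep.sym`:
`⟨w,w'⟩ P = ρ(w) S_w' + S_w' ρ(w)ᵀ` with `ρ(w) = P S_w`, `ρ(w)ᵀ = S_w P`; apply to `u`, inner product
with `u'`: `⟨w,w'⟩ ⟨u,u'⟩ = ⟨P S_w S_w' u, u'⟩ + ⟨S_w' S_w P u, u'⟩ = ⟨S_w' u, S_w u'⟩ + ⟨S_w u, S_w' u'⟩`.
(c) `(0,w,0) * (0,0,y) = (0, S_y w, 0)` (`S_y w = SS r y w`): `S_(S_y w) = ρ(w) S_y + S_y ρ(w)ᵀ =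
P S_w S_y + S_y S_w P`; apply to `u`: `S_y u = S_y P u = 0` (`Sy'`): `= S_y (S_w u)`.
(d) `(0,0,y) * (0,w,0) = (0, r(y) w, 0)`: `S_(r(y)w) = ρ(y) S_w + S_w ρ(y)ᵀ`, `ρ(y)ᵀ = S_y - ρ(y)`;
apply to `u`: `= ρ(y) (S_w u) + S_w (S_y u) - S_w (ρ(y) u)`, `S_y u = 0`. -/
def St_V1B : Prop := ∀ (V : Type) [AddCommGroup V] [Module ℝ V] [Module.Finite ℝ V] (W : Type)
  [NormedAddCommGroup W] [InnerProductSpace ℝ W] [FiniteDimensional ℝ W] (K : Type)
  [NormedAddCommGroup K] [InnerProductSpace ℝ K] [FiniteDimensional ℝ K]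
  (m : V →ₗ[ℝ] V →ₗ[ℝ] V) (r : V →ₗ[ℝ] (W →ₗ[ℝ] W)) (ρ : (ℝ × W × V) →ₗ[ℝ] (K →ₗ[ℝ] K)),
  Sit m r ρ → V1c ρ → ∀ u u' : K, SS ρ (1, 0, 0) u = u → SS ρ (1, 0, 0) u' = u' →
  (∀ w, SS ρ (1, 0, 0) (SS ρ (0, w, 0) u) = 0) ∧
  (∀ w w', (inner ℝ (SS ρ (0, w, 0) u) (SS ρ (0, w', 0) u') : ℝ) +
    inner ℝ (SS ρ (0, w', 0) u) (SS ρ (0, w, 0) u') = inner ℝ w w' * inner ℝ u u') ∧
  (∀ y w, SS ρ (0, 0, y) (SS ρ (0, w, 0) u) = SS ρ (0, SS r y w, 0) u) ∧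
  (∀ y w, ρ (0, 0, y) (SS ρ (0, w, 0) u) =
    SS ρ (0, r y w, 0) u + SS ρ (0, w, 0) (ρ (0, 0, y) u))

/-- [V2] (7.4) `dim H1 ≤ 1`.
Proof. By `St_CycLine` there is `x = (γ, w, y)` with `SS ρ x` and `SS r y` both cyclic: `x₁` with
`SS ρ x₁` cyclic, `y₂` with `SS r y₂` cyclic, `x(t) = x₁ + t (x₂ - x₁)`, `x₂ = (0,0,y₂)`; the bad `t`
for each of the two are finitely many (the first family is cyclic at `t = 0`, the second one at
`t = 1`). Let `w_j` be an orthonormal eigenbasis of `SS r y` with eigenvalues `m_j`; they are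
different: by `St_Cyc` (c) (`w_i, w_j` with the same eigenvalue are proportional). For `u, u'` in
`H1 = {u | P u = u}`: `S_y (S_(w_j) u) = m_j S_(w_j) u` ((c) of `St_V1B`), `S_y` is symmetric, so
`⟨S_(w_i) u, S_(w_j) u'⟩ = 0` for `i ≠ j`, and `= ⟨u,u'⟩/2` for `i = j` ((b) of `St_V1B`). By bilinearity
`⟨S_v u, S_v' u'⟩ = ⟨v,v'⟩ ⟨u,u'⟩/2` for all `v, v' ∈ W` (E). So for `u ∈ H1`, `(α, v) ∈ ℝ × W` and
`ψ_u(α, v) = α u + √2 S_v u`: `S_x ψ_u(α, v) = ψ_u(N(α, v))`, `N(α, v) = (γ α + ⟨w,v⟩/√2,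
(α/√2) w + SS r y v)`: indeed `S_x u = γ u + S_w u` (`Sy'`), `S_x S_v u = γ P S_v u + S_w S_v u + S_y S_v u
= S_w S_v u + S_(SS r y v) u`, and `S_w S_v u = P S_w S_v u` (`S_w z = P S_w z + S_w P z` with
`P z = 0`, `z = S_v u`) is in `H1` with `⟨S_w S_v u, u'⟩ = ⟨S_v u, S_w u'⟩ = ⟨v,w⟩ ⟨u,u'⟩/2` for all
`u' ∈ H1`, so `S_w S_v u = (⟨v,w⟩/2) u`. `N` is symmetric on `ℝ × W` (Euclidean), so it has an
eigenvector `(α, v) ≠ 0`, `N (α, v) = l (α, v)` (`WithLp 2 (ℝ × W)`, or: `N` is conjugate to a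
symmetric matrix, `bmat`; any real eigenvalue suffices). `ψ_u` is injective for `u ≠ 0`
(`‖ψ_u(α,v)‖² = (α² + ‖v‖²) ‖u‖²` by (E), `P S_v u = 0`). So `ψ_u(α,v)`, `ψ_u'(α,v)` are eigenvectors of
`S_x` with eigenvalue `l`, by `St_Cyc` (c) `ψ_u'(α,v) = t ψ_u(α,v)`, `ψ_(u' - t u)(α,v) = 0`, so
`u' = t u`. -/
def St_V2 : Prop := ∀ (V : Type) [AddCommGroup V] [Module ℝ V] [Module.Finite ℝ V] (W : Type)
  [NormedAddCommGroup W] [InnerProductSpace ℝ W] [FiniteDimensional ℝ W] (K : Type)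
  [NormedAddCommGroup K] [InnerProductSpace ℝ K] [FiniteDimensional ℝ K]
  (m : V →ₗ[ℝ] V →ₗ[ℝ] V) (r : V →ₗ[ℝ] (W →ₗ[ℝ] W)) (ρ : (ℝ × W × V) →ₗ[ℝ] (K →ₗ[ℝ] K)),
  Sit m r ρ → V1c ρ → ∀ u u' : K, SS ρ (1, 0, 0) u = u → SS ρ (1, 0, 0) u' = u' → u ≠ 0 →
  ∃ t : ℝ, u' = t • u

/-- [V3] (7.5) The alternative.
Proof. `P = SS ρ (1,0,0)`. If `P = 0`: `ρ(1,0,0) = 0`, `ρ(0,w,0) = P S_w = 0` (`rw`), so
`ρ x = ρ (0,0,x₂₂)`, first case (`Rep m` is the restriction of `Rep (extm m r)` to the elements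
`(0,0,y)`: `(0,0,y) * (0,0,y') = (0,0,y*y')`; cyclic: `SS ρ x = SS ρ (0,0,x₂₂)`). If `P ≠ 0` take
`u = P z ≠ 0` and normalise: `P u = u`, `⟨u,u⟩ = 1`. `ρ(y) u ∈ H1` (`ry`), so `ρ(y) u = t u` (`St_V2`),
and `2 t = ⟨S_y u, u⟩ = 0` (`S_y u = S_y P u = 0`): `ρ(y) u = 0`, and also `(ρ(y))ᵀ u = S_y u - ρ(y) u = 0`.
`b(w) := S_w u`. `⟨b w, b w'⟩ = ⟨w,w'⟩/2` ((b) of `St_V1B` with `u' = u`), `⟨u, b w⟩ = ⟨P u, b w⟩ =
⟨u, P b w⟩ = 0`. `S_y (b w) = b (S_y w)`, `ρ(y) (b w) = b (r(y) w)`, so also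
`ρ(y)ᵀ (b w) = b (S_y w - r(y) w)`. `su`: `S_y u = 0`. `sb`: `P (b w') = 0`,
`S_w (b w') = P S_w (b w')` (by `Sw`, `P (b w') = 0`) `= t u` by `St_V2` with
`t = ⟨S_w b w', u⟩ = ⟨b w', b w⟩ = ⟨w,w'⟩/2`. `K2` = orthogonal complement of `u` and all `b w`. It is
invariant under `ρ(y)`, `ρ(y)ᵀ` (they map the span `K1` of `u`, `b w` into itself), so
`r2 y` = restriction of `ρ(0,0,y)` to `K2`, its adjoint is the restriction of `ρ(y)ᵀ`, `SS r2 y` is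
the restriction of `S_y`, and `Rep m r2` is the restriction of `Rep (extm m r) ρ`. `s2`: for
`z ∈ K2`: `P z = 0` (`P z ∈ H1`, `P z = t u`, `t = ⟨P z, u⟩ = ⟨z, u⟩ = 0`), `S_w z = P S_w z = ⟨S_w z, u⟩ u =
⟨z, b w⟩ u = 0`. `cyc`: `x = (γ,w,y)` with `S_x` cyclic: the orthogonal projection `π : K → K2`
satisfies `π S_x = (SS r2 y) π` (`S_x` maps `K1` to `K1` and `K2` to `K2`), `St_Cyc` (d). -/
def St_V3 : Prop := ∀ (V : Type) [AddCommGroup V] [Module ℝ V] [Module.Finite ℝ V] (W : Type)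
  [NormedAddCommGroup W] [InnerProductSpace ℝ W] [FiniteDimensional ℝ W] (K : Type)
  [NormedAddCommGroup K] [InnerProductSpace ℝ K] [FiniteDimensional ℝ K]
  (m : V →ₗ[ℝ] V →ₗ[ℝ] V) (r : V →ₗ[ℝ] (W →ₗ[ℝ] W)) (ρ : (ℝ × W × V) →ₗ[ℝ] (K →ₗ[ℝ] K)),
  Sit m r ρ → V1c ρ →
  ((∀ x, ρ x = ρ (0, 0, x.2.2)) ∧
    Rep m (ρ ∘ₗ LinearMap.inr ℝ ℝ (W × V) ∘ₗ LinearMap.inr ℝ W V) ∧
    ∃ y, Cyc (SS (ρ ∘ₗ LinearMap.inr ℝ ℝ (W × V) ∘ₗ LinearMap.inr ℝ W V) y)) ∨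
  ∃ (u : K) (K2 : Submodule ℝ K) (r2 : V →ₗ[ℝ] (K2 →ₗ[ℝ] K2)), V3c m r ρ u K2 r2

/-- [V4] (7.5) The matrix form of the second case.
Proof. The family `u`, `√2 S_(b_i) u`, `b2_j` (indexed by `(Unit ⊕ ι) ⊕ κ`) is orthonormal (`norm`, `ub`,
`bb`, `mem2`) and spans `K`: if `z` is orthogonal to all of them it is orthogonal to `u` and all
`S_w u`, so `z ∈ K2` (`mem2`), so it is `0` (`OrthonormalBasis.mk` with
`Orthonormal` and `⊤ ≤ span`, or `OrthonormalBasis.mkOfOrthogonalEqBot`). The entries of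
`omat B (SS ρ (γ,w,y))` by `su`, `sb`, `s2`: `⟨u, S_x u⟩ = γ`, `⟨√2 S_(b_i) u, S_x u⟩ = √2 ⟨b_i, w⟩/2 =
w_i/√2`, `⟨√2 S_(b_i) u, S_x √2 S_(b_j) u⟩ = 2 ⟨b_i, SS r y b_j⟩/2`, mixed entries with `b2_j` vanish
(`SS ρ x` is symmetric and maps `K2` into `K2`). -/
def St_V4 : Prop := ∀ (V : Type) [AddCommGroup V] [Module ℝ V] [Module.Finite ℝ V] (W : Type)
  [NormedAddCommGroup W] [InnerProductSpace ℝ W] [FiniteDimensional ℝ W] (K : Type)
  [NormedAddCommGroup K] [InnerProductSpace ℝ K] [FiniteDimensional ℝ K]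
  (m : V →ₗ[ℝ] V →ₗ[ℝ] V) (r : V →ₗ[ℝ] (W →ₗ[ℝ] W)) (ρ : (ℝ × W × V) →ₗ[ℝ] (K →ₗ[ℝ] K))
  (u : K) (K2 : Submodule ℝ K) (r2 : V →ₗ[ℝ] (K2 →ₗ[ℝ] K2)), V3c m r ρ u K2 r2 →
  ∀ (ι κ : Type) [Fintype ι] [Fintype κ] (b : OrthonormalBasis ι ℝ W)
    (b2 : OrthonormalBasis κ ℝ K2), ∃ B : OrthonormalBasis ((Unit ⊕ ι) ⊕ κ) ℝ K,
    ∀ γ w y, omat B (SS ρ (γ, w, y)) =
      fromBlocks (bmat γ (fun i => b.repr w i) (omat b (SS r y))) 0 0 (omat b2 (SS r2 y))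

/-! ### D. Digraphs (section 8) -/

/-- [ENT] Entries and removal of a source (no hypothesis on `k` is needed).
Proof. First `D.ext0 x l = (D.del k).ext0 x' l` for `(D.del k).PathP l` (`x' p = x (D.pP k p)`): if
`l ≠ [0]` both are `x ⟨l, _⟩` (`PathP.of_del`), otherwise both are `0`. If `p <+: q` the list
`q.drop (p.length - 1)` is a path of `D.del k`: it is a suffix of `q` (`List.drop_suffix`), so chain
and membership are inherited (`List.IsChain.suffix` or similar), nonempty as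
`p.length ≤ q.length`, `p ≠ []`. Symmetric in the other case. Second part (the sink): similar. -/
def St_Ent : Prop := ∀ (D : Dig) (k : ℕ) (x : D.Path → ℝ) (p q : List ℕ), (D.del k).PathP p →
  (D.del k).PathP q →
  Dig.ent (D.ext0 x) p q = Dig.ent ((D.del k).ext0 fun p => x (D.pP k p)) p q

/-- [CO] The coordinates are bijective, and their values on unit vectors.
Proof. The map `Unit ⊕ Q ⊕ Path' → D.Path` (`D.pK`, `D.pQ`, `D.pP`) is bijective: a path `l` of `D`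
with first entry `k`: `l = [k]` or `l = k :: q`, `q ≠ []`; `q` does not contain `k` (the entries
decrease: `Dig.pairwise_of_isChain`), it is a path of `D.del k` and its first entry `j` satisfies
`D.E k j`. A path with first entry `≠ k` does not contain `k` (no edge ends at `k`: `Source`; in a
chain every entry but the first one is the end of an edge). The inverse of `D.co`: from
`(γ, w, y)` define `x` on the three parts (`w q / √2`). -/
def St_Co : Prop := ∀ (D : Dig) (k : ℕ) (hk : D.Source k),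
  Function.Bijective (D.co hk.1) ∧
  D.co hk.1 (Pi.single (D.pK hk.1) 1) = (1, 0, 0) ∧
  ∀ (i : ℕ) (hi : i ∈ (D.del k).vs),
    D.co hk.1 (Pi.single (D.pK (Finset.mem_of_mem_erase hi)) 1) =
      (0, 0, Pi.single ((D.del k).pK hi) 1)

/-- [QA] The paths with first vertex in `T`, `k ∉ T`, `k` a source: they do not contain `k` (see
`St_Co`), so they are the same lists; the entries agree by `St_Ent`. -/
def St_QA : Prop := ∀ (D : Dig) (k : ℕ) (hk : D.Source k) (T : Finset ℕ), k ∉ T →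
  ∃ e : (D.del k).Q T ≃ D.Q T, ∀ x : D.Path → ℝ,
    (D.matQ T x).submatrix e e = (D.del k).matQ T (D.co hk.1 x).2.2

/-- [QB] The paths with first vertex in `T ∋ k`, `k` a source: `[k]`, the `k.q` with
`q ∈ Q (D.del k) (D.out k)`, and the paths (of `D.del k`) with first vertex in `T.erase k`. Entries:
`([k], [k])`: `[k]` is a prefix, `x_[k] = γ`; `([k], k.q)`: `x_(k.q) = w_q/√2` (`w_q = √2 x_(k.q)`);
`(k.p, k.q)`: `k.p <+: k.q` iff `p <+: q`, `(k :: q).drop ((k :: p).length - 1) =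
q.drop (p.length - 1)` (`p ≠ []`), so it is the entry `(p, q)`, by `St_Ent` (via a version for `ext0`
values); lists with different first entries (`k` and not `k`) are not prefixes of each other:
entry `0`; `(p, q)` in the last part: `St_Ent`. -/
def St_QB : Prop := ∀ (D : Dig) (k : ℕ) (hk : D.Source k) (T : Finset ℕ), k ∈ T →
  ∃ e : ((Unit ⊕ (D.del k).Q (D.out k)) ⊕ (D.del k).Q (T.erase k)) ≃ D.Q T,
    ∀ x : D.Path → ℝ, (D.matQ T x).submatrix e e =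
      fromBlocks (bmat (D.co hk.1 x).1 (fun q => (D.co hk.1 x).2.1 q)
        ((D.del k).matQ (D.out k) (D.co hk.1 x).2.2)) 0 0
        ((D.del k).matQ (T.erase k) (D.co hk.1 x).2.2)

/-- [QC] `Path = Q vs` (a path with first entry `0` is `[0]`: there is no edge `0 → j`), the
matrices are symmetric with split characteristic polynomial (`Matrix.IsHermitian`, real), the
characteristic polynomial of `matQ T` is the product over `T` (entries between paths with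
different first vertices vanish: a prefix has the same first entry; induction on `T`:
`Q (insert i T) ≃ Q {i} ⊕ Q T`, `Matrix.charpoly_fromBlocks_zero₁₂`), and `Q {0}` has the only
element `[0]`, entry `ext0 x [0] = 0`, so its characteristic polynomial is `X`. -/
def St_QC : Prop := ∀ (D : Dig) (x : D.Path → ℝ),
  (∃ e : D.Path ≃ D.Q D.vs, (D.matQ D.vs x).submatrix e e = D.mat x) ∧
  (D.mat x).IsSymm ∧ (D.mat x).charpoly.Splits ∧
  ∀ T : Finset ℕ, (D.matQ T x).IsSymm ∧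
    (D.matQ T x).charpoly = ∏ i ∈ T, (D.matQ {i} x).charpoly ∧
    (D.matQ {0} x).charpoly = X

/-- [CB] Consequences for characteristic polynomials.
Proof. (a) `D.mat x = matQ vs` (`St_QC`), `St_QB` with `T = vs` (`(D.del k).vs = vs.erase k`), block
diagonal, `Matrix.charpoly_submatrix_equiv` / `Matrix.charpoly_reindex`. (b) `St_QB` with `T = {k}`,
`{k}.erase k = ∅`, `Q ∅` empty (characteristic polynomial `1`). (c) `St_QA` with `T = {i}`.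
(d) `charpoly (matQ T) = ∏ i ∈ T`, `T ⊆ insert 0 vs`, divides `X * ∏ i ∈ vs = X * charpoly mat`, which
is separable if `charpoly mat` is separable and does not vanish at `0`; a divisor of a separable
polynomial is separable; `toEuclideanLin (matQ T x)` is symmetric with the same characteristic
polynomial, `St_Cyc` (a). -/
def St_CB : Prop := ∀ (D : Dig) (x : D.Path → ℝ),
  (∀ (k : ℕ) (hk : D.Source k),
    (D.mat x).charpoly = ((D.del k).mat (D.co hk.1 x).2.2).charpoly *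
      (bmat (D.co hk.1 x).1 (fun q => (D.co hk.1 x).2.1 q)
        ((D.del k).matQ (D.out k) (D.co hk.1 x).2.2)).charpoly ∧
    (D.matQ {k} x).charpoly = (bmat (D.co hk.1 x).1 (fun q => (D.co hk.1 x).2.1 q)
        ((D.del k).matQ (D.out k) (D.co hk.1 x).2.2)).charpoly ∧
    ∀ i, i ≠ k → (D.matQ {i} x).charpoly = ((D.del k).matQ {i} (D.co hk.1 x).2.2).charpoly) ∧
  ∀ T : Finset ℕ, T ⊆ insert 0 D.vs → (D.mat x).charpoly.Separable →
    (D.mat x).charpoly.eval 0 ≠ 0 →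
    (D.matQ T x).charpoly.Separable ∧ Cyc (Matrix.toEuclideanLin (D.matQ T x))

/-- [ADD] Adding a source, existence of sources, and dimension zero.
Proof. (a) `k` = a number larger than all vertices and than `0` (`(insert 0 D.vs).sup id + 1`),
`D1.vs = insert k D.vs`, `D1.E i j = D.E i j ∨ (i = k ∧ j ∈ T)`. `D1.del k = D`: `Dig` is determined by
`vs` and `E` (prove an ext lemma; `funext`, `propext`). (b) `k = max vs`: `E i k` gives `k < i ∈ vs`.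
(c) `D` = empty digraph; `D.Path` is empty; all characteristic polynomials are `1`. `H` with
`S = SS r x = 0` cyclic: `H` is spanned by the `S^k v`, i.e. by `v`; `finrank H ≤ 1`. If
`finrank H = 0` take `T = ∅`, if `finrank H = 1` take `T = {0}`: `D.Q {0}` has the only element `[0]`
and `matQ {0} = 0 = omat b (SS r x)` (`V` is trivial, `SS r x = SS r 0 = 0`). -/
def St_Add : Prop := (∀ (D : Dig) (T : Finset ℕ), T ⊆ insert 0 D.vs →
    ∃ (D1 : Dig) (k : ℕ), D1.Source k ∧ D1.del k = D ∧ D1.out k = T) ∧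
  (∀ D : Dig, D.vs.Nonempty → ∃ k, D.Source k) ∧
  ∀ (V : Type) [AddCommGroup V] [Module ℝ V] [Module.Finite ℝ V] (m : V →ₗ[ℝ] V →ₗ[ℝ] V),
    Subsingleton V → ∃ (D : Dig) (Φ : V ≃ₗ[ℝ] (D.Path → ℝ)), D.Full m Φ

/-- [STEP] (8.1) The induction step.
Proof. `C = LinearEquiv.ofBijective (D.co hk.1)` (`St_Co`). `Φ1 = (id × b.repr × Φ) ≫ C.symm`, so
`D.co hk.1 (Φ1 (γ, w, y)) = (γ, b.repr w, Φ y)`. Model: `St_Ext2` (with the basis `b`) and `St_CB` (a).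
Representations `ρ` on `K` of `extm m r` with some `SS ρ x` cyclic: `Sit`, `St_V1`, `St_V3`. First case:
`Full` for `m` gives `T ⊆ insert 0 (D.del k).vs` and a basis indexed by `(D.del k).Q T`; `k ∉ T`
(`k ∉ (D.del k).vs`, `k ≠ 0` as `0 ∉ vs`); reindex by `St_QA`. Second case: `Full` for `r2` gives `T''`
and `b2`; `St_V4`; `T = insert k T''`, `T.erase k = T''`; reindex by `St_QB`. (`omat` of a reindexed
basis is the submatrix.) -/
def St_Step : Prop := ∀ (D : Dig) (k : ℕ) (_ : D.Source k) (V : Type) [AddCommGroup V]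
  [Module ℝ V] [Module.Finite ℝ V] (W : Type) [NormedAddCommGroup W] [InnerProductSpace ℝ W]
  [FiniteDimensional ℝ W] (m : V →ₗ[ℝ] V →ₗ[ℝ] V) (r : V →ₗ[ℝ] (W →ₗ[ℝ] W))
  (Φ : V ≃ₗ[ℝ] ((D.del k).Path → ℝ)) (b : OrthonormalBasis ((D.del k).Q (D.out k)) ℝ W),
  (D.del k).Full m Φ → Rep m r → (∃ y, Cyc (SS r y)) →
  (∀ y, omat b (SS r y) = (D.del k).matQ (D.out k) (Φ y)) →
  ∃ Φ1 : (ℝ × W × V) ≃ₗ[ℝ] (D.Path → ℝ), D.Full (extm m r) Φ1

/-- [INDA] (8.1) Main induction, on `finrank V`.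
Proof. `finrank V = 0`: `St_Add` (c). Otherwise `St_Norm`: `m ≅ m'` (`Good`) on a Euclidean space,
`c` a leaf (`St_Lf`), `St_Dec`: `m' ≅ extm m₀ r` on `ℝ × W × Z`, `finrank Z < finrank V`; `RR`, `ND` for
`extm m₀ r` by `St_Tra`; `St_DecND`: `RR m₀`, `ND m₀`, some `SS r y` cyclic. Induction hypothesis for
`m₀`: `D'`, `Φ'`, and for the representation `r`: `T`, `b`. `St_Add` (a): `D`, `k` with `D.del k = D'`,
`D.out k = T` (`subst`/`obtain rfl`). `St_Step`. Transport back along the isomorphisms (`Full` for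
`extm m₀ r` and `AIso m (extm m₀ r) Ψ` give `Full` for `m` with `Ψ.trans Φ1`: `St_Tra`). -/
def St_IndA : Prop := ∀ (V : Type) [AddCommGroup V] [Module ℝ V] [Module.Finite ℝ V]
  (m : V →ₗ[ℝ] V →ₗ[ℝ] V), LSA m → RR m → ND m →
  ∃ (D : Dig) (Φ : V ≃ₗ[ℝ] (D.Path → ℝ)), D.Full m Φ

/-! ### E. The converse (8.2) -/

/-- [MR] From representations by matrices to representations.
Proof. `(toEuclideanLin A).adjoint = toEuclideanLin Aᴴ` (`Matrix.toEuclideanLin_conjTranspose_eq_adjoint`),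
`Aᴴ = Aᵀ` for real matrices, `toEuclideanLin (A * B) = toEuclideanLin A ∘ₗ toEuclideanLin B`. Third part:
`omat` of the standard basis (`EuclideanSpace.basisFun`) of `toEuclideanLin A` is `A`. -/
def St_MR : Prop := ∀ (V : Type) [AddCommGroup V] [Module ℝ V] (ι : Type) [Fintype ι]
  [DecidableEq ι] (m : V →ₗ[ℝ] V →ₗ[ℝ] V) (r : V →ₗ[ℝ] Matrix ι ι ℝ), MRep m r →
  Rep m (toH r) ∧ (∀ x, SS (toH r) x = Matrix.toEuclideanLin (r x + (r x)ᵀ)) ∧
  (∀ A : Matrix ι ι ℝ, omat (EuclideanSpace.basisFun ι ℝ) (Matrix.toEuclideanLin A) = A) ∧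
  ∀ A : Matrix ι ι ℝ, (Matrix.toEuclideanLin A).charpoly = A.charpoly

/-- [MX] Constructions of representations by matrices of the extension `extm m (toH r)`.
Proof. (a) `Rep` only sees the last component (`(a * x)₂₂ = a₂₂ * x₂₂`). (b) The new representation
`ρ(γ, w, y) = [[γ/2, wᵀ/√2], [0, r(y)]]`; `S = [[γ, wᵀ/√2], [w/√2, S_y]] = bmat γ w S_y`. The identities,
block by block, for `a = (α, u, b)`, `x = (γ, w, y)`: `Matrix.fromBlocks_multiply`,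
`fromBlocks_transpose`, `fromBlocks_add`, `fromBlocks_inj`; the products of `wᵀ/√2` (row) and `u/√2`
(column) give `⟨u, w⟩/2`, twice gives `⟨u, w⟩`. (c) direct sums: block diagonal. (d) reindexing. -/
def St_MX : Prop := ∀ (V : Type) [AddCommGroup V] [Module ℝ V] (m : V →ₗ[ℝ] V →ₗ[ℝ] V)
  (ι : Type) [Fintype ι] [DecidableEq ι] (r : V →ₗ[ℝ] Matrix ι ι ℝ), MRep m r →
  (∀ (κ : Type) [Fintype κ] (r' : V →ₗ[ℝ] Matrix κ κ ℝ), MRep m r' →
    MRep (extm m (toH r)) (r' ∘ₗ LinearMap.snd ℝ (EuclideanSpace ℝ ι) V ∘ₗ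
      LinearMap.snd ℝ ℝ (EuclideanSpace ℝ ι × V))) ∧
  (∃ ρ : (ℝ × EuclideanSpace ℝ ι × V) →ₗ[ℝ] Matrix (Unit ⊕ ι) (Unit ⊕ ι) ℝ,
    MRep (extm m (toH r)) ρ ∧
    ∀ x, ρ x + (ρ x)ᵀ = bmat x.1 (fun i => x.2.1 i) (r x.2.2 + (r x.2.2)ᵀ)) ∧
  (∀ (κ : Type) [Fintype κ] (r' : V →ₗ[ℝ] Matrix κ κ ℝ), MRep m r' →
    ∃ ρ : V →ₗ[ℝ] Matrix (ι ⊕ κ) (ι ⊕ κ) ℝ, MRep m ρ ∧
      ∀ x, ρ x + (ρ x)ᵀ = fromBlocks (r x + (r x)ᵀ) 0 0 (r' x + (r' x)ᵀ)) ∧
  (∀ (κ : Type) [Fintype κ] (e : κ ≃ ι), ∃ ρ : V →ₗ[ℝ] Matrix κ κ ℝ, MRep m ρ ∧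
      ∀ x, ρ x + (ρ x)ᵀ = (r x + (r x)ᵀ).submatrix e e) ∧
  (∀ (V' : Type) [AddCommGroup V'] [Module ℝ V'] (m' : V' →ₗ[ℝ] V' →ₗ[ℝ] V') (Ψ : V ≃ₗ[ℝ] V'),
    AIso m m' Ψ → MRep m' (r ∘ₗ Ψ.symm.toLinearMap))

/-- The statement of the converse for one digraph. -/
def ConvD (D : Dig) : Prop :=
  ∃ m : (D.Path → ℝ) →ₗ[ℝ] (D.Path → ℝ) →ₗ[ℝ] (D.Path → ℝ), LSA m ∧
    (∃ x, NDat m x ∧ (m.flip x).charpoly.eval 0 ≠ 0) ∧ D.Model m (LinearEquiv.refl ℝ _) ∧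
    ∀ T : Finset ℕ, T ⊆ insert 0 D.vs → ∃ r : (D.Path → ℝ) →ₗ[ℝ] Matrix (D.Q T) (D.Q T) ℝ,
      MRep m r ∧ ∀ x, r x + (r x)ᵀ = D.matQ T x

/-- [EXK] The extension step with the coordinates of the digraph: the algebra structure
transported by `D.co`.
Proof. `m'`, `r'_T` from `ConvD (D.del k)`; `r = r'_(D.out k)`; `M = extm m' (toH r)`,
`C = LinearEquiv.ofBijective (D.co hk.1)` (`St_Co`), `m1 a b = C.symm (M (C a) (C b))`
(`LinearMap.compl₁₂`, `LinearMap.compr₂`). `LSA`: `St_MR`, `St_Ext1`, `St_Tra`. ND: `y` with `NDat m' y`,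
`P₀(y, 0) ≠ 0`; `RR m'` (`Model`, `St_QC`), so `P₀(y, .)` is separable (`St_Simple`), so `matQ (out k) y` is
cyclic (`St_CB` (d)), `SS (toH r) y = toEuclideanLin (matQ (out k) y)` (`St_MR`), `St_ExtND`. Model:
`St_Ext2` with the standard basis, `St_MR` (third part), `St_CB` (a). -/
def St_ExK : Prop := ∀ (D : Dig) (k : ℕ) (hk : D.Source k)
  (m' : ((D.del k).Path → ℝ) →ₗ[ℝ] ((D.del k).Path → ℝ) →ₗ[ℝ] ((D.del k).Path → ℝ))
  (r : ((D.del k).Path → ℝ) →ₗ[ℝ]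
    Matrix ((D.del k).Q (D.out k)) ((D.del k).Q (D.out k)) ℝ),
  LSA m' → (∃ x, NDat m' x ∧ (m'.flip x).charpoly.eval 0 ≠ 0) →
  (D.del k).Model m' (LinearEquiv.refl ℝ _) → MRep m' r →
  (∀ x, r x + (r x)ᵀ = (D.del k).matQ (D.out k) x) →
  ∃ m1 : (D.Path → ℝ) →ₗ[ℝ] (D.Path → ℝ) →ₗ[ℝ] (D.Path → ℝ), LSA m1 ∧
    (∃ x, NDat m1 x ∧ (m1.flip x).charpoly.eval 0 ≠ 0) ∧ D.Model m1 (LinearEquiv.refl ℝ _) ∧
    ∀ a b, D.co hk.1 (m1 a b) = extm m' (toH r) (D.co hk.1 a) (D.co hk.1 b)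

/-- [CONV] (8.2) The converse.
Proof. Induction on the number of vertices. No vertices: `D.Path` is empty, `m = 0`, and for `T ⊆ {0}`
`r = 0` (`matQ T x = 0`: the only list is `[0]`, `ext0 x [0] = 0`). Otherwise a source `k`
(`St_Add` (b)), `ConvD (D.del k)`, `D.out k ⊆ insert 0 (D.del k).vs` (no edge ends at `k`), `St_ExK`.
Representations for `T ⊆ insert 0 D.vs`: if `k ∉ T`: `St_MX` (a) for `r'_T`, reindexed by `St_QA`;
if `k ∈ T`: `St_MX` (b) and (c) (for `extm`, with (a) for `r'_(T.erase k)`), reindexed by `St_QB`;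
transport to `m1` by `St_MX` (e) with `Ψ = C.symm`. -/
def St_Conv : Prop := ∀ D : Dig, ConvD D

/-! ### F. Uniqueness (section 9) -/

/-- [U1] (9.1) The characteristic polynomial determines the algebra.
Proof. `p_k(x) = tr R_x^k` is determined by the characteristic polynomial of `R_x` (the trace of the
`k`-th power is the power sum of the roots: over `ℂ`, or Newton; or: two endomorphisms of the same
space with the same characteristic polynomial have the same traces of powers,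
`LinearMap.charpoly` → `Matrix.charpoly`, `Matrix.trace_pow_eq_sum_roots_pow` or
`aroots`). So `pw m = pw m'`, derivatives: `tr m (R_x^k v) = tr m' (R'_x^k v) =: φ_k(x, v)`
(`St_dpw` for `k + 1`, uniqueness of derivatives, `St_K1` (2)). `φ_k(x, R_x v) = φ_(k+1)(x, v) = φ_k(x, R'_x v)`. So with
`d(x, v) = m v x - m' v x` (bilinear): `tr m (R_x^k (d(x, v))) = 0` for all `x, v, k` (E). `x₀` an ND
point: `d(x₀, v) = 0` for all `v`. (E) at `x₀ + ε x`: `d(x₀ + ε x, v) = ε d(x, v)`, so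
`tr m (R_(x₀ + ε x)^k (d(x, v))) = 0` for `ε ≠ 0`, by continuity in `ε` also for `ε = 0`, so
`d(x, v) = 0`. -/
def St_U1 : Prop := ∀ (V : Type) [AddCommGroup V] [Module ℝ V] [Module.Finite ℝ V]
  (m m' : V →ₗ[ℝ] V →ₗ[ℝ] V), LSA m → LSA m' → ND m →
  (∀ x, (m.flip x).charpoly = (m'.flip x).charpoly) → m = m'

/-- [STR] The structure of a modelled algebra at a source.
Proof. `ConvD (D.del k)` (`St_Conv`) gives `m₀`, and `r` for `T = D.out k`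
(`⊆ insert 0 (D.del k).vs`); `m1` from `St_ExK`. Transport `m1` to `V` by `Φ`:
`m2 a b = Φ.symm (m1 (Φ a) (Φ b))`; `m` and `m2` are left-symmetric with the same characteristic
polynomials (`Model`), so `m = m2` (`St_U1`). -/
def St_Str : Prop := ∀ (D : Dig) (k : ℕ) (hk : D.Source k) (V : Type) [AddCommGroup V]
  [Module ℝ V] [Module.Finite ℝ V] (m : V →ₗ[ℝ] V →ₗ[ℝ] V) (Φ : V ≃ₗ[ℝ] (D.Path → ℝ)),
  LSA m → ND m → D.Model m Φ →
  ∃ (m₀ : ((D.del k).Path → ℝ) →ₗ[ℝ] ((D.del k).Path → ℝ) →ₗ[ℝ] ((D.del k).Path → ℝ))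
    (r : ((D.del k).Path → ℝ) →ₗ[ℝ]
      Matrix ((D.del k).Q (D.out k)) ((D.del k).Q (D.out k)) ℝ),
    LSA m₀ ∧ (∃ x, NDat m₀ x ∧ (m₀.flip x).charpoly.eval 0 ≠ 0) ∧
    (D.del k).Model m₀ (LinearEquiv.refl ℝ _) ∧ MRep m₀ r ∧
    (∀ x, r x + (r x)ᵀ = (D.del k).matQ (D.out k) x) ∧
    ∀ a b, D.co hk.1 (Φ (m a b)) = extm m₀ (toH r) (D.co hk.1 (Φ a)) (D.co hk.1 (Φ b))

/-- [U2] (9.2) Leaves.
Proof. Induction on the number of vertices. No vertices: `V` is trivial, `tr m c = 0 ≠ 1`. Let `k` be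
a source (`St_Add` (b)), `St_Str`: `V ≅ extm m₀ (toH r)`, `c ↔ (γ, w, y)`. `m.flip c` has rank `≤ 1` and
trace `1`, so its characteristic polynomial is `t^(n-1) (t - 1)`; in fact use: all values
`a * c = φ(a) c` with `φ` linear (`c ≠ 0`), `φ(c) = tr m c = 1`. In the extension:
`(α, u, b) * (γ, w, y) = (α γ + ⟨u, w⟩, (α/2) w + S_y u + r(b) w, b * y)` is a multiple of `(γ, w, y)`.
Case `y = 0`: `γ ≠ 0 ∨ w ≠ 0`. `(0, w, 0)`: `(⟨w,w⟩, S_0 w, 0) = (⟨w, w⟩, 0, 0)` is a multiple of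
`(γ, w, 0)`: so `⟨w,w⟩ = 0` or `w = 0`: `w = 0`. Then `tr = γ = 1` (`St_Ext2`), so
`co (Φ c) = (1, 0, 0)`, `Φ c = Pi.single (D.pK _) 1` (`St_Co`). Case `y ≠ 0`: `φ` vanishes on all
`(α, u, 0)` (last component `0 = φ · y`), so `α γ + ⟨u, w⟩ = 0`, `(α/2) w + S_y u = 0` for all `α, u`:
`γ = 0`, `w = 0`, `S_y = 0`. And `b * y = φ(b) y`, `tr m₀ y = tr - γ - tr S_y = 1`. By induction (for
`m₀`, `D.del k`, `refl`): `y = Pi.single ((D.del k).pK hi) 1`, `i` a source of `D.del k`. `i` is a source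
of `D`: an edge `D.E j i` with `j ≠ k` is an edge of `D.del k`; `D.E k i` would mean `i ∈ D.out k`, then
the list `[i] ∈ (D.del k).Q (D.out k)` and the diagonal entry of `matQ (D.out k) y = S_y = 0` at `[i]`
is `ext0 y [i] = y_[i] = 1`, contradiction. `Φ c = Pi.single (D.pK _) 1` by `St_Co` (third part). -/
def St_U2 : Prop := ∀ (D : Dig) (V : Type) [AddCommGroup V] [Module ℝ V] [Module.Finite ℝ V]
  (m : V →ₗ[ℝ] V →ₗ[ℝ] V) (Φ : V ≃ₗ[ℝ] (D.Path → ℝ)), LSA m → ND m → D.Model m Φ →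
  ∀ c : V, tr m c = 1 → (∀ a, ∃ t : ℝ, m a c = t • c) →
  ∃ (k : ℕ) (hk : D.Source k), Φ c = Pi.single (D.pK hk.1) 1

/-- [U3A] (9.3) Matching of the sets of targets.
Proof. `P_i` = characteristic polynomial of `D.matQ {i} x`, `P'_j` the same for `D'`, `x'`. `St_QC`:
`charpoly (matQ T) = ∏ i ∈ T, P_i`, `P_0 = P'_0 = X`, `charpoly (mat x) = ∏ i ∈ vs, P_i`. So
`∏ i ∈ insert 0 vs, P_i = X * charpoly (mat x)` is separable (it does not vanish at `0`). `P_i`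
(`i ∈ insert 0 vs`) splits (symmetric real matrix) and has positive degree (`[i]` is a path), so it
has a root `l`. If `P_i`, `P_i'` (`i, i' ∈ insert 0 vs`) have a common root then `i = i'` (otherwise
`(X - l)²` divides the product). Let `i ∈ T`, `P_i(l) = 0`. Then `∏ j ∈ T', P'_j` vanishes at `l`, so
`P'_j(l) = 0` for some `j ∈ T'`, `i' = π⁻¹ j ∈ insert 0 vs`, `P_i' = P'_j` (also for `j = 0`), so `i = i'`,
`π i = j ∈ T'`. Conversely let `π i ∈ T'`, so `i ∈ insert 0 vs`, `P_i(l) = 0`, `P'_(π i) = P_i`, so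
`∏ i' ∈ T, P_i'` vanishes at `l`, `P_i'(l) = 0`, `i' ∈ T`, `i = i'`. -/
def St_U3A : Prop := ∀ (D D' : Dig) (π : Equiv.Perm ℕ), π 0 = 0 →
  (∀ i, i ∈ D.vs ↔ π i ∈ D'.vs) → ∀ (x : D.Path → ℝ) (x' : D'.Path → ℝ),
  (∀ i ∈ D.vs, (D.matQ {i} x).charpoly = (D'.matQ {π i} x').charpoly) →
  (D.mat x).charpoly.Separable → (D.mat x).charpoly.eval 0 ≠ 0 →
  ∀ T T' : Finset ℕ, T ⊆ insert 0 D.vs → T' ⊆ insert 0 D'.vs →
  (D.matQ T x).charpoly = (D'.matQ T' x').charpoly → ∀ i, i ∈ T ↔ π i ∈ T'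

/-- [U3B] (9.3) Isomorphisms of extensions which map `c = (1, 0, 0)` to `c`.
Proof. `c * (γ, w, y) = (γ, w/2, 0)`. `Θ (0,0,y) = (γ', w', y')`: `c * (0,0,y) = 0`, so
`(γ', w'/2, 0) = 0`. `Θ (0,w,0) = (γ', w', y')`: `c * (0,w,0) = (1/2) (0,w,0)`, so
`(γ', w'/2, 0) = (γ'/2, w'/2, y'/2)`, `γ' = 0`, `y' = 0`. The same for `Θ.symm`. So
`θ₀ y = (Θ (0,0,y)).2.2` and `θ w = (Θ (0,w,0)).2.1` are linear isomorphisms, `Θ x` has the last
component `θ₀ x.2.2`, `θ₀` is an isomorphism (`(0,0,y)*(0,0,y') = (0,0,m y y')`), and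
`(0,w,0) * (0,0,y) = (0, SS r y w, 0)` gives `θ (SS r y w) = SS r' (θ₀ y) (θ w)`:
`SS r' (θ₀ y) = θ.conj (SS r y)`, `LinearEquiv.charpoly_conj`. -/
def St_U3B : Prop := ∀ (V V' : Type) [AddCommGroup V] [Module ℝ V] [AddCommGroup V']
  [Module ℝ V'] (H H' : Type) [NormedAddCommGroup H] [InnerProductSpace ℝ H]
  [FiniteDimensional ℝ H] [NormedAddCommGroup H'] [InnerProductSpace ℝ H']
  [FiniteDimensional ℝ H'] (m : V →ₗ[ℝ] V →ₗ[ℝ] V) (m' : V' →ₗ[ℝ] V' →ₗ[ℝ] V')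
  (r : V →ₗ[ℝ] (H →ₗ[ℝ] H)) (r' : V' →ₗ[ℝ] (H' →ₗ[ℝ] H'))
  (Θ : (ℝ × H × V) ≃ₗ[ℝ] (ℝ × H' × V')), AIso (extm m r) (extm m' r') Θ →
  Θ (1, 0, 0) = (1, 0, 0) →
  ∃ θ₀ : V ≃ₗ[ℝ] V', AIso m m' θ₀ ∧ (∀ x, (Θ x).2.2 = θ₀ x.2.2) ∧
    ∀ y, (SS r y).charpoly = (SS r' (θ₀ y)).charpoly

/-- [U3] (9.3) Uniqueness of the digraph.
Proof. Induction on the number of vertices of `D`. `D.vs = ∅`: `V` is trivial (`D.Path` is empty), so
`D'.Path` is empty, `D'.vs = ∅` (`[i]` is a path), `π = id`. Otherwise let `k` be a source of `D`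
(`St_Add`), `c = Φ.symm (Pi.single (D.pK _) 1)`. `St_Str` for `(D, k, Φ)`: `m₀`, `r`; `c ↔ (1, 0, 0)`
(`St_Co`), so `a * c = a₁ c` (`a * (1,0,0) = (a₁, 0, 0)`) and `tr m c = 1` (`St_Ext2`, `St_Tra`). `St_U2` for
`D'`: a source `k'` of `D'` with `Φ' c = Pi.single (D'.pK _) 1`. `St_Str` for `(D', k', Φ')`: `m₀'`, `r'`.
`Θ = (D'.co ∘ Φ') ∘ (D.co ∘ Φ)⁻¹` (`LinearEquiv.ofBijective`, `St_Co`) satisfies the hypotheses of
`St_U3B` for `toH r`, `toH r'`: `θ₀`. `D.del k` models `m₀` by `refl` and `D'.del k'` models `m₀` by `θ₀`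
(`Model m₀'`, `St_Tra`), the induction hypothesis gives `π₀` and
`P_i(y) = P'_(π₀ i)(θ₀ y)` for `i ∈ (D.del k).vs`. `π = Equiv.swap (π₀ k) k' ∘ π₀` (first `π₀`):
`π k = k'`, `π i = π₀ i` for `i ∈ insert 0 (D.del k).vs` (`π₀ i ∈ insert 0 (D'.del k').vs`, so
`π₀ i ≠ k'`, and `π₀ i ≠ π₀ k`). The sets `T = D.out k`, `T' = D'.out k'`: take `y` with `NDat m₀ y`,
`P₀(y, 0) ≠ 0` (`St_Str`); `charpoly (mat y)` is separable (`St_Simple`; `RR m₀` by `Model` and `St_QC`);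
`charpoly (matQ T y) = charpoly (SS (toH r) y) = charpoly (matQ T' (θ₀ y))` (`St_MR`, `St_U3B`);
`St_U3A`: `j ∈ T ↔ π₀ j ∈ T'`, i.e. `D.E k j ↔ D'.E k' (π j)` (for `j ∈ insert 0 (D.del k).vs`; otherwise
both sides are false). Edges `D.E i j` with `i ≠ k`: `j ≠ k` (source), so they are the edges of
`D.del k`; the same for `D'`. Finally `P_k(Φ x) = P'_(k')(Φ' x)`: `charpoly (m.flip x) =
charpoly (mat (D.co (Φ x)).2.2) * charpoly (matQ {k} (Φ x))` (`Model`, `St_CB` (a), (b)) and the same for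
`D'`, and the first factors agree (`θ₀`), cancel (monic). For `i ∈ (D.del k).vs` use `St_CB` (c). -/
def St_U3 : Prop := ∀ (V : Type) [AddCommGroup V] [Module ℝ V] [Module.Finite ℝ V]
  (m : V →ₗ[ℝ] V →ₗ[ℝ] V) (D D' : Dig) (Φ : V ≃ₗ[ℝ] (D.Path → ℝ)) (Φ' : V ≃ₗ[ℝ] (D'.Path → ℝ)),
  LSA m → ND m → D.Model m Φ → D'.Model m Φ' →
  ∃ π : Equiv.Perm ℕ, π 0 = 0 ∧ (∀ i, i ∈ D.vs ↔ π i ∈ D'.vs) ∧
    (∀ i j, D.E i j ↔ D'.E (π i) (π j)) ∧
    ∀ i ∈ D.vs, ∀ x, (D.matQ {i} (Φ x)).charpoly = (D'.matQ {π i} (Φ' x)).charpoly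

/-! ### G. Final assembly -/

/-- A monic polynomial of degree `n` is determined by its coefficients `n - 1 - k`, `k < n`. -/
theorem monic_ext_coeff {n : ℕ} {p q : ℝ[X]} (hp : p.Monic) (hq : q.Monic)
    (hp' : p.natDegree = n) (hq' : q.natDegree = n)
    (h : ∀ k : Fin n, p.coeff (n - 1 - k) = q.coeff (n - 1 - k)) : p = q := by
  ext j
  rcases lt_trichotomy j n with hj | hj | hj
  · have h1 := h ⟨n - 1 - j, by omega⟩
    have h2 : n - 1 - (n - 1 - j) = j := by omega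
    simpa only [h2] using h1
  · have h1 : p.coeff n = 1 := hp' ▸ hp.coeff_natDegree
    have h2 : q.coeff n = 1 := hq' ▸ hq.coeff_natDegree
    rw [hj, h1, h2]
  · rw [Polynomial.coeff_eq_zero_of_natDegree_lt (by omega),
      Polynomial.coeff_eq_zero_of_natDegree_lt (by omega)]

/-- [EV] Linear equivalence in terms of characteristic polynomials.
Proof. `eval x (D.sig e k) = (D.mat fun p => x (e.symm p)).charpoly.coeff (n - 1 - k)` (evaluation is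
a ring homomorphism: `Matrix.charpoly_map`, `D.mat` of `fun p => X (e.symm p)` mapped by `eval x`).
`LinEquiv (D.sig e) σ`: matrix `A` invertible with `aeval (A X) (σ' i) = σ i`; polynomials over `ℝ` are
equal iff all values agree (`MvPolynomial.funext`), so it says
`eval (A x) (D.sig e k) = eval x (σ k)`. The linear isomorphism is `x ↦ (A x) ∘ e.symm`. -/
def St_Ev : Prop := ∀ (n : ℕ) (D : Dig) (e : Fin n ≃ D.Path)
  (σ : Fin n → MvPolynomial (Fin n) ℝ),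
  Helper28.Nij.LinEquiv (D.sig e) σ ↔
    ∃ A : (Fin n → ℝ) ≃ₗ[ℝ] (D.Path → ℝ), ∀ x (k : Fin n),
      (D.mat (A x)).charpoly.coeff (n - 1 - k) = MvPolynomial.eval x (σ k)

/-- [REL] Relabelling.
Proof. `π` maps paths to paths (`List.map π`): chains are preserved (`E i j ↔ E' (π i) (π j)`,
`List.isChain_map`), membership in `insert 0 vs`. So `ε : D.Path ≃ D'.Path`; `p <+: q` iff
`p.map π <+: q.map π` (injective), `(q.map π).drop j = (q.drop j).map π`, so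
`D'.mat x` reindexed by `ε` is `D.mat (x ∘ ε)`. -/
def St_Rel : Prop := ∀ D D' : Dig, D.Iso D' → ∃ ε : D.Path ≃ D'.Path,
  ∀ x : D'.Path → ℝ, (D'.mat x).submatrix ε ε = D.mat (x ∘ ε)

/-- [MAIN1] The classification.
Proof. `⟹`: `St_B1b` gives `m` on `Fin n → ℝ`; `RR m` by `St_B3`. `St_IndA`: `D`, `Φ`, `Model`. `card D.Path = n` (`finrank`), `e : Fin n ≃ D.Path`,
`St_Ev` with `A = Φ`. `⟸`: `St_Ev` gives `A`; `St_Conv D`: `m` on `D.Path → ℝ`, transported to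
`Fin n → ℝ` by `A` (`St_Tra`): `m'`, `LSA`, `ND`, `(m'.flip x).charpoly = (D.mat (A x)).charpoly`, so
`St_B2`: `Admissible σ`; `RR m'` by `St_QC`, `RealRooted σ` by `St_B3`. -/
def St_Main1 : Prop := ∀ (n : ℕ) (σ : Fin n → MvPolynomial (Fin n) ℝ),
  (Helper28.Nij.Admissible σ ∧ RealRooted σ) ↔
    ∃ (D : Dig) (e : Fin n ≃ D.Path), Helper28.Nij.LinEquiv (D.sig e) σ

/-- [MAIN2] Uniqueness.
Proof. `⟹`: `St_Ev` with `σ = D'.sig e'`: `A : (Fin n → ℝ) ≃ (D.Path → ℝ)`, and (evaluate `D'.sig`)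
`(D.mat (A x)).charpoly = (D'.mat (x ∘ e'.symm)).charpoly` (`monic_ext_coeff`; both are monic of
degree `n` = number of paths). `m` on `D.Path → ℝ` from
`St_Conv D` is modelled by `D` (`refl`) and by `D'` (`Φ' = ` inverse of `A` followed by `e'`), `St_U3`.
`⟸`: `St_Rel`, `ε`; `A x = x ∘ e'.symm ∘ ε`; `St_Ev`. -/
def St_Main2 : Prop := ∀ (n : ℕ) (D D' : Dig) (e : Fin n ≃ D.Path) (e' : Fin n ≃ D'.Path),
  Helper28.Nij.LinEquiv (D.sig e) (D'.sig e') ↔ D.Iso D'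

end Pool.Agent.RRC
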